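import Pool.Agent.MP_bae0ed_lc.H52.Prim

/-!
The algorithm.
-/

set_option autoImplicit false

namespace Pool.Agent.MP_bae0ed_lc.H52

open Pool.Agent.MP_0c5eb8_lc

/-- The end of a greedy contraction. -/
def col (w : Un) (ok : Tab → ℕ × ℕ → Bool) (X : Tab) : Tab := (gstep w ok)^[w.length + 1] X

/-! ### Two pairs `ab`, `xy` and a triangle `t` on them -/

def qAB (c : Ctx) (w : Un) (D : ℕ × ℕ × ℕ × ℕ) (e2 : Ev) (X : Tab) : ℕ :=
  rkC c w (ctrG w (ctrG w X D.2.1 D.1) D.2.2.2 D.2.2.1) e2 + (ad X D.1 D.2.1).toNat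

def inD (D : ℕ × ℕ × ℕ × ℕ) (u : ℕ) : Bool :=
  decide (u = D.1) || decide (u = D.2.1) || decide (u = D.2.2.1) || decide (u = D.2.2.2)

def okQ (c : Ctx) (w : Un) (D : ℕ × ℕ × ℕ × ℕ) (t : ℕ × ℕ × ℕ) (e1 e2 : Ev) (X : Tab)
    (q : ℕ × ℕ) : Bool :=
  !inD D q.1 && ad X q.1 q.2 && !ad (ctrG w X q.1 q.2) D.2.2.1 D.2.2.2 &&
    (!ad (ctrG w X q.1 q.2) D.1 D.2.1 || ad X D.1 D.2.1) &&
    decide (rkC c w (addTri w X t.1 t.2.1 t.2.2) e1 ≤
      rkC c w (addTri w (ctrG w X q.1 q.2) t.1 t.2.1 t.2.2) e1 + 1) &&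
    decide (qAB c w D e2 X ≤ qAB c w D e2 (ctrG w X q.1 q.2) + 1)

def objQ (w : Un) (D : ℕ × ℕ × ℕ × ℕ) (X : Tab) : List Obj :=
  [po w (ctrG w X D.2.1 D.1), po w (ctrG w X D.2.2.2 D.2.2.1)]

def baseQ (c : Ctx) (w : Un) (D : ℕ × ℕ × ℕ × ℕ) (e2 : Ev) (X : Tab) : Ev :=
  mergeAll c w (objQ w D X) e2 ((rg w).flatMap fun u =>
    [lift c w (ctrG w X D.2.1 D.1) [(u, D.2.2.1), (D.2.2.2, D.2.2.1)] e2,
     lift c w (ctrG w X D.2.1 D.1) [(D.2.2.1, u), (D.2.2.2, u)] e2,
     lift c w (ctrG w X D.2.2.2 D.2.2.1) [(u, D.1), (D.2.1, D.1)] e2])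

def algQ (c : Ctx) (w : Un) (D : ℕ × ℕ × ℕ × ℕ) (t : ℕ × ℕ × ℕ) (e1 e2 : Ev) (X : Tab) : Ev :=
  grun c w w (okQ c w D t e1 e2) (objQ w D) (rg w) (baseQ c w D e2) X

/-! ### At most two identifications: from a generic to a collided evaluation -/

def okV (c : Ctx) (w : Un) (φ : List ℕ) (e1 e2 : Ev) (X : Tab) (q : ℕ × ℕ) : Bool :=
  ((rg w).all fun x => decide (x = q.1) || !decide (gm φ x = gm φ q.1)) && ad X q.1 q.2 &&
    ((rg w).all fun x => !ad X q.1 x || decide (x = q.2) || !decide (gm φ x = gm φ q.2)) &&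
    decide (rkC c w X e1 ≤ rkC c w (ctrG w X q.1 q.2) e1 + 1) &&
    decide (rkC c w (pushG w w φ X) e2 ≤ rkC c w (pushG w w φ (ctrG w X q.1 q.2)) e2 + 1)

def baseV (c : Ctx) (w : Un) (φ : List ℕ) (e2 : Ev) (X : Tab) : Ev :=
  mergeAll c w [(w, X, φ)] e2 ((rg w).map (reval c w [(w, X, φ)] e2))

def algV (c : Ctx) (w : Un) (φ : List ℕ) (e1 e2 : Ev) (X : Tab) : Ev :=
  grun c w w (okV c w φ e1 e2) (fun Y => [(w, Y, φ)]) (rg w) (baseV c w φ e2) X

/-! ### Two evaluations that differ at one vertex `u` -/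

def rkI (c : Ctx) (w : Un) (D : ℕ × ℕ × ℕ × ℕ) (u : ℕ) (h h' : Ev) (X : Tab) : ℕ :=
  rkC c (w ++ w) (addTri (w ++ w) (dblG w (sett w (inD D)) X X) D.1 D.2.1 u) (app w h h')

def okI (c : Ctx) (w : Un) (D : ℕ × ℕ × ℕ × ℕ) (u : ℕ) (h h' : Ev) (X : Tab) (q : ℕ × ℕ) : Bool :=
  !inD D q.1 && !decide (q.1 = u) && ad X q.1 q.2 && !decide (q.2 = u) &&
    decide (rkI c w D u h h' X ≤ rkI c w D u h h' (ctrG w X q.1 q.2) + 2)

def algI (c : Ctx) (w : Un) (D : ℕ × ℕ × ℕ × ℕ) (u : ℕ) (h h' : Ev) (X : Tab) : Ev :=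
  grun c w w (okI c w D u h h')
    (fun Y => [po w (addTri w Y D.1 D.2.1 D.2.2.1), po w (addTri w Y D.1 D.2.1 D.2.2.2)])
    (rg w) (fun _ => h) X

/-! ### Lines split off -/

/-- The points that look collinear with `a` and `b`. -/
def ell (c : Ctx) (w : Un) (X : Tab) (a b σ : ℕ) (e : Ev) : St :=
  sett w fun x => decide (x = a) || decide (x = b) || decide (rkC c w (addTri w X a b x) e ≤ σ)

def okC (c : Ctx) (w : Un) (l : St) (e : Ev) (X : Tab) (q : ℕ × ℕ) : Bool :=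
  !bt l q.1 && ad X q.1 q.2 && decide (rkC c w X e ≤ rkC c w (ctrG w X q.1 q.2) e + 1)

def colC (c : Ctx) (w : Un) (l : St) (e : Ev) (X : Tab) : Tab := col w (okC c w l e) X

def objT (w : Un) (a b : ℕ) (X : Tab) : List Obj := (rg w).map fun x => po w (addTri w X a b x)

def chi (w : Un) (l : St) (j : ℕ) : List ℕ :=
  (rg w).map fun x => if x < j ∧ bt l x = false then x + w.length else x

def caQ2 (c : Ctx) (w : Un) (l : St) (e f : Ev) (X : Tab) : Ev :=
  grun c w (w ++ w) (okC c w l e) (fun Y => [po (w ++ w) (dblG w l X Y)]) (iota2 w l)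
    (fun Y => line c (w ++ w) [(w, addG w X Y, rg w)] (ev0 (w ++ w)) (app w f f)) X

def caQ3 (c : Ctx) (w : Un) (a b : ℕ) (l : St) (e f : Ev) (X : Tab) : Ev :=
  line c (w ++ w)
    (po (w ++ w) (dblG w l X X) :: (rg (true :: w)).flatMap fun j =>
      (w, X, chi w l j) :: (rg w).map fun x => (w, addTri w X a b x, chi w l j))
    (caQ2 c w l e f X) (app w e e)

def caOuts (c : Ctx) (w : Un) (a b : ℕ) (l : St) (X : Tab) (Q : Ev) : List Ev :=
  ((rg (true :: w)).map fun j => cmp w (chi w l j) Q) ++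
    (triples w).map fun q =>
      algI c w (a, b, q.2.1, q.2.2) q.1 (cmp w (chi w l q.1) Q) (cmp w (chi w l (q.1 + 1)) Q) X

def algCA (c : Ctx) (w : Un) (a b : ℕ) (l : St) (e f : Ev) (X : Tab) : List Ev :=
  grun c w w (okC c w l e) (objT w a b) (rg w) (fun _ => e) X ::
    caOuts c w a b l X (caQ3 c w a b l e f X)

/-! ### Many identifications -/

def nfix (w : Un) (φ : List ℕ) : ℕ := ((rg w).filter fun x => !decide (gm φ x = x)).length

def redF (c : Ctx) (w : Un) (φ : List ℕ) (g : Ev) (X0 : Tab) : Ev :=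
  mergeAll c w [po w X0] (ev0 w)
    ((pairs w).map fun q => if gm φ q.1 = gm φ q.2 ∧ gm φ q.1 ≠ q.1 then
      lift c w X0 (q :: (rg w).map fun x => (x, gm φ x)) g else g)

def redRound (c : Ctx) (w : Un) (φ : List ℕ) (g : Ev) (X : Tab) (a b σ : ℕ) (e : Ev) : Ev :=
  mergeAll c w (po w X :: objT w a b X) e
    (algCA c w a b (ell c w X a b σ e) e
      (redF c w φ g (addG w X (colC c w (ell c w X a b σ e) e X))) X)

def redE (c : Ctx) (w : Un) (φ : List ℕ) (g : Ev) (X : Tab) (σ : ℕ) (e : Ev) : Ev :=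
  (redRound c w φ g X
    (pick (pairs w) (fun q => !decide (q.1 = q.2) && decide (gm φ q.1 = gm φ q.2)) (0, 0)).1
    (pick (pairs w) (fun q => !decide (q.1 = q.2) && decide (gm φ q.1 = gm φ q.2)) (0, 0)).2
    σ)^[w.length] e

def redC (c : Ctx) (w : Un) (φ : List ℕ) (g : Ev) (X : Tab) (e : Ev) : List Ev :=
  (quads w).flatMap fun D =>
    [(D.1, D.2.1, D.2.2.1), (D.1, D.2.1, D.2.2.2)].map fun t =>
      algQ c w D t e
        (line c w [po w (ctrG w (ctrG w X D.2.1 D.1) D.2.2.2 D.2.2.1)] (ev0 w) (cmp w φ g)) X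

def redOk (c : Ctx) (w : Un) (φ : List ℕ) (X : Tab) (σ : ℕ) (r : (ℕ × ℕ) × Ev) : Bool :=
  !decide (r.1.1 = r.1.2) && decide (gm φ r.1.1 = gm φ r.1.2) && !decide (gm φ r.1.1 = r.1.1) &&
    propC c w (fullG w) r.2 && decide (σ ≤ rkC c w (ctrG w X r.1.1 r.1.2) r.2)

def redPick (c : Ctx) (w : Un) (φ : List ℕ) (g : Ev) (X : Tab) (σ : ℕ) (e : Ev) : (ℕ × ℕ) × Ev :=
  pick ((pairs w).flatMap fun q => (redC c w φ g X (redE c w φ g X σ e)).map fun f => (q, f))
    (redOk c w φ X σ) ((0, 0), [])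

def redNext (w : Un) (φ : List ℕ) (X : Tab) (r : (ℕ × ℕ) × Ev) : Tab × List ℕ × Ev :=
  (ctrG w X r.1.1 r.1.2, (rg w).map (fun x => if x = r.1.1 then x else gm φ x), r.2)

def redStep (c : Ctx) (w : Un) (g : Ev) (σ : ℕ) (s : Tab × List ℕ × Ev) : Tab × List ℕ × Ev :=
  if nfix w s.2.1 ≤ 2 then s else redNext w s.2.1 s.1 (redPick c w s.2.1 g s.1 σ s.2.2)

def redEnd (c : Ctx) (w : Un) (g : Ev) (s : Tab × List ℕ × Ev) : Ev := algV c w s.2.1 s.2.2 g s.1

/-- From a generic evaluation `e` of `X` to a collided one. -/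
def algM (c : Ctx) (w : Un) (φ : List ℕ) (g e : Ev) (σ : ℕ) (X : Tab) : Ev :=
  redEnd c w g ((redStep c w g σ)^[w.length] (X, φ, e))

/-! ### Free splittings -/

def ntB (w : Un) (X : Tab) (r : ℕ × St) : Bool :=
  ((rg w).any fun x => bt r.2 x) && (rg w).any fun x => xor (bt r.2 x) (ad X r.1 x)

/-- Candidates for a free splitting at a vertex of `Y`, inside the allowed set `A y`. -/
def frees (c : Ctx) (w : Un) (X : Tab) (P : List Ev) (Y : St) (A : ℕ → St) : List (ℕ × St) :=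
  (((rg w).filter (bt Y)).flatMap fun y => (nul c w X P y (A y)).map fun Z => (y, Z)).filter
    (ntB w X)

/-- The spare vertex. -/
def sp (w : Un) : ℕ := w.length - 1

def del (w : Un) (C : St) (u : ℕ) : St := sett w fun x => bt C x && !decide (x = u)

def closeNew (c : Ctx) (w : Un) (X : Tab) (e0 : Ev) (r : ℕ × St) (outs : List Ev) : Ev :=
  line c w [po w X, (w, splitG w X r.1 (sp w) r.2, upd w (sp w) r.1)]
    (algV c w (upd w (sp w) r.1)
      (mergeAll c w [po w (splitG w X r.1 (sp w) r.2)] (ev0 w) outs) e0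
      (splitG w X r.1 (sp w) r.2)) e0

def closeUpd (c : Ctx) (w : Un) (X Xp : Tab) (e0 : Ev) (s : List Ev × Ev) (r : ℕ × St)
    (outs : List Ev) : List Ev × Ev :=
  (closeNew c w X e0 r outs :: s.1, mergeAll c w [po w Xp] s.2 outs)

def closeStep (c : Ctx) (w : Un) (X : Tab) (C : St) (z : ℕ) (e0 : Ev) (Xp : Tab)
    (gen : ℕ × St → List Ev) (s : List Ev × Ev) : List Ev × Ev :=
  if (frees c w X s.1 (del w C z) (del w C)).isEmpty then s else
    closeUpd c w X Xp e0 s ((frees c w X s.1 (del w C z) (del w C)).headD (0, []))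
      (gen ((frees c w X s.1 (del w C z) (del w C)).headD (0, [])))

/-- Collect evaluations until no nontrivial splitting is free. -/
def close (c : Ctx) (w : Un) (X : Tab) (C : St) (z : ℕ) (e0 : Ev) (Xp : Tab) (q0 : Ev)
    (gen : ℕ × St → List Ev) : List Ev × Ev :=
  (closeStep c w X C z e0 Xp gen)^[w.length * w.length + 1] ([e0], q0)

/-! ### Independence of all sets of four points -/

def obj4 (w : Un) (X : Tab) : List Obj :=
  po w X :: ((triples w).map fun t => po w (addTri w X t.1 t.2.1 t.2.2)) ++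
    (quads w).map fun D => po w (addTri w (addTri w X D.1 D.2.1 D.2.2.1) D.1 D.2.1 D.2.2.2)

def bad4 (c : Ctx) (w : Un) (X : Tab) (C : St) (ρ : ℕ) (e : Ev) (D : ℕ × ℕ × ℕ × ℕ) : Bool :=
  bt C D.1 && bt C D.2.1 && bt C D.2.2.1 && bt C D.2.2.2 &&
    !decide (D.1 = D.2.1) && !decide (D.1 = D.2.2.1) && !decide (D.1 = D.2.2.2) &&
    !decide (D.2.1 = D.2.2.1) && !decide (D.2.1 = D.2.2.2) && !decide (D.2.2.1 = D.2.2.2) &&
    decide (rkC c w (addTri w (addTri w X D.1 D.2.1 D.2.2.1) D.1 D.2.1 D.2.2.2) e < ρ + 2)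

def indOuts (c : Ctx) (w : Un) (P : List Ev) (ρ : ℕ) (e : Ev) (a b : ℕ) (X1 : Tab) : List Ev :=
  algCA c w a b (ell c w X1 a b (ρ + 1) e) e
    (mergeAll c w [po w (addG w X1 (colC c w (ell c w X1 a b (ρ + 1) e) e X1))] (ev0 w) P) X1

def indAt (c : Ctx) (w : Un) (X : Tab) (P : List Ev) (ρ : ℕ) (e : Ev) (D : ℕ × ℕ × ℕ × ℕ) : Ev :=
  mergeAll c w (obj4 w X) e (indOuts c w P ρ e D.1 D.2.1 (addTri w X D.1 D.2.1 D.2.2.1))

def indRound (c : Ctx) (w : Un) (X : Tab) (C : St) (P : List Ev) (ρ : ℕ) (e : Ev) : Ev :=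
  indAt c w X P ρ e (pick (quads w) (bad4 c w X C ρ e) (0, 0, 0, 0))

def algInd (c : Ctx) (w : Un) (X : Tab) (C : St) (P : List Ev) (ρ : ℕ) : Ev :=
  (indRound c w X C P ρ)^[(quads w).length] (mergeAll c w (obj4 w X) (ev0 w) P)

/-! ### Lifting a splitting through a contraction -/

def wit (c : Ctx) (w : Un) (H : Tab) (P : List Ev) (y : ℕ) : Ev :=
  mergeAll c w [po w H] (ev0 w) (P.map (cmp w (upd w (sp w) y)))

def liftT (w : Un) (H : Tab) (z u y x : ℕ) : Tab :=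
  addTri w (addTri w (addTri w H z u y) z u x) y (sp w) u

def liftE (c : Ctx) (w : Un) (H : Tab) (P : List Ev) (e : Ev) (z u y : ℕ) : Ev :=
  mergeAll c w (po w H :: (rg w).map fun x => po w (liftT w H z u y x)) (wit c w H P y)
    ((rg w).map fun x => lift c w (liftT w H z u y x) [(sp w, y)] e)

def liftF (c : Ctx) (w : Un) (H H2 : Tab) (P : List Ev) (e : Ev) (y : ℕ) (HY : Tab) : Ev :=
  mergeAll c w [po w HY] (ev0 w) [wit c w H P y, wit c w H2 P y, lift c w HY [(sp w, y)] e]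

def liftG (c : Ctx) (w : Un) (H H2 : Tab) (P : List Ev) (ρ : ℕ) (e : Ev) (z u y : ℕ) (eH : Ev) :
    Ev :=
  mergeAll c w [po w (addTri w H z u y), po w (addTri w H z u (sp w))] eH
    (algCA c w z u (ell c w H z u (ρ + 2) eH) eH
      (liftF c w H H2 P e y (addG w H (colC c w (ell c w H z u (ρ + 2) eH) eH H))) H)

def liftH (c : Ctx) (w : Un) (H : Tab) (e : Ev) (z u y : ℕ) (g : Ev) : List Ev :=
  [algQ c w (z, u, y, sp w) (z, u, y) g e H, algQ c w (z, u, y, sp w) (z, u, sp w) g e H]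

def liftK (c : Ctx) (w : Un) (P : List Ev) (ρ : ℕ) (e : Ev) (z u y : ℕ) (H H2 : Tab) : List Ev :=
  liftH c w H e z u y (liftG c w H H2 P ρ e z u y (liftE c w H P e z u y))

def algL (c : Ctx) (w : Un) (X : Tab) (P : List Ev) (ρ : ℕ) (e : Ev) (z u : ℕ) (r : ℕ × St) :
    List Ev :=
  liftK c w P ρ e z u r.1 (splitG w X r.1 (sp w) r.2)
    (splitG w X r.1 (sp w) (sett w fun x => xor (bt r.2 x) (decide (x = u) || decide (x = z))))

/-! ### The contraction path -/

/-- Graph, vertex set, exceptional vertex, rank, evaluations. -/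
abbrev PS := Tab × St × ℕ × ℕ × List Ev

def twinB (w : Un) (X : Tab) (u z : ℕ) : Bool := ad X u z && isoG w (ctrG w X u z) z

def okP (c : Ctx) (w : Un) (X : Tab) (C : St) (z : ℕ) (e : Ev) (q : ℕ × ℕ) : Bool :=
  ad X q.1 q.2 && decide (rkC c w X e ≤ rkC c w (ctrG w X q.1 q.2) e + 1) &&
    !isoG w (ctrG w X q.1 q.2) q.2 && !fullB w (ctrG w X q.1 q.2) (del w C q.1) &&
    (decide (q.1 = z) || (rg w).any fun v => twinB w X v z)

def swaps (w : Un) (P : List Ev) (z : ℕ) : List Ev :=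
  P ++ (rg w).flatMap fun v => P.map (cmp w (swp w z v))

def pathClose (c : Ctx) (w : Un) (s : PS) (e : Ev) (q : ℕ × ℕ) : List Ev × Ev :=
  close c w (ctrG w s.1 q.1 q.2) (del w s.2.1 q.1) q.2 e s.1 e
    (algL c w s.1 (swaps w s.2.2.2.2 s.2.2.1) s.2.2.2.1 e q.2 q.1)

def pathE (c : Ctx) (w : Un) (s : PS) : Ev := algInd c w s.1 s.2.1 s.2.2.2.2 s.2.2.2.1

def pathQ (c : Ctx) (w : Un) (s : PS) : ℕ × ℕ :=
  pick (pairs w) (okP c w s.1 s.2.1 s.2.2.1 (pathE c w s)) (0, 0)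

def pathStep (c : Ctx) (w : Un) (s : PS) : PS :=
  (ctrG w s.1 (pathQ c w s).1 (pathQ c w s).2, del w s.2.1 (pathQ c w s).1, (pathQ c w s).2,
    s.2.2.2.1 - 1, (pathClose c w s (pathE c w s) (pathQ c w s)).1)

def pathBack (c : Ctx) (w : Un) (s : PS) (f : Ev) : Ev :=
  line c w [po w s.1] (pathClose c w s (pathE c w s) (pathQ c w s)).2
    (reval c w [po w s.1] f (pathQ c w s).1)

def algP (c : Ctx) (w : Un) (s : PS) : Ev :=
  unwind (pathStep c w) (pathBack c w) w.length s (ev0 w)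

/-! ### The top level -/

def okG (w : Un) (X : Tab) (q : ℕ × ℕ) : Bool :=
  ad X q.1 q.2 && (rg w).all fun x => isoG w X x || decide (deg w X q.1 ≤ deg w X x)

/-- Contract vertices of minimum degree. -/
def greedy (c : Ctx) (w : Un) (X : Tab) : Ev :=
  grun c w w (okG w) (fun Y => [po w Y]) (rg w) (fun _ => ev0 w) X

def splitFree (c : Ctx) (w : Un) (E : List Ev) (s : Tab × List ℕ) : List (ℕ × St) :=
  frees c w s.1 (E.map (cmp w s.2)) (sett w fun y => !isoG w s.1 y)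
    fun y => sett w fun x => !decide (gm s.2 x = gm s.2 y)

def splitUpd (w : Un) (s : Tab × List ℕ) (i : ℕ) (r : ℕ × St) : Tab × List ℕ :=
  (splitG w s.1 r.1 i r.2, (rg w).map fun x => if x = i then gm s.2 r.1 else gm s.2 x)

def splitStep (c : Ctx) (w : Un) (E : List Ev) (s : Tab × List ℕ) (i : ℕ) : Tab × List ℕ :=
  if (splitFree c w E s).isEmpty then s else splitUpd w s i ((splitFree c w E s).headD (0, []))

/-- Split as long as possible; the labels `N, …, 4 N - 1` are used for the new vertices. -/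
def algS (c : Ctx) (w : Un) (N : Un) (G : Tab) (E : List Ev) : Tab × List ℕ :=
  ((rg (N ++ N ++ N)).map fun i => i + N.length).foldl (splitStep c w E) (G, rg w)

def comp (w : Un) (X : Tab) (y : ℕ) : St := sett w fun x =>
  H36.inS w.length
    (((pairs w).filter fun q => ad X q.1 q.2).map fun q =>
      sett w fun i => xor (decide (i = q.1)) (decide (i = q.2)))
    (sett w fun i => xor (decide (i = x)) (decide (i = y)))

def mix (w : Un) (C : St) (f p : Ev) : Ev := (rg w).map fun a => if bt C a then gv f a else gv p a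

def genTop (c : Ctx) (w : Un) (X : Tab) (P : List Ev) (r : ℕ × St) : List Ev :=
  P.map (cmp w (upd w (sp w) r.1)) ++ (rg w).map fun y =>
    lift c w (splitG w X r.1 (sp w) r.2) [(r.1, y), (sp w, y)]
      (line c w [po w (ctrG w X r.1 y)] (ev0 w) (P.headD []))

def findK (c : Ctx) (w : Un) (P : List Ev) (y : ℕ) (C : St) (X : Tab) (k : List Ev × Ev) :
    List Ev :=
  greedy c w X :: k.2 :: algP c w (X, C, y, rkC c w X (P.headD []), k.1) :: P

def findC (c : Ctx) (w : Un) (P : List Ev) (y : ℕ) (C : St) (X : Tab) : List Ev :=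
  findK c w P y C X (close c w X C y (line c w [po w X] (ev0 w) (P.headD [])) X
    (line c w [po w X] (ev0 w) (P.headD [])) (genTop c w X P))

/-- Look for an evaluation of larger rank; `P` is the list of collided evaluations. -/
def algF (c : Ctx) (w : Un) (H : Tab) (P : List Ev) : Ev :=
  mergeAll c w [po w H] (ev0 w) ((rg w).flatMap fun y =>
    (findC c w P y (comp w H y) (indG w H (comp w H y))).map fun f =>
      mix w (comp w H y) f (P.headD []))

def topNew (c : Ctx) (w : Un) (G : Tab) (E : List Ev) (s : Tab × List ℕ) : Ev :=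
  line c w [po w G, (w, s.1, s.2)] (E.headD [])
    (algM c w s.2 (E.headD []) (algF c w s.1 (E.map (cmp w s.2))) (rkC c w G (E.headD []) + 2) s.1)

def topUpd (c : Ctx) (w : Un) (G : Tab) (E : List Ev) (e : Ev) : List Ev :=
  if rkC c w G (E.headD []) < rkC c w G e then [e] else e :: E

def topStep (c : Ctx) (w N : Un) (G : Tab) (E : List Ev) : List Ev :=
  topUpd c w G E (topNew c w G E (algS c w N G E))

def topRun (c : Ctx) (w N : Un) (G : Tab) : List Ev :=
  (topStep c w N G)^[(w.length + 1) ^ 7] [ev0 w]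

/-- The Eulerian closure of the input. -/
def closure (w : Un) (μ : List (List ℕ)) : Tab := tab w fun a b =>
  if b < μ.length then decide ((μ.getD a []).getD b 0 % 2 = 1)
  else decide (b = μ.length) && decide ((μ.getD a []).sum % 2 = 1)

def unN (μ : List (List ℕ)) : Un := true :: μ.map fun _ => true

def unW (μ : List (List ℕ)) : Un := true :: (unN μ ++ unN μ ++ unN μ ++ unN μ)

def ctx (w : Un) : Ctx :=
  (List.replicate (3 ^ (w.length.size + 3)) true, List.replicate (32 * (w.length + 1) ^ 6 + 1) true)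

/-- The decision procedure. -/
def answer (μ : List (List ℕ)) : Bool :=
  decide ((unN μ).length ≤ rkC (ctx (unW μ)) (unW μ) (closure (unW μ) μ)
    ((topRun (ctx (unW μ)) (unW μ) (unN μ) (closure (unW μ) μ)).headD []) + 2)

end Pool.Agent.MP_bae0ed_lc.H52
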