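import Pool.Agent.MP_bae0ed_lc.H52.Defs

/-!
Combinatorial facts about the graph operations.
-/

set_option autoImplicit false
set_option linter.unusedSectionVars false

namespace Pool.Agent.MP_bae0ed_lc.H52

open Finset Function

theorem z2_ne_one {x : ZMod 2} : x ≠ 1 ↔ x = 0 := by revert x; decide

theorem z2_ne_zero {x : ZMod 2} : x ≠ 0 ↔ x = 1 := by revert x; decide

theorem z2_add_eq_one {x y : ZMod 2} (h : x + y = 1) : x = 1 ∨ y = 1 := by revert x y; decide

namespace Gr

variable {V V' V'' : Type} [DecidableEq V] [DecidableEq V'] [DecidableEq V'']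

theorem edge_adj (a b x y : V) : (edge a b).adj x y =
    (if x = a ∧ y = b then 1 else 0) + (if y = a ∧ x = b then 1 else 0) := rfl

theorem star_adj (y : V) (Z : V → ZMod 2) (a b : V) : (star y Z).adj a b =
    (if a = y then Z b else 0) + (if b = y then Z a else 0) := rfl

theorem split_adj (X : Gr V) (y y2 : V) (Z : V → ZMod 2) (a b : V) : (X.split y y2 Z).adj a b =
    X.adj a b + ((if a = y then Z b else 0) + (if b = y then Z a else 0))
      + ((if a = y2 then Z b else 0) + (if b = y2 then Z a else 0)) := rfl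

theorem ctr_adj (X : Gr V) (u w a b : V) : (X.ctr u w).adj a b =
    X.adj a b + ((if a = u then X.adj u b else 0) + (if b = u then X.adj u a else 0))
      + ((if a = w then X.adj u b else 0) + (if b = w then X.adj u a else 0)) := rfl

theorem ind_adj (X : Gr V) (C : Finset V) (a b : V) :
    (X.ind C).adj a b = if a ∈ C ∧ b ∈ C then X.adj a b else 0 := rfl

theorem ne_of_adj {X : Gr V} {a b : V} (h : X.adj a b = 1) : a ≠ b := by
  rintro rfl
  rw [X.irr] at h
  exact zero_ne_one h

theorem tri_adj {a b c : V} (hab : a ≠ b) (hac : a ≠ c) (hbc : b ≠ c) (x y : V) :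
    (tri a b c).adj x y =
      if x ≠ y ∧ x ∈ ({a, b, c} : Finset V) ∧ y ∈ ({a, b, c} : Finset V) then 1 else 0 := by
  simp only [tri, add_adj, edge_adj, mem_insert, mem_singleton]
  have hba := hab.symm
  have hca := hac.symm
  have hcb := hbc.symm
  by_cases h1 : x = a
  · subst h1
    by_cases h2 : y = x
    · subst h2
      simp [*]
    · have h2' : x ≠ y := fun h => h2 h.symm
      by_cases h3 : y = b
      · subst h3
        simp [*]
      · by_cases h4 : y = c
        · subst h4
          simp [*]
        · simp [*]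
  · by_cases h1' : x = b
    · subst h1'
      by_cases h2 : y = x
      · subst h2
        simp [*]
      · have h2' : x ≠ y := fun h => h2 h.symm
        by_cases h3 : y = a
        · subst h3
          simp [*]
        · by_cases h4 : y = c
          · subst h4
            simp [*]
          · simp [*]
    · by_cases h1'' : x = c
      · subst h1''
        by_cases h2 : y = x
        · subst h2
          simp [*]
        · have h2' : x ≠ y := fun h => h2 h.symm
          by_cases h3 : y = a
          · subst h3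
            simp [*]
          · by_cases h4 : y = b
            · subst h4
              simp [*]
            · simp [*]
      · simp [*]

theorem bs_edge_comm (a b : V) : edge a b = edge b a := by
  ext x y
  simp only [edge_adj, and_comm]
  exact add_comm _ _

theorem bs_star_add (y : V) (Z Z' : V → ZMod 2) : star y (Z + Z') = star y Z + star y Z' := by
  ext a b
  simp only [add_adj, star_adj, Pi.add_apply]
  split_ifs <;> ring

theorem bs_star_zero (y : V) : star y (0 : V → ZMod 2) = 0 := by
  ext a b
  simp [star_adj]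

theorem bs_cancel (X Y : Gr V) : X + Y + Y = X := by
  rw [add_assoc, add_self, add_zero]

theorem bs_edge_eq_star (a b : V) : edge a b = star a (Pi.single b 1) := by
  ext x y
  simp only [edge_adj, star_adj, Pi.single_apply, ite_and]

theorem tri_comm₁ (a b c : V) : tri a b c = tri b a c := by
  rw [tri, tri, bs_edge_comm b a, add_right_comm]

theorem tri_comm₂ (a b c : V) : tri a b c = tri a c b := by
  rw [tri, tri, bs_edge_comm c b]
  abel

theorem tri_adj_of_not_mem {a b c x : V} (ha : x ≠ a) (hb : x ≠ b) (hc : x ≠ c) (y : V) :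
    (tri a b c).adj x y = 0 := by
  simp [tri, edge_adj, ha, hb, hc]

@[simp] theorem ctr_self (X : Gr V) (u : V) : X.ctr u u = X := by
  rw [ctr, split, bs_cancel]

theorem ctr_adj_left {X : Gr V} {u w : V} (h : u ≠ w) (b : V) : (X.ctr u w).adj u b = 0 := by
  simp [ctr_adj, h, X.irr, z2_add_self]

theorem ctr_adj_tgt {X : Gr V} {u w b : V} (h : u ≠ w) (hb : b ≠ u) (hb' : b ≠ w) :
    (X.ctr u w).adj w b = X.adj w b + X.adj u b := by
  simp [ctr_adj, h.symm, hb, hb']

theorem ctr_adj_other {X : Gr V} {u w a b : V} (ha : a ≠ u) (ha' : a ≠ w) (hb : b ≠ u)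
    (hb' : b ≠ w) : (X.ctr u w).adj a b = X.adj a b := by
  simp [ctr_adj, ha, ha', hb, hb']

theorem ctr_add (X Y : Gr V) (u w : V) : (X + Y).ctr u w = X.ctr u w + Y.ctr u w := by
  have e : (X + Y).adj u = X.adj u + Y.adj u := rfl
  simp only [ctr, split, e, bs_star_add]
  abel

theorem ctr_of_iso {X : Gr V} {u : V} (h : ∀ x, X.adj u x = 0) (w : V) : X.ctr u w = X := by
  have e : X.adj u = 0 := funext h
  simp [ctr, split, e, bs_star_zero]

theorem con_add (X Y : Gr V) (τ : List (V × V)) : (X + Y).con τ = X.con τ + Y.con τ := by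
  induction τ generalizing X Y with
  | nil => rfl
  | cons c τ ih => rw [con, con, con, ctr_add, ih]

/-- Undoing a splitting. -/
theorem split_ctr {X : Gr V} {y y2 : V} {Z : V → ZMod 2} (h : ∀ x, X.adj y2 x = 0) (hy : y2 ≠ y)
    (h1 : Z y = 0) (h2 : Z y2 = 0) : (X.split y y2 Z).ctr y2 y = X := by
  have e : (X.split y y2 Z).adj y2 = Z := by
    funext b
    simp [split_adj, h, hy, h2]
  rw [ctr, e, split, split, bs_cancel, bs_cancel]

variable [Fintype V] [Fintype V'] [Fintype V'']

theorem push_adj (φ : V → V') (X : Gr V) (y y' : V') :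
    (X.push φ).adj y y' = ∑ a, ∑ b, if φ a = y ∧ φ b = y' then X.adj a b else 0 := rfl

theorem push_add (φ : V → V') (X Y : Gr V) : (X + Y).push φ = X.push φ + Y.push φ := by
  ext y y'
  simp only [push_adj, add_adj, ← sum_add_distrib]
  refine sum_congr rfl fun a _ => sum_congr rfl fun b _ => ?_
  split_ifs <;> simp

@[simp] theorem push_zero (φ : V → V') : (0 : Gr V).push φ = 0 := by
  ext y y'
  simp [push_adj]

@[simp] theorem push_id (X : Gr V) : X.push id = X := by
  ext y y'
  simp [push_adj, ite_and]

theorem bs_sum_push (φ : V → V') (X : Gr V) (P : V' → V' → Prop) [∀ y y', Decidable (P y y')] :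
    ∑ y, ∑ y', (if P y y' then (X.push φ).adj y y' else 0) =
      ∑ a, ∑ b, if P (φ a) (φ b) then X.adj a b else 0 := by
  have e : ∀ y y', (if P y y' then (X.push φ).adj y y' else 0) =
      ∑ a, ∑ b, if φ a = y then if φ b = y' then
        (if P (φ a) (φ b) then X.adj a b else 0) else 0 else 0 := by
    intro y y'
    rw [push_adj]
    split_ifs with h
    · refine sum_congr rfl fun a _ => sum_congr rfl fun b _ => ?_
      by_cases h1 : φ a = y <;> by_cases h2 : φ b = y' <;> simp [h1, h2, h]
    · refine (sum_eq_zero fun a _ => sum_eq_zero fun b _ => ?_).symm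
      by_cases h1 : φ a = y <;> by_cases h2 : φ b = y' <;> simp [h1, h2, h]
  simp only [e]
  rw [sum_congr rfl fun y _ => sum_comm, sum_comm]
  refine sum_congr rfl fun a _ => ?_
  rw [sum_congr rfl fun y _ => sum_comm, sum_comm]
  refine sum_congr rfl fun b _ => ?_
  simp

theorem push_push (φ : V → V') (ψ : V' → V'') (X : Gr V) :
    (X.push φ).push ψ = X.push (ψ ∘ φ) := by
  ext y y'
  exact bs_sum_push φ X fun c d => ψ c = y ∧ ψ d = y'

theorem push_congr {φ ψ : V → V'} {X : Gr V} (h : ∀ a b, X.adj a b = 1 → φ a = ψ a) :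
    X.push φ = X.push ψ := by
  ext y y'
  simp only [push_adj]
  refine sum_congr rfl fun a _ => sum_congr rfl fun b _ => ?_
  rcases z2 (X.adj a b) with h0 | h1
  · simp [h0]
  · rw [h a b h1, h b a (by rw [X.symm]; exact h1)]

theorem bs_push_star (φ : V → V') (y : V) (Z : V → ZMod 2) :
    (star y Z).push φ = star (φ y) (pushZ φ Z) := by
  ext c d
  have e : ∀ a b, (if φ a = c ∧ φ b = d then (star y Z).adj a b else 0) =
      (if a = y then (if c = φ y then (if φ b = d then Z b else 0) else 0) else 0) +
        (if b = y then (if d = φ y then (if φ a = c then Z a else 0) else 0) else 0) := by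
    intro a b
    rw [star_adj]
    by_cases h1 : φ a = c <;> by_cases h2 : φ b = d <;> by_cases h3 : a = y <;>
      by_cases h4 : b = y <;> simp_all [eq_comm]
  simp only [push_adj, e, sum_add_distrib]
  rw [sum_comm]
  simp only [sum_ite_eq', mem_univ, if_true, star_adj, pushZ]
  congr 1 <;> split_ifs <;> simp

theorem bs_push_ctr {φ : V → V'} (X : Gr V) {u w : V} (h : φ u = φ w) :
    (X.ctr u w).push φ = X.push φ := by
  rw [ctr, split, push_add, push_add, bs_push_star, bs_push_star, h, bs_cancel]

theorem bs_row {φ : V → V'} (X : Gr V) {u : V} (h : ∀ x, φ x = φ u → x = u) :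
    (X.push φ).adj (φ u) = pushZ φ (X.adj u) := by
  funext y
  rw [push_adj, sum_eq_single u]
  · simp [pushZ]
  · intro a _ ha
    have : φ a ≠ φ u := fun e => ha (h a e)
    simp [this]
  · simp

theorem ctr_eq_push (X : Gr V) (u w : V) : X.ctr u w = X.push (update id u w) := by
  by_cases h : u = w
  · subst h
    rw [ctr_self]
    exact (push_id X).symm.trans (congrArg (fun φ => X.push φ) (update_eq_self u id).symm)
  · rw [← bs_push_ctr (φ := update id u w) X (u := u) (w := w) (by simp [update_apply]),
      push_congr (ψ := id), push_id]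
    intro a b hab
    have : a ≠ u := by
      rintro rfl
      rw [ctr_adj_left h] at hab
      exact zero_ne_one hab
    exact update_of_ne this _ _

theorem push_ctr {φ : V → V'} (X : Gr V) {u w : V} (h : φ u = φ w) :
    (X.ctr u w).push φ = X.push φ := by
  exact bs_push_ctr X h

/-- Contraction of a vertex with a trivial fibre commutes with taking the image. -/
theorem ctr_push {φ : V → V'} (X : Gr V) {u : V} (w : V) (h : ∀ x, φ x = φ u → x = u) :
    (X.push φ).ctr (φ u) (φ w) = (X.ctr u w).push φ := by
  rw [ctr, ctr, split, split, push_add, push_add, bs_push_star, bs_push_star, bs_row X h]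

theorem push_adj_inj {φ : V → V'} (hφ : Injective φ) (X : Gr V) (a b : V) :
    (X.push φ).adj (φ a) (φ b) = X.adj a b := by
  rw [bs_row X fun x hx => hφ hx]
  simp [pushZ, hφ.eq_iff]

theorem exists_of_push_adj {φ : V → V'} {X : Gr V} {y y' : V'} (h : (X.push φ).adj y y' = 1) :
    ∃ a b, φ a = y ∧ φ b = y' ∧ X.adj a b = 1 := by
  by_contra hn
  rw [push_adj, sum_eq_zero] at h
  · exact zero_ne_one h
  · refine fun a _ => sum_eq_zero fun b _ => ?_
    split_ifs with h1
    · exact z2_ne_one.1 fun h2 => hn ⟨a, b, h1.1, h1.2, h2⟩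
    · rfl

theorem push_adj_row {φ : V → V'} (X : Gr V) {u : V} (h : ∀ x, φ x = φ u → x = u) :
    (X.push φ).adj (φ u) = pushZ φ (X.adj u) := by
  exact bs_row X h

theorem push_edge (φ : V → V') (a b : V) : (edge a b).push φ = edge (φ a) (φ b) := by
  rw [bs_edge_eq_star, bs_edge_eq_star, bs_push_star]
  congr 1
  funext y
  rw [pushZ, sum_eq_single b]
  · simp [Pi.single_apply, eq_comm]
  · intro x _ hx
    simp [hx]
  · simp

theorem push_tri (φ : V → V') (a b c : V) : (tri a b c).push φ = tri (φ a) (φ b) (φ c) := by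
  simp only [tri, push_add, push_edge]

theorem push_star (φ : V → V') (y : V) (Z : V → ZMod 2) :
    (star y Z).push φ = star (φ y) (pushZ φ Z) := by
  exact bs_push_star φ y Z

theorem bs_con_push {φ : V → V} (hφ : ∀ x, φ (φ x) = φ x) (l : List V) (X : Gr V) :
    (X.con (l.map fun x => (x, φ x))).push φ = X.push φ := by
  induction l generalizing X with
  | nil => rfl
  | cons y l ih => rw [List.map_cons, con, ih, bs_push_ctr X (hφ y).symm]

theorem bs_con_iso {φ : V → V} (hφ : ∀ x, φ (φ x) = φ x) (l : List V) (X : Gr V) {x : V}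
    (hx : φ x ≠ x) (h : x ∈ l ∨ ∀ b, X.adj x b = 0) (b : V) :
    (X.con (l.map fun x => (x, φ x))).adj x b = 0 := by
  induction l generalizing X with
  | nil => exact h.resolve_left (by simp) b
  | cons y l ih =>
    rw [List.map_cons, con]
    apply ih
    by_cases hxy : x = y
    · subst hxy
      exact Or.inr (ctr_adj_left hx.symm)
    · rcases h with h | h
      · exact Or.inl ((List.mem_cons.1 h).resolve_left hxy)
      · refine Or.inr fun c => ?_
        have h1 : x ≠ φ y := fun e => hx (by rw [e, hφ])
        simp [ctr_adj, hxy, h1, h, X.symm y x]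

/-- Identifying all points with their images under an idempotent map. -/
theorem con_eq_push {φ : V → V} (hφ : ∀ x, φ (φ x) = φ x) (X : Gr V) {l : List V}
    (hl : ∀ x, x ∈ l) : X.con (l.map fun x => (x, φ x)) = X.push φ := by
  rw [← bs_con_push hφ l X, push_congr (ψ := id), push_id]
  intro a b hab
  by_contra ha
  rw [bs_con_iso hφ l X ha (Or.inl (hl a))] at hab
  exact zero_ne_one hab

theorem mem_nbr {X : Gr V} {u x : V} : x ∈ X.nbr u ↔ X.adj u x = 1 := by simp [nbr]

theorem mem_supp {X : Gr V} {x : V} : x ∈ X.supp ↔ ¬ X.Iso x := by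
  simp [supp, Iso, z2_ne_zero]

theorem sum_adj (X : Gr V) (u : V) : ∑ x, X.adj u x = ((X.nbr u).card : ZMod 2) := by
  rw [nbr, ← sum_boole]
  refine sum_congr rfl fun x _ => ?_
  rcases z2 (X.adj u x) with h | h <;> simp [h]

theorem Eul.even {X : Gr V} (h : X.Eul) (u : V) : Even (X.nbr u).card := by
  have h1 := h u
  rw [sum_adj, ZMod.natCast_eq_zero_iff] at h1
  exact even_iff_two_dvd.2 h1

theorem Eul.two_le {X : Gr V} (h : X.Eul) {u x : V} (hx : X.adj u x = 1) :
    2 ≤ (X.nbr u).card := by
  have h1 : 0 < (X.nbr u).card := card_pos.2 ⟨x, mem_nbr.2 hx⟩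
  obtain ⟨k, hk⟩ := h.even u
  omega

theorem Eul.exists_other {X : Gr V} (h : X.Eul) {u x : V} (hx : X.adj u x = 1) :
    ∃ y, y ≠ x ∧ X.adj u y = 1 := by
  obtain ⟨y, hy, hne⟩ := exists_mem_ne (h.two_le hx) x
  exact ⟨y, hne, mem_nbr.1 hy⟩

theorem eul_zero : (0 : Gr V).Eul := by
  intro u
  simp

theorem Eul.add {X Y : Gr V} (h : X.Eul) (h' : Y.Eul) : (X + Y).Eul := by
  intro u
  simp only [add_adj, sum_add_distrib, h u, h' u, add_zero]

theorem bs_sum_star (y : V) (Z : V → ZMod 2) (a : V) :
    ∑ b, (star y Z).adj a b = (if a = y then ∑ b, Z b else 0) + Z a := by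
  simp only [star_adj, sum_add_distrib, sum_ite_eq', mem_univ, if_true]
  split_ifs <;> simp

theorem bs_sum_edge (a b x : V) :
    ∑ y, (edge a b).adj x y = (if x = a then 1 else 0) + if x = b then 1 else 0 := by
  rw [bs_edge_eq_star, bs_sum_star]
  simp [Pi.single_apply]

theorem eul_tri (a b c : V) : (tri a b c).Eul := by
  intro u
  simp only [tri, add_adj, sum_add_distrib, bs_sum_edge]
  generalize (if u = a then 1 else 0 : ZMod 2) = p
  generalize (if u = b then 1 else 0 : ZMod 2) = q
  generalize (if u = c then 1 else 0 : ZMod 2) = r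
  revert p q r
  decide

theorem Eul.split {X : Gr V} (h : X.Eul) (y y2 : V) {Z : V → ZMod 2} (hZ : ∑ x, Z x = 0) :
    (X.split y y2 Z).Eul := by
  intro u
  simp only [Gr.split, add_adj, sum_add_distrib, bs_sum_star, h u, hZ, ite_self, zero_add,
    z2_add_self]

theorem Eul.ctr {X : Gr V} (h : X.Eul) (u w : V) : (X.ctr u w).Eul := by
  exact h.split u w (h u)

theorem Eul.con {X : Gr V} (h : X.Eul) (τ : List (V × V)) : (X.con τ).Eul := by
  induction τ generalizing X with
  | nil => exact h
  | cons c τ ih => exact ih (h.ctr _ _)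

theorem Eul.push {X : Gr V} (h : X.Eul) (φ : V → V') : (X.push φ).Eul := by
  intro y
  have e := bs_sum_push φ X fun c _ => c = y
  rw [sum_comm] at e
  simp only [sum_ite_eq', mem_univ, if_true] at e
  rw [e]
  refine sum_eq_zero fun a _ => ?_
  split_ifs
  · exact h a
  · simp

theorem Eul.ind {X : Gr V} (h : X.Eul) {C : Finset V}
    (hC : ∀ a ∈ C, ∀ b, X.adj a b = 1 → b ∈ C) : (X.ind C).Eul := by
  intro a
  by_cases ha : a ∈ C
  · rw [← h a]
    refine sum_congr rfl fun b _ => ?_
    rw [ind_adj]
    split_ifs with h1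
    · rfl
    · exact (z2_ne_one.1 fun h2 => h1 ⟨ha, hC a ha b h2⟩).symm
  · simp [ind_adj, ha]

theorem On.right {X : Gr V} {S : Finset V} (h : X.On S) {a b : V} (hab : X.adj a b = 1) :
    b ∈ S := h b a (by rw [X.symm]; exact hab)

theorem On.mono {X : Gr V} {S T : Finset V} (h : X.On S) (hST : S ⊆ T) : X.On T :=
  fun a b hab => hST (h a b hab)

theorem On.add {X Y : Gr V} {S : Finset V} (h : X.On S) (h' : Y.On S) : (X + Y).On S := by
  intro a b hab
  rcases z2_add_eq_one hab with h1 | h1
  · exact h a b h1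
  · exact h' a b h1

theorem on_tri {S : Finset V} {a b c : V} (ha : a ∈ S) (hb : b ∈ S) (hc : c ∈ S) :
    (tri a b c).On S := by
  intro x y hxy
  by_contra hx
  rw [tri_adj_of_not_mem (ne_of_mem_of_not_mem ha hx).symm (ne_of_mem_of_not_mem hb hx).symm
    (ne_of_mem_of_not_mem hc hx).symm] at hxy
  exact zero_ne_one hxy

theorem On.ctr {X : Gr V} {S : Finset V} (h : X.On S) {u w : V} (huw : u ≠ w) (hw : w ∈ S) :
    (X.ctr u w).On (S.erase u) := by
  intro a b hab
  have hau : a ≠ u := by
    rintro rfl
    rw [ctr_adj_left huw] at hab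
    exact zero_ne_one hab
  refine mem_erase.2 ⟨hau, ?_⟩
  by_contra ha
  have h0 : ∀ x, X.adj a x = 0 := fun x => z2_ne_one.1 fun e => ha (h a x e)
  have haw : a ≠ w := fun e => ha (e ▸ hw)
  simp [ctr_adj, hau, haw, h0, X.symm u a] at hab

theorem On.push {X : Gr V} {S : Finset V} (h : X.On S) (φ : V → V') :
    (X.push φ).On (S.image φ) := by
  intro y y' hy
  obtain ⟨a, b, rfl, -, hab⟩ := exists_of_push_adj hy
  exact mem_image_of_mem φ (h a b hab)

theorem on_ind (X : Gr V) (C : Finset V) : (X.ind C).On C := by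
  intro a b hab
  by_contra ha
  simp [ind_adj, ha] at hab

theorem On.split {X : Gr V} {S : Finset V} (h : X.On S) {y y2 : V} {Z : V → ZMod 2} (hy : y ∈ S)
    (hy2 : y2 ∈ S) (hZ : ∀ x, Z x = 1 → x ∈ S) : (X.split y y2 Z).On S := by
  intro a b hab
  by_contra ha
  have h0 : X.adj a b = 0 := z2_ne_one.1 fun e => ha (h a b e)
  have h1 : Z a = 0 := z2_ne_one.1 fun e => ha (hZ a e)
  have h2 : a ≠ y := fun e => ha (e ▸ hy)
  have h3 : a ≠ y2 := fun e => ha (e ▸ hy2)
  simp [split_adj, h0, h1, h2, h3] at hab

theorem bs_nbr_sub {X : Gr V} {S : Finset V} (hS : X.On S) (a : V) : X.nbr a ⊆ S.erase a :=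
  fun _ hx => mem_erase.2 ⟨(ne_of_adj (mem_nbr.1 hx)).symm, hS.right (mem_nbr.1 hx)⟩

/-- An Eulerian graph on at most two vertices is empty. -/
theorem Eul.eq_zero {X : Gr V} (h : X.Eul) {S : Finset V} (hS : X.On S) (hc : S.card ≤ 2) :
    X = 0 := by
  ext a b
  refine z2_ne_one.1 fun hab => ?_
  have h1 := h.two_le hab
  have h2 := card_le_card (bs_nbr_sub hS a)
  have h3 := card_erase_of_mem (hS a b hab)
  omega

/-- An Eulerian graph on three vertices is empty or the triangle. -/
theorem Eul.eq_tri {X : Gr V} (h : X.Eul) {a b c : V} (hS : X.On {a, b, c}) :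
    X = 0 ∨ X = tri a b c := by
  by_cases hc : ({a, b, c} : Finset V).card ≤ 2
  · exact Or.inl (h.eq_zero hS hc)
  by_cases h0 : X = 0
  · exact Or.inl h0
  right
  have hab : a ≠ b := by
    rintro rfl
    exact hc (by rw [insert_eq_of_mem (mem_insert_self _ _)]; exact card_le_two)
  have hac : a ≠ c := by
    rintro rfl
    exact hc (by rw [insert_eq_of_mem (by simp)]; exact card_le_two)
  have hbc : b ≠ c := by
    rintro rfl
    exact hc (by rw [insert_eq_of_mem (mem_singleton_self _)]; exact card_le_two)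
  have h3 : ({a, b, c} : Finset V).card ≤ 3 := card_le_three
  have key : ∀ x y, X.adj x y = 1 → ∀ z ∈ ({a, b, c} : Finset V), z ≠ x → X.adj x z = 1 := by
    intro x y hxy z hz hzx
    have h1 := h.two_le hxy
    have h2 := card_erase_of_mem (hS x y hxy)
    have h4 := eq_of_subset_of_card_le (bs_nbr_sub hS x) (by omega)
    exact mem_nbr.1 (h4 ▸ mem_erase.2 ⟨hzx, hz⟩)
  obtain ⟨x0, y0, h1⟩ : ∃ x y, X.adj x y = 1 := by
    by_contra hn
    apply h0
    ext x y
    exact z2_ne_one.1 fun e => hn ⟨x, y, e⟩
  ext x y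
  rw [tri_adj hab hac hbc]
  split_ifs with h2
  · obtain ⟨hxy, hx, hy⟩ := h2
    by_cases hx0 : x = x0
    · subst hx0
      exact key x y0 h1 y hy hxy.symm
    · exact key x x0 (by rw [X.symm]; exact key x0 y0 h1 x hx hx0) y hy hxy.symm
  · exact z2_ne_one.1 fun e => h2 ⟨ne_of_adj e, hS x y e, hS.right e⟩

theorem bs_rank {X : Gr V} {β : Type} [LinearOrder β] {f : V → β}
    (hf : ∀ a b, X.adj a b = 1 → f a ≠ f b) (a b : V) :
    (if f a < f b then X.adj a b else 0) + (if f b < f a then X.adj b a else 0) = X.adj a b := by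
  rw [X.symm b a]
  rcases z2 (X.adj a b) with h | h
  · simp [h]
  · rcases lt_or_gt_of_ne (hf a b h) with h1 | h1
    · simp [h1, h1.not_gt]
    · simp [h1, h1.not_gt]

theorem bs_eq_of_add {x y : ZMod 2} (h : x + y = 0) : x = y := by
  revert x y
  decide

/-- The parity can be computed with any ranking that separates adjacent vertices. -/
theorem par_eq (X : Gr V) {β : Type} [LinearOrder β] (f : V → β)
    (hf : ∀ a b, X.adj a b = 1 → f a ≠ f b) :
    X.par = ∑ a, ∑ b, if f a < f b then X.adj a b else 0 := by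
  apply bs_eq_of_add
  have hτ : ∀ a b, X.adj a b = 1 → Fintype.equivFin V a ≠ Fintype.equivFin V b :=
    fun a b hab => (Fintype.equivFin V).injective.ne (ne_of_adj hab)
  simp only [par, ← sum_add_distrib]
  rw [← sum_product']
  refine sum_involution (fun p _ => p.swap) (fun p _ => ?_) (fun p _ h => ?_)
    (fun p _ => by simp) (fun p _ => by simp)
  · simp only [Prod.fst_swap, Prod.snd_swap]
    rw [add_add_add_comm, bs_rank hf, bs_rank (f := Fintype.equivFin V) hτ, z2_add_self]
  · intro e
    have : p.2 = p.1 := congrArg Prod.fst e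
    simp [this] at h

@[simp] theorem par_zero : (0 : Gr V).par = 0 := by
  simp [par]

theorem par_add (X Y : Gr V) : (X + Y).par = X.par + Y.par := by
  simp only [par, add_adj, ← sum_add_distrib]
  refine sum_congr rfl fun a _ => sum_congr rfl fun b _ => ?_
  split_ifs <;> simp

theorem bs_par_star (y : V) (Z : V → ZMod 2) : (star y Z).par = ∑ x, Z x + Z y := by
  rw [par]
  generalize Fintype.equivFin V = τ
  have e : ∀ a b, (if τ a < τ b then (star y Z).adj a b else 0) =
      (if a = y then (if τ y < τ b then Z b else 0) else 0) +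
        (if b = y then (if τ a < τ y then Z a else 0) else 0) := by
    intro a b
    rw [star_adj]
    by_cases h3 : a = y <;> by_cases h4 : b = y <;> simp [h3, h4]
  have e2 : ∀ x, (if τ y < τ x then Z x else 0) + (if τ x < τ y then Z x else 0) =
      Z x + if x = y then Z y else 0 := by
    intro x
    by_cases hx : x = y
    · simp [hx, z2_add_self]
    · rcases lt_or_gt_of_ne (τ.injective.ne hx) with h1 | h1
      · simp [h1, h1.not_gt, hx]
      · simp [h1, h1.not_gt, hx]
  simp only [e, sum_add_distrib]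
  rw [sum_comm]
  simp only [sum_ite_eq', mem_univ, if_true]
  rw [← sum_add_distrib]
  simp only [e2, sum_add_distrib, sum_ite_eq', mem_univ, if_true]

theorem par_edge {a b : V} (h : a ≠ b) : (edge a b).par = 1 := by
  rw [bs_edge_eq_star, bs_par_star]
  simp [h]

theorem par_tri {a b c : V} (hab : a ≠ b) (hac : a ≠ c) (hbc : b ≠ c) : (tri a b c).par = 1 := by
  rw [tri, par_add, par_add, par_edge hab, par_edge hbc, par_edge hac]
  decide

theorem par_star (y : V) (Z : V → ZMod 2) : (star y Z).par = ∑ x, Z x + Z y := by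
  exact bs_par_star y Z

theorem par_split (X : Gr V) (y y2 : V) (Z : V → ZMod 2) :
    (X.split y y2 Z).par = X.par + Z y + Z y2 := by
  rw [split, par_add, par_add, par_star, par_star]
  linear_combination z2_add_self (∑ x, Z x)

theorem par_ctr (X : Gr V) {u w : V} : (X.ctr u w).par = X.par + X.adj u w := by
  rw [ctr, par_split, X.irr, add_zero]

theorem par_push {φ : V → V'} {X : Gr V} (h : ∀ a b, X.adj a b = 1 → φ a ≠ φ b) :
    (X.push φ).par = X.par := by
  rw [par, bs_sum_push φ X fun y y' => Fintype.equivFin V' y < Fintype.equivFin V' y',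
    par_eq X (fun a => Fintype.equivFin V' (φ a))
      fun a b hab => (Fintype.equivFin V').injective.ne (h a b hab)]

/-- Induction by removing edges. -/
theorem edge_induction {P : Gr V → Prop} (h0 : P 0)
    (h1 : ∀ (X : Gr V) (a b : V), a ≠ b → X.adj a b = 0 → P X → P (X + edge a b)) (X : Gr V) :
    P X := by
  induction hn : (univ.filter fun p : V × V => X.adj p.1 p.2 = 1).card using Nat.strong_induction_on
    generalizing X with
  | _ n ih =>
    by_cases hX : ∃ a b, X.adj a b = 1
    · obtain ⟨a, b, hab⟩ := hX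
      have hne := ne_of_adj hab
      have e0 : (X + edge a b).adj a b = 0 := by
        simp [edge_adj, hab, hne, z2_add_self]
      rw [← bs_cancel X (edge a b)]
      refine h1 _ a b hne e0 (ih _ ?_ _ rfl)
      rw [← hn]
      refine card_lt_card ⟨fun p hp => ?_, fun hs => ?_⟩
      · simp only [mem_filter, mem_univ, true_and] at hp ⊢
        by_contra hp'
        rw [add_adj, z2_ne_one.1 hp', zero_add, edge_adj] at hp
        rcases z2_add_eq_one hp with h2 | h2
        · split_ifs at h2 with h3
          · exact hp' (by rw [h3.1, h3.2, hab])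
          · exact zero_ne_one h2
        · split_ifs at h2 with h3
          · exact hp' (by rw [h3.1, h3.2, X.symm, hab])
          · exact zero_ne_one h2
      · have := hs (mem_filter.2 ⟨mem_univ (a, b), hab⟩)
        rw [mem_filter, e0] at this
        exact zero_ne_one this.2
    · have : X = 0 := by
        ext x y
        exact z2_ne_one.1 fun e => hX ⟨x, y, e⟩
      rw [this]
      exact h0

end Gr

end Pool.Agent.MP_bae0ed_lc.H52
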