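import Pool.Agent.MP_bae0ed_lc.H52.Defs

/-!
Linear algebra of symmetric matrices and of pencils.
-/

set_option autoImplicit false
set_option linter.unusedSectionVars false

namespace Pool.Agent.MP_bae0ed_lc.H52

open Finset Matrix Module

variable {F : Type} [Field F]
variable {V V' : Type} [DecidableEq V] [DecidableEq V'] [Fintype V] [Fintype V']

/-- The column space. -/
abbrev cs (M : Matrix V V' F) : Submodule F (V → F) := LinearMap.range M.mulVecLin

theorem rank_eq_cs (M : Matrix V V' F) : M.rank = finrank F (cs M) := rfl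

theorem mem_cs {M : Matrix V V' F} {v : V → F} : v ∈ cs M ↔ ∃ x, M *ᵥ x = v := Iff.rfl

/-- The kernel. -/
abbrev la_ker (M : Matrix V V' F) : Submodule F (V' → F) := LinearMap.ker M.mulVecLin

theorem la_mem_ker {M : Matrix V V' F} {x : V' → F} : x ∈ la_ker M ↔ M *ᵥ x = 0 := Iff.rfl

theorem la_rank_null (M : Matrix V V' F) : M.rank + finrank F (la_ker M) = Fintype.card V' := by
  have h := LinearMap.finrank_range_add_finrank_ker M.mulVecLin
  rw [Module.finrank_fintype_fun_eq_card] at h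
  exact h

theorem la_map_ker {E E' : Type} [AddCommGroup E] [Module F E] [AddCommGroup E'] [Module F E']
    [FiniteDimensional F E] (f : E →ₗ[F] E') (p : Submodule F E) :
    finrank F (p.map f) + finrank F (p ⊓ LinearMap.ker f : Submodule F E) = finrank F p := by
  have h := LinearMap.finrank_range_add_finrank_ker (f.domRestrict p)
  rw [LinearMap.range_domRestrict, LinearMap.ker_domRestrict,
    ← Submodule.finrank_map_subtype_eq, Submodule.map_comap_subtype] at h
  exact h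

theorem la_indep {ι E : Type} [DecidableEq ι] [AddCommGroup E] [Module F E] [FiniteDimensional F E]
    {p : ι → Submodule F E} (hp : iSupIndep p) (s : Finset ι) :
    ∑ i ∈ s, finrank F (p i) = finrank F (⨆ i ∈ s, p i : Submodule F E) := by
  induction s using Finset.induction_on with
  | empty =>
    have : (⨆ i ∈ (∅ : Finset ι), p i : Submodule F E) = ⊥ := by simp
    rw [this, finrank_bot, Finset.sum_empty]
  | insert a s ha ih =>
    rw [Finset.sum_insert ha, ih, Finset.iSup_insert]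
    have hd : Disjoint (p a) (⨆ i ∈ s, p i) :=
      hp.disjoint_biSup (y := (s : Set ι)) (by simpa using ha)
    have h := Submodule.finrank_sup_add_finrank_inf_eq (p a) (⨆ i ∈ s, p i)
    rw [hd.eq_bot, finrank_bot, add_zero] at h
    exact h.symm

/-- The total rank drop of a pencil. -/
theorem pencil (A M : Matrix V V F) (H W : Submodule F (V → F)) (S : Finset F)
    (hS : ∀ μ ∈ S, μ ≠ 0)
    (hW1 : ∀ v ∈ W, M *ᵥ v = 0) (hW2 : ∀ v ∈ W, A *ᵥ v = 0 → v = 0) (hW3 : ∀ v ∈ W, A *ᵥ v ∈ H)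
    (hH : ∀ μ ∈ S, ∀ v, (A + μ • M) *ᵥ v = 0 → M *ᵥ v ∈ H) :
    ∑ μ ∈ S, (A.rank - (A + μ • M).rank) + finrank F W ≤ finrank F H := by
  classical
  have hdis : Disjoint W (la_ker A) := Submodule.disjoint_def.2 fun v hv hk => hW2 v hv hk
  obtain ⟨U, hWU, hU⟩ := hdis.exists_isCompl
  have hUinj : ∀ u ∈ U, A *ᵥ u = 0 → u = 0 := fun u hu hk =>
    Submodule.disjoint_def.1 hU.disjoint u hu hk
  have hdimU : finrank F U = A.rank := by
    have h1 := Submodule.finrank_add_eq_of_isCompl hU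
    have h2 := la_rank_null A
    rw [Module.finrank_fintype_fun_eq_card] at h1
    omega
  obtain ⟨g0, hg0⟩ := LinearMap.exists_leftInverse_of_injective (A.mulVecLin.domRestrict U) (by
    rw [LinearMap.ker_eq_bot']
    intro u hu
    exact Subtype.ext (hUinj u u.2 hu))
  have hg : ∀ u ∈ U, (g0 (A *ᵥ u) : V → F) = u := fun u hu => by
    have := LinearMap.congr_fun hg0 ⟨u, hu⟩
    exact congrArg Subtype.val this
  let T : Module.End F (V → F) := U.subtype ∘ₗ g0 ∘ₗ M.mulVecLin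
  have hT : ∀ v, T v = (g0 (M *ᵥ v) : V → F) := fun v => rfl
  let N : Submodule F (V → F) := U ⊓ H.comap A.mulVecLin
  let p : F → Submodule F (V → F) := fun μ => T.eigenspace (-μ⁻¹) ⊓ N
  have hp : iSupIndep p := by
    have h1 : iSupIndep (T.eigenspace ∘ fun μ : F => -μ⁻¹) :=
      (Module.End.eigenspaces_iSupIndep T).comp fun a b hab => inv_injective (neg_injective hab)
    exact h1.mono fun μ => inf_le_left
  have hN : finrank F N ≤ finrank F H := by
    refine LinearMap.finrank_le_finrank_of_injective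
      (f := A.mulVecLin.restrict (p := N) (q := H) fun x hx => hx.2) ?_
    rw [← LinearMap.ker_eq_bot, LinearMap.ker_eq_bot']
    intro u hu
    exact Subtype.ext (hUinj u u.2.1 (congrArg Subtype.val hu))
  have h0 : (0 : F) ∉ S := fun h => hS 0 h rfl
  have hsum := la_indep hp (insert 0 S)
  have hle : (⨆ i ∈ insert (0 : F) S, p i : Submodule F (V → F)) ≤ N :=
    iSup₂_le fun i _ => inf_le_right
  have hle' := Submodule.finrank_mono hle
  rw [Finset.sum_insert h0] at hsum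
  have hW : finrank F W ≤ finrank F (p 0) := by
    refine Submodule.finrank_mono fun v hv => ⟨?_, hWU hv, hW3 v hv⟩
    refine Module.End.mem_eigenspace_iff.2 ?_
    rw [hT, hW1 v hv]
    simp
  have hK : ∀ μ ∈ S, A.rank - (A + μ • M).rank ≤ finrank F (p μ) := by
    intro μ hμ
    have hμ0 := hS μ hμ
    have h1 : U ⊓ la_ker (A + μ • M) ≤ p μ := by
      rintro v ⟨hvU, hvK⟩
      have hk : (A + μ • M) *ᵥ v = 0 := hvK
      have hk' : A *ᵥ v = -μ • (M *ᵥ v) := by
        rw [Matrix.add_mulVec, Matrix.smul_mulVec] at hk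
        rw [neg_smul]
        exact eq_neg_of_add_eq_zero_left hk
      have hM : M *ᵥ v = -μ⁻¹ • (A *ᵥ v) := by
        rw [hk', smul_smul, neg_mul_neg, inv_mul_cancel₀ hμ0, one_smul]
      refine ⟨?_, hvU, ?_⟩
      · refine Module.End.mem_eigenspace_iff.2 ?_
        rw [hT, hM, map_smul, Submodule.coe_smul, hg v hvU]
      · change A *ᵥ v ∈ H
        rw [hk']
        exact H.smul_mem _ (hH μ hμ v hk)
    have h2 := Submodule.finrank_mono h1
    have h3 := Submodule.finrank_sup_add_finrank_inf_eq U (la_ker (A + μ • M))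
    have h4 := la_rank_null (A + μ • M)
    have h5 : finrank F (U ⊔ la_ker (A + μ • M) : Submodule F (V → F)) ≤ Fintype.card V := by
      rw [← Module.finrank_fintype_fun_eq_card F]
      exact Submodule.finrank_le _
    omega
  have := Finset.sum_le_sum hK
  omega

theorem la_sepS {S : Submodule F (V → F)} {v : V → F} (hv : v ∉ S) :
    ∃ x, (∀ w ∈ S, x ⬝ᵥ w = 0) ∧ x ⬝ᵥ v ≠ 0 := by
  obtain ⟨f, hf, hmap⟩ := Submodule.exists_dual_map_eq_bot_of_notMem hv inferInstance
  have hfx : ∀ w, (fun i => f (Pi.single i 1)) ⬝ᵥ w = f w := by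
    intro w
    conv_rhs => rw [pi_eq_sum_univ' w, map_sum]
    simp only [dotProduct, map_smul, smul_eq_mul]
    exact Finset.sum_congr rfl fun i _ => mul_comm _ _
  refine ⟨fun i => f (Pi.single i 1), fun w hw => ?_, by rw [hfx]; exact hf⟩
  rw [hfx]
  have : f w ∈ S.map f := ⟨w, hw, rfl⟩
  rw [hmap] at this
  simpa using this

theorem la_sym {M : Matrix V V F} (hM : M.IsSymm) (x y : V → F) :
    x ⬝ᵥ (M *ᵥ y) = (M *ᵥ x) ⬝ᵥ y := by
  rw [Matrix.dotProduct_mulVec, ← Matrix.mulVec_transpose, hM.eq]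

theorem la_eq_zero {v : V → F} (h : ∀ y, v ⬝ᵥ y = 0) : v = 0 := by
  funext i
  simpa using h (Pi.single i 1)

theorem sep {M : Matrix V V F} (hM : M.IsSymm) {v : V → F} (hv : v ∉ cs M) :
    ∃ x, M *ᵥ x = 0 ∧ x ⬝ᵥ v ≠ 0 := by
  obtain ⟨x, hx, hxv⟩ := la_sepS hv
  refine ⟨x, la_eq_zero fun y => ?_, hxv⟩
  rw [← la_sym hM]
  exact hx _ ⟨y, rfl⟩

theorem la_mem_cs {M : Matrix V V F} (hM : M.IsSymm) {v : V → F}
    (h : ∀ x, M *ᵥ x = 0 → x ⬝ᵥ v = 0) : v ∈ cs M := by
  by_contra hv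
  obtain ⟨x, hx, hxv⟩ := sep hM hv
  exact hxv (h x hx)

theorem la_cs_le_of_ker {M N : Matrix V V F} (hM : M.IsSymm) (hN : N.IsSymm)
    (h : ∀ x, N *ᵥ x = 0 → M *ᵥ x = 0) : cs M ≤ cs N := by
  rintro _ ⟨y, rfl⟩
  refine la_mem_cs hN fun x hx => ?_
  change x ⬝ᵥ (M *ᵥ y) = 0
  rw [la_sym hM, h x hx, zero_dotProduct]

theorem la_cs_add_le (M M' : Matrix V V' F) : cs (M + M') ≤ cs M ⊔ cs M' := by
  rintro _ ⟨y, rfl⟩
  change (M + M') *ᵥ y ∈ _
  rw [Matrix.add_mulVec]
  exact Submodule.add_mem_sup ⟨y, rfl⟩ ⟨y, rfl⟩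

theorem la_cs_sub_le (M M' : Matrix V V' F) : cs (M - M') ≤ cs M ⊔ cs M' := by
  rintro _ ⟨y, rfl⟩
  change (M - M') *ᵥ y ∈ _
  rw [Matrix.sub_mulVec]
  exact Submodule.sub_mem _ (Submodule.mem_sup_left ⟨y, rfl⟩) (Submodule.mem_sup_right ⟨y, rfl⟩)

theorem rank_add_le (M M' : Matrix V V' F) : (M + M').rank ≤ M.rank + M'.rank :=
  (Submodule.finrank_mono (la_cs_add_le M M')).trans
    (Submodule.finrank_add_le_finrank_add_finrank _ _)

theorem rank_pos {M : Matrix V V' F} (h : M ≠ 0) : 0 < M.rank := by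
  rw [rank_eq_cs, Nat.pos_iff_ne_zero]
  intro h0
  rw [Submodule.finrank_eq_zero] at h0
  refine h (Matrix.ext_iff_mulVec.2 fun v => ?_)
  have : M *ᵥ v ∈ cs M := ⟨v, rfl⟩
  rw [h0] at this
  simpa using this

theorem la_vec_mulVec (M : Matrix V V F) (c : F) (v x : V → F) :
    (M + c • vecMulVec v v) *ᵥ x = M *ᵥ x + (c * (x ⬝ᵥ v)) • v := by
  rw [Matrix.add_mulVec, Matrix.smul_mulVec, Matrix.vecMulVec_mulVec, op_smul_eq_smul, smul_smul,
    dotProduct_comm]

theorem la_vec_symm {M : Matrix V V F} (hM : M.IsSymm) (c : F) (v : V → F) :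
    (M + c • vecMulVec v v).IsSymm := by
  refine hM.add (Matrix.IsSymm.smul ?_ c)
  exact Matrix.transpose_vecMulVec v v

theorem rank_add_vec_of_not_mem {M : Matrix V V F} (hM : M.IsSymm) {v : V → F} (hv : v ∉ cs M)
    {c : F} (hc : c ≠ 0) : (M + c • vecMulVec v v).rank = M.rank + 1 := by
  obtain ⟨x, hx, hxv⟩ := sep hM hv
  have hvm : v ∈ cs (M + c • vecMulVec v v) := by
    refine ⟨(c * (x ⬝ᵥ v))⁻¹ • x, ?_⟩
    change (M + c • vecMulVec v v) *ᵥ ((c * (x ⬝ᵥ v))⁻¹ • x) = v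
    rw [Matrix.mulVec_smul, la_vec_mulVec, hx, zero_add, smul_smul,
      inv_mul_cancel₀ (mul_ne_zero hc hxv), one_smul]
  have he : cs (M + c • vecMulVec v v) = cs M ⊔ Submodule.span F {v} := by
    apply le_antisymm
    · rintro _ ⟨y, rfl⟩
      change (M + c • vecMulVec v v) *ᵥ y ∈ _
      rw [la_vec_mulVec]
      exact Submodule.add_mem_sup ⟨y, rfl⟩
        (Submodule.smul_mem _ _ (Submodule.mem_span_singleton_self v))
    · refine sup_le ?_ ((Submodule.span_singleton_le_iff_mem _ _).2 hvm)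
      rintro _ ⟨y, rfl⟩
      have h1 : M *ᵥ y = (M + c • vecMulVec v v) *ᵥ y - (c * (y ⬝ᵥ v)) • v := by
        rw [la_vec_mulVec, add_sub_cancel_right]
      change M *ᵥ y ∈ _
      rw [h1]
      exact Submodule.sub_mem _ ⟨y, rfl⟩ (Submodule.smul_mem _ _ hvm)
  rw [rank_eq_cs, he, Submodule.finrank_sup_span_singleton hv, rank_eq_cs]

theorem rank_add_vec_of_mem {M : Matrix V V F} (hM : M.IsSymm) {v x : V → F} (hv : M *ᵥ x = v)
    {c : F} (hc : 1 + c * (x ⬝ᵥ v) = 0) : (M + c • vecMulVec v v).rank + 1 = M.rank := by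
  have hc0 : c ≠ 0 := by
    rintro rfl
    simp at hc
  have hxv : x ⬝ᵥ v ≠ 0 := by
    intro h
    simp [h] at hc
  have hs := la_vec_symm hM c v
  have hx : (M + c • vecMulVec v v) *ᵥ x = 0 := by
    rw [la_vec_mulVec, hv]
    calc v + (c * (x ⬝ᵥ v)) • v = (1 + c * (x ⬝ᵥ v)) • v := by rw [add_smul, one_smul]
      _ = 0 := by rw [hc, zero_smul]
  have hnot : v ∉ cs (M + c • vecMulVec v v) := by
    rintro ⟨y, hy⟩
    apply hxv
    have hy' : (M + c • vecMulVec v v) *ᵥ y = v := hy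
    rw [← hy', la_sym hs, hx, zero_dotProduct]
  have h := rank_add_vec_of_not_mem hs hnot (neg_ne_zero.2 hc0)
  rw [neg_smul, add_neg_cancel_right] at h
  exact h.symm

/-- A sum with additive ranks has additive column spaces. -/
theorem cs_le_of_tight {M M' : Matrix V V' F} (h : M.rank + M'.rank ≤ (M + M').rank) :
    cs M' ≤ cs (M + M') := by
  have he : cs (M + M') = cs M ⊔ cs M' :=
    Submodule.eq_of_le_of_finrank_le (la_cs_add_le M M')
      ((Submodule.finrank_add_le_finrank_add_finrank _ _).trans h)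
  rw [he]
  exact le_sup_right

theorem rank_add_of_disjoint {M M' : Matrix V V F} (hM : M.IsSymm) (hM' : M'.IsSymm)
    (h : Disjoint (cs M) (cs M')) : (M + M').rank = M.rank + M'.rank := by
  have hk : ∀ x, (M + M') *ᵥ x = 0 → M *ᵥ x = 0 ∧ M' *ᵥ x = 0 := by
    intro x hx
    rw [Matrix.add_mulVec] at hx
    have h1 : M *ᵥ x = 0 := by
      refine Submodule.disjoint_def.1 h _ ⟨x, rfl⟩ ⟨-x, ?_⟩
      change M' *ᵥ (-x) = M *ᵥ x
      rw [Matrix.mulVec_neg]
      exact (eq_neg_of_add_eq_zero_left hx).symm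
    rw [h1, zero_add] at hx
    exact ⟨h1, hx⟩
  have he : cs (M + M') = cs M ⊔ cs M' :=
    le_antisymm (la_cs_add_le M M')
      (sup_le (la_cs_le_of_ker hM (hM.add hM') fun x hx => (hk x hx).1)
        (la_cs_le_of_ker hM' (hM.add hM') fun x hx => (hk x hx).2))
  have h2 := Submodule.finrank_sup_add_finrank_inf_eq (cs M) (cs M')
  rw [h.eq_bot, finrank_bot, add_zero] at h2
  rw [rank_eq_cs, he, h2, rank_eq_cs, rank_eq_cs]

/-- If the dual forms differ on the two dimensional intersection then the rank of the difference is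
large. -/
theorem rank_sub_ge {M M' : Matrix V V F} (hM : M.IsSymm) (hM' : M'.IsSymm) {v w x x' y y' : V → F}
    (hint : cs M ⊓ cs M' ≤ Submodule.span F {v, w})
    (hx : M *ᵥ x = v) (hx' : M' *ᵥ x' = v) (hy : M *ᵥ y = w) (hy' : M' *ᵥ y' = w)
    (h1 : x ⬝ᵥ v = x' ⬝ᵥ v) (h2 : y ⬝ᵥ w = y' ⬝ᵥ w) (h3 : x ⬝ᵥ w ≠ x' ⬝ᵥ w) :
    M.rank + M'.rank ≤ (M - M').rank + 2 ∧ cs (M - M') = cs M ⊔ cs M' := by
  have hk : ∀ z, (M - M') *ᵥ z = 0 → M *ᵥ z = 0 ∧ M' *ᵥ z = 0 := by
    intro z hz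
    rw [Matrix.sub_mulVec, sub_eq_zero] at hz
    have hm : M *ᵥ z ∈ Submodule.span F {v, w} := hint ⟨⟨z, rfl⟩, ⟨z, hz.symm⟩⟩
    obtain ⟨a, b, hab⟩ := Submodule.mem_span_pair.1 hm
    have e1 : x ⬝ᵥ (a • v + b • w) = x' ⬝ᵥ (a • v + b • w) := by
      rw [hab, la_sym hM, hx, hz, la_sym hM', hx']
    have e2 : y ⬝ᵥ (a • v + b • w) = y' ⬝ᵥ (a • v + b • w) := by
      rw [hab, la_sym hM, hy, hz, la_sym hM', hy']
    have e3 : y ⬝ᵥ v = x ⬝ᵥ w := by rw [← hx, la_sym hM, hy, dotProduct_comm]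
    have e4 : y' ⬝ᵥ v = x' ⬝ᵥ w := by rw [← hx', la_sym hM', hy', dotProduct_comm]
    simp only [dotProduct_add, dotProduct_smul, smul_eq_mul] at e1 e2
    rw [h1] at e1
    rw [h2, e3, e4] at e2
    have hb : b = 0 := by
      by_contra hb
      exact h3 (mul_left_cancel₀ hb (add_left_cancel e1))
    have ha : a = 0 := by
      by_contra ha
      exact h3 (mul_left_cancel₀ ha (add_right_cancel e2))
    rw [ha, hb, zero_smul, zero_smul, add_zero] at hab
    exact ⟨hab.symm, by rw [← hz, ← hab]⟩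
  have he : cs (M - M') = cs M ⊔ cs M' :=
    le_antisymm (la_cs_sub_le M M')
      (sup_le (la_cs_le_of_ker hM (hM.sub hM') fun x hx => (hk x hx).1)
        (la_cs_le_of_ker hM' (hM.sub hM') fun x hx => (hk x hx).2))
  refine ⟨?_, he⟩
  have h4 := Submodule.finrank_sup_add_finrank_inf_eq (cs M) (cs M')
  have h5 : finrank F (cs M ⊓ cs M' : Submodule F (V → F)) ≤ 2 := by
    classical
    refine (Submodule.finrank_mono hint).trans ((finrank_span_le_card _).trans ?_)
    rw [Set.toFinset_insert, Set.toFinset_singleton]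
    exact Finset.card_le_two
  rw [rank_eq_cs (M - M'), he, rank_eq_cs, rank_eq_cs]
  omega

theorem la_perp_ge (S K : Submodule F (V → F)) (h : ∀ x, (∀ w ∈ S, x ⬝ᵥ w = 0) → x ∈ K) :
    Fintype.card V ≤ finrank F K + finrank F S := by
  let φ : (V → F) →ₗ[F] Module.Dual F S := (dotProductBilin F F).compl₂ S.subtype
  have h1 := LinearMap.finrank_range_add_finrank_ker φ
  rw [Module.finrank_fintype_fun_eq_card] at h1
  have h2 : finrank F (LinearMap.range φ) ≤ finrank F S := by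
    rw [← Subspace.dual_finrank_eq]
    exact Submodule.finrank_le _
  have h3 : finrank F (LinearMap.ker φ) ≤ finrank F K := by
    refine Submodule.finrank_mono fun x hx => h x fun w hw => ?_
    exact LinearMap.congr_fun (LinearMap.mem_ker.1 hx) ⟨w, hw⟩
  omega

/-- If the dual forms agree on the intersection then the rank of the difference is small. -/
theorem rank_sub_le {M M' : Matrix V V F} (hM : M.IsSymm) (hM' : M'.IsSymm)
    (h : ∀ v ∈ cs M ⊓ cs M', ∀ w ∈ cs M ⊓ cs M', ∀ x x', M *ᵥ x = v → M' *ᵥ x' = v →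
      x ⬝ᵥ w = x' ⬝ᵥ w) :
    (M - M').rank + 2 * finrank F (cs M ⊓ cs M' : Submodule F (V → F)) ≤ M.rank + M'.rank := by
  have hperp : ∀ x, (∀ w ∈ cs M ⊓ cs M', x ⬝ᵥ w = 0) → x ∈ la_ker M ⊔ la_ker M' := by
    intro x hx
    by_contra hn
    obtain ⟨y, hy, hyx⟩ := la_sepS hn
    apply hyx
    rw [dotProduct_comm]
    refine hx y ⟨la_mem_cs hM fun k hk => ?_, la_mem_cs hM' fun k hk => ?_⟩
    · rw [dotProduct_comm]
      exact hy k (Submodule.mem_sup_left hk)
    · rw [dotProduct_comm]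
      exact hy k (Submodule.mem_sup_right hk)
  have hI : cs M ⊓ cs M' ≤ (la_ker (M - M')).map M.mulVecLin := by
    intro w hw
    obtain ⟨⟨x, hx⟩, ⟨x', hx'⟩⟩ := id hw
    have hx1 : M *ᵥ x = w := hx
    have hx2 : M' *ᵥ x' = w := hx'
    have hm : x - x' ∈ la_ker M ⊔ la_ker M' := hperp _ fun u hu => by
      rw [sub_dotProduct, h w hw u hu x x' hx1 hx2, sub_self]
    obtain ⟨k, hk, k', hk', e⟩ := Submodule.mem_sup.1 hm
    have hk1 : M *ᵥ k = 0 := hk
    have hk2 : M' *ᵥ k' = 0 := hk'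
    have e1 : M *ᵥ (x - k) = w := by rw [Matrix.mulVec_sub, hx1, hk1, sub_zero]
    have e2 : x - k = x' + k' := by
      rw [sub_eq_iff_eq_add.1 e.symm]
      abel
    have e3 : M' *ᵥ (x - k) = w := by rw [e2, Matrix.mulVec_add, hx2, hk2, add_zero]
    refine ⟨x - k, ?_, e1⟩
    change (M - M') *ᵥ (x - k) = 0
    rw [Matrix.sub_mulVec, e1, e3, sub_self]
  have h1 := Submodule.finrank_mono hI
  have h2 := la_map_ker M.mulVecLin (la_ker (M - M'))
  have h3 := la_perp_ge (cs M ⊔ cs M') (la_ker (M - M') ⊓ la_ker M) fun x hx => by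
    have e1 : M *ᵥ x = 0 := la_eq_zero fun y => by
      rw [← la_sym hM]
      exact hx _ (Submodule.mem_sup_left ⟨y, rfl⟩)
    have e2 : M' *ᵥ x = 0 := la_eq_zero fun y => by
      rw [← la_sym hM']
      exact hx _ (Submodule.mem_sup_right ⟨y, rfl⟩)
    refine ⟨?_, e1⟩
    change (M - M') *ᵥ x = 0
    rw [Matrix.sub_mulVec, e1, e2, sub_self]
  have h4 := la_rank_null (M - M')
  have h5 := Submodule.finrank_sup_add_finrank_inf_eq (cs M) (cs M')
  rw [rank_eq_cs M, rank_eq_cs M']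
  change finrank F ((la_ker (M - M')).map M.mulVecLin) +
    finrank F (la_ker (M - M') ⊓ la_ker M : Submodule F (V → F)) = _ at h2
  omega

theorem rank_conj_le (M : Matrix V V F) (P : Matrix V' V F) : (P * M * Pᵀ).rank ≤ M.rank :=
  (Matrix.rank_mul_le_left _ _).trans (Matrix.rank_mul_le_right _ _)

theorem tight_inj {M : Matrix V V F} {P : Matrix V' V F} (h : M.rank ≤ (P * M * Pᵀ).rank)
    {y : V → F} (hy : P *ᵥ (M *ᵥ y) = 0) : M *ᵥ y = 0 := by
  have h1 : M.rank ≤ (P * M).rank := h.trans (Matrix.rank_mul_le_left _ _)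
  have h2 := la_rank_null M
  have h3 := la_rank_null (P * M)
  have hle : la_ker M ≤ la_ker (P * M) := fun x hx => by
    have hx' : M *ᵥ x = 0 := hx
    change (P * M) *ᵥ x = 0
    rw [← Matrix.mulVec_mulVec, hx', Matrix.mulVec_zero]
  have he : la_ker M = la_ker (P * M) := Submodule.eq_of_le_of_finrank_le hle (by omega)
  have : y ∈ la_ker (P * M) := by
    change (P * M) *ᵥ y = 0
    rw [← Matrix.mulVec_mulVec, hy]
  rw [← he] at this
  exact this

theorem tight_mem {M : Matrix V V F} {P : Matrix V' V F} (h : M.rank ≤ (P * M * Pᵀ).rank)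
    (y : V → F) : P *ᵥ (M *ᵥ y) ∈ cs (P * M * Pᵀ) := by
  have hle : cs (P * M * Pᵀ) ≤ cs (P * M) := by
    rintro _ ⟨z, rfl⟩
    exact ⟨Pᵀ *ᵥ z, by simp only [Matrix.mulVecLin_apply, Matrix.mulVec_mulVec]⟩
  have he : cs (P * M * Pᵀ) = cs (P * M) :=
    Submodule.eq_of_le_of_finrank_le hle ((Matrix.rank_mul_le_right P M).trans h)
  rw [he]
  exact ⟨y, by simp only [Matrix.mulVecLin_apply, Matrix.mulVec_mulVec]⟩

/-- A reflexive generalised inverse. -/
theorem exists_ginv (L : Matrix V V F) :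
    ∃ Γ : Matrix V V F, L * Γ * L = L ∧ Γ.rank ≤ L.rank := by
  obtain ⟨g, hg⟩ := LinearMap.exists_rightInverse_of_surjective L.mulVecLin.rangeRestrict
    (LinearMap.range_rangeRestrict _)
  obtain ⟨G, hG⟩ := LinearMap.exists_extend g
  have h1 : L * LinearMap.toMatrix' G * L = L := by
    refine Matrix.ext_iff_mulVec.2 fun v => ?_
    rw [← Matrix.mulVec_mulVec, ← Matrix.mulVec_mulVec, LinearMap.toMatrix'_mulVec]
    have e1 : G (L *ᵥ v) = g ⟨L *ᵥ v, ⟨v, rfl⟩⟩ := LinearMap.congr_fun hG ⟨L *ᵥ v, ⟨v, rfl⟩⟩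
    rw [e1]
    exact congrArg Subtype.val (LinearMap.congr_fun hg ⟨L *ᵥ v, ⟨v, rfl⟩⟩)
  refine ⟨LinearMap.toMatrix' G * L * LinearMap.toMatrix' G, ?_, ?_⟩
  · calc L * (LinearMap.toMatrix' G * L * LinearMap.toMatrix' G) * L
        = (L * LinearMap.toMatrix' G * L) * LinearMap.toMatrix' G * L := by
          simp only [Matrix.mul_assoc]
      _ = L := by rw [h1, h1]
  · exact (Matrix.rank_mul_le_left _ _).trans (Matrix.rank_mul_le_right _ _)

theorem tight_iff {M : Matrix V V F} (hM : M.IsSymm) {P : Matrix V' V F} {Γ : Matrix V' V' F}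
    (h1 : (P * M * Pᵀ) * Γ * (P * M * Pᵀ) = P * M * Pᵀ) (h2 : Γ.rank ≤ (P * M * Pᵀ).rank) :
    M.rank ≤ (P * M * Pᵀ).rank ↔ M = (P * M)ᵀ * Γ * (P * M) := by
  constructor
  · intro h
    choose z hz using fun j : V => tight_mem h (Pi.single j 1)
    let Z : Matrix V' V F := Matrix.of fun i j => z j i
    have hZ1 : ∀ j, Z *ᵥ Pi.single j 1 = z j := fun j => by
      funext i
      simp [Z]
    have hZ : P * M = P * M * Pᵀ * Z := by
      refine Matrix.ext_of_mulVec_single fun j => ?_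
      rw [← Matrix.mulVec_mulVec _ (P * M * Pᵀ), hZ1, ← Matrix.mulVec_mulVec _ P M]
      exact (hz j).symm
    have hMZ : M = M * Pᵀ * Z := by
      refine Matrix.ext_iff_mulVec.2 fun v => ?_
      have e : P *ᵥ (M *ᵥ (v - (Pᵀ * Z) *ᵥ v)) = 0 := by
        rw [Matrix.mulVec_mulVec, Matrix.mulVec_sub, Matrix.mulVec_mulVec, ← Matrix.mul_assoc, ← hZ,
          sub_self]
      have e' := tight_inj h e
      rw [Matrix.mulVec_sub, Matrix.mulVec_mulVec, sub_eq_zero] at e'
      rw [Matrix.mul_assoc]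
      exact e'
    have hL : (P * M * Pᵀ)ᵀ = P * M * Pᵀ := by
      rw [Matrix.transpose_mul, Matrix.transpose_mul, Matrix.transpose_transpose, hM.eq,
        Matrix.mul_assoc]
    have hMt : M = Zᵀ * (P * M) := by
      have := congrArg Matrix.transpose hMZ
      rw [Matrix.transpose_mul, Matrix.transpose_mul, Matrix.transpose_transpose, hM.eq] at this
      exact this
    calc M = Zᵀ * (P * M) := hMt
      _ = Zᵀ * (P * M * Pᵀ * Z) := by rw [← hZ]
      _ = Zᵀ * ((P * M * Pᵀ) * Γ * (P * M * Pᵀ) * Z) := by rw [h1]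
      _ = (P * M * Pᵀ * Z)ᵀ * Γ * (P * M * Pᵀ * Z) := by
          rw [Matrix.transpose_mul (P * M * Pᵀ) Z, hL]
          simp only [Matrix.mul_assoc]
      _ = (P * M)ᵀ * Γ * (P * M) := by rw [← hZ]
  · intro h
    calc M.rank = ((P * M)ᵀ * Γ * (P * M)).rank := by rw [← h]
      _ ≤ Γ.rank := (Matrix.rank_mul_le_left _ _).trans (Matrix.rank_mul_le_right _ _)
      _ ≤ _ := h2

/-- One extra dimension raises the rank by at most one when the new column is in the old span. -/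
theorem rank_le_succ {M : Matrix V V F} (hM : M.IsSymm) {P : Matrix V' V F} {y : V → F}
    (hspan : ∀ x, ∃ (z : V' → F) (c : F), x = Pᵀ *ᵥ z + c • y)
    (hy : P *ᵥ (M *ᵥ y) ∈ cs (P * M * Pᵀ)) : M.rank ≤ (P * M * Pᵀ).rank + 1 := by
  have h1 : cs (P * M) ≤ cs (P * M * Pᵀ) := by
    rintro _ ⟨x, rfl⟩
    obtain ⟨z, c, rfl⟩ := hspan x
    rw [Matrix.mulVecLin_apply, Matrix.mulVec_add, Matrix.mulVec_smul, Matrix.mulVec_mulVec,
      ← Matrix.mulVec_mulVec y P M]
    exact Submodule.add_mem _ ⟨z, rfl⟩ (Submodule.smul_mem _ _ hy)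
  have h2 : (M * Pᵀ).rank = (P * M).rank := by
    rw [← Matrix.rank_transpose (P * M), Matrix.transpose_mul, hM.eq]
  have h3 : cs M ≤ cs (M * Pᵀ) ⊔ Submodule.span F {M *ᵥ y} := by
    rintro _ ⟨x, rfl⟩
    obtain ⟨z, c, rfl⟩ := hspan x
    rw [Matrix.mulVecLin_apply, Matrix.mulVec_add, Matrix.mulVec_smul, Matrix.mulVec_mulVec]
    exact Submodule.add_mem_sup ⟨z, rfl⟩
      (Submodule.smul_mem _ _ (Submodule.mem_span_singleton_self _))
  have h4 := Submodule.finrank_mono h1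
  have h5 := Submodule.finrank_mono h3
  have h6 := Submodule.finrank_add_le_finrank_add_finrank (cs (M * Pᵀ))
    (Submodule.span F {M *ᵥ y})
  have h7 : finrank F (Submodule.span F {M *ᵥ y}) ≤ 1 := by
    refine (finrank_span_le_card _).trans ?_
    simp
  rw [← rank_eq_cs] at h5 h6
  rw [← rank_eq_cs, ← rank_eq_cs] at h4
  omega

end Pool.Agent.MP_bae0ed_lc.H52
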