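import Pool.Agent.MP_bae0ed_lc.H52.Basic
import Pool.Agent.MP_bae0ed_lc.H52.LinAlg

/-!
The Laplacian with weights `1 / (p a + p b)`: parity, triangles, images, upper bounds.
-/

set_option autoImplicit false
set_option linter.unusedSectionVars false

namespace Pool.Agent.MP_bae0ed_lc.H52

open Finset Matrix Function Module Gr

variable {V V' : Type} [DecidableEq V] [DecidableEq V'] [Fintype V] [Fintype V']
variable {F : Type} [Field F] [CharP F 2]

theorem Rg_eq (X : Gr V) (p : V → F) : Rg X p = cs (Lap X p) := rfl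

theorem rk_eq (X : Gr V) (p : V → F) : rk X p = finrank F (Rg X p) := rfl

theorem Lap_apply (X : Gr V) (p : V → F) (a b : V) : Lap X p a b =
    cz F (X.adj b a) * (p a + p b)⁻¹
      + if a = b then ∑ x, cz F (X.adj b x) * (p x + p b)⁻¹ else 0 := rfl

theorem proper_of_inj (X : Gr V) {p : V → F} (h : Injective p) : Proper X p :=
  fun _ _ hab e => ne_of_adj hab (h e)

theorem proper_comp {X : Gr V} {φ : V → V'} {p : V' → F} (h : Injective p)
    (hφ : ∀ a b, X.adj a b = 1 → φ a ≠ φ b) : Proper X (p ∘ φ) :=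
  fun a b hab e => hφ a b hab (h e)

theorem lapl_two : (2 : F) = 0 := CharTwo.two_eq_zero

theorem lapl_ne {a b : F} (h : a ≠ b) : a + b ≠ 0 := fun e => h (CharTwo.add_eq_zero.1 e)

theorem lapl_cz_sq (x : ZMod 2) : cz F x * cz F x = cz F x := by
  rcases z2 x with rfl | rfl <;> simp

theorem lapl_cz_eq_zero {x : ZMod 2} (h : cz F x = 0) : x = 0 := by
  rcases z2 x with rfl | rfl
  · rfl
  · simp at h

theorem lapl_cz_ite (c : Prop) [Decidable c] (x : ZMod 2) :
    cz F (if c then x else 0) = if c then cz F x else 0 := by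
  split_ifs <;> simp

theorem lapl_sv_apply (p : V → F) (y : V) (Z : V → ZMod 2) (v : V) : sv p y Z v =
    cz F (Z v) * (p v + p y)⁻¹ + if v = y then ∑ x, cz F (Z x) * (p x + p y)⁻¹ else 0 := rfl

theorem lapl_sum_swap (f : V → V → F) (h1 : ∀ a, f a a = 0) (h2 : ∀ a b, f a b + f b a = 0) :
    ∑ a, ∑ b, f a b = 0 := by
  rw [← Finset.sum_product']
  refine Finset.sum_involution (fun q _ => q.swap) (fun q _ => h2 _ _) (fun q _ h => ?_)
    (fun q _ => by simp) (fun q _ => by simp)
  intro e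
  have : q.2 = q.1 := congrArg Prod.fst e
  exact h (by rw [this, h1])

theorem Lap_symm (X : Gr V) (p : V → F) : (Lap X p).IsSymm := by
  ext a b
  rw [transpose_apply, Lap_apply, Lap_apply]
  by_cases h : a = b
  · subst h; rfl
  · rw [if_neg h, if_neg (Ne.symm h), X.symm a b, add_comm (p a)]

theorem sv_add (p : V → F) (y : V) (Z Z' : V → ZMod 2) :
    sv p y (Z + Z') = sv p y Z + sv p y Z' := by
  funext v
  simp only [lapl_sv_apply, Pi.add_apply, map_add, add_mul, Finset.sum_add_distrib]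
  split_ifs <;> ring

@[simp] theorem sv_zero (p : V → F) (y : V) : sv p y 0 = 0 := by
  funext v
  simp [lapl_sv_apply]

theorem Lap_add (X Y : Gr V) (p : V → F) : Lap (X + Y) p = Lap X p + Lap Y p := by
  ext a b
  exact congrFun (sv_add p b (X.adj b) (Y.adj b)) a

@[simp] theorem Lap_zero (p : V → F) : Lap (0 : Gr V) p = 0 := by
  ext a b
  exact congrFun (sv_zero p b) a

theorem Lap_mulVec (X : Gr V) (p x : V → F) (a : V) :
    (Lap X p *ᵥ x) a = ∑ b, cz F (X.adj a b) * (p a + p b)⁻¹ * (x a + x b) := by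
  simp only [mulVec, dotProduct, Lap_apply, add_mul, ite_mul, zero_mul, Finset.sum_add_distrib,
    Finset.sum_ite_eq, Finset.mem_univ, if_true, mul_add, Finset.sum_mul]
  rw [add_comm]
  refine congrArg₂ (· + ·) (Finset.sum_congr rfl fun b _ => ?_) (Finset.sum_congr rfl fun b _ => ?_)
  · rw [add_comm (p b)]
  · rw [X.symm b a]

theorem Lap_single (X : Gr V) (p : V → F) (y : V) :
    Lap X p *ᵥ Pi.single y 1 = sv p y (X.adj y) := by
  rw [mulVec_single_one]
  rfl

theorem sv_row_mem (X : Gr V) (p : V → F) (y : V) : sv p y (X.adj y) ∈ Rg X p :=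
  ⟨_, Lap_single X p y⟩

theorem lapl_pm_mulVec (φ : V → V') (v : V → F) (y : V') :
    (pm F φ *ᵥ v) y = ∑ a, if φ a = y then v a else 0 := by
  simp [mulVec, dotProduct, pm]

theorem lapl_pmT_mulVec (φ : V → V') (x : V' → F) : (pm F φ)ᵀ *ᵥ x = x ∘ φ := by
  funext a
  simp [mulVec, dotProduct, pm]

theorem lapl_pmT_pm {φ : V → V'} (hφ : Injective φ) : (pm F φ)ᵀ * pm F φ = 1 := by
  rw [ext_iff_mulVec]
  intro v
  rw [← mulVec_mulVec, lapl_pmT_mulVec, one_mulVec]
  funext a
  simp [lapl_pm_mulVec, hφ.eq_iff]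

theorem Lap_push (φ : V → V') (X : Gr V) (p : V' → F) :
    Lap (X.push φ) p = pm F φ * Lap X (p ∘ φ) * (pm F φ)ᵀ := by
  rw [ext_iff_mulVec]
  intro x
  rw [← mulVec_mulVec, ← mulVec_mulVec, lapl_pmT_mulVec]
  funext y
  simp only [lapl_pm_mulVec, Lap_mulVec, push_adj, map_sum, lapl_cz_ite, Finset.sum_mul, ite_mul,
    zero_mul, Function.comp_apply]
  rw [Finset.sum_comm]
  refine Finset.sum_congr rfl fun a _ => ?_
  rw [Finset.sum_comm]
  by_cases h : φ a = y
  · subst h
    simp
  · simp [h]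

theorem pm_sv (φ : V → V') (p : V' → F) (y : V) (Z : V → ZMod 2) :
    pm F φ *ᵥ sv (p ∘ φ) y Z = sv p (φ y) (pushZ φ Z) := by
  funext v
  have h1 : ∀ u, cz F (pushZ φ Z u) * (p u + p (φ y))⁻¹ =
      ∑ a, if φ a = u then cz F (Z a) * (p (φ a) + p (φ y))⁻¹ else 0 := by
    intro u
    simp only [pushZ, map_sum, lapl_cz_ite, Finset.sum_mul, ite_mul, zero_mul]
    refine Finset.sum_congr rfl fun a _ => ?_
    split_ifs with h
    · rw [h]
    · rfl
  have h2 : ∑ u, cz F (pushZ φ Z u) * (p u + p (φ y))⁻¹ =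
      ∑ a, cz F (Z a) * (p (φ a) + p (φ y))⁻¹ := by
    simp only [h1]
    rw [Finset.sum_comm]
    simp
  rw [lapl_sv_apply, h1, h2, lapl_pm_mulVec]
  simp only [lapl_sv_apply, Function.comp_apply]
  have h3 : ∀ a, (if φ a = v then cz F (Z a) * (p (φ a) + p (φ y))⁻¹ +
      (if a = y then ∑ x, cz F (Z x) * (p (φ x) + p (φ y))⁻¹ else 0) else 0) =
      (if φ a = v then cz F (Z a) * (p (φ a) + p (φ y))⁻¹ else 0) +
      (if a = y then (if v = φ y then ∑ x, cz F (Z x) * (p (φ x) + p (φ y))⁻¹ else 0) else 0) := by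
    intro a
    by_cases h : a = y
    · subst h
      by_cases h' : φ a = v
      · simp [h']
      · simp [h', Ne.symm h']
    · simp [h]
  simp only [h3, Finset.sum_add_distrib, Finset.sum_ite_eq', Finset.mem_univ, if_true]

theorem rk_push_le (φ : V → V') (X : Gr V) (p : V' → F) : rk (X.push φ) p ≤ rk X (p ∘ φ) := by
  unfold rk
  rw [Lap_push]
  exact rank_conj_le _ _

theorem rk_push_inj {φ : V → V'} (hφ : Injective φ) (X : Gr V) (p : V' → F) :
    rk (X.push φ) p = rk X (p ∘ φ) := by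
  refine le_antisymm (rk_push_le φ X p) ?_
  have h := rank_conj_le (Lap (X.push φ) p) (pm F φ)ᵀ
  have e : (pm F φ)ᵀ * Lap (X.push φ) p * (pm F φ)ᵀᵀ = Lap X (p ∘ φ) := by
    rw [Lap_push, transpose_transpose]
    simp only [← Matrix.mul_assoc]
    rw [lapl_pmT_pm hφ, Matrix.one_mul, Matrix.mul_assoc, lapl_pmT_pm hφ, Matrix.mul_one]
  rw [e] at h
  exact h

theorem Rg_push_inj {φ : V → V'} (hφ : Injective φ) (X : Gr V) (p : V' → F) :
    Rg (X.push φ) p = (Rg X (p ∘ φ)).map (pm F φ).mulVecLin := by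
  ext v
  constructor
  · rintro ⟨x, rfl⟩
    refine ⟨_, ⟨(pm F φ)ᵀ *ᵥ x, rfl⟩, ?_⟩
    simp only [mulVecLin_apply, Lap_push, mulVec_mulVec, Matrix.mul_assoc]
  · rintro ⟨_, ⟨x, rfl⟩, rfl⟩
    refine ⟨pm F φ *ᵥ x, ?_⟩
    simp only [mulVecLin_apply, Lap_push, mulVec_mulVec, Matrix.mul_assoc, lapl_pmT_pm hφ,
      Matrix.mul_one]

theorem lapl_sv_congr {p q : V → F} {y : V} {Z : V → ZMod 2}
    (h : ∀ x, Z x = 1 → p x = q x ∧ p y = q y) : sv p y Z = sv q y Z := by
  have h1 : ∀ x, cz F (Z x) * (p x + p y)⁻¹ = cz F (Z x) * (q x + q y)⁻¹ := by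
    intro x
    rcases z2 (Z x) with e | e
    · simp [e]
    · rw [(h x e).1, (h x e).2]
  funext v
  simp only [lapl_sv_apply, h1]

/-- Only the values at non-isolated vertices matter. -/
theorem Lap_congr {X : Gr V} {p q : V → F} (h : ∀ a b, X.adj a b = 1 → p a = q a) :
    Lap X p = Lap X q := by
  ext a b
  exact congrFun (lapl_sv_congr fun x hx => ⟨h x b (by rw [X.symm]; exact hx), h b x hx⟩) a

theorem rk_congr {X : Gr V} {p q : V → F} (h : ∀ a b, X.adj a b = 1 → p a = q a) :
    rk X p = rk X q := by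
  unfold rk; rw [Lap_congr h]

theorem rk_add_le (X Y : Gr V) (p : V → F) : rk (X + Y) p ≤ rk X p + rk Y p := by
  unfold rk
  rw [Lap_add]
  exact rank_add_le _ _

@[simp] theorem rk_zero (p : V → F) : rk (0 : Gr V) p = 0 := by
  unfold rk
  rw [Lap_zero, Matrix.rank_zero]

theorem rk_le_card (X : Gr V) (p : V → F) : rk X p ≤ Fintype.card V :=
  Matrix.rank_le_card_width _

theorem lapl_exists_adj {X : Gr V} (h : X ≠ 0) : ∃ a b, X.adj a b = 1 := by
  by_contra hc
  refine h (Gr.ext (funext fun a => funext fun b => ?_))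
  exact z2_ne_one.1 fun e => hc ⟨a, b, e⟩

theorem rk_pos {X : Gr V} {p : V → F} (hp : Proper X p) (h : X ≠ 0) : 0 < rk X p := by
  obtain ⟨a, b, hab⟩ := lapl_exists_adj h
  refine rank_pos fun e => ?_
  have h1 : Lap X p b a = 0 := by rw [e]; rfl
  rw [Lap_apply, hab, if_neg (ne_of_adj hab).symm, map_one, one_mul, add_zero] at h1
  exact inv_ne_zero (lapl_ne (hp a b hab).symm) h1

/-- The key identity for the dual form. -/
theorem key_identity (X : Gr V) (p x : V → F) :
    x ⬝ᵥ (Lap X p *ᵥ x) = ∑ z, p z * (Lap X p *ᵥ x) z ^ 2 := by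
  rw [← CharTwo.add_eq_zero, dotProduct]
  simp only [Lap_mulVec, CharTwo.sum_sq, Finset.mul_sum, ← Finset.sum_add_distrib]
  refine lapl_sum_swap _ (fun a => by simp [X.irr]) fun a b => ?_
  rw [X.symm b a, add_comm (p b) (p a), add_comm (x b) (x a)]
  have h2 : (2 : F) = 0 := lapl_two
  have h3 := lapl_cz_sq (F := F) (X.adj a b)
  have h4 : (p a + p b) * ((p a + p b)⁻¹ * (p a + p b)⁻¹) = (p a + p b)⁻¹ := by
    by_cases h : p a + p b = 0
    · simp [h]
    · field_simp
  generalize cz F (X.adj a b) = c at h3 ⊢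
  generalize (p a + p b)⁻¹ = s at h4 ⊢
  linear_combination (c * c * (x a + x b) ^ 2) * h4 + (s * (x a + x b) ^ 2) * h3
    + (c * s * (x a + x b) ^ 2) * h2

/-- The vector `e a + e b`. -/
def lapl_dl (F : Type) [Field F] (a b : V) : V → F := Pi.single a 1 + Pi.single b 1

theorem lapl_dl_dot (a b : V) (x : V → F) : lapl_dl F a b ⬝ᵥ x = x a + x b := by
  simp [lapl_dl, add_dotProduct]

theorem lapl_dl_sq (p : V → F) (a b : V) : ∑ z, p z * lapl_dl F a b z ^ 2 = p a + p b := by
  simp [lapl_dl, CharTwo.add_sq, mul_add, Finset.sum_add_distrib, Pi.single_apply]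

theorem lapl_vmv (c : F) (v x : V → F) : (c • vecMulVec v v) *ᵥ x = (c * (v ⬝ᵥ x)) • v := by
  rw [smul_mulVec, vecMulVec_mulVec, op_smul_eq_smul, smul_smul]

theorem lapl_edge (p : V → F) (a b : V) :
    Lap (edge a b) p = (p a + p b)⁻¹ • vecMulVec (lapl_dl F a b) (lapl_dl F a b) := by
  rw [ext_iff_mulVec]
  intro x
  funext i
  rw [lapl_vmv, lapl_dl_dot, Lap_mulVec]
  simp only [edge_adj, map_add, lapl_cz_ite, map_one, add_mul, ite_mul, zero_mul, one_mul,
    Finset.sum_add_distrib, lapl_dl, Pi.smul_apply, Pi.add_apply, Pi.single_apply, smul_eq_mul,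
    mul_add, mul_ite, mul_one, mul_zero]
  by_cases h1 : i = a <;> by_cases h2 : i = b
  · subst h1; subst h2; simp
  · subst h1; simp [h2]
  · subst h2; simp [h1, add_comm]
  · simp [h1, h2]

theorem lapl_rank_vec (X : Gr V) (p : V → F) {M : Matrix V V F} {v : V → F} {c : F}
    (hM : M = Lap X p + c • vecMulVec v v) (hc : c * ∑ z, p z * v z ^ 2 = 1) (h : v ∈ Rg X p) :
    M.rank + 1 = rk X p := by
  obtain ⟨x, hx⟩ := h
  have hx' : Lap X p *ᵥ x = v := hx
  rw [hM]
  refine rank_add_vec_of_mem (Lap_symm X p) hx' ?_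
  have := key_identity X p x
  rw [hx'] at this
  rw [this, hc]
  exact CharTwo.add_self_eq_zero _

/-- The rank has the parity of the number of edges. -/
theorem rk_par {X : Gr V} {p : V → F} (hp : Proper X p) : (rk X p : ZMod 2) = X.par := by
  revert hp
  refine edge_induction (P := fun X => Proper X p → (rk X p : ZMod 2) = X.par) ?_ ?_ X
  · intro _
    simp
  · intro Y a b hab h0 ih hp
    have hpab : p a ≠ p b := hp a b (by simp [edge_adj, h0, hab, hab.symm])
    have hY : Proper Y p := by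
      intro c d hcd
      by_cases h1 : c = a ∧ d = b
      · rw [h1.1, h1.2]; exact hpab
      by_cases h2 : d = a ∧ c = b
      · rw [h2.1, h2.2]; exact hpab.symm
      exact hp c d (by rw [add_adj, edge_adj, if_neg h1, if_neg h2, hcd]; rfl)
    rw [par_add, par_edge hab, ← ih hY]
    have hL : Lap (Y + edge a b) p =
        Lap Y p + (p a + p b)⁻¹ • vecMulVec (lapl_dl F a b) (lapl_dl F a b) := by
      rw [Lap_add, lapl_edge]
    by_cases h : lapl_dl F a b ∈ Rg Y p
    · have := lapl_rank_vec Y p hL (by rw [lapl_dl_sq, inv_mul_cancel₀ (lapl_ne hpab)]) h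
      rw [← this, Nat.cast_add, Nat.cast_one, add_assoc, z2_add_self, add_zero]
      rfl
    · have := rank_add_vec_of_not_mem (Lap_symm Y p) h (inv_ne_zero (lapl_ne hpab))
      rw [← hL] at this
      unfold rk
      rw [this, Nat.cast_add, Nat.cast_one]


theorem lapl_sum_sv (p : V → F) (y : V) (Z : V → ZMod 2) : ∑ v, sv p y Z v = 0 := by
  simp only [lapl_sv_apply, Finset.sum_add_distrib, Finset.sum_ite_eq', Finset.mem_univ, if_true]
  exact CharTwo.add_self_eq_zero _

theorem lapl_sum_p_sv {p : V → F} {y : V} {Z : V → ZMod 2} (hZ : ∀ x, Z x = 1 → p x ≠ p y) :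
    ∑ v, p v * sv p y Z v = cz F (∑ x, Z x) := by
  simp only [lapl_sv_apply, mul_add, Finset.sum_add_distrib, mul_ite, mul_zero, Finset.sum_ite_eq',
    Finset.mem_univ, if_true, Finset.mul_sum, map_sum]
  rw [← Finset.sum_add_distrib]
  refine Finset.sum_congr rfl fun x _ => ?_
  rcases z2 (Z x) with e | e
  · simp [e]
  · rw [e, map_one, one_mul, ← add_mul, mul_inv_cancel₀ (lapl_ne (hZ x e))]

theorem lapl_mem_RS {p : V → F} {S : Finset V} {v : V → F} :
    v ∈ RS p S ↔ (∀ x, x ∉ S → v x = 0) ∧ ∑ x, v x = 0 ∧ ∑ x, p x * v x = 0 := Iff.rfl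

theorem lapl_sv_mem_RS {p : V → F} {S : Finset V} {y : V} {Z : V → ZMod 2} (hy : y ∈ S)
    (hS : ∀ x, Z x = 1 → x ∈ S) (hZ : ∀ x, Z x = 1 → p x ≠ p y) (h0 : ∑ x, Z x = 0) :
    sv p y Z ∈ RS p S := by
  refine lapl_mem_RS.2 ⟨fun x hx => ?_, lapl_sum_sv p y Z, by rw [lapl_sum_p_sv hZ, h0, map_zero]⟩
  have h1 : Z x = 0 := z2_ne_one.1 fun e => hx (hS x e)
  have h2 : x ≠ y := fun e => hx (e ▸ hy)
  rw [lapl_sv_apply, h1, if_neg h2, map_zero, zero_mul, add_zero]

theorem Rg_le_RS {X : Gr V} {p : V → F} {S : Finset V} (hE : X.Eul) (hS : X.On S)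
    (hp : Proper X p) : Rg X p ≤ RS p S := by
  rintro _ ⟨x, rfl⟩
  have h1 : (Lap X p).mulVecLin x = ∑ y, x y • sv p y (X.adj y) := by
    funext a
    simp [mulVec, dotProduct, Lap, mul_comm]
  rw [h1]
  refine Submodule.sum_mem _ fun y _ => Submodule.smul_mem _ _ ?_
  by_cases hy : y ∈ S
  · exact lapl_sv_mem_RS hy (fun x hx => hS.right hx) (fun x hx => (hp y x hx).symm) (hE y)
  · have : X.adj y = 0 := funext fun x => z2_ne_one.1 fun e => hy (hS y x e)
    rw [this, sv_zero]
    exact Submodule.zero_mem _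

theorem apply_eq_zero_of_iso {X : Gr V} {p : V → F} {u : V} (hu : X.Iso u) {v : V → F}
    (hv : v ∈ Rg X p) : v u = 0 := by
  obtain ⟨x, rfl⟩ := hv
  rw [mulVecLin_apply, Lap_mulVec]
  exact Finset.sum_eq_zero fun b _ => by rw [hu b, map_zero, zero_mul, zero_mul]

theorem RS_mono (p : V → F) {S T : Finset V} (h : S ⊆ T) : RS p S ≤ RS p T :=
  fun _ hv => ⟨fun x hx => hv.1 x fun e => hx (h e), hv.2⟩

theorem RS_congr {p q : V → F} {S : Finset V} (h : ∀ x ∈ S, p x = q x) : RS p S = RS q S := by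
  ext v
  rw [lapl_mem_RS, lapl_mem_RS]
  refine and_congr_right fun h1 => and_congr_right fun _ => ?_
  have : ∑ x, p x * v x = ∑ x, q x * v x := by
    refine Finset.sum_congr rfl fun x _ => ?_
    by_cases hx : x ∈ S
    · rw [h x hx]
    · rw [h1 x hx, mul_zero, mul_zero]
  rw [this]

theorem lapl_pair {b c x : V}
    (h : (Pi.single b 1 + Pi.single c 1 : V → ZMod 2) x = 1) : x = b ∨ x = c := by
  by_contra hc
  rw [not_or] at hc
  simp [hc.1, hc.2] at h

theorem tv_congr {p q : V → F} {a b c : V} (ha : p a = q a) (hb : p b = q b) (hc : p c = q c) :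
    tv p a b c = tv q a b c := by
  refine lapl_sv_congr fun x hx => ⟨?_, ha⟩
  rcases lapl_pair hx with rfl | rfl
  · exact hb
  · exact hc

theorem tv_mem_RS {p : V → F} {S : Finset V} {a b c : V} (ha : a ∈ S) (hb : b ∈ S) (hc : c ∈ S)
    (hab : p a ≠ p b) (hac : p a ≠ p c) : tv p a b c ∈ RS p S := by
  refine lapl_sv_mem_RS ha (fun x hx => ?_) (fun x hx => ?_) ?_
  · rcases lapl_pair hx with rfl | rfl
    · exact hb
    · exact hc
  · rcases lapl_pair hx with rfl | rfl
    · exact hab.symm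
    · exact hac.symm
  · simp [Finset.sum_add_distrib, z2_add_self]

theorem lapl_sv_single (p : V → F) (a b : V) :
    sv p a (Pi.single b 1) = (p a + p b)⁻¹ • lapl_dl F a b := by
  funext v
  simp only [lapl_sv_apply, Pi.single_apply, lapl_cz_ite, map_one, ite_mul, one_mul, zero_mul,
    Finset.sum_ite_eq', Finset.mem_univ, if_true, lapl_dl, Pi.smul_apply, Pi.add_apply, smul_eq_mul,
    mul_add, mul_ite, mul_one, mul_zero, add_comm (p b) (p a)]
  rw [add_comm]
  by_cases h : v = b
  · subst h; simp [add_comm]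
  · simp [h]

theorem lapl_tv (p : V → F) (a b c : V) :
    tv p a b c = (p a + p b)⁻¹ • lapl_dl F a b + (p a + p c)⁻¹ • lapl_dl F a c := by
  rw [tv, sv_add, lapl_sv_single, lapl_sv_single]

theorem lapl_tv_self {p : V → F} {a b c : V} (hac : a ≠ c) (hbc : b ≠ c) :
    tv p a b c c = (p a + p c)⁻¹ := by
  simp [lapl_tv, lapl_dl, hac.symm, hbc.symm]

theorem lapl_tv_other {p : V → F} {a b c x : V} (ha : x ≠ a) (hb : x ≠ b) (hc : x ≠ c) :
    tv p a b c x = 0 := by
  simp [lapl_tv, lapl_dl, ha, hb, hc]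

theorem tv_apply {p : V → F} {a b c : V} (hac : p a ≠ p c) (hbc : b ≠ c) : tv p a b c c ≠ 0 := by
  rw [lapl_tv_self (fun e => hac (by rw [e])) hbc]
  exact inv_ne_zero (lapl_ne hac)

theorem lapl_RS_two {p : V → F} {S : Finset V} {a b : V} (hab : p a ≠ p b) {v : V → F}
    (hv : v ∈ RS p S) (h : ∀ x, x ≠ a → x ≠ b → v x = 0) : v = 0 := by
  have hne : a ≠ b := fun e => hab (by rw [e])
  have h1 := hv.2.1
  have h2 := hv.2.2
  rw [Fintype.sum_eq_add a b hne fun x hx => h x hx.1 hx.2] at h1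
  rw [Fintype.sum_eq_add a b hne fun x hx => by rw [h x hx.1 hx.2, mul_zero]] at h2
  have h3 : v a = v b := CharTwo.add_eq_zero.1 h1
  rw [h3, ← add_mul] at h2
  have h4 : v b = 0 := (mul_eq_zero.1 h2).resolve_left (lapl_ne hab)
  funext x
  by_cases ha : x = a
  · rw [ha, h3, h4]; rfl
  by_cases hb : x = b
  · rw [hb, h4]; rfl
  exact h x ha hb

/-- The triangle vectors through two fixed points span. -/
theorem RS_le {p : V → F} {S : Finset V} {a b : V} (ha : a ∈ S) (hb : b ∈ S) (hab : p a ≠ p b)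
    (hS : ∀ x ∈ S, x ≠ a → p a ≠ p x) {W : Submodule F (V → F)}
    (h : ∀ x ∈ S, x ≠ a → x ≠ b → tv p a b x ∈ W) : RS p S ≤ W := by
  intro v hv
  have hT : ∀ x, x ∈ (S.erase a).erase b ↔ x ≠ b ∧ x ≠ a ∧ x ∈ S := by simp
  have h1 : ∑ x ∈ (S.erase a).erase b, (v x * (p a + p x)) • tv p a b x ∈ W :=
    Submodule.sum_mem _ fun x hx => Submodule.smul_mem _ _
      (h x ((hT x).1 hx).2.2 ((hT x).1 hx).2.1 ((hT x).1 hx).1)
  have h2 : ∑ x ∈ (S.erase a).erase b, (v x * (p a + p x)) • tv p a b x ∈ RS p S :=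
    Submodule.sum_mem _ fun x hx => Submodule.smul_mem _ _
      (tv_mem_RS ha hb ((hT x).1 hx).2.2 hab (hS x ((hT x).1 hx).2.2 ((hT x).1 hx).2.1))
  have h3 := lapl_RS_two hab (Submodule.sub_mem _ hv h2) fun y hya hyb => by
    rw [Pi.sub_apply, Finset.sum_apply, sub_eq_zero]
    by_cases hy : y ∈ S
    · rw [Finset.sum_eq_single_of_mem y ((hT y).2 ⟨hyb, hya, hy⟩) fun x _ hx => by
        rw [Pi.smul_apply, lapl_tv_other hya hyb hx.symm, smul_zero]]
      rw [Pi.smul_apply, lapl_tv_self hya.symm hyb.symm, smul_eq_mul, mul_assoc,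
        mul_inv_cancel₀ (lapl_ne (hS y hy hya)), mul_one]
    · rw [hv.1 y hy]
      refine (Finset.sum_eq_zero fun x hx => ?_).symm
      rw [Pi.smul_apply, lapl_tv_other hya hyb fun e => hy (e ▸ ((hT x).1 hx).2.2), smul_zero]
  rw [sub_eq_zero.1 h3]
  exact h1

theorem finrank_RS {p : V → F} {S : Finset V} {a b : V} (ha : a ∈ S) (hb : b ∈ S)
    (hab : p a ≠ p b) : finrank F (RS p S) + 2 = S.card := by
  let E : (S → F) →ₗ[F] (V → F) :=
    { toFun := fun g x => if h : x ∈ S then g ⟨x, h⟩ else 0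
      map_add' := fun g g' => by
        funext x
        by_cases h : x ∈ S <;> simp [h]
      map_smul' := fun c g => by
        funext x
        by_cases h : x ∈ S <;> simp [h] }
  have hE1 : ∀ g (x : S), E g x = g x := fun g x => dif_pos x.2
  have hE2 : ∀ g x, x ∉ S → E g x = 0 := fun g x h => dif_neg h
  have hE3 : ∀ v : V → F, (∀ x, x ∉ S → v x = 0) → E (fun x => v x) = v := by
    intro v hv
    funext x
    by_cases h : x ∈ S
    · exact hE1 _ ⟨x, h⟩
    · rw [hE2 _ _ h, hv x h]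
  have hE : Injective E := fun g g' e => funext fun x => by rw [← hE1 g, ← hE1 g', e]
  let f : (V → F) →ₗ[F] F × F :=
    { toFun := fun v => (∑ x, v x, ∑ x, p x * v x)
      map_add' := fun g g' => by simp [mul_add, Finset.sum_add_distrib]
      map_smul' := fun c g => by simp [Finset.mul_sum, mul_left_comm] }
  have hf : ∀ v, f v = (∑ x, v x, ∑ x, p x * v x) := fun v => rfl
  have hR : RS p S = (LinearMap.ker (f ∘ₗ E)).map E := by
    ext v
    constructor
    · intro hv
      refine ⟨fun x => v x, ?_, hE3 v hv.1⟩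
      show f (E fun x => v x) = 0
      rw [hE3 v hv.1, hf, hv.2.1, hv.2.2]
      rfl
    · rintro ⟨g, hg, rfl⟩
      have hg' : f (E g) = 0 := hg
      exact ⟨hE2 g, congrArg Prod.fst hg', congrArg Prod.snd hg'⟩
  have hs : LinearMap.range (f ∘ₗ E) = ⊤ := by
    rw [eq_top_iff]
    rintro ⟨s, t⟩ -
    have hne := lapl_ne hab
    let v : V → F := Pi.single a ((t + p b * s) * (p a + p b)⁻¹)
      + Pi.single b ((t + p a * s) * (p a + p b)⁻¹)
    have hv : ∀ x, x ∉ S → v x = 0 := by
      intro x hx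
      have h1 : x ≠ a := fun e => hx (e ▸ ha)
      have h2 : x ≠ b := fun e => hx (e ▸ hb)
      simp [v, h1, h2]
    refine ⟨fun x => v x, ?_⟩
    show f (E fun x => v x) = _
    rw [hE3 v hv, hf]
    have h2 : (2 : F) = 0 := lapl_two
    have h3 := mul_inv_cancel₀ hne
    simp only [v, Pi.add_apply, mul_add, Finset.sum_add_distrib, Pi.single_apply, mul_ite, mul_zero,
      Finset.sum_ite_eq', Finset.mem_univ, if_true, Prod.mk.injEq]
    generalize (p a + p b)⁻¹ = w at h3 ⊢
    constructor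
    · linear_combination s * h3 + t * w * h2
    · linear_combination t * h3 + p a * p b * s * w * h2
  have h := LinearMap.finrank_range_add_finrank_ker (f ∘ₗ E)
  rw [hs, finrank_top, finrank_prod, finrank_self, finrank_fintype_fun_eq_card, Fintype.card_coe] at h
  rw [hR, ← (Submodule.equivMapOfInjective E hE _).finrank_eq]
  omega

/-- Two collinear sets with two common points have a collinear union. -/
theorem RS_union_le {p : V → F} (hp : Injective p) {S T : Finset V} {a b : V} (hab : a ≠ b)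
    (ha : a ∈ S) (hb : b ∈ S) (ha' : a ∈ T) (hb' : b ∈ T) : RS p (S ∪ T) ≤ RS p S ⊔ RS p T := by
  refine RS_le (mem_union_left _ ha) (mem_union_left _ hb) (hp.ne hab)
    (fun x _ hx => hp.ne hx.symm) fun x hx h1 _ => ?_
  rcases mem_union.1 hx with h | h
  · exact Submodule.mem_sup_left (tv_mem_RS ha hb h (hp.ne hab) (hp.ne h1.symm))
  · exact Submodule.mem_sup_right (tv_mem_RS ha' hb' h (hp.ne hab) (hp.ne h1.symm))

theorem rk_le_of_on {X : Gr V} {p : V → F} {S : Finset V} (hE : X.Eul) (hS : X.On S)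
    (hp : Proper X p) : rk X p ≤ S.card - 2 := by
  by_cases h : X = 0
  · rw [h, rk_zero]
    exact Nat.zero_le _
  obtain ⟨a, b, hab⟩ := lapl_exists_adj h
  have h1 := finrank_RS (hS a b hab) (hS.right hab) (hp a b hab)
  have h2 := Submodule.finrank_mono (Rg_le_RS hE hS hp)
  rw [rk_eq]
  omega

theorem Rg_eq_RS {X : Gr V} {p : V → F} {S : Finset V} (hE : X.Eul) (hS : X.On S)
    (hp : Proper X p) {a b : V} (ha : a ∈ S) (hb : b ∈ S) (hab : p a ≠ p b)
    (h : S.card ≤ rk X p + 2) : Rg X p = RS p S := by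
  have h1 := finrank_RS ha hb hab
  rw [rk_eq] at h
  exact Submodule.eq_of_le_of_finrank_le (Rg_le_RS hE hS hp) (by omega)

theorem Lap_tri {p : V → F} {a b c : V} (hab : p a ≠ p b) (hac : p a ≠ p c) (hbc : p b ≠ p c) :
    ∃ κ : F, κ ≠ 0 ∧ Lap (tri a b c) p = κ • vecMulVec (tv p a b c) (tv p a b c) ∧
      κ * ∑ z, p z * tv p a b c z ^ 2 = 1 := by
  have h2 : (2 : F) = 0 := lapl_two
  have e1 := mul_inv_cancel₀ (lapl_ne hab)
  have e2 := mul_inv_cancel₀ (lapl_ne hac)
  have e3 := mul_inv_cancel₀ (lapl_ne hbc)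
  refine ⟨(p a + p b) * (p a + p c) * (p b + p c)⁻¹,
    mul_ne_zero (mul_ne_zero (lapl_ne hab) (lapl_ne hac)) (inv_ne_zero (lapl_ne hbc)), ?_, ?_⟩
  · have hd : ∀ i, lapl_dl F b c i = lapl_dl F a b i + lapl_dl F a c i := by
      intro i
      simp only [lapl_dl, Pi.add_apply]
      linear_combination (-(Pi.single a (1 : F) : V → F) i) * h2
    rw [tri, Lap_add, Lap_add, lapl_edge, lapl_edge, lapl_edge, lapl_tv]
    ext i j
    simp only [Matrix.add_apply, Matrix.smul_apply, vecMulVec_apply, hd, Pi.add_apply,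
      Pi.smul_apply, smul_eq_mul]
    generalize (p a + p b)⁻¹ = α at e1 ⊢
    generalize (p a + p c)⁻¹ = β at e2 ⊢
    generalize (p b + p c)⁻¹ = γ at e3 ⊢
    generalize lapl_dl F a b i = u
    generalize lapl_dl F a b j = u'
    generalize lapl_dl F a c i = v
    generalize lapl_dl F a c j = v'
    have k1 : (p a + p b) * (p a + p c) * γ * (α * α) = α + γ := by
      linear_combination ((p a + p c) * γ * α + γ) * e1 + α * e3 - (γ * α * p b + γ) * h2 + γ * h2
    have k2 : (p a + p b) * (p a + p c) * γ * (α * β) = γ := by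
      linear_combination ((p a + p c) * β * γ) * e1 + γ * e2
    have k3 : (p a + p b) * (p a + p c) * γ * (β * β) = β + γ := by
      linear_combination ((p a + p b) * γ * β + γ) * e2 + β * e3 - (γ * β * p c + γ) * h2 + γ * h2
    linear_combination (-(u * u')) * k1 - (u * v' + v * u') * k2 - (v * v') * k3
  · rw [lapl_tv]
    simp only [Pi.add_apply, Pi.smul_apply, smul_eq_mul, CharTwo.add_sq, mul_pow, mul_add (p _),
      mul_left_comm (p _) (_⁻¹ ^ 2), Finset.sum_add_distrib, ← Finset.mul_sum, lapl_dl_sq]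
    generalize (p a + p b)⁻¹ = α at e1 ⊢
    generalize (p a + p c)⁻¹ = β at e2 ⊢
    generalize (p b + p c)⁻¹ = γ at e3 ⊢
    linear_combination ((p a + p c) * γ * ((p a + p b) * α + 1)) * e1
      + ((p a + p b) * γ * ((p a + p c) * β + 1)) * e2 + e3 + (p a * γ) * h2

theorem rk_add_tri_of_not_mem (X : Gr V) {p : V → F} {a b c : V} (hab : p a ≠ p b)
    (hac : p a ≠ p c) (hbc : p b ≠ p c) (h : tv p a b c ∉ Rg X p) :
    rk (X + tri a b c) p = rk X p + 1 := by
  obtain ⟨κ, h0, h1, -⟩ := Lap_tri hab hac hbc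
  unfold rk
  rw [Lap_add, h1]
  exact rank_add_vec_of_not_mem (Lap_symm X p) h h0

theorem rk_add_tri_of_mem (X : Gr V) {p : V → F} {a b c : V} (hab : p a ≠ p b)
    (hac : p a ≠ p c) (hbc : p b ≠ p c) (h : tv p a b c ∈ Rg X p) :
    rk (X + tri a b c) p + 1 = rk X p := by
  obtain ⟨κ, -, h1, h2⟩ := Lap_tri hab hac hbc
  exact lapl_rank_vec X p (by rw [Lap_add, h1]) h2 h

theorem Rg_add_tri_le (X : Gr V) {p : V → F} {a b c : V} (hab : p a ≠ p b)
    (hac : p a ≠ p c) (hbc : p b ≠ p c) :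
    Rg (X + tri a b c) p ≤ Rg X p ⊔ Submodule.span F {tv p a b c} := by
  obtain ⟨κ, -, h1, -⟩ := Lap_tri hab hac hbc
  rintro _ ⟨x, rfl⟩
  rw [mulVecLin_apply, Lap_add, h1, add_mulVec, lapl_vmv]
  exact Submodule.add_mem_sup ⟨x, rfl⟩
    (Submodule.smul_mem _ _ (Submodule.mem_span_singleton_self _))

/-- A summand of a sum with additive ranks. -/
theorem Rg_le_of_tight {X Y : Gr V} {p : V → F} (h : rk (X + Y) p + rk Y p ≤ rk X p) :
    Rg Y p ≤ Rg X p := by
  have e : Lap (X + Y) p + Lap Y p = Lap X p := by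
    rw [← Lap_add, add_assoc, Gr.add_self, add_zero]
  have h1 := cs_le_of_tight (M := Lap (X + Y) p) (M' := Lap Y p) (by rw [e]; exact h)
  rw [e] at h1
  exact h1

/-- A free splitting produces an even set. -/
theorem even_of_sv_mem {X : Gr V} {p : V → F} (hE : X.Eul) (hp : Proper X p) {y : V}
    {Z : V → ZMod 2} (hZ : ∀ x, Z x = 1 → p x ≠ p y) (h : sv p y Z ∈ Rg X p) : ∑ x, Z x = 0 := by
  have h1 := (Rg_le_RS hE (S := univ) (fun a _ _ => mem_univ a) hp h).2.2
  rw [lapl_sum_p_sv hZ] at h1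
  exact lapl_cz_eq_zero h1

theorem lapl_par_mod {X : Gr V} {Y : Gr V'} {p : V → F} {q : V' → F} (hp : Proper X p)
    (hq : Proper Y q) (h : X.par = Y.par) : rk X p % 2 = rk Y q % 2 := by
  rw [← ZMod.natCast_eq_natCast_iff', rk_par hp, rk_par hq, h]

theorem lapl_proper_push {φ : V → V'} {X : Gr V} {p : V' → F} (hp : Proper X (p ∘ φ)) :
    Proper (X.push φ) p := by
  intro y y' h
  obtain ⟨a, b, rfl, rfl, hab⟩ := exists_of_push_adj h
  exact hp a b hab

theorem lapl_push_mod {φ : V → V'} {X : Gr V} {p : V' → F} (hp : Proper X (p ∘ φ)) :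
    rk (X.push φ) p % 2 = rk X (p ∘ φ) % 2 :=
  lapl_par_mod (lapl_proper_push hp) hp
    (par_push fun a b hab e => hp a b hab (congrArg p e))

/-- If a column of the Laplacian of `X` is mapped outside the column space of the image then the
rank of the image is smaller by two. -/
theorem rk_push_add_two {φ : V → V'} {X : Gr V} {p : V' → F} (hp : Proper X (p ∘ φ)) {x : V}
    (h : sv p (φ x) (pushZ φ (X.adj x)) ∉ Rg (X.push φ) p) :
    rk (X.push φ) p + 2 ≤ rk X (p ∘ φ) := by
  have h1 := lapl_push_mod hp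
  have h2 : ¬ rk X (p ∘ φ) ≤ rk (X.push φ) p := by
    intro e
    unfold rk at e
    rw [Lap_push] at e
    have := tight_mem e (Pi.single x 1)
    rw [Lap_single, pm_sv, ← Lap_push] at this
    exact h this
  omega

/-- If a nonzero vector of the column space is killed by the map then the rank of the image is
smaller by two. -/
theorem rk_push_add_two' {φ : V → V'} {X : Gr V} {p : V' → F} (hp : Proper X (p ∘ φ))
    {v : V → F} (hv : v ∈ Rg X (p ∘ φ)) (h0 : v ≠ 0) (h : pm F φ *ᵥ v = 0) :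
    rk (X.push φ) p + 2 ≤ rk X (p ∘ φ) := by
  have h1 := lapl_push_mod hp
  have h2 : ¬ rk X (p ∘ φ) ≤ rk (X.push φ) p := by
    intro e
    unfold rk at e
    rw [Lap_push] at e
    obtain ⟨y, rfl⟩ := hv
    exact h0 (tight_inj e h)
  omega

theorem lapl_ite_one {c : Prop} [Decidable c] {x : ZMod 2} (h : (if c then x else 0) = 1) :
    c ∧ x = 1 := by
  split_ifs at h with hc
  · exact ⟨hc, h⟩
  · exact absurd h zero_ne_one

theorem proper_split {X : Gr V} {p : V → F} (hp : Proper X p) {y y2 : V} {Z : V → ZMod 2}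
    (h2 : X.Iso y2) (hy : y2 ≠ y) (hZ2 : Z y2 = 0) (hZ : ∀ x, Z x = 1 → p x ≠ p y) :
    Proper (X.split y y2 Z) (update p y2 (p y)) := by
  have k1 : ∀ x, Z x = 1 → update p y2 (p y) x ≠ p y := by
    intro x hx
    have : x ≠ y2 := fun e => by
      rw [e, hZ2] at hx
      exact zero_ne_one hx
    rw [update_of_ne this]
    exact hZ x hx
  have k2 : update p y2 (p y) y = p y := update_of_ne hy.symm _ _
  have k3 : update p y2 (p y) y2 = p y := update_self _ _ _
  intro a b hab
  rw [split_adj] at hab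
  rcases z2_add_eq_one hab with h | h
  · rcases z2_add_eq_one h with h | h
    · have ha : a ≠ y2 := fun e => by
        rw [e, h2] at h
        exact zero_ne_one h
      have hb : b ≠ y2 := fun e => by
        rw [e, X.symm, h2] at h
        exact zero_ne_one h
      rw [update_of_ne ha, update_of_ne hb]
      exact hp a b h
    · rcases z2_add_eq_one h with h | h
      · rw [(lapl_ite_one h).1, k2]
        exact (k1 b (lapl_ite_one h).2).symm
      · rw [(lapl_ite_one h).1, k2]
        exact k1 a (lapl_ite_one h).2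
  · rcases z2_add_eq_one h with h | h
    · rw [(lapl_ite_one h).1, k3]
      exact (k1 b (lapl_ite_one h).2).symm
    · rw [(lapl_ite_one h).1, k3]
      exact k1 a (lapl_ite_one h).2

theorem lapl_comp_update (p : V → F) (y y2 : V) : p ∘ update id y2 y = update p y2 (p y) := by
  funext v
  by_cases h : v = y2
  · simp [h]
  · simp [h]

theorem lapl_split_push {X : Gr V} {p : V → F} {y y2 : V} {Z : V → ZMod 2}
    (h2 : X.Iso y2) (hy : y2 ≠ y) (hZ2 : Z y2 = 0) (hZ : ∀ x, Z x = 1 → p x ≠ p y) :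
    (X.split y y2 Z).push (update id y2 y) = X := by
  rw [← ctr_eq_push]
  exact split_ctr h2 hy (z2_ne_one.1 fun e => hZ y e rfl) hZ2

theorem lapl_split_row {X : Gr V} {y y2 : V} {Z : V → ZMod 2}
    (h2 : X.Iso y2) (hy : y2 ≠ y) (hZ2 : Z y2 = 0) :
    pushZ (update id y2 y) ((X.split y y2 Z).adj y2) = Z := by
  have h1 : ∀ b, (X.split y y2 Z).adj y2 b = Z b := by
    intro b
    simp [split_adj, h2 b, hy, hZ2]
  funext v
  have h3 : ∀ a, (if update id y2 y a = v then Z a else 0) = if a = v then Z a else 0 := by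
    intro a
    by_cases h : a = y2
    · simp [h, hZ2]
    · simp [h]
  simp only [pushZ, h1, h3, Finset.sum_ite_eq', Finset.mem_univ, if_true]

theorem rk_split_of_not_mem {X : Gr V} {p : V → F} (hp : Proper X p) {y y2 : V} {Z : V → ZMod 2}
    (h2 : X.Iso y2) (hy : y2 ≠ y) (hZ2 : Z y2 = 0) (hZ : ∀ x, Z x = 1 → p x ≠ p y)
    (h : sv p y Z ∉ Rg X p) : rk X p + 2 ≤ rk (X.split y y2 Z) (update p y2 (p y)) := by
  have h1 := proper_split hp h2 hy hZ2 hZ
  rw [← lapl_comp_update] at h1 ⊢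
  have h3 := rk_push_add_two h1 (x := y2) (by
    rw [lapl_split_row h2 hy hZ2, lapl_split_push h2 hy hZ2 hZ, update_self]
    exact h)
  rw [lapl_split_push h2 hy hZ2 hZ] at h3
  exact h3

theorem rk_split_of_mem {X : Gr V} {p : V → F} (hp : Proper X p) {y y2 : V} {Z : V → ZMod 2}
    (h2 : X.Iso y2) (hy : y2 ≠ y) (hZ2 : Z y2 = 0) (hZ : ∀ x, Z x = 1 → p x ≠ p y)
    (h : sv p y Z ∈ Rg X p) : rk (X.split y y2 Z) (update p y2 (p y)) = rk X p := by
  have h1 := proper_split hp h2 hy hZ2 hZ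
  rw [← lapl_comp_update] at h1 ⊢
  have h3 := lapl_push_mod h1
  have h4 := rk_push_le (update id y2 y) (X.split y y2 Z) p
  have h5 : rk (X.split y y2 Z) (p ∘ update id y2 y)
      ≤ rk ((X.split y y2 Z).push (update id y2 y)) p + 1 := by
    unfold rk
    rw [Lap_push]
    refine rank_le_succ (Lap_symm _ _) (y := Pi.single y2 1) (fun x => ⟨x, x y2 - x y, ?_⟩) ?_
    · rw [lapl_pmT_mulVec]
      funext v
      by_cases hv : v = y2
      · simp [hv]
      · simp [hv]
    · rw [Lap_single, pm_sv, ← Lap_push, lapl_split_row h2 hy hZ2, lapl_split_push h2 hy hZ2 hZ,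
        update_self]
      exact h
  rw [lapl_split_push h2 hy hZ2 hZ] at h3 h4 h5
  omega

theorem lapl_ind_add {X : Gr V} {C : Finset V} (hC : ∀ a ∈ C, ∀ b, X.adj a b = 1 → b ∈ C) :
    X.ind C + X.ind Cᶜ = X := by
  ext a b
  rw [add_adj, ind_adj, ind_adj]
  by_cases ha : a ∈ C <;> by_cases hb : b ∈ C
  · simp [ha, hb]
  · have : X.adj a b = 0 := z2_ne_one.1 fun e => hb (hC a ha b e)
    simp [this]
  · have : X.adj a b = 0 := z2_ne_one.1 fun e => ha (hC b hb a (by rw [X.symm]; exact e))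
    simp [this]
  · simp [ha, hb]

theorem lapl_ind_iso (X : Gr V) {C : Finset V} {u : V} (hu : u ∉ C) : (X.ind C).Iso u :=
  fun x => by rw [ind_adj, if_neg fun h => hu h.1]

/-- Additivity over a closed set and its complement. -/
theorem rk_ind_add {X : Gr V} {C : Finset V} (hC : ∀ a ∈ C, ∀ b, X.adj a b = 1 → b ∈ C)
    (p : V → F) : rk X p = rk (X.ind C) p + rk (X.ind Cᶜ) p := by
  have h := rank_add_of_disjoint (Lap_symm (X.ind C) p) (Lap_symm (X.ind Cᶜ) p) (by
    rw [Submodule.disjoint_def]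
    intro v h1 h2
    funext u
    by_cases hu : u ∈ C
    · exact apply_eq_zero_of_iso (lapl_ind_iso X (by simpa using hu)) h2
    · exact apply_eq_zero_of_iso (lapl_ind_iso X hu) h1)
  rw [← Lap_add, lapl_ind_add hC] at h
  exact h

theorem Rg_ind_le {X : Gr V} {C : Finset V} (hC : ∀ a ∈ C, ∀ b, X.adj a b = 1 → b ∈ C)
    (p : V → F) : Rg (X.ind C) p ≤ Rg X p := by
  refine Rg_le_of_tight ?_
  have e : X + X.ind C = X.ind Cᶜ := by
    have := congrArg (· + X.ind C) (lapl_ind_add hC)
    rw [← this, add_right_comm, Gr.add_self, zero_add]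
  rw [e, rk_ind_add hC p, add_comm]

/-- Additivity over the classes of a labelling that is constant along edges. -/
theorem rk_eq_sum {β : Type} [DecidableEq β] {X : Gr V} (cp : V → β)
    (h : ∀ a b, X.adj a b = 1 → cp a = cp b) (p : V → F) :
    rk X p = ∑ c ∈ univ.image cp, rk (X.ind (univ.filter fun a => cp a = c)) p := by
  have key : ∀ T : Finset β, rk (X.ind (univ.filter fun a => cp a ∈ T)) p =
      ∑ c ∈ T, rk (X.ind (univ.filter fun a => cp a = c)) p := by
    intro T
    induction T using Finset.induction_on with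
    | empty =>
      have : X.ind (univ.filter fun a => cp a ∈ (∅ : Finset β)) = 0 := by
        ext a b
        simp [ind_adj]
      rw [this, rk_zero, Finset.sum_empty]
    | insert c T hc ih =>
      rw [Finset.sum_insert hc, ← ih, rk_ind_add (C := univ.filter fun a => cp a = c)]
      · have e1 : (X.ind (univ.filter fun a => cp a ∈ insert c T)).ind
            (univ.filter fun a => cp a = c) = X.ind (univ.filter fun a => cp a = c) := by
          ext a b
          simp only [ind_adj, mem_filter, mem_univ, true_and, mem_insert]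
          by_cases h1 : cp a = c ∧ cp b = c
          · rw [if_pos h1, if_pos h1, if_pos ⟨Or.inl h1.1, Or.inl h1.2⟩]
          · rw [if_neg h1, if_neg h1]
        have e2 : (X.ind (univ.filter fun a => cp a ∈ insert c T)).ind
            (univ.filter fun a => cp a = c)ᶜ = X.ind (univ.filter fun a => cp a ∈ T) := by
          ext a b
          simp only [ind_adj, mem_filter, mem_univ, true_and, mem_insert, mem_compl]
          by_cases h1 : cp a ∈ T ∧ cp b ∈ T
          · rw [if_pos h1, if_pos ⟨fun e => hc (e ▸ h1.1), fun e => hc (e ▸ h1.2)⟩,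
              if_pos ⟨Or.inr h1.1, Or.inr h1.2⟩]
          · rw [if_neg h1]
            split_ifs with h2 h3
            · exact absurd ⟨h3.1.resolve_left h2.1, h3.2.resolve_left h2.2⟩ h1
            · rfl
            · rfl
        rw [e1, e2]
      · intro a ha b hab
        rw [ind_adj] at hab
        rw [mem_filter] at ha ⊢
        exact ⟨mem_univ _, (h a b (lapl_ite_one hab).2).symm.trans ha.2⟩
  rw [← key]
  have : X.ind (univ.filter fun a => cp a ∈ univ.image cp) = X := by
    ext a b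
    simp [ind_adj]
  rw [this]

/-- A cut vertex gives a free splitting. -/
theorem sv_mem_of_cut {X : Gr V} (p : V → F) {S : Finset V} {z : V} (hz : z ∉ S)
    (h : ∀ a ∈ S, ∀ b, X.adj a b = 1 → b ∈ S ∨ b = z) :
    sv p z (fun x => if x ∈ S then X.adj z x else 0) ∈ Rg X p := by
  refine ⟨fun x => if x ∈ S then 1 else 0, ?_⟩
  funext a
  rw [mulVecLin_apply, Lap_mulVec, lapl_sv_apply]
  by_cases ha : a ∈ S
  · have haz : a ≠ z := fun e => hz (e ▸ ha)
    rw [if_neg haz, add_zero, Finset.sum_eq_single z]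
    · simp [ha, hz, X.symm a z]
    · intro b _ hb
      rcases z2 (X.adj a b) with e | e
      · simp [e]
      · rw [if_pos ha, if_pos ((h a ha b e).resolve_right hb), CharTwo.add_self_eq_zero, mul_zero]
    · simp
  by_cases haz : a = z
  · subst haz
    rw [if_pos rfl, if_neg ha, if_neg ha, map_zero, zero_mul, zero_add]
    refine Finset.sum_congr rfl fun b _ => ?_
    by_cases hb : b ∈ S
    · simp [hb, add_comm]
    · simp [hb]
  · rw [if_neg haz, if_neg ha, if_neg ha, map_zero, zero_mul, zero_add]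
    refine Finset.sum_eq_zero fun b _ => ?_
    by_cases hb : b ∈ S
    · have : X.adj a b = 0 := z2_ne_one.1 fun e =>
        (h b hb a (by rw [X.symm]; exact e)).elim ha haz
      simp [this]
    · simp [hb]

/-- A separation of order two gives a free splitting. -/
theorem sv_mem_of_sep {X : Gr V} {p : V → F} (hE : X.Eul) (hp : Proper X p) {S : Finset V}
    {u z : V} (hu : u ∉ S) (hz : z ∉ S) (huz : p u ≠ p z)
    (h : ∀ a ∈ S, ∀ b, X.adj a b = 1 → b ∈ S ∨ b = u ∨ b = z) :
    sv p u (fun x => if x ∈ S then X.adj u x else if x = z then ∑ s ∈ S, X.adj u s else 0)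
      ∈ Rg X p := by
  have h2 : (2 : F) = 0 := lapl_two
  have e0 := mul_inv_cancel₀ (lapl_ne huz)
  let x : V → F := fun v => if v ∈ S then (p v + p z) * (p u + p z)⁻¹ else 0
  have hx : Lap X p *ᵥ x ∈ Rg X p := ⟨x, rfl⟩
  have k1 : Lap X p *ᵥ x ∈ RS p univ := Rg_le_RS hE (fun a _ _ => mem_univ a) hp hx
  have k2 : sv p u (fun x => if x ∈ S then X.adj u x else if x = z then ∑ s ∈ S, X.adj u s else 0)
      ∈ RS p univ := by
    refine lapl_sv_mem_RS (mem_univ _) (fun _ _ => mem_univ _) (fun v hv => ?_) ?_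
    · by_cases h1 : v ∈ S
      · rw [if_pos h1] at hv
        exact (hp u v hv).symm
      · rw [if_neg h1] at hv
        rw [(lapl_ite_one hv).1]
        exact huz.symm
    · have : ∀ v, (if v ∈ S then X.adj u v else if v = z then ∑ s ∈ S, X.adj u s else 0) =
          (if v ∈ S then X.adj u v else 0) + if v = z then ∑ s ∈ S, X.adj u s else 0 := by
        intro v
        by_cases h1 : v ∈ S
        · rw [if_pos h1, if_pos h1, if_neg fun e : v = z => hz (e ▸ h1), add_zero]
        · rw [if_neg h1, if_neg h1, zero_add]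
      simp only [this, Finset.sum_add_distrib, Finset.sum_ite_eq', Finset.mem_univ, if_true,
        Finset.sum_ite_mem, Finset.univ_inter, z2_add_self]
  have k3 := lapl_RS_two huz (Submodule.sub_mem _ k2 k1) fun a hau haz => by
    rw [Pi.sub_apply, sub_eq_zero, Lap_mulVec, lapl_sv_apply, if_neg hau, add_zero]
    by_cases ha : a ∈ S
    · have k4 : ∀ b, cz F (X.adj a b) * (p a + p b)⁻¹ * (x a + x b) =
          cz F (X.adj a b) * (p u + p z)⁻¹
            + if b = u then cz F (X.adj a u) * (p a + p u)⁻¹ else 0 := by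
        intro b
        rcases z2 (X.adj a b) with e | e
        · by_cases hb : b = u
          · rw [hb] at e
            simp [hb, e]
          · simp [hb, e]
        have e1 := mul_inv_cancel₀ (lapl_ne (hp a b e))
        rcases h a ha b e with hb | hb | hb
        · rw [if_neg fun e : b = u => hu (e ▸ hb), e, map_one]
          simp only [x, if_pos ha, if_pos hb]
          linear_combination (p u + p z)⁻¹ * e1 + (p a + p b)⁻¹ * (p u + p z)⁻¹ * p z * h2
        · subst hb
          rw [if_pos rfl, e, map_one]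
          simp only [x, if_pos ha, if_neg hu]
          linear_combination (p b + p z)⁻¹ * e1 + (p a + p b)⁻¹ * e0
            - (p a + p b)⁻¹ * (p b + p z)⁻¹ * p b * h2
        · subst hb
          rw [if_neg fun e : b = u => huz (by rw [e]), e, map_one]
          simp only [x, if_pos ha, if_neg hz]
          linear_combination (p u + p b)⁻¹ * e1
      simp only [k4, Finset.sum_add_distrib, Finset.sum_ite_eq', Finset.mem_univ, if_true,
        ← Finset.sum_mul, ← map_sum, hE a, map_zero, zero_mul, zero_add, if_pos ha, X.symm u a]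
    · rw [if_neg ha, if_neg haz, map_zero, zero_mul]
      refine (Finset.sum_eq_zero fun b _ => ?_).symm
      by_cases hb : b ∈ S
      · have : X.adj a b = 0 := z2_ne_one.1 fun e =>
          (h b hb a (by rw [X.symm]; exact e)).elim ha fun e => e.elim hau haz
        simp [this]
      · simp [x, ha, hb]
  rw [sub_eq_zero.1 k3]
  exact hx

/-- The diagonal entry vanishes at few values. -/
theorem card_diag_zero (p : V → F) (a : V → F) {x0 : V} (h0 : a x0 ≠ 0)
    (h : ∀ x, x ≠ x0 → a x ≠ 0 → p x ≠ p x0) :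
    ∃ B : Finset F, B.card ≤ 2 * Fintype.card V ∧ ∀ t, t ∉ B → ∑ x, a x * (p x + t)⁻¹ ≠ 0 := by
  classical
  let A : Finset V := univ.filter fun x => a x ≠ 0
  have hA : ∀ x, x ∈ A ↔ a x ≠ 0 := by simp [A]
  let N : Polynomial F :=
    ∑ x ∈ A, Polynomial.C (a x) * ∏ y ∈ A.erase x, (Polynomial.X + Polynomial.C (p y))
  have hN : ∀ t, N.eval t = ∑ x ∈ A, a x * ∏ y ∈ A.erase x, (p y + t) := by
    intro t
    simp [N, Polynomial.eval_finsetSum, Polynomial.eval_prod, add_comm t]
  have hN0 : N ≠ 0 := by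
    intro e
    have h1 := hN (p x0)
    rw [e, Polynomial.eval_zero, Finset.sum_eq_single_of_mem x0 ((hA x0).2 h0) fun x _ hx => by
      rw [Finset.prod_eq_zero (mem_erase.2 ⟨hx.symm, (hA x0).2 h0⟩) (CharTwo.add_self_eq_zero _),
        mul_zero]] at h1
    refine mul_ne_zero h0 (Finset.prod_ne_zero_iff.2 fun y hy => ?_) h1.symm
    exact lapl_ne (h y (mem_erase.1 hy).1 ((hA y).1 (mem_erase.1 hy).2))
  have hdeg : N.natDegree ≤ Fintype.card V := by
    refine Polynomial.natDegree_sum_le_of_forall_le _ _ fun x _ => ?_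
    refine (Polynomial.natDegree_C_mul_le _ _).trans ((Polynomial.natDegree_prod_le _ _).trans ?_)
    simp only [Polynomial.natDegree_X_add_C, Finset.sum_const, smul_eq_mul, mul_one]
    exact Finset.card_le_univ _
  refine ⟨N.roots.toFinset ∪ univ.image p, ?_, fun t ht e => ?_⟩
  · have h1 := Multiset.toFinset_card_le N.roots
    have h2 := Polynomial.card_roots' N
    have h3 : (univ.image p).card ≤ Fintype.card V := Finset.card_image_le
    have h4 := Finset.card_union_le N.roots.toFinset (univ.image p)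
    omega
  · rw [mem_union, not_or] at ht
    apply ht.1
    rw [Multiset.mem_toFinset, Polynomial.mem_roots hN0, Polynomial.IsRoot.def, hN]
    have h1 : ∑ x ∈ A, a x * (p x + t)⁻¹ = 0 := by
      rw [← e]
      exact Finset.sum_subset (subset_univ _) fun x _ hx => by
        rw [not_not.1 fun e => hx ((hA x).2 e), zero_mul]
    have h2 : ∑ x ∈ A, a x * ∏ y ∈ A.erase x, (p y + t) =
        (∑ x ∈ A, a x * (p x + t)⁻¹) * ∏ y ∈ A, (p y + t) := by
      rw [Finset.sum_mul]
      refine Finset.sum_congr rfl fun x hx => ?_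
      have h3 : p x + t ≠ 0 := lapl_ne fun e => ht.2 (mem_image.2 ⟨x, mem_univ _, e⟩)
      rw [← Finset.mul_prod_erase A _ hx, mul_assoc, inv_mul_cancel_left₀ h3]
    rw [h2, h1, zero_mul]

end Pool.Agent.MP_bae0ed_lc.H52
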