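import Pool.Agent.MP_bae0ed_lc.H52.Prim
import Pool.Agent.MP_bae0ed_lc.H52.Lapl

/-!
The meaning of the list operations.
-/

set_option autoImplicit false
set_option linter.unusedSectionVars false

namespace Pool.Agent.MP_bae0ed_lc.H52

open Finset Matrix Function Module Gr Pool.Agent.MP_0c5eb8_lc

theorem pick_spec {α : Type} {l : List α} {p : α → Bool} (d : α) (h : ∃ x ∈ l, p x = true) :
    pick l p d ∈ l ∧ p (pick l p d) = true := by
  exact H36.headD_filter d h

theorem pick_mem_or {α : Type} (l : List α) (p : α → Bool) (d : α) :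
    pick l p d ∈ l ∨ pick l p d = d := by
  by_cases h : ∃ x ∈ l, p x = true
  · exact Or.inl (pick_spec d h).1
  · exact Or.inr (H36.headD_filter_none d h)

theorem mem_rg {w : Un} {a : ℕ} : a ∈ rg w ↔ a < w.length := by simp [rg]

@[simp] theorem length_rg (w : Un) : (rg w).length = w.length := by simp [rg]

theorem mem_pairs {w : Un} {q : ℕ × ℕ} : q ∈ pairs w ↔ q.1 < w.length ∧ q.2 < w.length := by
  obtain ⟨a, b⟩ := q
  simp [pairs, mem_rg]

theorem mem_triples {w : Un} {q : ℕ × ℕ × ℕ} :
    q ∈ triples w ↔ q.1 < w.length ∧ q.2.1 < w.length ∧ q.2.2 < w.length := by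
  obtain ⟨a, b⟩ := q
  simp [triples, mem_rg, ← mem_pairs]

theorem mem_quads {w : Un} {q : ℕ × ℕ × ℕ × ℕ} :
    q ∈ quads w ↔ q.1 < w.length ∧ q.2.1 < w.length ∧ q.2.2.1 < w.length ∧ q.2.2.2 < w.length := by
  obtain ⟨a, b⟩ := q
  simp [quads, mem_rg, ← mem_triples]

theorem length_pairs (w : Un) : (pairs w).length = w.length ^ 2 := by
  simp [pairs, List.length_flatMap, sq]

theorem length_triples (w : Un) : (triples w).length = w.length ^ 3 := by
  simp [triples, List.length_flatMap, length_pairs, pow_succ']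

theorem length_quads (w : Un) : (quads w).length = w.length ^ 4 := by
  simp [quads, List.length_flatMap, length_triples, pow_succ']

theorem any_pairs {w : Un} {p : ℕ × ℕ → Bool} :
    (pairs w).any p = true ↔ ∃ u v : Fin w.length, p (u, v) = true := by
  rw [List.any_eq_true]
  constructor
  · rintro ⟨⟨a, b⟩, h, hp⟩
    rw [mem_pairs] at h
    exact ⟨⟨a, h.1⟩, ⟨b, h.2⟩, hp⟩
  · rintro ⟨u, v, h⟩
    exact ⟨_, mem_pairs.2 ⟨u.2, v.2⟩, h⟩

theorem pick_pairs {w : Un} {p : ℕ × ℕ → Bool} (d : ℕ × ℕ)
    (h : ∃ u v : Fin w.length, p (u, v) = true) :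
    ∃ u v : Fin w.length, pick (pairs w) p d = ((u : ℕ), (v : ℕ)) ∧ p (u, v) = true := by
  obtain ⟨h1, h2⟩ := pick_spec d (List.any_eq_true.1 (any_pairs.2 h))
  rw [mem_pairs] at h1
  exact ⟨⟨_, h1.1⟩, ⟨_, h1.2⟩, rfl, h2⟩

theorem all_rg {w : Un} {p : ℕ → Bool} : (rg w).all p = true ↔ ∀ u : Fin w.length, p u = true := by
  rw [List.all_eq_true]
  exact ⟨fun h u => h _ (mem_rg.2 u.2), fun h a ha => h ⟨a, mem_rg.1 ha⟩⟩

theorem any_rg {w : Un} {p : ℕ → Bool} : (rg w).any p = true ↔ ∃ u : Fin w.length, p u = true := by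
  rw [List.any_eq_true]
  exact ⟨fun ⟨a, ha, h⟩ => ⟨⟨a, mem_rg.1 ha⟩, h⟩, fun ⟨u, h⟩ => ⟨_, mem_rg.2 u.2, h⟩⟩

@[simp] theorem b2z_true : b2z true = 1 := rfl
@[simp] theorem b2z_false : b2z false = 0 := rfl

theorem b2z_eq_one {b : Bool} : b2z b = 1 ↔ b = true := by cases b <;> simp

theorem b2z_eq_zero {b : Bool} : b2z b = 0 ↔ b = false := by cases b <;> simp

theorem b2z_xor (a b : Bool) : b2z (xor a b) = b2z a + b2z b := by
  cases a <;> cases b <;> simp [z2_add_self]

theorem b2z_val (b : Bool) : (b2z b).val = b.toNat := by cases b <;> rfl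

theorem gr_adj (n : ℕ) (T : Tab) (a b : Fin n) : (gr n T).adj a b = b2z (ad T a b) := rfl

theorem ad_iff {n : ℕ} {T : Tab} {a b : Fin n} : ad T a b = true ↔ (gr n T).adj a b = 1 :=
  b2z_eq_one.symm

theorem ad_false_iff {n : ℕ} {T : Tab} {a b : Fin n} : ad T a b = false ↔ (gr n T).adj a b = 0 :=
  b2z_eq_zero.symm

theorem bridge_getD {α : Type} (w : Un) (f : ℕ → α) (a : Fin w.length) (d : α) :
    ((rg w).map f).getD a d = f a := by
  simp [rg, List.getD_eq_getElem?_getD]

theorem bridge_all_pairs {w : Un} {p : ℕ × ℕ → Bool} :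
    (pairs w).all p = true ↔ ∀ u v : Fin w.length, p (u, v) = true := by
  rw [List.all_eq_true]
  exact ⟨fun h u v => h _ (mem_pairs.2 ⟨u.2, v.2⟩),
    fun h q hq => h ⟨_, (mem_pairs.1 hq).1⟩ ⟨_, (mem_pairs.1 hq).2⟩⟩

theorem bridge_b2z_and (a b : Bool) : b2z (a && b) = if a = true then b2z b else 0 := by
  cases a <;> simp

theorem bt_sett (w : Un) (f : ℕ → Bool) (a : Fin w.length) : bt (sett w f) a = f a := by
  exact bridge_getD w f a _

theorem mem_st {n : ℕ} {C : St} {a : Fin n} : a ∈ st n C ↔ bt C a = true := by simp [st]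

theorem gm_map (w : Un) (f : ℕ → ℕ) (a : Fin w.length) : gm ((rg w).map f) a = f a := by
  exact bridge_getD w f a _

theorem gv_map (w : Un) (f : ℕ → Fe) (a : Fin w.length) : gv ((rg w).map f) a = f a := by
  exact bridge_getD w f a _

theorem gr_tab {w : Un} {f : ℕ → ℕ → Bool} {Y : Gr (Fin w.length)}
    (h : ∀ a b : Fin w.length, a < b → Y.adj a b = b2z (f a b)) : gr w.length (tab w f) = Y := by
  have key : ∀ a b : Fin w.length, a < b → (gr w.length (tab w f)).adj a b = Y.adj a b := by
    intro a b hab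
    rw [h a b hab, gr_adj, ad, if_pos (show (a : ℕ) < b from hab), tab, bridge_getD, bt,
      bridge_getD]
  ext a b
  rcases lt_trichotomy a b with hab | rfl | hab
  · exact key a b hab
  · rw [Gr.irr, Gr.irr]
  · rw [Gr.symm, Y.symm, key b a hab]

theorem zv_rowG (w : Un) (X : Tab) (u : Fin w.length) :
    zv w.length (rowG w X u) = (gr w.length X).adj u := by
  funext a
  rw [zv, rowG, bt_sett, gr_adj]

theorem gr_addG (w : Un) (X Y : Tab) :
    gr w.length (addG w X Y) = gr w.length X + gr w.length Y := by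
  exact gr_tab fun a b _ => by rw [b2z_xor]; rfl

theorem gr_addTri (w : Un) (X : Tab) (a b c : Fin w.length) :
    gr w.length (addTri w X a b c) = gr w.length X + tri a b c := by
  refine gr_tab fun x y _ => ?_
  simp only [b2z_xor, edgeB, bridge_b2z_and, add_adj, tri, edge_adj, gr_adj, decide_eq_true_eq,
    Fin.val_inj, ite_and]
  simp only [b2z, decide_eq_true_eq]

theorem gr_splitG (w : Un) (X : Tab) (y y2 : Fin w.length) (Z : St) :
    gr w.length (splitG w X y y2 Z) = (gr w.length X).split y y2 (zv w.length Z) := by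
  refine gr_tab fun a b _ => ?_
  simp only [b2z_xor, bridge_b2z_and, split_adj, gr_adj, decide_eq_true_eq, Fin.val_inj, zv]

theorem gr_ctrG (w : Un) (X : Tab) (u v : Fin w.length) :
    gr w.length (ctrG w X u v) = (gr w.length X).ctr u v := by
  rw [ctrG, gr_splitG, zv_rowG, ctr]

theorem gr_indG (w : Un) (X : Tab) (C : St) :
    gr w.length (indG w X C) = (gr w.length X).ind (st w.length C) := by
  refine gr_tab fun a b _ => ?_
  simp only [bridge_b2z_and, ind_adj, gr_adj, mem_st, Bool.and_eq_true]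

theorem bridge_sum {M : Type} [AddCommMonoid M] (w : Un) (f : ℕ → M) :
    ((rg w).map f).sum = ∑ a : Fin w.length, f a := by
  rw [rg, Fin.sum_univ_eq_sum_range]
  rfl

theorem bridge_par (k : ℕ) : b2z (decide (k % 2 = 1)) = (k : ZMod 2) := by
  rw [← ZMod.natCast_mod k 2]
  rcases Nat.mod_two_eq_zero_or_one k with h | h <;> simp [h]

theorem bridge_count {α : Type} (l : List α) (p : α → Bool) :
    ((l.filter p).length : ZMod 2) = (l.map fun x => b2z (p x)).sum := by
  induction l with
  | nil => simp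
  | cons x l ih => cases h : p x <;> simp [h, ih, add_comm]

theorem gr_pushG {w w' : Un} {φ : List ℕ} {ψ : Fin w.length → Fin w'.length} (h : Rep φ ψ)
    (X : Tab) : gr w'.length (pushG w w' φ X) = (gr w.length X).push ψ := by
  refine gr_tab fun y y' _ => ?_
  rw [bridge_par, push_adj, bridge_count, pairs, List.map_flatMap, List.flatMap_def,
    List.sum_flatten, List.map_map, bridge_sum]
  refine sum_congr rfl fun a _ => ?_
  rw [Function.comp, List.map_map, bridge_sum]
  refine sum_congr rfl fun b _ => ?_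
  simp only [Function.comp, bridge_b2z_and, h a, h b, gr_adj, Bool.and_eq_true, decide_eq_true_eq,
    Fin.val_inj]

theorem gr_fullG (w : Un) (a b : Fin w.length) :
    (gr w.length (fullG w)).adj a b = if a = b then 0 else 1 := by
  rw [fullG, gr_tab (Y := ⟨fun a b => if a = b then 0 else 1, fun a b => by simp only [eq_comm],
    fun a => by simp⟩) fun a b h => by simp [h.ne]]

theorem isoG_iff {w : Un} {X : Tab} {u : Fin w.length} :
    isoG w X u = true ↔ (gr w.length X).Iso u := by
  simp only [isoG, all_rg, Iso, ← ad_false_iff, Bool.not_eq_true']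

theorem bridge_filter (w : Un) (p : ℕ → Bool) :
    ((rg w).filter p).length = (univ.filter fun a : Fin w.length => p a = true).card := by
  rw [card_filter, ← bridge_sum w fun a => if p a = true then 1 else 0]
  induction rg w with
  | nil => simp
  | cons x l ih => cases h : p x <;> simp [h, ih, add_comm]

theorem deg_eq (w : Un) (X : Tab) (u : Fin w.length) :
    deg w X u = ((gr w.length X).nbr u).card := by
  rw [deg, bridge_filter, nbr]
  simp only [ad_iff]

theorem length_filter_rg (w : Un) (p : ℕ → Bool) :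
    ((rg w).filter p).length = (univ.filter fun a : Fin w.length => p a = true).card := by
  exact bridge_filter w p

theorem fullB_iff {w : Un} {X : Tab} {C : St} :
    fullB w X C = true ↔ (gr w.length X).Full (st w.length C) := by
  simp only [fullB, bridge_all_pairs, Full, mem_st, ← ad_iff, Bool.or_eq_true, Bool.not_eq_true',
    decide_eq_true_eq, Fin.val_inj]
  refine ⟨fun h a ha b hb hab => ?_, fun h a b => ?_⟩
  · simpa [ha, hb, hab] using h a b
  · by_cases ha : bt C a = true <;> by_cases hb : bt C b = true <;> by_cases hab : a = b <;>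
      simp_all

theorem rep_rg (w : Un) : Rep (rg w) (id : Fin w.length → Fin w.length) := by
  intro a
  simpa using gm_map w id a

theorem rep_upd (w : Un) (u v : Fin w.length) : Rep (upd w u v) (update id u v) := by
  intro a
  rw [upd, gm_map, update_apply, apply_ite Fin.val]
  simp only [Fin.val_inj, id]

theorem rep_swp (w : Un) (u v : Fin w.length) : Rep (swp w u v) (Equiv.swap u v) := by
  intro a
  rw [swp, gm_map, Equiv.swap_apply_def, apply_ite Fin.val, apply_ite Fin.val]
  simp only [Fin.val_inj]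

/-- The first embedding into the doubled universe. -/
def i1 (w : Un) (x : Fin w.length) : Fin (w ++ w).length := ⟨x, by simp; omega⟩

/-- The second embedding into the doubled universe. -/
def i2 (w : Un) (D : St) (x : Fin w.length) : Fin (w ++ w).length :=
  if bt D x then i1 w x else ⟨x + w.length, by simp⟩

theorem rep_i1 (w : Un) : Rep (rg w) (i1 w) := by
  exact rep_rg w

theorem rep_i2 (w : Un) (D : St) : Rep (iota2 w D) (i2 w D) := by
  intro a
  rw [iota2, gm_map, i2, apply_ite Fin.val]
  rfl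

theorem glue_i (w : Un) (D : St) : Glue (i1 w) (i2 w D) (st w.length D) := by
  refine ⟨fun x y h => Fin.ext (congrArg Fin.val h :), fun x y h => ?_, fun x hx => ?_,
    fun x y h => ?_⟩
  · have := congrArg Fin.val h
    have := x.2
    have := y.2
    simp only [i2, i1, apply_ite Fin.val] at *
    split_ifs at * <;> omega
  · rw [i2, if_pos (mem_st.1 hx)]
  · have h1 := congrArg Fin.val h
    have := x.2
    simp only [i2, i1, apply_ite Fin.val] at h1
    split_ifs at h1 with h2
    · obtain rfl : x = y := Fin.ext h1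
      exact ⟨rfl, mem_st.2 h2⟩
    · omega

theorem gr_dblG (w : Un) (D : St) (X Y : Tab) : gr (w ++ w).length (dblG w D X Y) =
    dbl (i1 w) (i2 w D) (gr w.length X) (gr w.length Y) := by
  rw [dblG, gr_addG, gr_pushG (rep_i1 w), gr_pushG (rep_i2 w D), dbl]

variable {c : Ctx} {F : Type} [Field F] [CharP F 2] {θ : Fe → F}

theorem ev_cmp {w : Un} {n' : ℕ} {φ : List ℕ} {ψ : Fin w.length → Fin n'} (h : Rep φ ψ) (p : Ev) :
    ev θ w.length (cmp w φ p) = ev θ n' p ∘ ψ := by
  funext a
  simp only [ev, cmp, gv_map, h a, Function.comp]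

theorem bridge_app1 (w : Un) (p q : Ev) (a : Fin w.length) : gv (app w p q) a = gv p a := by
  rw [gv, app, List.getD_append _ _ _ _ (by simp [cmp]), ← gv, cmp, gv_map, rep_rg w a, id]

theorem bridge_app2 (w : Un) (p q : Ev) (a : Fin w.length) :
    gv (app w p q) (a + w.length) = gv q a := by
  rw [gv, app, List.getD_append_right _ _ _ _ (by simp [cmp]), ← gv,
    show a + w.length - (cmp w (rg w) p).length = a by simp [cmp], cmp, gv_map, rep_rg w a, id]

theorem ev_app_i1 (w : Un) (p q : Ev) :
    ev θ (w ++ w).length (app w p q) ∘ i1 w = ev θ w.length p := by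
  funext a
  simp only [ev, Function.comp, i1, bridge_app1]

theorem ev_app_i2 (w : Un) (D : St) (p q : Ev) (x : Fin w.length) :
    ev θ (w ++ w).length (app w p q) (i2 w D x) =
      if bt D x then ev θ w.length p x else ev θ w.length q x := by
  rw [i2]
  split_ifs
  · simp only [ev, i1, bridge_app1]
  · simp only [ev, bridge_app2]

theorem Sem.bridge_fsum (hs : Sem c θ) (l : List Fe) : θ (fsum c l) = (l.map θ).sum := by
  have : ∀ a, θ (l.foldl (fadd c) a) = θ a + (l.map θ).sum := by
    induction l with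
    | nil => simp
    | cons x l ih => intro a; simp [ih, hs.add, add_assoc]
  rw [fsum, this, hs.nil, zero_add]

theorem Sem.ev_svC (hs : Sem c θ) (w : Un) (p : Ev) (y : Fin w.length) (Z : St) :
    ev θ w.length (svC c w p y Z) = sv (ev θ w.length p) y (zv w.length Z) := by
  have key : ∀ x : Fin w.length,
      θ (if bt Z x then finv c (fadd c (gv p x) (gv p y)) else []) =
        cz F (zv w.length Z x) * (ev θ w.length p x + ev θ w.length p y)⁻¹ := by
    intro x
    simp only [zv, ev]
    cases bt Z x <;> simp [hs.nil, hs.inv, hs.add]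
  funext v
  simp only [ev, svC, gv_map, hs.add, sv]
  rw [key, apply_ite θ, hs.nil, hs.bridge_fsum, List.map_map, bridge_sum]
  simp only [Function.comp, key, Fin.val_inj, ev]

theorem Sem.span_lapC (hs : Sem c θ) (w : Un) (X : Tab) (p : Ev) :
    Submodule.span F {v | ∃ x ∈ lapC c w X p, ev θ w.length x = v} =
      Rg (gr w.length X) (ev θ w.length p) := by
  rw [Rg, Matrix.range_mulVecLin]
  congr 1
  ext v
  simp only [lapC, List.mem_map, mem_rg, Set.mem_ofPred_eq, Set.mem_range]
  constructor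
  · rintro ⟨_, ⟨b, hb, rfl⟩, rfl⟩
    refine ⟨⟨b, hb⟩, ?_⟩
    rw [hs.ev_svC w p ⟨b, hb⟩, zv_rowG w X ⟨b, hb⟩]
    rfl
  · rintro ⟨b, rfl⟩
    refine ⟨_, ⟨b, b.2, rfl⟩, ?_⟩
    rw [hs.ev_svC, zv_rowG]
    rfl

theorem Sem.rkC_eq (hs : Sem c θ) (w : Un) (X : Tab) (p : Ev) :
    rkC c w X p = H52.rk (gr w.length X) (ev θ w.length p) := by
  rw [rkC, hs.rk, hs.span_lapC, rk_eq]

theorem Sem.propC_iff (hs : Sem c θ) {w : Un} {X : Tab} {p : Ev} :
    propC c w X p = true ↔ Proper (gr w.length X) (ev θ w.length p) := by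
  simp only [propC, bridge_all_pairs, Proper, ← ad_iff, Bool.or_eq_true, Bool.not_eq_true', ev,
    ne_eq, ← hs.eq]
  refine forall_congr' fun a => forall_congr' fun b => ?_
  cases ad X a b <;> simp

theorem proper_full_iff {w : Un} {p : Fin w.length → F} :
    Proper (gr w.length (fullG w)) p ↔ Injective p := by
  refine ⟨fun h a b e => ?_, proper_of_inj _⟩
  by_contra hab
  exact h a b (by rw [gr_fullG, if_neg hab]) e

theorem Sem.ev0_inj (hs : Sem c θ) {w : Un} (h : w.length ≤ c.2.length) :
    Injective (ev θ w.length (ev0 w)) := by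
  intro a b e
  simp only [ev, ev0, gv_map] at e
  exact Fin.ext (hs.inj _ _ (a.2.trans_le h) (b.2.trans_le h) e)

theorem Sem.big (hs : Sem c θ) {N : ℕ} (h : N < c.2.length) : Big F N := by
  classical
  refine ⟨(range c.2.length).image fun i => θ i.bits, ?_⟩
  rwa [card_image_of_injOn fun i hi j hj => hs.inj i j (mem_range.1 hi) (mem_range.1 hj),
    card_range]

theorem bridge_toV_app (w : Un) (m : ℕ) (f : ℕ → Bool) (b : List Bool) :
    H36.toV (w.length + m) (sett w f ++ b) =
      Fin.append (fun i : Fin w.length => b2z (f i)) (H36.toV m b) := by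
  funext i
  refine Fin.addCases (fun i => ?_) (fun i => ?_) i
  · rw [Fin.append_left, H36.toV, Fin.val_castAdd, List.getD_append _ _ _ _ (by simp [sett]),
      ← bt, bt_sett, b2z]
  · rw [Fin.append_right, H36.toV, Fin.val_natAdd,
      List.getD_append_right _ _ _ _ (by simp [sett]), H36.toV]
    simp [sett]

theorem bridge_span_map {α M N : Type} [AddCommGroup M] [Module (ZMod 2) M] [AddCommGroup N]
    [Module (ZMod 2) N] (g : M →ₗ[ZMod 2] N) (L : List α) (h : α → M) :
    Submodule.span (ZMod 2) {v | ∃ Z ∈ L, g (h Z) = v} =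
      (Submodule.span (ZMod 2) {v | ∃ Z ∈ L, h Z = v}).map g := by
  rw [Submodule.map_span]
  congr 1
  ext v
  simp

theorem bridge_sp_map {α : Type} (n : ℕ) (L : List α) (f : α → List Bool) :
    H36.sp n (L.map f) = Submodule.span (ZMod 2) {v | ∃ Z ∈ L, H36.toV n (f Z) = v} := by
  rw [H36.sp]
  congr 1
  ext v
  simp

theorem bridge_units (w : Un) (A : ℕ → Bool) (ζ : Fin w.length → ZMod 2) :
    ζ ∈ Submodule.span (ZMod 2) {v | ∃ x ∈ rg w,
      (fun i : Fin w.length => b2z (decide ((i : ℕ) = x) && A x)) = v} ↔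
        ∀ x, ζ x = 1 → A x = true := by
  constructor
  · intro h
    induction h using Submodule.span_induction with
    | mem v hv =>
      obtain ⟨x, -, rfl⟩ := hv
      intro i hi
      simp only [b2z_eq_one, Bool.and_eq_true, decide_eq_true_eq] at hi
      exact hi.1 ▸ hi.2
    | zero => simp
    | add u v _ _ hu hv => exact fun x hx => (z2_add_eq_one hx).elim (hu x) (hv x)
    | smul a v _ hv =>
      intro x hx
      rcases z2 a with rfl | rfl
      · simp at hx
      · exact hv x (by simpa using hx)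
  · intro h
    have : ζ = ∑ x : Fin w.length, ζ x • fun i : Fin w.length =>
        b2z (decide ((i : ℕ) = x) && A x) := by
      funext i
      rw [Finset.sum_apply, sum_eq_single i (fun x _ hx => by simp [Fin.val_inj, hx.symm])
        (by simp)]
      rcases z2 (ζ i) with h1 | h1
      · simp [h1]
      · simp [h1, h i h1]
    rw [this]
    exact Submodule.sum_mem _ fun x _ =>
      Submodule.smul_mem _ _ (Submodule.subset_span ⟨x, mem_rg.2 x.2, rfl⟩)

/-- Concatenation of a function and its image as a linear map. -/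
def bridgeApp {n m k : ℕ} (f : (Fin k → ZMod 2) →+ (Fin n → ZMod 2))
    (g : (Fin k → ZMod 2) →+ (Fin m → ZMod 2)) :
    (Fin k → ZMod 2) →ₗ[ZMod 2] (Fin (n + m) → ZMod 2) :=
  AddMonoidHom.toZModLinearMap 2 (AddMonoidHom.mk' (fun ζ => Fin.append (f ζ) (g ζ)) fun a b => by
    funext i
    refine Fin.addCases (fun i => ?_) (fun i => ?_) i <;> simp)

theorem bridgeApp_apply {n m k : ℕ} (f : (Fin k → ZMod 2) →+ (Fin n → ZMod 2))
    (g : (Fin k → ZMod 2) →+ (Fin m → ZMod 2)) (ζ : Fin k → ZMod 2) :
    bridgeApp f g ζ = Fin.append (f ζ) (g ζ) := rfl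

theorem Sem.bridge_step (hs : Sem c θ) {w : Un} {X : Tab} {p : Ev} {y : Fin w.length}
    {gens : List St} {ζ : Fin w.length → ZMod 2} :
    ζ ∈ Submodule.span (ZMod 2) {v | ∃ Z ∈ nulStep c w X y gens p, zv w.length Z = v} ↔
      ζ ∈ Submodule.span (ZMod 2) {v | ∃ Z ∈ gens, zv w.length Z = v} ∧
        sv (ev θ w.length p) y ζ ∈ Rg (gr w.length X) (ev θ w.length p) := by
  have := hs.crd w
  set m := w.length * (fk c).length
  obtain ⟨κ, hκ, h1, h2⟩ := this
  set s : (Fin w.length → ZMod 2) →+ (Fin m → ZMod 2) :=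
    κ.comp (AddMonoidHom.mk' (sv (ev θ w.length p) y) (sv_add _ _)) with hsd
  have e0 : ∀ L : List St, Submodule.span (ZMod 2)
      {v | ∃ Z ∈ L.map fun Z => sett w (bt Z), zv w.length Z = v} =
        (H36.sp (w.length + m) L).map (LinearMap.funLeft _ _ (Fin.castAdd m)) := by
    intro L
    rw [← List.map_id L, bridge_sp_map, ← bridge_span_map]
    congr 1
    ext v
    simp only [List.map_id, List.mem_map, Set.mem_ofPred_eq, exists_exists_and_eq_and, id]
    refine exists_congr fun Z => and_congr_right fun _ => Eq.congr_left ?_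
    funext i
    rw [zv, bt_sett]
    rfl
  have e1 : H36.sp (w.length + m) ((rg w).map fun x => sett w fun i => decide (i = x)) =
      (⊤ : Submodule (ZMod 2) _).map (bridgeApp (AddMonoidHom.id _) 0) := by
    rw [← (Submodule.eq_top_iff'.2 fun ζ => (bridge_units w (fun _ => true) ζ).2 fun _ _ => rfl),
      ← bridge_span_map, bridge_sp_map]
    congr 1
    ext v
    refine exists_congr fun x => and_congr_right fun _ => Eq.congr_left ?_
    rw [← List.append_nil (sett _ _), bridge_toV_app, bridgeApp_apply]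
    congr 1
    · simp
  have e2 : H36.sp (w.length + m) (gens.map fun Z => sett w (bt Z) ++ coords c w (svC c w p y Z)) =
      (Submodule.span (ZMod 2) {v | ∃ Z ∈ gens, zv w.length Z = v}).map
        (bridgeApp (AddMonoidHom.id _) s) := by
    rw [← bridge_span_map, bridge_sp_map]
    congr 1
    ext v
    refine exists_congr fun x => and_congr_right fun _ => Eq.congr_left ?_
    rw [bridge_toV_app, bridgeApp_apply, h1, hs.ev_svC]
    rfl
  have e3 : H36.sp (w.length + m) ((blow c (lapC c w X p)).map fun v =>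
      sett w (fun _ => false) ++ coords c w v) =
      (H36.sp m ((blow c (lapC c w X p)).map (coords c w))).map
        (bridgeApp 0 (AddMonoidHom.id _)) := by
    rw [bridge_sp_map m, ← bridge_span_map, bridge_sp_map]
    congr 1
    ext v
    refine exists_congr fun x => and_congr_right fun _ => Eq.congr_left ?_
    rw [bridge_toV_app, bridgeApp_apply]
    rfl
  rw [nulStep, e0, H36.sp_inter, H36.sp_append, e1, e2, e3, ← hs.span_lapC, h2]
  constructor
  · rintro ⟨_, ⟨⟨ξ, -, rfl⟩, h3⟩, rfl⟩
    obtain ⟨_, ⟨a, ha, rfl⟩, _, ⟨b, hb, rfl⟩, e⟩ := Submodule.mem_sup.1 h3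
    have e4 : a = LinearMap.funLeft (ZMod 2) _ (Fin.castAdd m)
        (bridgeApp (AddMonoidHom.id _) 0 ξ) := by
      funext i
      simpa [bridgeApp_apply] using congrFun e (Fin.castAdd m i)
    have e5 : s a + b = 0 := by
      funext i
      simpa [bridgeApp_apply] using congrFun e (Fin.natAdd _ i)
    rw [← e4]
    refine ⟨ha, ?_⟩
    change s a ∈ _
    rw [eq_neg_of_add_eq_zero_left e5]
    exact neg_mem hb
  · rintro ⟨h3, h4⟩
    refine ⟨bridgeApp (AddMonoidHom.id _) 0 ζ, ⟨⟨ζ, trivial, rfl⟩, Submodule.mem_sup.2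
      ⟨_, ⟨ζ, h3, rfl⟩, _, ⟨-s ζ, neg_mem h4, rfl⟩, ?_⟩⟩, ?_⟩
    · funext i
      refine Fin.addCases (fun i => ?_) (fun i => ?_) i <;> simp [bridgeApp_apply, z2_add_self]
    · funext i
      simp [bridgeApp_apply]

theorem Sem.bridge_nul (hs : Sem c θ) {w : Un} {X : Tab} {P : List Ev} {y : Fin w.length} {A : St}
    {ζ : Fin w.length → ZMod 2} :
    ζ ∈ Submodule.span (ZMod 2) {v | ∃ Z ∈ nul c w X P y A, zv w.length Z = v} ↔
      (∀ x, ζ x = 1 → bt A x = true) ∧
        ∀ p ∈ P, sv (ev θ w.length p) y ζ ∈ Rg (gr w.length X) (ev θ w.length p) := by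
  have : ∀ gens : List St,
      ζ ∈ Submodule.span (ZMod 2) {v | ∃ Z ∈ P.foldl (nulStep c w X y) gens, zv w.length Z = v} ↔
      ζ ∈ Submodule.span (ZMod 2) {v | ∃ Z ∈ gens, zv w.length Z = v} ∧
        ∀ p ∈ P, sv (ev θ w.length p) y ζ ∈ Rg (gr w.length X) (ev θ w.length p) := by
    induction P with
    | nil => simp
    | cons p P ih => intro gens; simp only [List.foldl_cons, ih, hs.bridge_step, List.forall_mem_cons,
        and_assoc]
  rw [nul, this, ← bridge_units w (bt A)]
  refine and_congr_left fun _ => Eq.to_iff ?_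
  congr 2
  ext v
  simp only [List.mem_map, Set.mem_ofPred_eq, exists_exists_and_eq_and]
  refine exists_congr fun x => and_congr_right fun _ => Eq.congr_left ?_
  funext i
  rw [zv, bt_sett]

theorem Sem.nul_sound (hs : Sem c θ) {w : Un} {X : Tab} {P : List Ev} {y : Fin w.length} {A Z : St}
    (hZ : Z ∈ nul c w X P y A) :
    (∀ x : Fin w.length, bt Z x = true → bt A x = true) ∧
      ∀ p ∈ P, sv (ev θ w.length p) y (zv w.length Z) ∈ Rg (gr w.length X) (ev θ w.length p) := by
  exact (by
    simpa only [zv, b2z_eq_one] using (hs.bridge_nul (ζ := zv w.length Z)).1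
      (Submodule.subset_span ⟨Z, hZ, rfl⟩))

theorem Sem.nul_complete (hs : Sem c θ) {w : Un} {X : Tab} {P : List Ev} {y : Fin w.length} {A : St}
    {ζ : Fin w.length → ZMod 2} (h1 : ∀ x, ζ x = 1 → bt A x = true)
    (h2 : ∀ p ∈ P, sv (ev θ w.length p) y ζ ∈ Rg (gr w.length X) (ev θ w.length p)) :
    ζ ∈ Submodule.span (ZMod 2) {v | ∃ Z ∈ nul c w X P y A, zv w.length Z = v} := by
  exact hs.bridge_nul.2 ⟨h1, h2⟩

end Pool.Agent.MP_bae0ed_lc.H52
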