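import Pool.Agent.MP_bae0ed_lc.H52.Pencil

/-!
Two graphs glued along a set of vertices.
-/

set_option autoImplicit false
set_option linter.unusedSectionVars false

namespace Pool.Agent.MP_bae0ed_lc.H52

open Finset Matrix Function Module Gr

variable {V V' : Type} [DecidableEq V] [DecidableEq V'] [Fintype V] [Fintype V']
variable {F : Type} [Field F] [CharP F 2]
variable {ι₁ ι₂ : V → V'} {D : Finset V}

theorem Glue.comp_eq (hg : Glue ι₁ ι₂ D) (q : V' → F) {x : V} (hx : x ∈ D) :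
    (q ∘ ι₁) x = (q ∘ ι₂) x := by
  simp [hg.eq x hx]

theorem eul_dbl {X Y : Gr V} (hX : X.Eul) (hY : Y.Eul) : (dbl ι₁ ι₂ X Y).Eul :=
  (hX.push ι₁).add (hY.push ι₂)

theorem proper_dbl {X Y : Gr V} {q : V' → F} (hX : Proper X (q ∘ ι₁)) (hY : Proper Y (q ∘ ι₂)) :
    Proper (dbl ι₁ ι₂ X Y) q := by
  intro y y' h
  rcases z2_add_eq_one h with h | h
  · obtain ⟨a, b, rfl, rfl, e⟩ := exists_of_push_adj h
    exact hX a b e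
  · obtain ⟨a, b, rfl, rfl, e⟩ := exists_of_push_adj h
    exact hY a b e

theorem Glue.dbl_symm (hg : Glue ι₁ ι₂ D) : Glue ι₂ ι₁ D :=
  ⟨hg.inj₂, hg.inj₁, fun x hx => (hg.eq x hx).symm, fun x y h => by
    obtain ⟨rfl, h'⟩ := hg.ne y x h.symm
    exact ⟨rfl, h'⟩⟩

theorem dbl_comm (X Y : Gr V) : dbl ι₁ ι₂ X Y = dbl ι₂ ι₁ Y X := add_comm _ _

theorem Glue.dbl_iso (hg : Glue ι₁ ι₂ D) (Y : Gr V) {u : V} (hu : u ∉ D) (y : V') :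
    (Y.push ι₂).adj (ι₁ u) y = 0 := by
  refine z2_ne_one.1 fun h => ?_
  obtain ⟨a, b, e, -, -⟩ := exists_of_push_adj h
  exact hu (hg.ne u a e.symm).2

theorem Glue.dbl_of_on (hg : Glue ι₁ ι₂ D) (X : Gr V) {Y : Gr V} (hY : Y.On D) :
    dbl ι₁ ι₂ X Y = (X + Y).push ι₁ := by
  rw [push_add, dbl, push_congr (φ := ι₂) (ψ := ι₁) fun a b h => (hg.eq a (hY a b h)).symm]

theorem Glue.adj_left (hg : Glue ι₁ ι₂ D) (X Y : Gr V) {u : V} (hu : u ∉ D) (x : V) :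
    (dbl ι₁ ι₂ X Y).adj (ι₁ u) (ι₁ x) = X.adj u x := by
  rw [dbl, add_adj, push_adj_inj hg.inj₁, hg.dbl_iso Y hu, add_zero]

theorem Glue.adj_right (hg : Glue ι₁ ι₂ D) (X Y : Gr V) {u : V} (hu : u ∉ D) (x : V) :
    (dbl ι₁ ι₂ X Y).adj (ι₂ u) (ι₂ x) = Y.adj u x := by
  rw [dbl_comm, hg.dbl_symm.adj_left Y X hu]

theorem Glue.nbr_left (hg : Glue ι₁ ι₂ D) (X Y : Gr V) {u : V} (hu : u ∉ D) :
    (dbl ι₁ ι₂ X Y).nbr (ι₁ u) = (X.nbr u).image ι₁ := by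
  ext y
  rw [mem_nbr, mem_image]
  constructor
  · intro h
    rw [dbl, add_adj, hg.dbl_iso Y hu, add_zero] at h
    obtain ⟨a, b, e, rfl, e'⟩ := exists_of_push_adj h
    obtain rfl := hg.inj₁ e
    exact ⟨b, mem_nbr.2 e', rfl⟩
  · rintro ⟨x, hx, rfl⟩
    rw [hg.adj_left X Y hu, mem_nbr.1 hx]

theorem Glue.nbr_right (hg : Glue ι₁ ι₂ D) (X Y : Gr V) {u : V} (hu : u ∉ D) :
    (dbl ι₁ ι₂ X Y).nbr (ι₂ u) = (Y.nbr u).image ι₂ := by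
  rw [dbl_comm, hg.dbl_symm.nbr_left Y X hu]

theorem Glue.ctr_left (hg : Glue ι₁ ι₂ D) (X Y : Gr V) {u : V} (hu : u ∉ D) (v : V) :
    (dbl ι₁ ι₂ X Y).ctr (ι₁ u) (ι₁ v) = dbl ι₁ ι₂ (X.ctr u v) Y := by
  rw [dbl, ctr_add, ctr_push X v fun x h => hg.inj₁ h, ctr_of_iso (hg.dbl_iso Y hu), dbl]

theorem Glue.ctr_right (hg : Glue ι₁ ι₂ D) (X Y : Gr V) {u : V} (hu : u ∉ D) (v : V) :
    (dbl ι₁ ι₂ X Y).ctr (ι₂ u) (ι₂ v) = dbl ι₁ ι₂ X (Y.ctr u v) := by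
  rw [dbl_comm, hg.dbl_symm.ctr_left Y X hu, dbl_comm]

theorem dbl_dot (X : Gr V) (p x y : V → F) : x ⬝ᵥ (Lap X p *ᵥ y) = y ⬝ᵥ (Lap X p *ᵥ x) := by
  rw [dotProduct_mulVec, ← mulVec_transpose, (Lap_symm X p).eq, dotProduct_comm]

theorem Same.trans {X₁ X₂ X₃ : Gr V} {p₁ p₂ p₃ : V → F} {W : Submodule F (V → F)}
    (h : Same X₁ X₂ p₁ p₂ W) (h' : Same X₂ X₃ p₂ p₃ W) (hW : W ≤ Rg X₂ p₂) :
    Same X₁ X₃ p₁ p₃ W := by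
  intro v hv w hw x x' hx hx'
  obtain ⟨y, hy⟩ := hW hv
  exact (h v hv w hw x y hx hy).trans (h' v hv w hw y x' hy hx')

theorem same_refl (X : Gr V) (p : V → F) {W : Submodule F (V → F)} (hW : W ≤ Rg X p) :
    Same X X p p W := by
  intro v _ w hw x x' hx hx'
  obtain ⟨y, rfl⟩ := hW hw
  rw [mulVecLin_apply, dbl_dot, dbl_dot X p x', hx, hx']

/-- The vectors on which the two dual forms of `v` agree. -/
def dblS (X Y : Gr V) (p q v : V → F) : Submodule F (V → F) where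
  carrier := {w | ∀ x x', Lap X p *ᵥ x = v → Lap Y q *ᵥ x' = v → x ⬝ᵥ w = x' ⬝ᵥ w}
  add_mem' h h' x x' e e' := by
    rw [dotProduct_add, dotProduct_add, h x x' e e', h' x x' e e']
  zero_mem' x x' _ _ := by simp
  smul_mem' c w h x x' e e' := by rw [dotProduct_smul, dotProduct_smul, h x x' e e']

theorem dblS_of {X Y : Gr V} {p q v w x x' y y' : V → F} (hx : Lap X p *ᵥ x = v)
    (hx' : Lap Y q *ᵥ x' = v) (hy : Lap X p *ᵥ y = w) (hy' : Lap Y q *ᵥ y' = w)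
    (h : x ⬝ᵥ w = x' ⬝ᵥ w) : y ⬝ᵥ v = y' ⬝ᵥ v := by
  have e1 := dbl_dot X p x y
  have e2 := dbl_dot Y q x' y'
  rw [hx, hy] at e1
  rw [hx', hy'] at e2
  rw [← e1, ← e2, h]

theorem dblS_symm {X Y : Gr V} {p q v w : V → F} (h₁ : v ∈ Rg X p) (h₂ : v ∈ Rg Y q)
    (h : w ∈ dblS X Y p q v) : v ∈ dblS X Y p q w := by
  obtain ⟨x, hx⟩ := h₁
  obtain ⟨x', hx'⟩ := h₂
  exact fun y y' hy hy' => dblS_of hx hx' hy hy' (h x x' hx hx')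

theorem dblS_diag {X Y : Gr V} {p q v : V → F} {l : Finset V} (hpq : ∀ x ∈ l, p x = q x)
    (hv : v ∈ RS p l) : v ∈ dblS X Y p q v := by
  intro x x' hx hx'
  have e1 := key_identity X p x
  have e2 := key_identity Y q x'
  rw [hx] at e1
  rw [hx'] at e2
  rw [e1, e2]
  refine Finset.sum_congr rfl fun z _ => ?_
  by_cases hz : z ∈ l
  · rw [hpq z hz]
  · simp [hv.1 z hz]

theorem dbl_same {X Y : Gr V} {p q : V → F} {l : Finset V} {a b : V} (hp : Injective p)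
    (ha : a ∈ l) (hb : b ∈ l) (hab : a ≠ b) (h₁ : RS p l ≤ Rg X p) (h₂ : RS p l ≤ Rg Y q)
    (h : ∀ x ∈ l, x ≠ a → x ≠ b → ∀ y ∈ l, y ≠ a → y ≠ b →
      tv p a b y ∈ dblS X Y p q (tv p a b x)) : Same X Y p q (RS p l) := by
  intro v hv w hw
  refine RS_le ha hb (hp.ne hab) (fun x _ hx => hp.ne hx.symm) (W := dblS X Y p q v)
    (fun x hx h1 h2 => ?_) hw
  have hm := tv_mem_RS ha hb hx (hp.ne hab) (hp.ne h1.symm)
  exact dblS_symm (h₁ hm) (h₂ hm)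
    (RS_le ha hb (hp.ne hab) (fun x _ hx => hp.ne hx.symm) (h x hx h1 h2) hv)

/-- If the dual forms differ on a line then they differ on four points of it. -/
theorem exists_not_same {X Y : Gr V} {p q : V → F} {l : Finset V} {a b : V} (hp : Injective p)
    (hpq : ∀ x ∈ l, p x = q x) (ha : a ∈ l) (hb : b ∈ l) (hab : a ≠ b)
    (h₁ : RS p l ≤ Rg X p) (h₂ : RS p l ≤ Rg Y q) (h : ¬ Same X Y p q (RS p l)) :
    ∃ x ∈ l, ∃ y ∈ l, a ≠ x ∧ a ≠ y ∧ b ≠ x ∧ b ≠ y ∧ x ≠ y ∧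
      ¬ Same X Y p q (RS p {a, b, x, y}) := by
  by_contra hc
  refine h (dbl_same hp ha hb hab h₁ h₂ fun x hx h1 h2 y hy h3 h4 => ?_)
  by_cases hxy : x = y
  · subst hxy
    exact dblS_diag hpq (tv_mem_RS ha hb hx (hp.ne hab) (hp.ne h1.symm))
  · have hs : Same X Y p q (RS p {a, b, x, y}) := by
      by_contra hn
      exact hc ⟨x, hx, y, hy, h1.symm, h3.symm, h2.symm, h4.symm, hxy, hn⟩
    exact hs _ (tv_mem_RS (by simp) (by simp) (by simp) (hp.ne hab) (hp.ne h1.symm)) _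
      (tv_mem_RS (by simp) (by simp) (by simp) (hp.ne hab) (hp.ne h3.symm))

theorem dbl_pm_apply {φ : V → V'} (hφ : Injective φ) (v : V → F) (a : V) :
    (pm F φ *ᵥ v) (φ a) = v a := by
  simp [pm, mulVec, dotProduct, hφ.eq_iff]

theorem dbl_pm_zero {φ : V → V'} (v : V → F) {y : V'} (h : ∀ a, φ a ≠ y) :
    (pm F φ *ᵥ v) y = 0 := by
  simp [pm, mulVec, dotProduct, h]

theorem dbl_pm_comp {φ : V → V'} (hφ : Injective φ) (v : V → F) : (pm F φ *ᵥ v) ∘ φ = v :=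
  funext (dbl_pm_apply hφ v)

theorem dbl_pm_inj {φ : V → V'} (hφ : Injective φ) : Injective (pm F φ).mulVecLin :=
  fun v w h => by rw [← dbl_pm_comp hφ v, ← dbl_pm_comp hφ w]; exact congrArg (· ∘ φ) h

theorem dbl_pm_tr (φ : V → V') (z : V' → F) : (pm F φ)ᵀ *ᵥ z = z ∘ φ := by
  ext a
  simp [pm, mulVec, dotProduct]

theorem dbl_pm_dot (φ : V → V') (z : V' → F) (v : V → F) :
    z ⬝ᵥ (pm F φ *ᵥ v) = (z ∘ φ) ⬝ᵥ v := by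
  rw [dotProduct_mulVec, ← mulVec_transpose, dbl_pm_tr]

theorem dbl_lap_push (φ : V → V') (X : Gr V) (q z : V' → F) :
    Lap (X.push φ) q *ᵥ z = pm F φ *ᵥ (Lap X (q ∘ φ) *ᵥ (z ∘ φ)) := by
  rw [Lap_push, ← mulVec_mulVec, ← mulVec_mulVec, dbl_pm_tr]

theorem Glue.dbl_pm_eq (hg : Glue ι₁ ι₂ D) {v : V → F} (hv : ∀ x, x ∉ D → v x = 0) :
    pm F ι₂ *ᵥ v = pm F ι₁ *ᵥ v := by
  ext y
  simp only [pm, mulVec, dotProduct, of_apply]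
  refine Finset.sum_congr rfl fun a _ => ?_
  by_cases ha : a ∈ D
  · rw [hg.eq a ha]
  · rw [hv a ha, mul_zero, mul_zero]

theorem Glue.dbl_pm_inter (hg : Glue ι₁ ι₂ D) {Y : Gr V} (hY : Y.Eul) {q : V' → F}
    (hq₂ : Injective (q ∘ ι₂)) {v w : V → F} (hw : w ∈ Rg Y (q ∘ ι₂))
    (h : pm F ι₁ *ᵥ v = pm F ι₂ *ᵥ w) : v = w ∧ w ∈ RS (q ∘ ι₁) D := by
  have h1 : ∀ x, x ∉ D → w x = 0 := fun x hx => by
    rw [← dbl_pm_apply hg.inj₂ w, ← h]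
    exact dbl_pm_zero _ fun a e => hx ((hg.ne a x e).1 ▸ (hg.ne a x e).2)
  refine ⟨dbl_pm_inj hg.inj₁ (h.trans (hg.dbl_pm_eq h1)), ?_⟩
  rw [RS_congr fun x hx => hg.comp_eq q hx]
  exact ⟨h1, (Rg_le_RS (S := univ) hY (fun _ _ _ => mem_univ _) (proper_of_inj Y hq₂) hw).2⟩

theorem Glue.dbl_inter (hg : Glue ι₁ ι₂ D) (X : Gr V) {Y : Gr V} (hY : Y.Eul) {q : V' → F}
    (hq₂ : Injective (q ∘ ι₂)) : cs (Lap (X.push ι₁) q) ⊓ cs (Lap (Y.push ι₂) q) ≤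
      (RS (q ∘ ι₁) D).map (pm F ι₁).mulVecLin := by
  rw [← Rg_eq, ← Rg_eq, Rg_push_inj hg.inj₁, Rg_push_inj hg.inj₂]
  rintro z ⟨⟨v, -, rfl⟩, w, hw, e⟩
  obtain ⟨rfl, h⟩ := hg.dbl_pm_inter hY hq₂ hw e.symm
  exact ⟨v, h, rfl⟩

theorem dbl_lap (X Y : Gr V) (q : V' → F) :
    Lap (X.push ι₁) q - Lap (Y.push ι₂) q = Lap (dbl ι₁ ι₂ X Y) q := by
  rw [dbl, Lap_add]
  ext a b
  exact CharTwo.sub_eq_add _ _

/-- Equal dual forms make the rank of the glued graph small. -/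
theorem Glue.rk_le (hg : Glue ι₁ ι₂ D) {X Y : Gr V} (hX : X.Eul) (hY : Y.Eul) {q : V' → F}
    (hq₁ : Injective (q ∘ ι₁)) (hq₂ : Injective (q ∘ ι₂)) (hD : 2 ≤ D.card)
    (h₁ : RS (q ∘ ι₁) D ≤ Rg X (q ∘ ι₁)) (h₂ : RS (q ∘ ι₁) D ≤ Rg Y (q ∘ ι₂))
    (h : Same X Y (q ∘ ι₁) (q ∘ ι₂) (RS (q ∘ ι₁) D)) :
    rk (dbl ι₁ ι₂ X Y) q + 2 * D.card ≤ rk X (q ∘ ι₁) + rk Y (q ∘ ι₂) + 4 := by
  obtain ⟨a, ha, b, hb, hab⟩ := one_lt_card.1 hD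
  have h3 := finrank_RS ha hb (hq₁.ne hab)
  have h4 := rank_sub_le (Lap_symm (X.push ι₁) q) (Lap_symm (Y.push ι₂) q) (by
    intro v hv w hw x x' hx hx'
    obtain ⟨v, hv', rfl⟩ := hg.dbl_inter X hY hq₂ hv
    obtain ⟨w, hw', rfl⟩ := hg.dbl_inter X hY hq₂ hw
    rw [dbl_lap_push, mulVecLin_apply] at hx hx'
    rw [← hg.dbl_pm_eq hv'.1] at hx'
    rw [mulVecLin_apply, dbl_pm_dot, ← hg.dbl_pm_eq hw'.1, dbl_pm_dot]
    exact h v hv' w hw' _ _ (dbl_pm_inj hg.inj₁ hx) (dbl_pm_inj hg.inj₂ hx'))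
  have h5 : (RS (q ∘ ι₁) D).map (pm F ι₁).mulVecLin ≤
      cs (Lap (X.push ι₁) q) ⊓ cs (Lap (Y.push ι₂) q) := by
    rw [← Rg_eq, ← Rg_eq, Rg_push_inj hg.inj₁, Rg_push_inj hg.inj₂]
    rintro _ ⟨v, hv, rfl⟩
    exact ⟨⟨v, h₁ hv, rfl⟩, v, h₂ hv, hg.dbl_pm_eq hv.1⟩
  have h6 := Submodule.finrank_mono h5
  rw [← (Submodule.equivMapOfInjective _ (dbl_pm_inj hg.inj₁) _).finrank_eq] at h6
  rw [dbl_lap] at h4
  have h7 := rk_push_inj hg.inj₁ X q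
  have h8 := rk_push_inj hg.inj₂ Y q
  unfold rk at *
  omega

/-- Different dual forms on four points make the rank of the glued graph large. -/
theorem Glue.rk_ge {a b x y u : V} (hg : Glue ι₁ ι₂ {a, b, x, y}) {X Y : Gr V} (hX : X.Eul)
    (hY : Y.Eul) {q : V' → F} (hq₁ : Injective (q ∘ ι₁)) (hq₂ : Injective (q ∘ ι₂))
    (hab : a ≠ b) (hax : a ≠ x) (hay : a ≠ y) (hbx : b ≠ x) (hby : b ≠ y) (hxy : x ≠ y)
    (hu : u ∉ ({a, b, x, y} : Finset V))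
    (h₁ : RS (q ∘ ι₁) {a, b, x, y} ≤ Rg X (q ∘ ι₁))
    (h₂ : RS (q ∘ ι₁) {a, b, x, y} ≤ Rg Y (q ∘ ι₂))
    (h : ¬ Same X Y (q ∘ ι₁) (q ∘ ι₂) (RS (q ∘ ι₁) {a, b, x, y}))
    (ht : tv (q ∘ ι₁) a b u ∉ Rg X (q ∘ ι₁)) :
    rk X (q ∘ ι₁) + rk Y (q ∘ ι₂) ≤ rk (dbl ι₁ ι₂ X Y + tri (ι₁ a) (ι₁ b) (ι₁ u)) q + 1 := by
  have hv := tv_mem_RS (S := {a, b, x, y}) (c := x) (by simp) (by simp) (by simp) (hq₁.ne hab)
    (hq₁.ne hax)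
  have hw := tv_mem_RS (S := {a, b, x, y}) (c := y) (by simp) (by simp) (by simp) (hq₁.ne hab)
    (hq₁.ne hay)
  have hpq : ∀ z ∈ ({a, b, x, y} : Finset V), (q ∘ ι₁) z = (q ∘ ι₂) z := fun z => hg.comp_eq q
  obtain ⟨x0, e1⟩ := h₁ hv
  obtain ⟨x1, e2⟩ := h₂ hv
  obtain ⟨y0, e3⟩ := h₁ hw
  obtain ⟨y1, e4⟩ := h₂ hw
  rw [mulVecLin_apply] at e1 e2 e3 e4
  have hne : x0 ⬝ᵥ tv (q ∘ ι₁) a b y ≠ x1 ⬝ᵥ tv (q ∘ ι₁) a b y := by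
    intro e
    have k1 : tv (q ∘ ι₁) a b x ∈ dblS X Y (q ∘ ι₁) (q ∘ ι₂) (tv (q ∘ ι₁) a b y) :=
      fun _ _ f f' => dblS_of e1 e2 f f' e
    refine h (dbl_same hq₁ (by simp) (by simp) hab h₁ h₂ fun s hs s1 s2 t ht t1 t2 => ?_)
    simp only [mem_insert, mem_singleton, s1, s2, t1, t2, false_or] at hs ht
    rcases hs with rfl | rfl <;> rcases ht with rfl | rfl
    · exact dblS_diag hpq hv
    · exact dblS_symm (h₁ hw) (h₂ hw) k1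
    · exact k1
    · exact dblS_diag hpq hw
  have d1 : ∀ z v : V → F, (pm F ι₁ *ᵥ z) ⬝ᵥ (pm F ι₁ *ᵥ v) = z ⬝ᵥ v := fun z v => by
    rw [dbl_pm_dot, dbl_pm_comp hg.inj₁]
  have d2 : ∀ z, ∀ v ∈ RS (q ∘ ι₁) {a, b, x, y}, (pm F ι₂ *ᵥ z) ⬝ᵥ (pm F ι₁ *ᵥ v) = z ⬝ᵥ v :=
    fun z v hv => by rw [← hg.dbl_pm_eq hv.1, dbl_pm_dot, dbl_pm_comp hg.inj₂]
  obtain ⟨r1, r2⟩ := rank_sub_ge (Lap_symm (X.push ι₁) q) (Lap_symm (Y.push ι₂) q)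
    (v := pm F ι₁ *ᵥ tv (q ∘ ι₁) a b x) (w := pm F ι₁ *ᵥ tv (q ∘ ι₁) a b y)
    (x := pm F ι₁ *ᵥ x0) (x' := pm F ι₂ *ᵥ x1) (y := pm F ι₁ *ᵥ y0) (y' := pm F ι₂ *ᵥ y1)
    ((hg.dbl_inter X hY hq₂).trans (Submodule.map_le_iff_le_comap.2
      (RS_le (by simp) (by simp) (hq₁.ne hab) (fun z _ hz => hq₁.ne hz.symm) fun s hs s1 s2 => by
        simp only [mem_insert, mem_singleton, s1, s2, false_or] at hs
        rcases hs with rfl | rfl <;> exact Submodule.subset_span (by simp))))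
    (by rw [dbl_lap_push, dbl_pm_comp hg.inj₁, e1])
    (by rw [dbl_lap_push, dbl_pm_comp hg.inj₂, e2, hg.dbl_pm_eq hv.1])
    (by rw [dbl_lap_push, dbl_pm_comp hg.inj₁, e3])
    (by rw [dbl_lap_push, dbl_pm_comp hg.inj₂, e4, hg.dbl_pm_eq hw.1])
    (by rw [d1, d2 _ _ hv]; exact dblS_diag hpq hv _ _ e1 e2)
    (by rw [d1, d2 _ _ hw]; exact dblS_diag hpq hw _ _ e3 e4)
    (by rw [d1, d2 _ _ hw]; exact hne)
  rw [dbl_lap] at r1 r2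
  have hau : a ≠ u := fun e => hu (by simp [← e])
  have hbu : b ≠ u := fun e => hu (by simp [← e])
  have t1 : pm F ι₁ *ᵥ tv (q ∘ ι₁) a b u = tv q (ι₁ a) (ι₁ b) (ι₁ u) := by
    rw [tv, pm_sv, tv]
    congr 1
    ext z
    have k : ∀ c : V, (∑ s, if ι₁ s = z then (Pi.single c 1 : V → ZMod 2) s else 0) =
        (Pi.single (ι₁ c) 1 : V' → ZMod 2) z := fun c => by
      rw [Finset.sum_eq_single c (fun s _ hs => by simp [hs]) (by simp)]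
      simp [Pi.single_apply, eq_comm]
    simp only [pushZ, Pi.add_apply, ite_add_zero, Finset.sum_add_distrib, k]
  have t2 : tv q (ι₁ a) (ι₁ b) (ι₁ u) ∉ Rg (dbl ι₁ ι₂ X Y) q := by
    rw [Rg_eq, r2, ← Rg_eq, ← Rg_eq, Rg_push_inj hg.inj₁, Rg_push_inj hg.inj₂, ← t1,
      Submodule.mem_sup]
    rintro ⟨_, ⟨r, hr, rfl⟩, _, ⟨r', hr', rfl⟩, e⟩
    obtain ⟨k1, k2⟩ := hg.dbl_pm_inter hY hq₂ hr' (v := tv (q ∘ ι₁) a b u - r)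
      (by rw [mulVec_sub, ← e]; simp)
    exact ht (sub_eq_iff_eq_add.1 k1 ▸ add_mem (h₁ k2) hr)
  rw [rk_add_tri_of_not_mem (p := q) _ (hq₁.ne hab) (hq₁.ne hau) (hq₁.ne hbu) t2,
    ← rk_push_inj hg.inj₁ X q, ← rk_push_inj hg.inj₂ Y q]
  exact r1

end Pool.Agent.MP_bae0ed_lc.H52
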