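import Mathlib

/-!
Graphs modulo two, their weighted Laplacians in characteristic two, and the basic operations.
-/

set_option autoImplicit false

namespace Pool.Agent.MP_bae0ed_lc.H52

open Finset Matrix

/-- A simple graph as an alternating matrix over the field with two elements. -/
@[ext] structure Gr (V : Type) where
  adj : V → V → ZMod 2
  symm : ∀ a b, adj a b = adj b a
  irr : ∀ a, adj a a = 0

theorem z2 (x : ZMod 2) : x = 0 ∨ x = 1 := by revert x; decide

theorem z2_add_self (x : ZMod 2) : x + x = 0 := by revert x; decide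

namespace Gr

variable {V V' : Type}

instance : Zero (Gr V) := ⟨⟨fun _ _ => 0, fun _ _ => rfl, fun _ => rfl⟩⟩

instance : Add (Gr V) := ⟨fun X Y => ⟨fun a b => X.adj a b + Y.adj a b,
  fun a b => by rw [X.symm, Y.symm], fun a => by rw [X.irr, Y.irr, add_zero]⟩⟩

@[simp] theorem zero_adj (a b : V) : (0 : Gr V).adj a b = 0 := rfl

@[simp] theorem add_adj (X Y : Gr V) (a b : V) : (X + Y).adj a b = X.adj a b + Y.adj a b := rfl

instance : AddCommMonoid (Gr V) where
  add_assoc X Y Z := by ext a b; simp [add_assoc]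
  zero_add X := by ext a b; simp
  add_zero X := by ext a b; simp
  add_comm X Y := by ext a b; simp [add_comm]
  nsmul := nsmulRec

theorem add_self (X : Gr V) : X + X = 0 := by ext a b; simp [z2_add_self]

/-- Symmetrisation. -/
def of (f : V → V → ZMod 2) : Gr V :=
  ⟨fun a b => f a b + f b a, fun _ _ => add_comm _ _, fun _ => z2_add_self _⟩

variable [DecidableEq V] [DecidableEq V']

/-- The edge `ab` (empty when `a = b`). -/
def edge (a b : V) : Gr V := of fun x y => if x = a ∧ y = b then 1 else 0

/-- The triangle `abc`. -/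
def tri (a b c : V) : Gr V := edge a b + edge b c + edge a c

/-- The star joining `y` to the set `Z`. -/
def star (y : V) (Z : V → ZMod 2) : Gr V := of fun a b => if a = y then Z b else 0

/-- Toggle the edges from `y` and from `y2` to `Z`.  When `y2` is isolated this splits `y`. -/
def split (X : Gr V) (y y2 : V) (Z : V → ZMod 2) : Gr V := X + star y Z + star y2 Z

/-- Identify `u` with `w`; the vertex `u` becomes isolated. -/
def ctr (X : Gr V) (u w : V) : Gr V := X.split u w (X.adj u)

/-- A list of identifications. -/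
def con (X : Gr V) : List (V × V) → Gr V
  | [] => X
  | c :: τ => con (X.ctr c.1 c.2) τ

/-- The number of identifications in the list that contract an edge. -/
def cnt (X : Gr V) : List (V × V) → ℕ
  | [] => 0
  | c :: τ => (X.adj c.1 c.2).val + cnt (X.ctr c.1 c.2) τ

/-- The subgraph induced on `C`. -/
def ind (X : Gr V) (C : Finset V) : Gr V :=
  ⟨fun a b => if a ∈ C ∧ b ∈ C then X.adj a b else 0,
    fun a b => by simp only [and_comm, X.symm a b], fun a => by simp [X.irr]⟩

variable [Fintype V] [Fintype V']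

/-- The image of a graph under a map, modulo two. -/
def push (φ : V → V') (X : Gr V) : Gr V' :=
  ⟨fun y y' => ∑ a, ∑ b, if φ a = y ∧ φ b = y' then X.adj a b else 0,
    fun y y' => by
      rw [Finset.sum_comm]
      refine Finset.sum_congr rfl fun a _ => Finset.sum_congr rfl fun b _ => ?_
      simp only [and_comm, X.symm a b],
    fun y => by
      rw [← Finset.sum_product']
      refine Finset.sum_involution (fun p _ => p.swap) (fun p _ => ?_) (fun p _ h => ?_)
        (fun p _ => by simp) (fun p _ => by simp)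
      · simp only [Prod.fst_swap, Prod.snd_swap, and_comm, X.symm p.2 p.1, z2_add_self]
      · intro e
        have : p.2 = p.1 := congrArg Prod.fst e
        simp [this, X.irr] at h⟩

/-- The neighbours. -/
def nbr (X : Gr V) (u : V) : Finset V := univ.filter fun x => X.adj u x = 1

/-- All degrees are even. -/
def Eul (X : Gr V) : Prop := ∀ u, ∑ x, X.adj u x = 0

/-- All edges lie inside `S`. -/
def On (X : Gr V) (S : Finset V) : Prop := ∀ a b, X.adj a b = 1 → a ∈ S

/-- The vertex `u` is isolated. -/
def Iso (X : Gr V) (u : V) : Prop := ∀ x, X.adj u x = 0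

/-- The vertices that are not isolated. -/
def supp (X : Gr V) : Finset V := univ.filter fun x => ∃ y, X.adj x y = 1

/-- The parity of the number of edges. -/
noncomputable def par (X : Gr V) : ZMod 2 :=
  ∑ a, ∑ b, if Fintype.equivFin V a < Fintype.equivFin V b then X.adj a b else 0

/-- Connectedness of the subgraph induced on `C`, in cut form. -/
def Conn (X : Gr V) (C : Finset V) : Prop :=
  ∀ S ⊆ C, S.Nonempty → S ≠ C → ∃ a ∈ S, ∃ b ∈ C, b ∉ S ∧ X.adj a b = 1

/-- Any two vertices of `C` are adjacent. -/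
def Full (X : Gr V) (C : Finset V) : Prop := ∀ a ∈ C, ∀ b ∈ C, a ≠ b → X.adj a b = 1

end Gr

variable {V V' : Type} [DecidableEq V] [DecidableEq V'] [Fintype V] [Fintype V']
variable {F : Type} [Field F] [CharP F 2]

/-- The prime field inside `F`. -/
def cz (F : Type) [Field F] [CharP F 2] : ZMod 2 →+* F := ZMod.castHom (dvd_refl 2) F

/-- The vector `∑ x ∈ Z, (e_x + e_y) / (p x + p y)`. -/
def sv (p : V → F) (y : V) (Z : V → ZMod 2) : V → F := fun v =>
  cz F (Z v) * (p v + p y)⁻¹ + if v = y then ∑ x, cz F (Z x) * (p x + p y)⁻¹ else 0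

/-- The Laplacian with weights `1 / (p a + p b)`. -/
def Lap (X : Gr V) (p : V → F) : Matrix V V F := Matrix.of fun a b => sv p b (X.adj b) a

/-- The rank of the Laplacian. -/
noncomputable def rk (X : Gr V) (p : V → F) : ℕ := (Lap X p).rank

/-- The column space of the Laplacian. -/
def Rg (X : Gr V) (p : V → F) : Submodule F (V → F) := LinearMap.range (Lap X p).mulVecLin

/-- Adjacent vertices have different values. -/
def Proper (X : Gr V) (p : V → F) : Prop := ∀ a b, X.adj a b = 1 → p a ≠ p b

/-- The vectors supported on `S` and orthogonal to `1` and `p`. -/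
def RS (p : V → F) (S : Finset V) : Submodule F (V → F) where
  carrier := {v | (∀ x, x ∉ S → v x = 0) ∧ ∑ x, v x = 0 ∧ ∑ x, p x * v x = 0}
  add_mem' := by
    rintro v w ⟨h1, h2, h3⟩ ⟨h4, h5, h6⟩
    refine ⟨fun x hx => by simp [h1 x hx, h4 x hx], ?_, ?_⟩
    · simp [Finset.sum_add_distrib, h2, h5]
    · simp [mul_add, Finset.sum_add_distrib, h3, h6]
  zero_mem' := by simp
  smul_mem' := by
    rintro c v ⟨h1, h2, h3⟩
    refine ⟨fun x hx => by simp [h1 x hx], ?_, ?_⟩
    · simp [← Finset.mul_sum, h2]
    · simp only [Pi.smul_apply, smul_eq_mul, mul_left_comm _ c, ← Finset.mul_sum, h3, mul_zero]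

/-- The vector of the triangle `abc`. -/
def tv (p : V → F) (a b c : V) : V → F := sv p a (Pi.single b 1 + Pi.single c 1)

/-- On the line through `p` with direction `d`, the rank is at least `k` at all proper points with
few exceptions. -/
def Gen (X : Gr V) (p d : V → F) (k : ℕ) : Prop :=
  ∃ B : Finset F, B.card ≤ Fintype.card V ^ 2 ∧
    ∀ t, t ∉ B → Proper X (p + t • d) → k ≤ rk X (p + t • d)

/-- The field has more than `N` elements. -/
def Big (F : Type) (N : ℕ) : Prop := ∃ Λ : Finset F, N < Λ.card

/-- The 0/1 matrix of a map. -/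
def pm (F : Type) [Field F] (φ : V → V') : Matrix V' V F :=
  Matrix.of fun y a => if φ a = y then 1 else 0

/-- The image of a set modulo two. -/
def pushZ (φ : V → V') (Z : V → ZMod 2) : V' → ZMod 2 := fun y => ∑ a, if φ a = y then Z a else 0

/-- The dual forms of `X` at `p` and of `X'` at `p'` agree on `W`. -/
def Same (X X' : Gr V) (p p' : V → F) (W : Submodule F (V → F)) : Prop :=
  ∀ v ∈ W, ∀ w ∈ W, ∀ x x', Lap X p *ᵥ x = v → Lap X' p' *ᵥ x' = v → x ⬝ᵥ w = x' ⬝ᵥ w

/-- Two graphs on `V` drawn on `V'` by two maps. -/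
def dbl (ι₁ ι₂ : V → V') (X₁ X₂ : Gr V) : Gr V' := X₁.push ι₁ + X₂.push ι₂

/-- The maps `ι₁, ι₂` are injective and their images are glued exactly along `D`. -/
structure Glue (ι₁ ι₂ : V → V') (D : Finset V) : Prop where
  inj₁ : Function.Injective ι₁
  inj₂ : Function.Injective ι₂
  eq : ∀ x ∈ D, ι₁ x = ι₂ x
  ne : ∀ x y, ι₁ x = ι₂ y → x = y ∧ x ∈ D

/-- `Z` is a nontrivial even subset of `C - y`. -/
def Nt (X : Gr V) (C : Finset V) (y : V) (Z : V → ZMod 2) : Prop :=
  (∀ x, Z x = 1 → x ∈ C ∧ x ≠ y) ∧ ∑ x, Z x = 0 ∧ Z ≠ 0 ∧ Z ≠ X.adj y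

/-- No nontrivial splitting of `y` is free at all evaluations of the set `P`. -/
def Kill (X : Gr V) (C : Finset V) (P : Set (V → F)) (y : V) : Prop :=
  ∀ Z, Nt X C y Z → ∃ p ∈ P, sv p y Z ∉ Rg X p

end Pool.Agent.MP_bae0ed_lc.H52
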