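import Pool.Agent.MP_bae0ed_lc.H52.Prim

/-!
The field of the algorithm.
-/

set_option autoImplicit false
set_option linter.unusedSectionVars false

namespace Pool.Agent.MP_bae0ed_lc.H52

open Finset Matrix Function Module Gr

open Pool.Agent.MP_0c5eb8_lc

/-! ### The polynomial is irreducible -/

theorem fld_order (j : ℕ) : orderOf (2 : ZMod (3 ^ (j + 1))) = 2 * 3 ^ j := by
  have h4 : orderOf ((2 : ZMod (3 ^ (j + 1))) ^ 2) = 3 ^ j := by
    have := ZMod.orderOf_one_add_prime (p := 3) Nat.prime_three (by norm_num) j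
    rw [← this]
    congr 1
    norm_num
  rw [orderOf_pow' _ two_ne_zero] at h4
  have hev : 2 ∣ orderOf (2 : ZMod (3 ^ (j + 1))) := by
    have h1 := pow_orderOf_eq_one (2 : ZMod (3 ^ (j + 1)))
    have h2 := congrArg (ZMod.castHom (dvd_pow_self 3 (Nat.succ_ne_zero j)) (ZMod 3)) h1
    rw [map_pow, map_one, map_ofNat] at h2
    have h3 : orderOf (2 : ZMod 3) = 2 := by
      have : Fact (Nat.Prime 2) := ⟨Nat.prime_two⟩
      exact orderOf_eq_prime (by decide) (by decide)
    rw [← h3]
    exact orderOf_dvd_of_pow_eq_one h2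
  obtain ⟨t, ht⟩ := hev
  rw [ht, Nat.gcd_mul_right_left, Nat.mul_div_cancel_left _ two_pos] at h4
  rw [ht, h4]

theorem fld_irred (j : ℕ) : Irreducible (Polynomial.cyclotomic (3 ^ (j + 1)) (ZMod 2)) := by
  have hpn : ¬ 2 ∣ 3 ^ (j + 1) := fun h => by
    have := Nat.prime_two.dvd_of_dvd_pow h
    omega
  refine ZMod.irreducible_of_dvd_cyclotomic_of_natDegree hpn dvd_rfl ?_
  rw [Polynomial.natDegree_cyclotomic, Nat.totient_prime_pow_succ Nat.prime_three, ← orderOf_units,
    ZMod.coe_unitOfCoprime, Nat.cast_ofNat, fld_order]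
  ring

/-- A field with a basis of powers of a root of `x ^ (2 m) + x ^ m + 1`. -/
theorem fld_exists (j k : ℕ) (hk : k = 3 ^ j + 3 ^ j) :
    ∃ (F : Type) (_ : Field F) (_ : Algebra (ZMod 2) F) (r : F) (B : Basis (Fin k) (ZMod 2) F),
      (∀ i, B i = r ^ (i : ℕ)) ∧ r ^ k = r ^ 3 ^ j + 1 := by
  have : Fact (Irreducible (Polynomial.cyclotomic (3 ^ (j + 1)) (ZMod 2))) := ⟨fld_irred j⟩
  let pb := AdjoinRoot.powerBasis (fld_irred j).ne_zero
  have hd : pb.dim = k := by
    rw [AdjoinRoot.powerBasis_dim, Polynomial.natDegree_cyclotomic,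
      Nat.totient_prime_pow_succ Nat.prime_three, hk]
    ring
  refine ⟨AdjoinRoot (Polynomial.cyclotomic (3 ^ (j + 1)) (ZMod 2)), inferInstance, inferInstance,
    pb.gen, pb.basis.reindex (finCongr hd), fun i => ?_, ?_⟩
  · rw [Basis.reindex_apply, pb.basis_eq_pow]
    rfl
  · have h0 := AdjoinRoot.aeval_eq (f := Polynomial.cyclotomic (3 ^ (j + 1)) (ZMod 2))
      (Polynomial.cyclotomic (3 ^ (j + 1)) (ZMod 2))
    rw [AdjoinRoot.mk_self] at h0
    have h1 : Polynomial.aeval pb.gen
        (∑ i ∈ Finset.range 3, ((Polynomial.X : Polynomial (ZMod 2)) ^ 3 ^ j) ^ i) = 0 := by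
      rw [← Polynomial.cyclotomic_prime_pow_eq_geom_sum Nat.prime_three]
      exact h0
    simp only [Finset.sum_range_succ, Finset.range_zero, Finset.sum_empty, map_add, map_pow,
      Polynomial.aeval_X, map_zero] at h1
    have := charP_of_injective_algebraMap
      (algebraMap (ZMod 2) (AdjoinRoot (Polynomial.cyclotomic (3 ^ (j + 1)) (ZMod 2)))).injective 2
    have h2 : (2 : AdjoinRoot (Polynomial.cyclotomic (3 ^ (j + 1)) (ZMod 2))) = 0 :=
      CharTwo.two_eq_zero
    rw [hk, pow_add pb.gen]
    linear_combination h1 - (pb.gen ^ 3 ^ j + 1) * h2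

/-! ### Bits -/

theorem fld_bt_map (w : Un) (f : ℕ → Bool) (i : ℕ) (hi : i < w.length) :
    bt ((rg w).map f) i = f i := by
  simp [bt, rg, List.getD_eq_getElem?_getD, hi]

theorem fld_b2z_xor (x y : Bool) : b2z (xor x y) = b2z x + b2z y := by
  cases x <;> cases y <;> simp [b2z, z2_add_self]

theorem fld_b2z_inj {x y : Bool} (h : b2z x = b2z y) : x = y := by
  cases x <;> cases y <;> simp_all [b2z]

theorem fld_length_flat (n k : ℕ) (g : ℕ → ℕ → Bool) :
    ((List.range n).flatMap fun a => (List.range k).map (g a)).length = n * k := by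
  induction n with
  | zero => simp
  | succ n ih =>
    rw [List.range_succ, List.flatMap_append, List.length_append, ih]
    simp [Nat.succ_mul]

theorem fld_getD_flat (n k : ℕ) (g : ℕ → ℕ → Bool) (x y : ℕ) (hx : x < n) (hy : y < k) :
    ((List.range n).flatMap fun a => (List.range k).map (g a)).getD (y + k * x) false = g x y := by
  induction n with
  | zero => omega
  | succ n ih =>
    rw [List.range_succ, List.flatMap_append]
    rcases Nat.lt_succ_iff_lt_or_eq.1 hx with h | h
    · rw [List.getD_append _ _ _ _ (by rw [fld_length_flat]; nlinarith)]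
      exact ih h
    · subst h
      rw [List.getD_append_right _ _ _ _ (by rw [fld_length_flat]; nlinarith), fld_length_flat]
      have : y + k * x - x * k = y := by rw [mul_comm]; omega
      rw [this]
      simp [List.getD_eq_getElem?_getD, hy]

/-! ### The meaning of the field operations -/

section Sem

variable {F : Type} [Field F] [Algebra (ZMod 2) F]

/-- The field element with the given coefficients. -/
def fldVal (r : F) (k : ℕ) (a : Fe) : F := ∑ i ∈ Finset.range k, b2z (bt a i) • r ^ i

theorem fldVal_nil (r : F) (k : ℕ) : fldVal r k [] = 0 := by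
  simp [fldVal, bt, b2z]

theorem fldVal_mono (r : F) (k i : ℕ) (hi : i < k) :
    fldVal r k (List.replicate i false ++ [true]) = r ^ i := by
  unfold fldVal
  rw [Finset.sum_eq_single i]
  · have : bt (List.replicate i false ++ [true]) i = true := by
      simp [bt, List.getD_eq_getElem?_getD]
    simp [this, b2z]
  · intro t _ ht
    have : bt (List.replicate i false ++ [true]) t = false := by
      unfold bt
      rcases lt_or_gt_of_ne ht with h | h
      · rw [List.getD_append _ _ _ _ (by simpa using h)]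
        simp [List.getD_eq_getElem?_getD, h]
      · rw [List.getD_eq_default _ _ (by simp; omega)]
    simp [this, b2z]
  · intro h
    exact absurd (Finset.mem_range.2 hi) h

theorem fldVal_add (r : F) (c : Ctx) (a b : Fe) :
    fldVal r (fk c).length (fadd c a b) = fldVal r (fk c).length a + fldVal r (fk c).length b := by
  unfold fldVal
  rw [← Finset.sum_add_distrib]
  refine Finset.sum_congr rfl fun i hi => ?_
  rw [fadd, fld_bt_map _ _ _ (Finset.mem_range.1 hi), fld_b2z_xor, add_smul]

theorem fldVal_mulX (r : F) (c : Ctx) (hm : 0 < c.1.length)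
    (hr : r ^ (fk c).length = r ^ c.1.length + 1) (a : Fe) :
    fldVal r (fk c).length (mulX c a) = r * fldVal r (fk c).length a := by
  have hk : (fk c).length = c.1.length + c.1.length := by simp [fk]
  obtain ⟨n, hn⟩ : ∃ n, (fk c).length = n + 1 := ⟨(fk c).length - 1, by omega⟩
  have e1 : fldVal r (fk c).length (mulX c a) =
      ∑ i ∈ Finset.range (n + 1), b2z (decide (0 < i) && bt a (i - 1)) • r ^ i +
      ∑ i ∈ Finset.range (n + 1),
        b2z (bt a n && (decide (i = 0) || decide (i = c.1.length))) • r ^ i := by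
    unfold fldVal
    rw [← Finset.sum_add_distrib, ← hn]
    refine Finset.sum_congr rfl fun i hi => ?_
    rw [mulX, fld_bt_map _ _ _ (Finset.mem_range.1 hi), fld_b2z_xor, add_smul, hn]
    simp
  have e2 : ∑ i ∈ Finset.range (n + 1), b2z (decide (0 < i) && bt a (i - 1)) • r ^ i =
      r * ∑ i ∈ Finset.range n, b2z (bt a i) • r ^ i := by
    rw [Finset.sum_range_succ', Finset.mul_sum]
    simp [b2z, pow_succ']
  have e3 : ∑ i ∈ Finset.range (n + 1),
      b2z (bt a n && (decide (i = 0) || decide (i = c.1.length))) • r ^ i =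
      b2z (bt a n) • (r ^ c.1.length + 1) := by
    rw [Finset.sum_eq_add (c.1.length) 0 (by omega)]
    · simp [smul_add]
    · intro t _ ht
      simp [ht.1, ht.2, b2z]
    · intro h
      exact absurd (Finset.mem_range.2 (by omega)) h
    · intro h
      exact absurd (Finset.mem_range.2 (by omega)) h
  rw [e1, e2, e3, ← hr, hn, fldVal, Finset.sum_range_succ, mul_add, pow_succ', mul_smul_comm]

theorem fldVal_mul (r : F) (c : Ctx) (hm : 0 < c.1.length)
    (hr : r ^ (fk c).length = r ^ c.1.length + 1) (a b : Fe) :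
    fldVal r (fk c).length (fmul c a b) = fldVal r (fk c).length a * fldVal r (fk c).length b := by
  have key : ∀ (n : ℕ) (s : Fe), fldVal r (fk c).length ((List.range n).reverse.foldl
      (fun s i => fadd c (mulX c s) (if bt a i then b else [])) s) =
      r ^ n * fldVal r (fk c).length s + fldVal r n a * fldVal r (fk c).length b := by
    intro n
    induction n with
    | zero => intro s; simp [fldVal]
    | succ n ih =>
      intro s
      rw [List.range_succ, List.reverse_append, List.reverse_singleton, List.singleton_append,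
        List.foldl_cons, ih, fldVal_add, fldVal_mulX r c hm hr]
      have : fldVal r (n + 1) a = fldVal r n a + b2z (bt a n) • r ^ n := by
        rw [fldVal, Finset.sum_range_succ, fldVal]
      rw [this]
      cases bt a n
      · simp [b2z, fldVal_nil]
        ring
      · simp [b2z]
        ring
  have := key (fk c).length []
  rw [fldVal_nil, mul_zero, zero_add] at this
  exact this

theorem fldVal_pow (r : F) (c : Ctx) (hm : 0 < c.1.length)
    (hr : r ^ (fk c).length = r ^ c.1.length + 1) (a : Fe) :
    fldVal r (fk c).length (finv c a) =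
      (fldVal r (fk c).length a ^ 2) ^ (2 ^ ((fk c).length - 1) - 1) := by
  have hk : (fk c).length = c.1.length + c.1.length := by simp [fk]
  have key : ∀ (l : List Bool) (s : Fe × Fe),
      fldVal r (fk c).length (l.foldl (fun s _ => (fmul c s.1 s.1, fmul c s.2 s.1)) s).2 =
      fldVal r (fk c).length s.2 * fldVal r (fk c).length s.1 ^ (2 ^ l.length - 1) := by
    intro l
    induction l with
    | nil => intro s; simp
    | cons x l ih =>
      intro s
      rw [List.foldl_cons, ih, fldVal_mul r c hm hr, fldVal_mul r c hm hr, List.length_cons]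
      have h1 : 2 ^ (l.length + 1) - 1 = 1 + 2 * (2 ^ l.length - 1) := by
        have : 0 < 2 ^ l.length := by positivity
        rw [pow_succ]
        omega
      rw [h1]
      ring
  have h1 := fldVal_mono r (fk c).length 0 (by omega)
  simp only [List.replicate_zero, List.nil_append, pow_zero] at h1
  rw [finv, key, h1, fldVal_mul r c hm hr, List.length_tail, one_mul, sq]

theorem fld_inv {k : ℕ} (hk : 2 ≤ k) (B : Basis (Fin k) (ZMod 2) F) (x : F) :
    (x ^ 2) ^ (2 ^ (k - 1) - 1) = x⁻¹ := by
  have : Finite F := Finite.of_equiv _ B.equivFun.symm.toEquiv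
  have := Fintype.ofFinite F
  have hc : Fintype.card F = 2 ^ k := by
    rw [Fintype.card_congr B.equivFun.toEquiv]
    simp
  obtain ⟨n, rfl⟩ : ∃ n, k = n + 2 := ⟨k - 2, by omega⟩
  have hpos : 0 < 2 ^ n := by positivity
  by_cases hx : x = 0
  · subst hx
    rw [_root_.inv_zero, zero_pow two_ne_zero, zero_pow]
    rw [show n + 2 - 1 = n + 1 from rfl, pow_succ]
    omega
  · have h1 := FiniteField.pow_card_sub_one_eq_one x hx
    refine eq_inv_of_mul_eq_one_left ?_
    rw [← h1, hc, ← pow_mul, ← pow_succ]
    congr 1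
    rw [show n + 2 - 1 = n + 1 from rfl, pow_succ, pow_succ, pow_succ]
    omega

theorem fld_repr {k : ℕ} (r : F) (B : Basis (Fin k) (ZMod 2) F) (hB : ∀ i, B i = r ^ (i : ℕ))
    (a : Fe) (i : Fin k) : B.repr (fldVal r k a) i = b2z (bt a i) := by
  have : fldVal r k a = ∑ t : Fin k, b2z (bt a t) • B t := by
    rw [fldVal, Finset.sum_range]
    simp only [hB]
  rw [this, B.repr_sum_self]

theorem fld_eq_iff {k : ℕ} (r : F) (B : Basis (Fin k) (ZMod 2) F) (hB : ∀ i, B i = r ^ (i : ℕ))
    (a b : Fe) : fldVal r k a = fldVal r k b ↔ ∀ i, i < k → bt a i = bt b i := by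
  constructor
  · intro h i hi
    refine fld_b2z_inj ?_
    rw [← fld_repr r B hB a ⟨i, hi⟩, h, fld_repr r B hB b ⟨i, hi⟩]
  · intro h
    exact Finset.sum_congr rfl fun i hi => by rw [h i (Finset.mem_range.1 hi)]

/-- The coordinates of a vector. -/
noncomputable def fldCrd {k : ℕ} (B : Basis (Fin k) (ZMod 2) F) (n : ℕ) :
    (Fin n → F) →ₗ[ZMod 2] (Fin (n * k) → ZMod 2) where
  toFun v t := B.repr (v (finProdFinEquiv.symm t).1) (finProdFinEquiv.symm t).2
  map_add' v v' := by funext t; simp
  map_smul' a v := by funext t; simp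

theorem fldCrd_inj {k : ℕ} (B : Basis (Fin k) (ZMod 2) F) (n : ℕ) :
    Function.Injective (fldCrd B n) := by
  intro v v' h
  funext x
  refine B.ext_elem fun y => ?_
  have := congrFun h (finProdFinEquiv (x, y))
  simpa only [fldCrd, LinearMap.coe_mk, AddHom.coe_mk, Equiv.symm_apply_apply] using this

theorem fld_coords (c : Ctx) (r : F) (B : Basis (Fin (fk c).length) (ZMod 2) F)
    (hB : ∀ i, B i = r ^ (i : ℕ)) (w : Un) (v : List Fe) :
    H36.toV (w.length * (fk c).length) (coords c w v) =
      fldCrd B w.length (ev (fldVal r (fk c).length) w.length v) := by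
  funext t
  obtain ⟨⟨x, y⟩, rfl⟩ := finProdFinEquiv.surjective t
  simp only [fldCrd, LinearMap.coe_mk, AddHom.coe_mk, Equiv.symm_apply_apply, ev]
  rw [fld_repr r B hB]
  exact congrArg b2z
    (fld_getD_flat w.length (fk c).length (fun a i => bt (v.getD a []) i) x y x.2 y.2)

theorem fld_ev_map (c : Ctx) (r : F) (hm : 0 < c.1.length)
    (hr : r ^ (fk c).length = r ^ c.1.length + 1) (n : ℕ) (e : Fe) (v : List Fe) :
    ev (fldVal r (fk c).length) n (v.map (fmul c e)) =
      fldVal r (fk c).length e • ev (fldVal r (fk c).length) n v := by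
  funext a
  simp only [ev, gv, Pi.smul_apply, smul_eq_mul]
  by_cases h : (a : ℕ) < v.length
  · rw [List.getD_eq_getElem _ _ (by simpa using h), List.getD_eq_getElem _ _ h, List.getElem_map,
      fldVal_mul r c hm hr]
  · rw [List.getD_eq_default _ _ (by simpa using h), List.getD_eq_default _ _ (by simpa using h),
      fldVal_nil, mul_zero]

theorem fld_span {k : ℕ} (B : Basis (Fin k) (ZMod 2) F) {n : ℕ} (S : Set (Fin n → F)) :
    Submodule.span (ZMod 2) {u | ∃ x ∈ S, ∃ i, B i • x = u} =
      (Submodule.span F S).restrictScalars (ZMod 2) := by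
  apply le_antisymm
  · rw [Submodule.span_le]
    rintro u ⟨x, hx, i, rfl⟩
    exact Submodule.smul_mem (Submodule.span F S) _ (Submodule.subset_span hx)
  · intro u hu
    have key : ∀ a : F, a • u ∈ Submodule.span (ZMod 2) {u | ∃ x ∈ S, ∃ i, B i • x = u} := by
      have hu' : u ∈ Submodule.span F S := hu
      induction hu' using Submodule.span_induction with
      | mem x hx =>
        intro a
        rw [← B.sum_repr a, Finset.sum_smul]
        refine Submodule.sum_mem _ fun i _ => ?_
        rw [smul_assoc]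
        exact Submodule.smul_mem _ _ (Submodule.subset_span ⟨x, hx, i, rfl⟩)
      | zero => intro a; simp
      | add x y hx hy ihx ihy =>
        intro a
        rw [smul_add]
        exact Submodule.add_mem _ (ihx hx a) (ihy hy a)
      | smul b x hx ih =>
        intro a
        rw [smul_smul]
        exact ih hx _
    simpa using key 1

theorem fld_sp (c : Ctx) (r : F) (hm : 0 < c.1.length)
    (hr : r ^ (fk c).length = r ^ c.1.length + 1) (B : Basis (Fin (fk c).length) (ZMod 2) F)
    (hB : ∀ i, B i = r ^ (i : ℕ)) (w : Un) (vs : List (List Fe)) :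
    H36.sp (w.length * (fk c).length) ((blow c vs).map (coords c w)) =
      ((Submodule.span F {v | ∃ x ∈ vs, ev (fldVal r (fk c).length) w.length x = v}).restrictScalars
        (ZMod 2)).map (fldCrd B w.length) := by
  rw [← fld_span B, Submodule.map_span, H36.sp]
  congr 1
  ext t
  simp only [Set.mem_image, Set.mem_ofPred_eq, List.mem_map, blow, List.mem_flatMap, rg,
    List.mem_range]
  constructor
  · rintro ⟨_, ⟨_, ⟨v, hv, i, hi, rfl⟩, rfl⟩, rfl⟩
    refine ⟨_, ⟨_, ⟨v, hv, rfl⟩, ⟨i, hi⟩, rfl⟩, ?_⟩
    rw [fld_coords c r B hB, fld_ev_map c r hm hr, fldVal_mono r _ i hi, hB]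
  · rintro ⟨_, ⟨_, ⟨v, hv, rfl⟩, i, rfl⟩, rfl⟩
    refine ⟨_, ⟨_, ⟨v, hv, i, i.2, rfl⟩, rfl⟩, ?_⟩
    rw [fld_coords c r B hB, fld_ev_map c r hm hr, fldVal_mono r _ i i.2, hB]

theorem fld_finrank {k : ℕ} (B : Basis (Fin k) (ZMod 2) F) {n : ℕ} (W : Submodule F (Fin n → F)) :
    finrank (ZMod 2) ((W.restrictScalars (ZMod 2)).map (fldCrd B n)) = k * finrank F W := by
  rw [← (Submodule.equivMapOfInjective _ (fldCrd_inj B n) _).finrank_eq]
  have h1 : finrank (ZMod 2) (W.restrictScalars (ZMod 2)) = finrank (ZMod 2) W := rfl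
  rw [h1, ← Module.finrank_mul_finrank (ZMod 2) F W, finrank_eq_card_basis B, Fintype.card_fin]

end Sem

theorem exists_sem (c : Ctx) (j : ℕ) (h1 : c.1.length = 3 ^ j) (h2 : c.2.length ≤ 2 ^ (2 * 3 ^ j)) :
    ∃ (F : Type) (_ : Field F) (_ : CharP F 2) (θ : Fe → F), Sem c θ := by
  have hm : 0 < c.1.length := by rw [h1]; positivity
  have hk : (fk c).length = c.1.length + c.1.length := by simp [fk]
  obtain ⟨F, _, _, r, B, hB, hr⟩ := fld_exists j (fk c).length (by rw [hk, h1])
  rw [← h1] at hr h2
  have := charP_of_injective_algebraMap (algebraMap (ZMod 2) F).injective 2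
  refine ⟨F, inferInstance, inferInstance, fldVal r (fk c).length, ?_⟩
  refine ⟨fldVal_nil _ _, ?_, fldVal_add r c, fldVal_mul r c hm hr, fun a => ?_, fun a b => ?_,
    fun i i' hi hi' h => ?_, fun w vs => ?_, fun w => ?_⟩
  · simpa using fldVal_mono r (fk c).length 0 (by omega)
  · rw [fldVal_pow r c hm hr, fld_inv (by omega) B]
  · rw [fld_eq_iff r B hB]
    simp [feq, rg]
  · rw [fld_eq_iff r B hB] at h
    refine Nat.eq_of_testBit_eq fun t => ?_
    by_cases ht : t < (fk c).length
    · have := h t ht
      rw [Nat.testBit_eq_inth, Nat.testBit_eq_inth]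
      exact this
    · have h3 : 2 ^ (2 * c.1.length) ≤ 2 ^ t := Nat.pow_le_pow_right two_pos (by omega)
      rw [Nat.testBit_lt_two_pow (by omega), Nat.testBit_lt_two_pow (by omega)]
  · rw [rkF, H36.rk_eq, fld_sp c r hm hr B hB, H36.dm, fld_finrank,
      Nat.mul_div_cancel_left _ (by omega)]
  · refine ⟨(fldCrd B w.length).toAddMonoidHom, fldCrd_inj B _, fld_coords c r B hB w,
      fun vs u => ?_⟩
    rw [fld_sp c r hm hr B hB]
    constructor
    · intro h
      exact Submodule.mem_map_of_mem h
    · intro h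
      obtain ⟨u', hu', e⟩ := Submodule.mem_map.1 h
      rw [← fldCrd_inj B _ e]
      exact hu'

end Pool.Agent.MP_bae0ed_lc.H52
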