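import Pool.Agent.MP_bae0ed_lc.H52.Lapl

/-!
Generic points of lines of evaluations and the counting lemmas for contractions.
-/

set_option autoImplicit false
set_option linter.unusedSectionVars false

namespace Pool.Agent.MP_bae0ed_lc.H52

open Finset Matrix Function Module Gr

variable {V V' : Type} [DecidableEq V] [DecidableEq V'] [Fintype V] [Fintype V']
variable {F : Type} [Field F] [CharP F 2]

theorem Gen.mono {X : Gr V} {p d : V → F} {k k' : ℕ} (h : Gen X p d k) (hk : k' ≤ k) :
    Gen X p d k' := by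
  obtain ⟨B, h1, h2⟩ := h
  exact ⟨B, h1, fun t ht hp => hk.trans (h2 t ht hp)⟩

/-! Auxiliary linear algebra. -/

section Aux

variable {J : Type} [DecidableEq J] [Fintype J]

/-- Vectors supported on `S`. -/
def pcSup (F : Type) [Field F] (S : Finset J) : Submodule F (J → F) where
  carrier := {v | ∀ j, j ∉ S → v j = 0}
  add_mem' := by
    intro v w h1 h2 j hj
    simp [h1 j hj, h2 j hj]
  zero_mem' := by simp
  smul_mem' := by
    intro c v h j hj
    simp [h j hj]

theorem pc_mem_sup {S : Finset J} {v : J → F} : v ∈ pcSup F S ↔ ∀ j, j ∉ S → v j = 0 := Iff.rfl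

theorem pc_finrank_sup (S : Finset J) : finrank F (pcSup F S) = S.card := by
  have h1 : pcSup F S = LinearMap.ker (LinearMap.funLeft F F (Subtype.val : {j // j ∉ S} → J)) := by
    ext v
    simp only [pc_mem_sup, LinearMap.mem_ker, funext_iff, LinearMap.funLeft_apply, Pi.zero_apply,
      Subtype.forall]
  have h2 := LinearMap.finrank_range_add_finrank_ker
    (LinearMap.funLeft F F (Subtype.val : {j // j ∉ S} → J))
  rw [LinearMap.range_eq_top.2 (LinearMap.funLeft_surjective_of_injective F F _
    Subtype.val_injective), finrank_top, finrank_fintype_fun_eq_card, finrank_fintype_fun_eq_card,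
    Fintype.card_subtype_compl, Fintype.card_coe, ← h1] at h2
  have := S.card_le_univ
  omega

theorem pc_finrank_split {U U' : Type} [AddCommGroup U] [Module F U] [FiniteDimensional F U]
    [AddCommGroup U'] [Module F U'] (f : U →ₗ[F] U') (K : Submodule F U) :
    finrank F K = finrank F (K.map f) + finrank F (K ⊓ LinearMap.ker f : Submodule F U) := by
  have h := LinearMap.finrank_range_add_finrank_ker (f.domRestrict K)
  rw [LinearMap.range_domRestrict, LinearMap.ker_domRestrict,
    ← Submodule.finrank_map_subtype_eq K, Submodule.map_comap_subtype] at h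
  exact h.symm

/-- Vectors supported on `S` with vanishing sum. -/
def pcSup0 (F : Type) [Field F] (S : Finset J) : Submodule F (J → F) :=
  pcSup F S ⊓ LinearMap.ker (∑ j ∈ S, LinearMap.proj j : (J → F) →ₗ[F] F)

theorem pc_mem_sup0 {S : Finset J} {v : J → F} :
    v ∈ pcSup0 F S ↔ (∀ j, j ∉ S → v j = 0) ∧ ∑ j ∈ S, v j = 0 := by
  simp [pcSup0, pc_mem_sup, LinearMap.sum_apply]

theorem pc_finrank_sup0 {S : Finset J} (hS : S.Nonempty) :
    finrank F (pcSup0 F S) + 1 ≤ S.card := by
  rw [← pc_finrank_sup (F := F) S]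
  apply Submodule.finrank_lt_finrank_of_lt
  refine lt_of_le_of_ne inf_le_left fun h => ?_
  obtain ⟨j, hj⟩ := hS
  have h1 : (Pi.single j 1 : J → F) ∈ pcSup F S := by
    intro i hi
    exact Pi.single_eq_of_ne (fun e : i = j => hi (e ▸ hj)) _
  rw [← h, pc_mem_sup0] at h1
  have h2 := h1.2
  rw [Finset.sum_pi_single', if_pos hj] at h2
  exact one_ne_zero h2

theorem pc_pencil (A M : (J → F) →ₗ[F] (J → F)) (H W : Submodule F (J → F)) (S : Finset F)
    (hS : ∀ μ ∈ S, μ ≠ 0)
    (hW1 : ∀ v ∈ W, M v = 0) (hW2 : ∀ v ∈ W, A v = 0 → v = 0) (hW3 : ∀ v ∈ W, A v ∈ H)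
    (hH : ∀ μ ∈ S, ∀ v, (A + μ • M) v = 0 → M v ∈ H) :
    ∑ μ ∈ S, (finrank F (LinearMap.ker (A + μ • M)) - finrank F (LinearMap.ker A))
      + finrank F W ≤ finrank F H := by
  have hr : ∀ T : (J → F) →ₗ[F] (J → F),
      (LinearMap.toMatrix' T).rank + finrank F (LinearMap.ker T) = Fintype.card J := by
    intro T
    have h1 : (LinearMap.toMatrix' T).mulVecLin = T := by
      rw [← Matrix.toLin'_apply', Matrix.toLin'_toMatrix']
    rw [Matrix.rank, h1, LinearMap.finrank_range_add_finrank_ker, finrank_fintype_fun_eq_card]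
  have he : ∀ μ : F, LinearMap.toMatrix' A + μ • LinearMap.toMatrix' M =
      LinearMap.toMatrix' (A + μ • M) := by
    intro μ; rw [map_add, map_smul]
  have := pencil (LinearMap.toMatrix' A) (LinearMap.toMatrix' M) H W S hS
    (by simpa only [LinearMap.toMatrix'_mulVec] using hW1)
    (by simpa only [LinearMap.toMatrix'_mulVec] using hW2)
    (by simpa only [LinearMap.toMatrix'_mulVec] using hW3)
    (by simpa only [he, LinearMap.toMatrix'_mulVec] using hH)
  refine le_trans (Nat.add_le_add_right (le_of_eq (Finset.sum_congr rfl fun μ _ => ?_)) _) this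
  rw [he]
  have h1 := hr A
  have h2 := hr (A + μ • M)
  omega

theorem pc_sum_symm (R : V → V → F) (h1 : ∀ a b, R a b = R b a) (h2 : ∀ a, R a a = 0) :
    ∑ a, ∑ b, R a b = 0 := by
  rw [← Finset.sum_product']
  refine Finset.sum_involution (fun p _ => p.swap) (fun p _ => ?_) (fun p _ h => ?_)
    (fun p _ => by simp) (fun p _ => by simp)
  · simp only [Prod.fst_swap, Prod.snd_swap, h1 p.2 p.1, CharTwo.add_self_eq_zero]
  · intro e
    have : p.2 = p.1 := congrArg Prod.fst e
    simp [this, h2] at h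

end Aux

/-! The bordered pencil. -/

/-- A ranking of the vertices. -/
noncomputable def pcT (a : V) : Fin (Fintype.card V) := Fintype.equivFin V a

theorem pcT_inj {a b : V} (h : pcT a = pcT b) : a = b := (Fintype.equivFin V).injective h

/-- The bordered map. -/
noncomputable def pcA (X : Gr V) (p : V → F) :
    (V ⊕ V × V → F) →ₗ[F] (V ⊕ V × V → F) where
  toFun v := Sum.elim (fun a => ∑ b, cz F (X.adj a b) * v (Sum.inr (a, b)))
    (fun i => if pcT i.2 < pcT i.1 then v (Sum.inr i) + v (Sum.inr i.swap)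
      else if X.adj i.1 i.2 = 1 then
        v (Sum.inl i.1) + v (Sum.inl i.2) + (p i.1 + p i.2) * v (Sum.inr i)
      else v (Sum.inr i))
  map_add' v w := by
    ext (a | i)
    · simp [mul_add, Finset.sum_add_distrib]
    · simp only [Sum.elim_inr, Pi.add_apply]
      split_ifs <;> ring
  map_smul' c v := by
    ext (a | i)
    · simp [Finset.mul_sum, mul_left_comm]
    · simp only [Sum.elim_inr, Pi.smul_apply, smul_eq_mul, RingHom.id_apply]
      split_ifs <;> ring

/-- The linear part of the bordered map. -/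
noncomputable def pcN (X : Gr V) (d : V → F) :
    (V ⊕ V × V → F) →ₗ[F] (V ⊕ V × V → F) where
  toFun v := Sum.elim (fun _ => 0)
    (fun i => if pcT i.2 < pcT i.1 then 0
      else if X.adj i.1 i.2 = 1 then (d i.1 + d i.2) * v (Sum.inr i) else 0)
  map_add' v w := by
    ext (a | i)
    · simp
    · simp only [Sum.elim_inr, Pi.add_apply]
      split_ifs <;> ring
  map_smul' c v := by
    ext (a | i)
    · simp
    · simp only [Sum.elim_inr, Pi.smul_apply, smul_eq_mul, RingHom.id_apply]
      split_ifs <;> ring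

theorem pcA_inl (X : Gr V) (p : V → F) (v : V ⊕ V × V → F) (a : V) :
    pcA X p v (Sum.inl a) = ∑ b, cz F (X.adj a b) * v (Sum.inr (a, b)) := rfl

theorem pcA_inr (X : Gr V) (p : V → F) (v : V ⊕ V × V → F) (a b : V) :
    pcA X p v (Sum.inr (a, b)) = if pcT b < pcT a then v (Sum.inr (a, b)) + v (Sum.inr (b, a))
      else if X.adj a b = 1 then
        v (Sum.inl a) + v (Sum.inl b) + (p a + p b) * v (Sum.inr (a, b))
      else v (Sum.inr (a, b)) := rfl

theorem pcN_inl (X : Gr V) (d : V → F) (v : V ⊕ V × V → F) (a : V) :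
    pcN X d v (Sum.inl a) = 0 := rfl

theorem pcN_inr (X : Gr V) (d : V → F) (v : V ⊕ V × V → F) (a b : V) :
    pcN X d v (Sum.inr (a, b)) = if pcT b < pcT a then 0
      else if X.adj a b = 1 then (d a + d b) * v (Sum.inr (a, b)) else 0 := rfl

theorem pcA_add (X : Gr V) (p d : V → F) (t : F) : pcA X p + t • pcN X d = pcA X (p + t • d) := by
  refine LinearMap.ext fun v => ?_
  ext (a | ⟨a, b⟩)
  · simp [pcA_inl, pcN_inl]
  · simp only [LinearMap.add_apply, LinearMap.smul_apply, Pi.add_apply, Pi.smul_apply, pcA_inr,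
      pcN_inr, smul_eq_mul]
    split_ifs <;> ring

theorem pcN_add (X : Gr V) (d d' : V → F) (v : V ⊕ V × V → F) :
    pcN X (d + d') v = pcN X d v + pcN X d' v := by
  ext (a | ⟨a, b⟩)
  · simp [pcN_inl]
  · simp only [Pi.add_apply, pcN_inr]
    split_ifs <;> ring

theorem pcA_eq_zero (X : Gr V) (p : V → F) (v : V ⊕ V × V → F) :
    pcA X p v = 0 ↔ (∀ a, ∑ b, cz F (X.adj a b) * v (Sum.inr (a, b)) = 0) ∧
      (∀ a b, v (Sum.inr (a, b)) = v (Sum.inr (b, a))) ∧
      (∀ a b, X.adj a b = 1 →
        v (Sum.inl a) + v (Sum.inl b) = (p a + p b) * v (Sum.inr (a, b))) ∧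
      (∀ a b, X.adj a b = 0 → v (Sum.inr (a, b)) = 0) := by
  have two : (2 : F) = 0 := CharTwo.two_eq_zero
  constructor
  · intro h
    have h0 : ∀ a b, pcA X p v (Sum.inr (a, b)) = 0 := fun a b => by rw [h]; rfl
    have hs : ∀ a b, v (Sum.inr (a, b)) = v (Sum.inr (b, a)) := by
      intro a b
      rcases lt_trichotomy (pcT a) (pcT b) with h1 | h1 | h1
      · have := h0 b a
        rw [pcA_inr, if_pos h1] at this
        linear_combination this - v (Sum.inr (b, a)) * two
      · rw [pcT_inj h1]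
      · have := h0 a b
        rw [pcA_inr, if_pos h1] at this
        linear_combination this - v (Sum.inr (b, a)) * two
    refine ⟨fun a => by rw [← pcA_inl X p, h]; rfl, hs, fun a b hab => ?_, fun a b hab => ?_⟩
    · by_cases h1 : pcT b < pcT a
      · have := h0 b a
        rw [pcA_inr, if_neg (not_lt.2 h1.le), if_pos (by rw [X.symm]; exact hab), hs b a] at this
        linear_combination this - (p a + p b) * v (Sum.inr (a, b)) * two
      · have := h0 a b
        rw [pcA_inr, if_neg h1, if_pos hab] at this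
        linear_combination this - (p a + p b) * v (Sum.inr (a, b)) * two
    · by_cases h1 : pcT b < pcT a
      · have := h0 b a
        rwa [pcA_inr, if_neg (not_lt.2 h1.le), if_neg (by rw [X.symm, hab]; exact zero_ne_one),
          hs b a] at this
      · have := h0 a b
        rwa [pcA_inr, if_neg h1, if_neg (by rw [hab]; exact zero_ne_one)] at this
  · rintro ⟨h1, h2, h3, h4⟩
    ext (a | ⟨a, b⟩)
    · exact h1 a
    · rw [pcA_inr, Pi.zero_apply]
      split_ifs with c1 c2
      · rw [h2 a b, CharTwo.add_self_eq_zero]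
      · rw [h3 a b c2, CharTwo.add_self_eq_zero]
      · exact h4 a b (z2_ne_one.1 c2)

/-- The nullity of the bordered map. -/
noncomputable def pcNul (X : Gr V) (p : V → F) : ℕ := finrank F (LinearMap.ker (pcA X p))

theorem pc_pmT (φ : V → V') (y : V' → F) : (pm F φ)ᵀ *ᵥ y = y ∘ φ := by
  ext a
  simp [pm, Matrix.mulVec, dotProduct]

theorem pc_pm (φ : V → V') (z : V → F) (c : V') :
    (pm F φ *ᵥ z) c = ∑ a, if φ a = c then z a else 0 := by
  simp [pm, Matrix.mulVec, dotProduct]

theorem pc_push_mulVec (φ : V → V') (X : Gr V) (p y : V' → F) (c : V') :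
    (Lap (X.push φ) p *ᵥ y) c = ∑ a, if φ a = c then (Lap X (p ∘ φ) *ᵥ (y ∘ φ)) a else 0 := by
  rw [Lap_push, ← Matrix.mulVec_mulVec, ← Matrix.mulVec_mulVec, pc_pmT, pc_pm]

/-- The rank of the bordered map at a point where a star forest is collided. -/
theorem pc_SP {X : Gr V} {p : V → F} {φ : V → V} (hφ : ∀ a, φ (φ a) = φ a)
    (hsp : ∀ a b, X.adj a b = 1 → p (φ a) = p (φ b) → φ a = b ∨ φ b = a)
    (hed : ∀ a, φ a ≠ a → X.adj a (φ a) = 1) :
    pcNul X (p ∘ φ) + (univ.filter fun a => φ a ≠ a).card + rk (X.push φ) p = Fintype.card V := by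
  let _ : DecidableEq F := Classical.decEq F
  have two : (2 : F) = 0 := CharTwo.two_eq_zero
  set q : V → F := p ∘ φ with hq
  have hqφ : ∀ a, q (φ a) = q a := fun a => by simp [hq, hφ]
  have hsp' : ∀ a b, X.adj a b = 1 → q a = q b → φ a = b ∨ φ b = a := hsp
  have hsame : ∀ a b, X.adj a b = 1 → q a = q b → φ a = φ b := by
    intro a b h1 h2
    rcases hsp' a b h1 h2 with h | h
    · rw [← h, hφ]
    · rw [← h, hφ]
  have honly : ∀ a b, φ a ≠ a → X.adj a b = 1 → q a = q b → b = φ a := by
    intro a b h0 h1 h2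
    rcases hsp' a b h1 h2 with h | h
    · exact h.symm
    · exact absurd (by rw [← h, hφ]) h0
  have c1 : cz F 1 = 1 := map_one _
  have c0 : cz F 0 = 0 := map_zero _
  let π : (V ⊕ V × V → F) →ₗ[F] (V → F) := LinearMap.funLeft F F Sum.inl
  let Φ : (V → F) →ₗ[F] (V → F) := LinearMap.funLeft F F φ
  let K := LinearMap.ker (pcA X q)
  let K' := LinearMap.ker (Lap (X.push φ) p).mulVecLin
  have e1 : K ⊓ LinearMap.ker π = ⊥ := by
    rw [eq_bot_iff]
    rintro v ⟨hv, hx⟩
    obtain ⟨h1, h2, h3, h4⟩ := (pcA_eq_zero X q v).1 hv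
    have hx' : ∀ a, v (Sum.inl a) = 0 := fun a => congrFun hx a
    have h5 : ∀ a b, X.adj a b = 1 → q a ≠ q b → v (Sum.inr (a, b)) = 0 := by
      intro a b hab hne
      have := h3 a b hab
      rw [hx', hx', add_zero] at this
      rcases mul_eq_zero.1 this.symm with h | h
      · exact absurd (by linear_combination h - q b * two) hne
      · exact h
    have h6 : ∀ a, φ a ≠ a → v (Sum.inr (a, φ a)) = 0 := by
      intro a ha
      have := h1 a
      rw [Finset.sum_eq_single (φ a), hed a ha, c1, one_mul] at this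
      · exact this
      · intro b _ hb
        rcases z2 (X.adj a b) with h | h
        · rw [h, c0, zero_mul]
        · rw [h5 a b h (fun e => hb (honly a b ha h e)), mul_zero]
      · simp
    rw [Submodule.mem_bot]
    ext (a | ⟨a, b⟩)
    · exact hx' a
    · rw [Pi.zero_apply]
      rcases z2 (X.adj a b) with h | h
      · exact h4 a b h
      by_cases hne : q a = q b
      · rcases hsp' a b h hne with e | e
        · have := h6 a (by rw [e]; exact (ne_of_adj h).symm)
          rwa [e] at this
        · have := h6 b (by rw [e]; exact ne_of_adj h)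
          rwa [e, h2] at this
      · exact h5 a b h hne
  have e2 : K' ⊓ LinearMap.ker Φ = pcSup F (univ.filter fun a => φ a ≠ a) := by
    ext y
    simp only [Submodule.mem_inf, pc_mem_sup, mem_filter, mem_univ, true_and, not_not]
    constructor
    · rintro ⟨_, h⟩ a ha
      have : y (φ a) = 0 := congrFun h a
      rwa [ha] at this
    · intro h
      have h0 : y ∘ φ = 0 := funext fun a => h _ (hφ a)
      refine ⟨?_, h0⟩
      ext c
      rw [Matrix.mulVecLin_apply, pc_push_mulVec, h0]
      simp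
  have e3 : K.map π = K'.map Φ := by
    apply le_antisymm
    · rintro _ ⟨v, hv, rfl⟩
      obtain ⟨h1, h2, h3, h4⟩ := (pcA_eq_zero X q v).1 hv
      have hx : (π v) ∘ φ = π v := by
        ext a
        show v (Sum.inl (φ a)) = v (Sum.inl a)
        by_cases ha : φ a = a
        · rw [ha]
        · have := h3 a (φ a) (hed a ha)
          rw [hqφ, CharTwo.add_self_eq_zero, zero_mul] at this
          linear_combination this - v (Sum.inl a) * two
      refine ⟨π v, ?_, hx⟩
      ext c
      rw [Matrix.mulVecLin_apply, pc_push_mulVec, hx, Pi.zero_apply]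
      have h5 : ∀ a, (Lap X q *ᵥ π v) a =
          ∑ b, if q a = q b then cz F (X.adj a b) * v (Sum.inr (a, b)) else 0 := by
        intro a
        have h7 : (∑ b, if q a = q b then cz F (X.adj a b) * v (Sum.inr (a, b)) else 0) =
            (∑ b, if q a = q b then cz F (X.adj a b) * v (Sum.inr (a, b)) else 0) +
              ∑ b, cz F (X.adj a b) * v (Sum.inr (a, b)) := by rw [h1 a, add_zero]
        rw [Lap_mulVec, h7, ← Finset.sum_add_distrib]
        refine Finset.sum_congr rfl fun b _ => ?_
        show _ * (v (Sum.inl a) + v (Sum.inl b)) = _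
        rcases z2 (X.adj a b) with h | h
        · simp [h, c0]
        rw [h3 a b h, h, c1]
        split_ifs with hh
        · rw [hh, CharTwo.add_self_eq_zero, CharTwo.add_self_eq_zero]; simp
        · have : q a + q b ≠ 0 := fun e => hh (by linear_combination e - q b * two)
          field_simp
          ring
      have h6 : ∀ a, (if φ a = c then (Lap X q *ᵥ π v) a else 0) =
          ∑ b, if φ a = c ∧ q a = q b then cz F (X.adj a b) * v (Sum.inr (a, b)) else 0 := by
        intro a
        rw [h5]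
        by_cases ha : φ a = c <;> simp [ha]
      rw [Finset.sum_congr rfl fun a _ => h6 a]
      apply pc_sum_symm
      · intro a b
        rcases z2 (X.adj a b) with h | h
        · rw [X.symm b a, h, c0]; simp
        rw [X.symm b a, h2 b a]
        by_cases hh : q a = q b
        · rw [hsame a b h hh, hh]
        · rw [if_neg (fun e => hh e.2), if_neg (fun e => hh e.2.symm)]
      · intro a
        rw [X.irr, c0]; simp
    · rintro _ ⟨y, hy, rfl⟩
      set x : V → F := y ∘ φ with hx
      have hy' : ∀ c, (∑ a, if φ a = c then (Lap X q *ᵥ x) a else 0) = 0 := by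
        intro c
        rw [← pc_push_mulVec]
        exact congrFun hy c
      let g : V → F := fun a => if φ a = a then 0 else (Lap X q *ᵥ x) a
      let G : V × V → F := fun i => if X.adj i.1 i.2 = 1 then
        (if q i.1 = q i.2 then g i.1 + g i.2 else (q i.1 + q i.2)⁻¹ * (x i.1 + x i.2)) else 0
      refine ⟨Sum.elim x G, (pcA_eq_zero X q _).2 ⟨fun a => ?_, fun a b => ?_, fun a b h => ?_,
        fun a b h => ?_⟩, rfl⟩
      · have h5 : ∀ b, cz F (X.adj a b) * Sum.elim x G (Sum.inr (a, b)) =
            cz F (X.adj a b) * (q a + q b)⁻¹ * (x a + x b) +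
              if X.adj a b = 1 ∧ q a = q b then g a + g b else 0 := by
          intro b
          simp only [Sum.elim_inr, G]
          rcases z2 (X.adj a b) with h | h
          · simp [h, c0]
          by_cases hh : q a = q b
          · simp [h, c1, hh, CharTwo.add_self_eq_zero]
          · simp [h, c1, hh]
        rw [Finset.sum_congr rfl fun b _ => h5 b, Finset.sum_add_distrib, ← Lap_mulVec]
        have h6 : (∑ b, if X.adj a b = 1 ∧ q a = q b then g a + g b else 0) =
            (Lap X q *ᵥ x) a := by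
          by_cases ha : φ a = a
          · have h7 : ∀ b, (if X.adj a b = 1 ∧ q a = q b then g a + g b else 0) =
                (if φ b = a then (Lap X q *ᵥ x) b else 0) +
                  if b = a then (Lap X q *ᵥ x) a else 0 := by
              intro b
              by_cases hba : b = a
              · subst hba
                simp [X.irr, ha, CharTwo.add_self_eq_zero]
              by_cases hb : φ b = a
              · have h8 : φ b ≠ b := by rw [hb]; exact fun e => hba e.symm
                have h9 := hed b h8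
                rw [hb, X.symm] at h9
                have h10 : q a = q b := by rw [← hb, hqφ]
                simp [h9, h10, g, ha, hb, hba, Ne.symm hba]
              · rw [if_neg, if_neg hb, if_neg hba, add_zero]
                rintro ⟨h8, h9⟩
                rcases hsp' a b h8 h9 with e | e
                · exact hba (by rw [← e, ha])
                · exact hb e
            rw [Finset.sum_congr rfl fun b _ => h7 b, Finset.sum_add_distrib, hy' a]
            simp
          · rw [Finset.sum_eq_single (φ a), if_pos ⟨hed a ha, (hqφ a).symm⟩]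
            · simp [g, ha, hφ]
            · intro b _ hb
              exact if_neg fun e => hb (honly a b ha e.1 e.2)
            · simp
        rw [h6, CharTwo.add_self_eq_zero]
      · simp only [Sum.elim_inr, G]
        rw [X.symm b a, add_comm (g b), add_comm (q b), add_comm (x b)]
        simp only [eq_comm (a := q b)]
      · simp only [Sum.elim_inr, Sum.elim_inl, G, if_pos h]
        split_ifs with hh
        · rw [hh, CharTwo.add_self_eq_zero, zero_mul]
          simp only [hx, Function.comp_apply, hsame a b h hh, CharTwo.add_self_eq_zero]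
        · have : q a + q b ≠ 0 := fun e => hh (by linear_combination e - q b * two)
          field_simp
      · simp [G, h]
  have f1 := pc_finrank_split π K
  have f2 := pc_finrank_split Φ K'
  rw [e1, finrank_bot, e3] at f1
  rw [e2, pc_finrank_sup] at f2
  have f3 := LinearMap.finrank_range_add_finrank_ker (Lap (X.push φ) p).mulVecLin
  rw [finrank_fintype_fun_eq_card] at f3
  have f4 : rk (X.push φ) p = finrank F (LinearMap.range (Lap (X.push φ) p).mulVecLin) := rfl
  have f5 : pcNul X q = finrank F K := rfl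
  have f6 : finrank F K' = finrank F (LinearMap.ker (Lap (X.push φ) p).mulVecLin) := rfl
  omega

theorem pc_proper {X : Gr V} {p : V → F} (hp : Proper X p) :
    pcNul X p + rk X p = Fintype.card V := by
  have := pc_SP (X := X) (p := p) (φ := id) (fun _ => rfl)
    (fun a b h e => absurd e (hp a b h)) (fun a h => absurd rfl h)
  simpa using this

theorem pc_proper_push {X : Gr V} {p : V → F} {φ : V → V} (hφ : ∀ a, φ (φ a) = φ a)
    (hsp : ∀ a b, X.adj a b = 1 → p (φ a) = p (φ b) → φ a = b ∨ φ b = a) :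
    Proper (X.push φ) p := by
  intro y y' h e
  obtain ⟨a, b, rfl, rfl, hab⟩ := exists_of_push_adj h
  apply ne_of_adj h
  rcases hsp a b hab e with h1 | h1
  · rw [← h1, hφ]
  · rw [← h1, hφ]

theorem pc_few (R : V → V → Prop) {p d : V → F} {t0 : F}
    (h : ∀ a b, R a b → (p + t0 • d) a ≠ (p + t0 • d) b) :
    ∃ B : Finset F, B.card ≤ Fintype.card V ^ 2 ∧
      ∀ t, t ∉ B → ∀ a b, R a b → (p + t • d) a ≠ (p + t • d) b := by
  let _ : DecidableEq F := Classical.decEq F
  refine ⟨univ.image fun i : V × V => (p i.1 - p i.2) / (d i.2 - d i.1), ?_, ?_⟩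
  · refine card_image_le.trans ?_
    rw [card_univ, Fintype.card_prod, sq]
  · intro t ht a b hab e
    simp only [Pi.add_apply, Pi.smul_apply, smul_eq_mul] at e h
    by_cases hd : d b - d a = 0
    · exact h a b hab (by linear_combination e + (t - t0) * hd)
    · apply ht
      refine mem_image.2 ⟨(a, b), mem_univ _, ?_⟩
      rw [div_eq_iff hd]
      linear_combination e

theorem pc_gen (X : Gr V) (p d : V → F) (t0 : F) :
    ∃ B : Finset F, B.card ≤ Fintype.card V ^ 2 ∧
      ∀ t, t ∉ B → pcNul X (p + t • d) ≤ pcNul X (p + t0 • d) := by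
  let _ : DecidableEq F := Classical.decEq F
  have key : ∀ S : Finset F, (∀ t ∈ S, pcNul X (p + t0 • d) < pcNul X (p + t • d)) →
      S.card ≤ Fintype.card V ^ 2 := by
    intro S hS
    have h := pc_pencil (pcA X (p + t0 • d)) (pcN X d)
      (pcSup F (univ.map ⟨Sum.inr, Sum.inr_injective⟩)) ⊥ (S.image fun t => t - t0)
      (by
        intro μ hμ h0
        obtain ⟨t, ht, rfl⟩ := mem_image.1 hμ
        have := hS t ht
        rw [sub_eq_zero.1 h0] at this
        exact lt_irrefl _ this)
      (by intro v hv; rw [(Submodule.mem_bot F).1 hv, map_zero])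
      (by intro v hv _; exact (Submodule.mem_bot F).1 hv)
      (by intro v hv; rw [(Submodule.mem_bot F).1 hv, map_zero]; exact Submodule.zero_mem _)
      (by
        intro μ _ v _
        rintro (a | i) hj
        · rfl
        · simp at hj)
    rw [pc_finrank_sup, finrank_bot, add_zero, card_map, card_univ, Fintype.card_prod, ← sq,
      Finset.sum_image (fun a _ b _ e => sub_left_injective e)] at h
    refine le_trans ?_ h
    rw [card_eq_sum_ones]
    refine Finset.sum_le_sum fun t ht => ?_
    have h1 := hS t ht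
    have h2 : p + t0 • d + (t - t0) • d = p + t • d := by
      rw [add_assoc, ← add_smul, add_sub_cancel]
    rw [pcA_add, h2]
    unfold pcNul at h1
    omega
  have hfin : {t : F | pcNul X (p + t0 • d) < pcNul X (p + t • d)}.Finite := by
    by_contra hinf
    obtain ⟨S, h1, h2⟩ := Set.Infinite.exists_subset_card_eq hinf (Fintype.card V ^ 2 + 1)
    have := key S fun t ht => h1 ht
    omega
  refine ⟨hfin.toFinset, key _ fun t ht => by simpa using ht, fun t ht => ?_⟩
  simpa using ht

theorem pc_update (p : V → F) (u w : V) :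
    p + (p u + p w) • (Pi.single u 1 : V → F) = p ∘ update id u w := by
  have two : (2 : F) = 0 := CharTwo.two_eq_zero
  ext a
  by_cases ha : a = u
  · subst ha
    simp only [Pi.add_apply, Pi.smul_apply, Pi.single_eq_same, smul_eq_mul, Function.comp_apply,
      update_self]
    linear_combination p a * two
  · simp [ha]

theorem pc_idem {u w : V} (huw : u ≠ w) (a : V) :
    update id u w (update id u w a) = update id u w a := by
  by_cases ha : a = u
  · subst ha
    simp [Ne.symm huw]
  · simp [ha]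

theorem pc_card1 {u w : V} (huw : u ≠ w) :
    (univ.filter fun a => update id u w a ≠ a).card = 1 := by
  rw [card_eq_one]
  refine ⟨u, ?_⟩
  ext a
  by_cases ha : a = u
  · subst ha
    simp [Ne.symm huw]
  · simp [ha]

/-- The oriented copy of a pair. -/
noncomputable def pcO (a b : V) : V ⊕ V × V :=
  if pcT b < pcT a then Sum.inr (b, a) else Sum.inr (a, b)

/-- The oriented edges at `u`. -/
noncomputable def pcE (X : Gr V) (u : V) : Finset (V ⊕ V × V) := (X.nbr u).image (pcO u)

theorem pcO_inj (u : V) {b c : V} (h : pcO u b = pcO u c) : b = c := by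
  unfold pcO at h
  split_ifs at h <;> simp only [Sum.inr.injEq, Prod.mk.injEq] at h
  · exact h.1
  · rw [h.1, h.2]
  · rw [← h.1, h.2]
  · exact h.2

theorem pcE_card (X : Gr V) (u : V) : (pcE X u).card ≤ (X.nbr u).card := card_image_le

theorem pcE_nonempty {X : Gr V} {u : V} (h : (X.nbr u).Nonempty) : (pcE X u).Nonempty :=
  h.image _

theorem pcE_mem {X : Gr V} {u a b : V} (h1 : ¬ pcT b < pcT a) (h2 : X.adj a b = 1)
    (h : a = u ∨ b = u) : Sum.inr (a, b) ∈ pcE X u := by
  rcases h with rfl | rfl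
  · exact mem_image.2 ⟨b, mem_nbr.2 h2, by rw [pcO, if_neg h1]⟩
  · refine mem_image.2 ⟨a, mem_nbr.2 (by rw [X.symm]; exact h2), ?_⟩
    rw [pcO, if_pos (lt_of_le_of_ne (not_lt.1 h1) fun e => ne_of_adj h2 (pcT_inj e))]

theorem pc_sum_nbr (X : Gr V) (u : V) (f : V → F) :
    ∑ b ∈ X.nbr u, f b = ∑ b, cz F (X.adj u b) * f b := by
  rw [nbr, Finset.sum_filter]
  refine Finset.sum_congr rfl fun b _ => ?_
  rcases z2 (X.adj u b) with h | h <;> simp [h]

theorem pcN_mem {X : Gr V} {q : V → F} {v : V ⊕ V × V → F} (hv : pcA X q v = 0) (u : V) :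
    pcN X (Pi.single u 1) v ∈ pcSup0 F (pcE X u) := by
  obtain ⟨h1, h2, -, -⟩ := (pcA_eq_zero X q v).1 hv
  rw [pc_mem_sup0]
  constructor
  · rintro (a | ⟨a, b⟩) hj
    · rfl
    · rw [pcN_inr]
      split_ifs with c1 c2
      · rfl
      · have ha : a ≠ u := fun e => hj (pcE_mem c1 c2 (Or.inl e))
        have hb : b ≠ u := fun e => hj (pcE_mem c1 c2 (Or.inr e))
        simp [ha, hb]
      · rfl
  · rw [pcE, Finset.sum_image (fun a _ b _ e => pcO_inj u e), ← h1 u, ← pc_sum_nbr]
    refine Finset.sum_congr rfl fun b hb => ?_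
    rw [mem_nbr] at hb
    have hne := (ne_of_adj hb).symm
    unfold pcO
    split_ifs with c
    · rw [pcN_inr, if_neg (not_lt.2 c.le), if_pos (by rw [X.symm]; exact hb), h2 b u]
      simp [hne]
    · rw [pcN_inr, if_neg c, if_pos hb]
      simp [hne]

theorem pcA_pcO {X : Gr V} (q : V → F) {v : V ⊕ V × V → F} (hv : ∀ i, v (Sum.inr i) = 0) {u b : V}
    (hb : X.adj u b = 1) : pcA X q v (pcO u b) = v (Sum.inl u) + v (Sum.inl b) := by
  unfold pcO
  split_ifs with c
  · rw [pcA_inr, if_neg (not_lt.2 c.le), if_pos (by rw [X.symm]; exact hb), hv, mul_zero,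
      add_zero, add_comm]
  · rw [pcA_inr, if_neg c, if_pos hb, hv, mul_zero, add_zero]

theorem pcA_mem {X : Gr V} (hE : X.Eul) (q : V → F) {u : V} {v : V ⊕ V × V → F}
    (hv : v ∈ pcSup F {Sum.inl u}) : pcA X q v ∈ pcSup0 F (pcE X u) := by
  have h1 : ∀ i, v (Sum.inr i) = 0 := fun i => hv _ (by simp)
  have h2 : ∀ a, a ≠ u → v (Sum.inl a) = 0 := fun a ha => hv _ (by simp [ha])
  rw [pc_mem_sup0]
  constructor
  · rintro (a | ⟨a, b⟩) hj
    · simp [pcA_inl, h1]
    · rw [pcA_inr]
      split_ifs with c1 c2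
      · simp [h1]
      · have ha : a ≠ u := fun e => hj (pcE_mem c1 c2 (Or.inl e))
        have hb : b ≠ u := fun e => hj (pcE_mem c1 c2 (Or.inr e))
        simp [h1, h2 a ha, h2 b hb]
      · exact h1 _
  · rw [pcE, Finset.sum_image (fun a _ b _ e => pcO_inj u e)]
    have h3 : ∀ b ∈ X.nbr u, pcA X q v (pcO u b) = v (Sum.inl u) := by
      intro b hb
      rw [mem_nbr] at hb
      rw [pcA_pcO q h1 hb, h2 b (ne_of_adj hb).symm, add_zero]
    rw [Finset.sum_congr rfl h3, pc_sum_nbr, ← Finset.sum_mul, ← map_sum, hE u, map_zero, zero_mul]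

theorem pcN_zero (X : Gr V) (d : V → F) {v : V ⊕ V × V → F} (hv : ∀ i, v (Sum.inr i) = 0) :
    pcN X d v = 0 := by
  ext (a | ⟨a, b⟩)
  · rfl
  · rw [pcN_inr, hv]
    simp

theorem pc_parity {a b c : ℕ} {s : ZMod 2} (ha : (a : ZMod 2) = s) (hb : (b : ZMod 2) + c = s)
    (h : b + c < a) : b + c + 2 ≤ a := by
  have h1 : ((b + c : ℕ) : ZMod 2) = (a : ℕ) := by rw [ha, ← hb]; push_cast; rfl
  rw [ZMod.natCast_eq_natCast_iff'] at h1
  omega

theorem pc_special {X : Gr V} {p : V → F} {u w : V} (huw : u ≠ w) (hp : Proper (X.ctr u w) p)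
    (h : ∀ x, X.adj u x = 1 → x ≠ w → p x ≠ p w) {a b : V} (hab : X.adj a b = 1)
    (e : p (update id u w a) = p (update id u w b)) : (a = u ∧ b = w) ∨ (b = u ∧ a = w) := by
  have hne := ne_of_adj hab
  have hba : X.adj b a = 1 := by rw [X.symm]; exact hab
  by_cases ha : a = u
  · subst ha
    left
    refine ⟨rfl, by_contra fun hb => h b hab hb ?_⟩
    simpa [hne.symm] using e.symm
  by_cases hb : b = u
  · subst hb
    right
    refine ⟨rfl, by_contra fun ha' => h a hba ha' ?_⟩
    simpa [hne] using e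
  exfalso
  have e' : p a = p b := by simpa [ha, hb] using e
  by_cases ha' : a = w
  · subst ha'
    rcases z2 (X.adj u b) with h1 | h1
    · exact hp a b (by rw [ctr_adj_tgt huw hb hne.symm, hab, h1, add_zero]) e'
    · exact h b h1 hne.symm e'.symm
  by_cases hb' : b = w
  · subst hb'
    rcases z2 (X.adj u a) with h1 | h1
    · exact hp b a (by rw [ctr_adj_tgt huw ha hne, hba, h1, add_zero]) e'.symm
    · exact h a h1 hne e'
  · exact hp a b (by rw [ctr_adj_other ha ha' hb hb', hab]) e'

theorem pc_single {X : Gr V} {p : V → F} {u w : V} (huw : X.adj u w = 1)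
    (hp : Proper (X.ctr u w) p) (h : ∀ x, X.adj u x = 1 → x ≠ w → p x ≠ p w) :
    pcNul X (p + (p u + p w) • (Pi.single u 1 : V → F)) + 1 + rk (X.ctr u w) p =
      Fintype.card V := by
  have hne := ne_of_adj huw
  rw [pc_update, ctr_eq_push, ← pc_card1 hne]
  refine pc_SP (pc_idem hne) (fun a b hab e => ?_) (fun a ha => ?_)
  · rcases pc_special hne hp h hab e with ⟨rfl, rfl⟩ | ⟨rfl, rfl⟩
    · left; simp
    · right; simp
  · by_cases hau : a = u
    · subst hau
      simpa using huw
    · simp [hau] at ha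

/-- Once one point of a line is proper, almost all points are. -/
theorem few_improper {X : Gr V} {p d : V → F} {t0 : F} (h : Proper X (p + t0 • d)) :
    ∃ B : Finset F, B.card ≤ Fintype.card V ^ 2 ∧ ∀ t, t ∉ B → Proper X (p + t • d) := by
  obtain ⟨B, h1, h2⟩ := pc_few (fun a b => X.adj a b = 1) h
  exact ⟨B, h1, h2⟩

theorem few_noninj {p d : V → F} {t0 : F} (h : Injective (p + t0 • d)) :
    ∃ B : Finset F, B.card ≤ Fintype.card V ^ 2 ∧ ∀ t, t ∉ B → Injective (p + t • d) := by
  obtain ⟨B, h1, h2⟩ := pc_few (fun a b : V => a ≠ b) (p := p) (d := d) (t0 := t0)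
    (fun a b hab e => hab (h e))
  exact ⟨B, h1, fun t ht a b e => by_contra fun hab => h2 t ht a b hab e⟩

theorem gen_of_proper {X : Gr V} {p d : V → F} {t0 : F} (h : Proper X (p + t0 • d)) :
    Gen X p d (rk X (p + t0 • d)) := by
  obtain ⟨B, h1, h2⟩ := pc_gen X p d t0
  refine ⟨B, h1, fun t ht hp => ?_⟩
  have h3 := h2 t ht
  have h4 := pc_proper h
  have h5 := pc_proper hp
  omega

/-- Undoing an identification. -/
theorem gen_ctr {X : Gr V} {p : V → F} {u w : V} (huw : u ≠ w) (hp : Proper (X.ctr u w) p)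
    (h : ∀ x, X.adj u x = 1 → x ≠ w → p x ≠ p w) :
    Gen X p (Pi.single u 1) (rk (X.ctr u w) p + (X.adj u w).val) := by
  rcases z2 (X.adj u w) with h0 | h0
  · have h1 : Proper X (p + (p u + p w) • (Pi.single u 1 : V → F)) := by
      rw [pc_update]
      intro a b hab e
      rcases pc_special huw hp h hab e with ⟨rfl, rfl⟩ | ⟨rfl, rfl⟩
      · rw [h0] at hab
        exact zero_ne_one hab
      · rw [X.symm, h0] at hab
        exact zero_ne_one hab
    refine (gen_of_proper h1).mono ?_
    rw [h0, ZMod.val_zero, add_zero, pc_update, ctr_eq_push]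
    exact rk_push_le _ _ _
  · obtain ⟨B, h1, h2⟩ := pc_gen X p (Pi.single u 1) (p u + p w)
    refine ⟨B, h1, fun t ht hq => ?_⟩
    have h3 := h2 t ht
    have h4 := pc_single h0 hp h
    have h5 := pc_proper hq
    have h6 : (X.adj u w).val = 1 := by rw [h0]; rfl
    omega

theorem proper_ctr {X : Gr V} {p : V → F} {u w : V} (hp : Proper X p)
    (h : ∀ x, X.adj u x = 1 → x ≠ w → p x ≠ p w) : Proper (X.ctr u w) p := by
  by_cases huw : u = w
  · subst huw
    rwa [ctr_self]
  rw [ctr_eq_push]
  intro y y' hy e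
  obtain ⟨a, b, rfl, rfl, hab⟩ := exists_of_push_adj hy
  have hne := ne_of_adj hab
  apply ne_of_adj hy
  by_cases ha : a = u
  · subst ha
    have hb : b = w := by_contra fun hb => h b hab hb (by simpa [hne.symm] using e.symm)
    subst hb
    simp [hne.symm]
  by_cases hb : b = u
  · subst hb
    have ha' : a = w := by_contra fun ha' =>
      h a (by rw [X.symm]; exact hab) ha' (by simpa [hne] using e)
    subst ha'
    simp [hne]
  · exact absurd (by simpa [ha, hb] using e) (hp a b hab)

/-- Most neighbours of a vertex give a contraction that lowers the rank by at most one. -/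
theorem count_bad {X : Gr V} {p : V → F} (hE : X.Eul) (hp : Proper X p) {u : V}
    (hinj : Set.InjOn p (X.nbr u)) (hu : (X.nbr u).Nonempty) :
    2 * ((X.nbr u).filter fun w => rk (X.ctr u w) p + 1 < rk X p).card + 2 ≤ (X.nbr u).card := by
  let _ : DecidableEq F := Classical.decEq F
  have two : (2 : F) = 0 := CharTwo.two_eq_zero
  set Bad := (X.nbr u).filter fun w => rk (X.ctr u w) p + 1 < rk X p with hBad
  have hB : ∀ w ∈ Bad, X.adj u w = 1 := fun w hw => mem_nbr.1 (mem_filter.1 hw).1
  have h := pc_pencil (pcA X p) (pcN X (Pi.single u 1)) (pcSup0 F (pcE X u))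
    (pcSup F {Sum.inl u}) (Bad.image fun w => p u + p w)
    (by
      intro μ hμ h0
      obtain ⟨w, hw, rfl⟩ := mem_image.1 hμ
      exact hp u w (hB w hw) (by linear_combination h0 - p w * two))
    (fun v hv => pcN_zero X _ fun i => hv _ (by simp))
    (by
      intro v hv h0
      obtain ⟨b, hb⟩ := hu
      rw [mem_nbr] at hb
      have h1 := pcA_pcO p (fun i => hv _ (by simp)) hb
      rw [h0, hv (Sum.inl b) (by simp [(ne_of_adj hb).symm]), add_zero] at h1
      ext j
      by_cases hj : j = Sum.inl u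
      · rw [hj]; exact h1.symm
      · exact hv j (by simpa using hj))
    (fun v hv => pcA_mem hE p hv)
    (by
      intro μ _ v hv
      rw [pcA_add] at hv
      exact pcN_mem hv u)
  rw [pc_finrank_sup, card_singleton, Finset.sum_image (fun a ha b hb e =>
    hinj (mem_filter.1 ha).1 (mem_filter.1 hb).1 (add_left_cancel e))] at h
  have h1 := pc_finrank_sup0 (F := F) (pcE_nonempty hu)
  have h2 := pcE_card X u
  have h3 : Bad.card • 2 ≤ ∑ w ∈ Bad, (finrank F (LinearMap.ker
      (pcA X p + (p u + p w) • pcN X (Pi.single u 1))) - finrank F (LinearMap.ker (pcA X p))) := by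
    apply Finset.card_nsmul_le_sum
    intro w hw
    have hw1 := hB w hw
    have h4 : ∀ x, X.adj u x = 1 → x ≠ w → p x ≠ p w := fun x hx hxw e =>
      hxw (hinj (mem_coe.2 (mem_nbr.2 hx)) (mem_coe.2 (mem_nbr.2 hw1)) e)
    have h5 := proper_ctr hp h4
    have h6 := pc_single hw1 h5 h4
    have h7 := pc_proper hp
    have h8 := pc_parity (c := 1) (rk_par hp)
      (by rw [rk_par h5, par_ctr, hw1, Nat.cast_one, add_assoc, z2_add_self, add_zero])
      (mem_filter.1 hw).2
    rw [pcA_add]
    unfold pcNul at h6 h7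
    omega
  rw [smul_eq_mul] at h3
  have h4 := (Nat.add_le_add_right h3 _).trans h
  omega

/-- The same for two vertices with the same value that are contracted simultaneously. -/
theorem count_bad₂ {X : Gr V} {p : V → F} (hE : X.Eul) (hp : Proper X p) {u₁ u₂ : V}
    (hne : u₁ ≠ u₂) (hadj : X.adj u₁ u₂ = 0) (hval : p u₁ = p u₂)
    (hinj₁ : Set.InjOn p (X.nbr u₁)) (hinj₂ : Set.InjOn p (X.nbr u₂))
    (hu₁ : (X.nbr u₁).Nonempty) (hu₂ : (X.nbr u₂).Nonempty)
    {ι : Type} (W : Finset ι) (w₁ w₂ : ι → V)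
    (h₁ : ∀ i ∈ W, X.adj u₁ (w₁ i) = 1) (h₂ : ∀ i ∈ W, X.adj u₂ (w₂ i) = 1)
    (h₁₂ : ∀ i ∈ W, p (w₁ i) = p (w₂ i)) (hW : Set.InjOn w₁ W) :
    2 * (W.filter fun i => rk ((X.ctr u₁ (w₁ i)).ctr u₂ (w₂ i)) p + 2 < rk X p).card + 4
      ≤ (X.nbr u₁).card + (X.nbr u₂).card := by
  let _ : DecidableEq F := Classical.decEq F
  have two : (2 : F) = 0 := CharTwo.two_eq_zero
  have hadj' : X.adj u₂ u₁ = 0 := by rw [X.symm]; exact hadj
  set Bad := W.filter fun i => rk ((X.ctr u₁ (w₁ i)).ctr u₂ (w₂ i)) p + 2 < rk X p with hBad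
  have hB : ∀ i ∈ Bad, i ∈ W := fun i hi => (mem_filter.1 hi).1
  have hsplit : ∀ v ∈ pcSup F ({Sum.inl u₁, Sum.inl u₂} : Finset (V ⊕ V × V)),
      ∃ v₁ ∈ pcSup F ({Sum.inl u₁} : Finset (V ⊕ V × V)),
        ∃ v₂ ∈ pcSup F ({Sum.inl u₂} : Finset (V ⊕ V × V)), v = v₁ + v₂ := by
    intro v hv
    refine ⟨Pi.single (Sum.inl u₁) (v (Sum.inl u₁)), fun j hj => ?_,
      Pi.single (Sum.inl u₂) (v (Sum.inl u₂)), fun j hj => ?_, ?_⟩
    · exact Pi.single_eq_of_ne (by simpa using hj) _
    · exact Pi.single_eq_of_ne (by simpa using hj) _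
    · ext j
      by_cases c1 : j = Sum.inl u₁
      · simp [c1, hne]
      by_cases c2 : j = Sum.inl u₂
      · simp [c2, hne.symm]
      · rw [hv j (by simp [c1, c2])]
        simp [c1, c2]
  have h := pc_pencil (pcA X p) (pcN X (Pi.single u₁ 1 + Pi.single u₂ 1))
    (pcSup0 F (pcE X u₁) ⊔ pcSup0 F (pcE X u₂))
    (pcSup F {Sum.inl u₁, Sum.inl u₂}) (Bad.image fun i => p u₁ + p (w₁ i))
    (by
      intro μ hμ h0
      obtain ⟨i, hi, rfl⟩ := mem_image.1 hμ
      exact hp u₁ (w₁ i) (h₁ i (hB i hi)) (by linear_combination h0 - p (w₁ i) * two))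
    (fun v hv => pcN_zero X _ fun i => hv _ (by simp))
    (by
      intro v hv h0
      obtain ⟨b, hb⟩ := hu₁
      obtain ⟨c, hc⟩ := hu₂
      rw [mem_nbr] at hb hc
      have hb2 : b ≠ u₂ := fun e => by rw [e, hadj] at hb; exact zero_ne_one hb
      have hc1 : c ≠ u₁ := fun e => by rw [e, hadj'] at hc; exact zero_ne_one hc
      have h1 := pcA_pcO p (fun i => hv _ (by simp)) hb
      have h2 := pcA_pcO p (fun i => hv _ (by simp)) hc
      rw [h0, hv (Sum.inl b) (by simp [(ne_of_adj hb).symm, hb2]), add_zero] at h1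
      rw [h0, hv (Sum.inl c) (by simp [(ne_of_adj hc).symm, hc1]), add_zero] at h2
      ext j
      by_cases c1 : j = Sum.inl u₁
      · rw [c1]; exact h1.symm
      by_cases c2 : j = Sum.inl u₂
      · rw [c2]; exact h2.symm
      · exact hv j (by simp [c1, c2]))
    (by
      intro v hv
      obtain ⟨v₁, hv₁, v₂, hv₂, rfl⟩ := hsplit v hv
      rw [map_add]
      exact Submodule.add_mem_sup (pcA_mem hE p hv₁) (pcA_mem hE p hv₂))
    (by
      intro μ _ v hv
      rw [pcA_add] at hv
      rw [pcN_add]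
      exact Submodule.add_mem_sup (pcN_mem hv u₁) (pcN_mem hv u₂))
  rw [pc_finrank_sup, card_pair (by simpa using hne), Finset.sum_image (fun a ha b hb e =>
    hW (hB a ha) (hB b hb) (hinj₁ (mem_coe.2 (mem_nbr.2 (h₁ a (hB a ha))))
      (mem_coe.2 (mem_nbr.2 (h₁ b (hB b hb)))) (add_left_cancel e)))] at h
  have h1 := pc_finrank_sup0 (F := F) (pcE_nonempty hu₁)
  have h1' := pc_finrank_sup0 (F := F) (pcE_nonempty hu₂)
  have h2 := pcE_card X u₁
  have h2' := pcE_card X u₂
  have h2'' := Submodule.finrank_add_le_finrank_add_finrank (pcSup0 F (pcE X u₁))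
    (pcSup0 F (pcE X u₂))
  have h3 : Bad.card • 2 ≤ ∑ i ∈ Bad, (finrank F (LinearMap.ker
      (pcA X p + (p u₁ + p (w₁ i)) • pcN X (Pi.single u₁ 1 + Pi.single u₂ 1)))
        - finrank F (LinearMap.ker (pcA X p))) := by
    apply Finset.card_nsmul_le_sum
    intro i hi
    have a1 := h₁ i (hB i hi)
    have a2 := h₂ i (hB i hi)
    have a3 := h₁₂ i (hB i hi)
    have hlt := (mem_filter.1 hi).2
    generalize w₁ i = x₁ at a1 a3 hlt ⊢
    generalize w₂ i = x₂ at a2 a3 hlt ⊢
    have n1 : x₁ ≠ u₁ := (ne_of_adj a1).symm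
    have n2 : x₂ ≠ u₂ := (ne_of_adj a2).symm
    have n3 : x₁ ≠ u₂ := fun e => by rw [e, hadj] at a1; exact zero_ne_one a1
    have n4 : x₂ ≠ u₁ := fun e => by rw [e, hadj'] at a2; exact zero_ne_one a2
    set φ : V → V := update id u₂ x₂ ∘ update id u₁ x₁ with hφ
    have φ1 : φ u₁ = x₁ := by simp [hφ, n3]
    have φ2 : φ u₂ = x₂ := by simp [hφ, hne.symm]
    have φ3 : ∀ a, a ≠ u₁ → a ≠ u₂ → φ a = a := fun a c1 c2 => by simp [hφ, c1, c2]
    have hid : ∀ a, φ (φ a) = φ a := by
      intro a
      by_cases c1 : a = u₁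
      · rw [c1, φ1, φ3 _ n1 n3]
      by_cases c2 : a = u₂
      · rw [c2, φ2, φ3 _ n4 n2]
      · rw [φ3 a c1 c2, φ3 a c1 c2]
    have k1 : ∀ b, X.adj u₁ b = 1 → p (φ u₁) = p (φ b) → φ u₁ = b := by
      intro b hb e
      have hb2 : b ≠ u₂ := fun e => by rw [e, hadj] at hb; exact zero_ne_one hb
      rw [φ3 b (ne_of_adj hb).symm hb2, φ1] at e
      rw [φ1]
      exact hinj₁ (mem_coe.2 (mem_nbr.2 a1)) (mem_coe.2 (mem_nbr.2 hb)) e
    have k2 : ∀ b, X.adj u₂ b = 1 → p (φ u₂) = p (φ b) → φ u₂ = b := by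
      intro b hb e
      have hb1 : b ≠ u₁ := fun e => by rw [e, hadj'] at hb; exact zero_ne_one hb
      rw [φ3 b hb1 (ne_of_adj hb).symm, φ2] at e
      rw [φ2]
      exact hinj₂ (mem_coe.2 (mem_nbr.2 a2)) (mem_coe.2 (mem_nbr.2 hb)) e
    have hsp : ∀ a b, X.adj a b = 1 → p (φ a) = p (φ b) → φ a = b ∨ φ b = a := by
      intro a b hab e
      have hba : X.adj b a = 1 := by rw [X.symm]; exact hab
      by_cases c1 : a = u₁
      · subst c1; exact Or.inl (k1 b hab e)
      by_cases c2 : a = u₂
      · subst c2; exact Or.inl (k2 b hab e)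
      by_cases c3 : b = u₁
      · subst c3; exact Or.inr (k1 a hba e.symm)
      by_cases c4 : b = u₂
      · subst c4; exact Or.inr (k2 a hba e.symm)
      · rw [φ3 a c1 c2, φ3 b c3 c4] at e
        exact absurd e (hp a b hab)
    have hed : ∀ a, φ a ≠ a → X.adj a (φ a) = 1 := by
      intro a ha
      by_cases c1 : a = u₁
      · rw [c1, φ1]; exact a1
      by_cases c2 : a = u₂
      · rw [c2, φ2]; exact a2
      · exact absurd (φ3 a c1 c2) ha
    have hcard : (univ.filter fun a => φ a ≠ a).card = 2 := by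
      rw [← card_pair hne]
      congr 1
      ext a
      by_cases c1 : a = u₁
      · simp [c1, φ1, n1]
      by_cases c2 : a = u₂
      · simp [c2, φ2, n2]
      · simp [c1, c2, φ3 a c1 c2]
    have hpush : (X.ctr u₁ x₁).ctr u₂ x₂ = X.push φ := by
      rw [ctr_eq_push, ctr_eq_push, push_push]
    have hq : p + (p u₁ + p x₁) • (Pi.single u₁ 1 + Pi.single u₂ 1 : V → F) = p ∘ φ := by
      ext a
      simp only [Pi.add_apply, Pi.smul_apply, smul_eq_mul, Function.comp_apply]
      by_cases c1 : a = u₁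
      · rw [c1, φ1, Pi.single_eq_same, Pi.single_eq_of_ne hne]
        linear_combination p u₁ * two
      by_cases c2 : a = u₂
      · rw [c2, φ2, Pi.single_eq_same, Pi.single_eq_of_ne hne.symm]
        linear_combination p u₂ * two + hval + a3
      · rw [φ3 a c1 c2, Pi.single_eq_of_ne c1, Pi.single_eq_of_ne c2]
        ring
    have h5 := pc_proper_push hid hsp
    have h6 := pc_SP hid hsp hed
    have h7 := pc_proper hp
    have hc : (X.ctr u₁ x₁).adj u₂ x₂ = 1 := by
      rw [ctr_adj, a2, hadj]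
      simp [hne.symm, n4, n3.symm]
    have h8 := pc_parity (c := 2) (rk_par hp) (b := rk ((X.ctr u₁ x₁).ctr u₂ x₂) p)
      (by
        rw [hpush, rk_par h5, ← hpush, par_ctr, par_ctr, a1, hc, add_assoc X.par, z2_add_self,
          add_zero]
        exact add_zero _)
      hlt
    rw [pcA_add, hq]
    rw [hcard, ← hpush] at h6
    unfold pcNul at h6 h7
    omega
  rw [smul_eq_mul] at h3
  have h4 := (Nat.add_le_add_right h3 _).trans h
  omega

/-- An injective evaluation after undoing an identification. -/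
theorem exists_lift {X : Gr V} {p : V → F} (hF : Big F (2 * Fintype.card V ^ 2))
    (hp : Injective p) (u w : V) :
    ∃ q : V → F, Injective q ∧ rk (X.ctr u w) p + (X.adj u w).val ≤ rk X q := by
  let _ : DecidableEq F := Classical.decEq F
  by_cases huw : u = w
  · subst huw
    exact ⟨p, hp, by rw [ctr_self, X.irr]; exact le_rfl⟩
  obtain ⟨B1, b1, b2⟩ := gen_ctr (X := X) huw (proper_of_inj _ hp)
    (fun x _ hx e => hx (hp e))
  obtain ⟨B2, b3, b4⟩ := few_noninj (p := p) (d := Pi.single u 1) (t0 := 0) (by simpa using hp)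
  obtain ⟨Λ, hΛ⟩ := hF
  obtain ⟨t, -, ht⟩ := Finset.exists_mem_notMem_of_card_lt_card (s := B1 ∪ B2) (t := Λ)
    (lt_of_le_of_lt ((card_union_le _ _).trans (by omega)) hΛ)
  rw [mem_union, not_or] at ht
  exact ⟨_, b4 t ht.2, b2 t ht.1 (proper_of_inj _ (b4 t ht.2))⟩

/-- The rank of a complete graph. -/
theorem rk_full_le {X : Gr V} {p : V → F} {C : Finset V} (hE : X.Eul) (hC : X.On C)
    (hfull : X.Full C) (hne : C.Nonempty) (hp : Proper X p) : 2 * rk X p + 1 ≤ C.card := by
  induction hn : C.card using Nat.strong_induction_on generalizing X C with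
  | _ n ih =>
  subst hn
  obtain ⟨u, hu⟩ := hne
  by_cases h0 : (X.nbr u).Nonempty
  swap
  · have hc : C.card ≤ 2 := by
      have : C ⊆ {u} := by
        intro b hb
        rw [mem_singleton]
        by_contra hbu
        exact h0 ⟨b, mem_nbr.2 (hfull u hu b hb (Ne.symm hbu))⟩
      exact (card_le_card this).trans (by simp)
    rw [hE.eq_zero hC hc, rk_zero]
    exact card_pos.2 ⟨u, hu⟩
  have hinj : Set.InjOn p (X.nbr u) := by
    intro a ha b hb e
    by_contra hab
    exact hp a b (hfull a (hC.right (mem_nbr.1 ha)) b (hC.right (mem_nbr.1 hb)) hab) e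
  have h1 := count_bad hE hp hinj h0
  obtain ⟨w, hw, hgood⟩ := Finset.exists_mem_notMem_of_card_lt_card
    (s := (X.nbr u).filter fun w => rk (X.ctr u w) p + 1 < rk X p) (t := X.nbr u) (by omega)
  have hw1 := mem_nbr.1 hw
  have huw := ne_of_adj hw1
  have hwC := hC.right hw1
  have hg : rk X p ≤ rk (X.ctr u w) p + 1 := by
    by_contra hh
    exact hgood (mem_filter.2 ⟨hw, by omega⟩)
  obtain ⟨y, hyw, hy⟩ := hE.exists_other hw1
  have hmem : ∀ a, a ∈ (C.erase u).erase w ↔ a ≠ w ∧ a ≠ u ∧ a ∈ C := by simp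
  have hcard : ((C.erase u).erase w).card + 2 = C.card := by
    rw [← card_erase_add_one hu, ← card_erase_add_one (mem_erase.2 ⟨huw.symm, hwC⟩)]
  have hon := hC.ctr huw hwC
  have h2 := ih _ (by omega) (X := X.ctr u w) (C := (C.erase u).erase w) (hE.ctr u w)
    (by
      intro a b hab
      refine mem_erase.2 ⟨?_, hon a b hab⟩
      rintro rfl
      have hb := mem_erase.1 (hon.right hab)
      have hne := ne_of_adj hab
      rw [ctr_adj_tgt huw hb.1 hne.symm, hfull a hwC b hb.2 hne, hfull u hu b hb.2 hb.1.symm,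
        z2_add_self] at hab
      exact zero_ne_one hab)
    (by
      intro a ha b hb hab
      rw [hmem] at ha hb
      rw [ctr_adj_other ha.2.1 ha.1 hb.2.1 hb.1]
      exact hfull a ha.2.2 b hb.2.2 hab)
    ⟨y, (hmem y).2 ⟨hyw, (ne_of_adj hy).symm, hC.right hy⟩⟩
    (proper_ctr hp fun x hx hxw e => hxw (hinj (mem_coe.2 (mem_nbr.2 hx)) (mem_coe.2 hw) e)) rfl
  omega

end Pool.Agent.MP_bae0ed_lc.H52
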