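import Pool.Agent.MP_bae0ed_lc.H52.Bridge
import Pool.Agent.MP_bae0ed_lc.H52.Pencil
import Pool.Agent.MP_bae0ed_lc.H52.Alg

/-!
Choosing good points on lines, merging evaluations, undoing contractions.
-/

set_option autoImplicit false
set_option linter.unusedSectionVars false

namespace Pool.Agent.MP_bae0ed_lc.H52

open Finset Matrix Function Module Gr

variable {c : Ctx} {F : Type} [Field F] [CharP F 2] {θ : Fe → F} {n : ℕ}

open Classical in
/-- The score of a point of a line. -/
noncomputable def lineSc {V : Type} [DecidableEq V] [Fintype V] (X : Gr V) (P D : V → F) (t : F) :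
    ℕ :=
  if Proper X (P + t • D) then 1 + rk X (P + t • D) else 0

theorem lineSc_max {V : Type} [DecidableEq V] [Fintype V] (X : Gr V) (P D : V → F) :
    ∃ B : Finset F, B.card ≤ 2 * Fintype.card V ^ 2 ∧
      ∀ t, t ∉ B → ∀ t', lineSc X P D t' ≤ lineSc X P D t := by
  classical
  have hb : ∀ t, lineSc X P D t ≤ 1 + Fintype.card V := by
    intro t
    unfold lineSc
    split_ifs
    · exact Nat.add_le_add_left (rk_le_card _ _) 1
    · exact Nat.zero_le _
  obtain ⟨t0, h0⟩ : ∃ t0, ∀ t, lineSc X P D t ≤ lineSc X P D t0 := by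
    refine ⟨Function.argmin fun t => 1 + Fintype.card V - lineSc X P D t, fun t => ?_⟩
    have h1 := Function.argmin_le (fun t => 1 + Fintype.card V - lineSc X P D t) t
    have h2 := hb t
    have h3 := hb (Function.argmin fun t => 1 + Fintype.card V - lineSc X P D t)
    omega
  by_cases hp : Proper X (P + t0 • D)
  · obtain ⟨B1, h1, h2⟩ := few_improper hp
    obtain ⟨B2, h3, h4⟩ := gen_of_proper hp
    refine ⟨B1 ∪ B2, (card_union_le _ _).trans (by omega), fun t ht t' => (h0 t').trans ?_⟩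
    rw [mem_union, not_or] at ht
    have h5 := h2 t ht.1
    rw [lineSc, lineSc, if_pos hp, if_pos h5]
    exact Nat.add_le_add_left (h4 t ht.2 h5) 1
  · refine ⟨∅, by simp, fun t _ t' => (h0 t').trans ?_⟩
    rw [lineSc, if_neg hp]
    exact Nat.zero_le _

/-- The base point of the line seen by an objective. -/
def lineP (θ : Fe → F) (w : Un) (e : Ev) (o : Obj) : Fin o.1.length → F := fun a =>
  if gm o.2.2 a < w.length then θ (gv e (gm o.2.2 a)) else 0

theorem line_theta (hs : Sem c θ) (w : Un) (e p : Ev) (τ : Fe) (b : ℕ) :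
    θ (gv (lin c w e p τ) b) =
      if b < w.length then θ (gv e b) + θ τ * (θ (gv e b) + θ (gv p b)) else 0 := by
  split_ifs with h
  · rw [lin, gv_map w _ ⟨b, h⟩, hs.add, hs.mul, hs.add]
  · rw [gv, List.getD_eq_default _ _ (by simpa [lin] using h), hs.nil]

theorem line_ev (hs : Sem c θ) (w : Un) (e p : Ev) (τ : Fe) :
    ev θ w.length (lin c w e p τ) =
      ev θ w.length e + θ τ • (ev θ w.length e + ev θ w.length p) := by
  funext a
  simp [ev, line_theta hs, mul_add]

theorem line_score (hs : Sem c θ) (w : Un) (e p : Ev) (τ : Fe) (o : Obj) :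
    score c (lin c w e p τ) o = lineSc (gr o.1.length o.2.1) (lineP θ w e o)
      (lineP θ w e o + lineP θ w p o) (θ τ) := by
  have h : ev θ o.1.length (cmp o.1 o.2.2 (lin c w e p τ)) =
      lineP θ w e o + θ τ • (lineP θ w e o + lineP θ w p o) := by
    funext a
    simp only [ev, cmp, gv_map, line_theta hs, lineP, Pi.add_apply, Pi.smul_apply, smul_eq_mul]
    split_ifs <;> simp
  rw [score, lineSc, hs.rkC_eq, h]
  by_cases hp : propC c o.1 o.2.1 (cmp o.1 o.2.2 (lin c w e p τ)) = true
  · rw [if_pos hp, if_pos (h ▸ hs.propC_iff.1 hp)]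
  · rw [if_neg hp, if_neg fun h' => hp (hs.propC_iff.2 (h ▸ h'))]

theorem line_sum {α : Type} {f g : α → ℕ} {l : List α} (h : ∀ x ∈ l, f x ≤ g x)
    (h' : (l.map g).sum ≤ (l.map f).sum) : ∀ x ∈ l, g x ≤ f x := by
  induction l with
  | nil => simp
  | cons a l ih =>
    have h1 := h a (by simp)
    have h2 : ∀ x ∈ l, f x ≤ g x := fun x hx => h x (by simp [hx])
    have h3 : (l.map f).sum ≤ (l.map g).sum := List.sum_le_sum h2
    simp only [List.map_cons, List.sum_cons] at h'
    intro x hx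
    rcases List.mem_cons.1 hx with rfl | hx
    · omega
    · exact ih h2 (by omega) x hx

theorem line_max (hs : Sem c θ) (hn : Ok c n) {w : Un} {obj : List Obj} (hobj : Small n w obj)
    (e p : Ev) : ∃ τ : Fe, line c w obj e p = lin c w e p τ ∧
      ∀ o ∈ po w (fullG w) :: obj, ∀ t,
        lineSc (gr o.1.length o.2.1) (lineP θ w e o) (lineP θ w e o + lineP θ w p o) t ≤
        lineSc (gr o.1.length o.2.1) (lineP θ w e o) (lineP θ w e o + lineP θ w p o) (θ τ) := by
  classical
  choose B hB1 hB2 using fun o : Obj =>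
    lineSc_max (gr o.1.length o.2.1) (lineP θ w e o) (lineP θ w e o + lineP θ w p o)
  have h1 : ((po w (fullG w) :: obj).toFinset.biUnion B).card < c.2.length := by
    refine lt_of_le_of_lt ?_ hn
    refine (card_biUnion_le_card_mul _ _ (2 * (2 * n) ^ 2) fun o ho => ?_).trans ?_
    · refine (hB1 o).trans ?_
      rw [Fintype.card_fin]
      have : o.1.length ≤ 2 * n := by
        rcases List.mem_cons.1 (List.mem_toFinset.1 ho) with rfl | ho
        · exact hobj.1
        · exact hobj.2.2 o ho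
      gcongr
    · have h2 : (po w (fullG w) :: obj).toFinset.card ≤ 4 * (n + 1) ^ 4 := by
        refine (List.toFinset_card_le _).trans ?_
        have h3 := hobj.2.1
        have h4 : 1 ≤ (n + 1) ^ 4 := Nat.one_le_pow _ _ (Nat.succ_pos n)
        rw [List.length_cons]
        omega
      calc _ ≤ 4 * (n + 1) ^ 4 * (2 * (2 * (n + 1)) ^ 2) := by gcongr; omega
        _ = _ := by ring
  obtain ⟨i, hi, hi'⟩ : ∃ i, i < c.2.length ∧
      θ i.bits ∉ (po w (fullG w) :: obj).toFinset.biUnion B := by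
    by_contra hc
    push Not at hc
    have h2 := card_le_card_of_injOn (s := range c.2.length) (fun i : ℕ => θ i.bits)
      (fun i hi => hc i (mem_range.1 hi))
      fun i hi j hj h => hs.inj i j (mem_range.1 hi) (mem_range.1 hj) h
    rw [card_range] at h2
    omega
  have hm : lin c w e p i.bits ∈ cands c w e p := List.mem_map.2 ⟨i, mem_rg.2 hi, rfl⟩
  obtain ⟨q, hq1, hq2⟩ := exists_max_image (cands c w e p).toFinset (total c w obj)
    ⟨_, List.mem_toFinset.2 hm⟩
  obtain ⟨h2, h3⟩ := pick_spec (l := cands c w e p) (p := fun q => (cands c w e p).all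
    fun q' => decide (total c w obj q' ≤ total c w obj q)) [] ⟨q, List.mem_toFinset.1 hq1, by
      simpa using fun q' hq' => hq2 q' (List.mem_toFinset.2 hq')⟩
  obtain ⟨j, -, hj⟩ := List.mem_map.1 h2
  refine ⟨j.bits, hj.symm, fun o ho t => ?_⟩
  have h4 : ∀ o ∈ po w (fullG w) :: obj, θ i.bits ∉ B o := fun o ho h =>
    hi' (mem_biUnion.2 ⟨o, List.mem_toFinset.2 ho, h⟩)
  rw [← hj] at h3
  have h5 := line_sum (f := score c (lin c w e p j.bits)) (g := score c (lin c w e p i.bits))
    (l := po w (fullG w) :: obj) (fun o ho => by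
      rw [line_score hs, line_score hs]
      exact hB2 o _ (h4 o ho) _) (of_decide_eq_true (List.all_eq_true.1 h3 _ hm)) o ho
  rw [line_score hs, line_score hs] at h5
  exact (hB2 o _ (h4 o ho) t).trans h5

theorem line_gen' (hs : Sem c θ) (hn : Ok c n) {w : Un} {obj : List Obj} (hobj : Small n w obj)
    (e p : Ev) {w' : Un} {Y : Tab} {φ : List ℕ} (ho : (w', Y, φ) ∈ po w (fullG w) :: obj)
    {ψ : Fin w'.length → Fin w.length} (hψ : Rep φ ψ)
    (hpr : ∃ t : F, Proper (gr w'.length Y)
      (ev θ w.length e ∘ ψ + t • ((ev θ w.length e + ev θ w.length p) ∘ ψ))) :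
    Proper (gr w'.length Y) (ev θ w.length (line c w obj e p) ∘ ψ) ∧
      ∀ k, Gen (gr w'.length Y) (ev θ w.length e ∘ ψ) ((ev θ w.length e + ev θ w.length p) ∘ ψ) k →
        k ≤ rk (gr w'.length Y) (ev θ w.length (line c w obj e p) ∘ ψ) := by
  classical
  obtain ⟨τ, h1, h2⟩ := line_max hs hn hobj e p
  have h3 := h2 _ ho
  have h4 : ∀ q : Ev, lineP θ w q (w', Y, φ) = ev θ w.length q ∘ ψ := by
    intro q
    funext a
    simp [lineP, hψ a, ev]
  rw [h4, h4] at h3
  have h5 : ev θ w.length (line c w obj e p) ∘ ψ =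
      ev θ w.length e ∘ ψ + θ τ • ((ev θ w.length e + ev θ w.length p) ∘ ψ) := by
    rw [h1, line_ev hs]
    rfl
  rw [h5]
  have key : ∀ t : F, Proper (gr w'.length Y)
      (ev θ w.length e ∘ ψ + t • ((ev θ w.length e + ev θ w.length p) ∘ ψ)) →
      Proper (gr w'.length Y)
        (ev θ w.length e ∘ ψ + θ τ • ((ev θ w.length e + ev θ w.length p) ∘ ψ)) ∧
      rk (gr w'.length Y) (ev θ w.length e ∘ ψ + t • ((ev θ w.length e + ev θ w.length p) ∘ ψ)) ≤
        rk (gr w'.length Y)
          (ev θ w.length e ∘ ψ + θ τ • ((ev θ w.length e + ev θ w.length p) ∘ ψ)) := by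
    intro t ht
    have h6 : lineSc (gr w'.length Y) (ev θ w.length e ∘ ψ)
        ((ev θ w.length e + ev θ w.length p) ∘ ψ) t ≤ lineSc (gr w'.length Y) (ev θ w.length e ∘ ψ)
        ((ev θ w.length e + ev θ w.length p) ∘ ψ) (θ τ) := h3 t
    rw [lineSc, lineSc, if_pos ht] at h6
    split_ifs at h6 with h7
    · exact ⟨h7, by omega⟩
    · omega
  obtain ⟨t0, ht0⟩ := hpr
  refine ⟨(key t0 ht0).1, ?_⟩
  rintro k ⟨B1, g1, g2⟩
  obtain ⟨B2, g3, g4⟩ := few_improper ht0
  obtain ⟨Λ, hΛ⟩ := hs.big hn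
  obtain ⟨t, -, ht⟩ : ∃ t ∈ Λ, t ∉ B1 ∪ B2 := by
    refine exists_mem_notMem_of_card_lt_card (lt_of_le_of_lt ?_ hΛ)
    rw [Fintype.card_fin] at g1 g3
    have g5 : w'.length ≤ 2 * n := by
      rcases List.mem_cons.1 ho with h | h
      · rw [show w' = w from congrArg Prod.fst h]
        exact hobj.1
      · exact hobj.2.2 _ h
    have g6 : w'.length ^ 2 ≤ (2 * (n + 1)) ^ 2 := by gcongr; omega
    have g7 : (n + 1) ^ 2 ≤ (n + 1) ^ 6 := Nat.pow_le_pow_right (Nat.succ_pos n) (by norm_num)
    have g8 := card_union_le B1 B2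
    rw [mul_pow] at g6
    omega
  rw [mem_union, not_or] at ht
  exact (g2 t ht.1 (g4 t ht.2)).trans (key t (g4 t ht.2)).2

theorem line_at_one {V W : Type} (e p : V → F) (ψ : W → V) :
    e ∘ ψ + (1 : F) • ((e + p) ∘ ψ) = p ∘ ψ := by
  funext a
  simp [← add_assoc, CharTwo.add_self_eq_zero]

theorem line_bump (hs : Sem c θ) (w : Un) (e : Ev) (u : Fin w.length) :
    ev θ w.length e + ev θ w.length (bump c w e u) = Pi.single u 1 := by
  funext a
  simp only [ev, bump, gv_map, Pi.add_apply, Pi.single_apply, Fin.ext_iff]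
  split_ifs
  · rw [hs.add, hs.one, ← add_assoc, CharTwo.add_self_eq_zero, zero_add]
  · exact CharTwo.add_self_eq_zero _

theorem line_supp {w : Un} {T : Tab} {u v : Fin w.length} (h : ad T u v = true) :
    (gr w.length (ctrG w T u v)).supp.card < (gr w.length T).supp.card := by
  have h1 := ad_iff.1 h
  have h2 : (gr w.length T).On (gr w.length T).supp := fun a b hab => by
    simp only [supp, mem_filter, mem_univ, true_and]
    exact ⟨b, hab⟩
  have h3 := h2.ctr (ne_of_adj h1) (h2.right h1)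
  rw [gr_ctrG]
  refine lt_of_le_of_lt (card_le_card fun a ha => ?_) (card_erase_lt_of_mem (h2 u v h1))
  simp only [supp, mem_filter, mem_univ, true_and] at ha
  obtain ⟨b, hb⟩ := ha
  exact h3 a b hb

theorem line_supp_lt (w : Un) (T : Tab) : (gr w.length T).supp.card < w.length + 1 :=
  Nat.lt_succ_of_le ((card_le_univ _).trans_eq (Fintype.card_fin _))

theorem Ok.ev0_inj (hs : Sem c θ) (hn : Ok c n) {w : Un} (h : w.length ≤ 2 * n) :
    Injective (ev θ w.length (ev0 w)) := by
  refine hs.ev0_inj (h.trans (le_of_lt (lt_of_le_of_lt ?_ hn)))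
  have : n + 1 ≤ (n + 1) ^ 6 := Nat.le_self_pow (by norm_num) _
  omega

theorem Ok.big (hs : Sem c θ) (hn : Ok c n) : Big F (32 * (n + 1) ^ 6) := hs.big hn

theorem small_po {w : Un} {X : Tab} : Small w.length w [po w X] := by
  have : 1 ≤ (w.length + 1) ^ 4 := Nat.one_le_pow _ _ (Nat.succ_pos _)
  refine ⟨by omega, by rw [List.length_singleton]; omega, fun o ho => ?_⟩
  rw [List.mem_singleton.1 ho]
  change w.length ≤ _
  omega

theorem line_inj (hs : Sem c θ) (hn : Ok c n) {w : Un} {obj : List Obj} (hobj : Small n w obj)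
    {e p : Ev} (h : Injective (ev θ w.length e) ∨ Injective (ev θ w.length p)) :
    Injective (ev θ w.length (line c w obj e p)) := by
  refine proper_full_iff.1 (line_gen' hs hn hobj e p (List.mem_cons_self ..) (rep_rg w) ?_).1
  rcases h with h | h
  · exact ⟨0, by simpa using proper_full_iff.2 h⟩
  · exact ⟨1, by rw [line_at_one]; exact proper_full_iff.2 h⟩

/-- The chosen point is generic for every objective that has a proper point on the line. -/
theorem line_gen (hs : Sem c θ) (hn : Ok c n) {w : Un} {obj : List Obj} (hobj : Small n w obj)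
    (e p : Ev) {w' : Un} {Y : Tab} {φ : List ℕ} (ho : (w', Y, φ) ∈ obj)
    {ψ : Fin w'.length → Fin w.length} (hψ : Rep φ ψ)
    (hpr : ∃ t : F, Proper (gr w'.length Y)
      (ev θ w.length e ∘ ψ + t • ((ev θ w.length e + ev θ w.length p) ∘ ψ))) :
    Proper (gr w'.length Y) (ev θ w.length (line c w obj e p) ∘ ψ) ∧
      ∀ k, Gen (gr w'.length Y) (ev θ w.length e ∘ ψ) ((ev θ w.length e + ev θ w.length p) ∘ ψ) k →
        k ≤ rk (gr w'.length Y) (ev θ w.length (line c w obj e p) ∘ ψ) := by
  exact line_gen' hs hn hobj e p (List.mem_cons_of_mem _ ho) hψ hpr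

theorem line_left (hs : Sem c θ) (hn : Ok c n) {w : Un} {obj : List Obj} (hobj : Small n w obj)
    {e : Ev} (p : Ev) {w' : Un} {Y : Tab} {φ : List ℕ} (ho : (w', Y, φ) ∈ obj)
    {ψ : Fin w'.length → Fin w.length} (hψ : Rep φ ψ)
    (hpr : Proper (gr w'.length Y) (ev θ w.length e ∘ ψ)) :
    rk (gr w'.length Y) (ev θ w.length e ∘ ψ) ≤
      rk (gr w'.length Y) (ev θ w.length (line c w obj e p) ∘ ψ) := by
  have h : Proper (gr w'.length Y)
      (ev θ w.length e ∘ ψ + (0 : F) • ((ev θ w.length e + ev θ w.length p) ∘ ψ)) := by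
    simpa using hpr
  have h1 := (line_gen hs hn hobj e p ho hψ ⟨0, h⟩).2 _ (gen_of_proper h)
  simpa using h1

theorem line_right (hs : Sem c θ) (hn : Ok c n) {w : Un} {obj : List Obj} (hobj : Small n w obj)
    (e : Ev) {p : Ev} {w' : Un} {Y : Tab} {φ : List ℕ} (ho : (w', Y, φ) ∈ obj)
    {ψ : Fin w'.length → Fin w.length} (hψ : Rep φ ψ)
    (hpr : Proper (gr w'.length Y) (ev θ w.length p ∘ ψ)) :
    rk (gr w'.length Y) (ev θ w.length p ∘ ψ) ≤
      rk (gr w'.length Y) (ev θ w.length (line c w obj e p) ∘ ψ) := by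
  have h : Proper (gr w'.length Y)
      (ev θ w.length e ∘ ψ + (1 : F) • ((ev θ w.length e + ev θ w.length p) ∘ ψ)) := by
    rwa [line_at_one]
  have h1 := (line_gen hs hn hobj e p ho hψ ⟨1, h⟩).2 _ (gen_of_proper h)
  rwa [line_at_one] at h1

theorem line_left_po (hs : Sem c θ) (hn : Ok c n) {w : Un} {obj : List Obj} (hobj : Small n w obj)
    {e : Ev} (p : Ev) {Y : Tab} (ho : po w Y ∈ obj)
    (hpr : Proper (gr w.length Y) (ev θ w.length e)) :
    rk (gr w.length Y) (ev θ w.length e) ≤ rk (gr w.length Y) (ev θ w.length (line c w obj e p)) :=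
  line_left hs hn hobj p ho (rep_rg w) hpr

theorem line_right_po (hs : Sem c θ) (hn : Ok c n) {w : Un} {obj : List Obj} (hobj : Small n w obj)
    (e : Ev) {p : Ev} {Y : Tab} (ho : po w Y ∈ obj)
    (hpr : Proper (gr w.length Y) (ev θ w.length p)) :
    rk (gr w.length Y) (ev θ w.length p) ≤ rk (gr w.length Y) (ev θ w.length (line c w obj e p)) :=
  line_right hs hn hobj e ho (rep_rg w) hpr

theorem merge_inj (hs : Sem c θ) (hn : Ok c n) {w : Un} {obj : List Obj} (hobj : Small n w obj)
    {e : Ev} (he : Injective (ev θ w.length e)) (ps : List Ev) :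
    Injective (ev θ w.length (mergeAll c w obj e ps)) := by
  induction ps generalizing e with
  | nil => exact he
  | cons p ps ih => exact ih (line_inj hs hn hobj (Or.inl he))

theorem merge_ge (hs : Sem c θ) (hn : Ok c n) {w : Un} {obj : List Obj} (hobj : Small n w obj)
    {e : Ev} (he : Injective (ev θ w.length e)) {ps : List Ev}
    {w' : Un} {Y : Tab} {φ : List ℕ} (ho : (w', Y, φ) ∈ obj)
    {ψ : Fin w'.length → Fin w.length} (hψ : Rep φ ψ)
    (hY : ∀ a b, (gr w'.length Y).adj a b = 1 → ψ a ≠ ψ b) {q : Ev} (hq : q ∈ e :: ps)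
    (hpr : Proper (gr w'.length Y) (ev θ w.length q ∘ ψ)) :
    rk (gr w'.length Y) (ev θ w.length q ∘ ψ) ≤
      rk (gr w'.length Y) (ev θ w.length (mergeAll c w obj e ps) ∘ ψ) := by
  induction ps generalizing e q with
  | nil =>
    rw [List.mem_singleton.1 hq]
    exact le_rfl
  | cons p ps ih =>
    have h1 : Injective (ev θ w.length (line c w obj e p)) := line_inj hs hn hobj (Or.inl he)
    have h2 := ih h1 (List.mem_cons_self ..) (proper_comp h1 hY)
    rcases List.mem_cons.1 hq with rfl | hq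
    · exact (line_left hs hn hobj p ho hψ hpr).trans h2
    · rcases List.mem_cons.1 hq with rfl | hq
      · exact (line_right hs hn hobj e ho hψ hpr).trans h2
      · exact ih h1 (List.mem_cons_of_mem _ hq) hpr

theorem merge_ge_po (hs : Sem c θ) (hn : Ok c n) {w : Un} {obj : List Obj} (hobj : Small n w obj)
    {e : Ev} (he : Injective (ev θ w.length e)) {ps : List Ev} {Y : Tab} (ho : po w Y ∈ obj)
    {q : Ev} (hq : q ∈ e :: ps) (hpr : Proper (gr w.length Y) (ev θ w.length q)) :
    rk (gr w.length Y) (ev θ w.length q) ≤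
      rk (gr w.length Y) (ev θ w.length (mergeAll c w obj e ps)) :=
  merge_ge hs hn hobj he ho (rep_rg w) (fun _ _ h => ne_of_adj h) hq hpr

theorem reval_inj (hs : Sem c θ) (hn : Ok c n) {w : Un} {obj : List Obj} (hobj : Small n w obj)
    {e : Ev} (he : Injective (ev θ w.length e)) (u : ℕ) :
    Injective (ev θ w.length (reval c w obj e u)) :=
  line_inj hs hn hobj (Or.inl he)

/-- The new value is at least as good as any value that is proper. -/
theorem reval_ge (hs : Sem c θ) (hn : Ok c n) {w : Un} {obj : List Obj} (hobj : Small n w obj)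
    (e : Ev) (u : Fin w.length) {w' : Un} {Y : Tab} {φ : List ℕ} (ho : (w', Y, φ) ∈ obj)
    {ψ : Fin w'.length → Fin w.length} (hψ : Rep φ ψ) (t : F)
    (hpr : Proper (gr w'.length Y) (update (ev θ w.length e) u t ∘ ψ)) :
    rk (gr w'.length Y) (update (ev θ w.length e) u t ∘ ψ) ≤
      rk (gr w'.length Y) (ev θ w.length (reval c w obj e u) ∘ ψ) := by
  have h0 : update (ev θ w.length e) u t ∘ ψ = ev θ w.length e ∘ ψ + (t + ev θ w.length e u) •
      ((ev θ w.length e + ev θ w.length (bump c w e u)) ∘ ψ) := by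
    rw [line_bump hs]
    funext a
    by_cases h : ψ a = u
    · simp [h, add_comm t, ← add_assoc, CharTwo.add_self_eq_zero]
    · simp [h]
  rw [h0] at hpr ⊢
  exact (line_gen hs hn hobj e _ ho hψ ⟨_, hpr⟩).2 _ (gen_of_proper hpr)

/-- Undoing a contraction of a vertex `u` with a trivial fibre. -/
theorem reval_ctr (hs : Sem c θ) (hn : Ok c n) {w : Un} {obj : List Obj} (hobj : Small n w obj)
    {e : Ev} (he : Injective (ev θ w.length e)) {w' : Un} {Y : Tab} {φ : List ℕ}
    (ho : (w', Y, φ) ∈ obj) {ψ : Fin w'.length → Fin w.length} (hψ : Rep φ ψ)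
    (hY : ∀ a b, (gr w'.length Y).adj a b = 1 → ψ a ≠ ψ b) {u v : Fin w'.length}
    (hu : ∀ x, ψ x = ψ u → x = u)
    (hv : ∀ x, (gr w'.length Y).adj u x = 1 → x ≠ v → ψ x ≠ ψ v) :
    rk ((gr w'.length Y).ctr u v) (ev θ w.length e ∘ ψ) + ((gr w'.length Y).adj u v).val ≤
      rk (gr w'.length Y) (ev θ w.length (reval c w obj e (ψ u)) ∘ ψ) := by
  have hp := proper_comp he hY
  rcases eq_or_ne u v with rfl | huv
  · rw [ctr_self, (gr w'.length Y).irr, ZMod.val_zero, add_zero]
    exact line_left hs hn hobj _ ho hψ hp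
  have h1 : ∀ x, (gr w'.length Y).adj u x = 1 → x ≠ v →
      (ev θ w.length e ∘ ψ) x ≠ (ev θ w.length e ∘ ψ) v := fun x hx hxv h => hv x hx hxv (he h)
  refine (line_gen hs hn hobj e _ ho hψ ⟨0, by simpa using hp⟩).2 _ ?_
  have h2 : (Pi.single (ψ u) 1 : Fin w.length → F) ∘ ψ = Pi.single u 1 := by
    funext a
    by_cases h : a = u
    · simp [h]
    · simp [h, mt (hu a) h]
  rw [line_bump hs, h2]
  exact gen_ctr huv (proper_ctr hp h1) h1

theorem reval_ctr_po (hs : Sem c θ) (hn : Ok c n) {w : Un} {obj : List Obj} (hobj : Small n w obj)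
    {e : Ev} (he : Injective (ev θ w.length e)) {Y : Tab} (ho : po w Y ∈ obj)
    (u v : Fin w.length) :
    rk ((gr w.length Y).ctr u v) (ev θ w.length e) + ((gr w.length Y).adj u v).val ≤
      rk (gr w.length Y) (ev θ w.length (reval c w obj e u)) :=
  reval_ctr hs hn hobj he ho (rep_rg w) (fun _ _ h => ne_of_adj h) (fun _ h => h) (fun _ _ h => h)

theorem lift_spec (hs : Sem c θ) {w : Un} (hn : Ok c w.length) (X : Tab)
    (τ : List (Fin w.length × Fin w.length)) {e : Ev} (he : Injective (ev θ w.length e)) :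
    Injective (ev θ w.length (lift c w X (τ.map fun q => ((q.1 : ℕ), (q.2 : ℕ))) e)) ∧
      rk ((gr w.length X).con τ) (ev θ w.length e) + (gr w.length X).cnt τ ≤
        rk (gr w.length X) (ev θ w.length (lift c w X (τ.map fun q => ((q.1 : ℕ), (q.2 : ℕ))) e)) := by
  induction τ generalizing X with
  | nil => exact ⟨he, le_rfl⟩
  | cons q τ ih =>
    obtain ⟨h1, h2⟩ := ih (ctrG w X q.1 q.2)
    have h3 := reval_ctr_po hs hn (small_po (X := X)) h1 (List.mem_singleton.2 rfl) q.1 q.2
    rw [gr_ctrG] at h2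
    refine ⟨reval_inj hs hn small_po h1 _, le_trans ?_ h3⟩
    simp only [con, cnt]
    omega

theorem gstep_cases (w : Un) (ok : Tab → ℕ × ℕ → Bool) (T : Tab) :
    ((∀ u v : Fin w.length, ok T (u, v) = false) ∧ gstep w ok T = T) ∨
      ∃ u v : Fin w.length, ok T (u, v) = true ∧ pick (pairs w) (ok T) (0, 0) = ((u : ℕ), (v : ℕ)) ∧
        gstep w ok T = ctrG w T u v := by
  by_cases h : ∃ u v : Fin w.length, ok T (u, v) = true
  · obtain ⟨u, v, h1, h2⟩ := pick_pairs (0, 0) h
    exact Or.inr ⟨u, v, h2, h1, by rw [gstep, if_pos (any_pairs.2 h), h1]⟩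
  · refine Or.inl ⟨fun u v => by simpa using fun h' => h ⟨u, v, h'⟩, ?_⟩
    rw [gstep, if_neg (mt any_pairs.1 h)]

theorem col_terminal {w : Un} {ok : Tab → ℕ × ℕ → Bool}
    (hok : ∀ T (u v : Fin w.length), ok T (u, v) = true → ad T u v = true) (T : Tab)
    (u v : Fin w.length) : ok (col w ok T) (u, v) = false := by
  have key : ∀ k T, (gr w.length T).supp.card < k → ok ((gstep w ok)^[k] T) (u, v) = false := by
    intro k
    induction k with
    | zero => exact fun _ h => absurd h (Nat.not_lt_zero _)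
    | succ k ih =>
      intro T hT
      rcases gstep_cases w ok T with ⟨h1, h2⟩ | ⟨a, b, h1, -, h2⟩
      · rw [iterate_fixed h2]
        exact h1 u v
      · rw [iterate_succ_apply, h2]
        exact ih _ (lt_of_lt_of_le (line_supp (hok T a b h1)) (Nat.le_of_lt_succ hT))
  exact key _ T (line_supp_lt w T)

theorem col_gstep {w : Un} {ok : Tab → ℕ × ℕ → Bool}
    (hok : ∀ T (u v : Fin w.length), ok T (u, v) = true → ad T u v = true) (T : Tab) :
    col w ok (gstep w ok T) = col w ok T := by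
  rw [col, ← iterate_succ_apply, iterate_succ_apply']
  rcases gstep_cases w ok (col w ok T) with ⟨-, h⟩ | ⟨a, b, h, -⟩
  · exact h
  · rw [col_terminal hok] at h
    exact absurd h Bool.false_ne_true

theorem col_of_terminal {w : Un} {ok : Tab → ℕ × ℕ → Bool} {T : Tab}
    (h : ∀ u v : Fin w.length, ok T (u, v) = false) : col w ok T = T := by
  rcases gstep_cases w ok T with ⟨-, h2⟩ | ⟨a, b, h1, -⟩
  · exact iterate_fixed h2 _
  · rw [h] at h1
    exact absurd h1 Bool.false_ne_true

theorem col_inv {w : Un} {ok : Tab → ℕ × ℕ → Bool} (I : Tab → Prop)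
    (h : ∀ T (u v : Fin w.length), I T → ok T (u, v) = true → I (ctrG w T u v)) {X : Tab}
    (hX : I X) : I (col w ok X) := by
  refine Function.Iterate.rec I hX (fun T hT => ?_) _
  rcases gstep_cases w ok T with ⟨-, h2⟩ | ⟨a, b, h1, -, h2⟩
  · rwa [h2]
  · rw [h2]
    exact h T a b hT h1

/-- The induction principle for greedy contraction; `g` is a ghost parameter. -/
theorem grun_spec {w w' : Un} {ok : Tab → ℕ × ℕ → Bool} {obj : Tab → List Obj} {κ : List ℕ}
    {base : Tab → Ev} {γ : Type} (I : Tab → γ → Prop) (Q : Tab → γ → Ev → Prop)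
    (hok : ∀ T (u v : Fin w.length), ok T (u, v) = true → ad T u v = true)
    (hstep : ∀ T g (u v : Fin w.length), I T g → ok T (u, v) = true →
      gstep w ok T = ctrG w T u v → ∃ g', I (ctrG w T u v) g' ∧
        ∀ f, Q (ctrG w T u v) g' f → Q T g (reval c w' (obj T) f (gm κ u)))
    (hbase : ∀ T g, I T g → (∀ u v : Fin w.length, ok T (u, v) = false) → Q T g (base T))
    {X : Tab} {g : γ} (hX : I X g) : Q X g (grun c w w' ok obj κ base X) := by
  have key : ∀ k T g, (gr w.length T).supp.card < k → I T g → Q T g (unwind (gstep w ok)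
      (fun Y f => if (pairs w).any (ok Y) then
        reval c w' (obj Y) f (gm κ (pick (pairs w) (ok Y) (0, 0)).1) else base Y) k T []) := by
    intro k
    induction k with
    | zero => exact fun _ _ h => absurd h (Nat.not_lt_zero _)
    | succ k ih =>
      intro T g hT hI
      rw [unwind]
      rcases gstep_cases w ok T with ⟨h1, -⟩ | ⟨a, b, h1, h2, h3⟩
      · rw [if_neg fun h => by
          obtain ⟨u, v, h2⟩ := any_pairs.1 h
          rw [h1] at h2
          exact Bool.false_ne_true h2]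
        exact hbase T g hI h1
      · obtain ⟨g', k1, k2⟩ := hstep T g a b hI h1 h3
        rw [if_pos (any_pairs.2 ⟨a, b, h1⟩), h2, h3]
        exact k2 _ (ih _ g' (lt_of_lt_of_le (line_supp (hok T a b h1)) (Nat.le_of_lt_succ hT)) k1)
  exact key _ X g (line_supp_lt w X) hX

end Pool.Agent.MP_bae0ed_lc.H52
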