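import Pool.Agent.MP_bae0ed_lc.H52.Pencil

/-!
Orderings and ranks.
-/

set_option autoImplicit false
set_option linter.unusedSectionVars false

namespace Pool.Agent.MP_bae0ed_lc.H52

open Finset Matrix Function Module Gr

variable {V V' : Type} [DecidableEq V] [DecidableEq V'] [Fintype V] [Fintype V']
variable {F : Type} [Field F] [CharP F 2]

/-- The vertices of `S` can be ranked so that all but the first have an odd number of neighbours
among the earlier ones. -/
def OddOrd (X : Gr V) (S : Finset V) : Prop :=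
  ∃ pos : V → ℕ, Set.InjOn pos S ∧ ∀ v ∈ S, (∃ u ∈ S, pos u < pos v) →
    ∑ u ∈ S with pos u < pos v, X.adj v u = 1

private theorem ord_sum_ctr (X : Gr V) {S : Finset V} {u w v : V} (huw : u ≠ w) (hw : w ∈ S)
    (hvu : v ≠ u) (hvw : v ≠ w) (P : V → Prop) [DecidablePred P] :
    ∑ x ∈ S.erase u with P x, (X.ctr u w).adj v x =
      (if P w then X.adj v w + X.adj v u else 0) +
        ∑ x ∈ (S.erase u).erase w with P x, X.adj v x := by
  rw [sum_filter, sum_filter, ← add_sum_erase _ _ (mem_erase.2 ⟨huw.symm, hw⟩),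
    (X.ctr u w).symm v w, ctr_adj_tgt huw hvu hvw, X.symm w v, X.symm u v]
  congr 1
  refine sum_congr rfl fun x hx => ?_
  simp only [mem_erase] at hx
  rw [ctr_adj_other hvu hvw hx.2.1 hx.1]

private theorem ord_sum (X : Gr V) {S : Finset V} {u w : V} (huw : u ≠ w) (hu : u ∈ S) (hw : w ∈ S)
    (v : V) (P : V → Prop) [DecidablePred P] :
    ∑ x ∈ S with P x, X.adj v x =
      (if P u then X.adj v u else 0) + ((if P w then X.adj v w else 0) +
        ∑ x ∈ (S.erase u).erase w with P x, X.adj v x) := by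
  rw [sum_filter, sum_filter, ← add_sum_erase _ _ hu,
    ← add_sum_erase _ _ (mem_erase.2 ⟨huw.symm, hw⟩)]

private theorem ord_small (X : Gr V) {S : Finset V} (h : S.card ≤ 1) : OddOrd X S :=
  ⟨fun _ => 0, fun a ha b hb _ => card_le_one.1 h a ha b hb, fun _ _ ⟨_, _, h⟩ => absurd h (lt_irrefl _)⟩

private theorem ord_lift {X : Gr V} {S : Finset V} {u w : V} (hu : u ∈ S) (hw : w ∈ S)
    (hadj : X.adj u w = 1) (h : OddOrd (X.ctr u w) (S.erase u)) : OddOrd X S := by
  have huw : u ≠ w := ne_of_adj hadj
  obtain ⟨pos, inj, odd⟩ := h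
  have hw' : w ∈ S.erase u := mem_erase.2 ⟨huw.symm, hw⟩
  set R := (S.erase u).erase w with hR
  have hne : ∀ x ∈ R, pos x ≠ pos w := fun x hx e =>
    (mem_erase.1 hx).1 (inj (mem_coe.2 (mem_of_mem_erase hx)) (mem_coe.2 hw') e)
  have memR : ∀ x ∈ S, x ≠ u → x ≠ w → x ∈ R := fun x hx h1 h2 =>
    mem_erase.2 ⟨h2, mem_erase.2 ⟨h1, hx⟩⟩
  set a := ∑ x ∈ R with pos x < pos w, X.adj w x with ha
  set b := ∑ x ∈ R with pos x < pos w, X.adj u x with hb
  have hab : (∃ x ∈ R, pos x < pos w) → a + b = 1 := by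
    rintro ⟨x, hx, hlt⟩
    rw [← odd w hw' ⟨x, mem_of_mem_erase hx, hlt⟩, ha, hb, ← sum_add_distrib, sum_filter, sum_filter,
      ← add_sum_erase _ _ hw', if_neg (lt_irrefl _), zero_add]
    refine sum_congr rfl fun y hy => ?_
    simp only [mem_erase] at hy
    rw [ctr_adj_tgt huw hy.2.1 hy.1]
  have hab0 : ¬ (∃ x ∈ R, pos x < pos w) → b = 0 := fun h =>
    sum_eq_zero fun x hx => absurd ⟨x, (mem_filter.1 hx).1, (mem_filter.1 hx).2⟩ h
  obtain ⟨i, j, hij, hi, hj⟩ : ∃ i j : ℕ, i + j = 1 ∧
      ((j < i ∨ ∃ x ∈ R, pos x < pos w) → (if j < i then 1 else 0) + b = 1) ∧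
      ((i < j ∨ ∃ x ∈ R, pos x < pos w) → (if i < j then 1 else 0) + a = 1) := by
    rcases z2 b with h0 | h1
    · refine ⟨1, 0, rfl, fun _ => by simp [h0], fun h => ?_⟩
      have := hab (h.resolve_left (by omega))
      simpa [h0] using this
    · refine ⟨0, 1, rfl, fun _ => by simp [h1], fun _ => ?_⟩
      have := hab (by_contra fun h => by rw [hab0 h] at h1; exact zero_ne_one h1)
      rw [h1] at this
      rw [if_pos zero_lt_one, add_comm]; exact this
  set q : V → ℕ := fun x => if x = u then 2 * pos w + i else if x = w then 2 * pos w + j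
    else 2 * pos x with hq
  have qu : q u = 2 * pos w + i := by simp [hq]
  have qw : q w = 2 * pos w + j := by simp [hq, huw.symm]
  have qR : ∀ x ∈ R, q x = 2 * pos x := fun x hx => by
    simp only [hR, mem_erase] at hx
    simp [hq, hx.1, hx.2.1]
  have tri : ∀ x ∈ S, x = u ∨ x = w ∨ x ∈ R := fun x hx => by
    by_cases h1 : x = u
    · exact .inl h1
    · by_cases h2 : x = w
      · exact .inr (.inl h2)
      · exact .inr (.inr (memR x hx h1 h2))
  refine ⟨q, fun x hx y hy e => ?_, fun v hv hex => ?_⟩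
  · rcases tri x hx with rfl | rfl | hx <;> rcases tri y hy with rfl | rfl | hy
    all_goals first
      | rfl
      | (exfalso; omega)
      | (exfalso; have := hne _ hy; have := qR _ hy; omega)
      | (exfalso; have := hne _ hx; have := qR _ hx; omega)
      | skip
    rw [qR _ hx, qR _ hy] at e
    exact inj (mem_coe.2 (mem_of_mem_erase hx)) (mem_coe.2 (mem_of_mem_erase hy)) (by omega)
  · rw [ord_sum X huw hu hw, ← hR]
    obtain ⟨y, hy, hlt⟩ := hex
    rcases tri v hv with rfl | rfl | hv
    · have e : R.filter (fun x => q x < q v) = R.filter fun x => pos x < pos w :=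
        filter_congr fun x hx => by have := hne x hx; rw [qR x hx, qu]; omega
      rw [if_neg (lt_irrefl _), zero_add, e, hadj, ← hb, qu, qw]
      simp only [add_lt_add_iff_left]
      refine hi ?_
      rcases tri y hy with rfl | rfl | hy
      · omega
      · left; omega
      · exact .inr ⟨y, hy, by have := hne y hy; have := qR y hy; omega⟩
    · have e : R.filter (fun x => q x < q v) = R.filter fun x => pos x < pos v :=
        filter_congr fun x hx => by have := hne x hx; rw [qR x hx, qw]; omega
      rw [if_neg (lt_irrefl (q v)), zero_add, e, X.symm v u, hadj, ← ha, qu, qw]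
      simp only [add_lt_add_iff_left]
      refine hj ?_
      rcases tri y hy with rfl | rfl | hy
      · left; omega
      · omega
      · exact .inr ⟨y, hy, by have := hne y hy; have := qR y hy; omega⟩
    · have h1 := hne v hv
      have h2 := qR v hv
      have e : R.filter (fun x => q x < q v) = R.filter fun x => pos x < pos v :=
        filter_congr fun x hx => by rw [qR x hx, h2]; omega
      have hv' := mem_erase.1 hv
      have := odd v hv'.2 (by
        rcases tri y hy with rfl | rfl | hy
        · exact ⟨w, hw', by omega⟩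
        · exact ⟨y, hw', by omega⟩
        · exact ⟨y, mem_of_mem_erase hy, by have := qR y hy; omega⟩)
      rw [ord_sum_ctr X huw hw (mem_erase.1 hv'.2).1 hv'.1, ← hR] at this
      rw [e, ← this]
      by_cases c : pos w < pos v
      · rw [if_pos c, if_pos (by omega), if_pos (by omega)]; ring
      · rw [if_neg c, if_neg (by omega), if_neg (by omega)]; ring

theorem oddOrd_of_rk {X : Gr V} {S : Finset V} {z : V} {p : V → F} (hE : X.Eul) (hz : z ∉ S)
    (hS : X.On (insert z S)) (hp : Injective p) (hr : S.card ≤ rk X p + 1) : OddOrd X S := by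
  induction hn : S.card using Nat.strong_induction_on generalizing X S with
  | _ n ih =>
    by_cases h1 : S.card ≤ 1
    · exact ord_small X h1
    obtain ⟨a, b, hab⟩ : ∃ a b, X.adj a b = 1 := by
      by_contra h
      have : X = 0 := by
        ext a b
        exact z2_ne_one.1 fun e => h ⟨a, b, e⟩
      rw [this, rk_zero] at hr
      omega
    obtain ⟨u, hu, hne⟩ : ∃ u ∈ S, (X.nbr u).Nonempty := by
      rcases mem_insert.1 (hS a b hab) with rfl | ha
      · refine ⟨b, (mem_insert.1 (hS.right hab)).resolve_left (ne_of_adj hab).symm, a, ?_⟩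
        rw [mem_nbr, X.symm]; exact hab
      · exact ⟨a, ha, b, mem_nbr.2 hab⟩
    have hb := count_bad hE (proper_of_inj X hp) hp.injOn hne
    have hc := card_filter_add_card_filter_not (s := X.nbr u)
      (fun w => rk (X.ctr u w) p + 1 < rk X p)
    obtain ⟨w, hw, hwz⟩ := exists_mem_ne (s := (X.nbr u).filter
      fun w => ¬ rk (X.ctr u w) p + 1 < rk X p) (by omega) z
    obtain ⟨hw1, hw2⟩ := mem_filter.1 hw
    have hadj := mem_nbr.1 hw1
    have hwS : w ∈ S := (mem_insert.1 (hS.right hadj)).resolve_left hwz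
    have hcard := card_erase_add_one hu
    refine ord_lift hu hwS hadj (ih _ (by omega) (hE.ctr u w) (fun h => hz (mem_of_mem_erase h))
      ((hS.ctr (ne_of_adj hadj) (mem_insert_of_mem hwS)).mono fun x hx => ?_) (by omega) rfl)
    obtain ⟨h2, h3⟩ := mem_erase.1 hx
    rcases mem_insert.1 h3 with rfl | h3
    · exact mem_insert_self _ _
    · exact mem_insert_of_mem (mem_erase.2 ⟨h2, h3⟩)

theorem rk_of_oddOrd {X : Gr V} {S : Finset V} (hF : Big F (2 * Fintype.card V ^ 2))
    (hp : ∃ p : V → F, Injective p) (h : OddOrd X S) :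
    ∃ p : V → F, Injective p ∧ S.card ≤ rk X p + 1 := by
  induction hn : S.card using Nat.strong_induction_on generalizing X S with
  | _ n ih =>
    subst hn
    by_cases h1 : S.card ≤ 1
    · obtain ⟨p, hp⟩ := hp
      exact ⟨p, hp, by omega⟩
    obtain ⟨pos, inj, odd⟩ := h
    obtain ⟨f, hf, fmin⟩ := exists_min_image S pos (card_pos.1 (by omega))
    have hc1 := card_erase_add_one hf
    obtain ⟨s, hs, smin⟩ := exists_min_image (S.erase f) pos (card_pos.1 (by omega))
    obtain ⟨hsf, hs⟩ := mem_erase.1 hs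
    have lt1 : pos f < pos s :=
      (fmin s hs).lt_of_ne fun e => hsf (inj (mem_coe.2 hf) (mem_coe.2 hs) e).symm
    have lt2 : ∀ v ∈ S, v ≠ s → v ≠ f → pos s < pos v := fun v hv h1 h2 =>
      (smin v (mem_erase.2 ⟨h2, hv⟩)).lt_of_ne fun e =>
        h1 (inj (mem_coe.2 hs) (mem_coe.2 hv) e).symm
    have hadj : X.adj s f = 1 := by
      have := odd s hs ⟨f, hf, lt1⟩
      rw [ord_sum X hsf hs hf, if_neg (lt_irrefl _), if_pos lt1, sum_eq_zero] at this
      · simpa using this
      · intro x hx
        simp only [mem_filter, mem_erase] at hx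
        exact absurd hx.2 (lt2 x hx.1.2.2 hx.1.2.1 hx.1.1).not_gt
    have hc2 := card_erase_add_one hs
    obtain ⟨p, hp1, hp2⟩ := ih _ (by omega) (X := X.ctr s f) (S := S.erase s)
      ⟨pos, inj.mono (coe_subset.2 (erase_subset _ _)), fun v hv hex => by
        obtain ⟨hvs, hv⟩ := mem_erase.1 hv
        have hvf : v ≠ f := by
          rintro rfl
          obtain ⟨y, hy, hlt⟩ := hex
          exact (fmin y (mem_of_mem_erase hy)).not_gt hlt
        have l2 := lt2 v hv hvs hvf
        have := odd v hv ⟨s, hs, l2⟩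
        rw [ord_sum X hsf hs hf, if_pos l2, if_pos (lt1.trans l2)] at this
        rw [ord_sum_ctr X hsf hf hvs hvf, if_pos (lt1.trans l2), ← this]; ring⟩ rfl
    obtain ⟨q, hq1, hq2⟩ := exists_lift (X := X) hF hp1 s f
    rw [hadj, ZMod.val_one] at hq2
    exact ⟨q, hq1, by omega⟩

end Pool.Agent.MP_bae0ed_lc.H52
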