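import Pool.Agent.MP_bae0ed_lc.H52.SpecTop
import Pool.Agent.MP_bae0ed_lc.H52.Order
import Pool.Agent.MP_bae0ed_lc.H52.Fld

/-!
Correctness of the decision procedure.
-/

set_option autoImplicit false

namespace Pool.Agent.MP_bae0ed_lc.H52

open Finset Function Gr

theorem main_field (M : ℕ) : 32 * (M + 1) ^ 6 + 1 ≤ 2 ^ (2 * 3 ^ (M.size + 3)) := by
  have h1 : M + 1 ≤ 2 ^ M.size := Nat.lt_size_self M
  have h2 : M.size + 1 ≤ 3 ^ M.size := Nat.lt_pow_self (by norm_num)
  have h3 : (M + 1) ^ 6 ≤ 2 ^ (M.size * 6) := by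
    rw [pow_mul]; exact Nat.pow_le_pow_left h1 6
  have h4 : 2 ^ (M.size * 6 + 6) ≤ 2 ^ (2 * 3 ^ (M.size + 3)) := by
    refine Nat.pow_le_pow_right (by norm_num) ?_
    rw [pow_add]
    omega
  have h5 : 0 < 2 ^ (M.size * 6) := by positivity
  rw [pow_add] at h4
  omega

/-- The Eulerian closure of a symmetric table of multiplicities on the first `n` numbers. -/
def clo (M n : ℕ) (m : ℕ → ℕ → ℕ) (hs : ∀ x y, m x y = m y x) (hd : ∀ x, m x x = 0) : Gr (Fin M) :=
  ⟨fun x y => (m x y : ZMod 2) + ((if (y : ℕ) = n then ∑ k ∈ range n, (m x k : ZMod 2) else 0) +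
      if (x : ℕ) = n then ∑ k ∈ range n, (m y k : ZMod 2) else 0),
    fun x y => by rw [hs, add_comm (ite _ _ _)],
    fun x => by rw [hd, z2_add_self]; simp⟩

section
variable {M n : ℕ} {m : ℕ → ℕ → ℕ} {hs : ∀ x y, m x y = m y x} {hd : ∀ x, m x x = 0}

theorem clo_sum (hM : n < M) (h0 : ∀ x y, n ≤ y → m x y = 0) (x : ℕ) :
    ∑ y : Fin M, (m x y : ZMod 2) = ∑ k ∈ range n, (m x k : ZMod 2) := by
  rw [Fin.sum_univ_eq_sum_range (fun k => (m x k : ZMod 2))]
  refine (Finset.sum_subset (Finset.range_mono hM.le) fun k _ hk => ?_).symm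
  rw [h0 x k (by simpa using hk), Nat.cast_zero]

theorem clo_eul (hM : n < M) (h0 : ∀ x y, n ≤ y → m x y = 0) : (clo M n m hs hd).Eul := by
  intro x
  have h1 : ∑ y : Fin M, (if (y : ℕ) = n then ∑ k ∈ range n, (m x k : ZMod 2) else 0) =
      ∑ k ∈ range n, (m x k : ZMod 2) := by
    rw [Finset.sum_eq_single ⟨n, hM⟩]
    · simp
    · intro b _ hb
      rw [if_neg fun h => hb (Fin.ext h)]
    · simp
  have h2 : ∑ y : Fin M, ∑ k ∈ range n, (m y k : ZMod 2) = 0 := by
    simp only [← clo_sum hM h0]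
    rw [← Finset.sum_product']
    refine Finset.sum_involution (fun p _ => p.swap) (fun p _ => ?_) (fun p _ h => ?_)
      (fun p _ => by simp) (fun p _ => by simp)
    · simp only [Prod.fst_swap, Prod.snd_swap, hs p.2 p.1, z2_add_self]
    · intro e
      have : p.2 = p.1 := congrArg Prod.fst e
      simp [this, hd] at h
  simp only [clo, Finset.sum_add_distrib, h1, clo_sum hM h0]
  split_ifs
  · rw [h2, add_zero, z2_add_self]
  · rw [Finset.sum_const_zero, add_zero, z2_add_self]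

theorem clo_le (h0 : ∀ x y, n ≤ y → m x y = 0) {a b : Fin M}
    (h : (clo M n m hs hd).adj a b = 1) : (a : ℕ) ≤ n := by
  by_contra hlt
  have h1 : ∀ y, m a y = 0 := fun y => by rw [hs]; exact h0 _ _ (by omega)
  have h2 : (a : ℕ) ≠ n := by omega
  simp [clo, h1, h2] at h

theorem clo_adj {a b : Fin M} (ha : (a : ℕ) < n) (hb : (b : ℕ) < n) :
    (clo M n m hs hd).adj a b = (m a b : ZMod 2) := by
  simp [clo, ha.ne, hb.ne]

theorem clo_oddOrd {n : ℕ} {μ : Fin (n + 1) → Fin (n + 1) → ℕ} (hM : n + 1 < M)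
    (hm : ∀ a b : Fin (n + 1), m a b = μ a b) :
    OddOrd (clo M (n + 1) m hs hd) (univ.filter fun a => (a : ℕ) < n + 1) ↔
      ∃ σ : Equiv.Perm (Fin (n + 1)), ∀ i, i ≠ 0 → Odd (∑ j with j < i, μ (σ i) (σ j)) := by
  have key : ∀ (σ : Equiv.Perm (Fin (n + 1))) (pos : Fin M → ℕ),
      (∀ i j, pos (Fin.castLE hM.le (σ j)) < pos (Fin.castLE hM.le (σ i)) ↔ j < i) → ∀ i,
      (∑ u ∈ (univ.filter fun a : Fin M => (a : ℕ) < n + 1) with
        pos u < pos (Fin.castLE hM.le (σ i)),
          (clo M (n + 1) m hs hd).adj (Fin.castLE hM.le (σ i)) u = 1 ↔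
        Odd (∑ j with j < i, μ (σ i) (σ j))) := by
    intro σ pos h i
    rw [← ZMod.natCast_eq_one_iff_odd, Nat.cast_sum]
    refine Eq.congr_left (Finset.sum_bij (fun j _ => Fin.castLE hM.le (σ j)) ?_ ?_ ?_ ?_).symm
    · intro j hj
      simpa [h] using ⟨Nat.lt_succ_iff.1 (σ j).2, by simpa using hj⟩
    · intro j _ j' _ e
      exact σ.injective (Fin.castLE_injective _ e)
    · intro u hu
      simp only [Finset.mem_filter, Finset.mem_univ, true_and] at hu
      have e : Fin.castLE hM.le (σ (σ.symm ⟨u, hu.1⟩)) = u := by simp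
      refine ⟨σ.symm ⟨u, hu.1⟩, ?_, e⟩
      simp only [Finset.mem_filter, Finset.mem_univ, true_and]
      rw [← h, e]
      exact hu.2
    · intro j _
      rw [clo_adj (by simpa using Nat.lt_succ_iff.1 (σ i).2) (by simpa using Nat.lt_succ_iff.1 (σ j).2),
        ← hm]
      rfl
  constructor
  · rintro ⟨pos, h1, h2⟩
    let g : Fin (n + 1) → ℕ := fun a => pos (Fin.castLE hM.le a)
    have hg : Injective g := fun a b e => Fin.castLE_injective _
      (h1 (by simpa using Nat.lt_succ_iff.1 a.2) (by simpa using Nat.lt_succ_iff.1 b.2) e)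
    have hmono : StrictMono (g ∘ Tuple.sort g) :=
      (Tuple.monotone_sort g).strictMono_of_injective (hg.comp (Tuple.sort g).injective)
    refine ⟨Tuple.sort g, fun i hi => ?_⟩
    rw [← key (Tuple.sort g) pos (fun i j => hmono.lt_iff_lt) i]
    refine h2 _ (by simpa using Nat.lt_succ_iff.1 (Tuple.sort g i).2)
      ⟨Fin.castLE hM.le (Tuple.sort g 0), by simpa using Nat.lt_succ_iff.1 (Tuple.sort g 0).2, ?_⟩
    exact hmono (Fin.pos_iff_ne_zero.2 hi)
  · rintro ⟨σ, hσ⟩
    let pos : Fin M → ℕ := fun u => if h : (u : ℕ) < n + 1 then σ.symm ⟨u, h⟩ else 0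
    have hpos : ∀ i, pos (Fin.castLE hM.le (σ i)) = i := by
      intro i
      simp only [pos]
      rw [dif_pos (by simpa using Nat.lt_succ_iff.1 (σ i).2)]
      simp
    have hsurj : ∀ u : Fin M, (u : ℕ) < n + 1 → ∃ i, u = Fin.castLE hM.le (σ i) :=
      fun u hu => ⟨σ.symm ⟨u, hu⟩, by simp⟩
    refine ⟨pos, fun u hu v hv e => ?_, fun v hv hex => ?_⟩
    · obtain ⟨i, rfl⟩ := hsurj u (by simpa using hu)
      obtain ⟨j, rfl⟩ := hsurj v (by simpa using hv)
      rw [hpos, hpos] at e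
      rw [Fin.ext e]
    · obtain ⟨i, rfl⟩ := hsurj v (by simpa using hv)
      rw [key σ pos (fun i j => by rw [hpos, hpos]; rfl) i]
      refine hσ i ?_
      rintro rfl
      obtain ⟨u, _, hu⟩ := hex
      rw [hpos] at hu
      simp at hu

end

theorem b2z_mod (k : ℕ) : b2z (decide (k % 2 = 1)) = (k : ZMod 2) := by
  rcases Nat.mod_two_eq_zero_or_one k with h | h
  · rw [(ZMod.natCast_eq_zero_iff_even).2 (Nat.even_iff.2 h)]
    simp [h]
  · rw [(ZMod.natCast_eq_one_iff_odd).2 (Nat.odd_iff.2 h)]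
    simp [h]

theorem answer_iff (n : ℕ) (μ : Fin (n + 1) → Fin (n + 1) → ℕ) (hsymm : ∀ a b, μ a b = μ b a)
    (hdiag : ∀ a, μ a a = 0) :
    answer (List.ofFn fun a => List.ofFn (μ a)) = true ↔
      ∃ σ : Equiv.Perm (Fin (n + 1)), ∀ i, i ≠ 0 → Odd (∑ j with j < i, μ (σ i) (σ j)) := by
  set L : List (List ℕ) := List.ofFn fun a => List.ofFn (μ a) with hL
  have hlen : L.length = n + 1 := by simp [hL]
  have hN : (unN L).length = n + 2 := by simp [unN, hlen]
  have hW : (unW L).length = 4 * (unN L).length + 1 := by simp [unW]; omega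
  let m : ℕ → ℕ → ℕ := fun x y => (L.getD x []).getD y 0
  have hrow : ∀ a : Fin (n + 1), L.getD a [] = List.ofFn (μ a) := by
    intro a
    simp [hL, List.getD_eq_getElem?_getD, List.getElem?_ofFn, -List.ofFn_succ, a.is_le]
  have hrow' : ∀ x, n + 1 ≤ x → L.getD x [] = [] := fun x hx =>
    List.getD_eq_default _ _ (by omega)
  have hm : ∀ a b : Fin (n + 1), m a b = μ a b := by
    intro a b
    simp only [m, hrow]
    simp [List.getD_eq_getElem?_getD, List.getElem?_ofFn, -List.ofFn_succ, b.is_le]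
  have h0 : ∀ x y, n + 1 ≤ y → m x y = 0 := by
    intro x y hy
    by_cases hx : x < n + 1
    · simp only [m, hrow ⟨x, hx⟩]
      exact List.getD_eq_default _ _ (by simpa using hy)
    · simp only [m, hrow' x (by omega), List.getD_nil]
  have h0' : ∀ x y, n + 1 ≤ x → m x y = 0 := fun x y hx => by
    simp only [m, hrow' x hx, List.getD_nil]
  have hs : ∀ x y, m x y = m y x := by
    intro x y
    by_cases hx : x < n + 1
    · by_cases hy : y < n + 1
      · exact (hm ⟨x, hx⟩ ⟨y, hy⟩).trans ((hsymm _ _).trans (hm ⟨y, hy⟩ ⟨x, hx⟩).symm)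
      · rw [h0 x y (by omega), h0' y x (by omega)]
    · rw [h0 y x (by omega), h0' x y (by omega)]
  have hd : ∀ x, m x x = 0 := by
    intro x
    by_cases hx : x < n + 1
    · exact (hm ⟨x, hx⟩ ⟨x, hx⟩).trans (hdiag _)
    · exact h0 x x (by omega)
  have hM : n + 1 < (unW L).length := by omega
  have hG : gr (unW L).length (closure (unW L) L) = clo _ (n + 1) m hs hd := by
    refine gr_tab fun a b hab => ?_
    have hab' : (a : ℕ) < b := hab
    rw [hlen]
    split_ifs with hb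
    · rw [b2z_mod, clo_adj (by omega) hb]
    · by_cases hb' : (b : ℕ) = n + 1
      · have ha : (a : ℕ) < n + 1 := by omega
        have e : (L.getD a []).sum = ∑ k ∈ range (n + 1), m a k := by
          rw [← Fin.sum_univ_eq_sum_range (fun k => m a k), hrow ⟨a, ha⟩, List.sum_ofFn]
          exact Finset.sum_congr rfl fun k _ => (hm ⟨a, ha⟩ k).symm
        simp only [hb', decide_true, Bool.true_and, b2z_mod, e, clo, h0 a (n + 1) le_rfl, ha.ne]
        simp
      · have e : ∀ k, m b k = 0 := fun k => h0' _ _ (by omega)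
        simp [clo, hb', h0 a b (by omega), e]
  obtain ⟨F, _, _, θ, hsem⟩ := exists_sem (ctx (unW L)) ((unW L).length.size + 3)
    (by simp [ctx]) (by simpa [ctx] using main_field _)
  have hok : Ok (ctx (unW L)) (unW L).length := by simp [Ok, ctx]
  have hE : (gr (unW L).length (closure (unW L) L)).Eul := hG ▸ clo_eul hM h0
  have hle : ∀ a b, (gr (unW L).length (closure (unW L) L)).adj a b = 1 →
      (a : ℕ) < (unN L).length := by
    intro a b hab
    rw [hG] at hab
    have := clo_le h0 hab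
    omega
  obtain ⟨h1, h2⟩ := topRun_spec hsem hok hW hle hE
  have hcard : (univ.filter fun a : Fin (unW L).length => (a : ℕ) < n + 1).card = n + 1 := by
    rw [Fin.card_filter_val_lt]
    omega
  rw [← clo_oddOrd (hs := hs) (hd := hd) hM hm, ← hG, answer, decide_eq_true_iff, hsem.rkC_eq, hN]
  constructor
  · intro h
    refine oddOrd_of_rk (z := ⟨n + 1, hM⟩) hE (by simp) (fun a b hab => ?_) h1 (by omega)
    have := hle a b hab
    simp only [Finset.mem_insert, Finset.mem_filter, Finset.mem_univ, true_and, Fin.ext_iff]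
    omega
  · intro h
    obtain ⟨Λ, hΛ⟩ := Ok.big hsem hok
    have hb : 2 * Fintype.card (Fin (unW L).length) ^ 2 ≤ 32 * ((unW L).length + 1) ^ 6 := by
      rw [Fintype.card_fin]
      have : (unW L).length ^ 2 ≤ ((unW L).length + 1) ^ 6 :=
        (Nat.pow_le_pow_left (Nat.le_succ _) 2).trans (Nat.pow_le_pow_right (by omega) (by omega))
      omega
    obtain ⟨p, hp, hr⟩ := rk_of_oddOrd (F := F) ⟨Λ, hb.trans_lt hΛ⟩ ⟨_, h1⟩ h
    have := h2 p hp
    omega

end Pool.Agent.MP_bae0ed_lc.H52
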