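import Pool.Agent.MP_bae0ed_lc.H52.Prim

/-!
The primitive operations run in polynomial time.
-/

set_option autoImplicit false
set_option linter.unusedSectionVars false

namespace Pool.Agent.MP_bae0ed_lc.H52

open Pool.Agent.Shared.H56 Pool.Agent.MP_0c5eb8_lc Polynomial

variable {α β γ : Type} [N487b59b3 α] [N487b59b3 β] [N487b59b3 γ]

theorem foldl_grow {δ : Type} [N487b59b3 δ] {f : α → γ → β → γ} {i : α → γ} {l : α → List β}
    (g : α → δ) (hf : PT fun p : α × γ × β => f p.1 p.2.1 p.2.2) (hi : PT i) (hl : PT l)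
    (hg : PT g) (h : ∀ a s x, sz (f a s x) ≤ sz s + sz (g a)) :
    PT fun a => (l a).foldl (f a) (i a) := by
  obtain ⟨B, hB⟩ := hg.size
  refine PT.foldl_add hf hi hl ⟨B, fun a s x _ => (h a s x).trans ?_⟩
  have h1 := hB a
  have h2 := poly_mono B (Nat.le_add_right (sz a) (sz x))
  omega

theorem iterate_grow {δ : Type} [N487b59b3 δ] {f : α → β → β} {i : α → β} {n : α → ℕ}
    (g : α → δ) (hf : PT fun p : α × β => f p.1 p.2) (hi : PT i) (hn : PT fun a => un (n a))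
    (hg : PT g) (h : ∀ a s, sz (f a s) ≤ sz s + sz (g a)) :
    PT fun a => (f a)^[n a] (i a) := by
  obtain ⟨B, hB⟩ := hg.size
  refine PT.iterate_add hf hi hn ⟨B, fun a s => (h a s).trans ?_⟩
  have h1 := hB a
  omega

theorem unwind_eq {σ τ : Type} (step : σ → σ) (back : σ → τ → τ) (n : ℕ) (s : σ) (b : τ) :
    unwind step back n s b =
      ((List.range n).map fun j => step^[j] s).reverse.foldl (fun b s => back s b) b := by
  induction n generalizing s with
  | zero => rfl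
  | succ n ih =>
    rw [unwind, ih, List.range_succ_eq_map]
    simp [Function.comp_def]

theorem pt_unwind {δ δ' : Type} [N487b59b3 δ] [N487b59b3 δ'] {step : α → β → β}
    {back : α → β → γ → γ} {n : α → ℕ} {s : α → β} {b : α → γ} (g : α → δ) (g' : α × β → δ')
    (hstep : PT fun p : α × β => step p.1 p.2)
    (hback : PT fun p : α × β × γ => back p.1 p.2.1 p.2.2) (hn : PT fun a => un (n a))
    (hs : PT s) (hb : PT b) (hg : PT g) (hg' : PT g')
    (h : ∀ a x, sz (step a x) ≤ sz x + sz (g a))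
    (h' : ∀ a x y, sz (back a x y) ≤ sz (g' (a, x))) :
    PT fun a => unwind (step a) (back a) (n a) (s a) (b a) := by
  have h1 : PT fun p : α × ℕ => (step p.1)^[min p.2 (n p.1)] (s p.1) := by
    refine iterate_grow (f := fun (p : α × ℕ) x => step p.1 x) (fun p => g p.1)
      (hstep.comp (g := fun q : (α × ℕ) × β => (q.1.1, q.2)) (by fun_prop)) (by fun_prop) ?_
      (by fun_prop) (fun p x => h p.1 x)
    exact PT.un_min (by fun_prop) (hn.comp (g := fun p : α × ℕ => p.1) (by fun_prop))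
  have h2 : PT fun a => ((List.range (n a)).map fun j => (step a)^[j] (s a)).reverse := by
    refine PT.reverse (PT.map_mem (g := fun a j => (step a)^[min j (n a)] (s a)) h1
      (PT.range hn) fun a j hj => ?_)
    rw [min_eq_left (List.mem_range.1 hj).le]
  obtain ⟨B, hB⟩ := hg'.size
  obtain ⟨C, hC⟩ := h2.size
  obtain ⟨D, hD⟩ := hb.size
  refine (PT.foldl (f := fun a y x => back a x y)
    (hback.comp (g := fun p : α × γ × β => (p.1, p.2.2, p.2.1)) (by fun_prop)) hb h2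
    ⟨D + B.comp (2 * X + 1 + C), fun a k => ?_⟩).congr fun a => (unwind_eq _ _ _ _ _).symm
  refine H36.foldl_inv (P := fun y => sz y ≤ (D + B.comp (2 * X + 1 + C)).eval (sz a)) ?_ ?_
  · have := hD a
    simp only [eval_add]
    omega
  · intro y x hx _
    have e1 := sz_le_of_mem (List.mem_of_mem_take hx)
    have e2 := hC a
    have e3 := hB (a, x)
    have e4 : B.eval (sz (a, x)) ≤ B.eval (2 * sz a + 1 + C.eval (sz a)) :=
      poly_mono B (by simp only [sz_pair]; omega)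
    have e5 := h' a x y
    simp only [eval_add, eval_comp, eval_mul, eval_X, eval_ofNat, eval_one]
    omega

theorem sz_map_le {δ : Type} [N487b59b3 δ] {l : List α} {f : α → β} {g : α → δ}
    (h : ∀ x ∈ l, sz (f x) ≤ sz (g x)) : sz (l.map f) ≤ sz (l.map g) := by
  induction l with
  | nil => simp
  | cons x l ih =>
    have h1 := h x List.mem_cons_self
    have h2 := ih fun y hy => h y (List.mem_cons_of_mem _ hy)
    simp only [List.map_cons, sz_cons]
    omega

theorem sz_bmap (w : Un) (f : ℕ → Bool) : sz ((rg w).map f) = sz w := by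
  simp [sz_list_bool, rg]

theorem sz_fadd (c : Ctx) (a b : Fe) : sz (fadd c a b) = sz (fk c) := sz_bmap _ _

theorem sz_sett (w : Un) (f : ℕ → Bool) : sz (sett w f) = sz w := sz_bmap _ _

theorem sz_fmul (c : Ctx) (a b : Fe) : sz (fmul c a b) ≤ sz (fk c) :=
  H36.foldl_inv (P := fun s => sz s ≤ sz (fk c)) (by simp) fun _ _ _ _ => (sz_fadd _ _ _).le

/-- The largest table. -/
def bigT (w : Un) : Tab := (rg w).map fun _ => w

/-- The largest evaluation. -/
def bigE (c : Ctx) (w : Un) : Ev := (rg w).map fun _ => fk c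

theorem sz_tab (w : Un) (f : ℕ → ℕ → Bool) : sz (tab w f) ≤ sz (bigT w) :=
  sz_map_le fun _ _ => (sz_bmap _ _).le

theorem sz_pick {l : List α} {p : α → Bool} {d : α} {m : ℕ} (h : ∀ x ∈ l, sz x ≤ m)
    (hd : sz d ≤ m) : sz (pick l p d) ≤ m := by
  unfold pick
  cases e : l.filter p with
  | nil => exact hd
  | cons x xs =>
    exact h x (List.mem_of_mem_filter (p := p) (e ▸ List.mem_cons_self))

theorem sz_pick_le (l : List α) (p : α → Bool) (d : α) : sz (pick l p d) ≤ sz l + sz d :=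
  sz_pick (fun _ hx => (sz_le_of_mem hx).trans (by omega)) (by omega)

theorem sz_line (c : Ctx) (w : Un) (obj : List Obj) (e p : Ev) :
    sz (line c w obj e p) ≤ sz (bigE c w) := by
  refine sz_pick (fun x hx => ?_) (by simp)
  obtain ⟨i, _, rfl⟩ := List.mem_map.1 hx
  exact sz_map_le fun _ _ => (sz_fadd _ _ _).le

theorem sz_mergeAll (c : Ctx) (w : Un) (obj : List Obj) (e : Ev) (ps : List Ev) :
    sz (mergeAll c w obj e ps) ≤ sz e + sz (bigE c w) :=
  H36.foldl_inv (P := fun s => sz s ≤ sz e + sz (bigE c w)) (by simp) fun _ _ _ _ =>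
    (sz_line _ _ _ _ _).trans (by omega)

theorem sz_ctrG (w : Un) (X : Tab) (u v : ℕ) : sz (ctrG w X u v) ≤ sz (bigT w) := sz_tab _ _

theorem sz_gstep (w : Un) (ok : Tab → ℕ × ℕ → Bool) (X : Tab) :
    sz (gstep w ok X) ≤ sz X + sz (bigT w) := by
  unfold gstep
  split_ifs
  · exact (sz_ctrG _ _ _ _).trans (by omega)
  · omega

@[fun_prop] theorem pt_pick {l : α → List β} {p : α → β → Bool} {d : α → β} (hl : PT l)
    (hp : PT fun q : α × β => p q.1 q.2) (hd : PT d) : PT fun a => pick (l a) (p a) (d a) := by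
  unfold pick
  fun_prop

@[fun_prop] theorem pt_rg {w : α → Un} (hw : PT w) :
    PT fun ξ => rg (w ξ) := by
  unfold rg
  fun_prop

@[fun_prop] theorem pt_pairs {w : α → Un} (hw : PT w) :
    PT fun ξ => pairs (w ξ) := by
  unfold pairs
  fun_prop

@[fun_prop] theorem pt_triples {w : α → Un} (hw : PT w) :
    PT fun ξ => triples (w ξ) := by
  unfold triples
  fun_prop

@[fun_prop] theorem pt_quads {w : α → Un} (hw : PT w) :
    PT fun ξ => quads (w ξ) := by
  unfold quads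
  fun_prop

@[fun_prop] theorem pt_fk {c : α → Ctx} (hc : PT c) :
    PT fun ξ => fk (c ξ) := by
  unfold fk
  fun_prop

@[fun_prop] theorem pt_bigT {w : α → Un} (hw : PT w) : PT fun ξ => bigT (w ξ) := by
  unfold bigT
  fun_prop

@[fun_prop] theorem pt_bigE {c : α → Ctx} {w : α → Un} (hc : PT c) (hw : PT w) :
    PT fun ξ => bigE (c ξ) (w ξ) := by
  unfold bigE
  fun_prop

@[fun_prop] theorem pt_bt {a : α → List Bool} {i : α → ℕ} (ha : PT a) (hi : PT i) :
    PT fun ξ => bt (a ξ) (i ξ) := by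
  unfold bt
  fun_prop

@[fun_prop] theorem pt_fadd {c : α → Ctx} {a : α → Fe} {b : α → Fe} (hc : PT c) (ha : PT a)
    (hb : PT b) :
    PT fun ξ => fadd (c ξ) (a ξ) (b ξ) := by
  unfold fadd
  fun_prop

@[fun_prop] theorem pt_mulX {c : α → Ctx} {a : α → Fe} (hc : PT c) (ha : PT a) :
    PT fun ξ => mulX (c ξ) (a ξ) := by
  unfold mulX
  fun_prop

@[fun_prop] theorem pt_fmul {c : α → Ctx} {a : α → Fe} {b : α → Fe} (hc : PT c) (ha : PT a)
    (hb : PT b) :
    PT fun ξ => fmul (c ξ) (a ξ) (b ξ) := by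
  unfold fmul
  exact foldl_grow (f := fun ξ s i => fadd (c ξ) (mulX (c ξ) s) (if bt (a ξ) i then b ξ else []))
    (fun ξ => fk (c ξ)) (by fun_prop) (by fun_prop) (by fun_prop) (by fun_prop)
    fun _ _ _ => by rw [sz_fadd]; omega

@[fun_prop] theorem pt_finv {c : α → Ctx} {a : α → Fe} (hc : PT c) (ha : PT a) :
    PT fun ξ => finv (c ξ) (a ξ) := by
  unfold finv
  refine PT.snd (foldl_grow
    (f := fun ξ (s : Fe × Fe) (_ : Bool) => (fmul (c ξ) s.1 s.1, fmul (c ξ) s.2 s.1))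
    (fun ξ => (fk (c ξ), fk (c ξ))) (by fun_prop) (by fun_prop) (by fun_prop) (by fun_prop)
    fun ξ s _ => ?_)
  have h1 := sz_fmul (c ξ) s.1 s.1
  have h2 := sz_fmul (c ξ) s.2 s.1
  simp only [sz_pair]
  omega

@[fun_prop] theorem pt_feq {c : α → Ctx} {a : α → Fe} {b : α → Fe} (hc : PT c) (ha : PT a)
    (hb : PT b) :
    PT fun ξ => feq (c ξ) (a ξ) (b ξ) := by
  unfold feq
  fun_prop

@[fun_prop] theorem pt_fsum {c : α → Ctx} {l : α → List Fe} (hc : PT c) (hl : PT l) :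
    PT fun ξ => fsum (c ξ) (l ξ) := by
  unfold fsum
  exact foldl_grow (f := fun ξ => fadd (c ξ))
    (fun ξ => fk (c ξ)) (by fun_prop) (by fun_prop) (by fun_prop) (by fun_prop)
    fun _ _ _ => by rw [sz_fadd]; omega

@[fun_prop] theorem pt_coords {c : α → Ctx} {w : α → Un} {v : α → List Fe} (hc : PT c)
    (hw : PT w) (hv : PT v) :
    PT fun ξ => coords (c ξ) (w ξ) (v ξ) := by
  unfold coords
  fun_prop

@[fun_prop] theorem pt_blow {c : α → Ctx} {vs : α → List (List Fe)} (hc : PT c) (hvs : PT vs) :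
    PT fun ξ => blow (c ξ) (vs ξ) := by
  unfold blow
  refine PT.flatMap ?_ hvs
  refine PT.map_mem (g := fun (p : α × List Fe) i => p.2.map
    (fmul (c p.1) (List.replicate (min i (fk (c p.1)).length) false ++ [true])))
    (by fun_prop) (by fun_prop) fun p i hi => ?_
  rw [min_eq_left (List.mem_range.1 hi).le]

@[fun_prop] theorem pt_rkF {c : α → Ctx} {w : α → Un} {vs : α → List (List Fe)} (hc : PT c)
    (hw : PT w) (hvs : PT vs) :
    PT fun ξ => rkF (c ξ) (w ξ) (vs ξ) := by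
  unfold rkF
  fun_prop

@[fun_prop] theorem pt_ad {T : α → Tab} {a : α → ℕ} {b : α → ℕ} (hT : PT T) (ha : PT a)
    (hb : PT b) :
    PT fun ξ => ad (T ξ) (a ξ) (b ξ) := by
  unfold ad
  fun_prop

@[fun_prop] theorem pt_tab {w : α → Un} {f : α → ℕ → ℕ → Bool} (hw : PT w)
    (hf : PT fun r : α × (ℕ) × (ℕ) => f r.1 r.2.1 r.2.2) :
    PT fun ξ => tab (w ξ) (f ξ) := by
  unfold tab
  fun_prop

@[fun_prop] theorem pt_sett {w : α → Un} {f : α → ℕ → Bool} (hw : PT w)
    (hf : PT fun r : α × (ℕ) => f r.1 r.2) :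
    PT fun ξ => sett (w ξ) (f ξ) := by
  unfold sett
  fun_prop

@[fun_prop] theorem pt_rowG {w : α → Un} {X : α → Tab} {u : α → ℕ} (hw : PT w) (hX : PT X)
    (hu : PT u) :
    PT fun ξ => rowG (w ξ) (X ξ) (u ξ) := by
  unfold rowG
  fun_prop

@[fun_prop] theorem pt_addG {w : α → Un} {X : α → Tab} {Y : α → Tab} (hw : PT w) (hX : PT X)
    (hY : PT Y) :
    PT fun ξ => addG (w ξ) (X ξ) (Y ξ) := by
  unfold addG
  fun_prop

@[fun_prop] theorem pt_edgeB {a : α → ℕ} {b : α → ℕ} {x : α → ℕ} {y : α → ℕ} (ha : PT a)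
    (hb : PT b) (hx : PT x) (hy : PT y) :
    PT fun ξ => edgeB (a ξ) (b ξ) (x ξ) (y ξ) := by
  unfold edgeB
  fun_prop

@[fun_prop] theorem pt_addTri {w : α → Un} {X : α → Tab} {a : α → ℕ} {b : α → ℕ} {c : α → ℕ}
    (hw : PT w) (hX : PT X) (ha : PT a) (hb : PT b) (hc : PT c) :
    PT fun ξ => addTri (w ξ) (X ξ) (a ξ) (b ξ) (c ξ) := by
  unfold addTri
  fun_prop

@[fun_prop] theorem pt_splitG {w : α → Un} {X : α → Tab} {y : α → ℕ} {y2 : α → ℕ} {Z : α → St}
    (hw : PT w) (hX : PT X) (hy : PT y) (hy2 : PT y2) (hZ : PT Z) :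
    PT fun ξ => splitG (w ξ) (X ξ) (y ξ) (y2 ξ) (Z ξ) := by
  unfold splitG
  fun_prop

@[fun_prop] theorem pt_ctrG {w : α → Un} {X : α → Tab} {u : α → ℕ} {v : α → ℕ} (hw : PT w)
    (hX : PT X) (hu : PT u) (hv : PT v) :
    PT fun ξ => ctrG (w ξ) (X ξ) (u ξ) (v ξ) := by
  unfold ctrG
  fun_prop

@[fun_prop] theorem pt_indG {w : α → Un} {X : α → Tab} {C : α → St} (hw : PT w) (hX : PT X)
    (hC : PT C) :
    PT fun ξ => indG (w ξ) (X ξ) (C ξ) := by
  unfold indG
  fun_prop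

@[fun_prop] theorem pt_gm {φ : α → List ℕ} {a : α → ℕ} (hφ : PT φ) (ha : PT a) :
    PT fun ξ => gm (φ ξ) (a ξ) := by
  unfold gm
  fun_prop

@[fun_prop] theorem pt_pushG {w : α → Un} {w' : α → Un} {φ : α → List ℕ} {X : α → Tab}
    (hw : PT w) (hw' : PT w') (hφ : PT φ) (hX : PT X) :
    PT fun ξ => pushG (w ξ) (w' ξ) (φ ξ) (X ξ) := by
  unfold pushG
  fun_prop

@[fun_prop] theorem pt_fullG {w : α → Un} (hw : PT w) :
    PT fun ξ => fullG (w ξ) := by
  unfold fullG
  fun_prop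

@[fun_prop] theorem pt_iota2 {w : α → Un} {D : α → St} (hw : PT w) (hD : PT D) :
    PT fun ξ => iota2 (w ξ) (D ξ) := by
  unfold iota2
  fun_prop

@[fun_prop] theorem pt_dblG {w : α → Un} {D : α → St} {X : α → Tab} {Y : α → Tab} (hw : PT w)
    (hD : PT D) (hX : PT X) (hY : PT Y) :
    PT fun ξ => dblG (w ξ) (D ξ) (X ξ) (Y ξ) := by
  unfold dblG
  fun_prop

@[fun_prop] theorem pt_isoG {w : α → Un} {X : α → Tab} {u : α → ℕ} (hw : PT w) (hX : PT X)
    (hu : PT u) :
    PT fun ξ => isoG (w ξ) (X ξ) (u ξ) := by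
  unfold isoG
  fun_prop

@[fun_prop] theorem pt_deg {w : α → Un} {X : α → Tab} {u : α → ℕ} (hw : PT w) (hX : PT X)
    (hu : PT u) :
    PT fun ξ => deg (w ξ) (X ξ) (u ξ) := by
  unfold deg
  fun_prop

@[fun_prop] theorem pt_cardS {w : α → Un} {C : α → St} (hw : PT w) (hC : PT C) :
    PT fun ξ => cardS (w ξ) (C ξ) := by
  unfold cardS
  fun_prop

@[fun_prop] theorem pt_fullB {w : α → Un} {X : α → Tab} {C : α → St} (hw : PT w) (hX : PT X)
    (hC : PT C) :
    PT fun ξ => fullB (w ξ) (X ξ) (C ξ) := by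
  unfold fullB
  fun_prop

@[fun_prop] theorem pt_upd {w : α → Un} {u : α → ℕ} {v : α → ℕ} (hw : PT w) (hu : PT u)
    (hv : PT v) :
    PT fun ξ => upd (w ξ) (u ξ) (v ξ) := by
  unfold upd
  fun_prop

@[fun_prop] theorem pt_swp {w : α → Un} {u : α → ℕ} {v : α → ℕ} (hw : PT w) (hu : PT u)
    (hv : PT v) :
    PT fun ξ => swp (w ξ) (u ξ) (v ξ) := by
  unfold swp
  fun_prop

@[fun_prop] theorem pt_gv {p : α → Ev} {a : α → ℕ} (hp : PT p) (ha : PT a) :
    PT fun ξ => gv (p ξ) (a ξ) := by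
  unfold gv
  fun_prop

@[fun_prop] theorem pt_cmp {w : α → Un} {φ : α → List ℕ} {p : α → Ev} (hw : PT w) (hφ : PT φ)
    (hp : PT p) :
    PT fun ξ => cmp (w ξ) (φ ξ) (p ξ) := by
  unfold cmp
  fun_prop

@[fun_prop] theorem pt_app {w : α → Un} {p : α → Ev} {q : α → Ev} (hw : PT w) (hp : PT p)
    (hq : PT q) :
    PT fun ξ => app (w ξ) (p ξ) (q ξ) := by
  unfold app
  fun_prop

@[fun_prop] theorem pt_svC {c : α → Ctx} {w : α → Un} {p : α → Ev} {y : α → ℕ} {Z : α → St}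
    (hc : PT c) (hw : PT w) (hp : PT p) (hy : PT y) (hZ : PT Z) :
    PT fun ξ => svC (c ξ) (w ξ) (p ξ) (y ξ) (Z ξ) := by
  unfold svC
  fun_prop

@[fun_prop] theorem pt_lapC {c : α → Ctx} {w : α → Un} {X : α → Tab} {p : α → Ev} (hc : PT c)
    (hw : PT w) (hX : PT X) (hp : PT p) :
    PT fun ξ => lapC (c ξ) (w ξ) (X ξ) (p ξ) := by
  unfold lapC
  fun_prop

@[fun_prop] theorem pt_rkC {c : α → Ctx} {w : α → Un} {X : α → Tab} {p : α → Ev} (hc : PT c)
    (hw : PT w) (hX : PT X) (hp : PT p) :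
    PT fun ξ => rkC (c ξ) (w ξ) (X ξ) (p ξ) := by
  unfold rkC
  fun_prop

@[fun_prop] theorem pt_propC {c : α → Ctx} {w : α → Un} {X : α → Tab} {p : α → Ev} (hc : PT c)
    (hw : PT w) (hX : PT X) (hp : PT p) :
    PT fun ξ => propC (c ξ) (w ξ) (X ξ) (p ξ) := by
  unfold propC
  fun_prop

@[fun_prop] theorem pt_nulStep {c : α → Ctx} {w : α → Un} {X : α → Tab} {y : α → ℕ}
    {gens : α → List St} {p : α → Ev} (hc : PT c) (hw : PT w) (hX : PT X) (hy : PT y)
    (hgens : PT gens) (hp : PT p) :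
    PT fun ξ => nulStep (c ξ) (w ξ) (X ξ) (y ξ) (gens ξ) (p ξ) := by
  unfold nulStep
  fun_prop

theorem sz_nulStep (c : Ctx) (w : Un) (X : Tab) (y : ℕ) (s : List St) (p : Ev) :
    sz (nulStep c w X y s p) ≤ sz (bigT w) := by
  have key : ∀ (l : List St) (l' : List ℕ), l.length = l'.length →
      sz (l.map fun Z => sett w (bt Z)) = sz (l'.map fun _ => w) := by
    intro l
    induction l with
    | nil => intro l' h; cases l' <;> simp_all
    | cons x l ih =>
      intro l' h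
      cases l' with
      | nil => simp at h
      | cons y l' => simp only [List.map_cons, sz_cons, sz_sett, ih l' (by simpa using h)]
  exact (key _ _ (by rw [H36.length_inter]; simp)).le

@[fun_prop] theorem pt_nul {c : α → Ctx} {w : α → Un} {X : α → Tab} {P : α → List Ev}
    {y : α → ℕ} {A : α → St} (hc : PT c) (hw : PT w) (hX : PT X) (hP : PT P) (hy : PT y)
    (hA : PT A) :
    PT fun ξ => nul (c ξ) (w ξ) (X ξ) (P ξ) (y ξ) (A ξ) := by
  unfold nul
  refine foldl_grow (f := fun ξ => nulStep (c ξ) (w ξ) (X ξ) (y ξ))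
    (fun ξ => bigT (w ξ)) (by fun_prop) (by fun_prop) (by fun_prop) (by fun_prop)
    fun ξ s p => (sz_nulStep _ _ _ _ _ _).trans (by omega)

@[fun_prop] theorem pt_lin {c : α → Ctx} {w : α → Un} {e : α → Ev} {p : α → Ev} {t : α → Fe}
    (hc : PT c) (hw : PT w) (he : PT e) (hp : PT p) (ht : PT t) :
    PT fun ξ => lin (c ξ) (w ξ) (e ξ) (p ξ) (t ξ) := by
  unfold lin
  fun_prop

@[fun_prop] theorem pt_score {c : α → Ctx} {q : α → Ev} {o : α → Obj} (hc : PT c) (hq : PT q)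
    (ho : PT o) :
    PT fun ξ => score (c ξ) (q ξ) (o ξ) := by
  unfold score
  fun_prop

@[fun_prop] theorem pt_po {w : α → Un} {X : α → Tab} (hw : PT w) (hX : PT X) :
    PT fun ξ => po (w ξ) (X ξ) := by
  unfold po
  fun_prop

@[fun_prop] theorem pt_total {c : α → Ctx} {w : α → Un} {obj : α → List Obj} {q : α → Ev}
    (hc : PT c) (hw : PT w) (hobj : PT obj) (hq : PT q) :
    PT fun ξ => total (c ξ) (w ξ) (obj ξ) (q ξ) := by
  unfold total
  fun_prop

@[fun_prop] theorem pt_cands {c : α → Ctx} {w : α → Un} {e : α → Ev} {p : α → Ev} (hc : PT c)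
    (hw : PT w) (he : PT e) (hp : PT p) :
    PT fun ξ => cands (c ξ) (w ξ) (e ξ) (p ξ) := by
  unfold cands
  fun_prop

@[fun_prop] theorem pt_line {c : α → Ctx} {w : α → Un} {obj : α → List Obj} {e : α → Ev}
    {p : α → Ev} (hc : PT c) (hw : PT w) (hobj : PT obj) (he : PT e) (hp : PT p) :
    PT fun ξ => line (c ξ) (w ξ) (obj ξ) (e ξ) (p ξ) := by
  unfold line
  fun_prop

@[fun_prop] theorem pt_mergeAll {c : α → Ctx} {w : α → Un} {obj : α → List Obj} {e : α → Ev}
    {ps : α → List Ev} (hc : PT c) (hw : PT w) (hobj : PT obj) (he : PT e) (hps : PT ps) :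
    PT fun ξ => mergeAll (c ξ) (w ξ) (obj ξ) (e ξ) (ps ξ) := by
  unfold mergeAll
  exact foldl_grow (f := fun ξ => line (c ξ) (w ξ) (obj ξ))
    (fun ξ => bigE (c ξ) (w ξ)) (by fun_prop) (by fun_prop) (by fun_prop) (by fun_prop)
    fun _ _ _ => (sz_line _ _ _ _ _).trans (by omega)

@[fun_prop] theorem pt_bump {c : α → Ctx} {w : α → Un} {e : α → Ev} {u : α → ℕ} (hc : PT c)
    (hw : PT w) (he : PT e) (hu : PT u) :
    PT fun ξ => bump (c ξ) (w ξ) (e ξ) (u ξ) := by
  unfold bump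
  fun_prop

@[fun_prop] theorem pt_reval {c : α → Ctx} {w : α → Un} {obj : α → List Obj} {e : α → Ev}
    {u : α → ℕ} (hc : PT c) (hw : PT w) (hobj : PT obj) (he : PT e) (hu : PT u) :
    PT fun ξ => reval (c ξ) (w ξ) (obj ξ) (e ξ) (u ξ) := by
  unfold reval
  fun_prop

@[fun_prop] theorem pt_ev0 {w : α → Un} (hw : PT w) :
    PT fun ξ => ev0 (w ξ) := by
  unfold ev0
  fun_prop

theorem lift_eq (c : Ctx) (w : Un) (X : Tab) (τ : List (ℕ × ℕ)) (e : Ev) :
    lift c w X τ e = unwind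
      (fun s : Tab × List (ℕ × ℕ) =>
        (ctrG w s.1 (s.2.headD (0, 0)).1 (s.2.headD (0, 0)).2, s.2.tail))
      (fun s f => reval c w [po w s.1] f (s.2.headD (0, 0)).1) τ.length (X, τ) e := by
  induction τ generalizing X with
  | nil => rfl
  | cons q τ ih => rw [lift, ih]; rfl

@[fun_prop] theorem pt_lift {c : α → Ctx} {w : α → Un} {X : α → Tab} {τ : α → List (ℕ × ℕ)}
    {e : α → Ev} (hc : PT c) (hw : PT w) (hX : PT X) (hτ : PT τ) (he : PT e) :
    PT fun ξ => lift (c ξ) (w ξ) (X ξ) (τ ξ) (e ξ) := by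
  simp only [lift_eq]
  refine pt_unwind (step := fun ξ (s : Tab × List (ℕ × ℕ)) =>
      (ctrG (w ξ) s.1 (s.2.headD (0, 0)).1 (s.2.headD (0, 0)).2, s.2.tail))
    (back := fun ξ s f => reval (c ξ) (w ξ) [po (w ξ) s.1] f (s.2.headD (0, 0)).1)
    (fun ξ => (bigT (w ξ), true)) (fun p => bigE (c p.1) (w p.1))
    (by fun_prop) (by fun_prop) (by fun_prop) (by fun_prop) he (by fun_prop) (by fun_prop)
    (fun ξ s => ?_) fun _ _ _ => sz_line _ _ _ _ _
  obtain ⟨Y, l⟩ := s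
  have h1 := sz_ctrG (w ξ) Y (l.headD (0, 0)).1 (l.headD (0, 0)).2
  have h2 := sz_le_of_sublist (List.tail_sublist l)
  simp only [sz_pair]
  omega

@[fun_prop] theorem pt_gstep {w : α → Un} {ok : α → Tab → ℕ × ℕ → Bool} {X : α → Tab}
    (hw : PT w) (hok : PT fun r : α × (Tab) × (ℕ × ℕ) => ok r.1 r.2.1 r.2.2) (hX : PT X) :
    PT fun ξ => gstep (w ξ) (ok ξ) (X ξ) := by
  unfold gstep
  fun_prop

@[fun_prop] theorem pt_grun {c : α → Ctx} {w : α → Un} {w' : α → Un}
    {ok : α → Tab → ℕ × ℕ → Bool} {obj : α → Tab → List Obj} {κ : α → List ℕ}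
    {base : α → Tab → Ev} {X : α → Tab} (hc : PT c) (hw : PT w) (hw' : PT w')
    (hok : PT fun r : α × (Tab) × (ℕ × ℕ) => ok r.1 r.2.1 r.2.2)
    (hobj : PT fun r : α × (Tab) => obj r.1 r.2) (hκ : PT κ)
    (hbase : PT fun r : α × (Tab) => base r.1 r.2) (hX : PT X) :
    PT fun ξ => grun (c ξ) (w ξ) (w' ξ) (ok ξ) (obj ξ) (κ ξ) (base ξ) (X ξ) := by
  unfold grun
  refine pt_unwind (step := fun ξ => gstep (w ξ) (ok ξ))
    (back := fun ξ Y f => if (pairs (w ξ)).any (ok ξ Y) then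
      reval (c ξ) (w' ξ) (obj ξ Y) f (gm (κ ξ) (pick (pairs (w ξ)) (ok ξ Y) (0, 0)).1)
      else base ξ Y)
    (fun ξ => bigT (w ξ)) (fun p => (bigE (c p.1) (w' p.1), base p.1 p.2))
    (by fun_prop) (by fun_prop) (by fun_prop) hX (by fun_prop) (by fun_prop) (by fun_prop)
    (fun _ _ => sz_gstep _ _ _) fun ξ Y f => ?_
  simp only [sz_pair]
  split_ifs
  · exact (sz_line _ _ _ _ _).trans (by omega)
  · omega


end Pool.Agent.MP_bae0ed_lc.H52
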