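import Pool.Agent.MP_bae0ed_lc.H52.PT1
import Pool.Agent.MP_bae0ed_lc.H52.Alg

/-!
The algorithm runs in polynomial time.
-/

set_option autoImplicit false
set_option linter.unusedSectionVars false

namespace Pool.Agent.MP_bae0ed_lc.H52

open Pool.Agent.Shared.H56 Pool.Agent.MP_0c5eb8_lc Polynomial

variable {α : Type} [N487b59b3 α]

@[fun_prop] theorem pt_col {w : α → Un} {ok : α → Tab → ℕ × ℕ → Bool} {X : α → Tab} (hw : PT w)
    (hok : PT fun r : α × (Tab) × (ℕ × ℕ) => ok r.1 r.2.1 r.2.2) (hX : PT X) :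
    PT fun ξ => col (w ξ) (ok ξ) (X ξ) := by
  unfold col
  exact iterate_grow (f := fun ξ => gstep (w ξ) (ok ξ)) (fun ξ => bigT (w ξ)) (by fun_prop) hX
    (by fun_prop) (by fun_prop) fun _ _ => sz_gstep _ _ _

@[fun_prop] theorem pt_qAB {c : α → Ctx} {w : α → Un} {D : α → ℕ × ℕ × ℕ × ℕ} {e2 : α → Ev}
    {X : α → Tab} (hc : PT c) (hw : PT w) (hD : PT D) (he2 : PT e2) (hX : PT X) :
    PT fun ξ => qAB (c ξ) (w ξ) (D ξ) (e2 ξ) (X ξ) := by
  unfold qAB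
  fun_prop

@[fun_prop] theorem pt_inD {D : α → ℕ × ℕ × ℕ × ℕ} {u : α → ℕ} (hD : PT D) (hu : PT u) :
    PT fun ξ => inD (D ξ) (u ξ) := by
  unfold inD
  fun_prop

@[fun_prop] theorem pt_okQ {c : α → Ctx} {w : α → Un} {D : α → ℕ × ℕ × ℕ × ℕ}
    {t : α → ℕ × ℕ × ℕ} {e1 : α → Ev} {e2 : α → Ev} {X : α → Tab} {q : α → ℕ × ℕ} (hc : PT c)
    (hw : PT w) (hD : PT D) (ht : PT t) (he1 : PT e1) (he2 : PT e2) (hX : PT X) (hq : PT q) :
    PT fun ξ => okQ (c ξ) (w ξ) (D ξ) (t ξ) (e1 ξ) (e2 ξ) (X ξ) (q ξ) := by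
  unfold okQ
  fun_prop

@[fun_prop] theorem pt_objQ {w : α → Un} {D : α → ℕ × ℕ × ℕ × ℕ} {X : α → Tab} (hw : PT w)
    (hD : PT D) (hX : PT X) :
    PT fun ξ => objQ (w ξ) (D ξ) (X ξ) := by
  unfold objQ
  fun_prop

@[fun_prop] theorem pt_baseQ {c : α → Ctx} {w : α → Un} {D : α → ℕ × ℕ × ℕ × ℕ} {e2 : α → Ev}
    {X : α → Tab} (hc : PT c) (hw : PT w) (hD : PT D) (he2 : PT e2) (hX : PT X) :
    PT fun ξ => baseQ (c ξ) (w ξ) (D ξ) (e2 ξ) (X ξ) := by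
  unfold baseQ
  fun_prop

@[fun_prop] theorem pt_algQ {c : α → Ctx} {w : α → Un} {D : α → ℕ × ℕ × ℕ × ℕ}
    {t : α → ℕ × ℕ × ℕ} {e1 : α → Ev} {e2 : α → Ev} {X : α → Tab} (hc : PT c) (hw : PT w)
    (hD : PT D) (ht : PT t) (he1 : PT e1) (he2 : PT e2) (hX : PT X) :
    PT fun ξ => algQ (c ξ) (w ξ) (D ξ) (t ξ) (e1 ξ) (e2 ξ) (X ξ) := by
  unfold algQ
  fun_prop

@[fun_prop] theorem pt_okV {c : α → Ctx} {w : α → Un} {φ : α → List ℕ} {e1 : α → Ev}
    {e2 : α → Ev} {X : α → Tab} {q : α → ℕ × ℕ} (hc : PT c) (hw : PT w) (hφ : PT φ)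
    (he1 : PT e1) (he2 : PT e2) (hX : PT X) (hq : PT q) :
    PT fun ξ => okV (c ξ) (w ξ) (φ ξ) (e1 ξ) (e2 ξ) (X ξ) (q ξ) := by
  unfold okV
  fun_prop

@[fun_prop] theorem pt_baseV {c : α → Ctx} {w : α → Un} {φ : α → List ℕ} {e2 : α → Ev}
    {X : α → Tab} (hc : PT c) (hw : PT w) (hφ : PT φ) (he2 : PT e2) (hX : PT X) :
    PT fun ξ => baseV (c ξ) (w ξ) (φ ξ) (e2 ξ) (X ξ) := by
  unfold baseV
  fun_prop

@[fun_prop] theorem pt_algV {c : α → Ctx} {w : α → Un} {φ : α → List ℕ} {e1 : α → Ev}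
    {e2 : α → Ev} {X : α → Tab} (hc : PT c) (hw : PT w) (hφ : PT φ) (he1 : PT e1) (he2 : PT e2)
    (hX : PT X) :
    PT fun ξ => algV (c ξ) (w ξ) (φ ξ) (e1 ξ) (e2 ξ) (X ξ) := by
  unfold algV
  fun_prop

@[fun_prop] theorem pt_rkI {c : α → Ctx} {w : α → Un} {D : α → ℕ × ℕ × ℕ × ℕ} {u : α → ℕ}
    {h : α → Ev} {h' : α → Ev} {X : α → Tab} (hc : PT c) (hw : PT w) (hD : PT D) (hu : PT u)
    (hh : PT h) (hh' : PT h') (hX : PT X) :
    PT fun ξ => rkI (c ξ) (w ξ) (D ξ) (u ξ) (h ξ) (h' ξ) (X ξ) := by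
  unfold rkI
  fun_prop

@[fun_prop] theorem pt_okI {c : α → Ctx} {w : α → Un} {D : α → ℕ × ℕ × ℕ × ℕ} {u : α → ℕ}
    {h : α → Ev} {h' : α → Ev} {X : α → Tab} {q : α → ℕ × ℕ} (hc : PT c) (hw : PT w) (hD : PT D)
    (hu : PT u) (hh : PT h) (hh' : PT h') (hX : PT X) (hq : PT q) :
    PT fun ξ => okI (c ξ) (w ξ) (D ξ) (u ξ) (h ξ) (h' ξ) (X ξ) (q ξ) := by
  unfold okI
  fun_prop

@[fun_prop] theorem pt_algI {c : α → Ctx} {w : α → Un} {D : α → ℕ × ℕ × ℕ × ℕ} {u : α → ℕ}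
    {h : α → Ev} {h' : α → Ev} {X : α → Tab} (hc : PT c) (hw : PT w) (hD : PT D) (hu : PT u)
    (hh : PT h) (hh' : PT h') (hX : PT X) :
    PT fun ξ => algI (c ξ) (w ξ) (D ξ) (u ξ) (h ξ) (h' ξ) (X ξ) := by
  unfold algI
  fun_prop

@[fun_prop] theorem pt_ell {c : α → Ctx} {w : α → Un} {X : α → Tab} {a : α → ℕ} {b : α → ℕ}
    {σ : α → ℕ} {e : α → Ev} (hc : PT c) (hw : PT w) (hX : PT X) (ha : PT a) (hb : PT b)
    (hσ : PT σ) (he : PT e) :
    PT fun ξ => ell (c ξ) (w ξ) (X ξ) (a ξ) (b ξ) (σ ξ) (e ξ) := by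
  unfold ell
  fun_prop

@[fun_prop] theorem pt_okC {c : α → Ctx} {w : α → Un} {l : α → St} {e : α → Ev} {X : α → Tab}
    {q : α → ℕ × ℕ} (hc : PT c) (hw : PT w) (hl : PT l) (he : PT e) (hX : PT X) (hq : PT q) :
    PT fun ξ => okC (c ξ) (w ξ) (l ξ) (e ξ) (X ξ) (q ξ) := by
  unfold okC
  fun_prop

@[fun_prop] theorem pt_colC {c : α → Ctx} {w : α → Un} {l : α → St} {e : α → Ev} {X : α → Tab}
    (hc : PT c) (hw : PT w) (hl : PT l) (he : PT e) (hX : PT X) :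
    PT fun ξ => colC (c ξ) (w ξ) (l ξ) (e ξ) (X ξ) := by
  unfold colC
  fun_prop

@[fun_prop] theorem pt_objT {w : α → Un} {a : α → ℕ} {b : α → ℕ} {X : α → Tab} (hw : PT w)
    (ha : PT a) (hb : PT b) (hX : PT X) :
    PT fun ξ => objT (w ξ) (a ξ) (b ξ) (X ξ) := by
  unfold objT
  fun_prop

@[fun_prop] theorem pt_chi {w : α → Un} {l : α → St} {j : α → ℕ} (hw : PT w) (hl : PT l)
    (hj : PT j) :
    PT fun ξ => chi (w ξ) (l ξ) (j ξ) := by
  unfold chi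
  fun_prop

@[fun_prop] theorem pt_caQ2 {c : α → Ctx} {w : α → Un} {l : α → St} {e : α → Ev} {f : α → Ev}
    {X : α → Tab} (hc : PT c) (hw : PT w) (hl : PT l) (he : PT e) (hf : PT f) (hX : PT X) :
    PT fun ξ => caQ2 (c ξ) (w ξ) (l ξ) (e ξ) (f ξ) (X ξ) := by
  unfold caQ2
  fun_prop

@[fun_prop] theorem pt_caQ3 {c : α → Ctx} {w : α → Un} {a : α → ℕ} {b : α → ℕ} {l : α → St}
    {e : α → Ev} {f : α → Ev} {X : α → Tab} (hc : PT c) (hw : PT w) (ha : PT a) (hb : PT b)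
    (hl : PT l) (he : PT e) (hf : PT f) (hX : PT X) :
    PT fun ξ => caQ3 (c ξ) (w ξ) (a ξ) (b ξ) (l ξ) (e ξ) (f ξ) (X ξ) := by
  unfold caQ3
  fun_prop

@[fun_prop] theorem pt_caOuts {c : α → Ctx} {w : α → Un} {a : α → ℕ} {b : α → ℕ} {l : α → St}
    {X : α → Tab} {Q : α → Ev} (hc : PT c) (hw : PT w) (ha : PT a) (hb : PT b) (hl : PT l)
    (hX : PT X) (hQ : PT Q) :
    PT fun ξ => caOuts (c ξ) (w ξ) (a ξ) (b ξ) (l ξ) (X ξ) (Q ξ) := by
  unfold caOuts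
  fun_prop

@[fun_prop] theorem pt_algCA {c : α → Ctx} {w : α → Un} {a : α → ℕ} {b : α → ℕ} {l : α → St}
    {e : α → Ev} {f : α → Ev} {X : α → Tab} (hc : PT c) (hw : PT w) (ha : PT a) (hb : PT b)
    (hl : PT l) (he : PT e) (hf : PT f) (hX : PT X) :
    PT fun ξ => algCA (c ξ) (w ξ) (a ξ) (b ξ) (l ξ) (e ξ) (f ξ) (X ξ) := by
  unfold algCA
  fun_prop

@[fun_prop] theorem pt_nfix {w : α → Un} {φ : α → List ℕ} (hw : PT w) (hφ : PT φ) :
    PT fun ξ => nfix (w ξ) (φ ξ) := by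
  unfold nfix
  fun_prop

@[fun_prop] theorem pt_redF {c : α → Ctx} {w : α → Un} {φ : α → List ℕ} {g : α → Ev}
    {X0 : α → Tab} (hc : PT c) (hw : PT w) (hφ : PT φ) (hg : PT g) (hX0 : PT X0) :
    PT fun ξ => redF (c ξ) (w ξ) (φ ξ) (g ξ) (X0 ξ) := by
  unfold redF
  fun_prop

@[fun_prop] theorem pt_redRound {c : α → Ctx} {w : α → Un} {φ : α → List ℕ} {g : α → Ev}
    {X : α → Tab} {a : α → ℕ} {b : α → ℕ} {σ : α → ℕ} {e : α → Ev} (hc : PT c) (hw : PT w)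
    (hφ : PT φ) (hg : PT g) (hX : PT X) (ha : PT a) (hb : PT b) (hσ : PT σ) (he : PT e) :
    PT fun ξ => redRound (c ξ) (w ξ) (φ ξ) (g ξ) (X ξ) (a ξ) (b ξ) (σ ξ) (e ξ) := by
  unfold redRound
  fun_prop

@[fun_prop] theorem pt_redE {c : α → Ctx} {w : α → Un} {φ : α → List ℕ} {g : α → Ev}
    {X : α → Tab} {σ : α → ℕ} {e : α → Ev} (hc : PT c) (hw : PT w) (hφ : PT φ) (hg : PT g)
    (hX : PT X) (hσ : PT σ) (he : PT e) :
    PT fun ξ => redE (c ξ) (w ξ) (φ ξ) (g ξ) (X ξ) (σ ξ) (e ξ) := by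
  unfold redE
  exact iterate_grow (f := fun ξ => redRound (c ξ) (w ξ) (φ ξ) (g ξ) (X ξ)
      (pick (pairs (w ξ)) (fun q => !decide (q.1 = q.2) && decide (gm (φ ξ) q.1 = gm (φ ξ) q.2))
        (0, 0)).1
      (pick (pairs (w ξ)) (fun q => !decide (q.1 = q.2) && decide (gm (φ ξ) q.1 = gm (φ ξ) q.2))
        (0, 0)).2 (σ ξ))
    (fun ξ => bigE (c ξ) (w ξ)) (by fun_prop) he (by fun_prop) (by fun_prop)
    fun _ _ => sz_mergeAll _ _ _ _ _

@[fun_prop] theorem pt_redC {c : α → Ctx} {w : α → Un} {φ : α → List ℕ} {g : α → Ev}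
    {X : α → Tab} {e : α → Ev} (hc : PT c) (hw : PT w) (hφ : PT φ) (hg : PT g) (hX : PT X)
    (he : PT e) :
    PT fun ξ => redC (c ξ) (w ξ) (φ ξ) (g ξ) (X ξ) (e ξ) := by
  unfold redC
  fun_prop

@[fun_prop] theorem pt_redOk {c : α → Ctx} {w : α → Un} {φ : α → List ℕ} {X : α → Tab}
    {σ : α → ℕ} {r : α → (ℕ × ℕ) × Ev} (hc : PT c) (hw : PT w) (hφ : PT φ) (hX : PT X)
    (hσ : PT σ) (hr : PT r) :
    PT fun ξ => redOk (c ξ) (w ξ) (φ ξ) (X ξ) (σ ξ) (r ξ) := by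
  unfold redOk
  fun_prop

@[fun_prop] theorem pt_redPick {c : α → Ctx} {w : α → Un} {φ : α → List ℕ} {g : α → Ev}
    {X : α → Tab} {σ : α → ℕ} {e : α → Ev} (hc : PT c) (hw : PT w) (hφ : PT φ) (hg : PT g)
    (hX : PT X) (hσ : PT σ) (he : PT e) :
    PT fun ξ => redPick (c ξ) (w ξ) (φ ξ) (g ξ) (X ξ) (σ ξ) (e ξ) := by
  unfold redPick
  fun_prop

@[fun_prop] theorem pt_redNext {w : α → Un} {φ : α → List ℕ} {X : α → Tab}
    {r : α → (ℕ × ℕ) × Ev} (hw : PT w) (hφ : PT φ) (hX : PT X) (hr : PT r) :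
    PT fun ξ => redNext (w ξ) (φ ξ) (X ξ) (r ξ) := by
  unfold redNext
  fun_prop

@[fun_prop] theorem pt_redStep {c : α → Ctx} {w : α → Un} {g : α → Ev} {σ : α → ℕ}
    {s : α → Tab × List ℕ × Ev} (hc : PT c) (hw : PT w) (hg : PT g) (hσ : PT σ) (hs : PT s) :
    PT fun ξ => redStep (c ξ) (w ξ) (g ξ) (σ ξ) (s ξ) := by
  unfold redStep
  fun_prop

@[fun_prop] theorem pt_redEnd {c : α → Ctx} {w : α → Un} {g : α → Ev}
    {s : α → Tab × List ℕ × Ev} (hc : PT c) (hw : PT w) (hg : PT g) (hs : PT s) :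
    PT fun ξ => redEnd (c ξ) (w ξ) (g ξ) (s ξ) := by
  unfold redEnd
  fun_prop

theorem sz_grun {c : Ctx} {w w' : Un} {ok : Tab → ℕ × ℕ → Bool} {obj : Tab → List Obj}
    {κ : List ℕ} {base : Tab → Ev} {X : Tab} {m : ℕ} (h1 : sz (bigE c w') ≤ m)
    (h2 : ∀ T, sz (base T) ≤ m) : sz (grun c w w' ok obj κ base X) ≤ m := by
  unfold grun
  rw [unwind]
  split_ifs
  · exact (sz_line _ _ _ _ _).trans h1
  · exact h2 _

theorem sz_redPick (c : Ctx) (w : Un) (φ : List ℕ) (g : Ev) (X : Tab) (σ : ℕ) (e : Ev) :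
    sz (redPick c w φ g X σ e).2 ≤ 2 * sz (bigE c w) := by
  unfold redPick pick
  generalize hl : List.filter _ _ = l
  cases l with
  | nil => simp
  | cons r l =>
    have h := List.mem_of_mem_filter (hl ▸ List.mem_cons_self : r ∈ List.filter _ _)
    obtain ⟨q, _, h⟩ := List.mem_flatMap.1 h
    obtain ⟨f, h', rfl⟩ := List.mem_map.1 h
    obtain ⟨D, _, h''⟩ := List.mem_flatMap.1 h'
    obtain ⟨t, _, rfl⟩ := List.mem_map.1 h''
    refine sz_grun (by omega) fun T => (sz_mergeAll _ _ _ _ _).trans ?_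
    have := sz_line c w [po w (ctrG w (ctrG w X D.2.1 D.1) D.2.2.2 D.2.2.1)] (ev0 w) (cmp w φ g)
    omega

theorem sz_map_ite (l : List ℕ) (p : ℕ → Prop) [DecidablePred p] (f g : ℕ → ℕ) :
    sz (l.map fun x => if p x then f x else g x) ≤ sz (l.map f) + sz (l.map g) := by
  induction l with
  | nil => simp
  | cons x l ih =>
    simp only [List.map_cons, sz_cons]
    split_ifs <;> omega

theorem sz_map_gm (φ : List ℕ) (n : ℕ) : sz ((List.range n).map (gm φ)) ≤ sz φ + n := by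
  induction φ generalizing n with
  | nil =>
    induction n with
    | zero => simp
    | succ n ih =>
      rw [List.range_succ, List.map_append, sz_append]
      simp [gm] at ih ⊢
      omega
  | cons x φ ih =>
    cases n with
    | zero => simp
    | succ n =>
      have h := ih n
      have e : gm (x :: φ) ∘ Nat.succ = gm φ := by funext i; simp [gm]
      rw [List.range_succ_eq_map, List.map_cons, List.map_map, e, sz_cons, sz_cons]
      simp only [gm, List.getD_cons_zero] at h ⊢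
      omega

@[fun_prop] theorem pt_algM {c : α → Ctx} {w : α → Un} {φ : α → List ℕ} {g : α → Ev}
    {e : α → Ev} {σ : α → ℕ} {X : α → Tab} (hc : PT c) (hw : PT w) (hφ : PT φ) (hg : PT g)
    (he : PT e) (hσ : PT σ) (hX : PT X) :
    PT fun ξ => algM (c ξ) (w ξ) (φ ξ) (g ξ) (e ξ) (σ ξ) (X ξ) := by
  unfold algM
  refine pt_redEnd hc hw hg (iterate_grow (f := fun ξ => redStep (c ξ) (w ξ) (g ξ) (σ ξ))
    (fun ξ => (bigT (w ξ), rg (w ξ), w ξ, bigE (c ξ) (w ξ), true)) (by fun_prop) (by fun_prop)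
    (by fun_prop) (by fun_prop) fun ξ s => ?_)
  obtain ⟨Y, ψ, f⟩ := s
  unfold redStep
  split_ifs
  · omega
  · have h1 := sz_redPick (c ξ) (w ξ) ψ (g ξ) Y (σ ξ) f
    generalize redPick (c ξ) (w ξ) ψ (g ξ) Y (σ ξ) f = r at h1
    have h2 := sz_ctrG (w ξ) Y r.1.1 r.1.2
    have h3 := sz_map_ite (rg (w ξ)) (fun x => x = r.1.1) (fun x => x) (gm ψ)
    have h4 := sz_map_gm ψ (w ξ).length
    have h5 := length_le_sz (w ξ)
    simp only [redNext, sz_pair, List.map_id', rg] at *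
    omega

@[fun_prop] theorem pt_ntB {w : α → Un} {X : α → Tab} {r : α → ℕ × St} (hw : PT w) (hX : PT X)
    (hr : PT r) :
    PT fun ξ => ntB (w ξ) (X ξ) (r ξ) := by
  unfold ntB
  fun_prop

@[fun_prop] theorem pt_frees {c : α → Ctx} {w : α → Un} {X : α → Tab} {P : α → List Ev}
    {Y : α → St} {A : α → ℕ → St} (hc : PT c) (hw : PT w) (hX : PT X) (hP : PT P) (hY : PT Y)
    (hA : PT fun r : α × (ℕ) => A r.1 r.2) :
    PT fun ξ => frees (c ξ) (w ξ) (X ξ) (P ξ) (Y ξ) (A ξ) := by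
  unfold frees
  fun_prop

@[fun_prop] theorem pt_sp {w : α → Un} (hw : PT w) :
    PT fun ξ => sp (w ξ) := by
  unfold sp
  fun_prop

@[fun_prop] theorem pt_del {w : α → Un} {C : α → St} {u : α → ℕ} (hw : PT w) (hC : PT C)
    (hu : PT u) :
    PT fun ξ => del (w ξ) (C ξ) (u ξ) := by
  unfold del
  fun_prop

@[fun_prop] theorem pt_closeNew {c : α → Ctx} {w : α → Un} {X : α → Tab} {e0 : α → Ev}
    {r : α → ℕ × St} {outs : α → List Ev} (hc : PT c) (hw : PT w) (hX : PT X) (he0 : PT e0)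
    (hr : PT r) (houts : PT outs) :
    PT fun ξ => closeNew (c ξ) (w ξ) (X ξ) (e0 ξ) (r ξ) (outs ξ) := by
  unfold closeNew
  fun_prop

@[fun_prop] theorem pt_closeUpd {c : α → Ctx} {w : α → Un} {X : α → Tab} {Xp : α → Tab}
    {e0 : α → Ev} {s : α → List Ev × Ev} {r : α → ℕ × St} {outs : α → List Ev} (hc : PT c)
    (hw : PT w) (hX : PT X) (hXp : PT Xp) (he0 : PT e0) (hs : PT s) (hr : PT r)
    (houts : PT outs) :
    PT fun ξ => closeUpd (c ξ) (w ξ) (X ξ) (Xp ξ) (e0 ξ) (s ξ) (r ξ) (outs ξ) := by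
  unfold closeUpd
  fun_prop

@[fun_prop] theorem pt_closeStep {c : α → Ctx} {w : α → Un} {X : α → Tab} {C : α → St}
    {z : α → ℕ} {e0 : α → Ev} {Xp : α → Tab} {gen : α → ℕ × St → List Ev} {s : α → List Ev × Ev}
    (hc : PT c) (hw : PT w) (hX : PT X) (hC : PT C) (hz : PT z) (he0 : PT e0) (hXp : PT Xp)
    (hgen : PT fun r : α × (ℕ × St) => gen r.1 r.2) (hs : PT s) :
    PT fun ξ => closeStep (c ξ) (w ξ) (X ξ) (C ξ) (z ξ) (e0 ξ) (Xp ξ) (gen ξ) (s ξ) := by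
  unfold closeStep
  fun_prop

@[fun_prop] theorem pt_close {c : α → Ctx} {w : α → Un} {X : α → Tab} {C : α → St} {z : α → ℕ}
    {e0 : α → Ev} {Xp : α → Tab} {q0 : α → Ev} {gen : α → ℕ × St → List Ev} (hc : PT c)
    (hw : PT w) (hX : PT X) (hC : PT C) (hz : PT z) (he0 : PT e0) (hXp : PT Xp) (hq0 : PT q0)
    (hgen : PT fun r : α × (ℕ × St) => gen r.1 r.2) :
    PT fun ξ => close (c ξ) (w ξ) (X ξ) (C ξ) (z ξ) (e0 ξ) (Xp ξ) (q0 ξ) (gen ξ) := by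
  unfold close
  refine iterate_grow (f := fun ξ => closeStep (c ξ) (w ξ) (X ξ) (C ξ) (z ξ) (e0 ξ) (Xp ξ) (gen ξ))
    (fun ξ => ((bigE (c ξ) (w ξ), true), bigE (c ξ) (w ξ))) (by fun_prop) (by fun_prop)
    (by fun_prop) (by fun_prop) fun ξ s => ?_
  obtain ⟨P, q⟩ := s
  unfold closeStep
  split_ifs
  · omega
  · generalize (frees (c ξ) (w ξ) (X ξ) P (del (w ξ) (C ξ) (z ξ)) (del (w ξ) (C ξ))).headD (0, []) = r
    have h1 : sz (closeNew (c ξ) (w ξ) (X ξ) (e0 ξ) r (gen ξ r)) ≤ _ := sz_line _ _ _ _ _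
    have h2 := sz_mergeAll (c ξ) (w ξ) [po (w ξ) (Xp ξ)] q (gen ξ r)
    simp only [closeUpd, sz_pair, sz_cons]
    omega

@[fun_prop] theorem pt_obj4 {w : α → Un} {X : α → Tab} (hw : PT w) (hX : PT X) :
    PT fun ξ => obj4 (w ξ) (X ξ) := by
  unfold obj4
  fun_prop

@[fun_prop] theorem pt_bad4 {c : α → Ctx} {w : α → Un} {X : α → Tab} {C : α → St} {ρ : α → ℕ}
    {e : α → Ev} {D : α → ℕ × ℕ × ℕ × ℕ} (hc : PT c) (hw : PT w) (hX : PT X) (hC : PT C)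
    (hρ : PT ρ) (he : PT e) (hD : PT D) :
    PT fun ξ => bad4 (c ξ) (w ξ) (X ξ) (C ξ) (ρ ξ) (e ξ) (D ξ) := by
  unfold bad4
  fun_prop

@[fun_prop] theorem pt_indOuts {c : α → Ctx} {w : α → Un} {P : α → List Ev} {ρ : α → ℕ}
    {e : α → Ev} {a : α → ℕ} {b : α → ℕ} {X1 : α → Tab} (hc : PT c) (hw : PT w) (hP : PT P)
    (hρ : PT ρ) (he : PT e) (ha : PT a) (hb : PT b) (hX1 : PT X1) :
    PT fun ξ => indOuts (c ξ) (w ξ) (P ξ) (ρ ξ) (e ξ) (a ξ) (b ξ) (X1 ξ) := by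
  unfold indOuts
  fun_prop

@[fun_prop] theorem pt_indAt {c : α → Ctx} {w : α → Un} {X : α → Tab} {P : α → List Ev}
    {ρ : α → ℕ} {e : α → Ev} {D : α → ℕ × ℕ × ℕ × ℕ} (hc : PT c) (hw : PT w) (hX : PT X)
    (hP : PT P) (hρ : PT ρ) (he : PT e) (hD : PT D) :
    PT fun ξ => indAt (c ξ) (w ξ) (X ξ) (P ξ) (ρ ξ) (e ξ) (D ξ) := by
  unfold indAt
  fun_prop

@[fun_prop] theorem pt_indRound {c : α → Ctx} {w : α → Un} {X : α → Tab} {C : α → St}
    {P : α → List Ev} {ρ : α → ℕ} {e : α → Ev} (hc : PT c) (hw : PT w) (hX : PT X) (hC : PT C)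
    (hP : PT P) (hρ : PT ρ) (he : PT e) :
    PT fun ξ => indRound (c ξ) (w ξ) (X ξ) (C ξ) (P ξ) (ρ ξ) (e ξ) := by
  unfold indRound
  fun_prop

@[fun_prop] theorem pt_algInd {c : α → Ctx} {w : α → Un} {X : α → Tab} {C : α → St}
    {P : α → List Ev} {ρ : α → ℕ} (hc : PT c) (hw : PT w) (hX : PT X) (hC : PT C) (hP : PT P)
    (hρ : PT ρ) :
    PT fun ξ => algInd (c ξ) (w ξ) (X ξ) (C ξ) (P ξ) (ρ ξ) := by
  unfold algInd
  exact iterate_grow (f := fun ξ => indRound (c ξ) (w ξ) (X ξ) (C ξ) (P ξ) (ρ ξ))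
    (fun ξ => bigE (c ξ) (w ξ)) (by fun_prop) (by fun_prop) (by fun_prop) (by fun_prop)
    fun _ _ => sz_mergeAll _ _ _ _ _

@[fun_prop] theorem pt_wit {c : α → Ctx} {w : α → Un} {H : α → Tab} {P : α → List Ev}
    {y : α → ℕ} (hc : PT c) (hw : PT w) (hH : PT H) (hP : PT P) (hy : PT y) :
    PT fun ξ => wit (c ξ) (w ξ) (H ξ) (P ξ) (y ξ) := by
  unfold wit
  fun_prop

@[fun_prop] theorem pt_liftT {w : α → Un} {H : α → Tab} {z : α → ℕ} {u : α → ℕ} {y : α → ℕ}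
    {x : α → ℕ} (hw : PT w) (hH : PT H) (hz : PT z) (hu : PT u) (hy : PT y) (hx : PT x) :
    PT fun ξ => liftT (w ξ) (H ξ) (z ξ) (u ξ) (y ξ) (x ξ) := by
  unfold liftT
  fun_prop

@[fun_prop] theorem pt_liftE {c : α → Ctx} {w : α → Un} {H : α → Tab} {P : α → List Ev}
    {e : α → Ev} {z : α → ℕ} {u : α → ℕ} {y : α → ℕ} (hc : PT c) (hw : PT w) (hH : PT H)
    (hP : PT P) (he : PT e) (hz : PT z) (hu : PT u) (hy : PT y) :
    PT fun ξ => liftE (c ξ) (w ξ) (H ξ) (P ξ) (e ξ) (z ξ) (u ξ) (y ξ) := by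
  unfold liftE
  fun_prop

@[fun_prop] theorem pt_liftF {c : α → Ctx} {w : α → Un} {H : α → Tab} {H2 : α → Tab}
    {P : α → List Ev} {e : α → Ev} {y : α → ℕ} {HY : α → Tab} (hc : PT c) (hw : PT w)
    (hH : PT H) (hH2 : PT H2) (hP : PT P) (he : PT e) (hy : PT y) (hHY : PT HY) :
    PT fun ξ => liftF (c ξ) (w ξ) (H ξ) (H2 ξ) (P ξ) (e ξ) (y ξ) (HY ξ) := by
  unfold liftF
  fun_prop

@[fun_prop] theorem pt_liftG {c : α → Ctx} {w : α → Un} {H : α → Tab} {H2 : α → Tab}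
    {P : α → List Ev} {ρ : α → ℕ} {e : α → Ev} {z : α → ℕ} {u : α → ℕ} {y : α → ℕ} {eH : α → Ev}
    (hc : PT c) (hw : PT w) (hH : PT H) (hH2 : PT H2) (hP : PT P) (hρ : PT ρ) (he : PT e)
    (hz : PT z) (hu : PT u) (hy : PT y) (heH : PT eH) :
    PT fun ξ => liftG (c ξ) (w ξ) (H ξ) (H2 ξ) (P ξ) (ρ ξ) (e ξ) (z ξ) (u ξ) (y ξ) (eH ξ) := by
  unfold liftG
  fun_prop

@[fun_prop] theorem pt_liftH {c : α → Ctx} {w : α → Un} {H : α → Tab} {e : α → Ev} {z : α → ℕ}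
    {u : α → ℕ} {y : α → ℕ} {g : α → Ev} (hc : PT c) (hw : PT w) (hH : PT H) (he : PT e)
    (hz : PT z) (hu : PT u) (hy : PT y) (hg : PT g) :
    PT fun ξ => liftH (c ξ) (w ξ) (H ξ) (e ξ) (z ξ) (u ξ) (y ξ) (g ξ) := by
  unfold liftH
  fun_prop

@[fun_prop] theorem pt_liftK {c : α → Ctx} {w : α → Un} {P : α → List Ev} {ρ : α → ℕ}
    {e : α → Ev} {z : α → ℕ} {u : α → ℕ} {y : α → ℕ} {H : α → Tab} {H2 : α → Tab} (hc : PT c)
    (hw : PT w) (hP : PT P) (hρ : PT ρ) (he : PT e) (hz : PT z) (hu : PT u) (hy : PT y)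
    (hH : PT H) (hH2 : PT H2) :
    PT fun ξ => liftK (c ξ) (w ξ) (P ξ) (ρ ξ) (e ξ) (z ξ) (u ξ) (y ξ) (H ξ) (H2 ξ) := by
  unfold liftK
  fun_prop

@[fun_prop] theorem pt_algL {c : α → Ctx} {w : α → Un} {X : α → Tab} {P : α → List Ev}
    {ρ : α → ℕ} {e : α → Ev} {z : α → ℕ} {u : α → ℕ} {r : α → ℕ × St} (hc : PT c) (hw : PT w)
    (hX : PT X) (hP : PT P) (hρ : PT ρ) (he : PT e) (hz : PT z) (hu : PT u) (hr : PT r) :
    PT fun ξ => algL (c ξ) (w ξ) (X ξ) (P ξ) (ρ ξ) (e ξ) (z ξ) (u ξ) (r ξ) := by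
  unfold algL
  fun_prop

@[fun_prop] theorem pt_twinB {w : α → Un} {X : α → Tab} {u : α → ℕ} {z : α → ℕ} (hw : PT w)
    (hX : PT X) (hu : PT u) (hz : PT z) :
    PT fun ξ => twinB (w ξ) (X ξ) (u ξ) (z ξ) := by
  unfold twinB
  fun_prop

@[fun_prop] theorem pt_okP {c : α → Ctx} {w : α → Un} {X : α → Tab} {C : α → St} {z : α → ℕ}
    {e : α → Ev} {q : α → ℕ × ℕ} (hc : PT c) (hw : PT w) (hX : PT X) (hC : PT C) (hz : PT z)
    (he : PT e) (hq : PT q) :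
    PT fun ξ => okP (c ξ) (w ξ) (X ξ) (C ξ) (z ξ) (e ξ) (q ξ) := by
  unfold okP
  fun_prop

@[fun_prop] theorem pt_swaps {w : α → Un} {P : α → List Ev} {z : α → ℕ} (hw : PT w) (hP : PT P)
    (hz : PT z) :
    PT fun ξ => swaps (w ξ) (P ξ) (z ξ) := by
  unfold swaps
  fun_prop

@[fun_prop] theorem pt_pathClose {c : α → Ctx} {w : α → Un} {s : α → PS} {e : α → Ev}
    {q : α → ℕ × ℕ} (hc : PT c) (hw : PT w) (hs : PT s) (he : PT e) (hq : PT q) :
    PT fun ξ => pathClose (c ξ) (w ξ) (s ξ) (e ξ) (q ξ) := by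
  unfold pathClose
  fun_prop

@[fun_prop] theorem pt_pathE {c : α → Ctx} {w : α → Un} {s : α → PS} (hc : PT c) (hw : PT w)
    (hs : PT s) :
    PT fun ξ => pathE (c ξ) (w ξ) (s ξ) := by
  unfold pathE
  fun_prop

@[fun_prop] theorem pt_pathQ {c : α → Ctx} {w : α → Un} {s : α → PS} (hc : PT c) (hw : PT w)
    (hs : PT s) :
    PT fun ξ => pathQ (c ξ) (w ξ) (s ξ) := by
  unfold pathQ
  fun_prop

@[fun_prop] theorem pt_pathStep {c : α → Ctx} {w : α → Un} {s : α → PS} (hc : PT c) (hw : PT w)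
    (hs : PT s) :
    PT fun ξ => pathStep (c ξ) (w ξ) (s ξ) := by
  unfold pathStep
  fun_prop

@[fun_prop] theorem pt_pathBack {c : α → Ctx} {w : α → Un} {s : α → PS} {f : α → Ev} (hc : PT c)
    (hw : PT w) (hs : PT s) (hf : PT f) :
    PT fun ξ => pathBack (c ξ) (w ξ) (s ξ) (f ξ) := by
  unfold pathBack
  fun_prop

theorem sz_mergeAll_le {c : Ctx} {w : Un} {obj : List Obj} {e : Ev} {ps : List Ev} {m : ℕ}
    (h1 : sz e ≤ m) (h2 : sz (bigE c w) ≤ m) : sz (mergeAll c w obj e ps) ≤ m :=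
  H36.foldl_inv (P := fun s => sz s ≤ m) h1 fun _ _ _ _ => (sz_line _ _ _ _ _).trans h2

theorem iterate_inv {σ : Type} {I : σ → Prop} {f : σ → σ} (h : ∀ s, I s → I (f s)) (n : ℕ) {s : σ}
    (hs : I s) : I (f^[n] s) := by
  induction n generalizing s with
  | zero => exact hs
  | succ n ih => exact ih (h s hs)

theorem sz_algInd (c : Ctx) (w : Un) (X : Tab) (C : St) (P : List Ev) (ρ : ℕ) :
    sz (algInd c w X C P ρ) ≤ sz (ev0 w ++ bigE c w) := by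
  rw [sz_append]
  exact iterate_inv (I := fun e => sz e ≤ sz (ev0 w) + sz (bigE c w))
    (fun e he => sz_mergeAll_le he (by omega)) _ (sz_mergeAll _ _ _ _ _)

theorem sz_close {c : Ctx} {w : Un} {X : Tab} {C : St} {z : ℕ} {e0 : Ev} {Xp : Tab} {q0 : Ev}
    {gen : ℕ × St → List Ev} (h : sz e0 ≤ sz (ev0 w ++ bigE c w)) :
    sz (close c w X C z e0 Xp q0 gen).1 ≤
      sz (List.replicate (w.length * w.length + 2) (ev0 w ++ bigE c w)) := by
  have key : ∀ k, sz ((closeStep c w X C z e0 Xp gen)^[k] ([e0], q0)).1 ≤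
      sz (List.replicate (k + 1) (ev0 w ++ bigE c w)) := by
    intro k
    induction k with
    | zero => simpa using h
    | succ k ih =>
      rw [Function.iterate_succ_apply', List.replicate_succ, sz_cons]
      generalize (closeStep c w X C z e0 Xp gen)^[k] ([e0], q0) = s at ih
      unfold closeStep
      split_ifs
      · omega
      · generalize (frees c w X s.1 (del w C z) (del w C)).headD (0, []) = r
        have h1 : sz (closeNew c w X e0 r (gen r)) ≤ _ := sz_line _ _ _ _ _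
        simp only [closeUpd, sz_cons, sz_append] at *
        omega
  exact key _

@[fun_prop] theorem pt_algP {c : α → Ctx} {w : α → Un} {s : α → PS} (hc : PT c) (hw : PT w)
    (hs : PT s) :
    PT fun ξ => algP (c ξ) (w ξ) (s ξ) := by
  unfold algP
  refine pt_unwind (step := fun ξ => pathStep (c ξ) (w ξ)) (back := fun ξ => pathBack (c ξ) (w ξ))
    (fun ξ => (bigT (w ξ), w ξ, (pairs (w ξ), true), true,
      List.replicate ((w ξ).length * (w ξ).length + 2) (ev0 (w ξ) ++ bigE (c ξ) (w ξ))))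
    (fun p => bigE (c p.1) (w p.1)) (by fun_prop) (by fun_prop) (by fun_prop) hs (by fun_prop)
    (by fun_prop) (by fun_prop) (fun ξ s => ?_) fun _ _ _ => sz_line _ _ _ _ _
  obtain ⟨Y, C, z, ρ, P⟩ := s
  have h0 : sz (pathQ (c ξ) (w ξ) (Y, C, z, ρ, P)) ≤ _ := sz_pick_le _ _ _
  have h5 : sz (pathClose (c ξ) (w ξ) (Y, C, z, ρ, P) (pathE (c ξ) (w ξ) (Y, C, z, ρ, P))
      (pathQ (c ξ) (w ξ) (Y, C, z, ρ, P))).1 ≤ _ := sz_close (sz_algInd _ _ _ _ _ _)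
  unfold pathStep
  generalize pathClose _ _ _ _ _ = k at h5
  generalize pathQ _ _ _ = q at h0
  obtain ⟨u, v⟩ := q
  have h1 := sz_ctrG (w ξ) Y u v
  have h2 : sz (del (w ξ) C u) = _ := sz_sett _ _
  have h3 := sz_nat_mono (Nat.sub_le ρ 1)
  simp only [sz_pair, sz_zero, sz_bool] at *
  omega

@[fun_prop] theorem pt_okG {w : α → Un} {X : α → Tab} {q : α → ℕ × ℕ} (hw : PT w) (hX : PT X)
    (hq : PT q) :
    PT fun ξ => okG (w ξ) (X ξ) (q ξ) := by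
  unfold okG
  fun_prop

@[fun_prop] theorem pt_greedy {c : α → Ctx} {w : α → Un} {X : α → Tab} (hc : PT c) (hw : PT w)
    (hX : PT X) :
    PT fun ξ => greedy (c ξ) (w ξ) (X ξ) := by
  unfold greedy
  fun_prop

@[fun_prop] theorem pt_splitFree {c : α → Ctx} {w : α → Un} {E : α → List Ev}
    {s : α → Tab × List ℕ} (hc : PT c) (hw : PT w) (hE : PT E) (hs : PT s) :
    PT fun ξ => splitFree (c ξ) (w ξ) (E ξ) (s ξ) := by
  unfold splitFree
  fun_prop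

@[fun_prop] theorem pt_splitUpd {w : α → Un} {s : α → Tab × List ℕ} {i : α → ℕ} {r : α → ℕ × St}
    (hw : PT w) (hs : PT s) (hi : PT i) (hr : PT r) :
    PT fun ξ => splitUpd (w ξ) (s ξ) (i ξ) (r ξ) := by
  unfold splitUpd
  fun_prop

@[fun_prop] theorem pt_splitStep {c : α → Ctx} {w : α → Un} {E : α → List Ev}
    {s : α → Tab × List ℕ} {i : α → ℕ} (hc : PT c) (hw : PT w) (hE : PT E) (hs : PT s)
    (hi : PT i) :
    PT fun ξ => splitStep (c ξ) (w ξ) (E ξ) (s ξ) (i ξ) := by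
  unfold splitStep
  fun_prop

@[fun_prop] theorem pt_algS {c : α → Ctx} {w : α → Un} {N : α → Un} {G : α → Tab}
    {E : α → List Ev} (hc : PT c) (hw : PT w) (hN : PT N) (hG : PT G) (hE : PT E) :
    PT fun ξ => algS (c ξ) (w ξ) (N ξ) (G ξ) (E ξ) := by
  unfold algS
  obtain ⟨B, hB⟩ := (show PT fun ξ => (G ξ ++ bigT (w ξ), (rg (w ξ)).map fun _ => (w ξ).length) by
    fun_prop).size
  refine PT.foldl (f := fun ξ => splitStep (c ξ) (w ξ) (E ξ)) (by fun_prop) (by fun_prop)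
    (by fun_prop) ⟨B, fun ξ k => le_trans ?_ (hB ξ)⟩
  have key := H36.foldl_inv (P := fun s : Tab × List ℕ => sz s.1 ≤ sz (G ξ) + sz (bigT (w ξ)) ∧
      ∃ f : ℕ → ℕ, (∀ x, f x ≤ (w ξ).length) ∧ s.2 = (rg (w ξ)).map f)
    (f := splitStep (c ξ) (w ξ) (E ξ)) (s := (G ξ, rg (w ξ)))
    (l := ((rg (N ξ ++ N ξ ++ N ξ)).map fun i => i + (N ξ).length).take k) ?_ ?_
  · obtain ⟨h1, f, h2, h3⟩ := key
    generalize List.foldl _ _ _ = s at h1 h3
    obtain ⟨Y, ψ⟩ := s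
    have h4 : sz ((rg (w ξ)).map f) ≤ sz ((rg (w ξ)).map fun _ => (w ξ).length) :=
      sz_map_le fun x _ => sz_nat_mono (h2 x)
    simp only at h1 h3
    rw [← h3] at h4
    simp only [sz_pair, sz_append]
    omega
  · refine ⟨by simp, fun x => min x (w ξ).length, fun _ => min_le_right _ _, ?_⟩
    refine (List.map_id _).symm.trans (List.map_congr_left fun x hx => ?_)
    exact (min_eq_left (List.mem_range.1 hx).le).symm
  · rintro s i - ⟨h1, f, h2, h3⟩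
    unfold splitStep
    split_ifs
    · exact ⟨h1, f, h2, h3⟩
    · have h5 : ∀ x, gm s.2 x ≤ (w ξ).length := by
        intro x
        rw [h3, gm, List.getD_eq_getElem?_getD, List.getElem?_map]
        cases (rg (w ξ))[x]? with
        | none => simp
        | some y => exact h2 y
      refine ⟨(sz_tab _ _).trans (by omega), _, fun x => ?_, rfl⟩
      split_ifs <;> exact h5 _

@[fun_prop] theorem pt_comp {w : α → Un} {X : α → Tab} {y : α → ℕ} (hw : PT w) (hX : PT X)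
    (hy : PT y) :
    PT fun ξ => comp (w ξ) (X ξ) (y ξ) := by
  unfold comp
  fun_prop

@[fun_prop] theorem pt_mix {w : α → Un} {C : α → St} {f : α → Ev} {p : α → Ev} (hw : PT w)
    (hC : PT C) (hf : PT f) (hp : PT p) :
    PT fun ξ => mix (w ξ) (C ξ) (f ξ) (p ξ) := by
  unfold mix
  fun_prop

@[fun_prop] theorem pt_genTop {c : α → Ctx} {w : α → Un} {X : α → Tab} {P : α → List Ev}
    {r : α → ℕ × St} (hc : PT c) (hw : PT w) (hX : PT X) (hP : PT P) (hr : PT r) :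
    PT fun ξ => genTop (c ξ) (w ξ) (X ξ) (P ξ) (r ξ) := by
  unfold genTop
  fun_prop

@[fun_prop] theorem pt_findK {c : α → Ctx} {w : α → Un} {P : α → List Ev} {y : α → ℕ}
    {C : α → St} {X : α → Tab} {k : α → List Ev × Ev} (hc : PT c) (hw : PT w) (hP : PT P)
    (hy : PT y) (hC : PT C) (hX : PT X) (hk : PT k) :
    PT fun ξ => findK (c ξ) (w ξ) (P ξ) (y ξ) (C ξ) (X ξ) (k ξ) := by
  unfold findK
  fun_prop

@[fun_prop] theorem pt_findC {c : α → Ctx} {w : α → Un} {P : α → List Ev} {y : α → ℕ}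
    {C : α → St} {X : α → Tab} (hc : PT c) (hw : PT w) (hP : PT P) (hy : PT y) (hC : PT C)
    (hX : PT X) :
    PT fun ξ => findC (c ξ) (w ξ) (P ξ) (y ξ) (C ξ) (X ξ) := by
  unfold findC
  fun_prop

@[fun_prop] theorem pt_algF {c : α → Ctx} {w : α → Un} {H : α → Tab} {P : α → List Ev}
    (hc : PT c) (hw : PT w) (hH : PT H) (hP : PT P) :
    PT fun ξ => algF (c ξ) (w ξ) (H ξ) (P ξ) := by
  unfold algF
  fun_prop

@[fun_prop] theorem pt_topNew {c : α → Ctx} {w : α → Un} {G : α → Tab} {E : α → List Ev}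
    {s : α → Tab × List ℕ} (hc : PT c) (hw : PT w) (hG : PT G) (hE : PT E) (hs : PT s) :
    PT fun ξ => topNew (c ξ) (w ξ) (G ξ) (E ξ) (s ξ) := by
  unfold topNew
  fun_prop

@[fun_prop] theorem pt_topUpd {c : α → Ctx} {w : α → Un} {G : α → Tab} {E : α → List Ev}
    {e : α → Ev} (hc : PT c) (hw : PT w) (hG : PT G) (hE : PT E) (he : PT e) :
    PT fun ξ => topUpd (c ξ) (w ξ) (G ξ) (E ξ) (e ξ) := by
  unfold topUpd
  fun_prop

@[fun_prop] theorem pt_topStep {c : α → Ctx} {w : α → Un} {N : α → Un} {G : α → Tab}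
    {E : α → List Ev} (hc : PT c) (hw : PT w) (hN : PT N) (hG : PT G) (hE : PT E) :
    PT fun ξ => topStep (c ξ) (w ξ) (N ξ) (G ξ) (E ξ) := by
  unfold topStep
  fun_prop

@[fun_prop] theorem pt_topRun {c : α → Ctx} {w : α → Un} {N : α → Un} {G : α → Tab} (hc : PT c)
    (hw : PT w) (hN : PT N) (hG : PT G) :
    PT fun ξ => topRun (c ξ) (w ξ) (N ξ) (G ξ) := by
  unfold topRun
  refine iterate_grow (f := fun ξ => topStep (c ξ) (w ξ) (N ξ) (G ξ))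
    (fun ξ => (bigE (c ξ) (w ξ), true)) (by fun_prop) (by fun_prop) ?_ (by fun_prop) fun ξ s => ?_
  · exact (PT.un_poly (n := fun ξ => (w ξ).length) (by fun_prop) ((X + 1) ^ 7)).congr
      fun ξ => by simp
  · have h1 : sz (topNew (c ξ) (w ξ) (G ξ) s (algS (c ξ) (w ξ) (N ξ) (G ξ) s)) ≤ _ :=
      sz_line _ _ _ _ _
    unfold topStep topUpd
    split_ifs <;> simp only [sz_pair, sz_cons, sz_nil] <;> omega

@[fun_prop] theorem pt_closure {w : α → Un} {μ : α → List (List ℕ)} (hw : PT w) (hμ : PT μ) :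
    PT fun ξ => closure (w ξ) (μ ξ) := by
  unfold closure
  fun_prop

@[fun_prop] theorem pt_unN {μ : α → List (List ℕ)} (hμ : PT μ) :
    PT fun ξ => unN (μ ξ) := by
  unfold unN
  fun_prop

@[fun_prop] theorem pt_unW {μ : α → List (List ℕ)} (hμ : PT μ) :
    PT fun ξ => unW (μ ξ) := by
  unfold unW
  fun_prop

@[fun_prop] theorem pt_ctx {w : α → Un} (hw : PT w) :
    PT fun ξ => ctx (w ξ) := by
  unfold ctx
  refine PT.prodMk ?_ ?_
  · have h1 : PT fun ξ => un ((w ξ).length.size + 3) :=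
      (show PT fun ξ => un (sz (w ξ).length + 3) by fun_prop).congr fun ξ => by rw [sz_nat]
    refine PT.un_of_le (n := fun ξ => 108 * (((w ξ).length + 1) * ((w ξ).length + 1)))
      (PT.pow (by fun_prop) h1) (by fun_prop) fun ξ => ?_
    generalize (w ξ).length = n
    have h2 : 2 ^ n.size ≤ 2 * (n + 1) := by
      rcases Nat.eq_zero_or_pos n.size with h | h
      · rw [h]; omega
      · have h3 : 2 ^ (n.size - 1) ≤ n := Nat.lt_size.1 (by omega)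
        have h4 : 2 ^ n.size = 2 * 2 ^ (n.size - 1) := by
          rw [← pow_succ']; congr 1; omega
        omega
    have h5 : 3 ^ n.size ≤ 2 ^ n.size * 2 ^ n.size := by
      rw [← mul_pow]; exact Nat.pow_le_pow_left (by norm_num) _
    have h6 := Nat.mul_le_mul h2 h2
    rw [pow_add]
    nlinarith
  · exact (PT.un_poly (n := fun ξ => (w ξ).length) (by fun_prop) (32 * (X + 1) ^ 6 + 1)).congr
      fun ξ => by simp [un]

@[fun_prop] theorem pt_answer {μ : α → List (List ℕ)} (hμ : PT μ) :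
    PT fun ξ => answer (μ ξ) := by
  unfold answer
  fun_prop


end Pool.Agent.MP_bae0ed_lc.H52
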