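import Pool.Agent.MP_bae0ed_lc.H52.Pencil

/-!
The combinatorial steps of the contraction path.
-/

set_option autoImplicit false
set_option linter.unusedSectionVars false

namespace Pool.Agent.MP_bae0ed_lc.H52

open Finset Matrix Function Module Gr

variable {V V' : Type} [DecidableEq V] [DecidableEq V'] [Fintype V] [Fintype V']
variable {F : Type} [Field F] [CharP F 2]

/-- `u` and `z` are adjacent and have the same other neighbours. -/
def Twin (X : Gr V) (u z : V) : Prop := X.adj u z = 1 ∧ (X.ctr u z).Iso z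

/-- A contraction that keeps the rank and the shape. -/
def Ordi (X : Gr V) (C : Finset V) (p : V → F) (u z : V) : Prop :=
  X.adj u z = 1 ∧ rk X p ≤ rk (X.ctr u z) p + 1 ∧ ¬ (X.ctr u z).Iso z ∧
    ¬ (X.ctr u z).Full (C.erase u)

theorem conn_of_erase {X : Gr V} {C : Finset V} {z : V} (hC : X.On C) (hz : z ∈ C)
    (hn : ¬ X.Iso z) (h : X.Conn (C.erase z)) : X.Conn C := by
  obtain ⟨x, hx⟩ : ∃ x, X.adj z x = 1 := by
    by_contra hx
    exact hn fun x => z2_ne_one.1 fun e => hx ⟨x, e⟩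
  have hxC : x ∈ C := hC.right hx
  have hxz : x ≠ z := (ne_of_adj hx).symm
  intro S hS hne hSC
  by_cases hzS : z ∈ S
  · by_cases h0 : (S.erase z).Nonempty
    · obtain ⟨a, ha, b, hb, hb', hab⟩ := h (S.erase z) (erase_subset_erase z hS) h0 fun e => hSC (by
        rw [← insert_erase hzS, e, insert_erase hz])
      exact ⟨a, mem_of_mem_erase ha, b, mem_of_mem_erase hb,
        fun hbS => hb' (mem_erase.2 ⟨(mem_erase.1 hb).1, hbS⟩), hab⟩
    · exact ⟨z, hzS, x, hxC, fun hxS => h0 ⟨x, mem_erase.2 ⟨hxz, hxS⟩⟩, hx⟩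
  · by_cases h0 : S = C.erase z
    · refine ⟨x, ?_, z, hz, hzS, by rw [X.symm]; exact hx⟩
      rw [h0]
      exact mem_erase.2 ⟨hxz, hxC⟩
    · obtain ⟨a, ha, b, hb, hb', hab⟩ := h S
        (fun y hy => mem_erase.2 ⟨fun e => hzS (e ▸ hy), hS hy⟩) hne h0
      exact ⟨a, ha, b, mem_of_mem_erase hb, hb', hab⟩

theorem pt_sum_all (X : Gr V) : ∑ a, ∑ b, X.adj a b = 0 := by
  have h := (X.push fun _ => ()).irr ()
  simpa [push_adj] using h

theorem pt_cut {X : Gr V} (hE : X.Eul) {S : Finset V} {z : V} (hz : z ∉ S)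
    (h : ∀ a ∈ S, ∀ b, X.adj a b = 1 → b ∈ S ∨ b = z) :
    ∑ x, (if x ∈ S then X.adj z x else 0) = 0 := by
  have h1 := pt_sum_all (X.ind S)
  have h2 : ∀ a, ∑ b, (X.ind S).adj a b = if a ∈ S then X.adj z a else 0 := by
    intro a
    by_cases ha : a ∈ S
    · have h3 := hE a
      have h4 : ∀ b, X.adj a b = (X.ind S).adj a b + if b = z then X.adj z a else 0 := by
        intro b
        rw [ind_adj]
        by_cases hb : b ∈ S
        · have : b ≠ z := fun e => hz (e ▸ hb)
          simp [ha, hb, this]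
        · by_cases hbz : b = z
          · subst hbz
            simp [hb, X.symm a b]
          · have : X.adj a b = 0 := z2_ne_one.1 fun e => (h a ha b e).elim hb hbz
            simp [hb, hbz, this]
      rw [sum_congr rfl fun b _ => h4 b, sum_add_distrib, sum_ite_eq'] at h3
      simp only [mem_univ, if_true] at h3
      rw [if_pos ha]
      have h5 : ∀ x y : ZMod 2, x + y = 0 → x = y := by decide
      exact h5 _ _ h3
    · simp [ind_adj, ha]
  rw [sum_congr rfl fun a _ => h2 a] at h1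
  exact h1

/-- Without a free splitting at `z` the vertex `z` is not a cut vertex. -/
theorem conn_erase {X : Gr V} {C : Finset V} {z : V} {P : Set (V → F)} (hE : X.Eul) (hC : X.On C)
    (h : X.Conn C) (hz : z ∈ C)
    (hK : ∀ Z, Nt X C z Z → (∀ x, Z x = 1 → X.adj z x = 1) → ∃ p ∈ P, sv p z Z ∉ Rg X p) :
    X.Conn (C.erase z) := by
  intro S hS hne hSC
  by_contra hn
  have hzS : z ∉ S := fun hh => (mem_erase.1 (hS hh)).1 rfl
  have hcl : ∀ a ∈ S, ∀ b, X.adj a b = 1 → b ∈ S ∨ b = z := by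
    intro a ha b hab
    by_contra hb
    rw [not_or] at hb
    exact hn ⟨a, ha, b, mem_erase.2 ⟨hb.2, hC.right hab⟩, hb.1, hab⟩
  refine (hK (fun x => if x ∈ S then X.adj z x else 0) ⟨?_, pt_cut hE hzS hcl, ?_, ?_⟩ ?_).elim
    fun p hp => hp.2 (sv_mem_of_cut p hzS hcl)
  · intro x hx
    have hxS : x ∈ S := by
      by_contra hxS
      simp [hxS] at hx
    exact ⟨mem_of_mem_erase (hS hxS), (mem_erase.1 (hS hxS)).1⟩
  · intro e
    obtain ⟨a, ha, b, -, hb, hab⟩ := h S (hS.trans (erase_subset z C)) hne fun e => hzS (e ▸ hz)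
    have hbz : b = z := (hcl a ha b hab).resolve_left hb
    have h1 := congrFun e a
    rw [hbz, X.symm] at hab
    simp [ha, hab] at h1
  · intro e
    have hT : (C.erase z \ S).Nonempty := by
      rw [sdiff_nonempty]
      exact fun hh => hSC (Subset.antisymm hS hh)
    obtain ⟨a, ha, b, hbC, hb, hab⟩ := h (C.erase z \ S) (sdiff_subset.trans (erase_subset z C)) hT
      fun e => (mem_erase.1 (mem_sdiff.1 (e.ge hz)).1).1 rfl
    have haS : a ∉ S := (mem_sdiff.1 ha).2
    have haz : a ≠ z := (mem_erase.1 (mem_sdiff.1 ha).1).1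
    have hbS : b ∉ S := fun hbS => (hcl b hbS a (by rw [X.symm]; exact hab)).elim haS haz
    have hbz : b = z := by
      by_contra hbz
      exact hb (mem_sdiff.2 ⟨mem_erase.2 ⟨hbz, hbC⟩, hbS⟩)
    have h1 := congrFun e a
    rw [hbz, X.symm] at hab
    simp [haS, hab] at h1
  · intro x hx
    by_cases hxS : x ∈ S
    · simpa [hxS] using hx
    · simp [hxS] at hx

theorem pt_conn_pair {X : Gr V} {C : Finset V} {u z : V} {P : Set (V → F)} (hE : X.Eul)
    (hC : X.On C) (hu : u ∈ C) (hz : z ∈ C) (huz : u ≠ z) (h : X.Conn (C.erase z))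
    (hP : ∀ p ∈ P, Injective p) (hK : Kill X C P u) : X.Conn ((C.erase u).erase z) := by
  intro S hS hne hSC
  by_contra hn
  have hzS : z ∉ S := fun hh => (mem_erase.1 (hS hh)).1 rfl
  have huS : u ∉ S := fun hh => (mem_erase.1 (mem_erase.1 (hS hh)).2).1 rfl
  have hu' : u ∈ C.erase z := mem_erase.2 ⟨huz, hu⟩
  have hsub : (C.erase u).erase z ⊆ C.erase z := erase_subset_erase z (erase_subset u C)
  have hcl : ∀ a ∈ S, ∀ b, X.adj a b = 1 → b ∈ S ∨ b = u ∨ b = z := by
    intro a ha b hab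
    by_contra hb
    rw [not_or, not_or] at hb
    exact hn ⟨a, ha, b, mem_erase.2 ⟨hb.2.2, mem_erase.2 ⟨hb.2.1, hC.right hab⟩⟩, hb.1, hab⟩
  refine (hK (fun x => if x ∈ S then X.adj u x else if x = z then ∑ s ∈ S, X.adj u s else 0)
    ⟨?_, ?_, ?_, ?_⟩).elim fun p hp => hp.2 (sv_mem_of_sep hE (proper_of_inj X (hP p hp.1)) huS hzS
      (fun e => huz (hP p hp.1 e)) hcl)
  · intro x hx
    by_cases hxS : x ∈ S
    · exact ⟨mem_of_mem_erase (hsub (hS hxS)), fun e => huS (e ▸ hxS)⟩
    · by_cases hxz : x = z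
      · rw [hxz]
        exact ⟨hz, huz.symm⟩
      · simp [hxS, hxz] at hx
  · have e : ∀ x, (if x ∈ S then X.adj u x else if x = z then ∑ s ∈ S, X.adj u s else 0) =
        (if x ∈ S then X.adj u x else 0) + if x = z then ∑ s ∈ S, X.adj u s else 0 := by
      intro x
      by_cases hxS : x ∈ S
      · have : x ≠ z := fun e => hzS (e ▸ hxS)
        simp [hxS, this]
      · simp [hxS]
    simp only [e, sum_add_distrib, sum_ite_eq', mem_univ, if_true, sum_ite_mem, univ_inter,
      z2_add_self]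
  · intro e
    obtain ⟨a, ha, b, hbC, hb, hab⟩ := h S (hS.trans hsub) hne fun e => huS (e ▸ hu')
    have hbu : b = u :=
      ((hcl a ha b hab).resolve_left hb).resolve_right (mem_erase.1 hbC).1
    have h1 := congrFun e a
    rw [hbu, X.symm] at hab
    simp [ha, hab] at h1
  · intro e
    have hT : ((C.erase u).erase z \ S).Nonempty := by
      rw [sdiff_nonempty]
      exact fun hh => hSC (Subset.antisymm hS hh)
    obtain ⟨a, ha, b, hbC, hb, hab⟩ := h ((C.erase u).erase z \ S) (sdiff_subset.trans hsub) hT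
      fun e => (mem_erase.1 (mem_erase.1
        (mem_sdiff.1 (e.ge hu')).1).2).1 rfl
    have haS : a ∉ S := (mem_sdiff.1 ha).2
    have haz : a ≠ z := (mem_erase.1 (mem_sdiff.1 ha).1).1
    have hau : a ≠ u := (mem_erase.1 (mem_erase.1 (mem_sdiff.1 ha).1).2).1
    have hbS : b ∉ S := fun hbS =>
      (hcl b hbS a (by rw [X.symm]; exact hab)).elim haS fun hh => hh.elim hau haz
    have hbu : b = u := by
      by_contra hbu
      exact hb (mem_sdiff.2 ⟨mem_erase.2 ⟨(mem_erase.1 hbC).1,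
        mem_erase.2 ⟨hbu, mem_of_mem_erase hbC⟩⟩, hbS⟩)
    have h1 := congrFun e a
    rw [hbu, X.symm] at hab
    simp [haS, haz, hab] at h1

theorem pt_conn_ctr {X : Gr V} {C : Finset V} {u z : V} (h : X.Conn ((C.erase u).erase z)) :
    (X.ctr u z).Conn ((C.erase u).erase z) := by
  intro S hS hne hSC
  obtain ⟨a, ha, b, hb, hb', hab⟩ := h S hS hne hSC
  have ha' := hS ha
  refine ⟨a, ha, b, hb, hb', ?_⟩
  rw [ctr_adj_other (mem_erase.1 (mem_erase.1 ha').2).1 (mem_erase.1 ha').1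
    (mem_erase.1 (mem_erase.1 hb).2).1 (mem_erase.1 hb).1]
  exact hab

/-- Without a free splitting at `u` the pair `u, z` does not separate. -/
theorem conn_ctr {X : Gr V} {C : Finset V} {u z : V} {P : Set (V → F)} (hE : X.Eul) (hC : X.On C)
    (hu : u ∈ C) (hz : z ∈ C) (huz : u ≠ z) (h : X.Conn (C.erase z))
    (hP : ∀ p ∈ P, Injective p) (hK : Kill X C P u) :
    (X.ctr u z).Conn ((C.erase u).erase z) :=
  pt_conn_ctr (pt_conn_pair hE hC hu hz huz h hP hK)

/-- Without a free splitting at `z` the pair `u, z` does not separate. -/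
theorem conn_ctr' {X : Gr V} {C : Finset V} {u z : V} {P : Set (V → F)} (hE : X.Eul) (hC : X.On C)
    (hu : u ∈ C) (hz : z ∈ C) (huz : u ≠ z) (h : X.Conn (C.erase u))
    (hP : ∀ p ∈ P, Injective p) (hK : Kill X C P z) :
    (X.ctr u z).Conn ((C.erase u).erase z) := by
  refine pt_conn_ctr ?_
  rw [erase_right_comm]
  exact pt_conn_pair hE hC hz hu huz.symm h hP hK

theorem Twin.adj_eq {X : Gr V} {u z : V} (h : Twin X u z) {b : V} (hu : b ≠ u) (hz : b ≠ z) :
    X.adj z b = X.adj u b := by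
  have h1 := h.2 b
  rw [ctr_adj_tgt (ne_of_adj h.1) hu hz] at h1
  have h5 : ∀ x y : ZMod 2, x + y = 0 → x = y := by decide
  exact h5 _ _ h1

theorem pt_twin_iff {X : Gr V} {u z : V} : Twin X u z ↔
    u ≠ z ∧ ∀ b, (b = u ∨ X.adj u b = 1) ↔ (b = z ∨ X.adj z b = 1) := by
  constructor
  · intro h
    refine ⟨ne_of_adj h.1, fun b => ?_⟩
    by_cases hu : b = u
    · have : X.adj z u = 1 := by rw [X.symm]; exact h.1
      simp [hu, this]
    · by_cases hz : b = z
      · simp [hz, h.1]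
      · simp [hu, hz, h.adj_eq hu hz]
  · rintro ⟨huz, h⟩
    refine ⟨((h z).2 (Or.inl rfl)).resolve_left huz.symm, fun b => ?_⟩
    by_cases hu : b = u
    · rw [hu, Gr.symm]
      exact ctr_adj_left huz z
    · by_cases hz : b = z
      · rw [hz]
        exact Gr.irr _ _
      · rw [ctr_adj_tgt huz hu hz]
        have h1 := h b
        simp only [hu, hz, false_or] at h1
        have h5 : ∀ x y : ZMod 2, (x = 1 ↔ y = 1) → y + x = 0 := by decide
        exact h5 _ _ h1

theorem Twin.symm {X : Gr V} {u z : V} (h : Twin X u z) : Twin X z u :=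
  pt_twin_iff.2 ⟨(pt_twin_iff.1 h).1.symm, fun b => ((pt_twin_iff.1 h).2 b).symm⟩

theorem Twin.adj_swap {X : Gr V} {u z : V} (h : Twin X u z) (a b : V) :
    X.adj (Equiv.swap z u a) (Equiv.swap z u b) = X.adj a b := by
  have huz : u ≠ z := ne_of_adj h.1
  have h1 : ∀ b, X.adj u (Equiv.swap z u b) = X.adj z b := by
    intro b
    by_cases hz : b = z
    · simp [hz, X.irr]
    · by_cases hu : b = u
      · simp [hu, X.symm z u]
      · rw [Equiv.swap_apply_of_ne_of_ne hz hu, h.adj_eq hu hz]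
  have h2 : ∀ b, X.adj z (Equiv.swap z u b) = X.adj u b := by
    intro b
    rw [← h1, Equiv.swap_apply_self]
  by_cases haz : a = z
  · rw [haz, Equiv.swap_apply_left, h1]
  · by_cases hau : a = u
    · rw [hau, Equiv.swap_apply_right, h2]
    · by_cases hbz : b = z
      · rw [hbz, Equiv.swap_apply_left, X.symm, h1, X.symm]
      · by_cases hbu : b = u
        · rw [hbu, Equiv.swap_apply_right, X.symm, h2, X.symm]
        · rw [Equiv.swap_apply_of_ne_of_ne haz hau, Equiv.swap_apply_of_ne_of_ne hbz hbu]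

theorem Twin.push_swap {X : Gr V} {u z : V} (h : Twin X u z) : X.push (Equiv.swap z u) = X := by
  ext a b
  have h1 := push_adj_inj (Equiv.swap z u).injective X (Equiv.swap z u a) (Equiv.swap z u b)
  rw [Equiv.swap_apply_self, Equiv.swap_apply_self] at h1
  rw [h1, h.adj_swap]

theorem pt_pushZ_swap (z u : V) (Z : V → ZMod 2) (x : V) :
    pushZ (Equiv.swap z u) Z x = Z (Equiv.swap z u x) := by
  simp only [pushZ, Equiv.swap_apply_eq_iff, sum_ite_eq', mem_univ, if_true]

theorem Twin.kill {X : Gr V} {C : Finset V} {u z : V} {P : Set (V → F)} (h : Twin X u z)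
    (hu : u ∈ C) (hz : z ∈ C) (hK : Kill X C P u) {Z : V → ZMod 2} (hZ : Nt X C z Z) :
    ∃ p ∈ P, rk X (p ∘ Equiv.swap z u) = rk X p ∧
      sv (p ∘ Equiv.swap z u) z Z ∉ Rg X (p ∘ Equiv.swap z u) := by
  obtain ⟨h1, h2, h3, h4⟩ := hZ
  refine (hK (pushZ (Equiv.swap z u) Z) ⟨?_, ?_, ?_, ?_⟩).elim fun p ⟨hp, hp'⟩ => ?_
  rotate_left 4
  · refine ⟨p, hp, ?_, fun hm => hp' ?_⟩
    · rw [← rk_push_inj (Equiv.swap z u).injective, h.push_swap]
    · have e := Rg_push_inj (Equiv.swap z u).injective X p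
      rw [h.push_swap] at e
      have e2 := pm_sv (Equiv.swap z u) p z Z
      rw [Equiv.swap_apply_left] at e2
      rw [e, ← e2]
      exact Submodule.mem_map_of_mem hm
  · intro x hx
    rw [pt_pushZ_swap] at hx
    obtain ⟨h5, h6⟩ := h1 _ hx
    have hxu : x ≠ u := by
      rintro rfl
      exact h6 (Equiv.swap_apply_right _ _)
    refine ⟨?_, hxu⟩
    by_cases hxz : x = z
    · rw [hxz]
      exact hz
    · rwa [Equiv.swap_apply_of_ne_of_ne hxz hxu] at h5
  · simp only [pt_pushZ_swap]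
    rw [Equiv.sum_comp (Equiv.swap z u) Z]
    exact h2
  · intro e
    refine h3 (funext fun x => ?_)
    have h5 := congrFun e (Equiv.swap z u x)
    rwa [pt_pushZ_swap, Equiv.swap_apply_self] at h5
  · intro e
    refine h4 (funext fun x => ?_)
    have h5 := congrFun e (Equiv.swap z u x)
    rw [pt_pushZ_swap, Equiv.swap_apply_self] at h5
    rw [h5, ← h.adj_swap z x, Equiv.swap_apply_left]

/-- Independent triples force minimum degree at least four. -/
theorem four_le_deg {X : Gr V} {C : Finset V} {p : V → F} (hE : X.Eul) (hC : X.On C)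
    (h : X.Conn C) (h2 : 2 ≤ C.card) (hp : Injective p)
    (h3 : ∀ a ∈ C, ∀ b ∈ C, ∀ x ∈ C, a ≠ b → a ≠ x → b ≠ x → rk X p + 1 ≤ rk (X + tri a b x) p)
    {x : V} (hx : x ∈ C) : 4 ≤ (X.nbr x).card := by
  obtain ⟨a, ha, b, -, -, hab⟩ := h {x} (by simpa using hx) (singleton_nonempty x) fun e => by
    rw [← e] at h2
    simp at h2
  rw [mem_singleton.1 ha] at hab
  have h4 := hE.two_le hab
  obtain ⟨k, hk⟩ := hE.even x
  by_contra hn
  obtain ⟨a, b, hab, e⟩ := card_eq_two.1 (show (X.nbr x).card = 2 by omega)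
  have ha : X.adj x a = 1 := mem_nbr.1 (by simp [e])
  have hb : X.adj x b = 1 := mem_nbr.1 (by simp [e])
  have hrow : X.adj x = Pi.single a 1 + Pi.single b 1 := by
    funext y
    by_cases hya : y = a
    · simp [hya, ha, hab]
    · by_cases hyb : y = b
      · simp [hyb, hb, hab.symm]
      · have : X.adj x y = 0 := z2_ne_one.1 fun hy => by
          have := mem_nbr.2 hy
          simp [e, hya, hyb] at this
        simp [hya, hyb, this]
  have hm : tv p x a b ∈ Rg X p := by
    rw [tv, ← hrow]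
    exact sv_row_mem X p x
  have h5 := rk_add_tri_of_mem X (hp.ne (ne_of_adj ha)) (hp.ne (ne_of_adj hb)) (hp.ne hab) hm
  have h6 := h3 x hx a (hC.right ha) b (hC.right hb) (ne_of_adj ha) (ne_of_adj hb) hab
  omega

open Classical in
/-- The twins of a vertex. -/
noncomputable def ptTw (X : Gr V) (y : V) : Finset V := univ.filter fun w => Twin X y w

theorem pt_mem_tw {X : Gr V} {y w : V} : w ∈ ptTw X y ↔ Twin X y w := by simp [ptTw]

theorem pt_full {X : Gr V} {C : Finset V} (hC : X.On C) {y w w' : V} (hdeg : 4 ≤ (X.nbr y).card)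
    (hw : X.adj y w = 1) (hw' : X.adj y w' = 1) (hne : w ≠ w')
    (h : (X.ctr y w).Full (C.erase y))
    (h' : (X.ctr y w').Iso w' ∨ (X.ctr y w').Full (C.erase y)) : False := by
  have hm : ∀ a, X.adj y a = 1 → a ∈ C.erase y := fun a ha =>
    mem_erase.2 ⟨(ne_of_adj ha).symm, hC.right ha⟩
  have key : ∀ a, X.adj y a = 1 → a ≠ w → X.adj w a = 0 := by
    intro a ha haw
    have h1 := h w (hm w hw) a (hm a ha) haw.symm
    rw [ctr_adj_tgt (ne_of_adj hw) (ne_of_adj ha).symm haw, ha] at h1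
    simpa using h1
  rcases h' with h' | h'
  · have h1 := Twin.adj_eq ⟨hw', h'⟩ (ne_of_adj hw).symm hne
    rw [hw, X.symm, key w' hw' hne.symm] at h1
    exact zero_ne_one h1
  · have hs : X.nbr y ⊆ {w, w'} := by
      intro a ha
      rw [mem_nbr] at ha
      by_contra hn
      simp only [mem_insert, mem_singleton, not_or] at hn
      have h1 := h' w (hm w hw) a (hm a ha) (Ne.symm hn.1)
      rw [ctr_adj_other (ne_of_adj hw).symm hne (ne_of_adj ha).symm hn.2, key a ha hn.1] at h1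
      exact zero_ne_one h1
    have h1 := (card_le_card hs).trans card_le_two
    omega

theorem pt_many {X : Gr V} {C : Finset V} {p : V → F} {y : V} (hE : X.Eul) (hC : X.On C)
    (hp : Injective p) (hdeg : 4 ≤ (X.nbr y).card) (hn : ∀ w, ¬ Ordi X C p y w) :
    (X.nbr y).card + 2 ≤ 2 * (ptTw X y).card := by
  have h1 := count_bad hE (proper_of_inj X hp) (u := y) hp.injOn (card_pos.1 (by omega))
  have h2 := card_filter_add_card_filter_not (s := X.nbr y)
    (fun w => rk (X.ctr y w) p + 1 < rk X p)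
  set G := (X.nbr y).filter fun w => ¬ rk (X.ctr y w) p + 1 < rk X p with hG
  have h3 : ∀ w ∈ G, X.adj y w = 1 ∧ ((X.ctr y w).Iso w ∨ (X.ctr y w).Full (C.erase y)) := by
    intro w hw
    obtain ⟨h4, h5⟩ := mem_filter.1 hw
    refine ⟨mem_nbr.1 h4, ?_⟩
    by_contra h6
    rw [not_or] at h6
    exact hn w ⟨mem_nbr.1 h4, not_lt.1 h5, h6.1, h6.2⟩
  have h4 : G ⊆ ptTw X y := by
    intro w hw
    obtain ⟨h5, h6⟩ := h3 w hw
    refine pt_mem_tw.2 ⟨h5, h6.resolve_right fun h7 => ?_⟩
    obtain ⟨w', hw', hne⟩ := exists_mem_ne (show 1 < G.card by omega) w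
    exact pt_full hC hdeg h5 (h3 w' hw').1 hne.symm h7 (h3 w' hw').2
  have h5 := card_le_card h4
  omega

theorem pt_few {X : Gr V} {z b : V} (hzb : X.adj z b = 1) (hn : ¬ Twin X z b) :
    (ptTw X z).card + 1 + (ptTw X b).card ≤ (X.nbr b).card := by
  have h0 : z ∉ ptTw X z := fun hh => (pt_twin_iff.1 (pt_mem_tw.1 hh)).1 rfl
  have hd : Disjoint (insert z (ptTw X z)) (ptTw X b) := by
    rw [disjoint_left]
    intro t ht ht'
    have h2 := pt_mem_tw.1 ht'
    rcases mem_insert.1 ht with rfl | ht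
    · exact hn h2.symm
    · have h1 := pt_twin_iff.1 (pt_mem_tw.1 ht)
      exact hn (pt_twin_iff.2 ⟨ne_of_adj hzb, fun c =>
        (h1.2 c).trans ((pt_twin_iff.1 h2).2 c).symm⟩)
  rw [← card_insert_of_notMem h0, ← card_union_of_disjoint hd]
  refine card_le_card fun t ht => mem_nbr.2 ?_
  rcases mem_union.1 ht with ht | ht
  · rcases mem_insert.1 ht with rfl | ht
    · rw [X.symm]
      exact hzb
    · have h1 := pt_mem_tw.1 ht
      have h2 := ((pt_twin_iff.1 h1).2 b).1 (Or.inr hzb)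
      rw [X.symm]
      exact h2.resolve_left fun e => hn (e ▸ h1)
  · exact (pt_mem_tw.1 ht).1

theorem exists_ordi {X : Gr V} {C : Finset V} {p : V → F} {z : V} (hE : X.Eul) (hC : X.On C)
    (h : X.Conn C) (hz : z ∈ C) (hp : Injective p) (hfull : ¬ X.Full C)
    (hdeg : ∀ x ∈ C, 4 ≤ (X.nbr x).card) :
    ∃ u z', Ordi X C p u z' ∧ (u = z ∨ ∃ v, Twin X v z) := by
  by_contra hn
  have h1 : ∀ w, ¬ Ordi X C p z w := fun w hw => hn ⟨z, w, hw, Or.inl rfl⟩
  have h2 := pt_many hE hC hp (hdeg z hz) h1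
  obtain ⟨v, hv⟩ : (ptTw X z).Nonempty := card_pos.1 (by omega)
  have h3 : ∀ u w, ¬ Ordi X C p u w := fun u w hw =>
    hn ⟨u, w, hw, Or.inr ⟨v, (pt_mem_tw.1 hv).symm⟩⟩
  obtain ⟨b, hb, hb'⟩ : ∃ b, X.adj z b = 1 ∧ ¬ Twin X z b := by
    by_contra h4
    have h5 : ∀ a ∈ insert z (X.nbr z), ∀ c, (c = a ∨ X.adj a c = 1) ↔ c ∈ insert z (X.nbr z) := by
      intro a ha c
      rw [mem_insert, mem_nbr]
      rcases mem_insert.1 ha with rfl | ha
      · rfl
      · have h6 : Twin X z a := by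
          by_contra h6
          exact h4 ⟨a, mem_nbr.1 ha, h6⟩
        exact ((pt_twin_iff.1 h6).2 c).symm
    have h6 : insert z (X.nbr z) = C := by
      by_contra h6
      obtain ⟨a, ha, c, -, hc, hac⟩ := h _ (insert_subset hz fun x hx => hC.right (mem_nbr.1 hx))
        (insert_nonempty _ _) h6
      exact hc ((h5 a ha c).1 (Or.inr hac))
    rw [h6] at h5
    exact hfull fun a ha c hc hac => ((h5 a ha c).2 hc).resolve_left hac.symm
  have h4 := pt_many hE hC hp (hdeg b (hC.right hb)) (h3 b)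
  have h5 := pt_few hb hb'
  have h6 := pt_few (show X.adj b z = 1 by rw [X.symm]; exact hb) fun hh => hb' hh.symm
  omega

end Pool.Agent.MP_bae0ed_lc.H52
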