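import Pool.Agent.MP_bae0ed_lc.H52.Lapl

/-!
The potential: tightness of a splitting is a linear condition over the prime field.
-/

set_option autoImplicit false
set_option linter.unusedSectionVars false

namespace Pool.Agent.MP_bae0ed_lc.H52

open Finset Matrix Function Module Gr

variable {V V' : Type} [DecidableEq V] [DecidableEq V'] [Fintype V] [Fintype V']
variable {F : Type} [Field F] [CharP F 2]

/-- The space in which a splitting is recorded. -/
abbrev PotSp (V : Type) := V × V × V × V → (V × V → ZMod 2) × (V → ZMod 2)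

theorem finrank_potSp : finrank (ZMod 2) (PotSp V) =
    Fintype.card V ^ 4 * (Fintype.card V ^ 2 + Fintype.card V) := by
  rw [Module.finrank_pi_fintype]
  simp only [Module.finrank_prod, Module.finrank_fintype_fun_eq_card, Fintype.card_prod,
    Finset.sum_const, Finset.card_univ, smul_eq_mul]
  ring

theorem pot_sum_pushZ (ψ : V → V) (Z : V → ZMod 2) (f : V → F) :
    ∑ v, cz F (pushZ ψ Z v) * f v = ∑ a, cz F (Z a) * f (ψ a) := by
  simp only [pushZ, map_sum, Finset.sum_mul]
  rw [Finset.sum_comm]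
  refine Finset.sum_congr rfl fun a _ => ?_
  rw [Finset.sum_eq_single (ψ a)]
  · simp
  · intro b _ hb
    simp [hb.symm]
  · simp

theorem pot_sv_sum (e : V → F) (y : V) (Z : V → ZMod 2) :
    sv e y Z = ∑ v, cz F (Z v) • sv e y (Pi.single v 1) := by
  funext u
  simp only [sv, Finset.sum_apply, Pi.smul_apply, smul_eq_mul, mul_add, Finset.sum_add_distrib]
  congr 1
  · rw [Finset.sum_eq_single u]
    · simp
    · intro b _ hb
      simp [Pi.single_apply, hb.symm]
    · simp
  · split_ifs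
    · refine Finset.sum_congr rfl fun v _ => ?_
      rw [Finset.sum_eq_single v]
      · simp
      · intro b _ hb
        simp [Pi.single_apply, hb]
      · simp
    · simp

/-- The linear conditions at one evaluation. -/
def potK (e : V → F) (Γ : Matrix V V F) : Submodule (ZMod 2) (PotSp V) where
  carrier := {a | ∀ i : V × V × V × V,
    ∑ v, ∑ v', cz F ((a i).1 (v, v')) *
        (sv e i.2.2.1 (Pi.single v 1) ⬝ᵥ Γ *ᵥ sv e i.2.2.2 (Pi.single v' 1)) =
      ∑ v, cz F ((a i).2 v) * (e v + e i.2.2.1)⁻¹}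
  add_mem' := by
    intro a b ha hb i
    simp only [Pi.add_apply, Prod.fst_add, Prod.snd_add, map_add, add_mul, Finset.sum_add_distrib]
    rw [ha i, hb i]
  zero_mem' := by intro i; simp
  smul_mem' := by
    intro c a ha
    rcases z2 c with rfl | rfl
    · intro i; simp
    · simpa using ha

/-- The record of a splitting. -/
def potA (H : Gr V) (ψ : V → V) : PotSp V := fun i =>
  if ψ i.1 = i.2.2.1 ∧ ψ i.2.1 = i.2.2.2 then
    (fun q => pushZ ψ (H.adj i.1) q.1 * pushZ ψ (H.adj i.2.1) q.2,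
      (if i.1 = i.2.1 then pushZ ψ (H.adj i.1) else 0) + Pi.single (ψ i.2.1) (H.adj i.1 i.2.1))
  else 0

theorem exists_pot (G : Gr V) :
    ∃ (K : (V → F) → Submodule (ZMod 2) (PotSp V)) (A : Gr V → (V → V) → PotSp V),
      ∀ (e : V → F) (H : Gr V) (ψ : V → V), H.push ψ = G →
        (rk H (e ∘ ψ) ≤ rk G e ↔ A H ψ ∈ K e) := by
  choose Γ h1 h2 using fun e : V → F => exists_ginv (Lap G e)
  refine ⟨fun e => potK e (Γ e), potA, fun e H ψ hG => ?_⟩
  have hL : Lap G e = pm F ψ * Lap H (e ∘ ψ) * (pm F ψ)ᵀ := by rw [← hG, Lap_push]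
  have e1 := h1 e
  have e2 := h2 e
  unfold rk
  rw [hL] at e1 e2 ⊢
  rw [tight_iff (Lap_symm H _) e1 e2]
  have col : ∀ x y, (pm F ψ * Lap H (e ∘ ψ)) y x = sv e (ψ x) (pushZ ψ (H.adj x)) y := by
    intro x y
    rw [← pm_sv]
    rfl
  have lhs : ∀ x x', ((pm F ψ * Lap H (e ∘ ψ))ᵀ * Γ e * (pm F ψ * Lap H (e ∘ ψ))) x x' =
      ∑ v, ∑ v', cz F (pushZ ψ (H.adj x) v * pushZ ψ (H.adj x') v') *
        (sv e (ψ x) (Pi.single v 1) ⬝ᵥ Γ e *ᵥ sv e (ψ x') (Pi.single v' 1)) := by
    intro x x'
    have : ((pm F ψ * Lap H (e ∘ ψ))ᵀ * Γ e * (pm F ψ * Lap H (e ∘ ψ))) x x' =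
        sv e (ψ x) (pushZ ψ (H.adj x)) ⬝ᵥ Γ e *ᵥ sv e (ψ x') (pushZ ψ (H.adj x')) := by
      rw [Matrix.mul_assoc, Matrix.mul_apply]
      simp only [Matrix.transpose_apply, dotProduct, Matrix.mulVec, Matrix.mul_apply (M := Γ e), col]
    rw [this, pot_sv_sum e (ψ x), pot_sv_sum e (ψ x') (pushZ ψ (H.adj x')), sum_dotProduct]
    refine Finset.sum_congr rfl fun v _ => ?_
    rw [Matrix.mulVec_sum, dotProduct_sum]
    refine Finset.sum_congr rfl fun v' _ => ?_
    rw [Matrix.mulVec_smul, smul_dotProduct, dotProduct_smul, map_mul, smul_eq_mul, smul_eq_mul,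
      mul_assoc]
  have rhs : ∀ x x', Lap H (e ∘ ψ) x x' =
      ∑ v, cz F (((if x = x' then pushZ ψ (H.adj x) else 0) + Pi.single (ψ x') (H.adj x x') :
        V → ZMod 2) v) * (e v + e (ψ x))⁻¹ := by
    intro x x'
    simp only [Pi.add_apply, map_add, add_mul, Finset.sum_add_distrib]
    rw [Lap_apply, add_comm]
    congr 1
    · split_ifs with h
      · subst h
        rw [pot_sum_pushZ]
        rfl
      · simp
    · rw [Finset.sum_eq_single (ψ x')]
      · simp [H.symm x x', add_comm]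
      · intro b _ hb
        simp [Pi.single_apply, hb]
      · simp
  constructor
  · rintro h ⟨x, x', y, y'⟩
    unfold potA
    by_cases hi : ψ x = y ∧ ψ x' = y'
    · rw [if_pos hi]
      obtain ⟨rfl, rfl⟩ := hi
      exact (lhs x x').symm.trans ((congrFun (congrFun h x) x').symm.trans (rhs x x'))
    · rw [if_neg hi]
      simp
  · intro h
    ext x x'
    have := h (x, x', ψ x, ψ x')
    unfold potA at this
    rw [if_pos ⟨rfl, rfl⟩] at this
    exact (rhs x x').trans (this.symm.trans (lhs x x').symm)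

end Pool.Agent.MP_bae0ed_lc.H52
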