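import Pool.Agent.MP_bae0ed_lc.H52.Defs
import Pool.Agent.MP_0c5eb8_lc.H36.LinPT

/-!
The data structures of the algorithm: field elements, evaluations, tables, and their meaning.
-/

set_option autoImplicit false

namespace Pool.Agent.MP_bae0ed_lc.H52

open Pool.Agent.MP_0c5eb8_lc

/-- A number in unary. -/
abbrev Un := List Bool
/-- A field element, given by its coefficients. -/
abbrev Fe := List Bool
/-- An evaluation. -/
abbrev Ev := List Fe
/-- A graph; only the entries above the diagonal are read. -/
abbrev Tab := List (List Bool)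
/-- A set of vertices. -/
abbrev St := List Bool
/-- Half the degree of the field, and the number of field elements that are tried. -/
abbrev Ctx := Un × Un
/-- A graph on its own universe with a map to the universe of the evaluation. -/
abbrev Obj := Un × Tab × List ℕ

/-- The first element with a property. -/
def pick {α : Type} (l : List α) (p : α → Bool) (d : α) : α := (l.filter p).headD d

/-- Run `step` forward and then `back` backward. -/
def unwind {σ β : Type} (step : σ → σ) (back : σ → β → β) : ℕ → σ → β → β
  | 0, _, b => b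
  | n + 1, s, b => back s (unwind step back n (step s) b)

def rg (w : Un) : List ℕ := List.range w.length

def pairs (w : Un) : List (ℕ × ℕ) := (rg w).flatMap fun a => (rg w).map fun b => (a, b)

def triples (w : Un) : List (ℕ × ℕ × ℕ) :=
  (rg w).flatMap fun a => (pairs w).map fun b => (a, b)

def quads (w : Un) : List (ℕ × ℕ × ℕ × ℕ) :=
  (rg w).flatMap fun a => (triples w).map fun b => (a, b)

/-! ### The field `GF(2)[x] / (x ^ (2 m) + x ^ m + 1)` -/

def fk (c : Ctx) : Un := c.1 ++ c.1

def bt (a : List Bool) (i : ℕ) : Bool := a.getD i false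

def fadd (c : Ctx) (a b : Fe) : Fe := (rg (fk c)).map fun i => xor (bt a i) (bt b i)

def mulX (c : Ctx) (a : Fe) : Fe := (rg (fk c)).map fun i =>
  xor (decide (0 < i) && bt a (i - 1))
    (bt a ((fk c).length - 1) && (decide (i = 0) || decide (i = c.1.length)))

def fmul (c : Ctx) (a b : Fe) : Fe :=
  (rg (fk c)).reverse.foldl (fun s i => fadd c (mulX c s) (if bt a i then b else [])) []

def finv (c : Ctx) (a : Fe) : Fe :=
  ((fk c).tail.foldl (fun s _ => (fmul c s.1 s.1, fmul c s.2 s.1)) (fmul c a a, [true])).2

def feq (c : Ctx) (a b : Fe) : Bool := (rg (fk c)).all fun i => bt a i == bt b i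

def fsum (c : Ctx) (l : List Fe) : Fe := l.foldl (fadd c) []

/-- The bits of a vector. -/
def coords (c : Ctx) (w : Un) (v : List Fe) : List Bool :=
  (rg w).flatMap fun a => (rg (fk c)).map fun i => bt (v.getD a []) i

/-- The multiples of the vectors by the powers of the generator. -/
def blow (c : Ctx) (vs : List (List Fe)) : List (List Fe) :=
  vs.flatMap fun v => (rg (fk c)).map fun i => v.map (fmul c (List.replicate i false ++ [true]))

def rkF (c : Ctx) (w : Un) (vs : List (List Fe)) : ℕ :=
  H36.rk (w.length * (fk c).length) ((blow c vs).map (coords c w)) / (fk c).length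

/-! ### Graphs -/

def ad (T : Tab) (a b : ℕ) : Bool :=
  if a < b then bt (T.getD a []) b else if b < a then bt (T.getD b []) a else false

def tab (w : Un) (f : ℕ → ℕ → Bool) : Tab := (rg w).map fun a => (rg w).map (f a)

def sett (w : Un) (f : ℕ → Bool) : St := (rg w).map f

def rowG (w : Un) (X : Tab) (u : ℕ) : St := sett w (ad X u)

def addG (w : Un) (X Y : Tab) : Tab := tab w fun a b => xor (ad X a b) (ad Y a b)

def edgeB (a b x y : ℕ) : Bool :=
  xor (decide (x = a) && decide (y = b)) (decide (y = a) && decide (x = b))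

def addTri (w : Un) (X : Tab) (a b c : ℕ) : Tab :=
  tab w fun x y => xor (ad X x y) (xor (xor (edgeB a b x y) (edgeB b c x y)) (edgeB a c x y))

def splitG (w : Un) (X : Tab) (y y2 : ℕ) (Z : St) : Tab := tab w fun a b =>
  xor (xor (ad X a b) (xor (decide (a = y) && bt Z b) (decide (b = y) && bt Z a)))
    (xor (decide (a = y2) && bt Z b) (decide (b = y2) && bt Z a))

def ctrG (w : Un) (X : Tab) (u v : ℕ) : Tab := splitG w X u v (rowG w X u)

def indG (w : Un) (X : Tab) (C : St) : Tab := tab w fun a b => bt C a && bt C b && ad X a b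

def gm (φ : List ℕ) (a : ℕ) : ℕ := φ.getD a 0

def pushG (w w' : Un) (φ : List ℕ) (X : Tab) : Tab := tab w' fun y y' =>
  decide (((pairs w).filter fun q =>
    decide (gm φ q.1 = y) && decide (gm φ q.2 = y') && ad X q.1 q.2).length % 2 = 1)

def fullG (w : Un) : Tab := tab w fun _ _ => true

/-- The second embedding into the doubled universe. -/
def iota2 (w : Un) (D : St) : List ℕ := (rg w).map fun x => if bt D x then x else x + w.length

def dblG (w : Un) (D : St) (X Y : Tab) : Tab :=
  addG (w ++ w) (pushG w (w ++ w) (rg w) X) (pushG w (w ++ w) (iota2 w D) Y)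

def isoG (w : Un) (X : Tab) (u : ℕ) : Bool := (rg w).all fun x => !ad X u x

def deg (w : Un) (X : Tab) (u : ℕ) : ℕ := ((rg w).filter (ad X u)).length

def cardS (w : Un) (C : St) : ℕ := ((rg w).filter (bt C)).length

def fullB (w : Un) (X : Tab) (C : St) : Bool :=
  (pairs w).all fun q => !bt C q.1 || !bt C q.2 || decide (q.1 = q.2) || ad X q.1 q.2

def upd (w : Un) (u v : ℕ) : List ℕ := (rg w).map fun x => if x = u then v else x

def swp (w : Un) (u v : ℕ) : List ℕ :=
  (rg w).map fun x => if x = u then v else if x = v then u else x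

/-! ### Evaluations and ranks -/

def gv (p : Ev) (a : ℕ) : Fe := p.getD a []

def cmp (w : Un) (φ : List ℕ) (p : Ev) : Ev := (rg w).map fun a => gv p (gm φ a)

/-- Two evaluations side by side on the doubled universe. -/
def app (w : Un) (p q : Ev) : Ev := cmp w (rg w) p ++ cmp w (rg w) q

def svC (c : Ctx) (w : Un) (p : Ev) (y : ℕ) (Z : St) : List Fe := (rg w).map fun v =>
  fadd c (if bt Z v then finv c (fadd c (gv p v) (gv p y)) else [])
    (if v = y then
      fsum c ((rg w).map fun x => if bt Z x then finv c (fadd c (gv p x) (gv p y)) else [])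
    else [])

def lapC (c : Ctx) (w : Un) (X : Tab) (p : Ev) : List (List Fe) :=
  (rg w).map fun b => svC c w p b (rowG w X b)

def rkC (c : Ctx) (w : Un) (X : Tab) (p : Ev) : ℕ := rkF c w (lapC c w X p)

def propC (c : Ctx) (w : Un) (X : Tab) (p : Ev) : Bool :=
  (pairs w).all fun q => !ad X q.1 q.2 || !feq c (gv p q.1) (gv p q.2)

/-- Cut down a generating list of sets to those whose vector lies in the column space at `p`. -/
def nulStep (c : Ctx) (w : Un) (X : Tab) (y : ℕ) (gens : List St) (p : Ev) : List St :=
  (H36.inter (w.length + w.length * (fk c).length)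
    ((rg w).map fun x => sett w fun i => decide (i = x))
    ((gens.map fun Z => sett w (bt Z) ++ coords c w (svC c w p y Z)) ++
      ((blow c (lapC c w X p)).map fun v => sett w (fun _ => false) ++ coords c w v))).map
    fun Z => sett w (bt Z)

/-- Generators of the space of subsets of `A` whose splitting of `y` is free at all `p ∈ P`. -/
def nul (c : Ctx) (w : Un) (X : Tab) (P : List Ev) (y : ℕ) (A : St) : List St :=
  P.foldl (nulStep c w X y) ((rg w).map fun x => sett w fun i => decide (i = x) && bt A x)

/-- A point of the line through `e` and `p`. -/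
def lin (c : Ctx) (w : Un) (e p : Ev) (t : Fe) : Ev :=
  (rg w).map fun a => fadd c (gv e a) (fmul c t (fadd c (gv e a) (gv p a)))

def score (c : Ctx) (q : Ev) (o : Obj) : ℕ :=
  if propC c o.1 o.2.1 (cmp o.1 o.2.2 q) then 1 + rkC c o.1 o.2.1 (cmp o.1 o.2.2 q) else 0

/-- A graph on the universe of the evaluation. -/
def po (w : Un) (X : Tab) : Obj := (w, X, rg w)

def total (c : Ctx) (w : Un) (obj : List Obj) (q : Ev) : ℕ :=
  ((po w (fullG w) :: obj).map (score c q)).sum

def cands (c : Ctx) (w : Un) (e p : Ev) : List Ev := (rg c.2).map fun i => lin c w e p i.bits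

/-- The best point of the line through `e` and `p`. -/
def line (c : Ctx) (w : Un) (obj : List Obj) (e p : Ev) : Ev :=
  pick (cands c w e p)
    (fun q => (cands c w e p).all fun q' => decide (total c w obj q' ≤ total c w obj q)) []

def mergeAll (c : Ctx) (w : Un) (obj : List Obj) (e : Ev) (ps : List Ev) : Ev :=
  ps.foldl (line c w obj) e

def bump (c : Ctx) (w : Un) (e : Ev) (u : ℕ) : Ev :=
  (rg w).map fun a => if a = u then fadd c (gv e a) [true] else gv e a

/-- The best new value at `u`. -/
def reval (c : Ctx) (w : Un) (obj : List Obj) (e : Ev) (u : ℕ) : Ev :=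
  line c w obj e (bump c w e u)

/-- A fixed injective evaluation. -/
def ev0 (w : Un) : Ev := (rg w).map Nat.bits

/-- Undo a list of identifications. -/
def lift (c : Ctx) (w : Un) : Tab → List (ℕ × ℕ) → Ev → Ev
  | _, [], e => e
  | X, q :: τ, e => reval c w [po w X] (lift c w (ctrG w X q.1 q.2) τ e) q.1

/-- One step of a greedy contraction. -/
def gstep (w : Un) (ok : Tab → ℕ × ℕ → Bool) (X : Tab) : Tab :=
  if (pairs w).any (ok X) then
    ctrG w X (pick (pairs w) (ok X) (0, 0)).1 (pick (pairs w) (ok X) (0, 0)).2
  else X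

/-- Contract greedily, take the base evaluation, and undo the contractions on a second universe,
where the contracted vertex `u` is called `κ u`. -/
def grun (c : Ctx) (w w' : Un) (ok : Tab → ℕ × ℕ → Bool) (obj : Tab → List Obj) (κ : List ℕ)
    (base : Tab → Ev) (X : Tab) : Ev :=
  unwind (gstep w ok)
    (fun Y f => if (pairs w).any (ok Y) then
      reval c w' (obj Y) f (gm κ (pick (pairs w) (ok Y) (0, 0)).1) else base Y)
    (w.length + 1) X []

/-! ### Meaning -/

def b2z (b : Bool) : ZMod 2 := if b then 1 else 0

/-- The graph of a table. -/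
def gr (n : ℕ) (T : Tab) : Gr (Fin n) :=
  ⟨fun a b => b2z (ad T a b), fun a b => by
    unfold ad
    rcases lt_trichotomy (a : ℕ) b with h | h | h
    · simp [h, h.not_gt]
    · simp [h]
    · simp [h, h.not_gt], fun a => by simp [ad, b2z]⟩

def zv (n : ℕ) (Z : St) : Fin n → ZMod 2 := fun a => b2z (bt Z a)

def st (n : ℕ) (C : St) : Finset (Fin n) := Finset.univ.filter fun a => bt C a = true

def ev {F : Type} (θ : Fe → F) (n : ℕ) (p : Ev) : Fin n → F := fun a => θ (gv p a)

/-- The list `φ` represents the map `ψ`. -/
def Rep {n n' : ℕ} (φ : List ℕ) (ψ : Fin n → Fin n') : Prop := ∀ a : Fin n, gm φ a = ψ a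

/-- The list operations realise the field `F`. -/
structure Sem (c : Ctx) {F : Type} [Field F] [CharP F 2] (θ : Fe → F) : Prop where
  nil : θ [] = 0
  one : θ [true] = 1
  add : ∀ a b, θ (fadd c a b) = θ a + θ b
  mul : ∀ a b, θ (fmul c a b) = θ a * θ b
  inv : ∀ a, θ (finv c a) = (θ a)⁻¹
  eq : ∀ a b, feq c a b = true ↔ θ a = θ b
  inj : ∀ i j, i < c.2.length → j < c.2.length → θ i.bits = θ j.bits → i = j
  rk : ∀ (w : Un) (vs : List (List Fe)), rkF c w vs =
    Module.finrank F (Submodule.span F {v | ∃ x ∈ vs, ev θ w.length x = v})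
  /-- The bits of vectors are an injective additive map that turns spans into binary spans. -/
  crd : ∀ w : Un, ∃ κ : (Fin w.length → F) →+ (Fin (w.length * (fk c).length) → ZMod 2),
    Function.Injective κ ∧
    (∀ v, H36.toV _ (coords c w v) = κ (ev θ w.length v)) ∧
    ∀ (vs : List (List Fe)) (u : Fin w.length → F),
      u ∈ Submodule.span F {v | ∃ x ∈ vs, ev θ w.length x = v} ↔
        κ u ∈ H36.sp _ ((blow c vs).map (coords c w))

/-- Enough field elements are tried for graphs with `n` vertices. -/
def Ok (c : Ctx) (n : ℕ) : Prop := 32 * (n + 1) ^ 6 < c.2.length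

/-- A list of objectives that is small with respect to `n`. -/
def Small (n : ℕ) (w : Un) (obj : List Obj) : Prop :=
  w.length ≤ 2 * n ∧ obj.length ≤ 3 * (n + 1) ^ 4 ∧ ∀ o ∈ obj, o.1.length ≤ 2 * n

end Pool.Agent.MP_bae0ed_lc.H52
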