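import Pool.Agent.MP_bae0ed_lc.H52.SpecI

/-!
Lines split off.
-/

set_option autoImplicit false
set_option linter.unusedSectionVars false

namespace Pool.Agent.MP_bae0ed_lc.H52

open Finset Matrix Function Module Gr

variable {c : Ctx} {F : Type} [Field F] [CharP F 2] {θ : Fe → F} {w : Un}

theorem Sem.mem_ell (hs : Sem c θ) {X : Tab} {a b x : Fin w.length} {σ : ℕ} {e : Ev} :
    x ∈ st w.length (ell c w X a b σ e) ↔
      x = a ∨ x = b ∨ H52.rk (gr w.length X + tri a b x) (ev θ w.length e) ≤ σ := by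
  rw [mem_st, ell, bt_sett, hs.rkC_eq, gr_addTri]
  simp only [Bool.or_eq_true, decide_eq_true_eq, Fin.val_inj, or_assoc]

theorem ca_okC_iff (hs : Sem c θ) {l : St} {e : Ev} {T : Tab} {u v : Fin w.length} :
    okC c w l e T (u, v) = true ↔ u ∉ st w.length l ∧ (gr w.length T).adj u v = 1 ∧
      H52.rk (gr w.length T) (ev θ w.length e) ≤
        H52.rk ((gr w.length T).ctr u v) (ev θ w.length e) + 1 := by
  rw [okC]
  simp only [Bool.and_eq_true, decide_eq_true_eq, hs.rkC_eq, gr_ctrG, mem_st, ad_iff,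
    Bool.not_eq_true', and_assoc, Bool.not_eq_true]

theorem ca_okC_ad {l : St} {e : Ev} (T : Tab) (u v : Fin w.length)
    (h : okC c w l e T (u, v) = true) : ad T u v = true := by
  rw [okC] at h
  simp only [Bool.and_eq_true] at h
  exact h.1.2

theorem colC_eul {l : St} {e : Ev} {X : Tab} (hE : (gr w.length X).Eul) :
    (gr w.length (colC c w l e X)).Eul := by
  refine col_inv (fun T => (gr w.length T).Eul) (fun T u v hT _ => ?_) hE
  rw [gr_ctrG]
  exact hT.ctr u v

theorem colC_on (hs : Sem c θ) {l : St} {e : Ev} {X : Tab} (hE : (gr w.length X).Eul)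
    (he : Injective (ev θ w.length e)) : (gr w.length (colC c w l e X)).On (st w.length l) := by
  intro a b hab
  by_contra ha
  have hEY := colC_eul (c := c) (l := l) (e := e) hE
  have hne : ((gr w.length (colC c w l e X)).nbr a).Nonempty := ⟨b, mem_nbr.2 hab⟩
  have hc := count_bad hEY (proper_of_inj _ he) he.injOn hne
  have hall : ((gr w.length (colC c w l e X)).nbr a).filter (fun v =>
      rk ((gr w.length (colC c w l e X)).ctr a v) (ev θ w.length e) + 1 <
        rk (gr w.length (colC c w l e X)) (ev θ w.length e)) =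
      (gr w.length (colC c w l e X)).nbr a := by
    refine Finset.filter_true_of_mem fun v hv => ?_
    by_contra hlt
    have hok := (ca_okC_iff hs).2 ⟨ha, mem_nbr.1 hv, not_lt.1 hlt⟩
    have := col_terminal (w := w) (ok := okC c w l e) ca_okC_ad X a v
    rw [colC] at hok
    rw [hok] at this
    exact Bool.noConfusion this
  rw [hall] at hc
  omega

/-- The greedy contraction from `T` makes exactly `s` genuine steps. -/
inductive CaRun (w : Un) (ok : Tab → ℕ × ℕ → Bool) : Tab → ℕ → Prop
  | stop (T : Tab) (h : ∀ u v : Fin w.length, ok T (u, v) = false) : CaRun w ok T 0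
  | step (T : Tab) (s : ℕ) (u v : Fin w.length) (h : ok T (u, v) = true)
      (hg : gstep w ok T = ctrG w T u v) (hr : CaRun w ok (gstep w ok T) s) : CaRun w ok T (s + 1)

theorem ca_run_exists (c : Ctx) {ok : Tab → ℕ × ℕ → Bool}
    (hok : ∀ T (u v : Fin w.length), ok T (u, v) = true → ad T u v = true) (X : Tab) :
    ∃ s, CaRun w ok X s :=
  grun_spec (c := c) (w := w) (w' := w) (ok := ok) (obj := fun _ => []) (κ := [])
    (base := fun _ => []) (γ := Unit) (fun _ _ => True) (fun T _ _ => ∃ s, CaRun w ok T s) hok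
    (fun T _ u v _ h hg => ⟨(), trivial, fun _ ⟨s, hr⟩ =>
      ⟨s + 1, CaRun.step T s u v h hg (hg ▸ hr)⟩⟩)
    (fun T _ _ h => ⟨0, CaRun.stop T h⟩) (g := ()) trivial

theorem ca_run_zero {ok : Tab → ℕ × ℕ → Bool} {T : Tab} {s : ℕ} (hr : CaRun w ok T s)
    (h : ∀ u v : Fin w.length, ok T (u, v) = false) : s = 0 := by
  cases hr with
  | stop => rfl
  | step _ s u v h' _ _ => rw [h u v] at h'; exact Bool.noConfusion h'

theorem ca_run_succ {ok : Tab → ℕ × ℕ → Bool} {T : Tab} {s : ℕ} (hr : CaRun w ok T s)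
    {u v : Fin w.length} (h : ok T (u, v) = true) :
    ∃ s', s = s' + 1 ∧ CaRun w ok (gstep w ok T) s' := by
  cases hr with
  | stop _ h' => rw [h' u v] at h; exact Bool.noConfusion h
  | step _ s _ _ _ _ hr => exact ⟨s, rfl, hr⟩

theorem ca_run_facts (hs : Sem c θ) {l : St} {e : Ev} {T : Tab} {s : ℕ}
    (hr : CaRun w (okC c w l e) T s) :
    rk (gr w.length T) (ev θ w.length e) ≤
        rk (gr w.length (colC c w l e T)) (ev θ w.length e) + s ∧
      (gr w.length (colC c w l e T)).par = (gr w.length T).par + (s : ZMod 2) := by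
  induction hr with
  | stop T h => rw [colC, col_of_terminal h]; simp
  | step T s u v h hg _ ih =>
    have hcol : colC c w l e (gstep w (okC c w l e) T) = colC c w l e T :=
      col_gstep (w := w) ca_okC_ad T
    rw [hcol, hg, gr_ctrG] at ih
    obtain ⟨-, h2, h3⟩ := (ca_okC_iff hs).1 h
    refine ⟨by omega, ?_⟩
    rw [ih.2, par_ctr, h2]
    push_cast
    ring

theorem ca_small_objT {a b : ℕ} {T : Tab} : Small w.length w (objT w a b T) := by
  refine ⟨by omega, ?_, ?_⟩
  · simp only [objT, List.length_map, length_rg]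
    calc w.length ≤ w.length + 1 := by omega
      _ ≤ (w.length + 1) ^ 4 := Nat.le_self_pow (by norm_num) _
      _ ≤ _ := by omega
  · intro o ho
    simp only [objT, List.mem_map] at ho
    obtain ⟨x, -, rfl⟩ := ho
    simp only [po]
    omega

theorem ca_out1 (hs : Sem c θ) (hn : Ok c w.length) {X : Tab} {a b x : Fin w.length} {l : St}
    {e : Ev} {s : ℕ} (ha : a ∈ st w.length l) (hb : b ∈ st w.length l) (hx : x ∈ st w.length l)
    (he : Injective (ev θ w.length e)) (hr : CaRun w (okC c w l e) X s) :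
    Injective (ev θ w.length (grun c w w (okC c w l e) (objT w a b) (rg w) (fun _ => e) X)) ∧
      rk (gr w.length (colC c w l e X) + tri a b x) (ev θ w.length e) + s ≤
        rk (gr w.length X + tri a b x)
          (ev θ w.length (grun c w w (okC c w l e) (objT w a b) (rg w) (fun _ => e) X)) := by
  refine grun_spec (c := c) (w := w) (w' := w) (γ := ℕ)
    (fun T s' => colC c w l e T = colC c w l e X ∧ CaRun w (okC c w l e) T s')
    (fun T s' g => Injective (ev θ w.length g) ∧
      rk (gr w.length (colC c w l e X) + tri a b x) (ev θ w.length e) + s' ≤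
        rk (gr w.length T + tri a b x) (ev θ w.length g)) ca_okC_ad ?_ ?_ ⟨rfl, hr⟩
  · rintro T s' u v ⟨h1, h2⟩ hok hg
    obtain ⟨s'', rfl, h3⟩ := ca_run_succ h2 hok
    obtain ⟨hu, huv, -⟩ := (ca_okC_iff hs).1 hok
    refine ⟨s'', ⟨?_, hg ▸ h3⟩, ?_⟩
    · rw [← hg, ← h1]
      exact col_gstep (w := w) ca_okC_ad T
    · rintro g ⟨hg1, hg2⟩
      have hmem : po w (addTri w T a b x) ∈ objT w a b T :=
        List.mem_map.2 ⟨x, mem_rg.2 x.2, rfl⟩
      have hiso : ∀ y, (tri a b x).adj u y = 0 :=
        tri_adj_of_not_mem (by rintro rfl; exact hu ha) (by rintro rfl; exact hu hb)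
          (by rintro rfl; exact hu hx)
      have key := reval_ctr_po hs hn ca_small_objT hg1 hmem u v
      rw [gr_addTri, ctr_add, ctr_of_iso hiso, add_adj, hiso, huv, add_zero] at key
      rw [rep_rg w u]
      refine ⟨reval_inj hs hn ca_small_objT hg1 _, ?_⟩
      rw [gr_ctrG] at hg2
      have : (1 : ZMod 2).val = 1 := rfl
      simp only [id]
      omega
  · rintro T s' ⟨h1, h2⟩ h
    have h0 := ca_run_zero h2 h
    have : colC c w l e T = T := col_of_terminal h
    rw [← h1, this, h0]
    exact ⟨he, le_rfl⟩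

theorem ca_small_one {o : Obj} (ho : o.1.length ≤ 2 * w.length) : Small w.length (w ++ w) [o] := by
  refine ⟨by simp; omega, ?_, ?_⟩
  · have : 0 < (w.length + 1) ^ 4 := by positivity
    simp only [List.length_singleton]
    omega
  · intro o' ho'
    rw [List.mem_singleton.1 ho']
    exact ho

theorem ca_Q2 (hs : Sem c θ) (hn : Ok c w.length) {X : Tab} {l : St} {e f : Ev} {s : ℕ}
    (hE : (gr w.length X).Eul) (he : Injective (ev θ w.length e))
    (hf : Injective (ev θ w.length f)) (hr : CaRun w (okC c w l e) X s) :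
    Injective (ev θ (w ++ w).length (caQ2 c w l e f X)) ∧
      rk (gr w.length X + gr w.length (colC c w l e X)) (ev θ w.length f) + s ≤
        rk (dbl (i1 w) (i2 w l) (gr w.length X) (gr w.length X))
          (ev θ (w ++ w).length (caQ2 c w l e f X)) := by
  have hg := glue_i w l
  refine grun_spec (c := c) (w := w) (w' := w ++ w) (γ := ℕ)
    (fun T s' => colC c w l e T = colC c w l e X ∧ CaRun w (okC c w l e) T s')
    (fun T s' g => Injective (ev θ (w ++ w).length g) ∧
      rk (gr w.length X + gr w.length (colC c w l e X)) (ev θ w.length f) + s' ≤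
        rk (dbl (i1 w) (i2 w l) (gr w.length X) (gr w.length T)) (ev θ (w ++ w).length g))
    ca_okC_ad ?_ ?_ ⟨rfl, hr⟩
  · rintro T s' u v ⟨h1, h2⟩ hok hgs
    obtain ⟨s'', rfl, h3⟩ := ca_run_succ h2 hok
    obtain ⟨hu, huv, -⟩ := (ca_okC_iff hs).1 hok
    refine ⟨s'', ⟨?_, hgs ▸ h3⟩, ?_⟩
    · rw [← hgs, ← h1]
      exact col_gstep (w := w) ca_okC_ad T
    · rintro g ⟨hg1, hg2⟩
      have hsm : Small w.length (w ++ w) [po (w ++ w) (dblG w l X T)] :=
        ca_small_one (by simp [po]; omega)
      have key := reval_ctr_po hs hn hsm hg1 (List.mem_singleton.2 rfl) (i2 w l u) (i2 w l v)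
      rw [gr_dblG, hg.ctr_right _ _ hu, hg.adj_right _ _ hu, huv] at key
      rw [rep_i2 w l u]
      refine ⟨reval_inj hs hn hsm hg1 _, ?_⟩
      rw [gr_ctrG] at hg2
      have : (1 : ZMod 2).val = 1 := rfl
      omega
  · rintro T s' ⟨h1, h2⟩ h
    have h0 := ca_run_zero h2 h
    have hT : colC c w l e T = T := col_of_terminal h
    have hon : (gr w.length T).On (st w.length l) := by
      rw [← hT, h1]
      exact colC_on hs hE he
    have hsm : Small w.length (w ++ w) [(w, addG w X T, rg w)] := ca_small_one (by simp; omega)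
    refine ⟨line_inj hs hn hsm (Or.inl (hn.ev0_inj hs (by simp; omega))), ?_⟩
    have key := line_right hs hn hsm (ev0 (w ++ w)) (p := app w f f) (List.mem_singleton.2 rfl)
      (rep_i1 w) (by rw [ev_app_i1]; exact proper_of_inj _ hf)
    rw [ev_app_i1, gr_addG] at key
    rw [← h1, hT, h0, hg.dbl_of_on _ hon, rk_push_inj hg.inj₁]
    exact key

/-- The hybrid embeddings. -/
def caChi (w : Un) (l : St) (j : ℕ) (x : Fin w.length) : Fin (w ++ w).length :=
  if (x : ℕ) < j then i2 w l x else i1 w x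

theorem ca_rep_chi (w : Un) (l : St) (j : ℕ) : Rep (chi w l j) (caChi w l j) := by
  intro x
  rw [chi, gm_map, caChi, i2]
  by_cases h1 : (x : ℕ) < j <;> cases h2 : bt l x <;> simp [h1, i1]

theorem ca_chi_inj (w : Un) (l : St) (j : ℕ) : Injective (caChi w l j) := by
  have hg := glue_i w l
  intro x y h
  simp only [caChi] at h
  split_ifs at h
  · exact hg.inj₂ h
  · exact (hg.ne _ _ h.symm).1.symm
  · exact (hg.ne _ _ h).1
  · exact hg.inj₁ h

theorem ca_chi_zero (w : Un) (l : St) : caChi w l 0 = i1 w := by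
  funext x
  simp [caChi]

theorem ca_chi_top (w : Un) (l : St) : caChi w l w.length = i2 w l := by
  funext x
  simp [caChi]

theorem ca_chi_mem {l : St} (j : ℕ) {x : Fin w.length} (hx : x ∈ st w.length l) :
    caChi w l j x = i1 w x := by
  rw [caChi, (glue_i w l).eq x hx, ite_self]

theorem ca_chi_succ (l : St) {j : ℕ} {x : Fin w.length} (hx : (x : ℕ) ≠ j) :
    caChi w l (j + 1) x = caChi w l j x := by
  have : (x : ℕ) < j + 1 ↔ (x : ℕ) < j := by omega
  simp only [caChi, this]

theorem ca_app_chi (l : St) (j : ℕ) (e : Ev) :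
    ev θ (w ++ w).length (app w e e) ∘ caChi w l j = ev θ w.length e := by
  funext x
  simp only [Function.comp, caChi]
  split_ifs
  · rw [ev_app_i2, ite_self]
  · exact congrFun (ev_app_i1 w e e) x

theorem ca_Q3 (hs : Sem c θ) (hn : Ok c w.length) {X : Tab} (a b : Fin w.length) {l : St}
    {e f : Ev} (he : Injective (ev θ w.length e))
    (h2 : Injective (ev θ (w ++ w).length (caQ2 c w l e f X))) :
    Injective (ev θ (w ++ w).length (caQ3 c w a b l e f X)) ∧
      rk (dbl (i1 w) (i2 w l) (gr w.length X) (gr w.length X))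
          (ev θ (w ++ w).length (caQ2 c w l e f X)) ≤
        rk (dbl (i1 w) (i2 w l) (gr w.length X) (gr w.length X))
          (ev θ (w ++ w).length (caQ3 c w a b l e f X)) ∧
      ∀ j ≤ w.length, rk (gr w.length X) (ev θ w.length e) ≤
          rk (gr w.length X) (ev θ (w ++ w).length (caQ3 c w a b l e f X) ∘ caChi w l j) ∧
        ∀ x : Fin w.length, rk (gr w.length X + tri a b x) (ev θ w.length e) ≤
          rk (gr w.length X + tri a b x)
            (ev θ (w ++ w).length (caQ3 c w a b l e f X) ∘ caChi w l j) := by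
  have hsm : Small w.length (w ++ w)
      (po (w ++ w) (dblG w l X X) :: (rg (true :: w)).flatMap fun j =>
        (w, X, chi w l j) :: (rg w).map fun x => (w, addTri w X a b x, chi w l j)) := by
    refine ⟨by simp; omega, ?_, ?_⟩
    · rw [List.length_cons, List.length_flatMap]
      simp only [List.length_cons, List.length_map, length_rg, List.map_const',
        List.sum_replicate, smul_eq_mul]
      have h1 : 1 ≤ (w.length + 1) * (w.length + 1) := Nat.succ_le_of_lt (by positivity)
      have h3 : (w.length + 1) * (w.length + 1) ≤ (w.length + 1) ^ 4 := by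
        rw [← pow_two]
        exact Nat.pow_le_pow_right (by omega) (by norm_num)
      omega
    · intro o ho
      simp only [List.mem_cons, List.mem_flatMap, List.mem_map] at ho
      rcases ho with rfl | ⟨j, -, rfl | ⟨x, -, rfl⟩⟩
      · simp [po]; omega
      · simp only; omega
      · simp only; omega
  refine ⟨line_inj hs hn hsm (Or.inl h2), ?_, fun j hj => ⟨?_, fun x => ?_⟩⟩
  · have key := line_left_po hs hn hsm (app w e e) List.mem_cons_self (proper_of_inj _ h2)
    rw [gr_dblG] at key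
    exact key
  · have key := line_right hs hn hsm (caQ2 c w l e f X) (p := app w e e) (w' := w) (Y := X)
      (List.mem_cons_of_mem _ (List.mem_flatMap.2 ⟨j, mem_rg.2 (by simp; omega),
        List.mem_cons_self⟩)) (ca_rep_chi w l j)
      (by rw [ca_app_chi]; exact proper_of_inj _ he)
    rw [ca_app_chi] at key
    exact key
  · have key := line_right hs hn hsm (caQ2 c w l e f X) (p := app w e e) (w' := w)
      (Y := addTri w X a b x)
      (List.mem_cons_of_mem _ (List.mem_flatMap.2 ⟨j, mem_rg.2 (by simp; omega),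
        List.mem_cons_of_mem _ (List.mem_map.2 ⟨x, mem_rg.2 x.2, rfl⟩)⟩)) (ca_rep_chi w l j)
      (by rw [ca_app_chi]; exact proper_of_inj _ he)
    rw [ca_app_chi, gr_addTri] at key
    exact key

theorem ca_st_inD (a b x y : Fin w.length) :
    st w.length (sett w (inD (a, b, x, y))) = {a, b, x, y} := by
  ext z
  rw [mem_st, bt_sett, inD]
  simp only [Bool.or_eq_true, decide_eq_true_eq, Fin.val_inj, mem_insert, mem_singleton, or_assoc]

theorem ca_rkI (hs : Sem c θ) {X : Tab} {a b x y u : Fin w.length} {h h' : Ev}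
    (hE : (gr w.length X).Eul)
    (hab : a ≠ b) (hax : a ≠ x) (hay : a ≠ y) (hbx : b ≠ x) (hby : b ≠ y) (hxy : x ≠ y)
    (hu : u ∉ ({a, b, x, y} : Finset (Fin w.length)))
    (h1 : Injective (ev θ w.length h)) (h2 : Injective (ev θ w.length h'))
    (h12 : ∀ v, v ≠ u → ev θ w.length h v = ev θ w.length h' v)
    (hR1 : RS (ev θ w.length h) {a, b, x, y} ≤ Rg (gr w.length X) (ev θ w.length h))
    (hR2 : RS (ev θ w.length h) {a, b, x, y} ≤ Rg (gr w.length X) (ev θ w.length h'))
    (hS : ¬ Same (gr w.length X) (gr w.length X) (ev θ w.length h) (ev θ w.length h')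
      (RS (ev θ w.length h) {a, b, x, y}))
    (ht : tv (ev θ w.length h) a b u ∉ Rg (gr w.length X) (ev θ w.length h)) :
    rk (gr w.length X) (ev θ w.length h) + rk (gr w.length X) (ev θ w.length h') ≤
      rkI c w (a, b, x, y) u h h' X + 1 := by
  have hg := glue_i w (sett w (inD (a, b, x, y)))
  rw [ca_st_inD] at hg
  have e1 := ev_app_i1 (θ := θ) w h h'
  have e2 : ev θ (w ++ w).length (app w h h') ∘ i2 w (sett w (inD (a, b, x, y))) =
      ev θ w.length h' := by
    funext v
    simp only [Function.comp]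
    rw [ev_app_i2]
    split_ifs with hv
    · refine h12 v ?_
      rintro rfl
      exact hu (by rw [← ca_st_inD]; exact mem_st.2 hv)
    · rfl
  have key := hg.rk_ge hE hE (q := ev θ (w ++ w).length (app w h h')) (by rwa [e1]) (by rwa [e2])
    hab hax hay hbx hby hxy hu (by rwa [e1]) (by rwa [e1, e2]) (by rwa [e1, e2]) (by rwa [e1])
  rw [e1, e2] at key
  have e3 := gr_addTri (w ++ w) (dblG w (sett w (inD (a, b, x, y))) X X) (i1 w a) (i1 w b) (i1 w u)
  rw [gr_dblG] at e3
  rw [rkI, hs.rkC_eq]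
  rw [← e3] at key
  exact key

theorem ca_par_eq {m n : ℕ} (h : (m : ZMod 2) = (n : ZMod 2)) : m % 2 = n % 2 :=
  (ZMod.natCast_eq_natCast_iff' m n 2).1 h

theorem ca_hybrid (hs : Sem c θ) (hn : Ok c w.length) {X : Tab} {a b : Fin w.length} {l : St}
    {Q : Ev} {σ : ℕ} (hE : (gr w.length X).Eul) (hab : a ≠ b) (ha : a ∈ st w.length l)
    (hb : b ∈ st w.length l) (h3 : ∃ x ∈ st w.length l, x ≠ a ∧ x ≠ b)
    (hQ : Injective (ev θ (w ++ w).length Q))
    (hpar : (gr w.length X).par = (σ : ZMod 2))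
    (hr : ∀ j ≤ w.length, σ ≤ rk (gr w.length X) (ev θ (w ++ w).length Q ∘ caChi w l j))
    (hout : ∀ j ≤ w.length, ∀ x, x ∉ st w.length l →
      σ + 1 ≤ rk (gr w.length X + tri a b x) (ev θ (w ++ w).length Q ∘ caChi w l j))
    (hbig : 2 * σ + 5 ≤ rk (dbl (i1 w) (i2 w l) (gr w.length X) (gr w.length X))
      (ev θ (w ++ w).length Q) + 2 * (st w.length l).card) :
    ∃ g ∈ caOuts c w a b l X Q, Injective (ev θ w.length g) ∧ ∃ x ∈ st w.length l,
      x ≠ a ∧ x ≠ b ∧ σ + 1 ≤ rk (gr w.length X + tri a b x) (ev θ w.length g) := by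
  obtain ⟨h, hh⟩ : ∃ h : ℕ → Fin w.length → F,
      ∀ j, h j = ev θ (w ++ w).length Q ∘ caChi w l j := ⟨_, fun _ => rfl⟩
  have hev : ∀ j, ev θ w.length (cmp w (chi w l j) Q) = h j := fun j => by
    rw [hh, ev_cmp (ca_rep_chi w l j)]
  have hinj : ∀ j, Injective (h j) := fun j => by
    rw [hh]
    exact hQ.comp (ca_chi_inj w l j)
  simp only [← hh] at hr hout
  by_cases hex : ∃ j ≤ w.length, ∃ x ∈ st w.length l, x ≠ a ∧ x ≠ b ∧
      σ + 1 ≤ rk (gr w.length X + tri a b x) (h j)
  · obtain ⟨j, hj, x, hx⟩ := hex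
    refine ⟨cmp w (chi w l j) Q, List.mem_append_left _
      (List.mem_map.2 ⟨j, mem_rg.2 (by simp; omega), rfl⟩), ?_⟩
    rw [hev]
    exact ⟨hinj j, x, hx⟩
  push Not at hex
  have hl : ∀ j k, ∀ x ∈ st w.length l, h j x = h k x := fun j k x hx => by
    simp only [hh, Function.comp, ca_chi_mem _ hx]
  have htv : ∀ j ≤ w.length, ∀ x ∈ st w.length l, x ≠ a → x ≠ b →
      tv (h j) a b x ∈ Rg (gr w.length X) (h j) := fun j hj x hx hxa hxb => by
    by_contra hnot
    have := rk_add_tri_of_not_mem (gr w.length X) ((hinj j).ne hab) ((hinj j).ne hxa.symm)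
      ((hinj j).ne hxb.symm) hnot
    have h1 := hex j hj x hx hxa hxb
    have h2 := hr j hj
    omega
  have hRS : ∀ j ≤ w.length, ∀ k, RS (h k) (st w.length l) ≤ Rg (gr w.length X) (h j) :=
    fun j hj k => by
      rw [RS_congr (hl k j)]
      exact RS_le ha hb ((hinj j).ne hab) (fun x _ hxa => (hinj j).ne hxa.symm) (htv j hj)
  have hD : 2 ≤ (st w.length l).card := Finset.one_lt_card.2 ⟨a, ha, b, hb, hab⟩
  have hg := glue_i w l
  have e0 : ev θ (w ++ w).length Q ∘ i1 w = h 0 := by rw [hh, ca_chi_zero]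
  have en : ev θ (w ++ w).length Q ∘ i2 w l = h w.length := by rw [hh, ca_chi_top]
  obtain ⟨x0, hx0, hx0a, hx0b⟩ := h3
  have hrk : ∀ j ≤ w.length, rk (gr w.length X) (h j) = σ := fun j hj => by
    have h1 := rk_add_tri_of_mem (gr w.length X) ((hinj j).ne hab) ((hinj j).ne hx0a.symm)
      ((hinj j).ne hx0b.symm) (htv j hj x0 hx0 hx0a hx0b)
    have h2 := hex j hj x0 hx0 hx0a hx0b
    have h3 := hr j hj
    have h4 := ca_par_eq ((rk_par (proper_of_inj (gr w.length X) (hinj j))).trans hpar)
    omega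
  have hns : ¬ Same (gr w.length X) (gr w.length X) (h 0) (h w.length)
      (RS (h 0) (st w.length l)) := fun hS => by
    have key := hg.rk_le hE hE (q := ev θ (w ++ w).length Q) (by rw [e0]; exact hinj _)
      (by rw [en]; exact hinj _) hD (by rw [e0]; exact hRS 0 (by omega) 0)
      (by rw [e0, en]; exact hRS _ le_rfl 0) (by rwa [e0, en])
    rw [e0, en, hrk 0 (by omega), hrk _ le_rfl] at key
    omega
  have hj : ∃ j < w.length, ¬ Same (gr w.length X) (gr w.length X) (h j) (h (j + 1))
      (RS (h 0) (st w.length l)) := by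
    by_contra hall
    push Not at hall
    have : ∀ j ≤ w.length, Same (gr w.length X) (gr w.length X) (h 0) (h j)
        (RS (h 0) (st w.length l)) := by
      intro j
      induction j with
      | zero => exact fun _ => same_refl _ _ (hRS 0 (by omega) 0)
      | succ j ih => exact fun hj => (ih (by omega)).trans (hall j (by omega)) (hRS j (by omega) 0)
    exact hns (this _ le_rfl)
  obtain ⟨j, hj, hS⟩ := hj
  obtain ⟨u, rfl⟩ : ∃ u : Fin w.length, (u : ℕ) = j := ⟨⟨j, hj⟩, rfl⟩
  have h12 : ∀ v, v ≠ u → h u v = h (u + 1) v := fun v hv => by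
    simp only [hh, Function.comp, ca_chi_succ l (Fin.val_injective.ne hv)]
  have hu : u ∉ st w.length l := fun hu => by
    have : h u = h (u + 1) := by
      funext v
      by_cases hv : v = u
      · exact hl _ _ v (hv ▸ hu)
      · exact h12 v hv
    rw [← this] at hS
    exact hS (same_refl _ _ (hRS _ (by omega) 0))
  rw [RS_congr (hl 0 u)] at hS
  obtain ⟨x, hx, y, hy, hax, hay, hbx, hby, hxy, hS'⟩ := exists_not_same (hinj u) (hl _ _) ha hb hab
    (hRS u (by omega) u) (hRS (u + 1) (by omega) u) hS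
  have hsub : ({a, b, x, y} : Finset (Fin w.length)) ⊆ st w.length l := by
    intro z hz
    simp only [mem_insert, mem_singleton] at hz
    rcases hz with rfl | rfl | rfl | rfl <;> assumption
  have hu' : u ∉ ({a, b, x, y} : Finset (Fin w.length)) := fun hz => hu (hsub hz)
  have ht : tv (h u) a b u ∉ Rg (gr w.length X) (h u) := fun hmem => by
    have hua : a ≠ u := by rintro rfl; exact hu ha
    have hub : b ≠ u := by rintro rfl; exact hu hb
    have h1 := rk_add_tri_of_mem (gr w.length X) ((hinj u).ne hab) ((hinj u).ne hua)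
      ((hinj u).ne hub) hmem
    have h2 := hout u (by omega) u hu
    have h3 := hrk u (by omega)
    omega
  have hI := ca_rkI hs (h := cmp w (chi w l u) Q) (h' := cmp w (chi w l (u + 1)) Q) hE hab hax hay
    hbx hby hxy hu' (by rw [hev]; exact hinj _) (by rw [hev]; exact hinj _)
    (by rw [hev, hev]; exact h12)
    (by rw [hev]; exact (RS_mono _ hsub).trans (hRS u (by omega) u))
    (by rw [hev, hev]; exact (RS_mono _ hsub).trans (hRS (u + 1) (by omega) u))
    (by rw [hev, hev]; exact hS') (by rw [hev]; exact ht)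
  rw [hev, hev, hrk u (by omega), hrk (u + 1) (by omega)] at hI
  obtain ⟨k1, k2⟩ := algI_spec hs hn (h := cmp w (chi w l u) Q) (h' := cmp w (chi w l (u + 1)) Q)
    (ρ := σ) hE hab hax hay hbx hby hxy hu' (by rw [hev]; exact hinj _)
    (by rw [hev]; exact hinj _) (by rw [hev, hev]; exact h12) (by rw [hpar]; simp) (by omega)
  refine ⟨_, List.mem_append_right _ (List.mem_map.2 ⟨((u : ℕ), (x : ℕ), (y : ℕ)),
    mem_triples.2 ⟨u.2, x.2, y.2⟩, rfl⟩), k1, ?_⟩
  rcases k2 with k2 | k2
  · exact ⟨x, hx, hax.symm, hbx.symm, by exact_mod_cast k2⟩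
  · exact ⟨y, hy, hay.symm, hby.symm, by exact_mod_cast k2⟩

theorem algCA_spec (hs : Sem c θ) (hn : Ok c w.length) {X : Tab} {a b : Fin w.length} {l : St}
    {e f : Ev} {σ : ℕ} (hE : (gr w.length X).Eul) (hab : a ≠ b) (ha : a ∈ st w.length l)
    (hb : b ∈ st w.length l) (h3 : 3 ≤ (st w.length l).card)
    (he : Injective (ev θ w.length e)) (hf : Injective (ev θ w.length f))
    (hr : σ ≤ rk (gr w.length X) (ev θ w.length e)) (hpar : (gr w.length X).par = (σ : ZMod 2))
    (hout : ∀ x, x ∉ st w.length l → σ + 1 ≤ rk (gr w.length X + tri a b x) (ev θ w.length e))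
    (hY : rk (gr w.length (colC c w l e X)) (ev θ w.length e) + 2 = (st w.length l).card →
      σ + 3 ≤ rk (gr w.length X + gr w.length (colC c w l e X)) (ev θ w.length f)
        + (st w.length l).card) :
    ∃ g ∈ algCA c w a b l e f X, Injective (ev θ w.length g) ∧ ∃ x ∈ st w.length l,
      x ≠ a ∧ x ≠ b ∧ σ + 1 ≤ rk (gr w.length X + tri a b x) (ev θ w.length g) := by
  obtain ⟨s, hrun⟩ := ca_run_exists c (w := w) (ok := okC c w l e) ca_okC_ad X
  obtain ⟨hf1, hf2⟩ := ca_run_facts hs hrun
  have hEY := colC_eul (c := c) (l := l) (e := e) hE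
  have hon := colC_on hs (l := l) hE he
  have hx0 : ∃ x ∈ st w.length l, x ≠ a ∧ x ≠ b := by
    by_contra hno
    push Not at hno
    have hsub : st w.length l ⊆ {a, b} := fun x hx => by
      by_cases hxa : x = a
      · simp [hxa]
      · simp [hno x hx hxa]
    have := (Finset.card_le_card hsub).trans Finset.card_le_two
    omega
  by_cases hfirst : ∃ x ∈ st w.length l, x ≠ a ∧ x ≠ b ∧
      σ + 1 ≤ rk (gr w.length (colC c w l e X) + tri a b x) (ev θ w.length e) + s
  · obtain ⟨x, hx, hxa, hxb, hle⟩ := hfirst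
    obtain ⟨k1, k2⟩ := ca_out1 hs hn ha hb hx he hrun
    exact ⟨_, List.mem_cons_self, k1, x, hx, hxa, hxb, hle.trans k2⟩
  push Not at hfirst
  have htv : ∀ x ∈ st w.length l, x ≠ a → x ≠ b →
      tv (ev θ w.length e) a b x ∈ Rg (gr w.length (colC c w l e X)) (ev θ w.length e) :=
    fun x hx hxa hxb => by
      by_contra hnot
      have := rk_add_tri_of_not_mem _ (he.ne hab) (he.ne hxa.symm) (he.ne hxb.symm) hnot
      have h1 := hfirst x hx hxa hxb
      omega
  have hRS := RS_le ha hb (he.ne hab) (fun x _ hxa => he.ne hxa.symm) htv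
  have hdim := finrank_RS ha hb (he.ne hab)
  have hge := Submodule.finrank_mono hRS
  rw [← rk_eq] at hge
  have hle := rk_le_of_on hEY hon (proper_of_inj _ he)
  have hrk : rk (gr w.length (colC c w l e X)) (ev θ w.length e) + 2 = (st w.length l).card := by
    omega
  have hXY := hY hrk
  obtain ⟨x0, hx0l, hx0a, hx0b⟩ := id hx0
  have h1 := rk_add_tri_of_mem _ (he.ne hab) (he.ne hx0a.symm) (he.ne hx0b.symm)
    (htv x0 hx0l hx0a hx0b)
  have h2 := hfirst x0 hx0l hx0a hx0b
  have h4 : rk (gr w.length (colC c w l e X)) (ev θ w.length e) % 2 = (σ + s) % 2 := by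
    refine ca_par_eq ?_
    rw [rk_par (proper_of_inj _ he), hf2, hpar]
    push_cast
    rfl
  obtain ⟨q1, q2⟩ := ca_Q2 hs hn hE he hf hrun
  obtain ⟨r1, r2, r3⟩ := ca_Q3 hs hn a b he q1
  obtain ⟨g, hg, hres⟩ := ca_hybrid hs hn hE hab ha hb hx0 r1 hpar
    (fun j hj => hr.trans (r3 j hj).1) (fun j hj x hx => (hout x hx).trans ((r3 j hj).2 x))
    (by omega)
  exact ⟨g, List.mem_cons_of_mem _ hg, hres⟩

end Pool.Agent.MP_bae0ed_lc.H52
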