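import Pool.Agent.MP_bae0ed_lc.H52.SpecV

/-!
Collecting evaluations until no nontrivial splitting is free.
-/

set_option autoImplicit false
set_option linter.unusedSectionVars false

namespace Pool.Agent.MP_bae0ed_lc.H52

open Finset Matrix Function Module Gr

variable {c : Ctx} {F : Type} [Field F] [CharP F 2] {θ : Fe → F} {w : Un}

/-- The set of evaluations of a list. -/
def evs (θ : Fe → F) (n : ℕ) (P : List Ev) : Set (Fin n → F) := {p | ∃ q ∈ P, ev θ n q = p}

theorem st_del (C : St) (u : Fin w.length) :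
    st w.length (del w C u) = (st w.length C).erase u := by
  ext x
  rw [mem_st, del, bt_sett, mem_erase, mem_st]
  simp [Fin.val_inj, and_comm]

theorem cl_ntB {X : Tab} {y : Fin w.length} {Z : St} : ntB w X (y, Z) = true ↔
    zv w.length Z ≠ 0 ∧ zv w.length Z ≠ (gr w.length X).adj y := by
  rw [ntB, Bool.and_eq_true, any_rg, any_rg, ne_iff, ne_iff]
  refine and_congr (exists_congr fun x => ?_) (exists_congr fun x => ?_)
  · simp [zv, b2z_eq_zero]
  · rw [gr_adj, zv]
    cases bt Z x <;> cases ad X y x <;> simp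

theorem cl_mem_frees {X : Tab} {P : List Ev} {Y : St} {A : ℕ → St} {r : ℕ × St} :
    r ∈ frees c w X P Y A ↔ ∃ y : Fin w.length, r.1 = y ∧ bt Y y = true ∧
      r.2 ∈ nul c w X P y (A y) ∧ ntB w X (y, r.2) = true := by
  simp only [frees, List.mem_filter, List.mem_flatMap, List.mem_map, mem_rg]
  constructor
  · rintro ⟨⟨y, ⟨h1, h2⟩, Z, hZ, rfl⟩, h3⟩
    exact ⟨⟨y, h1⟩, rfl, h2, hZ, h3⟩
  · rintro ⟨y, h1, h2, h3, h4⟩
    obtain ⟨r1, r2⟩ := r
    obtain rfl : r1 = y := h1
    exact ⟨⟨y, ⟨y.2, h2⟩, r2, h3, rfl⟩, h4⟩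

theorem Sem.frees_sound (hs : Sem c θ) {X : Tab} {P : List Ev} {Y : St} {A : ℕ → St} {r : ℕ × St}
    (hr : r ∈ frees c w X P Y A) :
    ∃ y : Fin w.length, r.1 = y ∧ bt Y y = true ∧
      (∀ x : Fin w.length, bt r.2 x = true → bt (A y) x = true) ∧ zv w.length r.2 ≠ 0 ∧
      zv w.length r.2 ≠ (gr w.length X).adj y ∧
      ∀ p ∈ P, sv (ev θ w.length p) y (zv w.length r.2) ∈ Rg (gr w.length X) (ev θ w.length p) := by
  obtain ⟨y, h1, h2, h3, h4⟩ := cl_mem_frees.1 hr
  exact ⟨y, h1, h2, (hs.nul_sound h3).1, (cl_ntB.1 h4).1, (cl_ntB.1 h4).2, (hs.nul_sound h3).2⟩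

theorem Sem.frees_complete (hs : Sem c θ) {X : Tab} {P : List Ev} {Y : St} {A : ℕ → St}
    (h : frees c w X P Y A = []) {y : Fin w.length} (hy : bt Y y = true)
    {ζ : Fin w.length → ZMod 2} (hA : ∀ x, ζ x = 1 → bt (A y) x = true) (h0 : ζ ≠ 0)
    (h1 : ζ ≠ (gr w.length X).adj y) :
    ∃ p ∈ P, sv (ev θ w.length p) y ζ ∉ Rg (gr w.length X) (ev θ w.length p) := by
  by_contra hn
  have h2 := hs.nul_complete (X := X) (P := P) (y := y) hA fun p hp => by
    by_contra h3
    exact hn ⟨p, hp, h3⟩
  have h3 : Submodule.span (ZMod 2) {v | ∃ Z ∈ nul c w X P y (A y), zv w.length Z = v} ≤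
      Submodule.span (ZMod 2) {(gr w.length X).adj y} := by
    rw [Submodule.span_le]
    rintro _ ⟨Z, hZ, rfl⟩
    have h4 : ¬ ntB w X (y, Z) = true := fun h4 => by
      have : ((y : ℕ), Z) ∈ frees c w X P Y A := cl_mem_frees.2 ⟨y, rfl, hy, hZ, h4⟩
      rw [h] at this
      exact List.not_mem_nil this
    rw [cl_ntB, not_and_or, not_not, not_not] at h4
    rcases h4 with h4 | h4
    · rw [h4]
      exact Submodule.zero_mem _
    · rw [h4]
      exact Submodule.mem_span_singleton_self _
  obtain ⟨a, ha⟩ := Submodule.mem_span_singleton.1 (h3 h2)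
  rcases z2 a with rfl | rfl
  · exact h0 (by rw [← ha, zero_smul])
  · exact h1 (by rw [← ha, one_smul])

theorem cl_small {X H : Tab} {φ : List ℕ} : Small w.length w [po w X, (w, H, φ)] := by
  refine ⟨by omega, ?_, ?_⟩
  · have : 0 < (w.length + 1) ^ 4 := by positivity
    simp only [List.length_cons, List.length_nil]
    omega
  · simp only [List.mem_cons, List.not_mem_nil, or_false]
    rintro o (rfl | rfl) <;> simp only [po] <;> omega

/-- The basic invariant of the loop. -/
def ClInv (θ : Fe → F) (w : Un) (X Xp : Tab) (e0 q0 : Ev) (s : List Ev × Ev) : Prop :=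
  s.1 ≠ [] ∧ (∀ p ∈ s.1, Injective (ev θ w.length p) ∧
    rk (gr w.length X) (ev θ w.length e0) ≤ rk (gr w.length X) (ev θ w.length p)) ∧
    Injective (ev θ w.length s.2) ∧
    rk (gr w.length Xp) (ev θ w.length q0) ≤ rk (gr w.length Xp) (ev θ w.length s.2)

theorem cl_new_inj (hs : Sem c θ) (hn : Ok c w.length) (X : Tab) {e0 : Ev}
    (he : Injective (ev θ w.length e0)) (r : ℕ × St) (outs : List Ev) :
    Injective (ev θ w.length (closeNew c w X e0 r outs)) :=
  line_inj hs hn cl_small (Or.inr he)

theorem cl_merge_ge (hs : Sem c θ) (hn : Ok c w.length) (Xp : Tab) {q : Ev}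
    (hq : Injective (ev θ w.length q)) (outs : List Ev) :
    rk (gr w.length Xp) (ev θ w.length q) ≤
      rk (gr w.length Xp) (ev θ w.length (mergeAll c w [po w Xp] q outs)) :=
  merge_ge_po hs hn small_po hq (List.mem_singleton_self _) List.mem_cons_self (proper_of_inj _ hq)

theorem cl_inv_upd (hs : Sem c θ) (hn : Ok c w.length) {X Xp : Tab} {e0 q0 : Ev}
    (he : Injective (ev θ w.length e0)) {s : List Ev × Ev} (h : ClInv θ w X Xp e0 q0 s)
    (r : ℕ × St) (outs : List Ev) : ClInv θ w X Xp e0 q0 (closeUpd c w X Xp e0 s r outs) := by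
  obtain ⟨-, h2, h3, h4⟩ := h
  refine ⟨List.cons_ne_nil _ _, fun p hp => ?_, merge_inj hs hn small_po h3 _,
    h4.trans (cl_merge_ge hs hn Xp h3 outs)⟩
  rcases List.mem_cons.1 hp with rfl | hp
  · exact ⟨cl_new_inj hs hn X he r outs,
      line_right_po hs hn cl_small _ List.mem_cons_self (proper_of_inj _ he)⟩
  · exact h2 p hp

theorem cl_inv_iter (hs : Sem c θ) (hn : Ok c w.length) (X : Tab) (C : St) (z : ℕ) {e0 : Ev}
    (Xp : Tab) {q0 : Ev} (gen : ℕ × St → List Ev) (he : Injective (ev θ w.length e0))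
    (hq : Injective (ev θ w.length q0)) (k : ℕ) :
    ClInv θ w X Xp e0 q0 ((closeStep c w X C z e0 Xp gen)^[k] ([e0], q0)) := by
  induction k with
  | zero =>
    refine ⟨List.cons_ne_nil _ _, fun p hp => ?_, hq, le_rfl⟩
    obtain rfl := List.mem_singleton.1 hp
    exact ⟨he, le_rfl⟩
  | succ k ih =>
    rw [iterate_succ_apply', closeStep]
    split_ifs
    · exact ih
    · exact cl_inv_upd hs hn he ih _ _

theorem close_basic (hs : Sem c θ) (hn : Ok c w.length) (X : Tab) (C : St) (z : ℕ) {e0 : Ev}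
    (Xp : Tab) {q0 : Ev} (gen : ℕ × St → List Ev) (he : Injective (ev θ w.length e0))
    (hq : Injective (ev θ w.length q0)) :
    (close c w X C z e0 Xp q0 gen).1 ≠ [] ∧
      (∀ p ∈ (close c w X C z e0 Xp q0 gen).1, Injective (ev θ w.length p) ∧
        rk (gr w.length X) (ev θ w.length e0) ≤ rk (gr w.length X) (ev θ w.length p)) ∧
      Injective (ev θ w.length (close c w X C z e0 Xp q0 gen).2) ∧
      rk (gr w.length Xp) (ev θ w.length q0) ≤
        rk (gr w.length Xp) (ev θ w.length (close c w X C z e0 Xp q0 gen).2) := by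
  exact cl_inv_iter hs hn X C z Xp gen he hq _

/-- The families of sets whose splittings are free at all evaluations of the list. -/
def clU (θ : Fe → F) (w : Un) (X : Tab) (P : List Ev) :
    Submodule (ZMod 2) (Fin w.length → Fin w.length → ZMod 2) where
  carrier := {Zs | ∀ y, ∀ p ∈ P,
    sv (ev θ w.length p) y (Zs y) ∈ Rg (gr w.length X) (ev θ w.length p)}
  add_mem' := fun {a b} ha hb y p hp => by
    rw [Pi.add_apply, sv_add]
    exact Submodule.add_mem _ (ha y p hp) (hb y p hp)
  zero_mem' := fun y p _ => by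
    rw [Pi.zero_apply, sv_zero]
    exact Submodule.zero_mem _
  smul_mem' := fun a Zs h y p hp => by
    rcases z2 a with rfl | rfl
    · rw [zero_smul, Pi.zero_apply, sv_zero]
      exact Submodule.zero_mem _
    · rw [one_smul]
      exact h y p hp

theorem cl_drop {X : Tab} {P : List Ev} {q : Ev} {y : Fin w.length} {ζ : Fin w.length → ZMod 2}
    (h1 : ∀ p ∈ P, sv (ev θ w.length p) y ζ ∈ Rg (gr w.length X) (ev θ w.length p))
    (h2 : sv (ev θ w.length q) y ζ ∉ Rg (gr w.length X) (ev θ w.length q)) :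
    finrank (ZMod 2) (clU θ w X (q :: P)) < finrank (ZMod 2) (clU θ w X P) := by
  apply Submodule.finrank_lt_finrank_of_lt
  refine lt_of_le_of_ne (fun Zs h y p hp => h y p (List.mem_cons_of_mem _ hp)) fun e => h2 ?_
  have h3 : Pi.single y ζ ∈ clU θ w X P := fun y' p hp => by
    by_cases hy : y' = y
    · subst hy
      rw [Pi.single_eq_same]
      exact h1 p hp
    · rw [Pi.single_eq_of_ne hy, sv_zero]
      exact Submodule.zero_mem _
  rw [← e] at h3
  have h4 := h3 y q List.mem_cons_self
  rwa [Pi.single_eq_same] at h4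

/-- The new evaluation detects the splitting. -/
theorem cl_new (hs : Sem c θ) (hn : Ok c w.length) {X : Tab} {C : St} {s y : Fin w.length}
    {e0 : Ev} {Z : St} {outs : List Ev} {ρ : ℕ} (hsp : (s : ℕ) = sp w)
    (hE : (gr w.length X).Eul) (hC : (gr w.length X).On (st w.length C)) (hsC : s ∉ st w.length C)
    (he : Injective (ev θ w.length e0)) (hr : ρ ≤ rk (gr w.length X) (ev θ w.length e0))
    (hy : y ∈ st w.length C) (hZ : Nt (gr w.length X) (st w.length C) y (zv w.length Z))
    {f : Ev} (hf : f ∈ outs)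
    (hf1 : Proper ((gr w.length X).split y s (zv w.length Z)) (ev θ w.length f))
    (hf2 : ρ + 2 ≤ rk ((gr w.length X).split y s (zv w.length Z)) (ev θ w.length f))
    (hm : sv (ev θ w.length (closeNew c w X e0 (y, Z) outs)) y (zv w.length Z) ∈
      Rg (gr w.length X) (ev θ w.length (closeNew c w X e0 (y, Z) outs))) :
    ρ < rk (gr w.length X) (ev θ w.length (closeNew c w X e0 (y, Z) outs)) := by
  have hsy : s ≠ y := fun e => hsC (e ▸ hy)
  have hiso : (gr w.length X).Iso s := fun x => z2_ne_one.1 fun h => hsC (hC s x h)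
  have hZs : zv w.length Z s = 0 := z2_ne_one.1 fun h => hsC (hZ.1 s h).1
  have hZy : zv w.length Z y = 0 := z2_ne_one.1 fun h => (hZ.1 y h).2 rfl
  have hinj := cl_new_inj hs hn X he (y, Z) outs
  have h0 := hn.ev0_inj hs (w := w) (by omega)
  have hH := gr_splitG w X y s Z
  have hadj : ∀ a b, (gr w.length (splitG w X y s Z)).adj a b = 1 →
      update id s y a ≠ update id s y b := by
    intro a b hab
    have hne := ne_of_adj hab
    have hsy0 : (gr w.length (splitG w X y s Z)).adj s y = 0 := by
      rw [hH, split_adj, hiso y]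
      simp [hsy, hsy.symm, hZs, hZy]
    by_cases ha : a = s
    · subst ha
      rw [update_self, update_of_ne hne.symm]
      rintro rfl
      rw [hsy0] at hab
      exact zero_ne_one hab
    · by_cases hb : b = s
      · subst hb
        rw [update_self, update_of_ne ha, id]
        rintro rfl
        rw [Gr.symm, hsy0] at hab
        exact zero_ne_one hab
      · rw [update_of_ne ha, update_of_ne hb]
        exact hne
  have h1 := merge_ge_po hs hn small_po h0 (List.mem_singleton_self (po w (splitG w X y s Z)))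
    (List.mem_cons_of_mem _ hf) (by rw [hH]; exact hf1)
  have h2 := algV_spec hs hn (X := splitG w X y s Z) (m := ρ) (rep_upd w s y)
    (fun x => by
      by_cases hx : x = s
      · subst hx
        rw [update_self, update_of_ne hsy.symm]
        rfl
      · rw [update_of_ne hx]
        exact update_of_ne hx _ _)
    (by
      refine (card_le_card (t := {s}) fun x hx => ?_).trans (by simp)
      by_contra hx'
      exact (mem_filter.1 hx).2 (update_of_ne (notMem_singleton.1 hx') _ _))
    (by rw [hH]; exact hE.split y s hZ.2.1) hadj (merge_inj hs hn small_po h0 outs) he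
    (by rw [hH] at h1 ⊢; exact_mod_cast hf2.trans h1)
    (by rw [hH, ← ctr_eq_push, split_ctr hiso hsy hZy hZs]; exact_mod_cast hr)
  have h3 := line_left hs hn (cl_small (X := X) (H := splitG w X y s Z) (φ := upd w s y)) e0
    (List.mem_cons_of_mem _ (List.mem_singleton_self _)) (rep_upd w s y)
    (proper_comp (algV_inj hs hn (upd w s y)
      (mergeAll c w [po w (splitG w X y s Z)] (ev0 w) outs) (splitG w X y s Z) he) hadj)
  have h4 := rk_split_of_mem (proper_of_inj _ hinj) hiso hsy hZs
    (fun x hx => hinj.ne (hZ.1 x hx).2) hm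
  have h5 : closeNew c w X e0 (y, Z) outs = line c w [po w X, (w, splitG w X y s Z, upd w s y)]
      (algV c w (upd w s y) (mergeAll c w [po w (splitG w X y s Z)] (ev0 w) outs) e0
        (splitG w X y s Z)) e0 := by
    rw [hsp]
    rfl
  rw [← h5, comp_update (ev θ w.length (closeNew c w X e0 (y, Z) outs)), comp_id, hH, h4] at h3
  rw [hH] at h2
  omega

theorem close_spec (hs : Sem c θ) (hn : Ok c w.length) {X : Tab} {C : St} {z s : Fin w.length}
    {e0 : Ev} {Xp : Tab} {q0 : Ev} {gen : ℕ × St → List Ev} {ρ ρp : ℕ} (hsp : (s : ℕ) = sp w)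
    (hE : (gr w.length X).Eul) (hC : (gr w.length X).On (st w.length C)) (hsC : s ∉ st w.length C)
    (he : Injective (ev θ w.length e0)) (hq : Injective (ev θ w.length q0))
    (hr : ρ ≤ rk (gr w.length X) (ev θ w.length e0))
    (hgen : ∀ (y : Fin w.length) (Z : St), y ∈ st w.length C → y ≠ z →
      Nt (gr w.length X) (st w.length C) y (zv w.length Z) →
      (∃ f ∈ gen (y, Z), Proper ((gr w.length X).split y s (zv w.length Z)) (ev θ w.length f) ∧
        ρ + 2 ≤ rk ((gr w.length X).split y s (zv w.length Z)) (ev θ w.length f)) ∨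
      ∃ f ∈ gen (y, Z), Proper (gr w.length Xp) (ev θ w.length f) ∧
        ρp < rk (gr w.length Xp) (ev θ w.length f)) :
    (∀ y ∈ st w.length C, y ≠ z → Kill (gr w.length X) (st w.length C)
        (evs θ w.length (close c w X C z e0 Xp q0 gen).1) y) ∨
      (∃ p ∈ (close c w X C z e0 Xp q0 gen).1, ρ < rk (gr w.length X) (ev θ w.length p)) ∨
      ρp < rk (gr w.length Xp) (ev θ w.length (close c w X C z e0 Xp q0 gen).2) := by
  have key : ∀ k, ∀ t, t = (closeStep c w X C z e0 Xp gen)^[k] ([e0], q0) →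
      frees c w X t.1 (del w C z) (del w C) = [] ∨
      (∃ p ∈ t.1, ρ < rk (gr w.length X) (ev θ w.length p)) ∨
      ρp < rk (gr w.length Xp) (ev θ w.length t.2) ∨
      finrank (ZMod 2) (clU θ w X t.1) + k ≤ w.length * w.length := by
    intro k
    induction k with
    | zero =>
      intro t _
      refine Or.inr (Or.inr (Or.inr ?_))
      have := Submodule.finrank_le (clU θ w X t.1)
      simpa [Module.finrank_pi_fintype] using this
    | succ k ih =>
      intro t' ht'
      have hI := cl_inv_iter hs hn X C z Xp gen he hq k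
      have ih := ih _ rfl
      rw [iterate_succ_apply'] at ht'
      generalize (closeStep c w X C z e0 Xp gen)^[k] ([e0], q0) = t at hI ih ht'
      rw [closeStep] at ht'
      cases hfr : frees c w X t.1 (del w C z) (del w C) with
      | nil =>
        rw [hfr, if_pos List.isEmpty_nil] at ht'
        exact Or.inl (ht' ▸ hfr)
      | cons r l =>
        rw [hfr, if_neg (by simp), List.headD_cons] at ht'
        subst ht'
        right
        obtain ⟨y, h1, h2, h3, h4, h5, h6⟩ :=
          hs.frees_sound (r := r) (hfr ▸ List.mem_cons_self)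
        obtain ⟨r1, Z⟩ := r
        obtain rfl : r1 = y := h1
        rw [← mem_st, st_del, mem_erase] at h2
        have h7 : ∀ x, zv w.length Z x = 1 → x ∈ st w.length C ∧ x ≠ y := fun x hx => by
          have := h3 x (b2z_eq_one.1 hx)
          rw [← mem_st, st_del, mem_erase] at this
          exact this.symm
        obtain ⟨p0, hp0⟩ := List.exists_mem_of_ne_nil _ hI.1
        have hNt : Nt (gr w.length X) (st w.length C) y (zv w.length Z) :=
          ⟨h7, even_of_sv_mem hE (proper_of_inj _ (hI.2.1 p0 hp0).1)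
            (fun x hx => (hI.2.1 p0 hp0).1.ne (h7 x hx).2) (h6 p0 hp0), h4, h5⟩
        rcases ih with ih | ⟨p, hp, ih⟩ | ih | ih
        · rw [hfr] at ih
          exact absurd ih (List.cons_ne_nil _ _)
        · exact Or.inl ⟨p, List.mem_cons_of_mem _ hp, ih⟩
        · exact Or.inr (Or.inl (ih.trans_le (cl_merge_ge hs hn Xp hI.2.2.1 _)))
        · rcases hgen y Z h2.2 h2.1 hNt with ⟨f, hf, hf1, hf2⟩ | ⟨f, hf, hf1, hf2⟩
          · by_cases hm : sv (ev θ w.length (closeNew c w X e0 (y, Z) (gen (y, Z)))) y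
                (zv w.length Z) ∈ Rg (gr w.length X)
                  (ev θ w.length (closeNew c w X e0 (y, Z) (gen (y, Z))))
            · exact Or.inl ⟨_, List.mem_cons_self,
                cl_new hs hn hsp hE hC hsC he hr h2.2 hNt hf hf1 hf2 hm⟩
            · have := cl_drop h6 hm
              refine Or.inr (Or.inr ?_)
              show finrank (ZMod 2) (clU θ w X (closeNew c w X e0 (y, Z) (gen (y, Z)) :: t.1)) +
                (k + 1) ≤ _
              omega
          · exact Or.inr (Or.inl (hf2.trans_le (merge_ge_po hs hn small_po hI.2.2.1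
              (List.mem_singleton_self _) (List.mem_cons_of_mem _ hf) hf1)))
  rcases key (w.length * w.length + 1) (close c w X C z e0 Xp q0 gen) rfl with h | h | h | h
  · refine Or.inl fun y hy hyz ζ hζ => ?_
    obtain ⟨p, hp, h1⟩ := hs.frees_complete h (y := y) (ζ := ζ)
      (by rw [← mem_st, st_del, mem_erase]; exact ⟨hyz, hy⟩)
      (fun x hx => by rw [← mem_st, st_del, mem_erase]; exact (hζ.1 x hx).symm) hζ.2.2.1 hζ.2.2.2
    exact ⟨_, ⟨p, hp, rfl⟩, h1⟩
  · exact Or.inr (Or.inl h)
  · exact Or.inr (Or.inr h)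
  · omega

end Pool.Agent.MP_bae0ed_lc.H52
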