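import Pool.Agent.MP_bae0ed_lc.H52.SpecClose

/-!
The greedy contraction, the splitting phase and the components.
-/

set_option autoImplicit false
set_option linter.unusedSectionVars false

namespace Pool.Agent.MP_bae0ed_lc.H52

open Finset Matrix Function Module Gr

variable {c : Ctx} {F : Type} [Field F] [CharP F 2] {θ : Fe → F} {w : Un}

section Comb

variable {V : Type} [DecidableEq V] [Fintype V]

theorem spl_supp_ctr {X : Gr V} {u v : V} (huv : X.adj u v = 1)
    (hmin : ∀ x, ¬ X.Iso x → (X.nbr u).card ≤ (X.nbr x).card) :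
    X.supp.card ≤ (X.ctr u v).supp.card + 3 := by
  have hne : u ≠ v := ne_of_adj huv
  by_cases h : (X.nbr u).card ≤ 2
  · have hsub : X.supp ⊆ (X.ctr u v).supp ∪ insert u (X.nbr u) := by
      intro x hx
      rw [mem_union, mem_insert, mem_nbr]
      by_cases hxu : x = u
      · exact Or.inr (Or.inl hxu)
      by_cases hux : X.adj u x = 1
      · exact Or.inr (Or.inr hux)
      left
      have hxv : x ≠ v := fun e => hux (e ▸ huv)
      obtain ⟨y, hy⟩ : ∃ y, X.adj x y = 1 := by simpa [supp] using hx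
      have hyu : y ≠ u := fun e => hux (by rw [X.symm, ← e]; exact hy)
      simp only [supp, mem_filter, mem_univ, true_and]
      by_cases hyv : y = v
      · refine ⟨v, ?_⟩
        rw [(X.ctr u v).symm, ctr_adj_tgt hne hxu hxv, z2_ne_one.1 hux, add_zero, X.symm, ← hyv]
        exact hy
      · exact ⟨y, by rw [ctr_adj_other hxu hxv hyu hyv]; exact hy⟩
    have h1 := card_le_card hsub
    have h2 := card_union_le (X.ctr u v).supp (insert u (X.nbr u))
    have h3 := card_insert_le u (X.nbr u)
    omega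
  · have hsub : X.supp ⊆ (X.ctr u v).supp ∪ {u, v} := by
      intro x hx
      rw [mem_union, mem_insert, mem_singleton]
      by_cases hxu : x = u
      · exact Or.inr (Or.inl hxu)
      by_cases hxv : x = v
      · exact Or.inr (Or.inr hxv)
      left
      have h3 := hmin x (mem_supp.1 hx)
      have h4 : ({u, v} : Finset V).card < (X.nbr x).card := by
        have := card_le_two (a := u) (b := v)
        omega
      obtain ⟨y, hy, hy'⟩ := exists_mem_notMem_of_card_lt_card h4
      rw [mem_insert, mem_singleton, not_or] at hy'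
      simp only [supp, mem_filter, mem_univ, true_and]
      exact ⟨y, by rw [ctr_adj_other hxu hxv hy'.1 hy'.2]; exact mem_nbr.1 hy⟩
    have h1 := card_le_card hsub
    have h2 := card_union_le (X.ctr u v).supp {u, v}
    have h3 := card_le_two (a := u) (b := v)
    omega

theorem spl_full_ctr {X : Gr V} {u v : V} (huv : X.adj u v = 1) {C : Finset V} (hC : X.On C)
    (hF : X.Full C) :
    (X.ctr u v).On ((C.erase u).erase v) ∧ (X.ctr u v).Full ((C.erase u).erase v) ∧
      C.card = ((C.erase u).erase v).card + 2 := by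
  have hne : u ≠ v := ne_of_adj huv
  have hu : u ∈ C := hC u v huv
  have hv : v ∈ C := hC.right huv
  refine ⟨fun a b hab => ?_, fun a ha b hb hab => ?_, ?_⟩
  · refine mem_erase.2 ⟨?_, hC.ctr hne hv a b hab⟩
    rintro rfl
    have hb : b ∈ C.erase u := (hC.ctr hne hv).right hab
    have hba : b ≠ a := (ne_of_adj hab).symm
    rw [mem_erase] at hb
    rw [ctr_adj_tgt hne hb.1 hba, hF a hv b hb.2 hba.symm, hF u hu b hb.2 hb.1.symm] at hab
    exact absurd hab (by decide)
  · simp only [mem_erase] at ha hb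
    rw [ctr_adj_other ha.2.1 ha.1 hb.2.1 hb.1]
    exact hF a ha.2.2 b hb.2.2 hab
  · have h1 := card_erase_add_one hu
    have h2 := card_erase_add_one (mem_erase.2 ⟨hne.symm, hv⟩ : v ∈ C.erase u)
    omega

theorem spl_supp_split {X : Gr V} {y i : V} {Z : V → ZMod 2} (hi : X.Iso i) (hy : i ≠ y)
    (hZy : Z y = 0) (hZi : Z i = 0) (h0 : Z ≠ 0) (h1 : Z ≠ X.adj y) :
    X.supp.card + 1 ≤ (X.split y i Z).supp.card := by
  have hi' : i ∉ X.supp := fun h => mem_supp.1 h hi
  rw [← card_insert_of_notMem hi']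
  refine card_le_card fun x hx => ?_
  rw [mem_supp]
  intro hiso
  by_cases hxi : x = i
  · subst hxi
    apply h0
    funext b
    have := hiso b
    rw [split_adj, hi b] at this
    simpa [hy, hZi] using this
  have hx' : ¬ X.Iso x := mem_supp.1 ((mem_insert.1 hx).resolve_left hxi)
  by_cases hxy : x = y
  · subst hxy
    apply h1
    funext b
    have := hiso b
    rw [split_adj] at this
    simp only [if_true, hxi, if_false, hZy, ite_self, add_zero] at this
    have h2 : ∀ s t : ZMod 2, s + t = 0 → t = s := by decide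
    exact h2 _ _ this
  · have h3 := hiso i
    rw [split_adj, X.symm, hi x] at h3
    have hZx : Z x = 0 := by simpa [hxy, hxi, hy] using h3
    apply hx'
    intro b
    have := hiso b
    rw [split_adj] at this
    simpa [hxy, hxi, hZx] using this

end Comb

theorem greedy_spec (hs : Sem c θ) (hn : Ok c w.length) {X : Tab} (hE : (gr w.length X).Eul) :
    Injective (ev θ w.length (greedy c w X)) ∧
      (gr w.length X).supp.card ≤
        3 * rk (gr w.length X) (ev θ w.length (greedy c w X)) ∧
      ∀ C : Finset (Fin w.length), (gr w.length X).On C → (gr w.length X).Full C →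
        C.card ≤ 2 * rk (gr w.length X) (ev θ w.length (greedy c w X)) + 1 := by
  have key := grun_spec (c := c) (w := w) (w' := w) (ok := okG w) (obj := fun Y => [po w Y])
    (κ := rg w) (base := fun _ => ev0 w) (γ := Unit) (fun T _ => (gr w.length T).Eul)
    (fun T _ f => Injective (ev θ w.length f) ∧
      (gr w.length T).supp.card ≤ 3 * rk (gr w.length T) (ev θ w.length f) ∧
      ∀ C : Finset (Fin w.length), (gr w.length T).On C → (gr w.length T).Full C →
        C.card ≤ 2 * rk (gr w.length T) (ev θ w.length f) + 1)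
    (fun T u v h => by
      simp only [okG, Bool.and_eq_true] at h
      exact h.1) ?_ ?_ (X := X) (g := ()) hE
  · exact key
  · intro T _ u v hT hok _
    simp only [okG, Bool.and_eq_true] at hok
    obtain ⟨h1, h2⟩ := hok
    have huv : (gr w.length T).adj u v = 1 := ad_iff.1 h1
    have hmin : ∀ x, ¬ (gr w.length T).Iso x →
        ((gr w.length T).nbr u).card ≤ ((gr w.length T).nbr x).card := by
      intro x hx
      have := all_rg.1 h2 x
      rw [Bool.or_eq_true, isoG_iff, decide_eq_true_eq, deg_eq, deg_eq] at this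
      exact this.resolve_left hx
    refine ⟨(), by rw [gr_ctrG]; exact hT.ctr u v, ?_⟩
    rintro f ⟨q1, q2, q3⟩
    rw [gr_ctrG] at q2 q3
    have hg : gm (rg w) u = u := rep_rg w u
    rw [hg]
    have hr := reval_ctr_po hs hn (small_po (X := T)) q1 (List.mem_singleton.2 rfl) u v
    have hval : ((gr w.length T).adj u v).val = 1 := by rw [huv]; rfl
    rw [hval] at hr
    refine ⟨reval_inj hs hn small_po q1 u, ?_, fun C hC hF => ?_⟩
    · have := spl_supp_ctr huv hmin
      omega
    · obtain ⟨a1, a2, a3⟩ := spl_full_ctr huv hC hF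
      have := q3 _ a1 a2
      omega
  · intro T _ _ hter
    have hemp : (gr w.length T).supp = ∅ := by
      by_contra hne
      obtain ⟨u, hu, hmin⟩ := exists_min_image (gr w.length T).supp
        (fun x => ((gr w.length T).nbr x).card) (nonempty_iff_ne_empty.2 hne)
      obtain ⟨v, hv⟩ : ∃ v, (gr w.length T).adj u v = 1 := by simpa [supp] using hu
      have : okG w T (u, v) = true := by
        simp only [okG, Bool.and_eq_true]
        refine ⟨ad_iff.2 hv, all_rg.2 fun x => ?_⟩
        rw [Bool.or_eq_true, isoG_iff, decide_eq_true_eq, deg_eq, deg_eq]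
        by_cases hx : (gr w.length T).Iso x
        · exact Or.inl hx
        · exact Or.inr (hmin x (mem_supp.2 hx))
      rw [hter] at this
      exact Bool.false_ne_true this
    refine ⟨hn.ev0_inj hs (by omega), by rw [hemp]; simp, fun C _ hF => ?_⟩
    have : C.card ≤ 1 := by
      refine card_le_one.2 fun a ha b hb => ?_
      by_contra hab
      have : a ∈ (gr w.length T).supp := by
        simp only [supp, mem_filter, mem_univ, true_and]
        exact ⟨b, hF a ha b hb hab⟩
      rw [hemp] at this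
      exact notMem_empty _ this
    omega

/-- The binary vector of a pair of vertices. -/
def splD {n : ℕ} (x y : Fin n) : Fin n → ZMod 2 := Pi.single x 1 + Pi.single y 1

/-- The binary span of the edge vectors. -/
def splW (w : Un) (X : Tab) : Submodule (ZMod 2) (Fin w.length → ZMod 2) :=
  MP_0c5eb8_lc.H36.sp w.length (((pairs w).filter fun q => ad X q.1 q.2).map fun q =>
    sett w fun i => xor (decide (i = q.1)) (decide (i = q.2)))

theorem spl_toV (x y : Fin w.length) :
    MP_0c5eb8_lc.H36.toV w.length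
      (sett w fun i => xor (decide (i = (x : ℕ))) (decide (i = (y : ℕ)))) = splD x y := by
  funext i
  have h := bt_sett w (fun i => xor (decide (i = (x : ℕ))) (decide (i = (y : ℕ)))) i
  unfold bt at h
  unfold MP_0c5eb8_lc.H36.toV splD
  rw [h]
  simp only [Pi.add_apply, Pi.single_apply, Fin.val_inj]
  by_cases h1 : i = x <;> by_cases h2 : i = y <;> simp [h1, h2]
  all_goals simp_all
  all_goals decide

theorem spl_mem_comp {X : Tab} {x y : Fin w.length} :
    x ∈ st w.length (comp w X y) ↔ splD x y ∈ splW w X := by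
  rw [mem_st, comp, bt_sett, MP_0c5eb8_lc.H36.inS_iff, MP_0c5eb8_lc.H36.pt_le, spl_toV]
  rfl

theorem spl_add {n : ℕ} (x y z : Fin n) : splD x z + splD y z = splD x y := by
  funext i
  simp only [splD, Pi.add_apply]
  have : ∀ a b d : ZMod 2, a + d + (b + d) = a + b := by decide
  exact this _ _ _

theorem spl_comm {n : ℕ} (x y : Fin n) : splD x y = splD y x := add_comm _ _

theorem spl_edge {X : Tab} {a b : Fin w.length} (h : (gr w.length X).adj a b = 1) :
    splD a b ∈ splW w X := by
  rw [← spl_toV, ← MP_0c5eb8_lc.H36.pt_le]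
  refine MP_0c5eb8_lc.H36.pt_le_sp (List.mem_map.2 ⟨((a : ℕ), (b : ℕ)), ?_, rfl⟩)
  exact List.mem_filter.2 ⟨mem_pairs.2 ⟨a.2, b.2⟩, ad_iff.2 h⟩

theorem spl_le {X : Tab} {O : Submodule (ZMod 2) (Fin w.length → ZMod 2)}
    (h : ∀ a b, (gr w.length X).adj a b = 1 → splD a b ∈ O) : splW w X ≤ O := by
  refine MP_0c5eb8_lc.H36.sp_le.2 fun v hv => ?_
  obtain ⟨⟨a, b⟩, hq, rfl⟩ := List.mem_map.1 hv
  obtain ⟨h1, h2⟩ := List.mem_filter.1 hq
  obtain ⟨ha, hb⟩ := mem_pairs.1 h1
  rw [MP_0c5eb8_lc.H36.pt_le]
  have := spl_toV (w := w) ⟨a, ha⟩ ⟨b, hb⟩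
  simp only at this ⊢
  rw [this]
  exact h _ _ (ad_iff.1 h2)

theorem mem_comp_self (X : Tab) (y : Fin w.length) : y ∈ st w.length (comp w X y) := by
  rw [spl_mem_comp]
  have : splD y y = 0 := by
    funext i
    exact z2_add_self _
  rw [this]
  exact zero_mem _

theorem comp_closed (X : Tab) (y : Fin w.length) :
    ∀ a ∈ st w.length (comp w X y), ∀ b, (gr w.length X).adj a b = 1 →
      b ∈ st w.length (comp w X y) := by
  intro a ha b hab
  rw [spl_mem_comp] at ha ⊢
  rw [← spl_add b y a]
  refine add_mem ?_ ?_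
  · rw [spl_comm]; exact spl_edge hab
  · rw [spl_comm]; exact ha

theorem comp_conn (X : Tab) (y : Fin w.length) :
    (gr w.length X).Conn (st w.length (comp w X y)) := by
  intro S hS hne hSC
  by_contra hcon
  push Not at hcon
  have hcl : ∀ a ∈ S, ∀ b, (gr w.length X).adj a b = 1 → b ∈ S := by
    intro a ha b hab
    by_contra hb
    exact hcon a ha b (comp_closed X y a (hS ha) b hab) hb hab
  let φ : (Fin w.length → ZMod 2) →ₗ[ZMod 2] ZMod 2 := ∑ s ∈ S, LinearMap.proj s
  have hφ : ∀ a b, φ (splD a b) = (if a ∈ S then 1 else 0) + (if b ∈ S then 1 else 0) := by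
    intro a b
    simp [φ, splD, Pi.single_apply, sum_add_distrib]
  have hle : splW w X ≤ LinearMap.ker φ := by
    refine spl_le fun a b hab => ?_
    rw [LinearMap.mem_ker, hφ]
    have : a ∈ S ↔ b ∈ S :=
      ⟨fun h => hcl a h b hab, fun h => hcl b h a (by rw [Gr.symm]; exact hab)⟩
    simp only [this]
    exact z2_add_self _
  obtain ⟨a, ha⟩ := hne
  obtain ⟨b, hb, hbS⟩ := exists_of_ssubset (ssubset_of_subset_of_ne hS hSC)
  have h1 : splD a b ∈ splW w X := by
    rw [← spl_add a b y]
    exact add_mem (spl_mem_comp.1 (hS ha)) (spl_mem_comp.1 hb)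
  have h2 := hle h1
  rw [LinearMap.mem_ker, hφ, if_pos ha, if_neg hbS] at h2
  exact absurd h2 (by decide)

theorem comp_eq {X : Tab} {x y : Fin w.length} (h : x ∈ st w.length (comp w X y)) :
    st w.length (comp w X x) = st w.length (comp w X y) := by
  rw [spl_mem_comp] at h
  ext z
  rw [spl_mem_comp, spl_mem_comp]
  constructor
  · intro hz
    rw [← spl_add z y x]
    exact add_mem hz (by rw [spl_comm]; exact h)
  · intro hz
    rw [← spl_add z x y]
    exact add_mem hz h

theorem ev_mix (C : St) (f p : Ev) (a : Fin w.length) : ev θ w.length (mix w C f p) a =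
    if a ∈ st w.length C then ev θ w.length f a else ev θ w.length p a := by
  unfold ev mix
  rw [gv_map]
  simp only [mem_st]
  split_ifs <;> rfl

/-- The invariant of the splitting phase; the labels from `m` on are still unused. -/
def SplInv (c : Ctx) (θ : Fe → F) (w : Un) (G : Tab) (E : List Ev) (m k : ℕ)
    (s : Tab × List ℕ) : Prop :=
  ∃ ψ : Fin w.length → Fin w.length, Rep s.2 ψ ∧ (∀ x, ψ (ψ x) = ψ x) ∧
    (∀ x : Fin w.length, m ≤ (x : ℕ) → ψ x = x) ∧
    (∀ x : Fin w.length, (x : ℕ) < m → (ψ x : ℕ) < m) ∧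
    (gr w.length s.1).Eul ∧ (∀ a b, (gr w.length s.1).adj a b = 1 → ψ a ≠ ψ b) ∧
    (gr w.length s.1).push ψ = gr w.length G ∧
    (∀ a b, (gr w.length s.1).adj a b = 1 → (a : ℕ) < m) ∧
    (∀ e ∈ E, rk (gr w.length s.1) (ev θ w.length e ∘ ψ) = rk (gr w.length G) (ev θ w.length e)) ∧
    (k ≤ (gr w.length s.1).supp.card ∨ splitFree c w E s = [])

theorem spl_step (hs : Sem c θ) {G : Tab} {E : List Ev} (hne : E ≠ [])
    (hinj : ∀ e ∈ E, Injective (ev θ w.length e)) {m k : ℕ} (hm : m < w.length)
    {s : Tab × List ℕ} (h : SplInv c θ w G E m k s) :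
    SplInv c θ w G E (m + 1) (k + 1) (splitStep c w E s m) := by
  obtain ⟨ψ, h1, h2, h3, h4, h5, h6, h7, h8, h9, h10⟩ := h
  unfold splitStep
  by_cases hemp : splitFree c w E s = []
  · rw [if_pos (List.isEmpty_iff.2 hemp)]
    refine ⟨ψ, h1, h2, fun x hx => h3 x (by omega), fun x hx => ?_, h5, h6, h7,
      fun a b hab => Nat.lt_succ_of_lt (h8 a b hab), h9, Or.inr hemp⟩
    by_cases hx' : (x : ℕ) < m
    · exact Nat.lt_succ_of_lt (h4 x hx')
    · rw [h3 x (by omega)]; exact hx
  rw [if_neg (fun h => hemp (List.isEmpty_iff.1 h))]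
  have hr : (splitFree c w E s).headD (0, []) ∈ splitFree c w E s := by
    cases hl : splitFree c w E s with
    | nil => exact absurd hl hemp
    | cons a l => simp
  generalize (splitFree c w E s).headD (0, []) = r at hr
  obtain ⟨y, e1, e2, e3, e4, e5, e6⟩ := hs.frees_sound hr
  have hk : k ≤ (gr w.length s.1).supp.card := h10.resolve_right hemp
  obtain ⟨r1, Z⟩ := r
  simp only at e1 e3 e4 e5 e6
  subst e1
  set X := gr w.length s.1 with hX
  set ζ := zv w.length Z with hζ
  let i : Fin w.length := ⟨m, hm⟩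
  have him : (i : ℕ) = m := rfl
  have hyiso : ¬ X.Iso y := by
    rw [bt_sett] at e2
    intro h
    rw [isoG_iff.2 h] at e2
    exact Bool.false_ne_true e2
  have hlt : ∀ x, ¬ X.Iso x → (x : ℕ) < m := by
    intro x hx
    by_contra hxm
    exact hx fun b => z2_ne_one.1 fun hb => hxm (h8 x b hb)
  have hiiso : X.Iso i := by
    by_contra h
    exact absurd (hlt i h) (by simp [him])
  have hiy : i ≠ y := fun e => hyiso (e ▸ hiiso)
  have hZψ : ∀ x, ζ x = 1 → ψ x ≠ ψ y := by
    intro x hx
    have := e3 x (b2z_eq_one.1 hx)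
    rw [bt_sett, h1 x, h1 y] at this
    intro e
    simp [e] at this
  have hmem : ∀ e ∈ E, sv (ev θ w.length e ∘ ψ) y ζ ∈ Rg X (ev θ w.length e ∘ ψ) := by
    intro e he
    have := e6 _ (List.mem_map_of_mem he)
    rwa [ev_cmp h1] at this
  have hZp : ∀ e ∈ E, ∀ x, ζ x = 1 → (ev θ w.length e ∘ ψ) x ≠ (ev θ w.length e ∘ ψ) y :=
    fun e he x hx h => hZψ x hx (hinj e he h)
  have hpr : ∀ e ∈ E, Proper X (ev θ w.length e ∘ ψ) := fun e he => proper_comp (hinj e he) h6
  obtain ⟨e0, he0⟩ := List.exists_mem_of_ne_nil E hne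
  have hZy : ζ y = 0 := z2_ne_one.1 fun h => hZψ y h rfl
  have hZiso : ∀ x, X.Iso x → ζ x = 0 := by
    intro x hx
    refine z2_ne_one.1 fun h => ?_
    have h0 := apply_eq_zero_of_iso hx (hmem e0 he0)
    have hxy : x ≠ y := fun e => hyiso (e ▸ hx)
    have hp := hZp e0 he0 x h
    unfold sv at h0
    rw [if_neg hxy, add_zero, h, map_one, one_mul, inv_eq_zero, CharTwo.add_eq_zero] at h0
    exact hp h0
  have hZi : ζ i = 0 := hZiso i hiiso
  have hgr : gr w.length (splitUpd w s m (y, Z)).1 = X.split y i ζ := gr_splitG w s.1 y i Z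
  have hupd : ∀ e : Ev, ev θ w.length e ∘ update ψ i (ψ y) =
      update (ev θ w.length e ∘ ψ) i ((ev θ w.length e ∘ ψ) y) := fun e => comp_update _ _ _ _
  have hψi : ∀ x, x ≠ i → ψ x ≠ i := by
    intro x hx e
    by_cases hxm : (x : ℕ) < m
    · have := h4 x hxm
      rw [e, him] at this
      omega
    · rw [h3 x (by omega)] at e
      exact hx e
  refine ⟨update ψ i (ψ y), ?_, ?_, ?_, ?_, ?_, ?_, ?_, ?_, ?_, ?_⟩
  · intro a
    show gm ((rg w).map fun x => if x = m then gm s.2 y else gm s.2 x) a = _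
    rw [gm_map]
    by_cases ha : a = i
    · rw [ha, if_pos him, update_self, h1 y]
    · rw [if_neg (fun e => ha (Fin.ext e)), update_of_ne ha, h1 a]
  · intro x
    by_cases hx : x = i
    · rw [hx, update_self, update_of_ne (hψi y hiy.symm), h2]
    · rw [update_of_ne hx, update_of_ne (hψi x hx), h2]
  · intro x hx
    have : x ≠ i := fun e => by rw [e, him] at hx; omega
    rw [update_of_ne this, h3 x (by omega)]
  · intro x hx
    by_cases hxi : x = i
    · rw [hxi, update_self]
      exact Nat.lt_succ_of_lt (h4 y (hlt y hyiso))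
    · rw [update_of_ne hxi]
      have : (x : ℕ) ≠ m := fun e => hxi (Fin.ext e)
      exact Nat.lt_succ_of_lt (h4 x (by omega))
  · rw [hgr]
    exact h5.split y i (even_of_sv_mem h5 (hpr e0 he0) (hZp e0 he0) (hmem e0 he0))
  · rw [hgr]
    intro a b hab e
    have := proper_split (hpr e0 he0) hiiso hiy hZi (hZp e0 he0) a b hab
    rw [← hupd] at this
    exact this (by simp only [Function.comp_apply, e])
  · rw [hgr, ← push_ctr (X.split y i ζ) (u := i) (w := y)
      (by rw [update_self, update_of_ne hiy.symm]), split_ctr hiiso hiy hZy hZi, ← h7]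
    refine push_congr fun a b hab => update_of_ne ?_ _ _
    rintro rfl
    rw [hiiso b] at hab
    exact zero_ne_one hab
  · rw [hgr]
    have hOn : X.On (univ.filter fun a : Fin w.length => (a : ℕ) < m + 1) := fun a b hab =>
      mem_filter.2 ⟨mem_univ _, Nat.lt_succ_of_lt (h8 a b hab)⟩
    intro a b hab
    refine (mem_filter.1 (hOn.split (y := y) (y2 := i) (Z := ζ) ?_ ?_ ?_ a b hab)).2
    · exact mem_filter.2 ⟨mem_univ _, Nat.lt_succ_of_lt (hlt y hyiso)⟩
    · exact mem_filter.2 ⟨mem_univ _, by simp [him]⟩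
    · intro x hx
      refine mem_filter.2 ⟨mem_univ _, Nat.lt_succ_of_lt (hlt x fun h => ?_)⟩
      rw [hZiso x h] at hx
      exact zero_ne_one hx
  · intro e he
    rw [hgr, hupd, rk_split_of_mem (hpr e he) hiiso hiy hZi (hZp e he) (hmem e he), h9 e he]
  · left
    rw [hgr]
    have := spl_supp_split hiiso hiy hZy hZi e4 e5
    omega

theorem spl_fold (hs : Sem c θ) {G : Tab} {E : List Ev} (hne : E ≠ [])
    (hinj : ∀ e ∈ E, Injective (ev θ w.length e)) {m : ℕ}
    (hG : ∀ a b, (gr w.length G).adj a b = 1 → (a : ℕ) < m) (hE : (gr w.length G).Eul) (k : ℕ)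
    (hk : k + m ≤ w.length) :
    SplInv c θ w G E (k + m) k
      (((List.range k).map fun i => i + m).foldl (splitStep c w E) (G, rg w)) := by
  induction k with
  | zero =>
    refine ⟨id, rep_rg w, fun _ => rfl, fun _ _ => rfl, fun _ h => h, hE,
      fun _ _ h => ne_of_adj h, push_id _, fun a b h => ?_, fun _ _ => rfl, Or.inl (Nat.zero_le _)⟩
    rw [zero_add]
    exact hG a b h
  | succ k ih =>
    rw [List.range_succ, List.map_append, List.foldl_append]
    have := spl_step hs hne hinj (m := k + m) (by omega) (ih (by omega))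
    rw [show k + 1 + m = k + m + 1 by omega]
    exact this

theorem algS_basic (hs : Sem c θ) {N : Un} {G : Tab} {E : List Ev}
    (hw : w.length = 4 * N.length + 1)
    (hG : ∀ a b, (gr w.length G).adj a b = 1 → (a : ℕ) < N.length) (hE : (gr w.length G).Eul)
    (hne : E ≠ []) (hinj : ∀ e ∈ E, Injective (ev θ w.length e)) :
    ∃ ψ : Fin w.length → Fin w.length, Rep (algS c w N G E).2 ψ ∧ (∀ x, ψ (ψ x) = ψ x) ∧
      (gr w.length (algS c w N G E).1).Eul ∧
      (∀ a b, (gr w.length (algS c w N G E).1).adj a b = 1 → ψ a ≠ ψ b) ∧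
      (gr w.length (algS c w N G E).1).push ψ = gr w.length G ∧
      (∀ s : Fin w.length, (s : ℕ) = sp w → (gr w.length (algS c w N G E).1).Iso s) ∧
      (∀ e ∈ E, rk (gr w.length (algS c w N G E).1) (ev θ w.length e ∘ ψ) =
        rk (gr w.length G) (ev θ w.length e)) ∧
      (3 * N.length ≤ (gr w.length (algS c w N G E).1).supp.card ∨
        ∀ y, ¬ (gr w.length (algS c w N G E).1).Iso y → ∀ ζ : Fin w.length → ZMod 2,
          (∀ x, ζ x = 1 → ψ x ≠ ψ y) → ζ ≠ 0 → ζ ≠ (gr w.length (algS c w N G E).1).adj y →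
          ∃ e ∈ E, sv (ev θ w.length e ∘ ψ) y ζ ∉
            Rg (gr w.length (algS c w N G E).1) (ev θ w.length e ∘ ψ)) := by
  have hlen : (N ++ N ++ N).length = 3 * N.length := by
    simp only [List.length_append]; omega
  have key := spl_fold hs hne hinj hG hE (3 * N.length) (by omega)
  have e : algS c w N G E = ((List.range (3 * N.length)).map fun i => i + N.length).foldl
      (splitStep c w E) (G, rg w) := by
    unfold algS rg
    rw [hlen]
  rw [← e] at key
  obtain ⟨ψ, h1, h2, -, -, h5, h6, h7, h8, h9, h10⟩ := key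
  refine ⟨ψ, h1, h2, h5, h6, h7, fun s hsp b => z2_ne_one.1 fun hb => ?_, h9, ?_⟩
  · have := h8 s b hb
    unfold sp at hsp
    omega
  · refine h10.imp id fun h y hy ζ hζ h0 hn => ?_
    have a1 : bt (sett w fun y => !isoG w (algS c w N G E).1 y) y = true := by
      rw [bt_sett]
      cases hiso : isoG w (algS c w N G E).1 y
      · rfl
      · exact absurd (isoG_iff.1 hiso) hy
    have a2 : ∀ x, ζ x = 1 → bt (sett w fun x =>
        !decide (gm (algS c w N G E).2 x = gm (algS c w N G E).2 y)) x = true := by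
      intro x hx
      rw [bt_sett, h1 x, h1 y]
      have := hζ x hx
      simp [Fin.val_inj, this]
    obtain ⟨p, hp, hp'⟩ := hs.frees_complete h a1 a2 h0 hn
    obtain ⟨e, he, rfl⟩ := List.mem_map.1 hp
    rw [ev_cmp h1] at hp'
    exact ⟨e, he, hp'⟩

end Pool.Agent.MP_bae0ed_lc.H52
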