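import Pool.Agent.MP_bae0ed_lc.H52.SpecPath
import Pool.Agent.MP_bae0ed_lc.H52.SpecSplit

/-!
Finding an evaluation of larger rank for the split graph.
-/

set_option autoImplicit false
set_option linter.unusedSectionVars false

namespace Pool.Agent.MP_bae0ed_lc.H52

open Finset Matrix Function Module Gr

variable {c : Ctx} {F : Type} [Field F] [CharP F 2] {θ : Fe → F} {w : Un}

section Pure

variable {V : Type} [DecidableEq V] [Fintype V]

private theorem fnd_both {X : Gr V} {C : Finset V} (hC : ∀ a ∈ C, ∀ b, X.adj a b = 1 → b ∈ C)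
    {a b : V} (h : X.adj a b = 1) : a ∈ C ↔ b ∈ C :=
  ⟨fun ha => hC a ha b h, fun hb => hC b hb a (by rw [X.symm]; exact h)⟩

private theorem fnd_row {X : Gr V} {C : Finset V} (hC : ∀ a ∈ C, ∀ b, X.adj a b = 1 → b ∈ C)
    {a : V} (ha : a ∈ C) : (X.ind C).adj a = X.adj a := by
  funext b
  rw [ind_adj]
  split_ifs with h
  · rfl
  · exact (z2_ne_one.1 fun e => h ⟨ha, hC a ha b e⟩).symm

private theorem fnd_of_ind {X : Gr V} {C : Finset V} {a b : V} (h : (X.ind C).adj a b = 1) :
    a ∈ C ∧ X.adj a b = 1 := by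
  rw [ind_adj] at h
  split_ifs at h with hc
  · exact ⟨hc.1, h⟩
  · exact absurd h zero_ne_one

private theorem fnd_proper {X : Gr V} {p : V → F} (hp : Proper X p) (C : Finset V) :
    Proper (X.ind C) p := fun a b h => hp a b (fnd_of_ind h).2

private theorem fnd_split {X : Gr V} {C : Finset V} (hC : ∀ a ∈ C, ∀ b, X.adj a b = 1 → b ∈ C) :
    X = X.ind C + X.ind Cᶜ := by
  ext a b
  rw [add_adj, ind_adj, ind_adj]
  rcases z2 (X.adj a b) with h | h
  · simp [h]
  · have := fnd_both hC h
    by_cases ha : a ∈ C <;> simp [ha, ← this]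

private theorem fnd_noniso {X : Gr V} {C : Finset V} (h : X.Conn C) (h2 : 2 ≤ C.card) {x : V}
    (hx : x ∈ C) : ¬ X.Iso x := by
  obtain ⟨a, ha, b, -, -, hab⟩ := h {x} (by simpa using hx) (singleton_nonempty x)
    (by rintro rfl; simp at h2)
  rw [mem_singleton.1 ha] at hab
  exact fun hi => zero_ne_one ((hi b).symm.trans hab)

private theorem fnd_par {a b : ℕ} (h : (a : ZMod 2) = b) (hle : a ≤ b + 1) : a ≤ b := by
  have := (ZMod.natCast_eq_natCast_iff' a b 2).1 h
  omega

private theorem fnd_two {X : Gr V} {v s y : V} {Z : V → ZMod 2} (hs : X.Iso s) (hsv : s ≠ v)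
    (hyv : y ≠ v) (hZs : Z s = 0) (hZv : Z v = 0) (hZy : Z y = 1) (hvy : X.adj v y = 0) :
    (X.split v s Z).con [(v, y), (s, y)] = X.ctr v y ∧ (X.split v s Z).cnt [(v, y), (s, y)] = 2 := by
  have hys : y ≠ s := by
    rintro rfl
    exact zero_ne_one (hZs.symm.trans hZy)
  constructor
  · conv_rhs => rw [← split_ctr hs hsv hZv hZs]
    simp only [con, ctr_eq_push, push_push]
    congr 1
    funext x
    by_cases h1 : x = s
    · simp [h1, hsv]
    · by_cases h2 : x = v
      · simp [h2, hsv.symm, hys]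
      · simp [h1, h2]
  · have a1 : (X.split v s Z).adj v y = 1 := by
      simp [split_adj, hvy, hZy, hyv, hys, hsv.symm]
    have a2 : ((X.split v s Z).ctr v y).adj s y = 1 := by
      rw [Gr.symm, ctr_adj_tgt hyv.symm hsv hys.symm]
      simp [split_adj, X.symm _ s, hs y, hs v, hZy, hZs, hZv, hyv, hys, hsv, hsv.symm]
    simp only [cnt, a1, a2, ZMod.val_one]

end Pure

theorem algF_inj (hs : Sem c θ) (hn : Ok c w.length) (H : Tab) (P : List Ev) :
    Injective (ev θ w.length (algF c w H P)) :=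
  merge_inj hs hn small_po (hn.ev0_inj hs (by omega)) _

/-- One component: if no candidate is better than the collided evaluations then nothing is. -/
private theorem fnd_comp (hs : Sem c θ) (hn : Ok c w.length) {X : Tab} {C : St} {P : List Ev}
    {y s : Fin w.length} {ψ : Fin w.length → Fin w.length} {ρ : ℕ} (hsp : (s : ℕ) = sp w)
    (hE : (gr w.length X).Eul) (hC : (gr w.length X).On (st w.length C))
    (hcon : (gr w.length X).Conn (st w.length C)) (hy : y ∈ st w.length C)
    (hiso : (gr w.length X).Iso s) (hf : ∀ a b, (gr w.length X).adj a b = 1 → ψ a ≠ ψ b)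
    (hp0 : Proper (gr w.length X) (ev θ w.length (P.headD [])))
    (hρ : rk (gr w.length X) (ev θ w.length (P.headD [])) = ρ)
    (hψ0 : ∀ a b, ψ a = ψ b → ev θ w.length (P.headD []) a = ev θ w.length (P.headD []) b)
    (hctr : ∀ a ∈ st w.length C, ∀ b, ψ a = ψ b →
      ρ ≤ rk ((gr w.length X).ctr a b) (ev θ w.length (P.headD [])))
    (hmax : ∀ v, ¬ (gr w.length X).Iso v → ∀ ζ : Fin w.length → ZMod 2,
      (∀ x, ζ x = 1 → ψ x ≠ ψ v) → ζ ≠ 0 → ζ ≠ (gr w.length X).adj v → ∃ p ∈ P,
        Proper (gr w.length X) (ev θ w.length p) ∧ ρ ≤ rk (gr w.length X) (ev θ w.length p) ∧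
        (∀ a b, ev θ w.length p a = ev θ w.length p b → ψ a = ψ b) ∧
        sv (ev θ w.length p) v ζ ∉ Rg (gr w.length X) (ev θ w.length p))
    (hA : ∀ f ∈ findC c w P y C X, Proper (gr w.length X) (ev θ w.length f) →
      rk (gr w.length X) (ev θ w.length f) ≤ ρ)
    {p : Fin w.length → F} (hp : Proper (gr w.length X) p) : rk (gr w.length X) p ≤ ρ := by
  have h0 := hn.ev0_inj hs (w := w) (by omega)
  have hpar : (gr w.length X).par = (ρ : ZMod 2) := by rw [← hρ, rk_par hp0]
  by_cases hbig : (st w.length C).card ≤ ρ + 3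
  · have := rk_le_of_on hE hC hp
    exact fnd_par (by rw [rk_par hp, hpar]) (by omega)
  by_cases hfull : (gr w.length X).Full (st w.length C)
  · obtain ⟨g1, -, g3⟩ := greedy_spec hs hn hE
    have h1 := g3 _ hC hfull
    have h2 := hA _ (List.mem_cons_self ..) (proper_of_inj _ g1)
    have h3 := rk_full_le hE hC hfull ⟨y, hy⟩ hp
    omega
  exfalso
  have hni : ∀ x ∈ st w.length C, ¬ (gr w.length X).Iso x := fun x hx =>
    fnd_noniso hcon (by omega) hx
  have hsC : s ∉ st w.length C := fun h => hni s h hiso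
  have core : Core (gr w.length X) (st w.length C) y ρ :=
    ⟨hE, hC, hy, hni y hy, conn_erase (P := evs θ w.length P) hE hC hcon hy fun Z hZ h => by
      obtain ⟨q, hq, -, -, -, h4⟩ := hmax y (hni y hy) Z (fun x hx => (hf _ _ (h x hx)).symm)
        hZ.2.2.1 hZ.2.2.2
      exact ⟨_, ⟨q, hq, rfl⟩, h4⟩, by omega, hpar⟩
  set e1 := line c w [po w X] (ev0 w) (P.headD []) with he1
  have i1 : Injective (ev θ w.length e1) := line_inj hs hn small_po (.inl h0)
  have r1 : ρ ≤ rk (gr w.length X) (ev θ w.length e1) :=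
    hρ ▸ line_right_po hs hn small_po _ (List.mem_singleton_self _) hp0
  obtain ⟨b1, b2, b3, -⟩ := close_basic hs hn X C y X (genTop c w X P) i1 i1
  have cl := close_spec hs hn (z := y) (Xp := X) (gen := genTop c w X P) (ρp := ρ) hsp hE hC hsC
    i1 i1 r1 (fun v Z hv _ hZ => by
      left
      have hsv : s ≠ v := fun e => hsC (e ▸ hv)
      have hZs : zv w.length Z s = 0 := z2_ne_one.1 fun e => hsC (hZ.1 s e).1
      have hZv : zv w.length Z v = 0 := z2_ne_one.1 fun e => (hZ.1 v e).2 rfl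
      by_cases hc : ∀ x, zv w.length Z x = 1 → ψ x ≠ ψ v
      · obtain ⟨q, hq, q1, q2, q3, q4⟩ := hmax v (hni v hv) _ hc hZ.2.2.1 hZ.2.2.2
        have hq' : ∀ x, zv w.length Z x = 1 → ev θ w.length q x ≠ ev θ w.length q v :=
          fun x hx e => hc x hx (q3 _ _ e)
        refine ⟨cmp w (upd w (sp w) v) q, List.mem_append_left _ (List.mem_map_of_mem hq), ?_⟩
        rw [← hsp, ev_cmp (rep_upd w s v), comp_update, comp_id]
        exact ⟨proper_split q1 hiso hsv hZs hq',
          le_trans (by omega) (rk_split_of_not_mem q1 hiso hsv hZs hq' q4)⟩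
      · push Not at hc
        obtain ⟨x, hx, hψx⟩ := hc
        have hxv : x ≠ v := (hZ.1 x hx).2
        have hvx : (gr w.length X).adj v x = 0 := z2_ne_one.1 fun e => hf _ _ e hψx.symm
        obtain ⟨t1, t2⟩ := fnd_two hiso hsv hxv hZs hZv hx hvx
        have i2 : Injective (ev θ w.length
            (line c w [po w (ctrG w X v x)] (ev0 w) (P.headD []))) :=
          line_inj hs hn small_po (.inl h0)
        have r2 := line_right_po hs hn small_po (ev0 w) (p := P.headD [])
          (List.mem_singleton_self (po w (ctrG w X v x))) (by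
            rw [gr_ctrG]
            exact proper_ctr hp0 fun a ha _ e => hp0 _ _ ha ((hψ0 _ _ hψx.symm).trans e.symm))
        obtain ⟨l1, l2⟩ := lift_spec hs hn (splitG w X v s Z) [(v, x), (s, x)] i2
        rw [gr_ctrG] at r2
        rw [gr_splitG, t1, t2] at l2
        have r3 := hctr v hv x hψx.symm
        refine ⟨_, List.mem_append_right _ (List.mem_map_of_mem (mem_rg.2 x.2)), ?_⟩
        rw [← hsp]
        exact ⟨proper_of_inj _ l1, le_trans (by omega) l2⟩)
  have k2 := hA _ (List.mem_cons_of_mem _ (List.mem_cons_self ..)) (proper_of_inj _ b3)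
  have k3 := hA _ (List.mem_cons_of_mem _ (List.mem_cons_of_mem _ (List.mem_cons_self ..)))
  rw [hs.rkC_eq, hρ] at k3
  obtain ⟨a1, a2⟩ := algP_spec hs hn hsp hsC core hfull b1
    (fun q hq => ⟨(b2 q hq).1, r1.trans (b2 q hq).2⟩)
    (cl.imp id fun h => h.resolve_right (not_lt.2 k2))
  exact absurd (k3 (proper_of_inj _ a1)) (not_le.2 a2)

theorem algF_spec (hs : Sem c θ) (hn : Ok c w.length) {H : Tab} {φ : List ℕ}
    {ψ : Fin w.length → Fin w.length} {E : List Ev} {m : ℕ} {s : Fin w.length}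
    (hψ : Rep φ ψ) (hE : (gr w.length H).Eul)
    (hf : ∀ a b, (gr w.length H).adj a b = 1 → ψ a ≠ ψ b)
    (hsp : (s : ℕ) = sp w) (hiso : (gr w.length H).Iso s) (hne : E ≠ [])
    (hinj : ∀ e ∈ E, Injective (ev θ w.length e))
    (hm : ∀ e ∈ E, rk (gr w.length H) (ev θ w.length e ∘ ψ) = m)
    (hm' : ∀ e ∈ E, rk ((gr w.length H).push ψ) (ev θ w.length e) = m)
    (hmax : 3 * m < (gr w.length H).supp.card ∨
      ∀ y, ¬ (gr w.length H).Iso y → ∀ ζ : Fin w.length → ZMod 2,
        (∀ x, ζ x = 1 → ψ x ≠ ψ y) → ζ ≠ 0 → ζ ≠ (gr w.length H).adj y →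
        ∃ e ∈ E, sv (ev θ w.length e ∘ ψ) y ζ ∉ Rg (gr w.length H) (ev θ w.length e ∘ ψ))
    (hbetter : ∃ p : Fin w.length → F, Proper (gr w.length H) p ∧ m < rk (gr w.length H) p) :
    m < rk (gr w.length H) (ev θ w.length (algF c w H (E.map (cmp w φ)))) := by
  by_contra hle
  rw [not_lt] at hle
  obtain ⟨e0, E', rfl⟩ := List.exists_cons_of_ne_nil hne
  set P := (e0 :: E').map (cmp w φ) with hP
  have h0 := hn.ev0_inj hs (w := w) (by omega)
  have hp0e : ev θ w.length (P.headD []) = ev θ w.length e0 ∘ ψ := ev_cmp hψ e0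
  have i0 := hinj e0 (List.mem_cons_self ..)
  have hp0 : Proper (gr w.length H) (ev θ w.length (P.headD [])) := hp0e ▸ proper_comp i0 hf
  have hm0 : rk (gr w.length H) (ev θ w.length (P.headD [])) = m :=
    hp0e ▸ hm e0 (List.mem_cons_self ..)
  set cp : Fin w.length → Finset (Fin w.length) := fun a => st w.length (comp w H a) with hcp
  have cl : ∀ y, ∀ a ∈ cp y, ∀ b, (gr w.length H).adj a b = 1 → b ∈ cp y := comp_closed H
  have hA : ∀ y : Fin w.length, ∀ f ∈ findC c w P y (comp w H y) (indG w H (comp w H y)),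
      Proper ((gr w.length H).ind (cp y)) (ev θ w.length f) →
      rk ((gr w.length H).ind (cp y)) (ev θ w.length f) ≤
        rk ((gr w.length H).ind (cp y)) (ev θ w.length (P.headD [])) := by
    intro y f hfm hpr
    have m1 : ∀ a ∈ cp y, ev θ w.length (mix w (comp w H y) f (P.headD [])) a =
        ev θ w.length f a := fun a ha => by rw [ev_mix, if_pos ha]
    have m2 : ∀ a, a ∉ cp y → ev θ w.length (mix w (comp w H y) f (P.headD [])) a =
        ev θ w.length (P.headD []) a := fun a ha => by rw [ev_mix, if_neg ha]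
    have h1 : rk (gr w.length H) (ev θ w.length (mix w (comp w H y) f (P.headD []))) ≤ m := by
      refine le_trans ?_ hle
      unfold algF
      refine merge_ge_po hs hn small_po h0 (List.mem_singleton_self (po w H))
        (List.mem_cons_of_mem _ (List.mem_flatMap.2 ⟨y, mem_rg.2 y.2, ?_⟩)) fun a b hab => ?_
      · exact List.mem_map.2 ⟨f, hfm, rfl⟩
      · by_cases ha : a ∈ cp y
        · rw [m1 a ha, m1 b (cl y a ha b hab)]
          exact hpr a b (by rw [fnd_row (cl y) ha]; exact hab)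
        · rw [m2 a ha, m2 b (mt (fnd_both (cl y) hab).2 ha)]
          exact hp0 a b hab
    rw [rk_ind_add (cl y), rk_congr fun a b h => m1 a (fnd_of_ind h).1,
      rk_congr fun a b h => m2 a (mem_compl.1 (fnd_of_ind h).1), ← hm0, rk_ind_add (cl y)] at h1
    omega
  have hfil : ∀ y, (univ.filter fun a => cp a = cp y) = cp y := by
    intro y
    ext a
    rw [mem_filter]
    exact ⟨fun h => h.2 ▸ mem_comp_self H a, fun h => ⟨mem_univ _, comp_eq h⟩⟩
  have hsum : ∀ p : Fin w.length → F, rk (gr w.length H) p =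
      ∑ C ∈ univ.image cp, rk ((gr w.length H).ind C) p := by
    intro p
    rw [rk_eq_sum cp fun a b h => (comp_eq (cl a a (mem_comp_self H a) b h)).symm]
    refine sum_congr rfl fun C hC => ?_
    obtain ⟨y, -, rfl⟩ := mem_image.1 hC
    rw [hfil]
  have hEq : ∀ e ∈ e0 :: E', ∀ y, rk ((gr w.length H).ind (cp y)) (ev θ w.length e ∘ ψ) =
      rk ((gr w.length H).ind (cp y)) (ev θ w.length (P.headD [])) := by
    intro e he y
    refine (sum_eq_sum_iff_of_le (s := univ.image cp)
      (f := fun C => rk ((gr w.length H).ind C) (ev θ w.length e ∘ ψ))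
      (g := fun C => rk ((gr w.length H).ind C) (ev θ w.length (P.headD []))) fun C hC => ?_).1 ?_ _
      (mem_image_of_mem cp (mem_univ y))
    · obtain ⟨y, -, rfl⟩ := mem_image.1 hC
      rw [← ev_cmp hψ]
      refine hA y _ (List.mem_cons_of_mem _ (List.mem_cons_of_mem _ (List.mem_cons_of_mem _
        (List.mem_map_of_mem he)))) ?_
      rw [ev_cmp hψ]
      exact fnd_proper (proper_comp (hinj e he) hf) _
    · rw [← hsum, ← hsum, hm e he, hm0]
  have hEul : ∀ y : Fin w.length, (gr w.length (indG w H (comp w H y))).Eul := fun y => by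
    rw [gr_indG]; exact hE.ind (cl y)
  have hsupp : (gr w.length H).supp.card ≤ 3 * m := by
    rw [← hm0, hsum, mul_sum, card_eq_sum_card_fiberwise (f := cp) (t := univ.image cp)
      fun a _ => mem_coe.2 (mem_image_of_mem cp (mem_univ a))]
    refine sum_le_sum fun C hC => ?_
    obtain ⟨y, -, rfl⟩ := mem_image.1 hC
    obtain ⟨g1, g2, -⟩ := greedy_spec hs hn (hEul y)
    have g3 := hA y _ (List.mem_cons_self ..) (proper_of_inj _ g1)
    rw [gr_indG] at g2
    refine (card_le_card fun a ha => ?_).trans (g2.trans (Nat.mul_le_mul_left 3 g3))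
    obtain ⟨h1, h2⟩ := mem_filter.1 ha
    have h3 : a ∈ cp y := h2 ▸ mem_comp_self H a
    rw [mem_supp] at h1 ⊢
    exact fun hi => h1 fun x => by rw [← fnd_row (cl y) h3]; exact hi x
  have hmax' := hmax.resolve_left (not_lt.2 hsupp)
  obtain ⟨p, hp, hlt⟩ := hbetter
  refine absurd hlt (not_lt.2 ?_)
  rw [← hm0, hsum, hsum]
  refine sum_le_sum fun C hC => ?_
  obtain ⟨y, -, rfl⟩ := mem_image.1 hC
  have hX : gr w.length (indG w H (comp w H y)) = (gr w.length H).ind (cp y) := gr_indG ..
  have := fnd_comp hs hn (X := indG w H (comp w H y)) (C := comp w H y) (P := P) (y := y) (ψ := ψ)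
    (ρ := rk ((gr w.length H).ind (cp y)) (ev θ w.length (P.headD []))) (p := p) hsp (hEul y)
  rw [hX] at this
  refine this (on_ind _ _) ?_ (mem_comp_self H y) ?_ (fun a b h => hf a b (fnd_of_ind h).2)
    (fnd_proper hp0 _) rfl (fun a b h => by rw [hp0e]; exact congrArg (ev θ w.length e0) h) ?_ ?_ (hA y)
    (fnd_proper hp _)
  · intro S hS h1 h2
    obtain ⟨a, ha, b, hb, h3, h4⟩ := comp_conn H y S hS h1 h2
    exact ⟨a, ha, b, hb, h3, by rw [fnd_row (cl y) (hS ha)]; exact h4⟩
  · exact fun x => z2_ne_one.1 fun e => zero_ne_one ((hiso x).symm.trans (fnd_of_ind e).2)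
  · intro a ha b hab
    have h1 := rk_push_le ψ ((gr w.length H).ctr a b) (ev θ w.length e0)
    rw [push_ctr _ hab, hm' e0 (List.mem_cons_self ..), ← hp0e, ← hm0, rk_ind_add (cl y)] at h1
    have h2 : (gr w.length H).ctr a b =
        ((gr w.length H).ind (cp y)).ctr a b + (gr w.length H).ind (cp y)ᶜ := by
      conv_lhs => rw [fnd_split (cl y)]
      rw [ctr_add, ctr_of_iso (X := (gr w.length H).ind (cp y)ᶜ)
        fun x => z2_ne_one.1 fun e => mem_compl.1 (fnd_of_ind e).1 ha]
    rw [h2] at h1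
    have h3 := h1.trans (rk_add_le _ _ _)
    omega
  · intro v hv ζ z1 z2' z3
    have hvC : v ∈ cp y := by
      by_contra h
      exact hv fun x => z2_ne_one.1 fun e => h (fnd_of_ind e).1
    rw [fnd_row (cl y) hvC] at z3
    obtain ⟨e, he, h⟩ := hmax' v (fun hi => hv fun x => by
      rw [fnd_row (cl y) hvC]; exact hi x) ζ z1 z2' z3
    refine ⟨cmp w φ e, List.mem_map_of_mem he, ?_⟩
    rw [ev_cmp hψ]
    exact ⟨fnd_proper (proper_comp (hinj e he) hf) _, (hEq e he y).ge,
      fun a b h => hinj e he h, fun h' => h (Rg_ind_le (cl y) _ h')⟩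

end Pool.Agent.MP_bae0ed_lc.H52
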