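import Pool.Agent.MP_bae0ed_lc.H52.Line
import Pool.Agent.MP_bae0ed_lc.H52.Dbl

/-!
The dual form on four collinear points does not depend on a point off the line.
-/

set_option autoImplicit false
set_option linter.unusedSectionVars false

namespace Pool.Agent.MP_bae0ed_lc.H52

open Finset Matrix Function Module Gr

section Abstract

variable {V V' : Type} [DecidableEq V] [DecidableEq V'] [Fintype V] [Fintype V']
variable {F : Type} [Field F] [CharP F 2] {ι₁ ι₂ : V → V'}

theorem specI_dbl (X : Gr V) (a b u : V) :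
    dbl ι₁ ι₂ X X + tri (ι₁ a) (ι₁ b) (ι₁ u) = dbl ι₁ ι₂ (X + tri a b u) X := by
  simp only [dbl, push_add, push_tri]
  abel

theorem specI_step {D : Finset V} (hg : Glue ι₁ ι₂ D) {X : Gr V} (hE : X.Eul) {a b u u' : V}
    (ha : a ∈ D) (hb : b ∈ D) (hu' : u' ∉ D) (hne : u' ≠ u) (hiso : ¬ X.Iso u') {q : V' → F}
    (h1 : Injective (q ∘ ι₁)) (h2 : Injective (q ∘ ι₂)) (h12 : ∀ v, v ≠ u → q (ι₁ v) = q (ι₂ v)) :
    ∃ v, X.adj u' v = 1 ∧ v ≠ u ∧ rk (dbl ι₁ ι₂ (X + tri a b u) X) q ≤
      rk (dbl ι₁ ι₂ (X.ctr u' v + tri a b u) (X.ctr u' v)) q + 2 := by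
  have ht : ∀ z, (tri a b u).adj u' z = 0 :=
    tri_adj_of_not_mem (fun e => hu' (e ▸ ha)) (fun e => hu' (e ▸ hb)) hne
  have hadj : ∀ z, (X + tri a b u).adj u' z = X.adj u' z := fun z => by
    rw [add_adj, ht, add_zero]
  have hnb : (X + tri a b u).nbr u' = X.nbr u' := by
    ext z; simp only [mem_nbr, hadj]
  have hne0 : (X.nbr u').Nonempty := by
    obtain ⟨z, hz⟩ := not_forall.1 hiso
    exact ⟨z, mem_nbr.2 (z2_ne_zero.1 hz)⟩
  have n1 := hg.nbr_left (X + tri a b u) X hu'
  have n2 := hg.nbr_right (X + tri a b u) X hu'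
  rw [hnb] at n1
  have key := count_bad₂ (X := dbl ι₁ ι₂ (X + tri a b u) X) (p := q)
    (eul_dbl (hE.add (eul_tri a b u)) hE) (proper_dbl (proper_of_inj _ h1) (proper_of_inj _ h2))
    (u₁ := ι₁ u') (u₂ := ι₂ u') (fun e => hu' (hg.ne _ _ e).2) (by
      rw [← z2_ne_one, Ne, ← mem_nbr, n1]
      intro hm
      obtain ⟨z, -, hz⟩ := mem_image.1 hm
      obtain ⟨e, hz'⟩ := hg.ne _ _ hz
      exact hu' (e ▸ hz')) (h12 u' hne) (by
      rw [n1]
      intro s hs t ht e
      obtain ⟨z, -, rfl⟩ := mem_image.1 hs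
      obtain ⟨z', -, rfl⟩ := mem_image.1 ht
      rw [h1 e]) (by
      rw [n2]
      intro s hs t ht e
      obtain ⟨z, -, rfl⟩ := mem_image.1 hs
      obtain ⟨z', -, rfl⟩ := mem_image.1 ht
      rw [h2 e]) (n1 ▸ hne0.image _) (n2 ▸ hne0.image _) ((X.nbr u').erase u) ι₁ ι₂
    (fun i hi => by rw [hg.adj_left _ _ hu', hadj]; exact mem_nbr.1 (mem_of_mem_erase hi))
    (fun i hi => by rw [hg.adj_right _ _ hu']; exact mem_nbr.1 (mem_of_mem_erase hi))
    (fun i hi => h12 i (ne_of_mem_erase hi)) hg.inj₁.injOn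
  rw [n1, n2, card_image_of_injective _ hg.inj₁, card_image_of_injective _ hg.inj₂] at key
  by_contra hcon
  push Not at hcon
  rw [filter_true_of_mem] at key
  · have := pred_card_le_card_erase (s := X.nbr u') (a := u)
    omega
  · intro i hi
    rw [hg.ctr_left _ _ hu', hg.ctr_right _ _ hu', ctr_add, ctr_of_iso ht]
    exact hcon i (mem_nbr.1 (mem_of_mem_erase hi)) (ne_of_mem_erase hi)

theorem specI_par {n : ℕ} {ρ : ℤ} (h : (n : ZMod 2) = (ρ : ZMod 2)) : (n : ℤ) % 2 = ρ % 2 := by
  have : ((n : ℤ) : ZMod 2) = (ρ : ZMod 2) := by exact_mod_cast h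
  exact (ZMod.intCast_eq_intCast_iff' _ _ 2).1 this

theorem specI_base {a b x y u : V} (hg : Glue ι₁ ι₂ {a, b, x, y}) {X : Gr V} (hE : X.Eul)
    (hab : a ≠ b) (hax : a ≠ x) (hay : a ≠ y) (hbx : b ≠ x) (hby : b ≠ y) (hxy : x ≠ y)
    (hu : u ∉ ({a, b, x, y} : Finset V)) (hOn : X.On (insert u {a, b, x, y})) {q : V' → F}
    (h1 : Injective (q ∘ ι₁)) (h2 : Injective (q ∘ ι₂)) {ρ : ℤ} (hpar : X.par = (ρ : ZMod 2))
    (hr : 2 * ρ - 1 ≤ rk (dbl ι₁ ι₂ (X + tri a b u) X) q) :
    ρ + 1 ≤ rk (X + tri a b x) (q ∘ ι₁) ∨ ρ + 1 ≤ rk (X + tri a b y) (q ∘ ι₁) := by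
  set p := q ∘ ι₁ with hp
  have e0 : (rk X p : ℤ) % 2 = ρ % 2 := specI_par (by rw [rk_par (proper_of_inj _ h1), hpar])
  have e1 : (rk (X + tri a b x) p : ℤ) % 2 = (ρ + 1) % 2 := specI_par (by
    rw [rk_par (proper_of_inj _ h1), par_add, par_tri hab hax hbx, hpar]; push_cast; rfl)
  have e2 : (rk (X + tri a b y) p : ℤ) % 2 = (ρ + 1) % 2 := specI_par (by
    rw [rk_par (proper_of_inj _ h1), par_add, par_tri hab hay hby, hpar]; push_cast; rfl)
  have hEZ := eul_dbl (ι₁ := ι₁) (ι₂ := ι₂) (hE.add (eul_tri a b u)) hE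
  have hPZ : Proper (dbl ι₁ ι₂ (X + tri a b u) X) q :=
    proper_dbl (proper_of_inj _ h1) (proper_of_inj _ h2)
  by_cases c1 : ρ ≤ 0
  · left; omega
  by_cases c2 : ρ = 1
  · by_cases z1 : X + tri a b x = 0
    · by_cases z2 : X + tri a b y = 0
      · exfalso
        have k1 := congrArg (fun Y : Gr V => Y.adj a x) z1
        have k2 := congrArg (fun Y : Gr V => Y.adj a x) z2
        simp only [add_adj, zero_adj, tri_adj hab hax hbx, tri_adj hab hay hby] at k1 k2
        simp [hax, hax.symm, hbx.symm, hxy] at k1 k2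
        rw [k2] at k1
        exact absurd k1 (by decide)
      · have := rk_pos (proper_of_inj _ h1) z2
        right; omega
    · have := rk_pos (proper_of_inj _ h1) z1
      left; omega
  have hOnZ : (dbl ι₁ ι₂ (X + tri a b u) X).On (insert (ι₂ u) ((insert u {a, b, x, y} : Finset V).image ι₁)) := by
    refine On.add (((hOn.add (on_tri (by simp) (by simp) (by simp))).push ι₁).mono (subset_insert _ _))
      ((hOn.push ι₂).mono fun z hz => ?_)
    obtain ⟨v, hv, rfl⟩ := mem_image.1 hz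
    rcases mem_insert.1 hv with rfl | hv'
    · exact mem_insert_self _ _
    · rw [← hg.eq v hv']
      exact mem_insert_of_mem (mem_image_of_mem _ hv)
  have hcD : ({a, b, x, y} : Finset V).card = 4 := by
    rw [card_insert_of_notMem (by simp [hab, hax, hay]), card_insert_of_notMem (by simp [hbx, hby]),
      card_pair hxy]
  have h6 := rk_le_of_on hEZ hOnZ hPZ
  have h7 := card_insert_le (ι₂ u) ((insert u {a, b, x, y} : Finset V).image ι₁)
  have h8 := card_image_le (s := (insert u {a, b, x, y} : Finset V)) (f := ι₁)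
  have h9 := card_insert_le u ({a, b, x, y} : Finset V)
  have hρ : ρ = 2 := by omega
  have hiso : ¬ X.Iso u := by
    intro hi
    have hD : X.On {a, b, x, y} := fun s t hst => by
      rcases mem_insert.1 (hOn s t hst) with rfl | h
      · rw [hi t] at hst; exact absurd hst (by decide)
      · exact h
    rw [hg.dbl_of_on _ hD, add_right_comm, add_self, zero_add] at hr
    have k1 : _ ≤ rk (tri a b u) p := rk_push_le ι₁ (tri a b u) q
    have k2 := rk_le_of_on (S := {a, b, u}) (eul_tri a b u) (on_tri (by simp) (by simp) (by simp))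
      (proper_of_inj (tri a b u) h1)
    have k3 : ({a, b, u} : Finset V).card ≤ 3 := card_le_three
    omega
  obtain ⟨z, hz⟩ := not_forall.1 hiso
  have hz1 : X.adj u z = 1 := z2_ne_zero.1 hz
  have hX0 : X ≠ 0 := by
    rintro rfl
    exact hz rfl
  have k0 := rk_pos (proper_of_inj X h1) hX0
  have pab : p a ≠ p b := fun e => hab (h1 e)
  have pax : p a ≠ p x := fun e => hax (h1 e)
  have pay : p a ≠ p y := fun e => hay (h1 e)
  have pbx : p b ≠ p x := fun e => hbx (h1 e)
  have pby : p b ≠ p y := fun e => hby (h1 e)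
  by_cases t1 : tv p a b x ∈ Rg X p
  · by_cases t2 : tv p a b y ∈ Rg X p
    · have k1 : RS p {a, b, x, y} ≤ Rg X p := RS_le (a := a) (b := b) (by simp) (by simp) pab
        (fun s _ hs e => hs (h1 e).symm) (fun s hs hsa hsb => by
          simp only [mem_insert, mem_singleton, hsa, hsb, false_or] at hs
          rcases hs with rfl | rfl
          exacts [t1, t2])
      have k2 : sv p z (X.adj z) ∉ RS p {a, b, x, y} := fun hm => by
        have k3 := hm.1 u hu
        have huz := ne_of_adj hz1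
        have k4 : p u + p z ≠ 0 := fun e => huz (h1 (CharTwo.add_eq_zero.1 e))
        simp only [sv, if_neg huz, add_zero, X.symm z u, hz1, map_one, one_mul] at k3
        exact inv_ne_zero k4 k3
      have k5 : RS p {a, b, x, y} < Rg X p :=
        lt_of_le_of_ne k1 fun e => k2 (e ▸ sv_row_mem X p z)
      have k6 := Submodule.finrank_lt_finrank_of_lt k5
      have k7 := finrank_RS (S := {a, b, x, y}) (a := a) (b := b) (by simp) (by simp) pab
      have k8 := rk_add_tri_of_mem X pab pax pbx t1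
      rw [← rk_eq] at k6
      left; omega
    · have := rk_add_tri_of_not_mem X pab pay pby t2
      right; omega
  · have := rk_add_tri_of_not_mem X pab pax pbx t1
    left; omega

end Abstract

variable {c : Ctx} {F : Type} [Field F] [CharP F 2] {θ : Fe → F} {w : Un}

theorem specI_st (a b x y : Fin w.length) :
    st w.length (sett w (inD ((a : ℕ), (b : ℕ), (x : ℕ), (y : ℕ)))) = {a, b, x, y} := by
  ext z
  simp [mem_st, bt_sett, inD, Fin.val_inj, or_assoc]

theorem specI_rk (hs : Sem c θ) (a b x y u : Fin w.length) (h h' : Ev) (X : Tab) :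
    rkI c w (a, b, x, y) u h h' X =
      rk (dbl (i1 w) (i2 w (sett w (inD ((a : ℕ), (b : ℕ), (x : ℕ), (y : ℕ)))))
        (gr w.length X + tri a b u) (gr w.length X)) (ev θ (w ++ w).length (app w h h')) := by
  rw [← specI_dbl, ← gr_dblG, ← gr_addTri, ← hs.rkC_eq]
  rfl

theorem algI_spec (hs : Sem c θ) (hn : Ok c w.length) {X : Tab} {a b x y u : Fin w.length}
    {h h' : Ev} {ρ : ℤ} (hE : (gr w.length X).Eul)
    (hab : a ≠ b) (hax : a ≠ x) (hay : a ≠ y) (hbx : b ≠ x) (hby : b ≠ y) (hxy : x ≠ y)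
    (hu : u ∉ ({a, b, x, y} : Finset (Fin w.length)))
    (h1 : Injective (ev θ w.length h)) (h2 : Injective (ev θ w.length h'))
    (h12 : ∀ v, v ≠ u → ev θ w.length h v = ev θ w.length h' v)
    (hpar : (gr w.length X).par = (ρ : ZMod 2))
    (hr : 2 * ρ - 1 ≤ rkI c w (a, b, x, y) u h h' X) :
    Injective (ev θ w.length (algI c w (a, b, x, y) u h h' X)) ∧
      (ρ + 1 ≤ rk (gr w.length X + tri a b x) (ev θ w.length (algI c w (a, b, x, y) u h h' X)) ∨
        ρ + 1 ≤ rk (gr w.length X + tri a b y) (ev θ w.length (algI c w (a, b, x, y) u h h' X))) := by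
  set D : St := sett w (inD ((a : ℕ), (b : ℕ), (x : ℕ), (y : ℕ))) with hD
  have hg : Glue (i1 w) (i2 w D) {a, b, x, y} := specI_st a b x y ▸ glue_i w D
  have hin : ∀ z : Fin w.length, inD ((a : ℕ), (b : ℕ), (x : ℕ), (y : ℕ)) z = true ↔
      z ∈ ({a, b, x, y} : Finset (Fin w.length)) := fun z => by
    rw [← specI_st, mem_st, bt_sett]
  have q1 : ev θ (w ++ w).length (app w h h') ∘ i1 w = ev θ w.length h := ev_app_i1 w h h'
  have q2 : ev θ (w ++ w).length (app w h h') ∘ i2 w D = ev θ w.length h' := by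
    funext z
    rw [Function.comp_apply, ev_app_i2]
    split_ifs with hz
    · refine h12 z fun e => hu ?_
      rw [hD, bt_sett, hin] at hz
      exact e ▸ hz
    · rfl
  have hok : ∀ T (s v : Fin w.length), okI c w (a, b, x, y) u h h' T (s, v) = true ↔
      s ∉ ({a, b, x, y} : Finset (Fin w.length)) ∧ s ≠ u ∧ (gr w.length T).adj s v = 1 ∧ v ≠ u ∧
        rkI c w (a, b, x, y) u h h' T ≤ rkI c w (a, b, x, y) u h h' (ctrG w T s v) + 2 := fun T s v => by
    simp only [okI, Bool.and_eq_true, Bool.not_eq_true', decide_eq_false_iff_not, decide_eq_true_eq,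
      Fin.val_inj, ad_iff, ← hin, Bool.not_eq_true, and_assoc, ne_eq]
  refine grun_spec (γ := ℤ)
    (fun T g => (gr w.length T).Eul ∧ (gr w.length T).par = (g : ZMod 2) ∧
      2 * g - 1 ≤ rkI c w (a, b, x, y) u h h' T)
    (fun T g f => Injective (ev θ w.length f) ∧
      (g + 1 ≤ rk (gr w.length T + tri a b x) (ev θ w.length f) ∨
        g + 1 ≤ rk (gr w.length T + tri a b y) (ev θ w.length f)))
    (fun T s v hsv => ad_iff.2 ((hok T s v).1 hsv).2.2.1) ?_ ?_ ⟨hE, hpar, hr⟩
  · rintro T g s v ⟨i1, i2, i3⟩ hsv -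
    obtain ⟨o1, o2, o3, o4, o5⟩ := (hok T s v).1 hsv
    refine ⟨g - 1, ⟨by rw [gr_ctrG]; exact i1.ctr s v, ?_, by omega⟩, ?_⟩
    · rw [gr_ctrG, par_ctr, i2, o3]
      push_cast
      rw [sub_eq_add_neg]; rfl
    · rintro f ⟨f1, f2⟩
      have hsm : Small w.length w [po w (addTri w T a b x), po w (addTri w T a b y)] := by
        refine ⟨by omega, ?_, ?_⟩
        · have : 1 ≤ (w.length + 1) ^ 4 := Nat.one_le_pow _ _ (by omega)
          simp only [List.length_cons, List.length_nil]; omega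
        · intro o ho
          simp only [List.mem_cons, List.not_mem_nil, or_false] at ho
          rcases ho with rfl | rfl <;> simp only [po] <;> omega
      have hgm : gm (rg w) s = s := rep_rg w s
      rw [hgm]
      dsimp only
      have sa : s ≠ a := fun e => o1 (by simp [e])
      have sb : s ≠ b := fun e => o1 (by simp [e])
      have sx : s ≠ x := fun e => o1 (by simp [e])
      have sy : s ≠ y := fun e => o1 (by simp [e])
      refine ⟨reval_inj hs hn hsm f1 _, ?_⟩
      rw [gr_ctrG] at f2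
      rcases f2 with f2 | f2
      · have k := reval_ctr_po hs hn hsm f1 (Y := addTri w T a b x) (by simp) s v
        rw [gr_addTri, ctr_add, ctr_of_iso (tri_adj_of_not_mem sa sb sx), add_adj, o3,
          tri_adj_of_not_mem sa sb sx, add_zero, ZMod.val_one] at k
        left; omega
      · have k := reval_ctr_po hs hn hsm f1 (Y := addTri w T a b y) (by simp) s v
        rw [gr_addTri, ctr_add, ctr_of_iso (tri_adj_of_not_mem sa sb sy), add_adj, o3,
          tri_adj_of_not_mem sa sb sy, add_zero, ZMod.val_one] at k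
        right; omega
  · rintro T g ⟨i1, i2, i3⟩ hT
    refine ⟨h1, ?_⟩
    rw [specI_rk hs] at i3
    rw [← q1]
    refine specI_base hg i1 hab hax hay hbx hby hxy hu (fun s t hst => ?_) (q1 ▸ h1) (q2 ▸ h2) i2 i3
    by_contra hcon
    rw [mem_insert, not_or] at hcon
    obtain ⟨v, v1, v2, v3⟩ := specI_step hg i1 (a := a) (b := b) (by simp) (by simp) hcon.2 hcon.1
      (fun hi => by rw [hi t] at hst; exact absurd hst (by decide)) (q1 ▸ h1) (q2 ▸ h2)
      (fun v hv => by
        have e1 := congrFun q1 v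
        have e2 := congrFun q2 v
        simp only [Function.comp_apply] at e1 e2
        rw [e1, e2, h12 v hv])
    have := (hok T s v).2 ⟨hcon.2, hcon.1, v1, v2, by
      rw [specI_rk hs, specI_rk hs, gr_ctrG]; exact v3⟩
    rw [hT s v] at this
    exact absurd this (by decide)

end Pool.Agent.MP_bae0ed_lc.H52
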