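import Pool.Agent.MP_bae0ed_lc.H52.SpecCA
import Pool.Agent.MP_bae0ed_lc.H52.SpecClose

/-!
All sets of four points become independent.
-/

set_option autoImplicit false
set_option linter.unusedSectionVars false

namespace Pool.Agent.MP_bae0ed_lc.H52

open Finset Matrix Function Module Gr

/-- The shape of the graphs on the contraction path. -/
structure Core {V : Type} [DecidableEq V] [Fintype V] (X : Gr V) (C : Finset V) (z : V) (ρ : ℕ) :
    Prop where
  eul : X.Eul
  ons : X.On C
  zC : z ∈ C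
  zn : ¬ X.Iso z
  conn : X.Conn (C.erase z)
  big : ρ + 4 ≤ C.card
  par : X.par = (ρ : ZMod 2)

/-- All triples and quadruples of points of `C` are independent at `p`. -/
def Ind4 {V F : Type} [DecidableEq V] [Fintype V] [Field F] [CharP F 2] (X : Gr V) (C : Finset V)
    (ρ : ℕ) (p : V → F) : Prop :=
  (∀ a ∈ C, ∀ b ∈ C, ∀ x ∈ C, a ≠ b → a ≠ x → b ≠ x → ρ + 1 ≤ rk (X + tri a b x) p) ∧
    ∀ a ∈ C, ∀ b ∈ C, ∀ x ∈ C, ∀ y ∈ C, a ≠ b → a ≠ x → a ≠ y → b ≠ x → b ≠ y → x ≠ y →
      ρ + 2 ≤ rk (X + tri a b x + tri a b y) p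

section Abstract

variable {V F : Type} [DecidableEq V] [Fintype V] [Field F] [CharP F 2]
variable {X : Gr V} {C : Finset V} {z : V} {ρ : ℕ}

/-- No vertex of `C` is isolated. -/
theorem Core.ind_sub (h : Core X C z ρ) {l : Finset V} (hl : X.On l) : C ⊆ l := by
  intro v hv
  by_cases hvz : v = z
  · subst hvz
    have h1 := h.zn
    simp only [Iso, not_forall] at h1
    obtain ⟨x, hx⟩ := h1
    exact hl _ x (z2_ne_zero.1 hx)
  · have hcard : 3 ≤ (C.erase z).card := by
      rw [Finset.card_erase_of_mem h.zC]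
      have := h.big
      omega
    obtain ⟨a, ha, b, -, -, hab⟩ := h.conn {v} (by simp [hv, hvz]) (by simp) (by
      intro e
      rw [← e] at hcard
      simp at hcard)
    rw [Finset.mem_singleton] at ha
    exact hl _ b (ha ▸ hab)

/-- A proper nonzero Eulerian graph has a row that is a nontrivial set. -/
theorem Core.ind_nt (h : Core X C z ρ) {Y : Gr V} (hE : Y.Eul) (hC : Y.On C) (h0 : Y ≠ 0)
    (hX : Y ≠ X) : ∃ v ∈ C, v ≠ z ∧ Nt X C v (Y.adj v) := by
  by_contra hcon
  have key : ∀ v ∈ C, v ≠ z → Y.adj v ≠ 0 → Y.adj v = X.adj v := by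
    intro v hv hvz hne
    by_contra hh
    exact hcon ⟨v, hv, hvz, fun x hx => ⟨hC.right hx, (ne_of_adj hx).symm⟩, hE v, hne, hh⟩
  set S : Finset V := (C.erase z).filter fun v => Y.adj v ≠ 0 with hS
  have memS : ∀ a b, Y.adj a b = 1 → a ≠ z → a ∈ S := by
    intro a b hab haz
    simp only [hS, Finset.mem_filter, Finset.mem_erase]
    refine ⟨⟨haz, hC a b hab⟩, fun e => ?_⟩
    rw [e] at hab
    exact zero_ne_one hab
  have hne : S.Nonempty := by
    have : ∃ a b, Y.adj a b = 1 := by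
      by_contra hh
      push Not at hh
      exact h0 (by ext a b; exact z2_ne_one.1 (hh a b))
    obtain ⟨a, b, hab⟩ := this
    by_cases haz : a = z
    · have hba : Y.adj b a = 1 := by rw [Y.symm]; exact hab
      exact ⟨b, memS b a hba (by rw [← haz]; exact (ne_of_adj hab).symm)⟩
    · exact ⟨a, memS a b hab haz⟩
  have hall : S = C.erase z := by
    by_contra hh
    obtain ⟨a, ha, b, hb, hbS, hab⟩ := h.conn S (Finset.filter_subset _ _) hne hh
    simp only [hS, Finset.mem_filter, Finset.mem_erase] at ha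
    have h1 : Y.adj a b = 1 := by rw [key a ha.1.2 ha.1.1 ha.2]; exact hab
    exact hbS (memS b a (by rw [Y.symm]; exact h1) (Finset.mem_erase.1 hb).1)
  have row : ∀ a, a ≠ z → Y.adj a = X.adj a := by
    intro a haz
    by_cases ha : a ∈ C
    · have : a ∈ S := by rw [hall]; exact Finset.mem_erase.2 ⟨haz, ha⟩
      exact key a ha haz (Finset.mem_filter.1 this).2
    · funext b
      rw [z2_ne_one.1 fun e => ha (hC a b e), z2_ne_one.1 fun e => ha (h.ons a b e)]
  apply hX
  ext a b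
  by_cases haz : a = z
  · by_cases hbz : b = z
    · rw [haz, hbz, Y.irr, X.irr]
    · rw [Y.symm, X.symm, row b hbz]
  · rw [row a haz]

theorem Core.ind_kill (h : Core X C z ρ) {P : Set (V → F)} (hP : ∀ p ∈ P, ρ ≤ rk X p)
    (hK : ∀ y ∈ C, y ≠ z → Kill X C P y) {Y : Gr V} {l : Finset V} (hE : Y.Eul) (hl : Y.On l)
    (hlC : l ⊆ C) (hc : l.card ≤ ρ + 3) (h0 : Y ≠ 0) :
    ∃ p ∈ P, ρ < rk (X + Y) p + rk Y p := by
  have hX : Y ≠ X := by
    rintro rfl
    have h1 := Finset.card_le_card (h.ind_sub hl)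
    have h2 := h.big
    omega
  obtain ⟨v, hv, hvz, hnt⟩ := h.ind_nt hE (hl.mono hlC) h0 hX
  obtain ⟨p, hp, hs⟩ := hK v hv hvz _ hnt
  refine ⟨p, hp, ?_⟩
  by_contra hh
  exact hs (Rg_le_of_tight (le_trans (not_lt.1 hh) (hP p hp)) (sv_row_mem Y p v))

theorem ind_parity {m k : ℕ} (h : (m : ZMod 2) = (k : ZMod 2)) : m % 2 = k % 2 :=
  (ZMod.natCast_eq_natCast_iff' m k 2).1 h

theorem ind_card3 {a b x : V} (hab : a ≠ b) (hax : a ≠ x) (hbx : b ≠ x) :
    ({a, b, x} : Finset V).card = 3 := Finset.card_eq_three.2 ⟨a, b, x, hab, hax, hbx, rfl⟩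

theorem ind_rk_tri {p : V → F} (hp : Injective p) {a b x : V} (hab : a ≠ b) (hax : a ≠ x)
    (hbx : b ≠ x) : rk (tri a b x) p ≤ 1 := by
  have h1 := rk_le_of_on (eul_tri a b x) (S := {a, b, x}) (on_tri (by simp) (by simp) (by simp))
    (proper_of_inj _ hp)
  rw [ind_card3 hab hax hbx] at h1
  exact h1

theorem ind_tri_ne {a b x : V} (hab : a ≠ b) (hax : a ≠ x) (hbx : b ≠ x) : tri a b x ≠ 0 := by
  intro e
  have h1 := par_tri hab hax hbx
  rw [e, par_zero] at h1
  exact zero_ne_one h1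

theorem Core.ind_par (h : Core X C z ρ) {a b x : V} (hab : a ≠ b) (hax : a ≠ x) (hbx : b ≠ x) :
    (X + tri a b x).par = ((ρ + 1 : ℕ) : ZMod 2) := by
  rw [par_add, h.par, par_tri hab hax hbx]
  simp

/-- Every triangle is independent at some evaluation. -/
theorem Core.ind_tri (h : Core X C z ρ) {P : Set (V → F)}
    (hP : ∀ p ∈ P, Injective p ∧ ρ ≤ rk X p) (hK : ∀ y ∈ C, y ≠ z → Kill X C P y) {a b x : V}
    (ha : a ∈ C) (hb : b ∈ C) (hx : x ∈ C) (hab : a ≠ b) (hax : a ≠ x) (hbx : b ≠ x) :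
    ∃ p ∈ P, ρ + 1 ≤ rk (X + tri a b x) p := by
  obtain ⟨p, hp, hr⟩ := h.ind_kill (fun p hp => (hP p hp).2) hK (eul_tri a b x) (l := {a, b, x})
    (on_tri (by simp) (by simp) (by simp))
    (by simp [Finset.insert_subset_iff, ha, hb, hx]) (by rw [ind_card3 hab hax hbx]; omega)
    (ind_tri_ne hab hax hbx)
  refine ⟨p, hp, ?_⟩
  have h1 := ind_rk_tri (hP p hp).1 hab hax hbx
  have h2 := rk_par (proper_of_inj (X + tri a b x) (hP p hp).1)
  rw [h.ind_par hab hax hbx] at h2
  have h3 := ind_parity h2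
  omega

/-- The points that look collinear are collinear. -/
theorem ind_line {Y : Gr V} (hY : Y.On C) {p : V → F} (hp : Injective p) {a b : V} (ha : a ∈ C)
    (hb : b ∈ C) (hab : a ≠ b) {l : Finset V} (hal : a ∈ l) (hbl : b ∈ l)
    (hl : ∀ v ∈ l, v ≠ a → v ≠ b → rk (Y + tri a b v) p ≤ rk Y p) :
    l ⊆ C ∧ l.card ≤ rk Y p + 2 := by
  have key : ∀ v ∈ l, v ≠ a → v ≠ b → tv p a b v ∈ Rg Y p := by
    intro v hv hva hvb
    by_contra hh
    have h1 := rk_add_tri_of_not_mem Y (hp.ne hab) (hp.ne hva.symm) (hp.ne hvb.symm) hh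
    have h2 := hl v hv hva hvb
    omega
  constructor
  · intro v hv
    by_contra hvC
    have hva : v ≠ a := fun e => hvC (e ▸ ha)
    have hvb : v ≠ b := fun e => hvC (e ▸ hb)
    have hiso : Y.Iso v := fun x => z2_ne_one.1 fun e => hvC (hY v x e)
    exact tv_apply (hp.ne hva.symm) hvb.symm (apply_eq_zero_of_iso hiso (key v hv hva hvb))
  · have h1 : RS p l ≤ Rg Y p :=
      RS_le hal hbl (hp.ne hab) (fun x _ hx => hp.ne hx.symm) key
    have h2 := Submodule.finrank_mono h1
    rw [← finrank_RS hal hbl (hp.ne hab), rk_eq]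
    omega

/-- The hypothesis on the collapsed graph. -/
theorem Core.ind_col (h : Core X C z ρ) {P : Set (V → F)}
    (hP : ∀ p ∈ P, Injective p ∧ ρ ≤ rk X p) (hK : ∀ y ∈ C, y ≠ z → Kill X C P y)
    {l : Finset V} (hlC : l ⊆ C) (hc : l.card ≤ ρ + 3) (h4 : 4 ≤ l.card) {a b x : V}
    (ha : a ∈ l) (hb : b ∈ l) (hx : x ∈ l) (hab : a ≠ b) (hax : a ≠ x) (hbx : b ≠ x)
    {Y : Gr V} (hE : Y.Eul) (hl : Y.On l) {e : V → F} (he : Injective e)
    (hr : rk Y e + 2 = l.card) : ∃ p ∈ P, ρ + 1 + 3 ≤ rk (X + tri a b x + Y) p + l.card := by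
  have hE1 : (tri a b x + Y).Eul := (eul_tri a b x).add hE
  have hl1 : (tri a b x + Y).On l := (on_tri ha hb hx).add hl
  have h0 : tri a b x + Y ≠ 0 := by
    intro e0
    have h1 : Y = tri a b x := by
      calc Y = (tri a b x + tri a b x) + Y := by rw [add_self, zero_add]
        _ = tri a b x + (tri a b x + Y) := by rw [add_assoc]
        _ = tri a b x := by rw [e0, add_zero]
    have h2 := ind_rk_tri he hab hax hbx
    rw [← h1] at h2
    omega
  obtain ⟨p, hp, hlt⟩ := h.ind_kill (fun p hp => (hP p hp).2) hK hE1 hl1 hlC hc h0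
  refine ⟨p, hp, ?_⟩
  have h1 := rk_le_of_on hE1 hl1 (proper_of_inj _ (hP p hp).1)
  have h2 := rk_par (proper_of_inj (tri a b x + Y) (hP p hp).1)
  rw [par_add, par_tri hab hax hbx, ← rk_par (proper_of_inj Y he)] at h2
  have h3 := ind_parity (m := rk (tri a b x + Y) p) (k := 1 + rk Y e) (by rw [h2]; simp)
  rw [add_assoc X]
  omega

/-- The dependent quadruples. -/
def indBad (X : Gr V) (C : Finset V) (ρ : ℕ) (p : V → F) (D : V × V × V × V) : Prop :=
  D.1 ∈ C ∧ D.2.1 ∈ C ∧ D.2.2.1 ∈ C ∧ D.2.2.2 ∈ C ∧ D.1 ≠ D.2.1 ∧ D.1 ≠ D.2.2.1 ∧ D.1 ≠ D.2.2.2 ∧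
    D.2.1 ≠ D.2.2.1 ∧ D.2.1 ≠ D.2.2.2 ∧ D.2.2.1 ≠ D.2.2.2 ∧
    rk (X + tri D.1 D.2.1 D.2.2.1 + tri D.1 D.2.1 D.2.2.2) p < ρ + 2

end Abstract

variable {c : Ctx} {F : Type} [Field F] [CharP F 2] {θ : Fe → F} {w : Un}

theorem ind_small (X : Tab) : Small w.length w (obj4 w X) := by
  refine ⟨by omega, ?_, ?_⟩
  · simp only [obj4, List.length_cons, List.length_append, List.length_map, length_triples,
      length_quads]
    have h1 : w.length ^ 3 ≤ (w.length + 1) ^ 4 :=
      (Nat.pow_le_pow_left (Nat.le_succ _) 3).trans (Nat.pow_le_pow_right (Nat.succ_pos _) (by omega))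
    have h2 : w.length ^ 4 ≤ (w.length + 1) ^ 4 := Nat.pow_le_pow_left (Nat.le_succ _) 4
    have h3 : 1 ≤ (w.length + 1) ^ 4 := Nat.one_le_pow _ _ (Nat.succ_pos _)
    omega
  · intro o ho
    simp only [obj4, List.mem_cons, List.mem_append, List.mem_map] at ho
    rcases ho with (rfl | ⟨t, -, rfl⟩) | ⟨t, -, rfl⟩ <;> simp only [po] <;> omega

theorem ind_mem1 (X : Tab) : po w X ∈ obj4 w X := by simp [obj4]

theorem ind_mem3 (X : Tab) (a b x : Fin w.length) : po w (addTri w X a b x) ∈ obj4 w X := by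
  simp only [obj4, List.mem_cons, List.mem_append, List.mem_map]
  exact Or.inl (Or.inr ⟨((a : ℕ), (b : ℕ), (x : ℕ)), mem_triples.2 ⟨a.2, b.2, x.2⟩, rfl⟩)

theorem ind_mem4 (X : Tab) (a b x y : Fin w.length) :
    po w (addTri w (addTri w X a b x) a b y) ∈ obj4 w X := by
  simp only [obj4, List.mem_cons, List.mem_append, List.mem_map]
  exact Or.inr ⟨((a : ℕ), (b : ℕ), (x : ℕ), (y : ℕ)), mem_quads.2 ⟨a.2, b.2, x.2, y.2⟩, rfl⟩

/-- Merging keeps the three kinds of ranks. -/
theorem ind_merge (hs : Sem c θ) (hn : Ok c w.length) (X : Tab) {e : Ev}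
    (he : Injective (ev θ w.length e)) {ps : List Ev} {q : Ev} (hq : q ∈ e :: ps)
    (hi : Injective (ev θ w.length q)) :
    rk (gr w.length X) (ev θ w.length q) ≤
        rk (gr w.length X) (ev θ w.length (mergeAll c w (obj4 w X) e ps)) ∧
      (∀ a b x : Fin w.length, rk (gr w.length X + tri a b x) (ev θ w.length q) ≤
        rk (gr w.length X + tri a b x) (ev θ w.length (mergeAll c w (obj4 w X) e ps))) ∧
      ∀ a b x y : Fin w.length, rk (gr w.length X + tri a b x + tri a b y) (ev θ w.length q) ≤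
        rk (gr w.length X + tri a b x + tri a b y)
          (ev θ w.length (mergeAll c w (obj4 w X) e ps)) := by
  refine ⟨merge_ge_po hs hn (ind_small X) he (ind_mem1 X) hq (proper_of_inj _ hi),
    fun a b x => ?_, fun a b x y => ?_⟩
  · have := merge_ge_po hs hn (ind_small X) he (ind_mem3 X a b x) hq (proper_of_inj _ hi)
    rwa [gr_addTri] at this
  · have := merge_ge_po hs hn (ind_small X) he (ind_mem4 X a b x y) hq (proper_of_inj _ hi)
    rwa [gr_addTri, gr_addTri] at this

theorem ind_bad_iff (hs : Sem c θ) {X : Tab} {C : St} {ρ : ℕ} {e : Ev} {a b x y : Fin w.length} :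
    bad4 c w X C ρ e ((a : ℕ), (b : ℕ), (x : ℕ), (y : ℕ)) = true ↔
      indBad (gr w.length X) (st w.length C) ρ (ev θ w.length e) (a, b, x, y) := by
  simp only [bad4, indBad, Bool.and_eq_true, Bool.not_eq_true', decide_eq_false_iff_not,
    decide_eq_true_eq, hs.rkC_eq, gr_addTri, mem_st, Fin.val_inj, ne_eq, and_assoc]

theorem ind_iter (hs : Sem c θ) (hn : Ok c w.length) (X : Tab) (C : St) (P : List Ev) (ρ : ℕ)
    (k : ℕ) {e : Ev} (he : Injective (ev θ w.length e)) :
    Injective (ev θ w.length ((indRound c w X C P ρ)^[k] e)) ∧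
      rk (gr w.length X) (ev θ w.length e) ≤
        rk (gr w.length X) (ev θ w.length ((indRound c w X C P ρ)^[k] e)) := by
  induction k with
  | zero => exact ⟨he, le_rfl⟩
  | succ k ih =>
    rw [Function.iterate_succ_apply']
    exact ⟨merge_inj hs hn (ind_small X) ih.1 _,
      ih.2.trans (ind_merge hs hn X ih.1 List.mem_cons_self ih.1).1⟩

theorem algInd_basic (hs : Sem c θ) (hn : Ok c w.length) (X : Tab) (C : St) (P : List Ev) (ρ : ℕ) :
    Injective (ev θ w.length (algInd c w X C P ρ)) ∧ ∀ p ∈ P, Injective (ev θ w.length p) →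
      rk (gr w.length X) (ev θ w.length p) ≤
        rk (gr w.length X) (ev θ w.length (algInd c w X C P ρ)) := by
  have h0 : Injective (ev θ w.length (ev0 w)) := hn.ev0_inj hs (by omega)
  have h1 := ind_iter hs hn X C P ρ (quads w).length (merge_inj hs hn (ind_small X) h0 P)
  exact ⟨h1.1, fun p hp hi =>
    (ind_merge hs hn X h0 (List.mem_cons_of_mem _ hp) hi).1.trans h1.2⟩

/-- One round on a dependent quadruple. -/
theorem ind_outs (hs : Sem c θ) (hn : Ok c w.length) {X : Tab} {C : St} {z : Fin w.length}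
    {P : List Ev} {ρ : ℕ} (hX : Core (gr w.length X) (st w.length C) z ρ)
    (hP : ∀ p ∈ P, Injective (ev θ w.length p) ∧ ρ ≤ rk (gr w.length X) (ev θ w.length p))
    (hK : ∀ y ∈ st w.length C, y ≠ z → Kill (gr w.length X) (st w.length C) (evs θ w.length P) y)
    {e : Ev} (he : Injective (ev θ w.length e)) (hr : rk (gr w.length X) (ev θ w.length e) ≤ ρ)
    {a b x y : Fin w.length}
    (hbad : indBad (gr w.length X) (st w.length C) ρ (ev θ w.length e) (a, b, x, y))
    (ht : ρ + 1 ≤ rk (gr w.length X + tri a b x) (ev θ w.length e)) :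
    ∃ g ∈ indOuts c w P ρ e a b (addTri w X a b x), Injective (ev θ w.length g) ∧
      ∃ v : Fin w.length,
        (v = x ∨ indBad (gr w.length X) (st w.length C) ρ (ev θ w.length e) (a, b, x, v)) ∧
        ρ + 2 ≤ rk (gr w.length X + tri a b x + tri a b v) (ev θ w.length g) := by
  obtain ⟨ha, hb, hx, hy, hab, hax, hay, hbx, hby, hxy, hlt⟩ := hbad
  simp only at ha hb hx hy hab hax hay hbx hby hxy hlt
  have hP' : ∀ p ∈ evs θ w.length P, Injective p ∧ ρ ≤ rk (gr w.length X) p := by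
    rintro p ⟨q, hq, rfl⟩
    exact hP q hq
  have hg : gr w.length (addTri w X a b x) = gr w.length X + tri a b x := gr_addTri w X a b x
  have hE1 : (gr w.length (addTri w X a b x)).Eul := by
    rw [hg]; exact hX.eul.add (eul_tri a b x)
  have hr1 : rk (gr w.length X + tri a b x) (ev θ w.length e) = ρ + 1 := by
    have h1 := rk_add_le (gr w.length X) (tri a b x) (ev θ w.length e)
    have h2 := ind_rk_tri he hab hax hbx
    omega
  have hmem : ∀ v : Fin w.length,
      v ∈ st w.length (ell c w (addTri w X a b x) a b (ρ + 1) e) ↔ v = a ∨ v = b ∨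
        rk (gr w.length X + tri a b x + tri a b v) (ev θ w.length e) ≤ ρ + 1 := by
    intro v
    rw [hs.mem_ell, hg]
  generalize hl : ell c w (addTri w X a b x) a b (ρ + 1) e = l at hmem
  have hal : a ∈ st w.length l := (hmem a).2 (Or.inl rfl)
  have hbl : b ∈ st w.length l := (hmem b).2 (Or.inr (Or.inl rfl))
  have hxl : x ∈ st w.length l := by
    refine (hmem x).2 (Or.inr (Or.inr ?_))
    rw [add_assoc, add_self, add_zero]
    omega
  have hyl : y ∈ st w.length l := (hmem y).2 (Or.inr (Or.inr (by omega)))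
  have h4 : 4 ≤ (st w.length l).card := by
    have h1 : ({a, b, x, y} : Finset (Fin w.length)) ⊆ st w.length l := by
      simp [Finset.insert_subset_iff, hal, hbl, hxl, hyl]
    have h2 : ({a, b, x, y} : Finset (Fin w.length)).card = 4 := by
      rw [Finset.card_insert_of_notMem (by simp [hab, hax, hay]), ind_card3 hbx hby hxy]
    exact h2 ▸ Finset.card_le_card h1
  obtain ⟨hlC, hlc⟩ := ind_line (hX.ons.add (on_tri ha hb hx)) he ha hb hab hal hbl (by
    intro v hv hva hvb
    rcases (hmem v).1 hv with h | h | h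
    · exact absurd h hva
    · exact absurd h hvb
    · omega)
  have h0 : Injective (ev θ w.length (ev0 w)) := hn.ev0_inj hs (by omega)
  obtain ⟨g, hgm, hgi, v, hvl, hva, hvb, hv⟩ := algCA_spec hs hn (σ := ρ + 1) (l := l)
    (f := mergeAll c w [po w (addG w (addTri w X a b x) (colC c w l e (addTri w X a b x)))]
      (ev0 w) P) hE1 hab hal hbl (by omega) he (merge_inj hs hn small_po h0 P)
    (by rw [hg]; omega) (by rw [hg]; exact hX.ind_par hab hax hbx)
    (by
      intro v hv
      rw [hmem] at hv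
      rw [hg]
      omega)
    (by
      intro hY
      obtain ⟨p, ⟨q, hq, rfl⟩, hp⟩ := hX.ind_col hP' hK hlC (by omega) h4 hal hbl hxl hab hax hbx
        (colC_eul hE1) (colC_on hs hE1 he) he hY
      have h1 := merge_ge_po hs hn small_po h0 (ps := P) List.mem_cons_self
        (List.mem_cons_of_mem _ hq)
        (proper_of_inj (gr w.length (addG w (addTri w X a b x)
          (colC c w l e (addTri w X a b x)))) (hP q hq).1)
      rw [gr_addG] at h1
      rw [← hg] at hp
      omega)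
  refine ⟨g, ?_, hgi, v, ?_, by rw [← hg]; exact hv⟩
  · rw [indOuts, hl]
    exact hgm
  · by_cases hvx : v = x
    · exact Or.inl hvx
    · refine Or.inr ⟨ha, hb, hx, hlC hvl, hab, hax, hva.symm, hbx, hvb.symm, Ne.symm hvx, ?_⟩
      rcases (hmem v).1 hvl with h | h | h
      · exact absurd h hva
      · exact absurd h hvb
      · exact Nat.lt_succ_of_le h

open Classical in
theorem ind_step (hs : Sem c θ) (hn : Ok c w.length) {X : Tab} {C : St} {z : Fin w.length}
    {P : List Ev} {ρ : ℕ} (hX : Core (gr w.length X) (st w.length C) z ρ)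
    (hP : ∀ p ∈ P, Injective (ev θ w.length p) ∧ ρ ≤ rk (gr w.length X) (ev θ w.length p))
    (hK : ∀ y ∈ st w.length C, y ≠ z → Kill (gr w.length X) (st w.length C) (evs θ w.length P) y)
    {e : Ev} (he : Injective (ev θ w.length e))
    (ht : ∀ a ∈ st w.length C, ∀ b ∈ st w.length C, ∀ x ∈ st w.length C, a ≠ b → a ≠ x → b ≠ x →
      ρ + 1 ≤ rk (gr w.length X + tri a b x) (ev θ w.length e)) :
    ρ < rk (gr w.length X) (ev θ w.length (indRound c w X C P ρ e)) ∨
      (univ.filter (indBad (gr w.length X) (st w.length C) ρ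
          (ev θ w.length (indRound c w X C P ρ e)))).card ≤
        (univ.filter (indBad (gr w.length X) (st w.length C) ρ (ev θ w.length e))).card - 1 := by
  have hmono := ind_merge hs hn X he (ps := indOuts c w P ρ e
    (pick (quads w) (bad4 c w X C ρ e) (0, 0, 0, 0)).1
    (pick (quads w) (bad4 c w X C ρ e) (0, 0, 0, 0)).2.1
    (addTri w X (pick (quads w) (bad4 c w X C ρ e) (0, 0, 0, 0)).1
      (pick (quads w) (bad4 c w X C ρ e) (0, 0, 0, 0)).2.1
      (pick (quads w) (bad4 c w X C ρ e) (0, 0, 0, 0)).2.2.1)) List.mem_cons_self he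
  change _ ≤ rk (gr w.length X) (ev θ w.length (indRound c w X C P ρ e)) ∧ _ ∧
    ∀ a b x y : Fin w.length, _ ≤ rk (gr w.length X + tri a b x + tri a b y)
      (ev θ w.length (indRound c w X C P ρ e)) at hmono
  have hsub : univ.filter (indBad (gr w.length X) (st w.length C) ρ
      (ev θ w.length (indRound c w X C P ρ e))) ⊆
        univ.filter (indBad (gr w.length X) (st w.length C) ρ (ev θ w.length e)) := by
    intro D hD
    simp only [Finset.mem_filter, Finset.mem_univ, true_and] at hD ⊢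
    obtain ⟨h1, h2, h3, h4, h5, h6, h7, h8, h9, h10, h11⟩ := hD
    exact ⟨h1, h2, h3, h4, h5, h6, h7, h8, h9, h10, lt_of_le_of_lt (hmono.2.2 _ _ _ _) h11⟩
  by_cases hr : ρ < rk (gr w.length X) (ev θ w.length (indRound c w X C P ρ e))
  · exact Or.inl hr
  right
  by_cases hex : ∃ D, indBad (gr w.length X) (st w.length C) ρ (ev θ w.length e) D
  · obtain ⟨⟨a0, b0, x0, y0⟩, hD0⟩ := hex
    obtain ⟨hm, hb⟩ := pick_spec (l := quads w) (p := bad4 c w X C ρ e) (0, 0, 0, 0)
      ⟨_, mem_quads.2 ⟨a0.2, b0.2, x0.2, y0.2⟩, (ind_bad_iff hs).2 hD0⟩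
    rw [mem_quads] at hm
    obtain ⟨a, b, x, y, hpick⟩ : ∃ a b x y : Fin w.length,
        pick (quads w) (bad4 c w X C ρ e) (0, 0, 0, 0) = ((a : ℕ), (b : ℕ), (x : ℕ), (y : ℕ)) :=
      ⟨⟨_, hm.1⟩, ⟨_, hm.2.1⟩, ⟨_, hm.2.2.1⟩, ⟨_, hm.2.2.2⟩, rfl⟩
    rw [hpick, ind_bad_iff hs] at hb
    obtain ⟨g, hg, hgi, v, hv, hrk⟩ := ind_outs hs hn hX hP hK he
      (hmono.1.trans (not_lt.1 hr)) hb
      (ht a hb.1 b hb.2.1 x hb.2.2.1 hb.2.2.2.2.1 hb.2.2.2.2.2.1 hb.2.2.2.2.2.2.2.1)
    have hround : indRound c w X C P ρ e =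
        mergeAll c w (obj4 w X) e (indOuts c w P ρ e a b (addTri w X a b x)) := by
      rw [indRound, hpick, indAt]
    have hnew := hrk.trans ((ind_merge hs hn X he (List.mem_cons_of_mem _ hg) hgi).2.2 a b x v)
    rw [← hround] at hnew
    rcases hv with rfl | hv
    · rw [add_assoc, add_self, add_zero] at hnew
      omega
    · have := Finset.card_lt_card (Finset.ssubset_iff_of_subset hsub |>.2 ⟨(a, b, x, v),
        by simpa using hv, by
          simp only [Finset.mem_filter, Finset.mem_univ, true_and]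
          intro h
          exact absurd h.2.2.2.2.2.2.2.2.2.2 (not_lt.2 hnew)⟩)
      omega
  · have h0 : univ.filter (indBad (gr w.length X) (st w.length C) ρ (ev θ w.length e)) = ∅ := by
      rw [Finset.filter_eq_empty_iff]
      exact fun D _ h => hex ⟨D, h⟩
    rw [h0] at hsub
    rw [Finset.subset_empty.1 hsub]
    simp

theorem algInd_spec (hs : Sem c θ) (hn : Ok c w.length) {X : Tab} {C : St} {z : Fin w.length}
    {P : List Ev} {ρ : ℕ} (hX : Core (gr w.length X) (st w.length C) z ρ) (hne : P ≠ [])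
    (hP : ∀ p ∈ P, Injective (ev θ w.length p) ∧ ρ ≤ rk (gr w.length X) (ev θ w.length p))
    (hK : ∀ y ∈ st w.length C, y ≠ z → Kill (gr w.length X) (st w.length C) (evs θ w.length P) y) :
    ρ < rk (gr w.length X) (ev θ w.length (algInd c w X C P ρ)) ∨
      Ind4 (gr w.length X) (st w.length C) ρ (ev θ w.length (algInd c w X C P ρ)) := by
  classical
  have _ := hne
  have h0 : Injective (ev θ w.length (ev0 w)) := hn.ev0_inj hs (by omega)
  have hP' : ∀ p ∈ evs θ w.length P, Injective p ∧ ρ ≤ rk (gr w.length X) p := by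
    rintro p ⟨q, hq, rfl⟩
    exact hP q hq
  have key : ∀ k, Injective (ev θ w.length
        ((indRound c w X C P ρ)^[k] (mergeAll c w (obj4 w X) (ev0 w) P))) ∧
      (∀ a ∈ st w.length C, ∀ b ∈ st w.length C, ∀ x ∈ st w.length C, a ≠ b → a ≠ x → b ≠ x →
        ρ + 1 ≤ rk (gr w.length X + tri a b x) (ev θ w.length
          ((indRound c w X C P ρ)^[k] (mergeAll c w (obj4 w X) (ev0 w) P)))) ∧
      (ρ < rk (gr w.length X) (ev θ w.length
          ((indRound c w X C P ρ)^[k] (mergeAll c w (obj4 w X) (ev0 w) P))) ∨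
        (univ.filter (indBad (gr w.length X) (st w.length C) ρ (ev θ w.length
          ((indRound c w X C P ρ)^[k] (mergeAll c w (obj4 w X) (ev0 w) P))))).card ≤
            w.length ^ 4 - k) := by
    intro k
    induction k with
    | zero =>
      refine ⟨merge_inj hs hn (ind_small X) h0 P, fun a ha b hb x hx hab hax hbx => ?_, Or.inr ?_⟩
      · obtain ⟨p, ⟨q, hq, rfl⟩, hp⟩ := hX.ind_tri hP' hK ha hb hx hab hax hbx
        exact hp.trans ((ind_merge hs hn X h0 (List.mem_cons_of_mem _ hq) (hP q hq).1).2.1 a b x)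
      · refine (Finset.card_filter_le _ _).trans (le_of_eq ?_)
        simp only [Finset.card_univ, Fintype.card_prod, Fintype.card_fin, Nat.sub_zero]
        ring
    | succ k ih =>
      rw [Function.iterate_succ_apply']
      generalize (indRound c w X C P ρ)^[k] (mergeAll c w (obj4 w X) (ev0 w) P) = e at ih ⊢
      obtain ⟨he, ht, hr⟩ := ih
      refine ⟨merge_inj hs hn (ind_small X) he _, fun a ha b hb x hx hab hax hbx =>
        (ht a ha b hb x hx hab hax hbx).trans
          ((ind_merge hs hn X he List.mem_cons_self he).2.1 a b x), ?_⟩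
      rcases hr with hr | hr
      · exact Or.inl (hr.trans_le (ind_merge hs hn X he List.mem_cons_self he).1)
      · rcases ind_step hs hn hX hP hK he ht with h | h
        · exact Or.inl h
        · right
          omega
  obtain ⟨-, ht, hr⟩ := key (quads w).length
  rcases hr with hr | hr
  · exact Or.inl hr
  · refine Or.inr ⟨ht, fun a ha b hb x hx y hy hab hax hay hbx hby hxy => ?_⟩
    rw [length_quads, Nat.sub_self, Nat.le_zero, Finset.card_eq_zero,
      Finset.filter_eq_empty_iff] at hr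
    by_contra hh
    refine hr (Finset.mem_univ (a, b, x, y)) ⟨ha, hb, hx, hy, hab, hax, hay, hbx, hby, hxy, ?_⟩
    rw [← length_quads]
    exact not_le.1 hh

end Pool.Agent.MP_bae0ed_lc.H52
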