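import Pool.Agent.MP_bae0ed_lc.H52.SpecQ
import Pool.Agent.MP_bae0ed_lc.H52.SpecInd

/-!
Lifting a splitting through a contraction.
-/

set_option autoImplicit false
set_option linter.unusedSectionVars false

namespace Pool.Agent.MP_bae0ed_lc.H52

open Finset Matrix Function Module Gr

section Graph

variable {V : Type} [DecidableEq V] [Fintype V]

theorem sl_ctr_row {X : Gr V} {u z y : V} (hyu : y ≠ u) (hyz : y ≠ z) (b : V) :
    (X.ctr u z).adj y b =
      X.adj y b + (if b = u then X.adj y u else 0) + (if b = z then X.adj y u else 0) := by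
  rw [ctr_adj, X.symm u y]
  simp [hyu, hyz]

theorem sl_Zu {X : Gr V} {C : Finset V} {u y : V} {ζ : V → ZMod 2} (hZ : Nt X (C.erase u) y ζ) :
    ζ u = 0 := by
  rcases z2 (ζ u) with h | h
  · exact h
  · have := (hZ.1 u h).1
    simp at this

theorem sl_nt1 {X : Gr V} {C : Finset V} {u z y : V} {ζ : V → ZMod 2} (hyu : y ≠ u) (hyz : y ≠ z)
    (hZ : Nt (X.ctr u z) (C.erase u) y ζ) : Nt X C y ζ := by
  refine ⟨fun x hx => ⟨mem_of_mem_erase (hZ.1 x hx).1, (hZ.1 x hx).2⟩, hZ.2.1, hZ.2.2.1, ?_⟩
  intro h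
  apply hZ.2.2.2
  have h0 : X.adj y u = 0 := by rw [← h]; exact sl_Zu hZ
  funext b
  rw [sl_ctr_row hyu hyz, h0, h]
  simp

theorem sl_nt2 {X : Gr V} {C : Finset V} {u z y : V} {ζ : V → ZMod 2} (hyu : y ≠ u) (hyz : y ≠ z)
    (huz : u ≠ z) (hu : u ∈ C) (hz : z ∈ C) (hZ : Nt (X.ctr u z) (C.erase u) y ζ) :
    Nt X C y (ζ + (Pi.single u 1 + Pi.single z 1)) := by
  have hu0 : ζ u = 0 := sl_Zu hZ
  refine ⟨fun x hx => ?_, ?_, ?_, ?_⟩
  · by_cases h1 : x = u
    · subst h1; exact ⟨hu, hyu.symm⟩
    by_cases h2 : x = z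
    · subst h2; exact ⟨hz, hyz.symm⟩
    simp only [Pi.add_apply, Pi.single_eq_of_ne h1, Pi.single_eq_of_ne h2, add_zero] at hx
    exact ⟨mem_of_mem_erase (hZ.1 x hx).1, (hZ.1 x hx).2⟩
  · simp only [Pi.add_apply, Finset.sum_add_distrib, hZ.2.1, Finset.sum_pi_single', mem_univ,
      if_true, zero_add]
    decide
  · intro h
    have := congrFun h u
    simp [hu0, Pi.single_eq_of_ne huz] at this
  · intro h
    apply hZ.2.2.2
    have h1 : X.adj y u = 1 := by
      rw [← h]; simp [hu0, Pi.single_eq_of_ne huz]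
    funext b
    rw [sl_ctr_row hyu hyz, h1, ← h]
    by_cases hb : b = u
    · subst hb
      simp [hu0, huz]
      decide
    by_cases hb' : b = z
    · subst hb'
      simp only [Pi.add_apply, Pi.single_eq_of_ne hb, Pi.single_eq_same, if_neg hb, if_true]
      generalize ζ b = t
      revert t; decide
    simp [hb, hb']

theorem sl_iso {X : Gr V} {C : Finset V} (hC : X.On C) {s : V} (hs : s ∉ C) (x : V) :
    X.adj s x = 0 := by
  rcases z2 (X.adj s x) with h | h
  · exact h
  · exact absurd (hC _ _ h) hs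

theorem sl_split_ctr (X : Gr V) {u z y s : V} {ζ : V → ZMod 2} (hu : ζ u = 0) (hy : u ≠ y)
    (hs : u ≠ s) : (X.split y s ζ).ctr u z = (X.ctr u z).split y s ζ := by
  unfold Gr.split
  rw [ctr_add, ctr_add, ctr_of_iso (X := star y ζ), ctr_of_iso (X := star s ζ)]
  · intro b; simp [star_adj, hs, hu]
  · intro b; simp [star_adj, hy, hu]

theorem sl_tri_ctr {u y s : V} (hus : u ≠ s) (hys : y ≠ s) : (tri y s u).ctr s y = 0 := by
  rw [ctr_eq_push, push_tri]
  simp only [update_self, update_of_ne hus, update_of_ne hys, id]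
  have h0 : edge y y = (0 : Gr V) := by
    ext a b
    simp only [edge_adj, zero_adj, and_comm]
    exact z2_add_self _
  unfold tri
  rw [h0, zero_add, add_self]

theorem sl_twin {Y : Gr V} (hE : Y.Eul) {z u y s : V} (hzu : z ≠ u) (hzy : z ≠ y) (hzs : z ≠ s)
    (huy : u ≠ y) (hus : u ≠ s) (hys : y ≠ s) (hon : Y.On {z, u, y, s})
    (h0 : Y.ctr s y = 0) (h1 : Y.adj s y = 0) :
    Y = 0 ∨ Y = star y (Pi.single u 1 + Pi.single z 1) + star s (Pi.single u 1 + Pi.single z 1) := by
  have hout : ∀ a b, a ≠ z → a ≠ u → a ≠ y → a ≠ s → Y.adj a b = 0 := by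
    intro a b h1 h2 h3 h4
    exact sl_iso hon (by simp [h1, h2, h3, h4]) b
  have hout' : ∀ a b, b ≠ z → b ≠ u → b ≠ y → b ≠ s → Y.adj a b = 0 := by
    intro a b h1 h2 h3 h4
    rw [Y.symm]; exact hout b a h1 h2 h3 h4
  have e1 : Y.adj z u = 0 := by
    rw [← ctr_adj_other (u := s) (w := y) hzs hzy hus huy, h0]; rfl
  have e2 : Y.adj s z = Y.adj y z := by
    have := ctr_adj_tgt (X := Y) hys.symm hzs hzy
    rw [h0] at this
    exact (bs_eq_of_add this.symm).symm
  have e3 : Y.adj s u = Y.adj y u := by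
    have := ctr_adj_tgt (X := Y) hys.symm hus huy
    rw [h0] at this
    exact (bs_eq_of_add this.symm).symm
  have e4 : Y.adj y z = Y.adj y u := by
    have h := hE y
    rw [← Finset.sum_subset (subset_univ ({z, u} : Finset V)), Finset.sum_pair hzu] at h
    · exact bs_eq_of_add h
    · intro b _ hb
      simp only [mem_insert, mem_singleton, not_or] at hb
      by_cases h3 : b = y
      · rw [h3, Y.irr]
      by_cases h4 : b = s
      · rw [h4, Y.symm, h1]
      exact hout' _ _ hb.1 hb.2 h3 h4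
  have key : Y = star y (Y.adj y u • (Pi.single u 1 + Pi.single z 1))
      + star s (Y.adj y u • (Pi.single u 1 + Pi.single z 1)) := by
    have f1 : Y.adj u z = 0 := by rw [Y.symm, e1]
    have f2 : Y.adj z s = Y.adj y u := by rw [Y.symm, e2, e4]
    have f3 : Y.adj u s = Y.adj y u := by rw [Y.symm, e3]
    have f4 : Y.adj z y = Y.adj y u := by rw [Y.symm, e4]
    have f5 : Y.adj u y = Y.adj y u := Y.symm _ _
    have f6 : Y.adj y s = 0 := by rw [Y.symm, h1]
    have f7 : Y.adj s z = Y.adj y u := by rw [e2, e4]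
    have huz := hzu.symm
    have hyz := hzy.symm
    have hsz := hzs.symm
    have hyu := huy.symm
    have hsu := hus.symm
    have hsy := hys.symm
    ext a b
    simp only [add_adj, star_adj, Pi.smul_apply, Pi.add_apply, Pi.single_apply, smul_eq_mul]
    by_cases ha : a = z ∨ a = u ∨ a = y ∨ a = s
    · by_cases hb : b = z ∨ b = u ∨ b = y ∨ b = s
      · rcases ha with ha | ha | ha | ha <;> rcases hb with hb | hb | hb | hb <;> rw [ha, hb] <;>
          simp [Y.irr, e1, e3, e4, f1, f2, f3, f4, f5, f6, f7, h1, hzu, hzy, hzs, huy, hus, hys,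
            huz, hyz, hsz, hyu, hsu, hsy]
      · simp only [not_or] at hb
        rw [hout' a b hb.1 hb.2.1 hb.2.2.1 hb.2.2.2]
        simp [hb.1, hb.2.1, hb.2.2.1, hb.2.2.2]
    · simp only [not_or] at ha
      rw [hout a b ha.1 ha.2.1 ha.2.2.1 ha.2.2.2]
      simp [ha.1, ha.2.1, ha.2.2.1, ha.2.2.2]
  rcases z2 (Y.adj y u) with h | h
  · left
    rw [key, h, zero_smul, bs_star_zero, bs_star_zero, add_zero]
  · right
    rw [key, h, one_smul]

end Graph

variable {c : Ctx} {F : Type} [Field F] [CharP F 2] {θ : Fe → F} {w : Un}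

theorem sl_small {obj : List Obj} (h1 : obj.length ≤ w.length + 2)
    (h2 : ∀ o ∈ obj, o.1 = w) : Small w.length w obj := by
  refine ⟨by omega, h1.trans ?_, fun o ho => by rw [h2 o ho]; omega⟩
  have : w.length + 1 ≤ (w.length + 1) ^ 4 := Nat.le_self_pow (by norm_num) _
  omega

theorem sl_wit (hs : Sem c θ) (hn : Ok c w.length) {X H : Tab} {C : Finset (Fin w.length)}
    {y s : Fin w.length} {P : List Ev} {ρ : ℕ} {ζ : Fin w.length → ZMod 2} (hsp : (s : ℕ) = sp w)
    (hC : (gr w.length X).On C) (hsC : s ∉ C) (hy : y ∈ C)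
    (hH : gr w.length H = (gr w.length X).split y s ζ) (hZ : Nt (gr w.length X) C y ζ)
    (hK : ∀ ζ, Nt (gr w.length X) C y ζ → ∃ p ∈ P, Injective (ev θ w.length p) ∧
      ρ ≤ rk (gr w.length X) (ev θ w.length p) ∧
      sv (ev θ w.length p) y ζ ∉ Rg (gr w.length X) (ev θ w.length p)) :
    Injective (ev θ w.length (wit c w H P y)) ∧
      ρ + 2 ≤ rk (gr w.length H) (ev θ w.length (wit c w H P y)) := by
  obtain ⟨p, hp, hinj, hr, hnm⟩ := hK ζ hZ
  have h0 := Ok.ev0_inj hs hn (w := w) (by omega)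
  refine ⟨merge_inj hs hn small_po h0 _, ?_⟩
  have hsy : s ≠ y := fun h => hsC (h ▸ hy)
  have hζs : ζ s = 0 := by
    rcases z2 (ζ s) with h | h
    · exact h
    · exact absurd (hZ.1 s h).1 hsC
  have hne : ∀ x, ζ x = 1 → ev θ w.length p x ≠ ev θ w.length p y :=
    fun x hx h => (hZ.1 x hx).2 (hinj h)
  have hev : ev θ w.length (cmp w (upd w (sp w) y) p) =
      update (ev θ w.length p) s (ev θ w.length p y) := by
    rw [← hsp, ev_cmp (rep_upd w s y)]
    funext a
    by_cases ha : a = s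
    · subst ha; simp
    · simp [update_of_ne ha]
  have h1 := rk_split_of_not_mem (proper_of_inj _ hinj) (sl_iso hC hsC) hsy hζs hne hnm
  have h2 := proper_split (proper_of_inj _ hinj) (sl_iso hC hsC) hsy hζs hne
  rw [← hH, ← hev] at h1 h2
  have h3 := merge_ge_po hs hn (small_po (X := H)) h0 (ps := P.map (cmp w (upd w (sp w) y))) (Y := H)
    (by simp) (List.mem_cons_of_mem _ (List.mem_map_of_mem hp)) h2
  unfold wit
  omega

theorem sl_lift (hs : Sem c θ) (hn : Ok c w.length) (T : Tab) {y s : Fin w.length}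
    (hsp : (s : ℕ) = sp w) {e : Ev} (he : Injective (ev θ w.length e)) :
    Injective (ev θ w.length (lift c w T [(sp w, (y : ℕ))] e)) ∧
      rk ((gr w.length T).ctr s y) (ev θ w.length e) + ((gr w.length T).adj s y).val ≤
        rk (gr w.length T) (ev θ w.length (lift c w T [(sp w, (y : ℕ))] e)) := by
  have := lift_spec hs hn T [(s, y)] he
  simpa [Gr.con, Gr.cnt, hsp] using this

theorem sl_liftT (H : Tab) {s : Fin w.length} (hsp : (s : ℕ) = sp w) (z u y x : Fin w.length) :
    gr w.length (liftT w H z u y x) = gr w.length H + tri z u y + tri z u x + tri y s u := by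
  unfold liftT
  rw [← hsp, gr_addTri, gr_addTri, gr_addTri]

/-- The evaluation `liftE`. -/
theorem sl_liftE (hs : Sem c θ) (hn : Ok c w.length) {X : Gr (Fin w.length)} {H : Tab}
    {C : Finset (Fin w.length)} {z u y s : Fin w.length} {P : List Ev} {ρ : ℕ} {e : Ev}
    (hsp : (s : ℕ) = sp w) (hsC : s ∉ C) (hz : z ∈ C) (hu : u ∈ C) (hy : y ∈ C)
    (hzu : z ≠ u) (hyu : y ≠ u) (hyz : y ≠ z) (he : Injective (ev θ w.length e))
    (h4 : Ind4 X C ρ (ev θ w.length e)) (hc : (gr w.length H).ctr s y = X)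
    (ha : (gr w.length H).adj s y = 0)
    (hw : Injective (ev θ w.length (wit c w H P y)) ∧
      ρ + 2 ≤ rk (gr w.length H) (ev θ w.length (wit c w H P y))) :
    Injective (ev θ w.length (liftE c w H P e z u y)) ∧
      ρ + 2 ≤ rk (gr w.length H) (ev θ w.length (liftE c w H P e z u y)) ∧
      ∀ x ∈ C, x ≠ z → x ≠ u → x ≠ y →
        ρ + 3 ≤ rk (gr w.length H + tri z u y + tri z u x + tri y s u)
          (ev θ w.length (liftE c w H P e z u y)) := by
  have hsm : Small w.length w (po w H :: (rg w).map fun x => po w (liftT w H z u y x)) := by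
    refine sl_small (by simp) ?_
    intro o ho
    simp only [List.mem_cons, List.mem_map] at ho
    rcases ho with rfl | ⟨x, _, rfl⟩ <;> rfl
  have hsz : s ≠ z := fun h => hsC (h ▸ hz)
  have hsu : s ≠ u := fun h => hsC (h ▸ hu)
  have hsy : s ≠ y := fun h => hsC (h ▸ hy)
  refine ⟨merge_inj hs hn hsm hw.1 _, ?_, ?_⟩
  · exact hw.2.trans (merge_ge_po hs hn hsm hw.1 (by simp) (List.mem_cons_self ..)
      (proper_of_inj _ hw.1))
  · intro x hx hxz hxu hxy
    have hsx : s ≠ x := fun h => hsC (h ▸ hx)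
    obtain ⟨l1, l2⟩ := sl_lift hs hn (liftT w H z u y x) (y := y) hsp he
    have h3 := merge_ge_po hs hn hsm hw.1
      (ps := (rg w).map fun x => lift c w (liftT w H z u y x) [(sp w, (y : ℕ))] e)
      (Y := liftT w H z u y x)
      (List.mem_cons_of_mem _ (List.mem_map.2 ⟨x, mem_rg.2 x.2, rfl⟩))
      (List.mem_cons_of_mem _ (List.mem_map.2 ⟨x, mem_rg.2 x.2, rfl⟩)) (proper_of_inj _ l1)
    rw [sl_liftT H hsp] at l2 h3
    rw [ctr_add, ctr_add, ctr_add, hc, ctr_of_iso (tri_adj_of_not_mem hsz hsu hsy),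
      ctr_of_iso (tri_adj_of_not_mem hsz hsu hsx), sl_tri_ctr hsu.symm hsy.symm, add_zero] at l2
    have hadj : (gr w.length H + tri z u y + tri z u x + tri y s u).adj s y = 1 := by
      simp only [add_adj, ha, tri_adj_of_not_mem hsz hsu hsy, tri_adj_of_not_mem hsz hsu hsx,
        tri_adj hsy.symm hyu hsu]
      simp [hsy]
    rw [hadj] at l2
    have h5 := h4.2 z hz u hu y hy x hx hzu hyz.symm hxz.symm hyu.symm hxu.symm hxy.symm
    have : (1 : ZMod 2).val = 1 := rfl
    unfold liftE
    omega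

theorem sl_par {k ρ : ℕ} (h : (k : ZMod 2) = (ρ : ZMod 2)) : k % 2 = ρ % 2 :=
  (ZMod.natCast_eq_natCast_iff' k ρ 2).1 h

/-- The line through the four points has no other point. -/
theorem sl_ell {H : Gr (Fin w.length)} {C : Finset (Fin w.length)} {z u y s : Fin w.length}
    {ρ : ℕ} {p : Fin w.length → F} (hp : Injective p) (hon : H.On (insert s C))
    (hzu : z ≠ u) (hyu : y ≠ u) (hyz : y ≠ z) (hsz : s ≠ z) (hsu : s ≠ u) (hsy : s ≠ y)
    (hr : ρ + 2 ≤ rk H p) (hpar : H.par = (ρ : ZMod 2))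
    (h3 : ∀ x ∈ C, x ≠ z → x ≠ u → x ≠ y →
      ρ + 3 ≤ rk (H + tri z u y + tri z u x + tri y s u) p)
    (h1 : rk (H + tri z u y) p ≤ ρ + 2) (h2 : rk (H + tri z u s) p ≤ ρ + 2)
    {x : Fin w.length} (hxz : x ≠ z) (hxu : x ≠ u) (hxy : x ≠ y) (hxs : x ≠ s) :
    ρ + 3 ≤ rk (H + tri z u x) p := by
  have m1 : tv p z u y ∈ Rg H p := by
    by_contra h
    have := rk_add_tri_of_not_mem H (hp.ne hzu) (hp.ne hyz.symm) (hp.ne hyu.symm) h
    omega
  have m2 : tv p z u s ∈ Rg H p := by
    by_contra h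
    have := rk_add_tri_of_not_mem H (hp.ne hzu) (hp.ne hsz.symm) (hp.ne hsu.symm) h
    omega
  have e1 := rk_add_tri_of_mem H (hp.ne hzu) (hp.ne hyz.symm) (hp.ne hyu.symm) m1
  have e2 := sl_par ((rk_par (proper_of_inj H hp)).trans hpar)
  have hnm : tv p z u x ∉ Rg H p := by
    intro m3
    by_cases hx : x ∈ C
    · have m4 : tv p y s u ∈ Rg H p := by
        refine RS_le (S := {z, u, y, s}) (a := z) (b := u) (by simp) (by simp) (hp.ne hzu)
          (fun v _ hv => hp.ne (Ne.symm hv)) ?_
          (tv_mem_RS (by simp) (by simp) (by simp) (hp.ne hsy.symm) (hp.ne hyu))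
        intro v hv hvz hvu
        simp only [mem_insert, mem_singleton, hvz, hvu, false_or] at hv
        rcases hv with rfl | rfl
        · exact m1
        · exact m2
      have r1 : Rg (H + tri z u y) p ≤ Rg H p :=
        (Rg_add_tri_le H (hp.ne hzu) (hp.ne hyz.symm) (hp.ne hyu.symm)).trans
          (sup_le le_rfl ((Submodule.span_singleton_le_iff_mem _ _).2 m1))
      have r2 : Rg (H + tri z u y + tri z u x) p ≤ Rg H p :=
        (Rg_add_tri_le _ (hp.ne hzu) (hp.ne hxz.symm) (hp.ne hxu.symm)).trans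
          (sup_le r1 ((Submodule.span_singleton_le_iff_mem _ _).2 m3))
      have r3 : Rg (H + tri z u y + tri z u x + tri y s u) p ≤ Rg H p :=
        (Rg_add_tri_le _ (hp.ne hsy.symm) (hp.ne hyu) (hp.ne hsu)).trans
          (sup_le r2 ((Submodule.span_singleton_le_iff_mem _ _).2 m4))
      have r4 := Submodule.finrank_mono r3
      rw [← rk_eq, ← rk_eq] at r4
      have := h3 x hx hxz hxu hxy
      omega
    · have hiso : H.Iso x := sl_iso hon (by simp [hx, hxs])
      exact tv_apply (hp.ne hxz.symm) hxu.symm (apply_eq_zero_of_iso hiso m3)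
  have := rk_add_tri_of_not_mem H (hp.ne hzu) (hp.ne hxz.symm) (hp.ne hxu.symm) hnm
  omega

/-- The evaluation `liftF`. -/
theorem sl_liftF (hs : Sem c θ) (hn : Ok c w.length) {X : Gr (Fin w.length)} {H H2 Y : Tab}
    {z u y s : Fin w.length} {P : List Ev} {ρ : ℕ} {e : Ev} (hsp : (s : ℕ) = sp w)
    (hzu : z ≠ u) (hyu : y ≠ u) (hyz : y ≠ z) (hsz : s ≠ z) (hsu : s ≠ u) (hsy : s ≠ y)
    (he : Injective (ev θ w.length e)) (hr : ρ ≤ rk X (ev θ w.length e))
    (ht : ρ + 1 ≤ rk (X + tri z u y) (ev θ w.length e))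
    (hc : (gr w.length H).ctr s y = X) (ha : (gr w.length H).adj s y = 0)
    (hH2 : gr w.length H2 = gr w.length H + (star y (Pi.single u 1 + Pi.single z 1)
      + star s (Pi.single u 1 + Pi.single z 1)))
    (hw : Injective (ev θ w.length (wit c w H P y)) ∧
      ρ + 2 ≤ rk (gr w.length H) (ev θ w.length (wit c w H P y)))
    (hw2 : Injective (ev θ w.length (wit c w H2 P y)) ∧
      ρ + 2 ≤ rk (gr w.length H2) (ev θ w.length (wit c w H2 P y)))
    (hE : (gr w.length Y).Eul) (hon : (gr w.length Y).On {z, u, y, s}) :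
    ρ + 1 ≤ rk (gr w.length H + gr w.length Y)
      (ev θ w.length (liftF c w H H2 P e y (addG w H Y))) := by
  have h0 := Ok.ev0_inj hs hn (w := w) (by omega)
  obtain ⟨l1, l2⟩ := sl_lift hs hn (addG w H Y) (y := y) hsp he
  have key : ∀ q ∈ [wit c w H P y, wit c w H2 P y, lift c w (addG w H Y) [(sp w, (y : ℕ))] e],
      Injective (ev θ w.length q) → rk (gr w.length H + gr w.length Y) (ev θ w.length q) ≤
        rk (gr w.length H + gr w.length Y)
          (ev θ w.length (liftF c w H H2 P e y (addG w H Y))) := by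
    intro q hq hi
    have := merge_ge_po hs hn (small_po (X := addG w H Y)) h0 (Y := addG w H Y) (by simp)
      (List.mem_cons_of_mem _ hq) (proper_of_inj _ hi)
    rw [gr_addG] at this
    exact this
  have k1 := key _ (by simp) hw.1
  have k2 := key _ (by simp) hw2.1
  have k3 := key _ (by simp) l1
  rw [gr_addG, ctr_add, hc, add_adj, ha, zero_add] at l2
  have hon' : ((gr w.length Y).ctr s y).On {z, u, y} := by
    refine (hon.ctr hsy (by simp)).mono ?_
    intro v hv
    simp only [mem_erase, mem_insert, mem_singleton] at hv ⊢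
    rcases hv with ⟨h1, h | h | h | h⟩
    · exact Or.inl h
    · exact Or.inr (Or.inl h)
    · exact Or.inr (Or.inr h)
    · exact absurd h h1
  rcases (hE.ctr s y).eq_tri hon' with h | h
  · rw [h, add_zero] at l2
    rcases z2 ((gr w.length Y).adj s y) with h1 | h1
    · rcases sl_twin hE hzu hyz.symm hsz.symm hyu.symm hsu.symm hsy.symm hon h h1 with h2 | h2
      · rw [h2, add_zero] at k1 ⊢
        omega
      · rw [h2, ← hH2] at k2 ⊢
        omega
    · rw [h1] at l2
      have : (1 : ZMod 2).val = 1 := rfl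
      omega
  · rw [h] at l2
    omega

theorem algL_spec (hs : Sem c θ) (hn : Ok c w.length) {X : Tab} {C : Finset (Fin w.length)}
    {z u y s : Fin w.length} {P : List Ev} {ρ : ℕ} {e : Ev} {Z : St} (hsp : (s : ℕ) = sp w)
    (hE : (gr w.length X).Eul) (hC : (gr w.length X).On C) (hsC : s ∉ C)
    (hz : z ∈ C) (hu : u ∈ C) (hy : y ∈ C) (hyu : y ≠ u) (hyz : y ≠ z)
    (hadj : (gr w.length X).adj u z = 1) (hpar : (gr w.length X).par = (ρ : ZMod 2))
    (he : Injective (ev θ w.length e)) (hr : ρ ≤ rk (gr w.length X) (ev θ w.length e))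
    (hgood : ρ ≤ rk ((gr w.length X).ctr u z) (ev θ w.length e) + 1)
    (h4 : Ind4 (gr w.length X) C ρ (ev θ w.length e))
    (hZ : Nt ((gr w.length X).ctr u z) (C.erase u) y (zv w.length Z))
    (hK : ∀ ζ, Nt (gr w.length X) C y ζ → ∃ p ∈ P, Injective (ev θ w.length p) ∧
      ρ ≤ rk (gr w.length X) (ev θ w.length p) ∧
      sv (ev θ w.length p) y ζ ∉ Rg (gr w.length X) (ev θ w.length p)) :
    ∃ f ∈ algL c w X P ρ e z u (y, Z), Injective (ev θ w.length f) ∧
      (ρ + 1 ≤ rk (((gr w.length X).ctr u z).split y s (zv w.length Z)) (ev θ w.length f) ∨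
        ρ < rk (gr w.length X) (ev θ w.length f)) := by
  have huz : u ≠ z := ne_of_adj hadj
  have hzu := huz.symm
  have hsz : s ≠ z := fun h => hsC (h ▸ hz)
  have hsu : s ≠ u := fun h => hsC (h ▸ hu)
  have hsy : s ≠ y := fun h => hsC (h ▸ hy)
  have n1 := sl_nt1 hyu hyz hZ
  have n2 := sl_nt2 hyu hyz huz hu hz hZ
  have hZu : zv w.length Z u = 0 := sl_Zu hZ
  have hZy : zv w.length Z y = 0 := by
    rcases z2 (zv w.length Z y) with h | h
    · exact h
    · exact absurd rfl (hZ.1 y h).2
  have hZs : zv w.length Z s = 0 := by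
    rcases z2 (zv w.length Z s) with h | h
    · exact h
    · exact absurd (n1.1 s h).1 hsC
  set H := splitG w X y (sp w) Z with hHdef
  set H2 := splitG w X y (sp w)
    (sett w fun x => xor (bt Z x) (decide (x = u) || decide (x = z))) with hH2def
  have hH : gr w.length H = (gr w.length X).split y s (zv w.length Z) := by
    rw [hHdef, ← hsp, gr_splitG]
  have hH2 : gr w.length H2 = (gr w.length X).split y s
      (zv w.length Z + (Pi.single u 1 + Pi.single z 1)) := by
    rw [hH2def, ← hsp, gr_splitG]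
    refine congrArg _ (funext fun a => ?_)
    simp only [zv, bt_sett, b2z_xor, Pi.add_apply, Pi.single_apply, Fin.val_inj]
    refine congrArg _ ?_
    by_cases h1 : a = u
    · subst h1; simp [b2z, huz]
    · by_cases h2 : a = z
      · subst h2; simp [b2z, h1]
      · simp [b2z, h1, h2]
  have hH2' : gr w.length H2 = gr w.length H + (star y (Pi.single u 1 + Pi.single z 1)
      + star s (Pi.single u 1 + Pi.single z 1)) := by
    rw [hH2, hH]
    unfold Gr.split
    rw [bs_star_add, bs_star_add s]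
    abel
  have hiso := sl_iso hC hsC
  have hc : (gr w.length H).ctr s y = gr w.length X := by
    rw [hH]; exact split_ctr hiso hsy hZy hZs
  have ha : (gr w.length H).adj s y = 0 := by
    rw [hH, split_adj, hiso]
    simp [hZy, hZs]
  have hEH : (gr w.length H).Eul := by rw [hH]; exact hE.split y s hZ.2.1
  have honH : (gr w.length H).On (insert s C) := by
    rw [hH]
    exact (hC.mono (subset_insert _ _)).split (mem_insert_of_mem hy) (mem_insert_self _ _)
      fun x hx => mem_insert_of_mem (n1.1 x hx).1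
  have hparH : (gr w.length H).par = (ρ : ZMod 2) := by
    rw [hH, par_split, hZy, hZs, hpar]; simp
  have hw := sl_wit hs hn hsp hC hsC hy hH n1 hK
  have hw2 := sl_wit hs hn hsp hC hsC hy hH2 n2 hK
  obtain ⟨eI, eR, eT⟩ := sl_liftE hs hn hsp hsC hz hu hy hzu hyu hyz he h4 hc ha hw
  set eH := liftE c w H P e z u y with heH
  set g := liftG c w H H2 P ρ e z u y eH with hg
  have hsm : Small w.length w [po w (addTri w H z u y), po w (addTri w H z u (sp w))] := by
    refine sl_small (by simp) ?_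
    intro o ho
    simp only [List.mem_cons, List.not_mem_nil, or_false] at ho
    rcases ho with rfl | rfl <;> rfl
  have gI : Injective (ev θ w.length g) := merge_inj hs hn hsm eI _
  have gM : ∀ t, t = y ∨ t = s → ∀ q ∈ eH :: algCA c w z u (ell c w H z u (ρ + 2) eH) eH
      (liftF c w H H2 P e y (addG w H (colC c w (ell c w H z u (ρ + 2) eH) eH H))) H,
      Injective (ev θ w.length q) → rk (gr w.length H + tri z u t) (ev θ w.length q) ≤
        rk (gr w.length H + tri z u t) (ev θ w.length g) := by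
    intro t ht q hq hi
    have := merge_ge_po hs hn hsm eI (Y := addTri w H z u t)
      (by rcases ht with rfl | rfl <;> simp [hsp]) hq (proper_of_inj _ hi)
    rw [gr_addTri] at this
    exact this
  have gR : ∃ t, (t = y ∨ t = s) ∧ ρ + 3 ≤ rk (gr w.length H + tri z u t) (ev θ w.length g) := by
    by_cases c1 : ρ + 3 ≤ rk (gr w.length H + tri z u y) (ev θ w.length eH)
    · exact ⟨y, Or.inl rfl, c1.trans (gM y (Or.inl rfl) _ (List.mem_cons_self ..) eI)⟩
    by_cases c2 : ρ + 3 ≤ rk (gr w.length H + tri z u s) (ev θ w.length eH)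
    · exact ⟨s, Or.inr rfl, c2.trans (gM s (Or.inr rfl) _ (List.mem_cons_self ..) eI)⟩
    have hl : st w.length (ell c w H z u (ρ + 2) eH) = {z, u, y, s} := by
      ext x
      rw [hs.mem_ell]
      simp only [mem_insert, mem_singleton]
      constructor
      · rintro (h | h | h)
        · exact Or.inl h
        · exact Or.inr (Or.inl h)
        · by_contra hx
          simp only [not_or] at hx
          have := sl_ell eI honH hzu hyu hyz hsz hsu hsy eR hparH eT (by omega) (by omega)
            hx.1 hx.2.1 hx.2.2.1 hx.2.2.2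
          omega
      · rintro (h | h | h | h)
        · exact Or.inl h
        · exact Or.inr (Or.inl h)
        · subst h; right; right; omega
        · subst h; right; right; omega
    have hcard : ({z, u, y, s} : Finset (Fin w.length)).card = 4 := by
      rw [card_insert_of_notMem (by simp [hzu, hyz.symm, hsz.symm]),
        card_insert_of_notMem (by simp [hyu.symm, hsu.symm]), card_pair hsy.symm]
    have h0 := Ok.ev0_inj hs hn (w := w) (by omega)
    have hF := sl_liftF hs hn (Y := colC c w (ell c w H z u (ρ + 2) eH) eH H) hsp hzu hyu hyz hsz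
      hsu hsy he hr (h4.1 z hz u hu y hy hzu hyz.symm hyu.symm) hc ha hH2' hw hw2 (colC_eul hEH)
      (hl ▸ colC_on hs hEH eI)
    obtain ⟨q, hq, qI, x, hx, hxz, hxu, hx3⟩ := algCA_spec hs hn (X := H) (a := z) (b := u)
      (l := ell c w H z u (ρ + 2) eH) (e := eH)
      (f := liftF c w H H2 P e y (addG w H (colC c w (ell c w H z u (ρ + 2) eH) eH H)))
      (σ := ρ + 2) hEH hzu (by rw [hl]; simp) (by rw [hl]; simp) (by rw [hl, hcard]; omega) eI
      (merge_inj hs hn small_po h0 _) eR
      (by rw [hparH]; push_cast; rw [show (2 : ZMod 2) = 0 from rfl, add_zero])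
      (fun x hx => by
        rw [hs.mem_ell] at hx
        simp only [not_or] at hx
        omega)
      (fun _ => by rw [hl, hcard]; omega)
    rw [hl] at hx
    simp only [mem_insert, mem_singleton, hxz, hxu, false_or] at hx
    exact ⟨x, hx, le_trans (by omega) (gM x hx q (List.mem_cons_of_mem _ hq) qI)⟩
  obtain ⟨t, ht, hrt⟩ := gR
  have hcu : (gr w.length H).ctr u z = ((gr w.length X).ctr u z).split y s (zv w.length Z) := by
    rw [hH]; exact sl_split_ctr _ hZu hyu.symm hsu.symm
  have hiso' : ∀ x, ((gr w.length X).ctr u z).adj s x = 0 :=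
    sl_iso (hC.ctr huz hz) fun h => hsC (mem_of_mem_erase h)
  have hzu1 : (gr w.length H).adj z u = 1 := by
    rw [hH, split_adj, (gr w.length X).symm, hadj]
    simp [hyz.symm, hyu.symm, hsz.symm, hsu.symm]
  have hQ := algQ_spec hs hn (X := H) (a := z) (b := u) (x := y) (y := s) (t := t) (e1 := g)
    (e2 := e) (m := ρ) hEH hzu hyz.symm hsz.symm hyu.symm hsu.symm hsy.symm ht
    (by rw [(gr w.length H).symm]; exact ha) gI he (by exact_mod_cast hrt)
    (by
      rw [hcu, split_ctr hiso' hsy hZy hZs, hzu1]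
      exact_mod_cast hgood)
  have fI := algQ_inj hs hn ((z : ℕ), (u : ℕ), (y : ℕ), (s : ℕ)) ((z : ℕ), (u : ℕ), (t : ℕ)) g H he
  refine ⟨algQ c w (z, u, y, s) (z, u, t) g e H, ?_, fI, ?_⟩
  · unfold algL liftK liftH
    rcases ht with rfl | rfl <;> simp [hsp, hg, heH, hHdef, hH2def]
  · rw [hcu, hc, hzu1] at hQ
    rcases hQ with h | h
    · left
      have e2 := rk_par (proper_of_inj (((gr w.length X).ctr u z).split y s (zv w.length Z)) fI)
      rw [par_split, par_ctr, hZy, hZs, hpar, hadj, add_zero, add_zero] at e2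
      have e3 := sl_par (ρ := ρ + 1) (e2.trans (by push_cast; rfl))
      have : (1 : ZMod 2).val = 1 := rfl
      rw [this] at h
      omega
    · right
      exact_mod_cast h

end Pool.Agent.MP_bae0ed_lc.H52
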