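import Pool.Agent.MP_bae0ed_lc.H52.SpecLift
import Pool.Agent.MP_bae0ed_lc.H52.PathT

/-!
The contraction path.
-/

set_option autoImplicit false
set_option linter.unusedSectionVars false

namespace Pool.Agent.MP_bae0ed_lc.H52

open Finset Matrix Function Module Gr

variable {c : Ctx} {F : Type} [Field F] [CharP F 2] {θ : Fe → F} {w : Un}

theorem path_twinB_iff {X : Tab} {u z : Fin w.length} :
    twinB w X u z = true ↔ Twin (gr w.length X) u z := by
  unfold twinB Twin
  rw [Bool.and_eq_true, ad_iff, isoG_iff, gr_ctrG]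

theorem path_okP_iff (hs : Sem c θ) {X : Tab} {C : St} {z u v : Fin w.length} {e : Ev} :
    okP c w X C z e (u, v) = true ↔
      Ordi (gr w.length X) (st w.length C) (ev θ w.length e) u v ∧
        (u = z ∨ ∃ t, Twin (gr w.length X) t z) := by
  unfold okP Ordi
  simp only [Bool.and_eq_true, Bool.or_eq_true, decide_eq_true_eq, Bool.not_eq_true',
    ← Bool.not_eq_true, ad_iff (n := w.length), isoG_iff, fullB_iff, gr_ctrG, st_del, hs.rkC_eq,
    any_rg, path_twinB_iff, Fin.val_inj, and_assoc]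

theorem path_par {ρ : ℕ} (h : 0 < ρ) : (ρ : ZMod 2) + 1 = ((ρ - 1 : ℕ) : ZMod 2) := by
  obtain ⟨k, rfl⟩ : ∃ k, ρ = k + 1 := ⟨ρ - 1, by omega⟩
  rw [Nat.add_sub_cancel, Nat.cast_succ, add_assoc, z2_add_self, add_zero]

/-- After adding the swapped evaluations no splitting away from `v` is free. -/
theorem path_swaps {X : Tab} {C : Finset (Fin w.length)} {z v : Fin w.length} {P : List Ev} {ρ : ℕ}
    (hC : (gr w.length X).On C) (hz : z ∈ C)
    (hP : ∀ p ∈ P, Injective (ev θ w.length p) ∧ ρ ≤ rk (gr w.length X) (ev θ w.length p))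
    (hK : ∀ y ∈ C, y ≠ z → Kill (gr w.length X) C (evs θ w.length P) y)
    (hv : v = z ∨ ∃ t, Twin (gr w.length X) t z) {y : Fin w.length} (hy : y ∈ C) (hyv : y ≠ v)
    (ζ : Fin w.length → ZMod 2) (hζ : Nt (gr w.length X) C y ζ) :
    ∃ p ∈ swaps w P z, Injective (ev θ w.length p) ∧ ρ ≤ rk (gr w.length X) (ev θ w.length p) ∧
      sv (ev θ w.length p) y ζ ∉ Rg (gr w.length X) (ev θ w.length p) := by
  by_cases hyz : y = z
  · subst hyz
    obtain ⟨t, ht⟩ := hv.resolve_left (Ne.symm hyv)
    have htC : t ∈ C := hC _ _ ht.1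
    obtain ⟨p, ⟨q, hq, rfl⟩, h1, h2⟩ := ht.kill htC hz (hK t htC (ne_of_adj ht.1)) hζ
    refine ⟨cmp w (swp w y t) q, ?_, ?_⟩
    · unfold swaps
      refine List.mem_append_right _ (List.mem_flatMap.2 ⟨t, mem_rg.2 t.2, ?_⟩)
      exact List.mem_map_of_mem hq
    · rw [ev_cmp (rep_swp w y t)]
      exact ⟨(hP q hq).1.comp (Equiv.injective _), h1 ▸ (hP q hq).2, h2⟩
  · obtain ⟨p, ⟨q, hq, rfl⟩, h⟩ := hK y hy hyz ζ hζ
    exact ⟨q, List.mem_append_left _ hq, (hP q hq).1, (hP q hq).2, h⟩

theorem path_ind (hs : Sem c θ) (hn : Ok c w.length) {s : Fin w.length} (hsp : (s : ℕ) = sp w)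
    (b : Ev) (k : ℕ) : ∀ {X : Tab} {C : St} {z : Fin w.length} {P : List Ev} {ρ : ℕ}, ρ < k →
    s ∉ st w.length C → Core (gr w.length X) (st w.length C) z ρ →
    ¬ (gr w.length X).Full (st w.length C) → P ≠ [] →
    (∀ p ∈ P, Injective (ev θ w.length p) ∧ ρ ≤ rk (gr w.length X) (ev θ w.length p)) →
    ((∀ y ∈ st w.length C, y ≠ z →
        Kill (gr w.length X) (st w.length C) (evs θ w.length P) y) ∨
      ∃ p ∈ P, ρ < rk (gr w.length X) (ev θ w.length p)) →
    Injective (ev θ w.length (unwind (pathStep c w) (pathBack c w) k (X, C, z, ρ, P) b)) ∧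
      ρ < rk (gr w.length X)
        (ev θ w.length (unwind (pathStep c w) (pathBack c w) k (X, C, z, ρ, P) b)) := by
  induction k with
  | zero => intro X C z P ρ h; omega
  | succ k ih =>
    intro X C z P ρ hk hsC hX hfull hne hP hK
    obtain ⟨he, hle⟩ := algInd_basic hs hn X C P ρ
    have hspec := algInd_spec hs hn hX hne hP
    simp only [unwind, pathBack, pathStep, pathClose]
    generalize hq : pathQ c w (X, C, (z : ℕ), ρ, P) = q
    simp only [pathQ, pathE] at hq ⊢
    generalize algInd c w X C P ρ = e at he hle hspec hq ⊢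
    obtain ⟨hne', hP', hq2, hr2⟩ := close_basic hs hn (ctrG w X q.1 q.2) (del w C q.1) q.2 X
      (algL c w X (swaps w P z) ρ e q.2 q.1) he he
    refine ⟨line_inj hs hn small_po (Or.inl hq2), ?_⟩
    have hleft := line_left_po hs hn (small_po (X := X)) (reval c w [po w X]
      (unwind (pathStep c w) (pathBack c w) k (ctrG w X q.1 q.2, del w C q.1, q.2, ρ - 1,
        (close c w (ctrG w X q.1 q.2) (del w C q.1) q.2 e X e
          (algL c w X (swaps w P z) ρ e q.2 q.1)).1) b) q.1) (List.mem_singleton_self _)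
      (proper_of_inj _ hq2)
    by_cases hlt : ρ < rk (gr w.length X) (ev θ w.length e)
    · exact hlt.trans_le (hr2.trans hleft)
    obtain ⟨p0, hp0⟩ := List.exists_mem_of_ne_nil P hne
    have hre : rk (gr w.length X) (ev θ w.length e) = ρ :=
      le_antisymm (not_lt.1 hlt) ((hP p0 hp0).2.trans (hle p0 hp0 (hP p0 hp0).1))
    have hK : ∀ y ∈ st w.length C, y ≠ z →
        Kill (gr w.length X) (st w.length C) (evs θ w.length P) y := by
      refine hK.resolve_right ?_
      rintro ⟨p, hp, h⟩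
      exact hlt (h.trans_le (hle p hp (hP p hp).1))
    have h4 := (hspec hK).resolve_left hlt
    have hρ : 0 < ρ := by
      rw [← hre]
      refine rk_pos (proper_of_inj _ he) fun h0 => hX.zn fun x => ?_
      rw [h0]; rfl
    have hconn := conn_of_erase hX.ons hX.zC hX.zn hX.conn
    have hbig := hX.big
    have hdeg : ∀ x ∈ st w.length C, 4 ≤ ((gr w.length X).nbr x).card := fun x hx =>
      four_le_deg hX.eul hX.ons hconn (by omega) he (by rw [hre]; exact h4.1) hx
    obtain ⟨u, v, hpick, hok⟩ := pick_pairs (p := okP c w X C z e) (0, 0) (by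
      obtain ⟨u, v, h⟩ := exists_ordi hX.eul hX.ons hconn hX.zC he hfull hdeg
      exact ⟨u, v, (path_okP_iff hs).2 h⟩)
    obtain rfl : q = ((u : ℕ), (v : ℕ)) := hq.symm.trans hpick
    obtain ⟨⟨hadj, hgood, hiso, hfull'⟩, hv⟩ := (path_okP_iff hs).1 hok
    have huC : u ∈ st w.length C := hX.ons _ _ hadj
    have hvC : v ∈ st w.length C := hX.ons.right hadj
    have huv : u ≠ v := ne_of_adj hadj
    have hsw := fun y hy hyv => path_swaps (y := y) hX.ons hX.zC hP hK hv hy hyv
    have hconnv : (gr w.length X).Conn ((st w.length C).erase u) := by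
      by_cases huz : u = z
      · rw [huz]; exact hX.conn
      · exact conn_erase hX.eul hX.ons hconn huC fun Z hZ _ => hK u huC huz Z hZ
    have hconn' := conn_ctr' (P := {p : Fin w.length → F | Injective p}) hX.eul hX.ons huC hvC huv
      hconnv (fun _ h => h) fun Z hZ => by
        obtain ⟨p, _, h1, _, h2⟩ := hsw v hvC huv.symm Z hZ
        exact ⟨_, h1, h2⟩
    have hX' : Core (gr w.length (ctrG w X u v)) (st w.length (del w C u)) v (ρ - 1) := by
      rw [gr_ctrG, st_del]
      refine ⟨hX.eul.ctr u v, hX.ons.ctr huv hvC, mem_erase.2 ⟨huv.symm, hvC⟩, hiso, hconn', ?_, ?_⟩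
      · rw [card_erase_of_mem huC]; omega
      · rw [par_ctr, hX.par, hadj, path_par hρ]
    have hsC' : s ∉ st w.length (del w C u) := by
      rw [st_del]; exact fun h => hsC (mem_of_mem_erase h)
    have hr' : ρ - 1 ≤ rk (gr w.length (ctrG w X u v)) (ev θ w.length e) := by
      rw [gr_ctrG]; omega
    have hcl := close_spec hs hn (X := ctrG w X u v) (C := del w C u) (z := v) (Xp := X)
      (gen := algL c w X (swaps w P z) ρ e v u) (ρp := ρ) hsp hX'.eul hX'.ons hsC' he he hr' (by
        intro y Z hy hyv hZ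
        rw [st_del] at hy hZ
        rw [gr_ctrG] at hZ ⊢
        obtain ⟨hyu, hyC⟩ := mem_erase.1 hy
        obtain ⟨f, hf, hfi, h⟩ := algL_spec hs hn hsp hX.eul hX.ons hsC hvC huC hyC hyu hyv hadj
          hX.par he hre.ge (by omega) h4 hZ (hsw y hyC hyu)
        rcases h with h | h
        · exact Or.inl ⟨f, hf, proper_of_inj _ hfi, by omega⟩
        · exact Or.inr ⟨f, hf, proper_of_inj _ hfi, h⟩)
    rw [← or_assoc] at hcl
    rcases hcl with hcl | hcl
    · obtain ⟨hfi, hf⟩ := ih (by omega) hsC' hX' (by rw [gr_ctrG, st_del]; exact hfull') hne'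
        (fun p hp => ⟨(hP' p hp).1, hr'.trans (hP' p hp).2⟩) hcl
      have h1 := reval_ctr_po hs hn (small_po (X := X)) hfi (List.mem_singleton_self _) u v
      refine lt_of_lt_of_le ?_ (line_right_po hs hn (small_po (X := X)) _
        (List.mem_singleton_self _) (proper_of_inj _ (reval_inj hs hn small_po hfi _)))
      rw [gr_ctrG] at hf
      rw [hadj, show (1 : ZMod 2).val = 1 from rfl] at h1
      dsimp only at h1 hf ⊢
      omega
    · exact hcl.trans_le hleft

theorem algP_spec (hs : Sem c θ) (hn : Ok c w.length) {X : Tab} {C : St} {z s : Fin w.length}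
    {P : List Ev} {ρ : ℕ} (hsp : (s : ℕ) = sp w) (hsC : s ∉ st w.length C)
    (hX : Core (gr w.length X) (st w.length C) z ρ)
    (hfull : ¬ (gr w.length X).Full (st w.length C)) (hne : P ≠ [])
    (hP : ∀ p ∈ P, Injective (ev θ w.length p) ∧ ρ ≤ rk (gr w.length X) (ev θ w.length p))
    (hK : (∀ y ∈ st w.length C, y ≠ z →
        Kill (gr w.length X) (st w.length C) (evs θ w.length P) y) ∨
      ∃ p ∈ P, ρ < rk (gr w.length X) (ev θ w.length p)) :
    Injective (ev θ w.length (algP c w (X, C, z, ρ, P))) ∧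
      ρ < rk (gr w.length X) (ev θ w.length (algP c w (X, C, z, ρ, P))) := by
  refine path_ind hs hn hsp (ev0 w) w.length ?_ hsC hX hfull hne hP hK
  have h1 := hX.big
  have h2 := card_le_univ (st w.length C)
  rw [Fintype.card_fin] at h2
  omega

end Pool.Agent.MP_bae0ed_lc.H52
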