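import Pool.Agent.MP_bae0ed_lc.H52.Line

/-!
The lemma on two pairs and a triangle.
-/

set_option autoImplicit false
set_option linter.unusedSectionVars false

namespace Pool.Agent.MP_bae0ed_lc.H52

open Finset Matrix Function Module Gr

section Abstract

variable {V : Type} [DecidableEq V] [Fintype V] {F : Type} [Field F] [CharP F 2]

theorem sq_row (X : Gr V) {b a u : V} (hb : u ≠ b) (ha : u ≠ a) (hab : a ≠ b) (z : V) :
    (X.ctr b a).adj u z =
      if z = b then 0 else if z = a then X.adj u a + X.adj u b else X.adj u z := by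
  rw [ctr_adj, if_neg hb, if_neg ha, X.symm b u]
  by_cases h1 : z = b
  · subst h1; simp [hab.symm, z2_add_self]
  · by_cases h2 : z = a
    · subst h2; simp [h1]
    · simp [h1, h2]

/-- Contraction of an outside vertex commutes with an identification. -/
theorem sq_comm (X : Gr V) {b a u : V} (hb : u ≠ b) (ha : u ≠ a) (v : V) :
    (X.ctr u v).ctr b a = (X.ctr b a).ctr u (update id b a v) := by
  have h : ∀ z, update id b a z = update id b a u → z = u := by
    intro z hz
    rw [update_of_ne hb] at hz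
    by_cases h1 : z = b
    · subst h1; simp at hz; exact absurd hz.symm ha
    · rwa [update_of_ne h1] at hz
  have := ctr_push (φ := update id b a) X v h
  rw [update_of_ne hb] at this
  rw [ctr_eq_push (X.ctr u v), ← this, ← ctr_eq_push]
  rfl

/-- The four points are distinct. -/
structure SqD (a b x y : V) : Prop where
  ab : a ≠ b
  ax : a ≠ x
  ay : a ≠ y
  bx : b ≠ x
  by' : b ≠ y
  xy : x ≠ y

/-- The vertex is outside the four points. -/
structure SqO (a b x y u : V) : Prop where
  a : u ≠ a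
  b : u ≠ b
  x : u ≠ x
  y : u ≠ y

variable {a b x y t u v : V} {X : Gr V} {e1 e2 : V → F}

/-- The double identification. -/
def sqAB (X : Gr V) (a b x y : V) : Gr V := (X.ctr b a).ctr y x

def sqChi (a b x y v : V) : V := update id y x (update id b a v)

theorem sqAB_ctr (X : Gr V) (hu : SqO a b x y u) (v : V) :
    sqAB (X.ctr u v) a b x y = (sqAB X a b x y).ctr u (sqChi a b x y v) := by
  unfold sqAB sqChi
  rw [sq_comm X hu.b hu.a, sq_comm _ hu.y hu.x]

theorem sqAB_row (hD : SqD a b x y) (X : Gr V) (hu : SqO a b x y u) (z : V) :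
    (sqAB X a b x y).adj u z = if z = y then 0 else if z = x then X.adj u x + X.adj u y else
      if z = b then 0 else if z = a then X.adj u a + X.adj u b else X.adj u z := by
  unfold sqAB
  rw [sq_row _ hu.y hu.x hD.xy, sq_row _ hu.b hu.a hD.ab, sq_row _ hu.b hu.a hD.ab,
    sq_row _ hu.b hu.a hD.ab]
  simp only [if_neg hD.bx.symm, if_neg hD.ax.symm, if_neg hD.by'.symm, if_neg hD.ay.symm]

theorem sqChi_a (hD : SqD a b x y) : sqChi a b x y a = a := by
  simp [sqChi, hD.ab, hD.ay]

theorem sqChi_b (hD : SqD a b x y) : sqChi a b x y b = a := by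
  simp [sqChi, hD.ay]

theorem sqChi_x (hD : SqD a b x y) : sqChi a b x y x = x := by
  simp [sqChi, hD.bx.symm, hD.xy]

theorem sqChi_y (hD : SqD a b x y) : sqChi a b x y y = x := by
  simp [sqChi, hD.by'.symm]

theorem sqChi_o (hv : SqO a b x y v) : sqChi a b x y v = v := by
  simp [sqChi, hv.b, hv.y]

theorem sq_cases (a b x y v : V) : v = a ∨ v = b ∨ v = x ∨ v = y ∨ SqO a b x y v := by
  by_cases h1 : v = a; · simp [h1]
  by_cases h2 : v = b; · simp [h2]
  by_cases h3 : v = x; · simp [h3]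
  by_cases h4 : v = y; · simp [h4]
  exact Or.inr (Or.inr (Or.inr (Or.inr ⟨h1, h2, h3, h4⟩)))

theorem sq_row_a (hD : SqD a b x y) (X : Gr V) (hu : SqO a b x y u) :
    (sqAB X a b x y).adj u a = X.adj u a + X.adj u b := by
  rw [sqAB_row hD X hu]; simp [hD.ay, hD.ax, hD.ab]

theorem sq_row_x (hD : SqD a b x y) (X : Gr V) (hu : SqO a b x y u) :
    (sqAB X a b x y).adj u x = X.adj u x + X.adj u y := by
  rw [sqAB_row hD X hu]; simp [hD.xy]

theorem sq_row_o (hD : SqD a b x y) (X : Gr V) (hu : SqO a b x y u) (hv : SqO a b x y v) :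
    (sqAB X a b x y).adj u v = X.adj u v := by
  rw [sqAB_row hD X hu]; simp [hv.a, hv.b, hv.x, hv.y]

theorem sq_pair (X : Gr V) {p q : V} (hp : u ≠ p) (hq : u ≠ q) (_hpq : p ≠ q) (v : V) :
    (X.ctr u v).adj p q = X.adj p q + (if v = p then X.adj u q else 0) +
      (if v = q then X.adj u p else 0) := by
  rw [ctr_adj, if_neg hp.symm, if_neg hq.symm]
  simp only [eq_comm (a := v), add_zero, add_assoc]

/-- An allowed step. -/
structure SqOk (a b x y t : V) (e1 e2 : V → F) (X : Gr V) (u v : V) : Prop where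
  out : SqO a b x y u
  adj : X.adj u v = 1
  xy : (X.ctr u v).adj x y = 0
  ab : (X.ctr u v).adj a b = 1 → X.adj a b = 1
  r1 : rk (X + tri a b t) e1 ≤ rk (X.ctr u v + tri a b t) e1 + 1
  r2 : rk (sqAB X a b x y) e2 + (X.adj a b).val ≤
    rk (sqAB (X.ctr u v) a b x y) e2 + ((X.ctr u v).adj a b).val + 1

theorem sq_tri_ctr (X : Gr V) (hu : SqO a b x y u) (ht : t = x ∨ t = y) (v : V) :
    (X + tri a b t).ctr u v = X.ctr u v + tri a b t := by
  have hut : u ≠ t := by rcases ht with rfl | rfl; exacts [hu.x, hu.y]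
  rw [ctr_add, ctr_of_iso (X := tri a b t) (tri_adj_of_not_mem hu.a hu.b hut)]

theorem sq_tri_nbr (X : Gr V) (hu : SqO a b x y u) (ht : t = x ∨ t = y) :
    (X + tri a b t).nbr u = X.nbr u := by
  have hut : u ≠ t := by rcases ht with rfl | rfl; exacts [hu.x, hu.y]
  ext z
  simp [mem_nbr, tri_adj_of_not_mem hu.a hu.b hut]

theorem sq_bad1 (hE : X.Eul) (hu : SqO a b x y u) (ht : t = x ∨ t = y) (h1 : Injective e1)
    (hne : (X.nbr u).Nonempty) :
    2 * ((X.nbr u).filter fun v =>
      rk (X.ctr u v + tri a b t) e1 + 1 < rk (X + tri a b t) e1).card + 2 ≤ (X.nbr u).card := by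
  have := count_bad (X := X + tri a b t) (p := e1) (u := u) (hE.add (eul_tri a b t))
    (proper_of_inj _ h1) h1.injOn (by rwa [sq_tri_nbr X hu ht])
  simpa only [sq_tri_nbr X hu ht, sq_tri_ctr X hu ht] using this

theorem z2_two {p q : ZMod 2} (h : p + q = 0) (hp : p = 1) : q = 1 := by revert p q; decide

theorem z2_two' {p q : ZMod 2} (h : p + q = 0) (hq : q = 1) : p = 1 := by revert p q; decide

theorem z2_one {p q : ZMod 2} (h : p + q = 1) (hp : p = 1) : q = 0 := by revert p q; decide

theorem z2_one' {p q : ZMod 2} (h : p + q = 1) (hq : q = 1) : p = 0 := by revert p q; decide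

theorem sq_exists_ok (hD : SqD a b x y) (hE : X.Eul) (hxy : X.adj x y = 0) (hu : SqO a b x y u)
    (ht : t = x ∨ t = y) (h1 : Injective e1) (h2 : Injective e2)
    (hall : ¬ ((X.adj u a = 1 ∧ X.adj u b = 1) ∧ (X.adj u x = 1 ∧ X.adj u y = 1)))
    (hne : ((sqAB X a b x y).nbr u).Nonempty) : ∃ v, SqOk a b x y t e1 e2 X u v := by
  set G := sqAB X a b x y with hG
  set χ := sqChi a b x y with hχ
  set A := (X.nbr u).filter fun v => G.adj u (χ v) = 1 with hA
  have ra := sq_row_a hD X hu
  have rx := sq_row_x hD X hu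
  have ca := sqChi_a hD
  have cb := sqChi_b hD
  have cx := sqChi_x hD
  have cy := sqChi_y hD
  rw [← hG] at ra rx
  rw [← hχ] at ca cb cx cy
  have hmem : ∀ v, v ∈ A ↔ X.adj u v = 1 ∧ G.adj u (χ v) = 1 := fun v => by
    simp [hA, mem_nbr]
  have Aa : a ∈ A → X.adj u b = 0 := fun h => by
    obtain ⟨p, q⟩ := (hmem _).1 h
    rw [ca, ra] at q; exact z2_one q p
  have Ab : b ∈ A → X.adj u a = 0 := fun h => by
    obtain ⟨p, q⟩ := (hmem _).1 h
    rw [cb, ra] at q; exact z2_one' q p
  have Ax : x ∈ A → X.adj u y = 0 := fun h => by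
    obtain ⟨p, q⟩ := (hmem _).1 h
    rw [cx, rx] at q; exact z2_one q p
  have Ay : y ∈ A → X.adj u x = 0 := fun h => by
    obtain ⟨p, q⟩ := (hmem _).1 h
    rw [cy, rx] at q; exact z2_one' q p
  have hinj : Set.InjOn χ A := by
    intro v hv v' hv' e
    have hax := hD.ax
    have n1 : ∀ z, z ∈ A → X.adj u z ≠ 0 := fun z hz h =>
      zero_ne_one (h.symm.trans ((hmem _).1 hz).1)
    have co : ∀ z, SqO a b x y z → χ z = z := fun z hz => sqChi_o hz
    rcases sq_cases a b x y v with h | h | h | h | h <;>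
      rcases sq_cases a b x y v' with h' | h' | h' | h' | h'
    all_goals first
      | exact h.trans h'.symm
      | exact absurd (Aa (h ▸ hv)) (n1 _ (h' ▸ hv'))
      | exact absurd (Ab (h ▸ hv)) (n1 _ (h' ▸ hv'))
      | exact absurd (Ax (h ▸ hv)) (n1 _ (h' ▸ hv'))
      | exact absurd (Ay (h ▸ hv)) (n1 _ (h' ▸ hv'))
      | (rw [co _ h, co _ h'] at e; exact e)
      | (rw [co _ h', h] at e
         simp only [ca, cb, cx, cy] at e
         first | exact absurd e.symm h'.a | exact absurd e.symm h'.x)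
      | (rw [co _ h, h'] at e
         simp only [ca, cb, cx, cy] at e
         first | exact absurd e h.a | exact absurd e h.x)
      | (rw [h, h'] at e
         simp only [ca, cb, cx, cy] at e
         first | exact absurd e hax | exact absurd e.symm hax)
  have hsub : G.nbr u ⊆ A.image χ := by
    intro z hz
    rw [mem_nbr] at hz
    rw [mem_image]
    rcases sq_cases a b x y z with rfl | rfl | rfl | rfl | ho
    · rcases z2_add_eq_one (ra.symm.trans hz) with p | p
      · exact ⟨_, (hmem _).2 ⟨p, by rw [ca]; exact hz⟩, ca⟩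
      · exact ⟨_, (hmem _).2 ⟨p, by rw [cb]; exact hz⟩, cb⟩
    · rw [hG, sqAB_row hD X hu] at hz
      simp [hD.by', hD.bx] at hz
    · rcases z2_add_eq_one (rx.symm.trans hz) with p | p
      · exact ⟨_, (hmem _).2 ⟨p, by rw [cx]; exact hz⟩, cx⟩
      · exact ⟨_, (hmem _).2 ⟨p, by rw [cy]; exact hz⟩, cy⟩
    · rw [hG, sqAB_row hD X hu] at hz
      simp at hz
    · have e : χ z = z := sqChi_o ho
      exact ⟨z, (hmem _).2 ⟨by rw [← sq_row_o hD X hu ho]; exact hz, by rw [e]; exact hz⟩, e⟩
  have c1 : (G.nbr u).card ≤ A.card := (card_le_card hsub).trans card_image_le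
  have c2 : (X.nbr u).card ≤ A.card + 2 := by
    have key : ∀ p q : V, X.nbr u ⊆ A ∪ {p, q} → (X.nbr u).card ≤ A.card + 2 := fun p q h =>
      (card_le_card h).trans ((card_union_le _ _).trans (Nat.add_le_add_left card_le_two _))
    have ho : ∀ v, SqO a b x y v → X.adj u v = 1 → v ∈ A := fun v ho p =>
      (hmem _).2 ⟨p, by rw [hχ, sqChi_o ho, hG, sq_row_o hD X hu ho]; exact p⟩
    by_cases hab : X.adj u a = 1 ∧ X.adj u b = 1
    · have hxy' : ¬ (X.adj u x = 1 ∧ X.adj u y = 1) := fun h => hall ⟨hab, h⟩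
      refine key a b fun v hv => ?_
      rw [mem_nbr] at hv
      rcases sq_cases a b x y v with rfl | rfl | rfl | rfl | h
      · simp
      · simp
      · refine mem_union_left _ ((hmem _).2 ⟨hv, ?_⟩)
        rw [cx, rx, hv, z2_ne_one.1 fun h => hxy' ⟨hv, h⟩, add_zero]
      · refine mem_union_left _ ((hmem _).2 ⟨hv, ?_⟩)
        rw [cy, rx, hv, z2_ne_one.1 fun h => hxy' ⟨h, hv⟩, zero_add]
      · exact mem_union_left _ (ho v h hv)
    · refine key x y fun v hv => ?_
      rw [mem_nbr] at hv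
      rcases sq_cases a b x y v with rfl | rfl | rfl | rfl | h
      · refine mem_union_left _ ((hmem _).2 ⟨hv, ?_⟩)
        rw [ca, ra, hv, z2_ne_one.1 fun h => hab ⟨hv, h⟩, add_zero]
      · refine mem_union_left _ ((hmem _).2 ⟨hv, ?_⟩)
        rw [cb, ra, hv, z2_ne_one.1 fun h => hab ⟨h, hv⟩, zero_add]
      · simp
      · simp
      · exact mem_union_left _ (ho v h hv)
  have hAne : A.Nonempty := by
    obtain ⟨z, hz⟩ := hne
    obtain ⟨v, hv, -⟩ := mem_image.1 (hsub hz)
    exact ⟨v, hv⟩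
  have b1 := sq_bad1 (e1 := e1) hE hu ht h1 (hAne.mono (filter_subset _ _))
  have b2 := count_bad (X := G) (p := e2) (u := u) ((hE.ctr b a).ctr y x) (proper_of_inj _ h2)
    h2.injOn hne
  set B1 := (X.nbr u).filter fun v =>
    rk (X.ctr u v + tri a b t) e1 + 1 < rk (X + tri a b t) e1 with hB1
  set B2 := (G.nbr u).filter fun z => rk (G.ctr u z) e2 + 1 < rk G e2 with hB2
  have c3 : (A.filter fun v => χ v ∈ B2).card ≤ B2.card :=
    card_le_card_of_injOn χ (fun v hv => (mem_filter.1 hv).2)
      (hinj.mono (coe_subset.2 (filter_subset _ _)))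
  obtain ⟨v, hv, hv'⟩ : ∃ v ∈ A, v ∉ B1 ∪ A.filter fun v => χ v ∈ B2 := by
    refine exists_mem_notMem_of_card_lt_card ?_
    have := card_union_le B1 (A.filter fun v => χ v ∈ B2)
    omega
  obtain ⟨p, q⟩ := (hmem _).1 hv
  rw [mem_union, not_or] at hv'
  have eab : (X.ctr u v).adj a b = X.adj a b := by
    rw [sq_pair X hu.a hu.b hD.ab]
    by_cases h : v = a
    · subst h; simp [Aa hv, hD.ab]
    · by_cases h' : v = b
      · subst h'; simp [Ab hv, h]
      · simp [h, h']
  refine ⟨v, hu, p, ?_, fun h => eab ▸ h, ?_, ?_⟩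
  · rw [sq_pair X hu.x hu.y hD.xy, hxy]
    by_cases h : v = x
    · subst h; simp [Ax hv, hD.xy]
    · by_cases h' : v = y
      · subst h'; simp [Ay hv, h]
      · simp [h, h']
  · by_contra h
    exact hv'.1 (mem_filter.2 ⟨mem_nbr.2 p, by omega⟩)
  · rw [eab, sqAB_ctr X hu, ← hG, ← hχ]
    by_contra h
    exact hv'.2 (mem_filter.2 ⟨hv, mem_filter.2 ⟨mem_nbr.2 q, by omega⟩⟩)

/-- The shape of a terminal state. -/
theorem sq_terminal (hD : SqD a b x y) (hE : X.Eul) (hxy : X.adj x y = 0)
    (ht : t = x ∨ t = y) (h1 : Injective e1) (h2 : Injective e2)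
    (hno : ∀ u v, ¬ SqOk a b x y t e1 e2 X u v) :
    (∃ u, SqO a b x y u ∧ X.adj u x = 1 ∧ X.adj u y = 1 ∧ (sqAB X a b x y).Iso u) ∨
    (∃ u, SqO a b x y u ∧ X.adj u a = 1 ∧ X.adj u b = 1 ∧ X.adj a b = 0 ∧
      (sqAB X a b x y).Iso u) ∨
    (∃ u, SqO a b x y u ∧ X.adj u x = 1 ∧ X.adj u y = 1 ∧ (sqAB X a b x y).Iso x) ∨
    X.On {a, b, x, y} := by
  by_cases hall : ∀ u, SqO a b x y u → ¬ X.Iso u →
      (X.adj u a = 1 ∧ X.adj u b = 1) ∧ (X.adj u x = 1 ∧ X.adj u y = 1)
  · right; right
    by_cases hex : ∃ u, SqO a b x y u ∧ ¬ X.Iso u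
    · obtain ⟨u, hu, hu'⟩ := hex
      refine Or.inl ⟨u, hu, (hall u hu hu').2.1, (hall u hu hu').2.2, ?_⟩
      have hG : (sqAB X a b x y).Eul := (hE.ctr b a).ctr y x
      have hz : ∀ z, z ≠ a → (sqAB X a b x y).adj x z = 0 := by
        intro z hz
        rcases sq_cases a b x y z with rfl | rfl | rfl | rfl | ho
        · exact absurd rfl hz
        · rw [Gr.symm]
          unfold sqAB
          rw [sq_row _ hD.by' hD.bx hD.xy]
          simp [hD.xy, ctr_adj_left hD.ab.symm]
        · exact Gr.irr _ _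
        · rw [Gr.symm]; exact ctr_adj_left hD.xy.symm _
        · rw [Gr.symm, sq_row_x hD X ho]
          by_cases hi : X.Iso z
          · rw [hi, hi, add_zero]
          · rw [(hall z ho hi).2.1, (hall z ho hi).2.2]; decide
      intro z
      by_cases h : z = a
      · subst h
        by_contra h'
        obtain ⟨z', h3, h4⟩ := hG.exists_other (z2_ne_zero.1 h')
        rw [hz z' h3] at h4
        exact zero_ne_one h4
      · exact hz z h
    · refine Or.inr fun p q hpq => ?_
      rcases sq_cases a b x y p with rfl | rfl | rfl | rfl | ho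
      · simp
      · simp
      · simp
      · simp
      · exact absurd ⟨p, ho, fun hi => zero_ne_one ((hi q).symm.trans hpq)⟩ hex
  · push Not at hall
    obtain ⟨u, hu, hu', hn⟩ := hall
    have hn' : ¬ ((X.adj u a = 1 ∧ X.adj u b = 1) ∧ (X.adj u x = 1 ∧ X.adj u y = 1)) :=
      fun h => hn h.1 h.2.1 h.2.2
    have hiso : (sqAB X a b x y).Iso u := by
      intro z
      by_contra h
      obtain ⟨v, hv⟩ := sq_exists_ok hD hE hxy hu ht h1 h2 hn' ⟨z, mem_nbr.2 (z2_ne_zero.1 h)⟩
      exact hno u v hv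
    have ra := (sq_row_a hD X hu).symm.trans (hiso a)
    have rx := (sq_row_x hD X hu).symm.trans (hiso x)
    have ro : ∀ z, SqO a b x y z → X.adj u z = 0 := fun z hz =>
      (sq_row_o hD X hu hz).symm.trans (hiso z)
    by_cases hx : X.adj u x = 1
    · exact Or.inl ⟨u, hu, hx, z2_two rx hx, hiso⟩
    have hy : X.adj u y ≠ 1 := fun h => hx (z2_two' rx h)
    have hab : X.adj u a = 1 ∧ X.adj u b = 1 := by
      obtain ⟨z, hz⟩ : ∃ z, X.adj u z = 1 := by
        by_contra h
        push Not at h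
        exact hu' fun z => z2_ne_one.1 (h z)
      rcases sq_cases a b x y z with rfl | rfl | rfl | rfl | ho
      · exact ⟨hz, z2_two ra hz⟩
      · exact ⟨z2_two' ra hz, hz⟩
      · exact absurd hz hx
      · exact absurd hz hy
      · exact absurd ((ro z ho).symm.trans hz) zero_ne_one
    rcases z2 (X.adj a b) with h0 | h0
    · exact Or.inr (Or.inl ⟨u, hu, hab.1, hab.2, h0, hiso⟩)
    exfalso
    have hsub : X.nbr u ⊆ {a, b} := by
      intro z hz
      rw [mem_nbr] at hz
      rcases sq_cases a b x y z with rfl | rfl | rfl | rfl | ho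
      · simp
      · simp
      · exact absurd hz hx
      · exact absurd hz hy
      · exact absurd ((ro z ho).symm.trans hz) zero_ne_one
    have c1 : (X.nbr u).card ≤ 2 := (card_le_card hsub).trans card_le_two
    have b1 := sq_bad1 (e1 := e1) hE hu ht h1 ⟨a, mem_nbr.2 hab.1⟩
    have eab : (X.ctr u a).adj a b = 0 := by
      rw [sq_pair X hu.a hu.b hD.ab, h0]
      simp [hab.2, hD.ab, z2_add_self]
    refine hno u a ⟨hu, hab.1, ?_, fun _ => h0, ?_, ?_⟩
    · rw [sq_pair X hu.x hu.y hD.xy, hxy]; simp [hD.ax, hD.ay]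
    · by_contra h
      have : 0 < ((X.nbr u).filter fun v =>
          rk (X.ctr u v + tri a b t) e1 + 1 < rk (X + tri a b t) e1).card :=
        card_pos.2 ⟨a, mem_filter.2 ⟨mem_nbr.2 hab.1, by omega⟩⟩
      omega
    · rw [sqAB_ctr X hu, ctr_of_iso hiso, eab, h0]
      simp [ZMod.val_one]

theorem sq_swap (hD : SqD a b x y) (X : Gr V) :
    (X.ctr y x).ctr b a = (X.ctr b a).ctr y x := by
  rw [sq_comm X hD.by'.symm hD.ay.symm, update_of_ne hD.bx.symm]
  rfl

theorem sq_two (X : Gr V) (hxy : x ≠ y) (hx : u ≠ x) (hy : u ≠ y) :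
    (X.ctr x u).ctr y u = (X.ctr y x).ctr x u := by
  simp only [ctr_eq_push, push_push]
  congr 1
  funext z
  by_cases h1 : z = x
  · subst h1; simp [hxy, hy]
  · by_cases h2 : z = y
    · subst h2; simp [h1]
    · simp [h1, h2]

end Abstract

variable {c : Ctx} {F : Type} [Field F] [CharP F 2] {θ : Fe → F} {w : Un}

theorem sq_small (D : ℕ × ℕ × ℕ × ℕ) (X : Tab) : Small w.length w (objQ w D X) := by
  refine ⟨by omega, ?_, ?_⟩
  · have : 1 ≤ (w.length + 1) ^ 4 := Nat.one_le_pow _ _ (by omega)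
    simp only [objQ, List.length_cons, List.length_nil]
    omega
  · intro o ho
    simp only [objQ, po, List.mem_cons, List.not_mem_nil, or_false] at ho
    rcases ho with rfl | rfl <;> simp <;> omega

theorem sq_hok (D : ℕ × ℕ × ℕ × ℕ) (t : ℕ × ℕ × ℕ) (e1 e2 : Ev) (T : Tab) (u v : Fin w.length)
    (h : okQ c w D t e1 e2 T (u, v) = true) : ad T u v = true := by
  simp only [okQ, Bool.and_eq_true] at h
  exact h.1.1.1.1.2

theorem algQ_inj (hs : Sem c θ) (hn : Ok c w.length) (D : ℕ × ℕ × ℕ × ℕ) (t : ℕ × ℕ × ℕ) (e1 : Ev)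
    {e2 : Ev} (X : Tab) (h2 : Injective (ev θ w.length e2)) :
    Injective (ev θ w.length (algQ c w D t e1 e2 X)) := by
  refine grun_spec (γ := Unit) (fun _ _ => True) (fun _ _ f => Injective (ev θ w.length f))
    (sq_hok D t e1 e2) (fun T g u v _ _ _ => ⟨(), trivial, fun f hf => ?_⟩)
    (fun T g _ _ => ?_) (g := ()) trivial
  · exact reval_inj hs hn (sq_small D T) hf _
  · exact merge_inj hs hn (sq_small D T) h2 _

theorem sq_ok_iff (hs : Sem c θ) {T : Tab} {a b x y t u v : Fin w.length} {e1 e2 : Ev} :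
    okQ c w (a, b, x, y) (a, b, t) e1 e2 T (u, v) = true ↔
      SqOk a b x y t (ev θ w.length e1) (ev θ w.length e2) (gr w.length T) u v := by
  have hval : ∀ (S : Tab) (p q : Fin w.length), (ad S p q).toNat = ((gr w.length S).adj p q).val :=
    fun S p q => (b2z_val _).symm
  simp only [okQ, qAB, inD, Bool.and_eq_true, Bool.or_eq_true, Bool.not_eq_true',
    Bool.or_eq_false_iff, decide_eq_true_eq, decide_eq_false_iff_not, hs.rkC_eq, gr_addTri,
    gr_ctrG, hval, ad_iff (n := w.length), ad_false_iff (n := w.length), Fin.val_inj]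
  constructor
  · rintro ⟨⟨⟨⟨⟨⟨⟨⟨p1, p2⟩, p3⟩, p4⟩, p5⟩, p6⟩, p7⟩, p8⟩, p9⟩
    refine ⟨⟨p1, p2, p3, p4⟩, p5, p6, fun h => p7.resolve_left ?_, p8, p9⟩
    rw [h]; exact one_ne_zero
  · rintro ⟨⟨p1, p2, p3, p4⟩, p5, p6, p7, p8, p9⟩
    refine ⟨⟨⟨⟨⟨⟨⟨⟨p1, p2⟩, p3⟩, p4⟩, p5⟩, p6⟩, ?_⟩, p8⟩, p9⟩
    rcases z2 (((gr w.length T).ctr u v).adj a b) with h | h
    · exact Or.inl h
    · exact Or.inr (p7 h)

theorem sq_lift (hs : Sem c θ) (hn : Ok c w.length) {T Y : Tab} {D : ℕ × ℕ × ℕ × ℕ} {e2 : Ev}
    (h2 : Injective (ev θ w.length e2)) (ho : po w Y ∈ objQ w D T) {ps : List Ev}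
    {p q p' q' : Fin w.length}
    (hm : lift c w Y [((p : ℕ), (q : ℕ)), ((p' : ℕ), (q' : ℕ))] e2 ∈ ps)
    (a1 : (gr w.length Y).adj p q = 1) (a2 : ((gr w.length Y).ctr p q).adj p' q' = 1) :
    rk (((gr w.length Y).ctr p q).ctr p' q') (ev θ w.length e2) + 2 ≤
      rk (gr w.length Y) (ev θ w.length (mergeAll c w (objQ w D T) e2 ps)) := by
  obtain ⟨l1, l2⟩ := lift_spec hs hn Y [(p, q), (p', q')] h2
  simp only [List.map_cons, List.map_nil, con, cnt, a1, a2, ZMod.val_one] at l1 l2
  exact l2.trans (merge_ge_po hs hn (sq_small D T) h2 ho (List.mem_cons_of_mem _ hm)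
    (proper_of_inj _ l1))

/-- The list of candidate evaluations in the base case. -/
def sqPs (c : Ctx) (w : Un) (D : ℕ × ℕ × ℕ × ℕ) (e2 : Ev) (X : Tab) : List Ev :=
  (rg w).flatMap fun u =>
    [lift c w (ctrG w X D.2.1 D.1) [(u, D.2.2.1), (D.2.2.2, D.2.2.1)] e2,
     lift c w (ctrG w X D.2.1 D.1) [(D.2.2.1, u), (D.2.2.2, u)] e2,
     lift c w (ctrG w X D.2.2.2 D.2.2.1) [(u, D.1), (D.2.1, D.1)] e2]

theorem baseQ_eq (D : ℕ × ℕ × ℕ × ℕ) (e2 : Ev) (X : Tab) :
    baseQ c w D e2 X = mergeAll c w (objQ w D X) e2 (sqPs c w D e2 X) := rfl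

theorem algQ_spec (hs : Sem c θ) (hn : Ok c w.length) {X : Tab} {a b x y t : Fin w.length}
    {e1 e2 : Ev} {m : ℤ} (hE : (gr w.length X).Eul)
    (hab : a ≠ b) (hax : a ≠ x) (hay : a ≠ y) (hbx : b ≠ x) (hby : b ≠ y) (hxy : x ≠ y)
    (ht : t = x ∨ t = y) (hadj : (gr w.length X).adj x y = 0)
    (h1 : Injective (ev θ w.length e1)) (h2 : Injective (ev θ w.length e2))
    (hr1 : m + 3 ≤ rk (gr w.length X + tri a b t) (ev θ w.length e1))
    (hr2 : m ≤ rk (((gr w.length X).ctr b a).ctr y x) (ev θ w.length e2)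
      + ((gr w.length X).adj a b).val) :
    m < rk ((gr w.length X).ctr b a) (ev θ w.length (algQ c w (a, b, x, y) (a, b, t) e1 e2 X))
        + ((gr w.length X).adj a b).val ∨
      m < rk ((gr w.length X).ctr y x)
        (ev θ w.length (algQ c w (a, b, x, y) (a, b, t) e1 e2 X)) := by
  have hD : SqD a b x y := ⟨hab, hax, hay, hbx, hby, hxy⟩
  refine (grun_spec (γ := ℤ)
    (fun T m => (gr w.length T).Eul ∧ (gr w.length T).adj x y = 0 ∧
      m + 3 ≤ rk (gr w.length T + tri a b t) (ev θ w.length e1) ∧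
      m ≤ rk (sqAB (gr w.length T) a b x y) (ev θ w.length e2) + ((gr w.length T).adj a b).val)
    (fun T m f => Injective (ev θ w.length f) ∧
      (m < rk ((gr w.length T).ctr b a) (ev θ w.length f) + ((gr w.length T).adj a b).val ∨
        m < rk ((gr w.length T).ctr y x) (ev θ w.length f)))
    (sq_hok _ _ e1 e2) ?_ ?_ (g := m) ⟨hE, hadj, hr1, hr2⟩).2
  · rintro T m u v ⟨i1, i2, i3, i4⟩ hok -
    have ho := (sq_ok_iff hs).1 hok
    have r1 := ho.r1
    have r2 := ho.r2
    have hu := ho.out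
    refine ⟨m - 1, ?_, ?_⟩
    · rw [gr_ctrG]
      exact ⟨i1.ctr u v, ho.xy, by omega, by omega⟩
    rintro f ⟨hf, hq⟩
    have hgm : gm (rg w) u = u := rep_rg w u
    rw [hgm]
    refine ⟨reval_inj hs hn (sq_small _ T) hf _, ?_⟩
    rw [gr_ctrG] at hq
    rcases hq with hq | hq
    · left
      have k := reval_ctr_po hs hn (sq_small (a, b, x, y) T) hf (Y := ctrG w T b a)
        (by simp [objQ]) u (update id b a v)
      rw [gr_ctrG, ← sq_comm _ hu.b hu.a, sq_row _ hu.b hu.a hab] at k
      have e := sq_pair (gr w.length T) hu.a hu.b hab v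
      have ab := ho.ab
      have ad := ho.adj
      have key : (((gr w.length T).ctr u v).adj a b).val + 1 ≤ ((gr w.length T).adj a b).val +
          (if update id b a v = b then (0 : ZMod 2) else if update id b a v = a then
            (gr w.length T).adj u a + (gr w.length T).adj u b
            else (gr w.length T).adj u (update id b a v)).val := by
        rw [e] at ab ⊢
        by_cases h : v = a
        · subst h
          simp only [update_of_ne hab, id, if_neg hab, if_true, ad] at ab ⊢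
          revert ab
          generalize (gr w.length T).adj v b = p
          generalize (gr w.length T).adj u b = q
          revert p q; decide
        · by_cases h' : v = b
          · subst h'
            simp only [update_self, if_neg hab, if_neg h, if_true, ad] at ab ⊢
            revert ab
            generalize (gr w.length T).adj a v = p
            generalize (gr w.length T).adj u a = q
            revert p q; decide
          · simp only [update_of_ne h', id, if_neg h, if_neg h', ad, add_zero, ZMod.val_one]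
            exact le_rfl
      omega
    · right
      have k := reval_ctr_po hs hn (sq_small (a, b, x, y) T) hf (Y := ctrG w T y x)
        (by simp [objQ]) u (update id y x v)
      rw [gr_ctrG, ← sq_comm _ hu.y hu.x, sq_row _ hu.y hu.x hxy] at k
      have e := (sq_pair (gr w.length T) hu.x hu.y hxy v).symm.trans ho.xy
      rw [i2] at e
      have ad := ho.adj
      have key : (if update id y x v = y then (0 : ZMod 2) else if update id y x v = x then
            (gr w.length T).adj u x + (gr w.length T).adj u y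
            else (gr w.length T).adj u (update id y x v)) = 1 := by
        by_cases h : v = x
        · subst h
          simp only [update_of_ne hxy, id, if_neg hxy, if_true, ad, zero_add, add_zero] at e ⊢
          rw [e, add_zero]
        · by_cases h' : v = y
          · subst h'
            simp only [update_self, if_neg hxy, if_neg h, if_true, ad, zero_add] at e ⊢
            rw [e, zero_add]
          · simp only [update_of_ne h', id, if_neg h, if_neg h', ad]
      rw [key, ZMod.val_one] at k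
      omega
  · rintro T m ⟨i1, i2, i3, i4⟩ hno
    refine ⟨merge_inj hs hn (sq_small _ T) h2 _, ?_⟩
    have hno' : ∀ u v, ¬ SqOk a b x y t (ev θ w.length e1) (ev θ w.length e2) (gr w.length T) u v :=
      fun u v h => by
        have := (sq_ok_iff hs).2 h
        rw [hno u v] at this
        exact Bool.false_ne_true this
    rw [baseQ_eq]
    rcases sq_terminal hD i1 i2 ht h1 h2 hno' with ⟨u, hu, p1, p2, p3⟩ | ⟨u, hu, p1, p2, p3, p4⟩ |
      ⟨u, hu, p1, p2, p3⟩ | hon
    · left
      have k := sq_lift hs hn (T := T) (D := (a, b, x, y)) (Y := ctrG w T b a) h2 (by simp [objQ])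
        (p := u) (q := x) (p' := y) (q' := x) (ps := sqPs c w (a, b, x, y) e2 T)
        (List.mem_flatMap.2 ⟨u, mem_rg.2 u.2, List.mem_cons_self⟩)
        (by rw [gr_ctrG, sq_row _ hu.b hu.a hab, if_neg hbx.symm, if_neg hax.symm, p1])
        (by
          rw [gr_ctrG, Gr.symm, ctr_adj_tgt hu.x hu.y.symm hxy.symm,
            ctr_adj_other hbx.symm hax.symm hby.symm hay.symm, i2,
            sq_row _ hu.b hu.a hab, if_neg hby.symm, if_neg hay.symm, p2, zero_add])
      rw [gr_ctrG, sq_comm _ hu.y hu.x] at k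
      have : ((gr w.length T).ctr b a).ctr y x = sqAB (gr w.length T) a b x y := rfl
      rw [this, ctr_of_iso p3] at k
      omega
    · right
      have k := sq_lift hs hn (T := T) (D := (a, b, x, y)) (Y := ctrG w T y x) h2 (by simp [objQ])
        (p := u) (q := a) (p' := b) (q' := a) (ps := sqPs c w (a, b, x, y) e2 T)
        (List.mem_flatMap.2 ⟨u, mem_rg.2 u.2, by simp⟩)
        (by rw [gr_ctrG, sq_row _ hu.y hu.x hxy, if_neg hay, if_neg hax, p1])
        (by
          rw [gr_ctrG, Gr.symm, ctr_adj_tgt hu.a hu.b.symm hab.symm,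
            ctr_adj_other hay hax hby hbx, p3,
            sq_row _ hu.y hu.x hxy, if_neg hby, if_neg hbx, p2, zero_add])
      rw [gr_ctrG, sq_comm _ hu.b hu.a, sq_swap hD] at k
      have : ((gr w.length T).ctr b a).ctr y x = sqAB (gr w.length T) a b x y := rfl
      rw [this, ctr_of_iso p4] at k
      rw [p3, ZMod.val_zero] at i4
      omega
    · left
      have k := sq_lift hs hn (T := T) (D := (a, b, x, y)) (Y := ctrG w T b a) h2 (by simp [objQ])
        (p := x) (q := u) (p' := y) (q' := u) (ps := sqPs c w (a, b, x, y) e2 T)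
        (List.mem_flatMap.2 ⟨u, mem_rg.2 u.2, by simp⟩)
        (by rw [gr_ctrG, Gr.symm, sq_row _ hu.b hu.a hab, if_neg hbx.symm, if_neg hax.symm, p1])
        (by
          rw [gr_ctrG, Gr.symm, ctr_adj_tgt hu.x.symm hxy.symm hu.y.symm,
            ctr_adj_other hbx.symm hax.symm hby.symm hay.symm, i2,
            sq_row _ hu.b hu.a hab, if_neg hby.symm, if_neg hay.symm, p2, add_zero])
      rw [gr_ctrG, sq_two _ hxy hu.x hu.y] at k
      have : ((gr w.length T).ctr b a).ctr y x = sqAB (gr w.length T) a b x y := rfl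
      rw [this, ctr_of_iso p3] at k
      omega
    · right
      have htm : t ∈ ({a, b, x, y} : Finset (Fin w.length)) := by
        rcases ht with rfl | rfl <;> simp
      have k := rk_le_of_on (i1.add (eul_tri a b t)) (hon.add (on_tri (by simp) (by simp) htm))
        (proper_of_inj _ h1)
      have : ({a, b, x, y} : Finset (Fin w.length)).card ≤ 4 := card_le_four
      omega

end Pool.Agent.MP_bae0ed_lc.H52
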