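import Pool.Agent.MP_bae0ed_lc.H52.Line

/-!
At most two identifications: from a generic to a collided evaluation.
-/

set_option autoImplicit false
set_option linter.unusedSectionVars false

namespace Pool.Agent.MP_bae0ed_lc.H52

open Finset Matrix Function Module Gr

section Pure

variable {V : Type} [DecidableEq V] [Fintype V] {F : Type} [Field F] [CharP F 2]
variable {ψ : V → V} {X : Gr V}

private theorem sV_add_ne {a b : F} (h : a ≠ b) : a + b ≠ 0 := fun e =>
  h (by rw [← CharTwo.neg_eq a]; exact (neg_eq_of_add_eq_zero_right e))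

private theorem sV_sum_one {M : Type} [AddCommMonoid M] {y a : V} (h : ∀ x, ψ x = y ↔ x = a)
    (f : V → M) : (∑ x, if ψ x = y then f x else 0) = f a := by
  simp only [h, sum_ite_eq', mem_univ, if_true]

private theorem sV_sum_two {M : Type} [AddCommMonoid M] {y a b : V} (hab : a ≠ b)
    (h : ∀ x, ψ x = y ↔ x = a ∨ x = b) (f : V → M) :
    (∑ x, if ψ x = y then f x else 0) = f a + f b := by
  rw [← sum_filter, ← sum_pair hab]
  congr 1
  ext x
  simp [h]

private theorem sV_fix (hid : ∀ x, ψ (ψ x) = ψ x) {u : V} (hu : ∀ x, ψ x = ψ u → x = u) :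
    ψ u = u := hu _ (hid u)

private theorem sV_pm (v : V → F) (y : V) :
    (pm F ψ *ᵥ v) y = ∑ x, if ψ x = y then v x else 0 := by
  simp [pm, mulVec, dotProduct]

/-- A vertex with a trivial fibre and few neighbours in common fibres has a good neighbour. -/
private theorem sV_good (hid : ∀ x, ψ (ψ x) = ψ x) (hE : X.Eul) {p1 p2 : V → F}
    (h1 : Injective p1) (h2 : Injective p2) {u : V} (hu : ∀ x, ψ x = ψ u → x = u)
    (hX : ¬ X.Iso u) (hG : ¬ (X.push ψ).Iso u)
    (hB : ((X.nbr u).filter fun x => ∃ y ∈ X.nbr u, y ≠ x ∧ ψ y = ψ x).card ≤ 2) :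
    ∃ v, X.adj u v = 1 ∧ (∀ x, X.adj u x = 1 → x ≠ v → ψ x ≠ ψ v) ∧
      rk X p1 ≤ rk (X.ctr u v) p1 + 1 ∧ rk (X.push ψ) p2 ≤ rk ((X.ctr u v).push ψ) p2 + 1 := by
  classical
  have hfix := sV_fix hid hu
  have ne : ∀ {Y : Gr V}, ¬ Y.Iso u → (Y.nbr u).Nonempty := fun h => by
    simp only [Iso, not_forall] at h
    obtain ⟨x, hx⟩ := h
    exact ⟨x, mem_nbr.2 (z2_ne_zero.1 hx)⟩
  have c1 := count_bad hE (proper_of_inj X h1) (h1.injOn (s := X.nbr u)) (ne hX)
  have c2 := count_bad (hE.push ψ) (proper_of_inj _ h2) (h2.injOn (s := (X.push ψ).nbr u)) (ne hG)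
  set B := (X.nbr u).filter fun x => ∃ y ∈ X.nbr u, y ≠ x ∧ ψ y = ψ x with hBd
  set C := (X.nbr u).filter fun x => ¬ ∃ y ∈ X.nbr u, y ≠ x ∧ ψ y = ψ x with hCd
  have hBC : B.card + C.card = (X.nbr u).card := card_filter_add_card_filter_not _
  have row : ∀ y, (X.push ψ).adj u y = ∑ a, if ψ a = y then X.adj u a else 0 := fun y => by
    have := congrFun (push_adj_row X hu) y
    rwa [hfix] at this
  have row' : ∀ y, (X.push ψ).adj u y = (((X.nbr u).filter fun a => ψ a = y).card : ZMod 2) := by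
    intro y
    rw [row, card_filter, Nat.cast_sum, nbr, sum_filter]
    refine sum_congr rfl fun a _ => ?_
    rcases z2 (X.adj u a) with h | h <;> simp [h]
  have hsub : (X.push ψ).nbr u ⊆ C.image ψ := by
    intro y hy
    have hy' := mem_nbr.1 hy
    rw [row'] at hy'
    by_contra hc
    have hs : ((X.nbr u).filter fun a => ψ a = y) ⊆ B := by
      intro a ha
      obtain ⟨ha1, ha2⟩ := mem_filter.1 ha
      by_contra hb
      exact hc (mem_image.2 ⟨a, mem_filter.2 ⟨ha1, fun h => hb (mem_filter.2 ⟨ha1, h⟩)⟩, ha2⟩)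
    have hle := (card_le_card hs).trans hB
    have h1' : ((X.nbr u).filter fun a => ψ a = y).card = 1 := by
      generalize ((X.nbr u).filter fun a => ψ a = y).card = k at hy' hle
      interval_cases k
      · simp at hy'
      · rfl
      · exact absurd hy' (by decide)
    obtain ⟨a, ha⟩ := card_eq_one.1 h1'
    have ha' : a ∈ (X.nbr u).filter fun a => ψ a = y := by rw [ha]; simp
    obtain ⟨b, hb, hba, e⟩ := (mem_filter.1 (hs ha')).2
    have : b ∈ (X.nbr u).filter fun a => ψ a = y :=
      mem_filter.2 ⟨hb, e.trans (mem_filter.1 ha').2⟩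
    rw [ha] at this
    exact hba (mem_singleton.1 this)
  have hCinj : ∀ a ∈ C, ∀ b ∈ X.nbr u, ψ b = ψ a → b = a := fun a ha b hb e => by
    by_contra hne
    exact (mem_filter.1 ha).2 ⟨b, hb, hne, e⟩
  have hCadj : ∀ a ∈ C, ψ a ∈ (X.push ψ).nbr u := fun a ha => by
    rw [mem_nbr, row']
    have : ((X.nbr u).filter fun b => ψ b = ψ a) = {a} := by
      ext b
      simp only [mem_filter, mem_singleton]
      exact ⟨fun h => hCinj a ha b h.1 h.2, fun h => by rw [h]; exact ⟨(mem_filter.1 ha).1, rfl⟩⟩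
    rw [this]
    simp
  have c3 : ((X.push ψ).nbr u).card ≤ C.card := (card_le_card hsub).trans card_image_le
  by_contra hn
  push Not at hn
  have c4 : (C.filter fun v => rk ((X.ctr u v).push ψ) p2 + 1 < rk (X.push ψ) p2).card ≤
      (((X.push ψ).nbr u).filter fun y =>
        rk ((X.push ψ).ctr u y) p2 + 1 < rk (X.push ψ) p2).card := by
    refine card_le_card_of_injOn ψ (fun a ha => ?_) fun a ha b hb e => ?_
    · obtain ⟨ha1, ha2⟩ := mem_filter.1 ha
      refine mem_filter.2 ⟨hCadj a ha1, ?_⟩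
      have := ctr_push X a hu
      rw [hfix] at this
      rwa [this]
    · exact hCinj b (mem_filter.1 hb).1 a (mem_filter.1 (mem_filter.1 ha).1).1 e
  have c5 : C ⊆ ((X.nbr u).filter fun v => rk (X.ctr u v) p1 + 1 < rk X p1) ∪
      C.filter fun v => rk ((X.ctr u v).push ψ) p2 + 1 < rk (X.push ψ) p2 := by
    intro v hv
    have hv1 := (mem_filter.1 hv).1
    by_cases h : rk X p1 ≤ rk (X.ctr u v) p1 + 1
    · exact mem_union_right _ (mem_filter.2 ⟨hv, hn v (mem_nbr.1 hv1)
        (fun x hx hxv e => hxv (hCinj v hv x (mem_nbr.2 hx) e)) h⟩)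
    · exact mem_union_left _ (mem_filter.2 ⟨hv1, by omega⟩)
  have c6 := (card_le_card c5).trans (card_union_le _ _)
  omega

/-- A vertex with three neighbours in common fibres sees both nontrivial pairs. -/
private theorem sV_sees (hc : (univ.filter fun x => ψ x ≠ x).card ≤ 2) {N : Finset V}
    (hB : 3 ≤ (N.filter fun x => ∃ y ∈ N, y ≠ x ∧ ψ y = ψ x).card) :
    (univ.filter fun x => ψ x ≠ x).card = 2 ∧ ∀ k, ψ k ≠ k → k ∈ N ∧ ψ k ∈ N := by
  classical
  set B := N.filter fun x => ∃ y ∈ N, y ≠ x ∧ ψ y = ψ x with hBd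
  have hsub : B ⊆ (N.filter fun x => ψ x ≠ x) ∪ (N.filter fun x => ψ x ≠ x).image ψ := by
    intro x hx
    obtain ⟨hx, y, hy, hyx, e⟩ := mem_filter.1 hx
    by_cases h : ψ x = x
    · refine mem_union_right _ (mem_image.2 ⟨y, mem_filter.2 ⟨hy, ?_⟩, e.trans h⟩)
      rw [e, h]
      exact hyx.symm
    · exact mem_union_left _ (mem_filter.2 ⟨hx, h⟩)
  have h1 := hB.trans ((card_le_card hsub).trans (card_union_le _ _))
  have h2 : ((N.filter fun x => ψ x ≠ x).image ψ).card ≤ (N.filter fun x => ψ x ≠ x).card :=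
    card_image_le
  have h3 : (N.filter fun x => ψ x ≠ x) ⊆ univ.filter fun x => ψ x ≠ x :=
    filter_subset_filter _ (subset_univ N)
  have h4 := eq_of_subset_of_card_le h3 (by omega)
  have h5 : (univ.filter fun x => ψ x ≠ x).card = 2 := by
    have := card_le_card h3
    omega
  refine ⟨h5, fun k hk => ?_⟩
  have hk' : k ∈ univ.filter fun x => ψ x ≠ x := by simpa using hk
  refine ⟨(mem_filter.1 (h4 ▸ hk')).1, ?_⟩
  by_contra hn
  obtain ⟨k', hk'⟩ : ∃ k', ∀ x, ψ x ≠ x → x = k ∨ x = k' := by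
    have : ((univ.filter fun x => ψ x ≠ x).erase k).card = 1 := by rw [card_erase_of_mem hk', h5]
    obtain ⟨k', e⟩ := card_eq_one.1 this
    refine ⟨k', fun x hx => ?_⟩
    by_cases h : x = k
    · exact Or.inl h
    · right
      rw [← mem_singleton, ← e]
      simpa using ⟨h, hx⟩
  by_cases e : ψ k' = ψ k
  · have : B ⊆ {k, k'} := by
      intro x hx
      obtain ⟨hx, y, hy, hyx, e'⟩ := mem_filter.1 hx
      by_cases h : ψ x = x
      · have hy' : ψ y ≠ y := by rw [e', h]; exact hyx.symm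
        rcases hk' y hy' with rfl | rfl
        · exact absurd hx (by rwa [← h, ← e'])
        · exact absurd hx (by rwa [← h, ← e', e])
      · simpa using hk' x h
    have := (card_le_card this).trans card_le_two
    omega
  · have : B ⊆ {k', ψ k'} := by
      intro x hx
      obtain ⟨hx, y, hy, hyx, e'⟩ := mem_filter.1 hx
      by_cases h : ψ x = x
      · have hy' : ψ y ≠ y := by rw [e', h]; exact hyx.symm
        rcases hk' y hy' with rfl | rfl
        · exact absurd hx (by rwa [← h, ← e'])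
        · simp [e', h]
      · rcases hk' x h with rfl | rfl
        · by_cases h' : ψ y = y
          · exact absurd hy (by rwa [← h', e'])
          · rcases hk' y h' with rfl | rfl
            · exact absurd rfl hyx
            · exact absurd e' e
        · simp
    have := (card_le_card this).trans card_le_two
    omega

/-- A value at `ψ k` that keeps the rank of the image and makes a diagonal entry nonzero. -/
private theorem sV_value (hF : Big F (32 * (Fintype.card V + 1) ^ 6))
    (hf : ∀ a b, X.adj a b = 1 → ψ a ≠ ψ b) {p : V → F} (hp : Injective p) {k u : V}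
    (hu : ∀ x, ψ x = ψ u → x = u) (hku : X.adj k u = 1) :
    ∃ t, Injective (update p (ψ k) t) ∧ rk (X.push ψ) p ≤ rk (X.push ψ) (update p (ψ k) t) ∧
      sv (update p (ψ k) t ∘ ψ) k (X.adj k) k ≠ 0 := by
  classical
  have e0 : p + (0 : F) • (Pi.single (ψ k) 1 : V → F) = p := by simp
  obtain ⟨B1, c1, g1⟩ := few_noninj (p := p) (d := Pi.single (ψ k) 1) (t0 := 0) (by rwa [e0])
  obtain ⟨B2, c2, g2⟩ := gen_of_proper (X := X.push ψ) (p := p) (d := Pi.single (ψ k) 1) (t0 := 0)
    (by rw [e0]; exact proper_of_inj _ hp)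
  obtain ⟨B3, c3, g3⟩ := card_diag_zero (p ∘ ψ) (fun x => cz F (X.adj k x)) (x0 := u)
    (by simp [hku]) fun x hx _ e => hx (hu x (hp e))
  obtain ⟨Λ, hΛ⟩ := hF
  obtain ⟨s, -, hs⟩ : ∃ s ∈ Λ, s ∉ B1 ∪ B2 ∪ B3.image fun t => t - p (ψ k) := by
    refine exists_mem_notMem_of_card_lt_card (lt_of_le_of_lt ?_ hΛ)
    refine (card_union_le _ _).trans ?_
    have h1 := card_union_le B1 B2
    have h2 : (B3.image fun t => t - p (ψ k)).card ≤ B3.card := card_image_le
    have h3 : (Fintype.card V + 1) ^ 2 ≤ (Fintype.card V + 1) ^ 6 :=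
      Nat.pow_le_pow_right (by omega) (by omega)
    nlinarith
  simp only [mem_union, not_or, mem_image, not_exists, not_and] at hs
  have e1 : p + s • (Pi.single (ψ k) 1 : V → F) = update p (ψ k) (p (ψ k) + s) := by
    funext x
    by_cases h : x = ψ k
    · subst h; simp
    · simp [h]
  have i1 := g1 s hs.1.1
  rw [e1] at i1
  have i2 := g2 s hs.1.2 (by rw [e1]; exact proper_of_inj _ i1)
  rw [e0, e1] at i2
  refine ⟨p (ψ k) + s, i1, i2, ?_⟩
  have i3 := g3 (p (ψ k) + s) fun h => hs.2 _ h (by ring)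
  simp only [sv, X.irr, map_zero, zero_mul, zero_add, if_true]
  refine fun h0 => i3 (Eq.trans (sum_congr rfl fun x _ => ?_) h0)
  rcases z2 (X.adj k x) with h | h
  · simp [h]
  · simp [update_of_ne (hf k x h).symm]

/-- The terminal state. -/
private theorem sV_terminal (hF : Big F (32 * (Fintype.card V + 1) ^ 6))
    (hid : ∀ x, ψ (ψ x) = ψ x) (hc : (univ.filter fun x => ψ x ≠ x).card ≤ 2) (hE : X.Eul)
    (hf : ∀ a b, X.adj a b = 1 → ψ a ≠ ψ b) {p1 p2 : V → F} (h1 : Injective p1)
    (h2 : Injective p2)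
    (hT : ∀ u v, (∀ x, ψ x = ψ u → x = u) → X.adj u v = 1 →
      (∀ x, X.adj u x = 1 → x ≠ v → ψ x ≠ ψ v) → rk X p1 ≤ rk (X.ctr u v) p1 + 1 →
      ¬ rk (X.push ψ) p2 ≤ rk ((X.ctr u v).push ψ) p2 + 1) :
    rk X p1 ≤ rk X (p2 ∘ ψ) ∨ rk (X.push ψ) p2 + 2 ≤ rk X (p2 ∘ ψ) ∨
      ∃ A t, Injective (update p2 A t) ∧ rk (X.push ψ) p2 + 2 ≤ rk X (update p2 A t ∘ ψ) := by
  classical
  have hp2 := proper_comp h2 hf
  by_cases c1 : ∃ u, (∀ x, ψ x = ψ u → x = u) ∧ ¬ X.Iso u ∧ (X.push ψ).Iso u
  · obtain ⟨u, hu, hX, hG⟩ := c1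
    simp only [Iso, not_forall] at hX
    obtain ⟨a, ha⟩ := hX
    have ha : X.adj u a = 1 := z2_ne_zero.1 ha
    have hfix := sV_fix hid hu
    have hne : u ≠ ψ a := by rw [← hfix]; exact hf u a ha
    refine Or.inr (Or.inl (rk_push_add_two hp2 (x := a) fun h => ?_))
    have h0 := apply_eq_zero_of_iso hG h
    have e : pushZ ψ (X.adj a) u = 1 := by
      rw [pushZ, sV_sum_one (a := u) (fun x => ⟨fun h => hu x (h.trans hfix.symm), fun h => h ▸ hfix⟩),
        X.symm, ha]
    simp only [sv, e, map_one, one_mul, if_neg hne, add_zero] at h0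
    exact sV_add_ne (h2.ne hne) (inv_eq_zero.1 h0)
  by_cases c2 : ∃ u, (∀ x, ψ x = ψ u → x = u) ∧ ¬ X.Iso u
  · have sees : ∀ u, (∀ x, ψ x = ψ u → x = u) → ¬ X.Iso u →
        (univ.filter fun x => ψ x ≠ x).card = 2 ∧
          ∀ k, ψ k ≠ k → X.adj u k = 1 ∧ X.adj u (ψ k) = 1 := by
      intro u hu hX
      have := sV_sees hc (N := X.nbr u) (by
        by_contra hB
        obtain ⟨v, a1, a2, a3, a4⟩ := sV_good hid hE h1 h2 hu hX (fun h => c1 ⟨u, hu, hX, h⟩)
          (by omega)
        exact hT u v hu a1 a2 a3 a4)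
      simpa only [mem_nbr] using this
    obtain ⟨u, hu, hX⟩ := c2
    obtain ⟨k, k', hkk, hK⟩ := card_eq_two.1 (sees u hu hX).1
    have hK' : ∀ x, ψ x ≠ x ↔ x = k ∨ x = k' := fun x => by
      have : x ∈ (univ.filter fun x => ψ x ≠ x) ↔ x ∈ ({k, k'} : Finset V) := by rw [hK]
      simpa using this
    have hk : ψ k ≠ k := (hK' k).2 (Or.inl rfl)
    have hk' : ψ k' ≠ k' := (hK' k').2 (Or.inr rfl)
    have triv : ∀ y, ψ y ≠ ψ k → ψ y ≠ ψ k' → ∀ x, ψ x = ψ y → x = y := by
      intro y a b x e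
      have hy : ψ y = y := by
        by_contra h
        rcases (hK' y).1 h with rfl | rfl
        exacts [a rfl, b rfl]
      by_contra h
      rcases (hK' x).1 (by rw [e, hy]; exact fun e' => h e'.symm) with rfl | rfl
      exacts [a e.symm, b e.symm]
    obtain ⟨t, i1, i2, i3⟩ := sV_value hF hf h2 hu
      (k := k) (by rw [X.symm]; exact ((sees u hu hX).2 k hk).1)
    refine Or.inr (Or.inr ⟨ψ k, t, i1, le_trans (Nat.add_le_add_right i2 2) ?_⟩)
    set q := update p2 (ψ k) t with hq
    have hpq := proper_comp i1 hf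
    by_cases e : ψ k' = ψ k
    · have tw : X.adj k' = X.adj k := by
        have key : ∀ a b, ψ a ≠ a → ψ b ≠ b → ψ a = ψ k → ∀ y, X.adj a y = 1 → X.adj b y = 1 := by
          intro a b _ hb ea y hy
          have hne : ψ y ≠ ψ k := ea ▸ (hf a y hy).symm
          rw [X.symm]
          refine ((sees y (triv y hne (e ▸ hne)) fun h => ?_).2 b hb).1
          rw [X.symm, h a] at hy
          exact zero_ne_one hy
        funext y
        rcases z2 (X.adj k y) with h | h
        · rw [h]
          exact z2_ne_one.1 fun h' => by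
            rw [key k' k hk' hk e y h'] at h
            exact one_ne_zero h
        · rw [h]
          exact key k k' hk hk' rfl y h
      have hv : ∀ z, (sv (q ∘ ψ) k (X.adj k) + sv (q ∘ ψ) k' (X.adj k')) z =
          (if z = k then sv (q ∘ ψ) k (X.adj k) k else 0) +
            if z = k' then sv (q ∘ ψ) k (X.adj k) k else 0 := by
        intro z
        simp only [Pi.add_apply, sv, tw, Function.comp_apply, e, X.irr, map_zero, zero_mul, zero_add, if_true]
        rw [add_add_add_comm, CharTwo.add_self_eq_zero, zero_add]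
      refine rk_push_add_two' hpq (add_mem (sv_row_mem X _ k) (sv_row_mem X _ k')) (fun h => ?_) ?_
      · have := hv k
        rw [h, if_pos rfl, if_neg hkk, add_zero] at this
        exact i3 this.symm
      · funext y
        rw [sV_pm]
        simp only [hv, ite_add_zero, sum_add_distrib, ← ite_and]
        have s1 : ∀ (a : V) (c : F), (∑ x, if ψ x = y ∧ x = a then c else 0) =
            if ψ a = y then c else 0 := by
          intro a c
          rw [sum_eq_single a (fun b _ hb => if_neg fun h => hb h.2) (by simp)]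
          simp
        rw [s1, s1, e, CharTwo.add_self_eq_zero]
        rfl
    · have fib : ∀ x, ψ x = ψ k ↔ x = k ∨ x = ψ k := by
        intro x
        refine ⟨fun h => ?_, by rintro (rfl | rfl); exacts [rfl, hid k]⟩
        by_cases h' : ψ x = x
        · exact Or.inr (h'.symm.trans h)
        · rcases (hK' x).1 h' with rfl | rfl
          exacts [Or.inl rfl, absurd h e]
      have iso' : ∀ y, y ≠ ψ k' → (X.push ψ).adj (ψ k) y = 0 := by
        intro y hy
        by_cases hy1 : y = ψ k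
        · rw [hy1, irr]
        by_cases hy2 : ψ y = y
        · have ty := triv y (by rwa [hy2]) (by rwa [hy2])
          rw [Gr.symm, ← hy2, push_adj_row X ty, pushZ, sV_sum_two hk.symm fib]
          by_cases hi : X.Iso y
          · rw [hi, hi, add_zero]
          · rw [((sees y ty hi).2 k hk).1, ((sees y ty hi).2 k hk).2]
            rfl
        · refine z2_ne_one.1 fun h => ?_
          obtain ⟨a, b, -, hb, -⟩ := exists_of_push_adj h
          exact hy2 (by rw [← hb, hid])
      have iso : (X.push ψ).Iso (ψ k) := by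
        intro y
        by_cases hy : y = ψ k'
        · refine z2_ne_one.1 fun h => ?_
          obtain ⟨y', h1, h2⟩ := (hE.push ψ).exists_other h
          rw [iso' y' (hy ▸ h1)] at h2
          exact zero_ne_one h2
        · exact iso' y hy
      refine rk_push_add_two hpq (x := k) fun h => ?_
      have h0 := apply_eq_zero_of_iso iso h
      rw [← pm_sv, sV_pm, sV_sum_two hk.symm fib] at h0
      have a0 : X.adj k (ψ k) = 0 := z2_ne_one.1 fun h => hf _ _ h (hid k).symm
      have : sv (q ∘ ψ) k (X.adj k) (ψ k) = 0 := by simp [sv, a0, hk]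
      rw [this, add_zero] at h0
      exact i3 h0
  · left
    have hon : X.On ((univ.filter fun x => ψ x ≠ x) ∪ (univ.filter fun x => ψ x ≠ x).image ψ) := by
      intro a b hab
      have : ¬ ∀ x, ψ x = ψ a → x = a := fun h => c2 ⟨a, h, fun h' => by
        rw [h' b] at hab
        exact zero_ne_one hab⟩
      push Not at this
      obtain ⟨x, e, hx⟩ := this
      by_cases h : ψ a = a
      · refine mem_union_right _ (mem_image.2 ⟨x, ?_, e.trans h⟩)
        simpa [e, h] using hx.symm
      · exact mem_union_left _ (by simpa using h)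
    have r1 := rk_le_of_on hE hon (proper_of_inj X h1)
    have r2 := card_union_le (univ.filter fun x => ψ x ≠ x) ((univ.filter fun x => ψ x ≠ x).image ψ)
    have r3 : ((univ.filter fun x => ψ x ≠ x).image ψ).card ≤ (univ.filter fun x => ψ x ≠ x).card :=
      card_image_le
    by_cases h0 : X = 0
    · simp [h0]
    · have r4 := rk_pos hp2 h0
      have r5 := (rk_par hp2).trans (rk_par (proper_of_inj X h1)).symm
      rw [ZMod.natCast_eq_natCast_iff'] at r5
      omega

end Pure

variable {c : Ctx} {F : Type} [Field F] [CharP F 2] {θ : Fe → F} {w : Un}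

private theorem sV_small (Y : Tab) (φ : List ℕ) : Small w.length w [(w, Y, φ)] := by
  refine ⟨by omega, ?_, by simp; omega⟩
  have : 0 < (w.length + 1) ^ 4 := by positivity
  simp only [List.length_singleton]
  omega

private theorem sV_ok_ad {φ : List ℕ} {e1 e2 : Ev} (T : Tab) (u v : Fin w.length)
    (h : okV c w φ e1 e2 T (u, v) = true) : ad T u v = true := by
  simp only [okV, Bool.and_eq_true] at h
  exact h.1.1.1.2

private theorem sV_ok_iff (hs : Sem c θ) {φ : List ℕ} {ψ : Fin w.length → Fin w.length}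
    (hψ : Rep φ ψ) {e1 e2 : Ev} (T : Tab) (u v : Fin w.length) :
    okV c w φ e1 e2 T (u, v) = true ↔ (∀ x, ψ x = ψ u → x = u) ∧ (gr w.length T).adj u v = 1 ∧
      (∀ x, (gr w.length T).adj u x = 1 → x ≠ v → ψ x ≠ ψ v) ∧
      rk (gr w.length T) (ev θ w.length e1) ≤
        rk ((gr w.length T).ctr u v) (ev θ w.length e1) + 1 ∧
      rk ((gr w.length T).push ψ) (ev θ w.length e2) ≤
        rk (((gr w.length T).ctr u v).push ψ) (ev θ w.length e2) + 1 := by
  simp only [okV, Bool.and_eq_true, all_rg, Bool.or_eq_true, decide_eq_true_eq, Bool.not_eq_true',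
    decide_eq_false_iff_not, hs.rkC_eq, gr_pushG hψ, gr_ctrG, hψ _, Fin.val_inj, gr_adj, b2z_eq_one,
    and_assoc]
  refine and_congr (forall_congr' fun x => by tauto) (and_congr Iff.rfl (and_congr
    (forall_congr' fun x => ?_) Iff.rfl))
  cases ad T u x <;> simp
  tauto

theorem algV_inj (hs : Sem c θ) (hn : Ok c w.length) (φ : List ℕ) (e1 : Ev) {e2 : Ev} (X : Tab)
    (h2 : Injective (ev θ w.length e2)) : Injective (ev θ w.length (algV c w φ e1 e2 X)) :=
  grun_spec (γ := Unit) (fun _ _ => True) (fun _ _ f => Injective (ev θ w.length f)) sV_ok_ad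
    (fun T _ _ _ _ _ _ => ⟨(), trivial, fun _ hf => reval_inj hs hn (sV_small T φ) hf _⟩)
    (fun T _ _ _ => merge_inj hs hn (sV_small T φ) h2 _) (g := ()) trivial

theorem algV_spec (hs : Sem c θ) (hn : Ok c w.length) {X : Tab} {φ : List ℕ}
    {ψ : Fin w.length → Fin w.length} {e1 e2 : Ev} {m : ℤ} (hψ : Rep φ ψ)
    (hid : ∀ x, ψ (ψ x) = ψ x) (hc : (univ.filter fun x => ψ x ≠ x).card ≤ 2)
    (hE : (gr w.length X).Eul) (hf : ∀ a b, (gr w.length X).adj a b = 1 → ψ a ≠ ψ b)
    (h1 : Injective (ev θ w.length e1)) (h2 : Injective (ev θ w.length e2))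
    (hr1 : m + 2 ≤ rk (gr w.length X) (ev θ w.length e1))
    (hr2 : m ≤ rk ((gr w.length X).push ψ) (ev θ w.length e2)) :
    m + 2 ≤ rk (gr w.length X) (ev θ w.length (algV c w φ e1 e2 X) ∘ ψ) := by
  refine (grun_spec (γ := ℤ)
    (fun T m => (gr w.length T).Eul ∧ (∀ a b, (gr w.length T).adj a b = 1 → ψ a ≠ ψ b) ∧
      m + 2 ≤ rk (gr w.length T) (ev θ w.length e1) ∧
      m ≤ rk ((gr w.length T).push ψ) (ev θ w.length e2))
    (fun T m f => Injective (ev θ w.length f) ∧ m + 2 ≤ rk (gr w.length T) (ev θ w.length f ∘ ψ))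
    sV_ok_ad ?_ ?_ ⟨hE, hf, hr1, hr2⟩).2
  · rintro T g u v ⟨a1, a2, a3, a4⟩ hok -
    obtain ⟨b1, b2, b3, b4, b5⟩ := (sV_ok_iff hs hψ T u v).1 hok
    refine ⟨g - 1, ?_, fun f hf => ⟨reval_inj hs hn (sV_small T φ) hf.1 _, ?_⟩⟩
    · rw [gr_ctrG]
      refine ⟨a1.ctr u v, fun a b hab e => ?_, by omega, by omega⟩
      exact proper_ctr (proper_comp h2 a2) (fun x hx hxv e => b3 x hx hxv (h2 e)) a b hab
        (congrArg (ev θ w.length e2) e)
    · have := reval_ctr hs hn (sV_small T φ) hf.1 (List.mem_singleton_self _) hψ a2 b1 b3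
      have h3 := hf.2
      rw [gr_ctrG] at h3
      rw [b2, sV_fix hid b1, ZMod.val_one] at this
      rw [rep_rg w u]
      simp only [id]
      omega
  · rintro T g ⟨a1, a2, a3, a4⟩ hT
    refine ⟨merge_inj hs hn (sV_small T φ) h2 _, ?_⟩
    have key : ∀ q ∈ e2 :: (rg w).map (reval c w [(w, T, φ)] e2), Injective (ev θ w.length q) →
        rk (gr w.length T) (ev θ w.length q ∘ ψ) ≤
          rk (gr w.length T) (ev θ w.length (baseV c w φ e2 T) ∘ ψ) := fun q hq hi =>
      merge_ge hs hn (sV_small T φ) h2 (List.mem_singleton_self _) hψ a2 hq (proper_comp hi a2)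
    have k0 := key e2 List.mem_cons_self h2
    rcases sV_terminal (by simpa using hn.big hs) hid hc a1 a2 h1 h2 (fun u v b1 b2 b3 b4 b5 => by
      have := (sV_ok_iff hs hψ T u v).2 ⟨b1, b2, b3, b4, b5⟩
      rw [hT u v] at this
      exact absurd this (by simp)) with h | h | ⟨A, t, i, h⟩
    · omega
    · omega
    · have k1 := key (reval c w [(w, T, φ)] e2 A)
        (List.mem_cons_of_mem _ (List.mem_map.2 ⟨A, mem_rg.2 A.2, rfl⟩))
        (reval_inj hs hn (sV_small T φ) h2 _)
      have k2 := reval_ge hs hn (sV_small T φ) e2 A (List.mem_singleton_self _) hψ t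
        (proper_comp i a2)
      omega

end Pool.Agent.MP_bae0ed_lc.H52
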