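import Pool.Agent.MP_bae0ed_lc.H52.SpecQ
import Pool.Agent.MP_bae0ed_lc.H52.SpecV
import Pool.Agent.MP_bae0ed_lc.H52.SpecCA

/-!
Many identifications: from a generic to a collided evaluation.
-/

set_option autoImplicit false
set_option linter.unusedSectionVars false

namespace Pool.Agent.MP_bae0ed_lc.H52

open Finset Matrix Function Module Gr

variable {c : Ctx} {F : Type} [Field F] [CharP F 2] {θ : Fe → F} {w : Un}

section RedGraph

variable {V : Type} [DecidableEq V] [Fintype V]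

theorem red_free_ctr {X : Gr V} {ψ : V → V} (hf : ∀ a b, X.adj a b = 1 → ψ a ≠ ψ b) {u v : V}
    (h : ψ u = ψ v) : ∀ a b, (X.ctr u v).adj a b = 1 → ψ a ≠ ψ b := by
  have key : ∀ z, ψ (update id u v z) = ψ z := fun z => by
    by_cases hz : z = u
    · rw [hz, update_self, h]
    · rw [update_of_ne hz, id]
  intro a b hab
  rw [ctr_eq_push] at hab
  obtain ⟨a', b', rfl, rfl, h'⟩ := exists_of_push_adj hab
  rw [key, key]
  exact hf _ _ h'

theorem red_adj_zero {X : Gr V} {ψ : V → V} (hf : ∀ a b, X.adj a b = 1 → ψ a ≠ ψ b) {u v : V}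
    (h : ψ u = ψ v) : X.adj u v = 0 := z2_ne_one.1 fun h' => hf _ _ h' h

theorem red_parity {k m : ℕ} (h : (k : ZMod 2) = m) (hk : m < k) : m + 2 ≤ k := by
  rw [ZMod.natCast_eq_natCast_iff'] at h
  omega

theorem red_tri_mem {X : Gr V} {p : V → F} (hp : Injective p) {σ : ℕ} (hr : σ ≤ rk X p)
    {a b x : V} (hab : a ≠ b) (hax : a ≠ x) (hbx : b ≠ x) (h : rk (X + tri a b x) p ≤ σ) :
    tv p a b x ∈ Rg X p := by
  by_contra h'
  have := rk_add_tri_of_not_mem X (hp.ne hab) (hp.ne hax) (hp.ne hbx) h'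
  omega

/-- Two fibre pairs and a good triangle. -/
theorem red_quad {X : Gr V} {ψ : V → V} (hid : ∀ x, ψ (ψ x) = ψ x)
    (hc : 3 ≤ (univ.filter fun x => ψ x ≠ x).card) {p : V → F} (hp : Injective p) {σ : ℕ}
    (hr : σ ≤ rk X p) {a b x x' : V} (hab : a ≠ b) (hψ : ψ a = ψ b) (hax : a ≠ x) (hbx : b ≠ x)
    (hx : x' ≠ x) (hx' : ψ x' = ψ x) (h : σ + 1 ≤ rk (X + tri a b x) p) :
    ∃ a b x y t : V, a ≠ b ∧ a ≠ x ∧ a ≠ y ∧ b ≠ x ∧ b ≠ y ∧ x ≠ y ∧ ψ a = ψ b ∧ ψ x = ψ y ∧
      (t = x ∨ t = y) ∧ σ + 1 ≤ rk (X + tri a b t) p := by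
  by_contra hcon
  have hno : ∀ a b x y t : V, a ≠ b → a ≠ x → a ≠ y → b ≠ x → b ≠ y → x ≠ y → ψ a = ψ b →
      ψ x = ψ y → (t = x ∨ t = y) → rk (X + tri a b t) p ≤ σ := by
    intro a b x y t h1 h2 h3 h4 h5 h6 h7 h8 h9
    by_contra h10
    exact hcon ⟨a, b, x, y, t, h1, h2, h3, h4, h5, h6, h7, h8, h9, by omega⟩
  have hfib : ∀ y, ψ y = ψ x → y = a ∨ y = b ∨ y = x := by
    intro y hy
    by_contra hy'
    push Not at hy'
    have := hno a b x y x hab hax hy'.1.symm hbx hy'.2.1.symm hy'.2.2.symm hψ hy.symm (Or.inl rfl)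
    omega
  have hxa : ψ a = ψ x := by
    rcases hfib x' hx' with rfl | rfl | rfl
    · exact hx'
    · rw [hψ, hx']
    · exact absurd rfl hx
  obtain ⟨c, hc1, hc2⟩ : ∃ c, ψ c ≠ c ∧ c ∉ ({a, b, x} : Finset V) := by
    by_contra hno'
    push Not at hno'
    have h1 : (univ.filter fun x => ψ x ≠ x) ⊆ ({a, b, x} : Finset V).erase (ψ x) := by
      intro z hz
      have hz' := (mem_filter.1 hz).2
      exact mem_erase.2 ⟨fun e => hz' (by rw [e, hid]), hno' z hz'⟩
    have h2 := card_le_card h1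
    rw [card_erase_of_mem (by simpa using hfib _ (hid x))] at h2
    have h3 : ({a, b, x} : Finset V).card ≤ 3 := card_le_three
    omega
  simp only [mem_insert, mem_singleton, not_or] at hc2
  have hcx : ψ c ≠ ψ x := fun e => by rcases hfib c e with e | e | e <;> tauto
  have hda : ψ c ≠ a := fun e => hcx (by rw [← hid, e, hxa])
  have hdb : ψ c ≠ b := fun e => hcx (by rw [← hid, e, ← hψ, hxa])
  have hdx : ψ c ≠ x := fun e => hcx (by rw [← hid, e])
  have hcd : c ≠ ψ c := hc1.symm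
  have r1 := hno c (ψ c) a b a hcd hc2.1 hc2.2.1 hda hdb hab (hid c).symm hψ (Or.inl rfl)
  have r2 := hno c (ψ c) a b b hcd hc2.1 hc2.2.1 hda hdb hab (hid c).symm hψ (Or.inr rfl)
  have r3 := hno c (ψ c) a x x hcd hc2.1 hc2.2.2 hda hdx hax (hid c).symm hxa (Or.inr rfl)
  have m1 := red_tri_mem hp hr hcd hc2.1 hda r1
  have m2 := red_tri_mem hp hr hcd hc2.2.1 hdb r2
  have m3 := red_tri_mem hp hr hcd hc2.2.2 hdx r3
  have hS : RS p ({c, ψ c, a, b, x} : Finset V) ≤ Rg X p := by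
    refine RS_le (a := c) (b := ψ c) (by simp) (by simp) (hp.ne hcd)
      (fun z _ hz => hp.ne hz.symm) fun z hz h1 h2 => ?_
    simp only [mem_insert, mem_singleton] at hz
    rcases hz with rfl | rfl | rfl | rfl | rfl
    · exact absurd rfl h1
    · exact absurd rfl h2
    · exact m1
    · exact m2
    · exact m3
  have e1 := rk_add_tri_of_mem X (hp.ne hab) (hp.ne hax) (hp.ne hbx)
    (hS (tv_mem_RS (by simp) (by simp) (by simp) (hp.ne hab) (hp.ne hax)))
  have e2 := rk_add_tri_of_mem X (hp.ne hcd) (hp.ne hc2.1) (hp.ne hda) m1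
  omega

/-- The second point of each pair can be taken to be moved by the map. -/
theorem red_quad' {X : Gr V} {ψ : V → V} {p : V → F} {σ : ℕ} {a b x y t : V} (h1 : a ≠ b)
    (h2 : a ≠ x) (h3 : a ≠ y) (h4 : b ≠ x) (h5 : b ≠ y) (h6 : x ≠ y) (h7 : ψ a = ψ b)
    (h8 : ψ x = ψ y) (h9 : t = x ∨ t = y) (h : σ + 1 ≤ rk (X + tri a b t) p) :
    ∃ a b x y t : V, a ≠ b ∧ a ≠ x ∧ a ≠ y ∧ b ≠ x ∧ b ≠ y ∧ x ≠ y ∧ ψ a = ψ b ∧ ψ x = ψ y ∧
      (t = x ∨ t = y) ∧ σ + 1 ≤ rk (X + tri a b t) p ∧ ψ b ≠ b ∧ ψ y ≠ y := by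
  have h' : σ + 1 ≤ rk (X + tri b a t) p := by rwa [tri_comm₁]
  have k1 : ψ b = b → ψ a ≠ a := fun e e' => h1 (by rw [← e', h7, e])
  have k2 : ψ y = y → ψ x ≠ x := fun e e' => h6 (by rw [← e', h8, e])
  by_cases hb : ψ b = b <;> by_cases hy : ψ y = y
  · exact ⟨b, a, y, x, t, h1.symm, h5, h4, h3, h2, h6.symm, h7.symm, h8.symm, h9.symm, h', k1 hb,
      k2 hy⟩
  · exact ⟨b, a, x, y, t, h1.symm, h4, h5, h2, h3, h6, h7.symm, h8, h9, h', k1 hb, hy⟩
  · exact ⟨a, b, y, x, t, h1, h3, h2, h5, h4, h6.symm, h7, h8.symm, h9.symm, h, hb, k2 hy⟩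
  · exact ⟨a, b, x, y, t, h1, h2, h3, h4, h5, h6, h7, h8, h9, h, hb, hy⟩

theorem red_image {ψ : V → V} (hid : ∀ x, ψ (ψ x) = ψ x)
    (hc : 3 ≤ (univ.filter fun x => ψ x ≠ x).card) {l : Finset V}
    (hl : ∀ x x', x' ≠ x → ψ x' = ψ x → x ∈ l) :
    (l.image ψ).card + 3 ≤ l.card ∧ 4 ≤ l.card := by
  have h1 : (univ.filter fun x => ψ x ≠ x) ⊆ l := fun x hx =>
    hl x (ψ x) (mem_filter.1 hx).2 (hid x)
  have h2 : l.image ψ ⊆ l \ univ.filter fun x => ψ x ≠ x := by
    intro z hz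
    obtain ⟨x, hx, rfl⟩ := mem_image.1 hz
    refine mem_sdiff.2 ⟨?_, by simp [hid]⟩
    by_cases h : ψ x = x
    · rwa [h]
    · exact hl _ x (Ne.symm h) (hid x).symm
  have h3 := card_le_card h2
  rw [card_sdiff_of_subset h1] at h3
  have h4 := card_le_card h1
  have h5 : 0 < (l.image ψ).card := card_pos.2 (image_nonempty.2 (card_pos.1 (by omega)))
  omega

end RedGraph

theorem red_small (a b : ℕ) (X : Tab) : Small w.length w (po w X :: objT w a b X) := by
  refine ⟨by omega, ?_, fun o ho => ?_⟩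
  · have : w.length + 1 ≤ (w.length + 1) ^ 4 := Nat.le_self_pow (by norm_num) _
    simp only [objT, List.length_cons, List.length_map, length_rg]
    omega
  · simp only [objT, List.mem_cons, List.mem_map] at ho
    rcases ho with rfl | ⟨x, -, rfl⟩ <;> simp only [po] <;> omega

theorem red_rg (w : Un) : rg w = (List.finRange w.length).map Fin.val := by
  rw [rg, List.map_coe_finRange_eq_range]

theorem redF_inj (hs : Sem c θ) (hn : Ok c w.length) (φ : List ℕ) (g : Ev) (X0 : Tab) :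
    Injective (ev θ w.length (redF c w φ g X0)) :=
  merge_inj hs hn small_po (hn.ev0_inj hs (by omega)) _

theorem redF_ge (hs : Sem c θ) (hn : Ok c w.length) {φ : List ℕ}
    {ψ : Fin w.length → Fin w.length} {g : Ev} (hψ : Rep φ ψ) (hid : ∀ x, ψ (ψ x) = ψ x)
    (hg : Injective (ev θ w.length g)) (X0 : Tab) {x y : Fin w.length} (hxy : ψ x = ψ y)
    (hx : ψ x ≠ x) :
    rk ((gr w.length X0).push ψ) (ev θ w.length g) + ((gr w.length X0).adj x y).val ≤
      rk (gr w.length X0) (ev θ w.length (redF c w φ g X0)) := by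
  have h := lift_spec hs hn X0 ((x, y) :: (List.finRange w.length).map fun z => (z, ψ z)) hg
  have e : (((x, y) :: (List.finRange w.length).map fun z => (z, ψ z)).map
      fun q : Fin w.length × Fin w.length => ((q.1 : ℕ), (q.2 : ℕ))) =
      ((x : ℕ), (y : ℕ)) :: (rg w).map fun z => (z, gm φ z) := by
    rw [red_rg, List.map_cons, List.map_map, List.map_map]
    congr 1
    refine List.map_congr_left fun z _ => ?_
    simp [hψ z]
  rw [e, Gr.con, Gr.cnt, con_eq_push hid _ (List.mem_finRange), push_ctr _ hxy] at h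
  refine le_trans (le_trans (by dsimp only; omega) h.2) ((merge_ge_po hs hn small_po (hn.ev0_inj hs (by omega))
    (List.mem_singleton.2 rfl) (List.mem_cons_of_mem _ ?_) (proper_of_inj _ h.1)))
  refine List.mem_map.2 ⟨((x : ℕ), (y : ℕ)), mem_pairs.2 ⟨x.2, y.2⟩, ?_⟩
  rw [if_pos]
  simp only [hψ x, hψ y, hxy, true_and]
  rw [← hxy]
  exact fun h => hx (Fin.ext h)

theorem redRound_spec (hs : Sem c θ) (hn : Ok c w.length) {X : Tab} {φ : List ℕ}
    {ψ : Fin w.length → Fin w.length} {g e : Ev} (hψ : Rep φ ψ)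
    (hid : ∀ x, ψ (ψ x) = ψ x) (hc : 3 ≤ (univ.filter fun x => ψ x ≠ x).card)
    (hE : (gr w.length X).Eul) (hf : ∀ a b, (gr w.length X).adj a b = 1 → ψ a ≠ ψ b)
    (hg : Injective (ev θ w.length g)) (he : Injective (ev θ w.length e)) {σ : ℕ}
    (hσ : σ = rk ((gr w.length X).push ψ) (ev θ w.length g) + 2)
    (hr : σ ≤ rk (gr w.length X) (ev θ w.length e)) {a b : Fin w.length} (hab : a ≠ b) :
    Injective (ev θ w.length (redRound c w φ g X a b σ e)) ∧
      σ ≤ rk (gr w.length X) (ev θ w.length (redRound c w φ g X a b σ e)) ∧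
      st w.length (ell c w X a b σ (redRound c w φ g X a b σ e)) ⊆
        st w.length (ell c w X a b σ e) ∧
      ((∀ x x', x' ≠ x → ψ x' = ψ x → x ∈ st w.length (ell c w X a b σ e)) →
        (st w.length (ell c w X a b σ (redRound c w φ g X a b σ e))).card <
          (st w.length (ell c w X a b σ e)).card) := by
  have hT : ∀ (x : Fin w.length) (q : Ev), q ∈ e :: algCA c w a b (ell c w X a b σ e) e
      (redF c w φ g (addG w X (colC c w (ell c w X a b σ e) e X))) X →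
      Injective (ev θ w.length q) → rk (gr w.length X + tri a b x) (ev θ w.length q) ≤
        rk (gr w.length X + tri a b x) (ev θ w.length (redRound c w φ g X a b σ e)) := by
    intro x q hq hq'
    rw [← gr_addTri]
    exact merge_ge_po hs hn (red_small a b X) he
      (List.mem_cons_of_mem _ (List.mem_map.2 ⟨x, mem_rg.2 x.2, rfl⟩)) hq (proper_of_inj _ hq')
  have hsub : st w.length (ell c w X a b σ (redRound c w φ g X a b σ e)) ⊆
      st w.length (ell c w X a b σ e) := by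
    intro x hx
    rw [hs.mem_ell] at hx ⊢
    exact hx.imp_right fun h => h.imp_right fun h => (hT x e List.mem_cons_self he).trans h
  refine ⟨merge_inj hs hn (red_small a b X) he _, hr.trans (merge_ge_po hs hn (red_small a b X) he
    List.mem_cons_self List.mem_cons_self (proper_of_inj _ he)), hsub, fun hl => ?_⟩
  obtain ⟨i1, i2⟩ := red_image hid hc hl
  have hpar : (gr w.length X).par = (σ : ZMod 2) := by
    rw [← par_push hf, ← rk_par (proper_of_inj _ hg), hσ, Nat.cast_add]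
    exact (add_zero _).symm
  obtain ⟨q, hq, hq', x, hx, hxa, hxb, hx'⟩ := algCA_spec hs hn (l := ell c w X a b σ e)
    (f := redF c w φ g (addG w X (colC c w (ell c w X a b σ e) e X))) hE hab
    (hs.mem_ell.2 (Or.inl rfl)) (hs.mem_ell.2 (Or.inr (Or.inl rfl))) (by omega) he
    (redF_inj hs hn _ _ _) hr hpar
    (fun x hx => by
      rw [hs.mem_ell] at hx
      push Not at hx
      exact hx.2.2)
    (fun hY => by
      set Y := gr w.length (colC c w (ell c w X a b σ e) e X) with hYd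
      have hYE : Y.Eul := colC_eul hE
      have hYO : Y.On (st w.length (ell c w X a b σ e)) := colC_on hs hE he
      have r1 := rk_le_of_on (hYE.push ψ) (hYO.push ψ) (proper_of_inj _ hg)
      have r2 := rk_add_le (((gr w.length X) + Y).push ψ) (Y.push ψ) (ev θ w.length g)
      rw [← push_add, add_assoc, Gr.add_self, add_zero] at r2
      have r3 : ∀ {x y}, ψ x = ψ y → ψ x ≠ x → rk ((gr w.length X + Y).push ψ) (ev θ w.length g) +
          ((gr w.length X + Y).adj x y).val ≤ rk (gr w.length X + Y) (ev θ w.length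
            (redF c w φ g (addG w X (colC c w (ell c w X a b σ e) e X)))) := fun h1 h2 => by
        rw [hYd, ← gr_addG]
        exact redF_ge hs hn hψ hid hg _ h1 h2
      by_cases h5 : 5 ≤ (st w.length (ell c w X a b σ e)).card
      · obtain ⟨z, hz⟩ := card_pos.1 (lt_of_lt_of_le (by norm_num) hc)
        have := r3 rfl (mem_filter.1 hz).2
        omega
      · obtain ⟨x, y, hxy⟩ : ∃ x y, Y.adj x y = 1 := by
          by_contra h0
          push Not at h0
          have : Y = 0 := Gr.ext (funext fun x => funext fun y => z2_ne_one.1 (h0 x y))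
          rw [this, rk_zero] at hY
          omega
        have e1 : ψ x = ψ y := card_le_one.1 (by omega) _ (mem_image_of_mem ψ (hYO _ _ hxy)) _
          (mem_image_of_mem ψ (hYO.right hxy))
        by_cases hx : ψ x = x
        · have := r3 e1.symm fun h => ne_of_adj hxy (by rw [← hx, e1, h])
          rw [add_adj, red_adj_zero hf e1.symm, Y.symm, hxy, zero_add, ZMod.val_one] at this
          omega
        · have := r3 e1 hx
          rw [add_adj, red_adj_zero hf e1, hxy, zero_add, ZMod.val_one] at this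
          omega)
  refine card_lt_card ⟨hsub, fun h => ?_⟩
  have h1 := hs.mem_ell.1 (h hx)
  have h2 := hT x q (List.mem_cons_of_mem _ hq) hq'
  rcases h1 with h1 | h1 | h1
  · exact hxa h1
  · exact hxb h1
  · omega

theorem redE_spec (hs : Sem c θ) (hn : Ok c w.length) {X : Tab} {φ : List ℕ}
    {ψ : Fin w.length → Fin w.length} {g e : Ev} (hψ : Rep φ ψ)
    (hid : ∀ x, ψ (ψ x) = ψ x) (hc : 3 ≤ (univ.filter fun x => ψ x ≠ x).card)
    (hE : (gr w.length X).Eul) (hf : ∀ a b, (gr w.length X).adj a b = 1 → ψ a ≠ ψ b)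
    (hg : Injective (ev θ w.length g)) (he : Injective (ev θ w.length e)) {σ : ℕ}
    (hσ : σ = rk ((gr w.length X).push ψ) (ev θ w.length g) + 2)
    (hr : σ ≤ rk (gr w.length X) (ev θ w.length e)) :
    Injective (ev θ w.length (redE c w φ g X σ e)) ∧
      ∃ a b x y t : Fin w.length, a ≠ b ∧ a ≠ x ∧ a ≠ y ∧ b ≠ x ∧ b ≠ y ∧ x ≠ y ∧ ψ a = ψ b ∧
        ψ x = ψ y ∧ (t = x ∨ t = y) ∧
        σ + 1 ≤ rk (gr w.length X + tri a b t) (ev θ w.length (redE c w φ g X σ e)) ∧
        ψ b ≠ b ∧ ψ y ≠ y := by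
  obtain ⟨a, b, hp, hab⟩ := pick_pairs (w := w)
    (p := fun q => !decide (q.1 = q.2) && decide (gm φ q.1 = gm φ q.2)) (0, 0) (by
      obtain ⟨z, hz⟩ := card_pos.1 (lt_of_lt_of_le (by norm_num) hc)
      refine ⟨ψ z, z, ?_⟩
      simpa [hψ z, hψ (ψ z), hid, Fin.val_inj] using (mem_filter.1 hz).2)
  simp only [hψ a, hψ b, Fin.val_inj, Bool.and_eq_true, Bool.not_eq_true', decide_eq_false_iff_not,
    decide_eq_true_eq] at hab
  have key : ∀ k : ℕ, Injective (ev θ w.length ((redRound c w φ g X a b σ)^[k] e)) ∧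
      σ ≤ rk (gr w.length X) (ev θ w.length ((redRound c w φ g X a b σ)^[k] e)) ∧
      ((∀ x x', x' ≠ x → ψ x' = ψ x →
          x ∈ st w.length (ell c w X a b σ ((redRound c w φ g X a b σ)^[k] e))) →
        (st w.length (ell c w X a b σ ((redRound c w φ g X a b σ)^[k] e))).card + k ≤
          w.length) := by
    intro k
    induction k with
    | zero => exact ⟨he, hr, fun _ => by simpa using card_le_univ (st w.length (ell c w X a b σ e))⟩
    | succ k ih =>
      rw [Function.iterate_succ_apply']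
      obtain ⟨h1, h2, h3, h4⟩ := redRound_spec hs hn hψ hid hc hE hf hg ih.1 hσ ih.2.1 hab.1
      refine ⟨h1, h2, fun hl => ?_⟩
      have h5 := fun x x' e1 e2 => h3 (hl x x' e1 e2)
      have h6 := h4 h5
      have h7 := ih.2.2 h5
      omega
  rw [redE, hp]
  obtain ⟨h1, h2, h3⟩ := key w.length
  refine ⟨h1, ?_⟩
  obtain ⟨x, x', e1, e2, hx⟩ : ∃ x x', x' ≠ x ∧ ψ x' = ψ x ∧
      x ∉ st w.length (ell c w X a b σ ((redRound c w φ g X a b σ)^[w.length] e)) := by
    by_contra h0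
    push Not at h0
    have h4 := h3 h0
    have h5 := (red_image hid hc h0).2
    omega
  rw [hs.mem_ell] at hx
  push Not at hx
  obtain ⟨a', b', x', y', t, k1, k2, k3, k4, k5, k6, k7, k8, k9, k10⟩ :=
    red_quad hid hc h1 h2 hab.1 hab.2 hx.1.symm hx.2.1.symm e1 e2 hx.2.2
  exact red_quad' k1 k2 k3 k4 k5 k6 k7 k8 k9 k10

theorem redOk_iff (hs : Sem c θ) {X : Tab} {φ : List ℕ} {ψ : Fin w.length → Fin w.length}
    (hψ : Rep φ ψ) {σ : ℕ} {x y : Fin w.length} {f : Ev} :
    redOk c w φ X σ (((x : ℕ), (y : ℕ)), f) = true ↔ x ≠ y ∧ ψ x = ψ y ∧ ψ x ≠ x ∧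
      Injective (ev θ w.length f) ∧ σ ≤ rk ((gr w.length X).ctr x y) (ev θ w.length f) := by
  simp only [redOk, Bool.and_eq_true, hs.propC_iff, proper_full_iff, hs.rkC_eq, gr_ctrG, hψ x, hψ y,
    Fin.val_inj, Bool.not_eq_true', decide_eq_false_iff_not, decide_eq_true_eq, and_assoc, ne_eq]

theorem redPick_spec (hs : Sem c θ) (hn : Ok c w.length) {X : Tab} {φ : List ℕ}
    {ψ : Fin w.length → Fin w.length} {g e : Ev} (hψ : Rep φ ψ)
    (hid : ∀ x, ψ (ψ x) = ψ x) (hc : 3 ≤ (univ.filter fun x => ψ x ≠ x).card)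
    (hE : (gr w.length X).Eul) (hf : ∀ a b, (gr w.length X).adj a b = 1 → ψ a ≠ ψ b)
    (hg : Injective (ev θ w.length g)) (he : Injective (ev θ w.length e)) {σ : ℕ}
    (hσ : σ = rk ((gr w.length X).push ψ) (ev θ w.length g) + 2)
    (hr : σ ≤ rk (gr w.length X) (ev θ w.length e)) :
    ∃ (x y : Fin w.length) (f : Ev), redPick c w φ g X σ e = (((x : ℕ), (y : ℕ)), f) ∧ x ≠ y ∧
      ψ x = ψ y ∧ ψ x ≠ x ∧ Injective (ev θ w.length f) ∧
      σ ≤ rk ((gr w.length X).ctr x y) (ev θ w.length f) := by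
  obtain ⟨h0, a, b, x, y, t, k1, k2, k3, k4, k5, k6, k7, k8, k9, k10, k11, k12⟩ :=
    redE_spec hs hn hψ hid hc hE hf hg he hσ hr
  set e2 := line c w [po w (ctrG w (ctrG w X b a) y x)] (ev0 w) (cmp w φ g) with he2
  have h2 : Injective (ev θ w.length e2) :=
    line_inj hs hn small_po (Or.inl (hn.ev0_inj hs (by omega)))
  have r2 : rk ((gr w.length X).push ψ) (ev θ w.length g) ≤
      rk (((gr w.length X).ctr b a).ctr y x) (ev θ w.length e2) := by
    have r := line_right_po hs hn small_po (ev0 w) (p := cmp w φ g)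
      (Y := ctrG w (ctrG w X b a) y x) (List.mem_singleton.2 rfl) (by
        rw [ev_cmp hψ, gr_ctrG, gr_ctrG]
        exact proper_comp hg (red_free_ctr (red_free_ctr hf k7.symm) k8.symm))
    rw [ev_cmp hψ, gr_ctrG, gr_ctrG] at r
    refine le_trans ?_ r
    rw [← push_ctr _ k7.symm, ← push_ctr _ k8.symm]
    exact rk_push_le _ _ _
  set f := algQ c w (a, b, x, y) (a, b, t) (redE c w φ g X σ e) e2 X with hfd
  have hfi : Injective (ev θ w.length f) := algQ_inj hs hn _ _ _ _ h2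
  have hQ := algQ_spec hs hn (m := rk ((gr w.length X).push ψ) (ev θ w.length g)) hE k1 k2 k3 k4 k5
    k6 k9 (red_adj_zero hf k8) h0 h2 (by omega) (by omega)
  rw [red_adj_zero hf k7, ZMod.val_zero, ← hfd] at hQ
  have hpar : ∀ u v, ψ u = ψ v → (rk ((gr w.length X).ctr u v) (ev θ w.length f) : ZMod 2) =
      rk ((gr w.length X).push ψ) (ev θ w.length g) := fun u v h => by
    rw [rk_par (proper_of_inj _ hfi), rk_par (proper_of_inj _ hg), par_push hf, par_ctr,
      red_adj_zero hf h, add_zero]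
  have hmem : f ∈ redC c w φ g X (redE c w φ g X σ e) := by
    refine List.mem_flatMap.2 ⟨((a : ℕ), (b : ℕ), (x : ℕ), (y : ℕ)),
      mem_quads.2 ⟨a.2, b.2, x.2, y.2⟩, List.mem_map.2 ⟨((a : ℕ), (b : ℕ), (t : ℕ)), ?_, rfl⟩⟩
    rcases k9 with rfl | rfl <;> simp
  have hex : ∃ u v : Fin w.length, redOk c w φ X σ (((u : ℕ), (v : ℕ)), f) = true := by
    rcases hQ with hQ | hQ
    · refine ⟨b, a, (redOk_iff hs hψ).2 ⟨k1.symm, k7.symm, k11, hfi, ?_⟩⟩
      rw [hσ]
      exact red_parity (hpar b a k7.symm) (by omega)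
    · refine ⟨y, x, (redOk_iff hs hψ).2 ⟨k6.symm, k8.symm, k12, hfi, ?_⟩⟩
      rw [hσ]
      exact red_parity (hpar y x k8.symm) (by omega)
  obtain ⟨u, v, huv⟩ := hex
  obtain ⟨p1, p2⟩ := pick_spec (l := (pairs w).flatMap fun q =>
    (redC c w φ g X (redE c w φ g X σ e)).map fun f => (q, f)) (p := redOk c w φ X σ) ((0, 0), [])
    ⟨_, List.mem_flatMap.2 ⟨_, mem_pairs.2 ⟨u.2, v.2⟩, List.mem_map.2 ⟨f, hmem, rfl⟩⟩, huv⟩
  obtain ⟨⟨q1, q2⟩, hq, hq'⟩ := List.mem_flatMap.1 p1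
  obtain ⟨f', -, hf'⟩ := List.mem_map.1 hq'
  obtain ⟨hq1, hq2⟩ := mem_pairs.1 hq
  rw [← hf'] at p2
  exact ⟨⟨q1, hq1⟩, ⟨q2, hq2⟩, f', hf'.symm,
    (redOk_iff hs hψ (x := ⟨q1, hq1⟩) (y := ⟨q2, hq2⟩)).1 p2⟩

theorem red_nfix {φ : List ℕ} {ψ : Fin w.length → Fin w.length} (hψ : Rep φ ψ) :
    nfix w φ = (univ.filter fun x => ψ x ≠ x).card := by
  rw [nfix, length_filter_rg]
  congr 1
  refine filter_congr fun x _ => ?_
  simp [hψ x, Fin.val_inj]

/-- The invariant of the reduction loop. -/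
def RedInv (θ : Fe → F) (w : Un) (X : Gr (Fin w.length)) (ψ : Fin w.length → Fin w.length) (σ k : ℕ)
    (s : Tab × List ℕ × Ev) : Prop :=
  ∃ ψ' : Fin w.length → Fin w.length, Rep s.2.1 ψ' ∧ (∀ x, ψ' (ψ' x) = ψ' x) ∧
    (gr w.length s.1).Eul ∧ (∀ a b, (gr w.length s.1).adj a b = 1 → ψ' a ≠ ψ' b) ∧
    (gr w.length s.1).push ψ' = X.push ψ ∧ Injective (ev θ w.length s.2.2) ∧
    σ ≤ rk (gr w.length s.1) (ev θ w.length s.2.2) ∧
    (∀ p : Fin w.length → F, rk (gr w.length s.1) (p ∘ ψ') ≤ rk X (p ∘ ψ)) ∧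
    (univ.filter fun x => ψ' x ≠ x).card ≤ max 2 (w.length - k)

theorem redStep_inv (hs : Sem c θ) (hn : Ok c w.length) {X : Gr (Fin w.length)}
    {ψ : Fin w.length → Fin w.length} {g : Ev} (hg : Injective (ev θ w.length g)) {σ k : ℕ}
    (hσ : σ = rk (X.push ψ) (ev θ w.length g) + 2) {s : Tab × List ℕ × Ev}
    (h : RedInv θ w X ψ σ k s) : RedInv θ w X ψ σ (k + 1) (redStep c w g σ s) := by
  obtain ⟨ψ', h1, h2, h3, h4, h5, h6, h7, h8, h9⟩ := h
  rw [redStep, red_nfix h1]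
  split_ifs with hc
  · exact ⟨ψ', h1, h2, h3, h4, h5, h6, h7, h8, hc.trans (le_max_left _ _)⟩
  obtain ⟨x, y, f, e1, e2, e3, e4, e5, e6⟩ := redPick_spec hs hn h1 h2 (by omega) h3 h4 hg h6
    (by rw [h5]; exact hσ) h7
  have hiso : ∀ a b, ((gr w.length s.1).ctr x y).adj a b = 1 → update ψ' x x a = ψ' a := by
    intro a b hab
    refine update_of_ne (fun h => ?_) _ _
    rw [h, ctr_adj_left e2] at hab
    exact zero_ne_one hab
  rw [e1]
  refine ⟨update ψ' x x, fun a => ?_, fun a => ?_, ?_, fun a b hab => ?_, ?_, e5, ?_, fun p => ?_,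
    ?_⟩
  · simp only [redNext]
    rw [gm_map]
    by_cases ha : a = x
    · simp [ha]
    · rw [update_of_ne ha, if_neg (fun h => ha (Fin.ext h)), h1 a]
  · by_cases ha : a = x
    · simp [ha]
    · rw [update_of_ne ha, update_of_ne (fun h => e4 (by rw [← h, h2])), h2]
  · simp only [redNext, gr_ctrG]
    exact h3.ctr x y
  · simp only [redNext, gr_ctrG] at hab
    rw [hiso a b hab, hiso b a (by rw [Gr.symm]; exact hab)]
    exact red_free_ctr h4 e3 a b hab
  · simp only [redNext, gr_ctrG]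
    rw [push_congr hiso, push_ctr _ e3, h5]
  · simpa only [redNext, gr_ctrG] using e6
  · simp only [redNext, gr_ctrG]
    refine le_trans ?_ (h8 p)
    rw [rk_congr (p := p ∘ update ψ' x x) (q := p ∘ ψ') fun a b hab => congrArg p (hiso a b hab),
      ctr_eq_push]
    refine (rk_push_le _ _ _).trans (le_of_eq ?_)
    congr 1
    funext z
    by_cases hz : z = x
    · simp [hz, e3]
    · simp [update_of_ne hz]
  · have : (univ.filter fun z => update ψ' x x z ≠ z) = (univ.filter fun z => ψ' z ≠ z).erase x := by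
      ext z
      by_cases hz : z = x
      · simp [hz]
      · simp [hz]
    rw [this, card_erase_of_mem (by simpa using e4)]
    omega

theorem algM_inj (hs : Sem c θ) (hn : Ok c w.length) (φ : List ℕ) {g : Ev} (e : Ev) (σ : ℕ)
    (X : Tab) (hg : Injective (ev θ w.length g)) :
    Injective (ev θ w.length (algM c w φ g e σ X)) :=
  algV_inj hs hn _ _ _ hg

theorem algM_spec (hs : Sem c θ) (hn : Ok c w.length) {X : Tab} {φ : List ℕ}
    {ψ : Fin w.length → Fin w.length} {g e : Ev} (hψ : Rep φ ψ) (hid : ∀ x, ψ (ψ x) = ψ x)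
    (hE : (gr w.length X).Eul) (hf : ∀ a b, (gr w.length X).adj a b = 1 → ψ a ≠ ψ b)
    (hg : Injective (ev θ w.length g)) (he : Injective (ev θ w.length e)) {σ : ℕ}
    (hσ : σ = rk ((gr w.length X).push ψ) (ev θ w.length g) + 2)
    (hr : σ ≤ rk (gr w.length X) (ev θ w.length e)) :
    σ ≤ rk (gr w.length X) (ev θ w.length (algM c w φ g e σ X) ∘ ψ) := by
  have key : ∀ k : ℕ, RedInv θ w (gr w.length X) ψ σ k ((redStep c w g σ)^[k] (X, φ, e)) := by
    intro k
    induction k with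
    | zero =>
      exact ⟨ψ, hψ, hid, hE, hf, rfl, he, hr, fun _ => le_rfl,
        le_max_of_le_right (by simpa using card_le_univ (univ.filter fun x => ψ x ≠ x))⟩
    | succ k ih =>
      rw [Function.iterate_succ_apply']
      exact redStep_inv hs hn hg hσ ih
  obtain ⟨ψ', h1, h2, h3, h4, h5, h6, h7, h8, h9⟩ := key w.length
  have h := algV_spec hs hn (m := rk ((gr w.length X).push ψ) (ev θ w.length g)) h1 h2
    (by simpa using h9) h3 h4 h6 hg (by omega) (by rw [h5])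
  refine le_trans ?_ (h8 _)
  rw [algM, redEnd]
  omega

end Pool.Agent.MP_bae0ed_lc.H52
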