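import Pool.Agent.MP_bae0ed_lc.H52.SpecRed
import Pool.Agent.MP_bae0ed_lc.H52.SpecFind
import Pool.Agent.MP_bae0ed_lc.H52.Pot

/-!
The main loop.
-/

set_option autoImplicit false
set_option linter.unusedSectionVars false

namespace Pool.Agent.MP_bae0ed_lc.H52

open Finset Matrix Function Module Gr

variable {c : Ctx} {F : Type} [Field F] [CharP F 2] {θ : Fe → F} {w : Un}

/-- The invariant of the main loop. -/
def TopI (θ : Fe → F) (w : Un) (G : Tab) (E : List Ev) : Prop :=
  E ≠ [] ∧ ∀ e ∈ E, Injective (ev θ w.length e) ∧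
    rk (gr w.length G) (ev θ w.length e) = rk (gr w.length G) (ev θ w.length (E.headD []))

theorem top_head_mem {E : List Ev} (h : E ≠ []) : E.headD [] ∈ E := by
  cases E with
  | nil => exact absurd rfl h
  | cons e E => exact List.mem_cons_self

theorem top_small (G H : Tab) (φ : List ℕ) : Small w.length w [po w G, (w, H, φ)] := by
  refine ⟨by omega, ?_, ?_⟩
  · have : 0 < (w.length + 1) ^ 4 := by positivity
    simp only [List.length_cons, List.length_nil]
    omega
  · intro o ho
    simp only [List.mem_cons, List.not_mem_nil, or_false] at ho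
    rcases ho with rfl | rfl <;> simp only [po] <;> omega

theorem topNew_basic (hs : Sem c θ) (hn : Ok c w.length) {G : Tab} {E : List Ev}
    (hI : TopI θ w G E) (s : Tab × List ℕ) :
    Injective (ev θ w.length (topNew c w G E s)) ∧
      rk (gr w.length G) (ev θ w.length (E.headD [])) ≤
        rk (gr w.length G) (ev θ w.length (topNew c w G E s)) := by
  have h0 := (hI.2 _ (top_head_mem hI.1)).1
  exact ⟨line_inj hs hn (top_small _ _ _) (Or.inl h0),
    line_left_po hs hn (top_small _ _ _) _ List.mem_cons_self (proper_of_inj _ h0)⟩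

theorem topStep_inv (hs : Sem c θ) (hn : Ok c w.length) (N : Un) {G : Tab} {E : List Ev}
    (hI : TopI θ w G E) : TopI θ w G (topStep c w N G E) ∧
      rk (gr w.length G) (ev θ w.length (E.headD [])) ≤
        rk (gr w.length G) (ev θ w.length ((topStep c w N G E).headD [])) := by
  obtain ⟨h1, h2⟩ := topNew_basic hs hn hI (algS c w N G E)
  unfold topStep topUpd
  generalize topNew c w G E (algS c w N G E) = e at h1 h2
  rw [hs.rkC_eq, hs.rkC_eq]
  split_ifs with h
  · refine ⟨⟨by simp, fun q hq => ?_⟩, h2⟩
    obtain rfl : q = e := by simpa using hq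
    exact ⟨h1, rfl⟩
  · refine ⟨⟨by simp, fun q hq => ?_⟩, h2⟩
    rcases List.mem_cons.1 hq with rfl | hq
    · exact ⟨h1, rfl⟩
    · refine ⟨(hI.2 q hq).1, ?_⟩
      rw [(hI.2 q hq).2, List.headD_cons]
      omega

theorem top_parity {a b : ℕ} (h : (a : ZMod 2) = (b : ZMod 2)) (hab : a < b) : a + 2 ≤ b := by
  have := (ZMod.natCast_eq_natCast_iff' a b 2).1 h
  omega

theorem topNew_progress (hs : Sem c θ) (hn : Ok c w.length) {N : Un} {G : Tab} {E : List Ev}
    (hw : w.length = 4 * N.length + 1)
    (hG : ∀ a b, (gr w.length G).adj a b = 1 → (a : ℕ) < N.length) (hE : (gr w.length G).Eul)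
    (hI : TopI θ w G E) {p : Fin w.length → F} (hp : Injective p)
    (hlt : rk (gr w.length G) (ev θ w.length (E.headD [])) < rk (gr w.length G) p) :
    ∃ (H : Gr (Fin w.length)) (ψ : Fin w.length → Fin w.length), H.push ψ = gr w.length G ∧
      (∀ e ∈ E, rk H (ev θ w.length e ∘ ψ) ≤ rk (gr w.length G) (ev θ w.length e)) ∧
      rk (gr w.length G) (ev θ w.length (E.headD [])) <
        rk H (ev θ w.length (topNew c w G E (algS c w N G E)) ∘ ψ) := by
  obtain ⟨ψ, hψ, hid, hH, hf, hpush, hiso, hrk, hmax⟩ :=
    algS_basic hs hw hG hE hI.1 fun e he => (hI.2 e he).1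
  generalize algS c w N G E = s at *
  obtain ⟨H, φ⟩ := s
  dsimp only at *
  have h0 := (hI.2 _ (top_head_mem hI.1)).1
  refine ⟨gr w.length H, ψ, hpush, fun e he => (hrk e he).le, ?_⟩
  have hN : rk (gr w.length G) p ≤ N.length - 2 := by
    have hon : (gr w.length G).On (univ.filter fun a => (a : ℕ) < N.length) :=
      fun a b hab => by simpa using hG a b hab
    refine (rk_le_of_on hE hon (proper_of_inj _ hp)).trans (Nat.sub_le_sub_right ?_ 2)
    rw [← Finset.card_range N.length]
    refine Finset.card_le_card_of_injOn (fun a => (a : ℕ)) (fun a ha => ?_) fun a _ b _ h => Fin.ext h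
    simpa using ha
  have hsp : ((⟨w.length - 1, by omega⟩ : Fin w.length) : ℕ) = sp w := rfl
  have hF := algF_spec hs hn (H := H) (E := E)
    (m := rk (gr w.length G) (ev θ w.length (E.headD []))) hψ hH hf hsp (hiso _ hsp) hI.1
    (fun e he => (hI.2 e he).1) (fun e he => (hrk e he).trans (hI.2 e he).2)
    (fun e he => by rw [hpush]; exact (hI.2 e he).2)
    (hmax.imp (fun h => by omega) id)
    ⟨p ∘ ψ, proper_comp hp hf, hlt.trans_le (by rw [← hpush]; exact rk_push_le _ _ _)⟩
  have hFi := algF_inj hs hn H (E.map (cmp w φ))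
  have hpar : ((rk (gr w.length G) (ev θ w.length (E.headD [])) : ℕ) : ZMod 2) =
      (rk (gr w.length H) (ev θ w.length (algF c w H (E.map (cmp w φ)))) : ℕ) := by
    rw [rk_par (proper_of_inj _ h0), rk_par (proper_of_inj _ hFi), ← hpush, par_push hf]
  have hM := algM_spec hs hn (X := H) (σ := rkC c w G (E.headD []) + 2) hψ hid hH hf h0 hFi
    (by rw [hs.rkC_eq, hpush]) (by rw [hs.rkC_eq]; exact top_parity hpar hF)
  have hMi := algM_inj hs hn φ (algF c w H (E.map (cmp w φ))) (rkC c w G (E.headD []) + 2) H h0
  have hl := line_right hs hn (top_small G H φ) (E.headD [])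
    (List.mem_cons_of_mem _ List.mem_cons_self) hψ (proper_comp hMi hf)
  refine lt_of_lt_of_le ?_ (hM.trans hl)
  rw [hs.rkC_eq]
  omega

/-- The intersection of the spaces of a list of evaluations. -/
def topK {U : Type} [AddCommGroup U] [Module (ZMod 2) U] (K : Ev → Submodule (ZMod 2) U) :
    List Ev → Submodule (ZMod 2) U
  | [] => ⊤
  | e :: E => K e ⊓ topK K E

theorem mem_topK {U : Type} [AddCommGroup U] [Module (ZMod 2) U] {K : Ev → Submodule (ZMod 2) U}
    {E : List Ev} {a : U} (h : ∀ e ∈ E, a ∈ K e) : a ∈ topK K E := by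
  induction E with
  | nil => trivial
  | cons e E ih => exact ⟨h e List.mem_cons_self, ih fun q hq => h q (List.mem_cons_of_mem _ hq)⟩

theorem topRun_spec (hs : Sem c θ) (hn : Ok c w.length) {N : Un} {G : Tab}
    (hw : w.length = 4 * N.length + 1)
    (hG : ∀ a b, (gr w.length G).adj a b = 1 → (a : ℕ) < N.length) (hE : (gr w.length G).Eul) :
    Injective (ev θ w.length ((topRun c w N G).headD [])) ∧
      ∀ p : Fin w.length → F, Injective p → rk (gr w.length G) p ≤
        rk (gr w.length G) (ev θ w.length ((topRun c w N G).headD [])) := by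
  have hI0 : TopI θ w G [ev0 w] := ⟨by simp, fun e he => by
    obtain rfl : e = ev0 w := by simpa using he
    exact ⟨Ok.ev0_inj hs hn (by omega), rfl⟩⟩
  have hI : ∀ k, TopI θ w G ((topStep c w N G)^[k] [ev0 w]) := by
    intro k
    induction k with
    | zero => exact hI0
    | succ k ih => rw [iterate_succ_apply']; exact (topStep_inv hs hn N ih).1
  refine ⟨((hI _).2 _ (top_head_mem (hI _).1)).1, fun p hp => ?_⟩
  obtain ⟨K, A, hK⟩ := exists_pot (F := F) (gr w.length G)
  set D := finrank (ZMod 2) (PotSp (Fin w.length)) with hD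
  let μ : List Ev → ℕ := fun E =>
    (w.length - rk (gr w.length G) (ev θ w.length (E.headD []))) * (D + 1) +
      finrank (ZMod 2) (topK (fun e => K (ev θ w.length e)) E)
  have hle : ∀ E, finrank (ZMod 2) (topK (fun e => K (ev θ w.length e)) E) ≤ D :=
    fun E => Submodule.finrank_le _
  have key : ∀ k, rk (gr w.length G) p ≤
      rk (gr w.length G) (ev θ w.length (((topStep c w N G)^[k] [ev0 w]).headD [])) ∨
      μ ((topStep c w N G)^[k] [ev0 w]) + k ≤ μ [ev0 w] := by
    intro k
    induction k with
    | zero => exact Or.inr le_rfl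
    | succ k ih =>
      rw [iterate_succ_apply']
      have hk := hI k
      generalize (topStep c w N G)^[k] [ev0 w] = E at ih hk
      obtain ⟨-, hmono⟩ := topStep_inv hs hn N hk
      by_cases hlt : rk (gr w.length G) (ev θ w.length (E.headD [])) < rk (gr w.length G) p
      swap
      · exact Or.inl (by omega)
      refine Or.inr ?_
      have ih' := ih.resolve_left (by omega)
      suffices h : μ (topStep c w N G E) < μ E by omega
      obtain ⟨H, ψ, hpush, hold, hnew⟩ := topNew_progress hs hn hw hG hE hk hp hlt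
      obtain ⟨-, h2⟩ := topNew_basic hs hn hk (algS c w N G E)
      unfold topStep topUpd
      generalize topNew c w G E (algS c w N G E) = e at hnew h2
      rw [hs.rkC_eq, hs.rkC_eq]
      split_ifs with h
      · have h3 := hle [e]
        have h4 := rk_le_card (gr w.length G) (ev θ w.length e)
        rw [Fintype.card_fin] at h4
        simp only [μ, List.headD_cons]
        have h5 : (w.length - rk (gr w.length G) (ev θ w.length e) + 1) * (D + 1) ≤
            (w.length - rk (gr w.length G) (ev θ w.length (E.headD []))) * (D + 1) :=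
          Nat.mul_le_mul_right _ (by omega)
        rw [add_mul] at h5
        omega
      · have h3 : rk (gr w.length G) (ev θ w.length e) =
            rk (gr w.length G) (ev θ w.length (E.headD [])) := by omega
        simp only [μ, List.headD_cons, h3]
        refine Nat.add_lt_add_left (Submodule.finrank_lt_finrank_of_lt ?_) _
        refine lt_of_le_of_ne inf_le_right fun heq => ?_
        have h4 : A H ψ ∈ topK (fun e => K (ev θ w.length e)) E :=
          mem_topK fun q hq => (hK _ H ψ hpush).1 (hold q hq)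
        rw [← heq] at h4
        have h5 := (hK _ H ψ hpush).2 h4.1
        omega
  refine (key ((w.length + 1) ^ 7)).resolve_right fun h => ?_
  have h1 : μ [ev0 w] ≤ w.length * (D + 1) + D :=
    Nat.add_le_add (Nat.mul_le_mul_right _ (Nat.sub_le _ _)) (hle _)
  have h2 : D + 1 ≤ (w.length + 1) ^ 6 := by
    rw [hD, finrank_potSp, Fintype.card_fin]
    generalize w.length = n
    have : (n + 1) ^ 6 = n ^ 4 * (n ^ 2 + n) + 1 +
        (5 * n ^ 5 + 15 * n ^ 4 + 20 * n ^ 3 + 15 * n ^ 2 + 6 * n) := by ring
    omega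
  have h3 : (w.length + 1) * (D + 1) ≤ (w.length + 1) ^ 7 := by
    rw [pow_succ' _ 6]
    exact Nat.mul_le_mul_left _ h2
  rw [add_mul] at h3
  omega

end Pool.Agent.MP_bae0ed_lc.H52
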